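import Pool.Agent.helper55.FP.Defs

/-! Module Resample: resampling one coordinate preserves the product measure. -/

set_option autoImplicit false

open MeasureTheory Set Filter Topology
open scoped ENNReal

namespace Pool.Agent.helper55.FP

variable {d : ℕ}

/-! ## B3 : resampling one coordinate -/

theorem measurable_update_pair (e : E d) :
    Measurable (fun z : Cfg d × ℝ => Function.update z.1 e z.2) := by
  rw [measurable_pi_iff]
  intro a
  by_cases h : a = e
  · subst h
    simp only [Function.update_self]
    exact measurable_snd
  · simp only [Function.update_of_ne h]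
    exact (measurable_pi_apply a).comp measurable_fst

theorem measurePreserving_update (e : E d) :
    MeasurePreserving (fun z : Cfg d × ℝ => Function.update z.1 e z.2) ((P d).prod unif) (P d) := by
  classical
  refine ⟨measurable_update_pair e, ?_⟩
  refine Measure.eq_infinitePi _ (fun s t ht => ?_)
  have hs : MeasurableSet (Set.pi (s : Set (E d)) t) :=
    MeasurableSet.pi s.countable_toSet (fun i _ => ht i)
  rw [Measure.map_apply (measurable_update_pair e) hs]
  by_cases he : e ∈ s
  · have h1 : (fun z : Cfg d × ℝ => Function.update z.1 e z.2) ⁻¹' (Set.pi (s : Set (E d)) t)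
        = (Set.pi ((s.erase e : Finset (E d)) : Set (E d)) t) ×ˢ t e := by
      ext ⟨U, x⟩
      simp only [mem_preimage, Set.mem_pi, mem_prod, Finset.mem_coe, Finset.mem_erase]
      constructor
      · intro h
        refine ⟨fun i hi => ?_, ?_⟩
        · have := h i hi.2
          rwa [Function.update_of_ne hi.1] at this
        · have := h e he
          rwa [Function.update_self] at this
      · rintro ⟨h2, h3⟩ i hi
        by_cases hie : i = e
        · subst hie
          rwa [Function.update_self]
        · rw [Function.update_of_ne hie]
          exact h2 i ⟨hie, hi⟩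
    rw [h1, Measure.prod_prod]
    unfold P
    rw [Measure.infinitePi_pi _ (fun i _ => ht i), mul_comm]
    exact Finset.mul_prod_erase s (fun i => unif (t i)) he
  · have h1 : (fun z : Cfg d × ℝ => Function.update z.1 e z.2) ⁻¹' (Set.pi (s : Set (E d)) t)
        = (Set.pi (s : Set (E d)) t) ×ˢ univ := by
      ext ⟨U, x⟩
      simp only [mem_preimage, Set.mem_pi, mem_prod, Finset.mem_coe, mem_univ, and_true]
      refine forall_congr' (fun i => forall_congr' (fun hi => ?_))
      have hie : i ≠ e := by rintro rfl; exact he hi
      rw [Function.update_of_ne hie]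
    rw [h1, Measure.prod_prod, measure_univ, mul_one]
    unfold P
    rw [Measure.infinitePi_pi _ (fun i _ => ht i)]

theorem prob_level (e : E d) {p q : ℝ} (hp : 0 ≤ p) (hpq : p ≤ q) (hq : q ≤ 1) :
    (P d).real {U : Cfg d | p < U e ∧ U e ≤ q} = q - p := by
  have h1 : MeasurePreserving (Function.eval e) (P d) unif := by
    unfold P
    exact measurePreserving_eval_infinitePi (fun _ : E d => unif) e
  have h2 : {U : Cfg d | p < U e ∧ U e ≤ q} = (Function.eval e) ⁻¹' (Ioc p q) := rfl
  rw [h2, h1.measureReal_preimage measurableSet_Ioc.nullMeasurableSet, measureReal_def]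
  unfold unif
  rw [Measure.restrict_apply measurableSet_Ioc, inter_eq_self_of_subset_left, Real.volume_Ioc,
    ENNReal.toReal_ofReal (by linarith)]
  intro x hx
  exact ⟨hp.trans hx.1.le, hx.2.trans hq⟩

end Pool.Agent.helper55.FP
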