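import Pool.Agent.helper55.FP.Defs
import Pool.Agent.helper55.FP.Resample

/-! Module BK: van den Berg - Kesten inequality (two levels). -/

set_option autoImplicit false

open MeasureTheory Set Filter Topology
open scoped ENNReal

namespace Pool.Agent.helper55.FP

variable {d : ℕ}

namespace BK

/-- the interpolating event -/
def ES (p q : ℝ) (𝒜 ℬ : Set (Finset (E d))) (S : Finset (E d)) : Set (Cfg d × Cfg d) :=
  {z | ∃ K : Finset (E d), ∃ L : Finset (E d), K ∈ 𝒜 ∧ L ∈ ℬ ∧ (∀ f, f ∈ K → f ∈ L → f ∈ S) ∧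
    (∀ f ∈ K, z.1 f ≤ p) ∧ (∀ f ∈ L, f ∈ S → z.2 f ≤ q) ∧ (∀ f ∈ L, f ∉ S → z.1 f ≤ q)}

theorem measurableSet_ES (p q : ℝ) (𝒜 ℬ : Set (Finset (E d))) (S : Finset (E d)) :
    MeasurableSet (ES p q 𝒜 ℬ S) := by
  classical
  have h1 : ES p q 𝒜 ℬ S = ⋃ K : Finset (E d), ⋃ L : Finset (E d),
      {z : Cfg d × Cfg d | K ∈ 𝒜 ∧ L ∈ ℬ ∧ (∀ f, f ∈ K → f ∈ L → f ∈ S) ∧
      (∀ f ∈ K, z.1 f ≤ p) ∧ (∀ f ∈ L, f ∈ S → z.2 f ≤ q) ∧ (∀ f ∈ L, f ∉ S → z.1 f ≤ q)} := by
    ext z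
    simp only [ES, mem_ofPred_eq, mem_iUnion]
  rw [h1]
  refine MeasurableSet.iUnion fun K => MeasurableSet.iUnion fun L => ?_
  have m1 : ∀ f : E d, MeasurableSet {z : Cfg d × Cfg d | z.1 f ≤ p} := fun f =>
    measurableSet_le ((measurable_pi_apply f).comp measurable_fst) measurable_const
  have m1q : ∀ f : E d, MeasurableSet {z : Cfg d × Cfg d | z.1 f ≤ q} := fun f =>
    measurableSet_le ((measurable_pi_apply f).comp measurable_fst) measurable_const
  have m2 : ∀ f : E d, MeasurableSet {z : Cfg d × Cfg d | z.2 f ≤ q} := fun f =>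
    measurableSet_le ((measurable_pi_apply f).comp measurable_snd) measurable_const
  have m3 : MeasurableSet {z : Cfg d × Cfg d | ∀ f ∈ K, z.1 f ≤ p} := by
    have : {z : Cfg d × Cfg d | ∀ f ∈ K, z.1 f ≤ p} = ⋂ f ∈ (K : Set (E d)),
        {z : Cfg d × Cfg d | z.1 f ≤ p} := by
      ext z; simp
    rw [this]
    exact MeasurableSet.biInter K.countable_toSet fun f _ => m1 f
  have m4 : MeasurableSet {z : Cfg d × Cfg d | ∀ f ∈ L, f ∈ S → z.2 f ≤ q} := by
    have : {z : Cfg d × Cfg d | ∀ f ∈ L, f ∈ S → z.2 f ≤ q} = ⋂ f ∈ ({f ∈ L | f ∈ S} : Set (E d)),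
        {z : Cfg d × Cfg d | z.2 f ≤ q} := by
      ext z; simp
    rw [this]
    exact MeasurableSet.biInter (Set.to_countable _) fun f _ => m2 f
  have m5 : MeasurableSet {z : Cfg d × Cfg d | ∀ f ∈ L, f ∉ S → z.1 f ≤ q} := by
    have : {z : Cfg d × Cfg d | ∀ f ∈ L, f ∉ S → z.1 f ≤ q} = ⋂ f ∈ ({f ∈ L | f ∉ S} : Set (E d)),
        {z : Cfg d × Cfg d | z.1 f ≤ q} := by
      ext z; simp
    rw [this]
    exact MeasurableSet.biInter (Set.to_countable _) fun f _ => m1q f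
  by_cases hc : K ∈ 𝒜 ∧ L ∈ ℬ ∧ (∀ f, f ∈ K → f ∈ L → f ∈ S)
  · have : {z : Cfg d × Cfg d | K ∈ 𝒜 ∧ L ∈ ℬ ∧ (∀ f, f ∈ K → f ∈ L → f ∈ S) ∧
      (∀ f ∈ K, z.1 f ≤ p) ∧ (∀ f ∈ L, f ∈ S → z.2 f ≤ q) ∧ (∀ f ∈ L, f ∉ S → z.1 f ≤ q)}
      = {z : Cfg d × Cfg d | ∀ f ∈ K, z.1 f ≤ p} ∩
        ({z : Cfg d × Cfg d | ∀ f ∈ L, f ∈ S → z.2 f ≤ q} ∩
        {z : Cfg d × Cfg d | ∀ f ∈ L, f ∉ S → z.1 f ≤ q}) := by
      ext z
      simp only [mem_ofPred_eq, mem_inter_iff]
      constructor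
      · rintro ⟨-, -, -, h1, h2, h3⟩; exact ⟨h1, h2, h3⟩
      · rintro ⟨h1, h2, h3⟩; exact ⟨hc.1, hc.2.1, hc.2.2, h1, h2, h3⟩
    rw [this]
    exact m3.inter (m4.inter m5)
  · have : {z : Cfg d × Cfg d | K ∈ 𝒜 ∧ L ∈ ℬ ∧ (∀ f, f ∈ K → f ∈ L → f ∈ S) ∧
      (∀ f ∈ K, z.1 f ≤ p) ∧ (∀ f ∈ L, f ∈ S → z.2 f ≤ q) ∧ (∀ f ∈ L, f ∉ S → z.1 f ≤ q)}
      = ∅ := by
      ext z
      simp only [mem_ofPred_eq, mem_empty_iff_false, iff_false]
      rintro ⟨h1, h2, h3, -⟩
      exact hc ⟨h1, h2, h3⟩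
    rw [this]
    exact MeasurableSet.empty

/-- resampling one coordinate in an integral -/
theorem resample_lintegral (e : E d) {f : Cfg d → ℝ≥0∞} (hf : Measurable f) :
    ∫⁻ U, f U ∂(P d) = ∫⁻ U, ∫⁻ u, f (Function.update U e u) ∂unif ∂(P d) := by
  have hmp := measurePreserving_update (d := d) e
  rw [← hmp.lintegral_comp hf]
  exact lintegral_prod (fun z : Cfg d × ℝ => f (Function.update z.1 e z.2))
    (hf.comp hmp.measurable).aemeasurable

theorem resample2 (e : E d) {g : Cfg d × Cfg d → ℝ≥0∞} (hg : Measurable g) :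
    ∫⁻ z, g z ∂((P d).prod (P d)) = ∫⁻ U, ∫⁻ U', ∫⁻ u, ∫⁻ u',
      g (Function.update U e u, Function.update U' e u') ∂unif ∂unif ∂(P d) ∂(P d) := by
  have hup : Measurable (fun z : Cfg d × ℝ => Function.update z.1 e z.2) :=
    (measurePreserving_update (d := d) e).measurable
  rw [lintegral_prod _ hg.aemeasurable]
  have h1 : ∀ U : Cfg d, ∫⁻ U', g (U, U') ∂(P d)
      = ∫⁻ U', ∫⁻ u', g (U, Function.update U' e u') ∂unif ∂(P d) := by
    intro U
    exact resample_lintegral e (hg.comp (measurable_const.prodMk measurable_id))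
  simp_rw [h1]
  have hmeas : Measurable (fun U : Cfg d =>
      ∫⁻ U', ∫⁻ u', g (U, Function.update U' e u') ∂unif ∂(P d)) := by
    have h2 : Measurable (fun x : (Cfg d × Cfg d) × ℝ =>
        g (x.1.1, Function.update x.1.2 e x.2)) := by
      apply hg.comp
      refine (measurable_fst.comp measurable_fst).prodMk ?_
      exact hup.comp ((measurable_snd.comp measurable_fst).prodMk measurable_snd)
    have h3 : Measurable (fun x : Cfg d × Cfg d =>
        ∫⁻ u', g (x.1, Function.update x.2 e u') ∂unif) := h2.lintegral_prod_right'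
    exact h3.lintegral_prod_right'
  rw [resample_lintegral e hmeas]
  apply lintegral_congr
  intro U
  have h4 : AEMeasurable (Function.uncurry fun (u : ℝ) (U' : Cfg d) =>
      ∫⁻ u', g (Function.update U e u, Function.update U' e u') ∂unif) (unif.prod (P d)) := by
    apply Measurable.aemeasurable
    have h2 : Measurable (fun x : (ℝ × Cfg d) × ℝ =>
        g (Function.update U e x.1.1, Function.update x.1.2 e x.2)) := by
      apply hg.comp
      refine Measurable.prodMk ?_ ?_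
      · exact hup.comp (measurable_const.prodMk (measurable_fst.comp measurable_fst))
      · exact hup.comp ((measurable_snd.comp measurable_fst).prodMk measurable_snd)
    exact h2.lintegral_prod_right'
  exact lintegral_lintegral_swap h4

/-- one step of the interpolation -/
theorem step (p q : ℝ) (𝒜 ℬ : Set (Finset (E d))) (S : Finset (E d)) (e : E d) (he : e ∉ S) :
    ((P d).prod (P d)) (ES p q 𝒜 ℬ S) ≤
      ((P d).prod (P d)) (ES p q 𝒜 ℬ (Insert.insert e S)) := by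
  classical
  have mS := measurableSet_ES p q 𝒜 ℬ S
  have mS' := measurableSet_ES p q 𝒜 ℬ (Insert.insert e S)
  rw [← lintegral_indicator_one mS, ← lintegral_indicator_one mS',
    resample2 e (measurable_one.indicator mS), resample2 e (measurable_one.indicator mS')]
  apply lintegral_mono
  intro U
  apply lintegral_mono
  intro U'
  -- compatible pairs off `e`
  set A0 : Prop := ∃ K ∈ 𝒜, ∃ L ∈ ℬ, (∀ f, f ∈ K → f ∈ L → f ∈ S) ∧ e ∉ K ∧ e ∉ L ∧
    (∀ f ∈ K, f ≠ e → U f ≤ p) ∧ (∀ f ∈ L, f ≠ e → f ∈ S → U' f ≤ q) ∧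
    (∀ f ∈ L, f ≠ e → f ∉ S → U f ≤ q) with hA0
  set AK : Prop := ∃ K ∈ 𝒜, ∃ L ∈ ℬ, (∀ f, f ∈ K → f ∈ L → f ∈ S) ∧ e ∈ K ∧ e ∉ L ∧
    (∀ f ∈ K, f ≠ e → U f ≤ p) ∧ (∀ f ∈ L, f ≠ e → f ∈ S → U' f ≤ q) ∧
    (∀ f ∈ L, f ≠ e → f ∉ S → U f ≤ q) with hAK
  set AL : Prop := ∃ K ∈ 𝒜, ∃ L ∈ ℬ, (∀ f, f ∈ K → f ∈ L → f ∈ S) ∧ e ∉ K ∧ e ∈ L ∧
    (∀ f ∈ K, f ≠ e → U f ≤ p) ∧ (∀ f ∈ L, f ≠ e → f ∈ S → U' f ≤ q) ∧
    (∀ f ∈ L, f ≠ e → f ∉ S → U f ≤ q) with hAL
  have fwd : ∀ u u' : ℝ, (Function.update U e u, Function.update U' e u') ∈ ES p q 𝒜 ℬ S →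
      A0 ∨ (AK ∧ u ≤ p) ∨ (AL ∧ u ≤ q) := by
    rintro u u' ⟨K, L, hK, hL, hKL, h1, h2, h3⟩
    have g1 : ∀ f ∈ K, f ≠ e → U f ≤ p := by
      intro f hf hfe
      have := h1 f hf
      simpa only [Function.update_of_ne hfe] using this
    have g2 : ∀ f ∈ L, f ≠ e → f ∈ S → U' f ≤ q := by
      intro f hf hfe hfS
      have := h2 f hf hfS
      simpa only [Function.update_of_ne hfe] using this
    have g3 : ∀ f ∈ L, f ≠ e → f ∉ S → U f ≤ q := by
      intro f hf hfe hfS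
      have := h3 f hf hfS
      simpa only [Function.update_of_ne hfe] using this
    by_cases eK : e ∈ K
    · have eL : e ∉ L := fun h => he (hKL e eK h)
      right; left
      refine ⟨⟨K, hK, L, hL, hKL, eK, eL, g1, g2, g3⟩, ?_⟩
      have := h1 e eK
      simpa only [Function.update_self] using this
    · by_cases eL : e ∈ L
      · right; right
        refine ⟨⟨K, hK, L, hL, hKL, eK, eL, g1, g2, g3⟩, ?_⟩
        have := h3 e eL he
        simpa only [Function.update_self] using this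
      · exact Or.inl ⟨K, hK, L, hL, hKL, eK, eL, g1, g2, g3⟩
  have bwd : ∀ u u' : ℝ, (A0 ∨ (AK ∧ u ≤ p) ∨ (AL ∧ u' ≤ q)) →
      (Function.update U e u, Function.update U' e u') ∈ ES p q 𝒜 ℬ (Insert.insert e S) := by
    rintro u u' (⟨K, hK, L, hL, hKL, eK, eL, g1, g2, g3⟩ |
      ⟨⟨K, hK, L, hL, hKL, eK, eL, g1, g2, g3⟩, hu⟩ |
      ⟨⟨K, hK, L, hL, hKL, eK, eL, g1, g2, g3⟩, hu⟩)
    · refine ⟨K, L, hK, hL, fun f a b => Finset.mem_insert_of_mem (hKL f a b), ?_, ?_, ?_⟩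
      · intro f hf
        have hfe : f ≠ e := fun h => eK (h ▸ hf)
        simpa only [Function.update_of_ne hfe] using g1 f hf hfe
      · intro f hf hfS
        have hfe : f ≠ e := fun h => eL (h ▸ hf)
        simpa only [Function.update_of_ne hfe] using
          g2 f hf hfe ((Finset.mem_insert.1 hfS).resolve_left hfe)
      · intro f hf hfS
        have hfe : f ≠ e := fun h => eL (h ▸ hf)
        simpa only [Function.update_of_ne hfe] using
          g3 f hf hfe (fun h => hfS (Finset.mem_insert_of_mem h))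
    · refine ⟨K, L, hK, hL, fun f a b => Finset.mem_insert_of_mem (hKL f a b), ?_, ?_, ?_⟩
      · intro f hf
        by_cases hfe : f = e
        · subst hfe
          simpa only [Function.update_self] using hu
        · simpa only [Function.update_of_ne hfe] using g1 f hf hfe
      · intro f hf hfS
        have hfe : f ≠ e := fun h => eL (h ▸ hf)
        simpa only [Function.update_of_ne hfe] using
          g2 f hf hfe ((Finset.mem_insert.1 hfS).resolve_left hfe)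
      · intro f hf hfS
        have hfe : f ≠ e := fun h => eL (h ▸ hf)
        simpa only [Function.update_of_ne hfe] using
          g3 f hf hfe (fun h => hfS (Finset.mem_insert_of_mem h))
    · refine ⟨K, L, hK, hL, fun f a b => Finset.mem_insert_of_mem (hKL f a b), ?_, ?_, ?_⟩
      · intro f hf
        have hfe : f ≠ e := fun h => eK (h ▸ hf)
        simpa only [Function.update_of_ne hfe] using g1 f hf hfe
      · intro f hf hfS
        by_cases hfe : f = e
        · subst hfe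
          simpa only [Function.update_self] using hu
        · simpa only [Function.update_of_ne hfe] using
            g2 f hf hfe ((Finset.mem_insert.1 hfS).resolve_left hfe)
      · intro f hf hfS
        have hfe : f ≠ e := fun h => hfS (h ▸ Finset.mem_insert_self e S)
        simpa only [Function.update_of_ne hfe] using
          g3 f hf hfe (fun h => hfS (Finset.mem_insert_of_mem h))
  -- pointwise comparison of indicators
  have ptwise : (∀ u u' : ℝ, (Function.update U e u, Function.update U' e u') ∈ ES p q 𝒜 ℬ S →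
      (Function.update U e u, Function.update U' e u') ∈ ES p q 𝒜 ℬ (Insert.insert e S)) →
      ∫⁻ u, ∫⁻ u', (ES p q 𝒜 ℬ S).indicator 1
        (Function.update U e u, Function.update U' e u') ∂unif ∂unif ≤
      ∫⁻ u, ∫⁻ u', (ES p q 𝒜 ℬ (Insert.insert e S)).indicator 1
        (Function.update U e u, Function.update U' e u') ∂unif ∂unif := by
    intro h
    apply lintegral_mono
    intro u
    apply lintegral_mono
    intro u'
    by_cases hmem : (Function.update U e u, Function.update U' e u') ∈ ES p q 𝒜 ℬ S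
    · beta_reduce
      rw [indicator_of_mem hmem, indicator_of_mem (h u u' hmem)]
    · beta_reduce
      rw [indicator_of_notMem hmem]
      exact zero_le
  by_cases c0 : A0
  · exact ptwise fun u u' _ => bwd u u' (Or.inl c0)
  · by_cases c1 : AL ∧ (¬ AK ∨ p ≤ q)
    · -- the swap case
      have hL : ∫⁻ u, ∫⁻ u', (ES p q 𝒜 ℬ S).indicator 1
          (Function.update U e u, Function.update U' e u') ∂unif ∂unif
          ≤ ∫⁻ u, ∫⁻ _u' : ℝ, (Iic q).indicator 1 u ∂unif ∂unif := by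
        apply lintegral_mono
        intro u
        apply lintegral_mono
        intro u'
        by_cases hmem : (Function.update U e u, Function.update U' e u') ∈ ES p q 𝒜 ℬ S
        · have huq : u ≤ q := by
            rcases fwd u u' hmem with h | h | h
            · exact absurd h c0
            · exact h.2.trans (c1.2.resolve_left (not_not.2 h.1))
            · exact h.2
          beta_reduce
          rw [indicator_of_mem hmem, indicator_of_mem (show u ∈ Iic q from huq)]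
          exact le_rfl
        · beta_reduce
          rw [indicator_of_notMem hmem]
          exact zero_le
      have hR : ∫⁻ _u : ℝ, ∫⁻ u', (Iic q).indicator 1 u' ∂unif ∂unif
          ≤ ∫⁻ u, ∫⁻ u', (ES p q 𝒜 ℬ (Insert.insert e S)).indicator 1
          (Function.update U e u, Function.update U' e u') ∂unif ∂unif := by
        apply lintegral_mono
        intro u
        apply lintegral_mono
        intro u'
        by_cases huq : u' ≤ q
        · beta_reduce
          rw [indicator_of_mem (show u' ∈ Iic q from huq),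
            indicator_of_mem (bwd u u' (Or.inr (Or.inr ⟨c1.1, huq⟩)))]
          exact le_rfl
        · beta_reduce
          rw [indicator_of_notMem (show u' ∉ Iic q from huq)]
          exact zero_le
      refine hL.trans (le_trans (le_of_eq ?_) hR)
      simp only [lintegral_const, measure_univ, mul_one]
    · refine ptwise fun u u' hmem => bwd u u' ?_
      rcases fwd u u' hmem with h | h | h
      · exact Or.inl h
      · exact Or.inr (Or.inl h)
      · rw [not_and_or, not_or, not_not, not_le] at c1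
        have c2 := c1.resolve_left (not_not.2 h.1)
        exact Or.inr (Or.inl ⟨c2.1, h.2.trans c2.2.le⟩)

/-- finite families -/
theorem bk_fin (p q : ℝ) (𝒜 ℬ : Set (Finset (E d))) (F : Finset (E d))
    (hB : ∀ L ∈ ℬ, L ⊆ F) :
    (P d) {U : Cfg d | ∃ K ∈ 𝒜, ∃ L ∈ ℬ, Disjoint K L ∧ (∀ e ∈ K, U e ≤ p) ∧
      (∀ e ∈ L, U e ≤ q)} ≤ (P d) (Ev p 𝒜) * (P d) (Ev q ℬ) := by
  classical
  have h1 : ∀ S : Finset (E d), ((P d).prod (P d)) (ES p q 𝒜 ℬ ∅)
      ≤ ((P d).prod (P d)) (ES p q 𝒜 ℬ S) := by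
    intro S
    induction S using Finset.induction_on with
    | empty => exact le_rfl
    | insert e S he ih => exact ih.trans (step p q 𝒜 ℬ S e he)
  calc (P d) {U : Cfg d | ∃ K ∈ 𝒜, ∃ L ∈ ℬ, Disjoint K L ∧ (∀ e ∈ K, U e ≤ p) ∧
      (∀ e ∈ L, U e ≤ q)}
      = ((P d).prod (P d)) ({U : Cfg d | ∃ K ∈ 𝒜, ∃ L ∈ ℬ, Disjoint K L ∧
        (∀ e ∈ K, U e ≤ p) ∧ (∀ e ∈ L, U e ≤ q)} ×ˢ univ) := by
        rw [Measure.prod_prod, measure_univ, mul_one]
    _ ≤ ((P d).prod (P d)) (ES p q 𝒜 ℬ ∅) := by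
        apply measure_mono
        rintro ⟨U, U'⟩ ⟨⟨K, hK, L, hL, hd, h2, h3⟩, -⟩
        refine ⟨K, L, hK, hL, ?_, h2, ?_, ?_⟩
        · intro f hfK hfL
          exact absurd hfL (Finset.disjoint_left.1 hd hfK)
        · intro f _ hf
          exact absurd hf (Finset.notMem_empty f)
        · intro f hf _
          exact h3 f hf
    _ ≤ ((P d).prod (P d)) (ES p q 𝒜 ℬ F) := h1 F
    _ ≤ ((P d).prod (P d)) (Ev p 𝒜 ×ˢ Ev q ℬ) := by
        apply measure_mono
        rintro ⟨U, U'⟩ ⟨K, L, hK, hL, hKL, h2, h3, h4⟩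
        exact ⟨⟨K, hK, h2⟩, ⟨L, hL, fun f hf => h3 f hf (hB L hL hf)⟩⟩
    _ = (P d) (Ev p 𝒜) * (P d) (Ev q ℬ) := Measure.prod_prod _ _

theorem bk_ennreal (p q : ℝ) (𝒜 ℬ : Set (Finset (E d))) :
    (P d) {U : Cfg d | ∃ K ∈ 𝒜, ∃ L ∈ ℬ, Disjoint K L ∧ (∀ e ∈ K, U e ≤ p) ∧
      (∀ e ∈ L, U e ≤ q)} ≤ (P d) (Ev p 𝒜) * (P d) (Ev q ℬ) := by
  classical
  set X : Finset (E d) → Set (Cfg d) := fun F =>
    {U : Cfg d | ∃ K ∈ {K ∈ 𝒜 | K ⊆ F}, ∃ L ∈ {L ∈ ℬ | L ⊆ F}, Disjoint K L ∧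
      (∀ e ∈ K, U e ≤ p) ∧ (∀ e ∈ L, U e ≤ q)} with hX
  have h1 : {U : Cfg d | ∃ K ∈ 𝒜, ∃ L ∈ ℬ, Disjoint K L ∧ (∀ e ∈ K, U e ≤ p) ∧
      (∀ e ∈ L, U e ≤ q)} = ⋃ F, X F := by
    ext U
    simp only [mem_iUnion]
    constructor
    · rintro ⟨K, hK, L, hL, hd, h2, h3⟩
      exact ⟨K ∪ L, K, ⟨hK, Finset.subset_union_left⟩, L, ⟨hL, Finset.subset_union_right⟩,
        hd, h2, h3⟩
    · rintro ⟨F, K, hK, L, hL, hd, h2, h3⟩
      exact ⟨K, hK.1, L, hL.1, hd, h2, h3⟩
  have hdir : Directed (· ⊆ ·) X := by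
    intro F F'
    refine ⟨F ∪ F', ?_, ?_⟩
    · rintro U ⟨K, hK, L, hL, hd, h2, h3⟩
      exact ⟨K, ⟨hK.1, hK.2.trans Finset.subset_union_left⟩, L,
        ⟨hL.1, hL.2.trans Finset.subset_union_left⟩, hd, h2, h3⟩
    · rintro U ⟨K, hK, L, hL, hd, h2, h3⟩
      exact ⟨K, ⟨hK.1, hK.2.trans Finset.subset_union_right⟩, L,
        ⟨hL.1, hL.2.trans Finset.subset_union_right⟩, hd, h2, h3⟩
  rw [h1, hdir.measure_iUnion]
  apply iSup_le
  intro F
  refine (bk_fin p q {K ∈ 𝒜 | K ⊆ F} {L ∈ ℬ | L ⊆ F} F (fun L hL => hL.2)).trans ?_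
  apply mul_le_mul' <;> apply measure_mono
  · rintro U ⟨K, hK, h⟩
    exact ⟨K, hK.1, h⟩
  · rintro U ⟨K, hK, h⟩
    exact ⟨K, hK.1, h⟩

end BK

/-! ## B4 : van den Berg - Kesten inequality (two levels) -/

theorem bk (p q : ℝ) (𝒜 ℬ : Set (Finset (E d))) :
    (P d).real {U : Cfg d | ∃ K ∈ 𝒜, ∃ L ∈ ℬ, Disjoint K L ∧ (∀ e ∈ K, U e ≤ p) ∧
      (∀ e ∈ L, U e ≤ q)} ≤ (P d).real (Ev p 𝒜) * (P d).real (Ev q ℬ) := by
  unfold Measure.real
  rw [← ENNReal.toReal_mul]
  exact ENNReal.toReal_mono (ENNReal.mul_ne_top (measure_ne_top _ _) (measure_ne_top _ _))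
    (BK.bk_ennreal p q 𝒜 ℬ)

theorem bk_dj (p : ℝ) (𝒜 ℬ : Set (Finset (E d))) :
    (P d).real (Ev p (dj 𝒜 ℬ)) ≤ (P d).real (Ev p 𝒜) * (P d).real (Ev p ℬ) := by
  refine le_trans ?_ (bk p p 𝒜 ℬ)
  apply measureReal_mono
  · rintro U ⟨M, ⟨K, hK, L, hL, hd, hKM, hLM⟩, hM⟩
    exact ⟨K, hK, L, hL, hd, fun e he => hM e (hKM he), fun e he => hM e (hLM he)⟩
  · exact measure_ne_top _ _

end Pool.Agent.helper55.FP
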