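import Pool.Agent.helper55.FP.Defs

/-! Module Conn: elementary connectivity API. -/

set_option autoImplicit false

open MeasureTheory Set Filter Topology
open scoped ENNReal

namespace Pool.Agent.helper55.FP

variable {d : ℕ}

/-! ## B1 : connectivity -/

theorem Joins.symm {e : E d} {a b : V d} (h : Joins e a b) : Joins e b a := h.elim Or.inr Or.inl

private theorem tip_inj {e e' : E d} (h1 : e.1 = e'.1) (h2 : tip e = tip e') : e = e' := by
  have h3 : (Pi.single e.2 1 : V d) = Pi.single e'.2 1 := by
    unfold tip at h2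
    rw [h1] at h2
    exact add_left_cancel h2
  refine Prod.ext h1 ?_
  by_contra hne
  have := congrFun h3 e.2
  rw [Pi.single_eq_same, Pi.single_eq_of_ne hne] at this
  exact one_ne_zero this

private theorem tip_anti {e e' : E d} (h1 : tip e = e'.1) (h2 : tip e' = e.1) : False := by
  have h3 : (Pi.single e.2 1 : V d) + Pi.single e'.2 1 = 0 := by
    have : e.1 + Pi.single e.2 1 + Pi.single e'.2 1 = e.1 := by
      have h4 : e.1 + Pi.single e.2 1 = e'.1 := h1
      rw [h4]
      exact h2
    rw [add_assoc] at this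
    exact add_eq_left.1 this
  have := congrFun h3 e.2
  rw [Pi.add_apply, Pi.single_eq_same, Pi.single_apply, Pi.zero_apply] at this
  split_ifs at this <;> omega

theorem Joins.unique {e e' : E d} {a b : V d} (h : Joins e a b) (h' : Joins e' a b) : e = e' := by
  rcases h with ⟨h1, h2⟩ | ⟨h1, h2⟩ <;> rcases h' with ⟨h3, h4⟩ | ⟨h3, h4⟩
  · exact tip_inj (h1.symm.trans h3) (h2.symm.trans h4)
  · exact (tip_anti (h2.symm.trans h3) (h4.symm.trans h1)).elim
  · exact (tip_anti (h2.symm.trans h3) (h4.symm.trans h1)).elim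
  · exact tip_inj (h1.symm.trans h3) (h2.symm.trans h4)

theorem Joins.ne {e : E d} {a b : V d} (h : Joins e a b) : a ≠ b := by
  have key : e.1 ≠ tip e := by
    intro h
    have := congrFun h e.2
    unfold tip at this
    rw [Pi.add_apply, Pi.single_eq_same] at this
    omega
  rcases h with ⟨h1, h2⟩ | ⟨h1, h2⟩
  · rw [h1, h2]; exact key
  · rw [h1, h2]; exact key.symm

theorem Adj.symm {a b : V d} (h : Adj a b) : Adj b a := by
  obtain ⟨e, he⟩ := h
  exact ⟨e, he.symm⟩

private theorem adj_sub (a : V d) : {b : V d | Adj a b} ⊆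
    Set.range (fun s : Fin d × Bool => if s.2 then a + Pi.single s.1 1 else a - Pi.single s.1 1) := by
  rintro b ⟨⟨x, i⟩, ⟨h1, h2⟩ | ⟨h1, h2⟩⟩
  · refine ⟨(i, true), ?_⟩
    simp only [if_true]
    rw [h2, h1]
    rfl
  · refine ⟨(i, false), ?_⟩
    have h3 : a = x + Pi.single i 1 := h2
    have h4 : b = x := h1
    simp only [Bool.false_eq_true, if_false]
    rw [h3, h4, add_sub_cancel_right]

theorem adj_finite (a : V d) : {b : V d | Adj a b}.Finite :=
  (Set.finite_range _).subset (adj_sub a)

theorem adj_encard (a : V d) : {b : V d | Adj a b}.encard ≤ (2 * d : ℕ) := by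
  refine (Set.encard_le_encard (adj_sub a)).trans ?_
  rw [← Set.image_univ]
  refine (Set.encard_image_le _ _).trans ?_
  rw [Set.encard_univ, ENat.card_eq_coe_fintype_card]
  simp [mul_comm]

/-- sup norm of neighbours differs by at most one -/
theorem Adj.norm {a b : V d} (h : Adj a b) : ‖b - a‖ ≤ 1 := by
  obtain ⟨⟨x, i⟩, h⟩ := h
  have key : ‖(Pi.single i 1 : V d)‖ ≤ 1 := by
    rw [pi_norm_le_iff_of_nonneg zero_le_one]
    intro j
    rw [Pi.single_apply]
    split_ifs <;> simp
  rcases h with ⟨h1, h2⟩ | ⟨h1, h2⟩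
  · have h3 : b = x + Pi.single i 1 := h2
    have h4 : a = x := h1
    rw [h3, h4, add_sub_cancel_left]
    exact key
  · have h3 : a = x + Pi.single i 1 := h2
    have h4 : b = x := h1
    rw [h3, h4, sub_add_cancel_left, norm_neg]
    exact key

private theorem Step.symm' {O : Set (E d)} {W : Set (V d)} {a b : V d} (h : Step O W a b) :
    Step O W b a := by
  obtain ⟨h1, h2, e, he, hj⟩ := h
  exact ⟨h2, h1, e, he, hj.symm⟩

theorem Conn.refl {O : Set (E d)} {W : Set (V d)} {a : V d} (ha : a ∈ W) : Conn O W a a :=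
  ⟨ha, Relation.ReflTransGen.refl⟩

theorem Conn.left {O : Set (E d)} {W : Set (V d)} {a b : V d} (h : Conn O W a b) : a ∈ W := h.1

theorem Conn.right {O : Set (E d)} {W : Set (V d)} {a b : V d} (h : Conn O W a b) : b ∈ W := by
  obtain ⟨ha, hr⟩ := h
  rcases hr.cases_tail with h | ⟨c, _, h⟩
  · rw [h]; exact ha
  · exact h.2.1

theorem Conn.symm {O : Set (E d)} {W : Set (V d)} {a b : V d} (h : Conn O W a b) : Conn O W b a := by
  refine ⟨h.right, ?_⟩
  have := h.2
  induction this with
  | refl => exact Relation.ReflTransGen.refl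
  | tail hab hbc ih =>
    exact Relation.ReflTransGen.head (Step.symm' hbc) (ih ⟨h.1, hab⟩)

theorem Conn.trans {O : Set (E d)} {W : Set (V d)} {a b c : V d} (h : Conn O W a b) (h' : Conn O W b c) :
    Conn O W a c := ⟨h.1, h.2.trans h'.2⟩

private theorem Step.mono' {O O' : Set (E d)} {W W' : Set (V d)} {a b : V d} (hO : O ⊆ O')
    (hW : W ⊆ W') (h : Step O W a b) : Step O' W' a b := by
  obtain ⟨h1, h2, e, he, hj⟩ := h
  exact ⟨hW h1, hW h2, e, hO he, hj⟩

theorem Conn.mono {O O' : Set (E d)} {W W' : Set (V d)} {a b : V d} (hO : O ⊆ O') (hW : W ⊆ W')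
    (h : Conn O W a b) : Conn O' W' a b :=
  ⟨hW h.1, Relation.ReflTransGen.mono (fun _ _ hs => Step.mono' hO hW hs) _ _ h.2⟩

theorem Conn.snoc {O : Set (E d)} {W : Set (V d)} {a b c : V d} (h : Conn O W a b)
    (h' : Step O W b c) : Conn O W a c := ⟨h.1, h.2.tail h'⟩

theorem op_mono {p q : ℝ} (h : p ≤ q) (U : Cfg d) : op p U ⊆ op q U :=
  fun _ he => le_trans he h

private theorem path_conn {O : Set (E d)} {W : Set (V d)} {b : V d} (l : List (V d)) :
    ∀ a : V d, l.head? = some a → l.getLast? = some b → l.IsChain (Step O W) →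
      (∀ v ∈ l, v ∈ W) → Conn O W a b := by
  induction l with
  | nil => intro a h; simp at h
  | cons c t ih =>
    intro a h1 h2 h3 h4
    simp only [List.head?_cons, Option.some.injEq] at h1
    subst h1
    cases t with
    | nil =>
      simp only [List.getLast?_singleton, Option.some.injEq] at h2
      subst h2
      exact Conn.refl (h4 _ (by simp))
    | cons c' t' =>
      have h5 : Step O W c c' := by
        rw [List.isChain_cons_cons] at h3
        exact h3.1
      have h6 : (c' :: t').IsChain (Step O W) := by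
        rw [List.isChain_cons_cons] at h3
        exact h3.2
      have h7 := ih c' rfl (by rw [List.getLast?_cons_cons] at h2; exact h2) h6
        (fun v hv => h4 v (List.mem_cons_of_mem _ hv))
      exact ⟨h5.1, Relation.ReflTransGen.head h5 h7.2⟩

/-- connections are given by simple paths -/
theorem conn_iff_path {O : Set (E d)} {W : Set (V d)} {a b : V d} :
    Conn O W a b ↔ ∃ l : List (V d), l.Nodup ∧ l.head? = some a ∧ l.getLast? = some b ∧
      l.IsChain (Step O W) ∧ ∀ v ∈ l, v ∈ W := by
  constructor
  · intro h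
    obtain ⟨ha, hr⟩ := h
    have hb : b ∈ W := Conn.right ⟨ha, hr⟩
    clear ha
    induction hr using Relation.ReflTransGen.head_induction_on with
    | refl => exact ⟨[b], by simp, by simp, by simp, by simp, by simpa using hb⟩
    | @head a c hac hcb ih =>
      obtain ⟨l, l1, l2, l3, l4, l5⟩ := ih
      by_cases hal : a ∈ l
      · obtain ⟨s, t, rfl⟩ := List.append_of_mem hal
        refine ⟨a :: t, ?_, rfl, ?_, ?_, ?_⟩
        · exact (List.nodup_append.1 l1).2.1
        · rwa [List.getLast?_append_of_ne_nil _ (List.cons_ne_nil _ _)] at l3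
        · exact (List.isChain_append.1 l4).2.1
        · intro v hv
          exact l5 v (List.mem_append_right _ hv)
      · refine ⟨a :: l, List.nodup_cons.2 ⟨hal, l1⟩, rfl, ?_, ?_, ?_⟩
        · cases l with
          | nil => simp at l2
          | cons c' t => rw [List.getLast?_cons_cons]; exact l3
        · cases l with
          | nil => simp at l2
          | cons c' t =>
            simp only [List.head?_cons, Option.some.injEq] at l2
            subst l2
            exact List.isChain_cons_cons.2 ⟨hac, l4⟩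
        · intro v hv
          rcases List.mem_cons.1 hv with rfl | hv
          · exact hac.1
          · exact l5 v hv
  · rintro ⟨l, _, h2, h3, h4, h5⟩
    exact path_conn l a h2 h3 h4 h5

/-- connections have finite witnesses -/
theorem conn_iff_wit {O : Set (E d)} {W : Set (V d)} {a b : V d} :
    Conn O W a b ↔ ∃ K ∈ cw W a b, (↑K : Set (E d)) ⊆ O := by
  classical
  constructor
  · rintro ⟨ha, hr⟩
    induction hr with
    | refl => exact ⟨∅, Conn.refl ha, by simp⟩
    | tail hab hbc ih =>
      obtain ⟨K, hK, hKO⟩ := ih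
      obtain ⟨h1, h2, e, he, hj⟩ := hbc
      refine ⟨insert e K, ?_, ?_⟩
      · refine Conn.snoc (Conn.mono (O := (↑K : Set (E d))) ?_ (le_refl W) hK)
          ⟨h1, h2, e, by simp, hj⟩
        intro f hf
        simp only [Finset.coe_insert]
        exact Or.inr hf
      · intro f hf
        simp only [Finset.coe_insert, Set.mem_insert_iff] at hf
        rcases hf with rfl | hf
        · exact he
        · exact hKO hf
  · rintro ⟨K, hK, hKO⟩
    exact Conn.mono hKO (le_refl W) hK

theorem conn_op_iff {p : ℝ} {U : Cfg d} {W : Set (V d)} {a b : V d} :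
    Conn (op p U) W a b ↔ U ∈ Ev p (cw W a b) := by
  rw [conn_iff_wit]
  exact Iff.rfl

end Pool.Agent.helper55.FP
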