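import Pool.Agent.helper55.FP.Defs
import Pool.Agent.helper55.FP.Conn

/-! # Module Paths: edge-disjoint decompositions of simple paths. -/

set_option autoImplicit false

open MeasureTheory Set Filter Topology
open scoped ENNReal

namespace Pool.Agent.helper55.FP

variable {d : ℕ}

open Classical in
/-- the edges of `K` with both endpoints in `l` -/
noncomputable def inn (K : Finset (E d)) (l : List (V d)) : Finset (E d) :=
  K.filter (fun e => e.1 ∈ l ∧ tip e ∈ l)

theorem mem_inn {K : Finset (E d)} {l : List (V d)} {e : E d} :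
    e ∈ inn K l ↔ e ∈ K ∧ e.1 ∈ l ∧ tip e ∈ l := by
  classical
  unfold inn
  rw [Finset.mem_filter]

theorem inn_subset (K : Finset (E d)) (l : List (V d)) : inn K l ⊆ K :=
  fun _ he => (mem_inn.1 he).1

theorem inn_mono {K : Finset (E d)} {l l' : List (V d)} (h : ∀ v ∈ l, v ∈ l') :
    inn K l ⊆ inn K l' := fun e he => by
  rw [mem_inn] at he ⊢
  exact ⟨he.1, h _ he.2.1, h _ he.2.2⟩

theorem fst_ne_tip (e : E d) : e.1 ≠ tip e := Joins.ne (e := e) (Or.inl ⟨rfl, rfl⟩)

/-- edges inside two vertex sets with at most one common vertex -/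
theorem inn_disjoint {K K' : Finset (E d)} {l l' : List (V d)} (s : V d)
    (h : ∀ v, v ∈ l → v ∈ l' → v = s) : Disjoint (inn K l) (inn K' l') := by
  rw [Finset.disjoint_left]
  intro e he he'
  rw [mem_inn] at he he'
  exact fst_ne_tip e ((h _ he.2.1 he'.2.1).trans (h _ he.2.2 he'.2.2).symm)

/-- simple paths -/
structure SP (K : Finset (E d)) (W : Set (V d)) (l : List (V d)) : Prop where
  nodup : l.Nodup
  chain : l.IsChain (Step (↑K) W)
  mem : ∀ v ∈ l, v ∈ W

theorem SP.mem_cw {K : Finset (E d)} {W W' : Set (V d)} {l : List (V d)} {a b : V d}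
    (h : SP K W l) (hW : ∀ v ∈ l, v ∈ W') (ha : l.head? = some a) (hb : l.getLast? = some b) :
    inn K l ∈ cw W' a b := by
  refine conn_iff_path.2 ⟨l, h.nodup, ha, hb, ?_, hW⟩
  refine h.chain.imp_of_mem_imp ?_
  intro x y hx hy hxy
  obtain ⟨-, -, e, he, hj⟩ := hxy
  refine ⟨hW x hx, hW y hy, e, ?_, hj⟩
  rw [Finset.mem_coe, mem_inn]
  refine ⟨he, ?_⟩
  rcases hj with ⟨h1, h2⟩ | ⟨h1, h2⟩
  · exact ⟨h1 ▸ hx, h2 ▸ hy⟩
  · exact ⟨h1 ▸ hy, h2 ▸ hx⟩

theorem SP.left {K : Finset (E d)} {W : Set (V d)} {l1 l2 : List (V d)} {s : V d}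
    (h : SP K W (l1 ++ s :: l2)) : SP K W (l1 ++ [s]) := by
  have h0 : l1 ++ s :: l2 = (l1 ++ [s]) ++ l2 := by simp
  refine ⟨?_, (List.isChain_split.1 h.chain).1, ?_⟩
  · have h1 := h.nodup
    rw [h0] at h1
    exact h1.of_append_left
  · intro v hv
    apply h.mem
    rw [h0]
    exact List.mem_append_left _ hv

theorem SP.right {K : Finset (E d)} {W : Set (V d)} {l1 l2 : List (V d)} {s : V d}
    (h : SP K W (l1 ++ s :: l2)) : SP K W (s :: l2) := by
  refine ⟨?_, (List.isChain_split.1 h.chain).2, ?_⟩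
  · exact h.nodup.of_append_right
  · intro v hv
    exact h.mem v (List.mem_append_right _ hv)

/-- the two halves of a simple path have one common vertex -/
theorem split_common {l1 l2 : List (V d)} {s v : V d} (h : (l1 ++ s :: l2).Nodup)
    (h1 : v ∈ l1 ++ [s]) (h2 : v ∈ s :: l2) : v = s := by
  rcases List.mem_append.1 h1 with h3 | h3
  · exact absurd rfl ((List.nodup_append.1 h).2.2 v h3 v h2)
  · exact List.mem_singleton.1 h3

theorem head_append {l1 l2 : List (V d)} {s a : V d} (h : (l1 ++ s :: l2).head? = some a) :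
    (l1 ++ [s]).head? = some a := by
  cases l1 with
  | nil => simpa using h
  | cons x l => simpa using h

theorem last_append {l1 l2 : List (V d)} {s b : V d} (h : (l1 ++ s :: l2).getLast? = some b) :
    (s :: l2).getLast? = some b := by
  rwa [List.getLast?_append_of_ne_nil _ (List.cons_ne_nil _ _)] at h

/-- the first element satisfying a property -/
theorem exists_first {α : Type*} (p : α → Prop) (l : List α) (h : ∃ x ∈ l, p x) :
    ∃ l1 x l2, l = l1 ++ x :: l2 ∧ p x ∧ ∀ y ∈ l1, ¬ p y := by
  induction l with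
  | nil =>
    obtain ⟨x, hx, -⟩ := h
    exact absurd hx List.not_mem_nil
  | cons z l ih =>
    by_cases hz : p z
    · exact ⟨[], z, l, rfl, hz, fun y hy => absurd hy List.not_mem_nil⟩
    · obtain ⟨x, hx, hp⟩ := h
      have hx' : x ∈ l := by
        rcases List.mem_cons.1 hx with rfl | h1
        · exact absurd hp hz
        · exact h1
      obtain ⟨l1, x, l2, h1, h2, h3⟩ := ih ⟨x, hx', hp⟩
      refine ⟨z :: l1, x, l2, by rw [h1]; rfl, h2, ?_⟩
      intro y hy
      rcases List.mem_cons.1 hy with rfl | h4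
      · exact hz
      · exact h3 y h4

theorem exists_SP {K : Finset (E d)} {W : Set (V d)} {a b : V d} (h : K ∈ cw W a b) :
    ∃ l, SP K W l ∧ l.head? = some a ∧ l.getLast? = some b := by
  obtain ⟨l, h1, h2, h3, h4, h5⟩ := conn_iff_path.1 h
  exact ⟨l, ⟨h1, h4, h5⟩, h2, h3⟩

theorem mem_of_head {l : List (V d)} {a : V d} (h : l.head? = some a) : a ∈ l :=
  List.mem_of_head? h

theorem mem_of_last {l : List (V d)} {a : V d} (h : l.getLast? = some a) : a ∈ l :=
  List.mem_of_getLast? h

theorem cw_symm {K : Finset (E d)} {W : Set (V d)} {a b : V d} (h : K ∈ cw W a b) :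
    K ∈ cw W b a := Conn.symm h

theorem cw_mono {K L : Finset (E d)} {W : Set (V d)} {a b : V d} (h : K ∈ cw W a b)
    (hKL : K ⊆ L) : L ∈ cw W a b :=
  Conn.mono (by exact_mod_cast hKL) subset_rfl h

/-- leaving `S` for the first time, with disjoint witnesses -/
theorem exit_dj {W S : Set (V d)} {a b : V d} {K : Finset (E d)} (hK : K ∈ cw W a b) (ha : a ∈ S)
    (hb : b ∉ S) : ∃ u ∈ S, ∃ v ∈ W \ S, ∃ e : E d, Joins e u v ∧
      K ∈ dj (cw (W ∩ S) a u) (dj {M | e ∈ M} (cw W v b)) := by
  obtain ⟨l, hl, h1, h2⟩ := exists_SP hK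
  obtain ⟨l1, v, l2, rfl, hv, hfirst⟩ := exists_first (fun x => x ∉ S) l ⟨b, mem_of_last h2, hb⟩
  rcases List.eq_nil_or_concat l1 with rfl | ⟨l0, u, rfl⟩
  · simp only [List.nil_append, List.head?_cons, Option.some.injEq] at h1
    exact absurd (h1 ▸ ha) hv
  · have hl' : SP K W (l0 ++ u :: (v :: l2)) := by
      have : l0 ++ u :: (v :: l2) = (l0.concat u) ++ v :: l2 := by simp
      rw [this]
      exact hl
    have h1' : (l0 ++ u :: (v :: l2)).head? = some a := by
      have : l0 ++ u :: (v :: l2) = (l0.concat u) ++ v :: l2 := by simp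
      rw [this]
      exact h1
    have huS : u ∈ S := by
      by_contra h
      exact hfirst u (by simp) h
    have hvW : v ∈ W := hl.mem v (by simp)
    have hstep : Step (↑K) W u v := by
      have h3 := hl'.right.chain
      rw [List.isChain_cons_cons] at h3
      exact h3.1
    obtain ⟨-, -, e, he, hj⟩ := hstep
    refine ⟨u, huS, v, ⟨hvW, hv⟩, e, hj, inn K (l0 ++ [u]), ?_, {e} ∪ inn K (v :: l2),
      ⟨{e}, by simp, inn K (v :: l2), ?_, ?_, Finset.subset_union_left,
        Finset.subset_union_right⟩, ?_, inn_subset _ _, ?_⟩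
    · refine hl'.left.mem_cw ?_ (head_append h1') (by simp)
      intro x hx
      refine ⟨hl'.left.mem x hx, ?_⟩
      by_contra h
      refine hfirst x ?_ h
      simpa using hx
    · exact hl.right.mem_cw hl.right.mem (by simp) (last_append h2)
    · rw [Finset.disjoint_singleton_left, mem_inn]
      rintro ⟨-, h3, h4⟩
      have hu : u ∉ v :: l2 := by
        have h5 := hl'.nodup.of_append_right
        exact (List.nodup_cons.1 h5).1
      rcases hj with ⟨h5, h6⟩ | ⟨h5, h6⟩
      · exact hu (h5 ▸ h3)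
      · exact hu (h6 ▸ h4)
    · rw [Finset.disjoint_union_right]
      constructor
      · rw [Finset.disjoint_singleton_right, mem_inn]
        rintro ⟨-, h3, h4⟩
        have hv' : v ∉ l0 ++ [u] := by
          intro h5
          exact hfirst v (by simpa using h5) hv
        rcases hj with ⟨h5, h6⟩ | ⟨h5, h6⟩
        · exact hv' (h6 ▸ h4)
        · exact hv' (h5 ▸ h3)
      · apply inn_disjoint u
        intro x hx hx'
        exfalso
        have h5 := (List.nodup_append.1 hl.nodup).2.2
        refine h5 x ?_ x hx' rfl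
        simpa using hx
    · intro f hf
      rcases Finset.mem_union.1 hf with h3 | h3
      · rw [Finset.mem_singleton] at h3
        rw [h3]
        exact he
      · exact inn_subset _ _ h3

/-- tree-graph splitting -/
theorem tree_dj {W : Set (V d)} {a b c : V d} {K : Finset (E d)} (hb : K ∈ cw W a b)
    (hc : K ∈ cw W a c) : ∃ s ∈ W, K ∈ dj (cw W a s) (dj (cw W s b) (cw W s c)) := by
  obtain ⟨l, hl, h1, h2⟩ := exists_SP hb
  obtain ⟨m, hm, g1, g2⟩ := exists_SP (cw_symm hc)
  obtain ⟨m1, s, m2, rfl, hs, hfirst⟩ := exists_first (fun x => x ∈ l) m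
    ⟨a, mem_of_last g2, mem_of_head h1⟩
  obtain ⟨l1, l2, rfl⟩ := List.append_of_mem hs
  have hcom : ∀ v, v ∈ m1 ++ [s] → v ∈ l1 ++ s :: l2 → v = s := by
    intro v hv hv'
    rcases List.mem_append.1 hv with h3 | h3
    · exact absurd hv' (hfirst v h3)
    · exact List.mem_singleton.1 h3
  refine ⟨s, hl.mem s (by simp), inn K (l1 ++ [s]), ?_, inn K (s :: l2) ∪ inn K (m1 ++ [s]),
    ⟨inn K (s :: l2), ?_, inn K (m1 ++ [s]), ?_, ?_, Finset.subset_union_left,
      Finset.subset_union_right⟩, ?_, inn_subset _ _, ?_⟩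
  · exact hl.left.mem_cw hl.left.mem (head_append h1) (by simp)
  · exact hl.right.mem_cw hl.right.mem (by simp) (last_append h2)
  · exact cw_symm (hm.left.mem_cw hm.left.mem (head_append g1) (by simp))
  · apply inn_disjoint s
    intro v hv hv'
    exact hcom v hv' (List.mem_append_right _ hv)
  · rw [Finset.disjoint_union_right]
    constructor
    · apply inn_disjoint s
      intro v hv hv'
      exact split_common hl.nodup hv hv'
    · apply inn_disjoint s
      intro v hv hv'
      refine hcom v hv' ?_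
      rcases List.mem_append.1 hv with h3 | h3
      · exact List.mem_append_left _ h3
      · rw [List.mem_singleton.1 h3]
        exact List.mem_append_right _ List.mem_cons_self
  · exact Finset.union_subset (inn_subset _ _) (inn_subset _ _)

/-- a further vertex `c`, connected to the union of pairwise disjoint connections, is attached to
one of them by a disjoint path (after shrinking the witnesses to simple paths) -/
theorem attach_dj {W : Set (V d)} {n : ℕ} {K : Fin n → Finset (E d)} {a b : Fin n → V d}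
    (hK : ∀ j, K j ∈ cw W (a j) (b j)) (hdis : ∀ i j, i ≠ j → Disjoint (K i) (K j))
    {M : Finset (E d)} (hKM : ∀ j, K j ⊆ M) {c : V d} (i₀ : Fin n) (hc : M ∈ cw W (a i₀) c) :
    ∃ K' : Fin n → Finset (E d), (∀ j, K' j ⊆ K j ∧ K' j ∈ cw W (a j) (b j)) ∧
      ∃ i, ∃ s ∈ W, ∃ L ⊆ M, (∀ j, Disjoint L (K' j)) ∧ L ∈ cw W s c ∧
        K' i ∈ dj (cw W (a i) s) (cw W s (b i)) := by
  choose l hl h1 h2 using fun j => exists_SP (hK j)
  obtain ⟨m, hm, g1, g2⟩ := exists_SP (cw_symm hc)
  obtain ⟨m1, s, m2, rfl, ⟨i, hi⟩, hfirst⟩ := exists_first (fun x => ∃ j, x ∈ l j) m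
    ⟨a i₀, mem_of_last g2, i₀, mem_of_head (h1 i₀)⟩
  refine ⟨fun j => inn (K j) (l j), fun j => ⟨inn_subset _ _,
    (hl j).mem_cw (hl j).mem (h1 j) (h2 j)⟩, i, s, (hl i).mem s hi, inn M (m1 ++ [s]),
    inn_subset _ _, ?_, ?_, ?_⟩
  · intro j
    apply inn_disjoint s
    intro v hv hv'
    rcases List.mem_append.1 hv with h3 | h3
    · exact absurd ⟨j, hv'⟩ (hfirst v h3)
    · exact List.mem_singleton.1 h3
  · exact cw_symm (hm.left.mem_cw hm.left.mem (head_append g1) (by simp))
  · obtain ⟨l1, l2, h3⟩ := List.append_of_mem hi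
    have hl' := hl i
    have h1' := h1 i
    have h2' := h2 i
    rw [h3] at hl' h1' h2'
    refine ⟨inn (K i) (l1 ++ [s]), ?_, inn (K i) (s :: l2), ?_, ?_, ?_, ?_⟩
    · exact hl'.left.mem_cw hl'.left.mem (head_append h1') (by simp)
    · exact hl'.right.mem_cw hl'.right.mem (by simp) (last_append h2')
    · apply inn_disjoint s
      intro v hv hv'
      exact split_common hl'.nodup hv hv'
    · apply inn_mono
      intro v hv
      rw [h3]
      rcases List.mem_append.1 hv with h4 | h4
      · exact List.mem_append_left _ h4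
      · rw [List.mem_singleton.1 h4]
        exact List.mem_append_right _ List.mem_cons_self
    · apply inn_mono
      intro v hv
      rw [h3]
      exact List.mem_append_right _ hv

end Pool.Agent.helper55.FP
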