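import Pool.Agent.helper55.FP.Defs

/-! Module Indep: independence of events depending on disjoint edge sets, Markov union bound. -/

set_option autoImplicit false

open MeasureTheory Set Filter Topology ProbabilityTheory
open scoped ENNReal

namespace Pool.Agent.helper55.FP

variable {d : ℕ}

/-- the sigma-algebra generated by the coordinates in `S` -/
@[reducible] private def sg (d : ℕ) (S : Set (E d)) : MeasurableSpace (Cfg d) :=
  ⨆ i ∈ S, MeasurableSpace.comap (fun U : Cfg d => U i) inferInstance

private theorem sg_le (S : Set (E d)) : sg d S ≤ (inferInstance : MeasurableSpace (Cfg d)) := by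
  unfold sg
  refine iSup₂_le fun i _ => ?_
  exact (measurable_pi_apply i).comap_le

private theorem indep_sg {S T : Set (E d)} (hST : Disjoint S T) :
    Indep (sg d S) (sg d T) (P d) := by
  unfold sg
  apply indep_iSup_of_disjoint
  · intro i
    exact (measurable_pi_apply i).comap_le
  · have h := iIndepFun_infinitePi (P := fun _ : E d => unif) (X := fun (_ : E d) (x : ℝ) => x)
      (fun _ => measurable_id)
    rw [iIndepFun_iff_iIndep] at h
    exact h
  · exact hST

/-- a measurable function depending only on `S` is measurable for the coordinates in `S` -/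
private theorem measurable_sg {β : Type*} [MeasurableSpace β] {f : Cfg d → β} {S : Set (E d)}
    (hf : Measurable f) (hfS : DependsOn f S) : Measurable[sg d S] f := by
  classical
  have h1 : f = f ∘ (fun U : Cfg d => fun e => if e ∈ S then U e else 0) := by
    ext U
    apply hfS
    intro e he
    simp [he]
  rw [h1]
  have h2 : Measurable[sg d S] (fun U : Cfg d => fun e => if e ∈ S then U e else 0) := by
    refine @measurable_pi_lambda (Cfg d) (E d) (fun _ => ℝ) (sg d S) _ _ fun e => ?_
    by_cases he : e ∈ S
    · simp only [he, if_true]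
      have : MeasurableSpace.comap (fun U : Cfg d => U e) inferInstance ≤ sg d S := by
        unfold sg
        exact le_iSup₂_of_le e he le_rfl
      exact measurable_iff_comap_le.mpr this
    · simp only [he, if_false]
      exact measurable_const
  exact hf.comp h2

private theorem measurableSet_sg {A : Set (Cfg d)} {S : Set (E d)}
    (hA : MeasurableSet A) (hAS : DependsOn (fun U => U ∈ A) S) : MeasurableSet[sg d S] A := by
  have h1 : Measurable (fun U : Cfg d => U ∈ A) := measurable_mem.mpr hA |> fun h => h
  have h2 := measurable_sg h1 hAS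
  exact (@measurableSet_setOfPred (Cfg d) (sg d S) _).mpr h2

/-! ## B2 : independence, Markov union bound -/

theorem prob_inter {A B : Set (Cfg d)} {S T : Set (E d)} (hA : MeasurableSet A)
    (hB : MeasurableSet B) (hAS : DependsOn (fun U => U ∈ A) S)
    (hBT : DependsOn (fun U => U ∈ B) T) (hST : Disjoint S T) :
    (P d).real (A ∩ B) = (P d).real A * (P d).real B := by
  have h := (Indep_iff _ _ _).mp (indep_sg hST) A B (measurableSet_sg hA hAS)
    (measurableSet_sg hB hBT)
  unfold Measure.real
  rw [h, ENNReal.toReal_mul]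

theorem integral_mul_of_dependsOn {f g : Cfg d → ℝ} {S T : Set (E d)} (hf : Measurable f)
    (hg : Measurable g) (hfS : DependsOn f S) (hgT : DependsOn g T) (hST : Disjoint S T) :
    ∫ U, f U * g U ∂(P d) = (∫ U, f U ∂(P d)) * ∫ U, g U ∂(P d) := by
  have h : IndepFun f g (P d) := by
    rw [IndepFun_iff_Indep]
    exact indep_of_indep_of_le_left (indep_of_indep_of_le_right (indep_sg hST)
      (measurable_iff_comap_le.mp (measurable_sg hg hgT)))
      (measurable_iff_comap_le.mp (measurable_sg hf hfS))
  exact h.integral_fun_mul_eq_mul_integral hf.aestronglyMeasurable hg.aestronglyMeasurable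

private theorem tsum_vis {ι : Type} [Countable ι] (vis : ι → Set (Cfg d))
    (hv : ∀ i, MeasurableSet (vis i)) (N : ℕ) (hN : ∀ U, {i | U ∈ vis i}.encard ≤ N) :
    ∑' i, P d (vis i) ≤ N := by
  have h1 : ∀ i, P d (vis i) = ∫⁻ U, (vis i).indicator 1 U ∂(P d) := fun i =>
    (lintegral_indicator_one (hv i)).symm
  simp_rw [h1]
  rw [← lintegral_tsum (fun i => (measurable_one.indicator (hv i)).aemeasurable)]
  calc ∫⁻ U, ∑' i, (vis i).indicator 1 U ∂(P d) ≤ ∫⁻ _, (N : ℝ≥0∞) ∂(P d) := by
        apply lintegral_mono
        intro U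
        have h2 : ∑' i, (vis i).indicator (1 : Cfg d → ℝ≥0∞) U
            = ∑' i, ({i | U ∈ vis i} : Set ι).indicator (fun _ => (1 : ℝ≥0∞)) i := by
          apply tsum_congr
          intro i
          by_cases hi : U ∈ vis i <;> simp [hi]
        simp only
        rw [h2, ← tsum_subtype, ENNReal.tsum_set_one]
        have := hN U
        exact_mod_cast this
    _ = N := by simp

/-- version with sums of integrals of functions -/
theorem markov_sum {ι : Type} [Countable ι] (vis : ι → Set (Cfg d)) (f : ι → Cfg d → ℝ≥0∞)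
    (S : ι → Set (E d)) (hv : ∀ i, MeasurableSet (vis i)) (hf : ∀ i, Measurable (f i))
    (hvS : ∀ i, DependsOn (fun U => U ∈ vis i) (S i))
    (hfS : ∀ i, DependsOn (f i) (S i)ᶜ) (N : ℕ) (q : ℝ≥0∞)
    (hN : ∀ U, {i | U ∈ vis i}.encard ≤ N) (hq : ∀ i, ∫⁻ U, f i U ∂(P d) ≤ q) :
    ∑' i, ∫⁻ U, (vis i).indicator (f i) U ∂(P d) ≤ N * q := by
  have h1 : ∀ i, ∫⁻ U, (vis i).indicator (f i) U ∂(P d) ≤ P d (vis i) * q := by
    intro i
    have e1 : ∫⁻ U, (vis i).indicator (f i) U ∂(P d)
        = ∫⁻ U, (vis i).indicator 1 U * f i U ∂(P d) := by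
      apply lintegral_congr
      intro U
      by_cases hU : U ∈ vis i <;> simp [hU]
    rw [e1]
    have hm : Measurable[sg d (S i)] ((vis i).indicator (1 : Cfg d → ℝ≥0∞)) :=
      (measurable_const (a := (1 : ℝ≥0∞))).indicator (measurableSet_sg (hv i) (hvS i))
    rw [lintegral_mul_eq_lintegral_mul_lintegral_of_independent_measurableSpace (sg_le (S i))
      (sg_le (S i)ᶜ) (indep_sg disjoint_compl_right) hm (measurable_sg (hf i) (hfS i)),
      lintegral_indicator_one (hv i)]
    gcongr
    exact hq i
  calc ∑' i, ∫⁻ U, (vis i).indicator (f i) U ∂(P d) ≤ ∑' i, P d (vis i) * q :=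
        ENNReal.tsum_le_tsum h1
    _ = (∑' i, P d (vis i)) * q := ENNReal.tsum_mul_right
    _ ≤ N * q := by
        gcongr
        exact tsum_vis vis hv N hN

/-- if at most `N` of the events `vis i` occur at the same time, `vis i` depends on the edges `S i`
and `H i` on the other edges, `P(H i) ≤ q`, then `P(⋃ (vis i ∩ H i)) ≤ N q` -/
theorem markov_union {ι : Type} [Countable ι] (vis H : ι → Set (Cfg d)) (S : ι → Set (E d))
    (hv : ∀ i, MeasurableSet (vis i)) (hH : ∀ i, MeasurableSet (H i))
    (hvS : ∀ i, DependsOn (fun U => U ∈ vis i) (S i))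
    (hHS : ∀ i, DependsOn (fun U => U ∈ H i) (S i)ᶜ) (N : ℕ) (q : ℝ)
    (hN : ∀ U, {i | U ∈ vis i}.encard ≤ N) (hq : ∀ i, (P d).real (H i) ≤ q) (hq0 : 0 ≤ q) :
    (P d).real (⋃ i, vis i ∩ H i) ≤ N * q := by
  have h1 := markov_sum vis (fun i => (H i).indicator 1) S hv
    (fun i => measurable_one.indicator (hH i)) hvS
    (fun i => by
      intro U U' hUU
      have := hHS i hUU
      simp only [eq_iff_iff] at this
      by_cases hU : U ∈ H i
      · simp [hU, this.mp hU]
      · have hU' : U' ∉ H i := fun h => hU (this.mpr h)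
        simp [hU, hU']) N (ENNReal.ofReal q) hN
    (fun i => by
      rw [lintegral_indicator_one (hH i)]
      rw [← ENNReal.ofReal_toReal (measure_ne_top (P d) (H i))]
      exact ENNReal.ofReal_le_ofReal (hq i))
  have h2 : P d (⋃ i, vis i ∩ H i) ≤ N * ENNReal.ofReal q := by
    calc P d (⋃ i, vis i ∩ H i) ≤ ∑' i, P d (vis i ∩ H i) := measure_iUnion_le _
      _ = ∑' i, ∫⁻ U, (vis i).indicator ((H i).indicator 1) U ∂(P d) := by
          apply tsum_congr
          intro i
          rw [← lintegral_indicator_one ((hv i).inter (hH i))]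
          apply lintegral_congr
          intro U
          by_cases h3 : U ∈ vis i <;> by_cases h4 : U ∈ H i <;> simp [h3, h4]
      _ ≤ _ := h1
  unfold Measure.real
  have h3 := ENNReal.toReal_mono (by finiteness) h2
  rw [ENNReal.toReal_mul, ENNReal.toReal_natCast, ENNReal.toReal_ofReal hq0] at h3
  exact h3

end Pool.Agent.helper55.FP
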