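import Pool.Agent.helper55.FP.Defs
import Pool.Agent.helper55.FP.Conn

/-! # FP, module Meas: measurability and locality of connection and cluster events -/

set_option autoImplicit false

open MeasureTheory Set Filter Topology
open scoped ENNReal

namespace Pool.Agent.helper55.FP

variable {d : ℕ}

/-! ## B1' : measurability and locality -/

theorem measurableSet_Ev (p : ℝ) (𝒜 : Set (Finset (E d))) : MeasurableSet (Ev p 𝒜) := by
  have h : Ev p 𝒜 = ⋃ K ∈ 𝒜, ⋂ e ∈ K, {U : Cfg d | U e ≤ p} := by
    ext U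
    simp [Ev]
  rw [h]
  refine MeasurableSet.biUnion (to_countable 𝒜) fun K _ => ?_
  refine Finset.measurableSet_biInter K fun e _ => ?_
  exact measurableSet_le (measurable_pi_apply e) measurable_const

theorem measurableSet_conn (p : ℝ) (W : Set (V d)) (a b : V d) :
    MeasurableSet {U : Cfg d | Conn (op p U) W a b} := by
  have h : {U : Cfg d | Conn (op p U) W a b} = Ev p (cw W a b) := by
    ext U
    exact conn_op_iff
  rw [h]
  exact measurableSet_Ev p _

theorem measurableSet_encard_nat (p : ℝ) (W : Set (V d)) (a : V d) (n : ℕ) :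
    MeasurableSet {U : Cfg d | (n : ℕ∞) ≤ (Cl (op p U) W a).encard} := by
  have h : {U : Cfg d | (n : ℕ∞) ≤ (Cl (op p U) W a).encard} =
      ⋃ F ∈ {F : Finset (V d) | F.card = n}, ⋂ b ∈ F, {U : Cfg d | Conn (op p U) W a b} := by
    ext U
    simp only [mem_ofPred_eq, mem_iUnion, mem_iInter, exists_prop]
    constructor
    · intro hU
      obtain ⟨t, ht, htn⟩ := exists_subset_encard_eq hU
      have hfin : t.Finite := finite_of_encard_eq_coe htn
      refine ⟨hfin.toFinset, ?_, fun b hb => ht (hfin.mem_toFinset.1 hb)⟩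
      rw [hfin.encard_eq_coe_toFinset_card] at htn
      exact_mod_cast htn
    · rintro ⟨F, hF, hU⟩
      rw [← hF, ← encard_coe_eq_coe_finsetCard]
      exact encard_le_encard fun b hb => hU b hb
  rw [h]
  exact MeasurableSet.biUnion (to_countable _) fun F _ =>
    Finset.measurableSet_biInter F fun b _ => measurableSet_conn p W a b

theorem measurableSet_inf (p : ℝ) (W : Set (V d)) (a : V d) :
    MeasurableSet {U : Cfg d | (Cl (op p U) W a).Infinite} := by
  have h : {U : Cfg d | (Cl (op p U) W a).Infinite} =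
      ⋂ n : ℕ, {U : Cfg d | (n : ℕ∞) ≤ (Cl (op p U) W a).encard} := by
    ext U
    simp only [mem_ofPred_eq, mem_iInter]
    constructor
    · intro hU n
      rw [hU.encard_eq]
      exact le_top
    · intro hU hfin
      have h1 := hU ((Cl (op p U) W a).encard.toNat + 1)
      have h2 : (Cl (op p U) W a).encard ≠ ⊤ := encard_ne_top_iff.2 hfin
      have h3 := ENat.natCast_toNat h2
      rw [← h3] at h1
      have h4 : (Cl (op p U) W a).encard.toNat + 1 ≤ (Cl (op p U) W a).encard.toNat := by
        exact_mod_cast h1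
      omega
  rw [h]
  exact MeasurableSet.iInter fun n => measurableSet_encard_nat p W a n

theorem measurableSet_encard (p : ℝ) (W : Set (V d)) (a : V d) (n : ℕ∞) :
    MeasurableSet {U : Cfg d | n ≤ (Cl (op p U) W a).encard} := by
  induction n using ENat.recTopCoe with
  | top =>
    have h : {U : Cfg d | ⊤ ≤ (Cl (op p U) W a).encard} =
        {U : Cfg d | (Cl (op p U) W a).Infinite} := by
      ext U
      simp only [mem_ofPred_eq, top_le_iff]
      exact encard_eq_top_iff
    rw [h]
    exact measurableSet_inf p W a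
  | coe n => exact measurableSet_encard_nat p W a n

theorem measurableSet_cl_eq (p : ℝ) (W D : Set (V d)) (a : V d) :
    MeasurableSet {U : Cfg d | Cl (op p U) W a = D} := by
  classical
  have h : {U : Cfg d | Cl (op p U) W a = D} =
      ⋂ b : V d, {U : Cfg d | Conn (op p U) W a b ↔ b ∈ D} := by
    ext U
    simp only [mem_ofPred_eq, mem_iInter]
    exact Set.ext_iff
  rw [h]
  refine MeasurableSet.iInter fun b => ?_
  by_cases hb : b ∈ D
  · have : {U : Cfg d | Conn (op p U) W a b ↔ b ∈ D} = {U : Cfg d | Conn (op p U) W a b} := by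
      ext U; simp [hb]
    rw [this]
    exact measurableSet_conn p W a b
  · have : {U : Cfg d | Conn (op p U) W a b ↔ b ∈ D} = {U : Cfg d | Conn (op p U) W a b}ᶜ := by
      ext U; simp [hb]
    rw [this]
    exact (measurableSet_conn p W a b).compl

theorem step_congr {p : ℝ} {U U' : Cfg d} {W : Set (V d)} (h : ∀ e ∈ inner W, U e = U' e)
    {x y : V d} (hs : Step (op p U) W x y) : Step (op p U') W x y := by
  obtain ⟨hx, hy, e, he, hj⟩ := hs
  have hin : e ∈ inner W := by
    rcases hj with ⟨h1, h2⟩ | ⟨h1, h2⟩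
    · exact ⟨h1 ▸ hx, h2 ▸ hy⟩
    · exact ⟨h1 ▸ hy, h2 ▸ hx⟩
  refine ⟨hx, hy, e, ?_, hj⟩
  show U' e ≤ p
  rw [← h e hin]
  exact he

theorem conn_congr {p : ℝ} {U U' : Cfg d} {W : Set (V d)} (h : ∀ e ∈ inner W, U e = U' e)
    {a b : V d} (hs : Conn (op p U) W a b) : Conn (op p U') W a b :=
  by
  have hle : Step (op p U) W ≤ Step (op p U') W := fun x y hxy => step_congr h hxy
  exact ⟨hs.1, Relation.ReflTransGen.mono hle _ _ hs.2⟩

theorem dependsOn_conn (p : ℝ) (W : Set (V d)) (a b : V d) :
    DependsOn (fun U : Cfg d => Conn (op p U) W a b) (inner W) := by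
  intro U U' h
  exact propext ⟨fun hs => conn_congr h hs, fun hs => conn_congr (fun e he => (h e he).symm) hs⟩

theorem dependsOn_cl (p : ℝ) (W : Set (V d)) (a : V d) :
    DependsOn (fun U : Cfg d => Cl (op p U) W a) (inner W) := by
  intro U U' h
  ext b
  exact ⟨fun hs => conn_congr h hs, fun hs => conn_congr (fun e he => (h e he).symm) hs⟩

theorem cl_eq_congr {p : ℝ} {W D : Set (V d)} {a : V d} (ha : a ∈ W) {U U' : Cfg d}
    (h : ∀ e ∈ inner W ∩ touch D, U e = U' e) (hU : Cl (op p U) W a = D) :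
    Cl (op p U') W a = D := by
  have key : ∀ (Z Z' : Cfg d), (∀ e ∈ inner W ∩ touch D, Z e = Z' e) → ∀ x y : V d, x ∈ D →
      Step (op p Z) W x y → Step (op p Z') W x y := by
    rintro Z Z' hZ x y hxD ⟨hx, hy, e, he, hj⟩
    refine ⟨hx, hy, e, ?_, hj⟩
    have hin : e ∈ inner W ∩ touch D := by
      rcases hj with ⟨h1, h2⟩ | ⟨h1, h2⟩
      · exact ⟨⟨h1 ▸ hx, h2 ▸ hy⟩, Or.inl (h1 ▸ hxD)⟩
      · exact ⟨⟨h1 ▸ hy, h2 ▸ hx⟩, Or.inr (h2 ▸ hxD)⟩
    show Z' e ≤ p
    rw [← hZ e hin]
    exact he
  ext b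
  constructor
  · rintro ⟨-, hb⟩
    induction hb with
    | refl => rw [← hU]; exact Conn.refl ha
    | tail _ hs ih =>
      have h1 := key U' U (fun e he => (h e he).symm) _ _ ih hs
      rw [← hU] at ih ⊢
      exact Conn.snoc ih h1
  · intro hb
    rw [← hU] at hb
    obtain ⟨-, hb⟩ := hb
    have h2 : b ∈ D ∧ Conn (op p U') W a b := by
      induction hb with
      | refl => exact ⟨by rw [← hU]; exact Conn.refl ha, Conn.refl ha⟩
      | tail _ hs ih =>
        obtain ⟨ih1, ih2⟩ := ih
        refine ⟨?_, ih2.snoc (key U U' h _ _ ih1 hs)⟩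
        rw [← hU] at ih1 ⊢
        exact Conn.snoc ih1 hs
    exact h2.2

/-- the event `{C_W(a) = D}` depends only on the edges of `W` touching `D` -/
theorem dependsOn_cl_eq (p : ℝ) (W D : Set (V d)) (a : V d) (ha : a ∈ W) :
    DependsOn (fun U : Cfg d => Cl (op p U) W a = D) (inner W ∩ touch D) := by
  intro U U' h
  exact propext ⟨fun hs => cl_eq_congr ha h hs,
    fun hs => cl_eq_congr ha (fun e he => (h e he).symm) hs⟩

end Pool.Agent.helper55.FP
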