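import Pool.Agent.helper55.FP.Defs
import Pool.Agent.helper55.FP.Conn
import Pool.Agent.helper55.FP.Meas

/-! Module Symm: lattice symmetries preserve the percolation measure. -/

set_option autoImplicit false

open MeasureTheory Set Filter Topology
open scoped ENNReal

namespace Pool.Agent.helper55.FP

variable {d : ℕ}

/-! ## B6 : symmetries -/

theorem pre_pi (ψ : E d ≃ E d) (s : Finset (E d)) (t : E d → Set ℝ) :
    (fun U : Cfg d => fun e => U (ψ e)) ⁻¹' (Set.pi ↑s t)
      = Set.pi ↑(s.map ψ.toEmbedding) (fun e => t (ψ.symm e)) := by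
  ext U
  simp only [mem_preimage, Set.mem_pi, Finset.mem_coe, Finset.mem_map, Equiv.coe_toEmbedding,
    forall_exists_index, and_imp, forall_apply_eq_imp_iff₂, Equiv.symm_apply_apply]

theorem prod_map_unif (ψ : E d ≃ E d) (s : Finset (E d)) (t : E d → Set ℝ) :
    ∏ e ∈ s.map ψ.toEmbedding, unif (t (ψ.symm e)) = ∏ e ∈ s, unif (t e) := by
  rw [Finset.prod_map]
  simp

theorem measurePreserving_comp (ψ : E d ≃ E d) :
    MeasurePreserving (fun U : Cfg d => fun e => U (ψ e)) (P d) (P d) := by
  have hm : Measurable (fun U : Cfg d => fun e => U (ψ e)) :=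
    measurable_pi_lambda _ fun e => measurable_pi_apply _
  refine ⟨hm, ?_⟩
  unfold P
  apply Measure.eq_infinitePi
  intro s t ht
  rw [Measure.map_apply hm (MeasurableSet.pi s.countable_toSet fun i _ => ht i), pre_pi,
    Measure.infinitePi_pi _ (fun i _ => ht _)]
  exact prod_map_unif ψ s t

/-- a lattice automorphism: vertex map `φ` and edge map `ψ` -/
structure Aut (d : ℕ) where
  φ : V d ≃ V d
  ψ : E d ≃ E d
  joins : ∀ e a b, Joins e a b ↔ Joins (ψ e) (φ a) (φ b)

theorem step_aut (A : Aut d) (p : ℝ) (U : Cfg d) (W : Set (V d)) (a b : V d) :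
    Step (op p (fun e => U (A.ψ e))) (A.φ ⁻¹' W) a b ↔ Step (op p U) W (A.φ a) (A.φ b) := by
  unfold Step op
  simp only [mem_preimage, mem_setOf_eq]
  refine and_congr_right fun _ => and_congr_right fun _ => ?_
  constructor
  · rintro ⟨e, he, h⟩
    exact ⟨A.ψ e, he, (A.joins e a b).1 h⟩
  · rintro ⟨e, he, h⟩
    refine ⟨A.ψ.symm e, by rwa [Equiv.apply_symm_apply], (A.joins _ a b).2 ?_⟩
    rwa [Equiv.apply_symm_apply]

theorem conn_aut (A : Aut d) (p : ℝ) (U : Cfg d) (W : Set (V d)) (a b : V d) :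
    Conn (op p (fun e => U (A.ψ e))) (A.φ ⁻¹' W) a b ↔ Conn (op p U) W (A.φ a) (A.φ b) := by
  unfold Conn
  rw [mem_preimage]
  refine and_congr_right fun _ => ?_
  constructor
  · intro h
    exact h.lift A.φ fun x y hxy => (step_aut A p U W x y).1 hxy
  · intro h
    have h2 := h.lift (p := Step (op p (fun e => U (A.ψ e))) (A.φ ⁻¹' W)) A.φ.symm
      fun x y hxy => (step_aut A p U W _ _).2 (by simpa only [Equiv.apply_symm_apply] using hxy)
    have h3 : Relation.ReflTransGen (Step (op p (fun e => U (A.ψ e))) (A.φ ⁻¹' W))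
        (A.φ.symm (A.φ a)) (A.φ.symm (A.φ b)) := h2
    rwa [Equiv.symm_apply_apply, Equiv.symm_apply_apply] at h3

theorem cl_aut (A : Aut d) (p : ℝ) (U : Cfg d) (W : Set (V d)) (a : V d) :
    Cl (op p (fun e => U (A.ψ e))) (A.φ ⁻¹' W) a = A.φ ⁻¹' (Cl (op p U) W (A.φ a)) := by
  ext b
  exact conn_aut A p U W a b

/-- translations -/
theorem exists_translation (z : V d) : ∃ A : Aut d, ∀ x, A.φ x = x + z := by
  refine ⟨⟨Equiv.addRight z, (Equiv.addRight z).prodCongr (Equiv.refl _), ?_⟩, fun x => rfl⟩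
  rintro ⟨x, i⟩ a b
  have h1 : ∀ c : V d, c = x ↔ c + z = x + z := fun c => (add_left_inj z).symm
  have h2 : ∀ c : V d, c = x + Pi.single i 1 ↔ c + z = x + z + Pi.single i 1 := fun c => by
    rw [add_right_comm, add_left_inj]
  unfold Joins tip
  simp only [Equiv.prodCongr_apply, Prod.map_apply, Equiv.coe_addRight, Equiv.coe_refl, id_eq]
  rw [h1 a, h2 b, h1 b, h2 a]

/-- sign change of one coordinate -/
theorem exists_flip (i : Fin d) : ∃ A : Aut d, ∀ x, A.φ x = Function.update x i (- x i) := by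
  have hinv : Function.Involutive (fun x : V d => Function.update x i (- x i)) := by
    intro x
    funext j
    by_cases hj : j = i
    · subst hj; simp
    · simp [Function.update_of_ne hj]
  have hadd1 : ∀ x : V d, Function.update (x + Pi.single i 1) i (-(x + Pi.single i 1 : V d) i)
      = Function.update x i (- x i) - Pi.single i 1 := by
    intro x
    funext j
    by_cases hj : j = i
    · subst hj; simp; ring
    · simp [Function.update_of_ne hj, Pi.single_eq_of_ne hj]
  have hadd2 : ∀ (x : V d) (j : Fin d), j ≠ i →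
      Function.update (x + Pi.single j 1) i (-(x + Pi.single j 1 : V d) i)
      = Function.update x i (- x i) + Pi.single j 1 := by
    intro x j hj
    funext l
    by_cases hl : l = i
    · subst hl
      simp [Pi.single_eq_of_ne (Ne.symm hj)]
    · simp [Function.update_of_ne hl]
  set f : V d → V d := fun x => Function.update x i (- x i) with hf
  have hfi : ∀ x, f (f x) = x := hinv
  have ha1 : ∀ x : V d, f (x + Pi.single i 1) = f x - Pi.single i 1 := hadd1
  have ha2 : ∀ (x : V d) (j : Fin d), j ≠ i → f (x + Pi.single j 1) = f x + Pi.single j 1 := hadd2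
  let g : E d → E d := fun e => if e.2 = i then (f (tip e), i) else (f e.1, e.2)
  have hgi : Function.Involutive g := by
    rintro ⟨x, j⟩
    by_cases hj : j = i
    · subst hj
      simp only [g, tip, if_true]
      rw [ha1 x, sub_add_cancel, hfi]
    · simp only [g, if_neg hj, hfi]
  refine ⟨⟨hinv.toPerm, hgi.toPerm, ?_⟩, fun x => rfl⟩
  rintro ⟨x, j⟩ a b
  have hfinj : ∀ u w : V d, u = w ↔ f u = f w := fun u w => hinv.injective.eq_iff.symm
  show Joins (x, j) a b ↔ Joins (g (x, j)) (f a) (f b)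
  by_cases hj : j = i
  · subst hj
    have e1 : g (x, j) = (f x - Pi.single j 1, j) := by
      simp only [g, tip, if_true]
      rw [ha1 x]
    rw [e1]
    unfold Joins tip
    simp only
    rw [sub_add_cancel, hfinj a x, hfinj b (x + Pi.single j 1), hfinj b x,
      hfinj a (x + Pi.single j 1), ha1 x]
    tauto
  · have e1 : g (x, j) = (f x, j) := by simp only [g, if_neg hj]
    rw [e1]
    unfold Joins tip
    simp only
    rw [hfinj a x, hfinj b (x + Pi.single j 1), hfinj b x, hfinj a (x + Pi.single j 1),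
      ha2 x j hj]

/-- permutation of the coordinates -/
theorem exists_perm (σ : Equiv.Perm (Fin d)) : ∃ A : Aut d, ∀ x, A.φ x = fun i => x (σ i) := by
  let f : V d ≃ V d :=
    { toFun := fun x i => x (σ i)
      invFun := fun x i => x (σ.symm i)
      left_inv := fun x => by funext i; simp
      right_inv := fun x => by funext i; simp }
  have hadd : ∀ (x : V d) (j : Fin d), f (x + Pi.single j 1) = f x + Pi.single (σ.symm j) 1 := by
    intro x j
    funext l
    show x (σ l) + (Pi.single j 1 : V d) (σ l) = x (σ l) + (Pi.single (σ.symm j) 1 : V d) l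
    congr 1
    by_cases hl : σ l = j
    · subst hl; simp
    · rw [Pi.single_eq_of_ne hl, Pi.single_eq_of_ne]
      rintro rfl
      exact hl (by simp)
  refine ⟨⟨f, f.prodCongr σ.symm, ?_⟩, fun x => rfl⟩
  rintro ⟨x, j⟩ a b
  have hfinj : ∀ u w : V d, u = w ↔ f u = f w := fun u w => f.injective.eq_iff.symm
  unfold Joins tip
  simp only [Equiv.prodCongr_apply, Prod.map_apply]
  rw [hfinj a x, hfinj b (x + Pi.single j 1), hfinj b x, hfinj a (x + Pi.single j 1), hadd]

theorem tauW_aut (A : Aut d) (p : ℝ) (W : Set (V d)) (a b : V d) :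
    tauW p (A.φ ⁻¹' W) a b = tauW p W (A.φ a) (A.φ b) := by
  unfold tauW
  have h := (measurePreserving_comp A.ψ).measureReal_preimage
    (measurableSet_conn p (A.φ ⁻¹' W) a b).nullMeasurableSet
  rw [← h]
  congr 1
  ext U
  exact conn_aut A p U W a b

theorem tauW_univ (p : ℝ) (a b : V d) : tauW p univ a b = tau p (b - a) := by
  obtain ⟨A, hA⟩ := exists_translation (-a)
  have h := tauW_aut A p univ a b
  rw [preimage_univ, hA, hA, add_neg_cancel, ← sub_eq_add_neg] at h
  exact h

theorem tauW_symm (p : ℝ) (W : Set (V d)) (a b : V d) : tauW p W a b = tauW p W b a := by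
  unfold tauW
  congr 1
  ext U
  exact ⟨fun h => h.symm, fun h => h.symm⟩

theorem tau_neg (p : ℝ) (x : V d) : tau p (-x) = tau p x := by
  rw [← zero_sub, ← tauW_univ, tauW_symm]
  rfl

theorem tauW_mono {p q : ℝ} (h : p ≤ q) {W W' : Set (V d)} (hW : W ⊆ W') (a b : V d) :
    tauW p W a b ≤ tauW q W' a b :=
  measureReal_mono (fun U hU => Conn.mono (op_mono h U) hW hU)

theorem tauW_le (p : ℝ) (W : Set (V d)) (a b : V d) : tauW p W a b ≤ tau p (b - a) := by
  rw [← tauW_univ]
  exact tauW_mono le_rfl (subset_univ _) a b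

theorem tau_zero (p : ℝ) : tau p (0 : V d) = 1 := by
  unfold tau tauW
  have : {U : Cfg d | Conn (op p U) univ (0 : V d) 0} = univ := by
    ext U
    simp only [mem_setOf_eq, mem_univ, iff_true]
    exact Conn.refl (mem_univ _)
  rw [this]
  exact probReal_univ

theorem thetaW_aut (A : Aut d) (p : ℝ) (W : Set (V d)) (a : V d) :
    thetaW p (A.φ ⁻¹' W) a = thetaW p W (A.φ a) := by
  unfold thetaW
  have h := (measurePreserving_comp A.ψ).measureReal_preimage
    (measurableSet_inf p (A.φ ⁻¹' W) a).nullMeasurableSet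
  rw [← h]
  congr 1
  ext U
  show (Cl (op p (fun e => U (A.ψ e))) (A.φ ⁻¹' W) a).Infinite ↔ _
  rw [cl_aut]
  show ¬ (A.φ ⁻¹' (Cl (op p U) W (A.φ a))).Finite ↔ ¬ (Cl (op p U) W (A.φ a)).Finite
  rw [← Equiv.image_symm_eq_preimage, Set.finite_image_iff A.φ.symm.injective.injOn]

theorem tailW_aut (A : Aut d) (p : ℝ) (W : Set (V d)) (a : V d) (n : ℕ) :
    tailW p (A.φ ⁻¹' W) a n = tailW p W (A.φ a) n := by
  unfold tailW
  have h := (measurePreserving_comp A.ψ).measureReal_preimage
    (measurableSet_encard p (A.φ ⁻¹' W) a n).nullMeasurableSet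
  rw [← h]
  congr 1
  ext U
  show (n : ℕ∞) ≤ (Cl (op p (fun e => U (A.ψ e))) (A.φ ⁻¹' W) a).encard ↔ _
  rw [cl_aut, ← Equiv.image_symm_eq_preimage, A.φ.symm.injective.encard_image]
  rfl

theorem thetaW_univ (p : ℝ) (a : V d) : thetaW p univ a = theta d p := by
  obtain ⟨A, hA⟩ := exists_translation (-a)
  have h := thetaW_aut A p univ a
  rw [preimage_univ, hA, add_neg_cancel] at h
  exact h

theorem tailW_univ (p : ℝ) (a : V d) (n : ℕ) : tailW p univ a n = tail d p n := by
  obtain ⟨A, hA⟩ := exists_translation (-a)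
  have h := tailW_aut A p univ a n
  rw [preimage_univ, hA, add_neg_cancel] at h
  exact h

theorem cl_mono {O O' : Set (E d)} {W W' : Set (V d)} (hO : O ⊆ O') (hW : W ⊆ W') (a : V d) :
    Cl O W a ⊆ Cl O' W' a := fun _ hb => Conn.mono hO hW hb

theorem thetaW_le (p : ℝ) (W : Set (V d)) (a : V d) : thetaW p W a ≤ theta d p := by
  rw [← thetaW_univ p a]
  exact measureReal_mono
    (fun U hU => Set.Infinite.mono (cl_mono subset_rfl (subset_univ W) a) hU)

theorem tailW_le (p : ℝ) (W : Set (V d)) (a : V d) (n : ℕ) : tailW p W a n ≤ tail d p n := by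
  rw [← tailW_univ p a]
  exact measureReal_mono
    (fun U hU => le_trans hU (Set.encard_le_encard (cl_mono subset_rfl (subset_univ W) a)))

theorem theta_mono {p q : ℝ} (h : p ≤ q) : theta d p ≤ theta d q :=
  measureReal_mono (fun U hU => Set.Infinite.mono (cl_mono (op_mono h U) subset_rfl 0) hU)

theorem theta_le_tail (p : ℝ) (n : ℕ) : theta d p ≤ tail d p n := by
  refine measureReal_mono (fun U hU => ?_)
  show (n : ℕ∞) ≤ (Cl (op p U) univ 0).encard
  rw [Set.Infinite.encard_eq hU]
  exact le_top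

theorem tail_tendsto (p : ℝ) : Tendsto (fun n => tail d p n) atTop (𝓝 (theta d p)) := by
  have hset : {U : Cfg d | (Cl (op p U) univ (0 : V d)).Infinite}
      = ⋂ n : ℕ, {U : Cfg d | (n : ℕ∞) ≤ (Cl (op p U) univ (0 : V d)).encard} := by
    ext U
    simp only [mem_setOf_eq, mem_iInter]
    constructor
    · intro h n
      rw [h.encard_eq]
      exact le_top
    · intro h hfin
      have h1 := h ((Cl (op p U) univ (0 : V d)).encard.toNat + 1)
      obtain ⟨N, hN⟩ := ENat.ne_top_iff_exists.1 (Set.encard_ne_top_iff.2 hfin)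
      rw [← hN] at h1
      simp only [ENat.toNat_coe] at h1
      norm_cast at h1
      omega
  have hanti : Antitone fun n : ℕ =>
      {U : Cfg d | (n : ℕ∞) ≤ (Cl (op p U) univ (0 : V d)).encard} := by
    intro m n hmn U hU
    have h1 : (m : ℕ∞) ≤ (n : ℕ∞) := by exact_mod_cast hmn
    exact le_trans h1 hU
  have h1 := tendsto_measure_iInter_atTop (μ := P d)
    (fun n : ℕ => (measurableSet_encard p univ (0 : V d) (n : ℕ∞)).nullMeasurableSet) hanti
    ⟨0, measure_ne_top _ _⟩
  rw [← hset] at h1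
  exact (ENNReal.tendsto_toReal (measure_ne_top _ _)).comp h1

end Pool.Agent.helper55.FP
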