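import Pool.Agent.helper90.FP.LFinal
import Pool.Agent.helper85.L1.Final

/-! Module Lace: the output of the lace expansion (part L1 `L1.lace1` and part L2
`lace_of_lace1`). -/

set_option autoImplicit false

namespace Pool.Agent.helper55.FP

theorem lace (η : ℝ) (hη : 0 < η) : ∃ d₀ : ℕ, ∀ d ≥ d₀, ∀ pc : ℝ, 0 < pc → pc ≤ 1 →
    SubExp d pc → LaceOut d η pc := lace_of_lace1 L1.lace1 η hη

end Pool.Agent.helper55.FP
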