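import Pool.Agent.helper55.FP.Defs
import Pool.Agent.helper55.FP.Conn
import Pool.Agent.helper55.FP.Meas

/-! # FP, module LeftCont: left continuity of connection and tail probabilities -/

set_option autoImplicit false

open MeasureTheory Set Filter Topology
open scoped ENNReal

namespace Pool.Agent.helper55.FP

variable {d : ℕ}

/-! ## B7 : left continuity in `p` -/

theorem prob_eq_level (e : E d) (p : ℝ) : P d {U : Cfg d | U e = p} = 0 := by
  have h := (measurePreserving_eval_infinitePi (fun _ : E d => unif) e).measure_preimage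
    (s := {p}) (measurableSet_singleton p).nullMeasurableSet
  have h2 : unif {p} = 0 := by
    unfold unif
    exact measure_singleton p
  rw [h2] at h
  exact h

theorem Ev_mono {p q : ℝ} (h : p ≤ q) (𝒜 : Set (Finset (E d))) : Ev p 𝒜 ⊆ Ev q 𝒜 := by
  rintro U ⟨K, hK, hU⟩
  exact ⟨K, hK, fun e he => (hU e he).trans h⟩

/-- left continuity of the probability of a finitely witnessed increasing event -/
theorem Ev_left_cont (p : ℝ) (𝒜 : Set (Finset (E d))) :
    Tendsto (fun q => (P d).real (Ev q 𝒜)) (𝓝[<] p) (𝓝 ((P d).real (Ev p 𝒜))) := by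
  obtain ⟨u, hu1, hu2, hu3⟩ := exists_seq_strictMono_tendsto p
  have hmono : ∀ {q q' : ℝ}, q ≤ q' → (P d).real (Ev q 𝒜) ≤ (P d).real (Ev q' 𝒜) :=
    fun h => measureReal_mono (Ev_mono h 𝒜)
  have hlim : Tendsto (fun n => (P d).real (Ev (u n) 𝒜)) atTop (𝓝 ((P d).real (Ev p 𝒜))) := by
    have h1 := tendsto_measure_iUnion_atTop (μ := P d) (s := fun n => Ev (u n) 𝒜)
      (fun m n hmn => Ev_mono (hu1.monotone hmn) 𝒜)
    have h2 : P d (⋃ n, Ev (u n) 𝒜) = P d (Ev p 𝒜) := by
      refine le_antisymm (measure_mono (iUnion_subset fun n => Ev_mono (hu2 n).le 𝒜)) ?_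
      have h3 : Ev p 𝒜 ⊆ (⋃ n, Ev (u n) 𝒜) ∪ ⋃ e : E d, {U : Cfg d | U e = p} := by
        rintro U ⟨K, hK, hU⟩
        by_cases hall : ∀ e ∈ K, U e ≠ p
        · left
          have h4 : ∀ᶠ n in atTop, ∀ e ∈ K, U e ≤ u n := by
            rw [eventually_all_finset]
            intro e he
            have h5 : U e < p := lt_of_le_of_ne (hU e he) (hall e he)
            exact (hu3.eventually (lt_mem_nhds h5)).mono fun n hn => hn.le
          obtain ⟨n, hn⟩ := h4.exists
          exact mem_iUnion.2 ⟨n, K, hK, hn⟩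
        · right
          push Not at hall
          obtain ⟨e, -, he⟩ := hall
          exact mem_iUnion.2 ⟨e, he⟩
      refine (measure_mono h3).trans ((measure_union_le _ _).trans ?_)
      rw [measure_iUnion_null fun e => prob_eq_level e p, add_zero]
    rw [h2] at h1
    exact (ENNReal.tendsto_toReal (measure_ne_top _ _)).comp h1
  rw [tendsto_order]
  constructor
  · intro a ha
    obtain ⟨n, hn⟩ := (hlim.eventually (lt_mem_nhds ha)).exists
    filter_upwards [Ioo_mem_nhdsLT (hu2 n)] with q hq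
    exact hn.trans_le (hmono hq.1.le)
  · intro b hb
    filter_upwards [self_mem_nhdsWithin] with q hq
    exact (hmono (le_of_lt hq)).trans_lt hb

theorem tauW_left_cont (p : ℝ) (W : Set (V d)) (a b : V d) :
    Tendsto (fun q => tauW q W a b) (𝓝[<] p) (𝓝 (tauW p W a b)) := by
  have h : ∀ q, tauW q W a b = (P d).real (Ev q (cw W a b)) := by
    intro q
    unfold tauW
    congr 1
    ext U
    exact conn_op_iff
  simp_rw [h]
  exact Ev_left_cont p _

/-- large clusters have finite witnesses -/
theorem encard_iff_wit (q : ℝ) (n : ℕ) (W : Set (V d)) (a : V d) (U : Cfg d) :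
    (n : ℕ∞) ≤ (Cl (op q U) W a).encard ↔
      U ∈ Ev q {K : Finset (E d) | (n : ℕ∞) ≤ (Cl (↑K : Set (E d)) W a).encard} := by
  classical
  constructor
  · intro hU
    obtain ⟨t, ht, htn⟩ := exists_subset_encard_eq hU
    have hfin : t.Finite := finite_of_encard_eq_coe htn
    have hw : ∀ b : V d, ∃ K : Finset (E d), b ∈ t → K ∈ cw W a b ∧ (↑K : Set (E d)) ⊆ op q U := by
      intro b
      by_cases hb : b ∈ t
      · obtain ⟨K, hK, hK2⟩ := conn_iff_wit.1 (ht hb : Conn (op q U) W a b)
        exact ⟨K, fun _ => ⟨hK, hK2⟩⟩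
      · exact ⟨∅, fun h => absurd h hb⟩
    choose K hK using hw
    refine ⟨hfin.toFinset.biUnion K, ?_, ?_⟩
    · show (n : ℕ∞) ≤ _
      rw [← htn]
      refine encard_le_encard fun b hb => ?_
      refine Conn.mono (W := W) ?_ subset_rfl (hK b hb).1
      intro e he
      exact Finset.mem_coe.2 (Finset.mem_biUnion.2 ⟨b, hfin.mem_toFinset.2 hb, he⟩)
    · intro e he
      obtain ⟨b, hb, he⟩ := Finset.mem_biUnion.1 he
      exact (hK b (hfin.mem_toFinset.1 hb)).2 he
  · rintro ⟨K, hK, hU⟩
    refine le_trans hK (encard_le_encard fun b hb => ?_)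
    exact Conn.mono (fun e he => hU e he) subset_rfl hb

theorem tail_left_cont (p : ℝ) (n : ℕ) :
    Tendsto (fun q => tail d q n) (𝓝[<] p) (𝓝 (tail d p n)) := by
  have h : ∀ q, tail d q n = (P d).real
      (Ev q {K : Finset (E d) | (n : ℕ∞) ≤ (Cl (↑K : Set (E d)) univ 0).encard}) := by
    intro q
    unfold tail tailW
    congr 1
    ext U
    exact encard_iff_wit q n univ 0 U
  simp_rw [h]
  exact Ev_left_cont p _

end Pool.Agent.helper55.FP
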