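import Pool.Agent.helper88.FPM.MAsm

/-! FP project: mean-field bound of the tail of the cluster size (part M). -/

set_option autoImplicit false

namespace Pool.Agent.helper55.FP

theorem tail_bound : ∃ η > 0, ∃ d₁ : ℕ, ∀ d ≥ d₁, ∀ pc : ℝ, 0 < pc → pc ≤ 1 → SubExp d pc →
    (∀ K : ℝ, ∃ p, 0 ≤ p ∧ p < pc ∧ K ≤ chi d p) → LaceOut d η pc →
    ∃ C > 0, ∀ δ ≥ 0, pc + δ ≤ 1 → ∀ n : ℕ, 1 ≤ n → tail d (pc + δ) n ≤ C * (δ + 1 / Real.sqrt n) :=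
  Pool.Agent.helper88.FPM.tail_bound

end Pool.Agent.helper55.FP
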