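import Pool.Agent.helper55.FP.Defs
import Pool.Agent.helper55.FP.Conn
import Pool.Agent.helper55.FP.Meas
import Pool.Agent.helper55.FP.Symm
import Pool.Agent.helper55.FP.LeftCont
import Pool.Agent.helper28.FPS.A
import Pool.Agent.helper28.FPS.B
import Pool.Agent.helper28.FPS.C

/-! # Sharpness of the phase transition (Duminil-Copin - Tassion) -/

set_option autoImplicit false

open MeasureTheory Set Filter Topology
open scoped ENNReal

namespace Pool.Agent.helper28.FPS

open Pool.Agent.helper55.FP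

variable {d : ℕ}

/-- parameters for which some finite set has `phi < 1` -/
def GG (d : ℕ) : Set ℝ := {p | 0 ≤ p ∧ p ≤ 1 ∧ ∃ S : Finset (V d), 0 ∈ S ∧ phi p S < 1}

theorem phi_zero (S : Finset (V d)) : phi 0 S = 0 := zero_mul _

theorem zero_mem_GG : (0 : ℝ) ∈ GG d :=
  ⟨le_refl _, zero_le_one, {0}, Finset.mem_singleton_self _, by rw [phi_zero]; exact zero_lt_one⟩

theorem GG_bdd : BddAbove (GG d) := ⟨1, fun _ h => h.2.1⟩

/-- Lipschitz continuity of `phi` -/
theorem phi_lip (S : Finset (V d)) : ∃ K ≥ 0, ∀ p q : ℝ, 0 ≤ p → p ≤ q → q ≤ 1 →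
    phi q S ≤ phi p S + K * (q - p) := by
  set M : ℝ := ((bd S).card : ℝ) with hM
  set N : ℝ := ((touch_finite S.finite_toSet).toFinset.card : ℝ) with hN
  have hM0 : 0 ≤ M := Nat.cast_nonneg _
  have hN0 : 0 ≤ N := Nat.cast_nonneg _
  refine ⟨M + M * N, by positivity, ?_⟩
  intro p q hp hpq hq
  have h1 : ∑ e ∈ bd S, tauW q (↑S) 0 (inn S e) ≤
      ∑ e ∈ bd S, tauW p (↑S) 0 (inn S e) + M * (N * (q - p)) := by
    have h2 : ∀ e ∈ bd S, tauW q (↑S) 0 (inn S e) ≤ tauW p (↑S) 0 (inn S e) + N * (q - p) :=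
      fun e _ => tauW_lip hp hpq hq S 0 (inn S e)
    refine (Finset.sum_le_sum h2).trans ?_
    rw [Finset.sum_add_distrib, Finset.sum_const, nsmul_eq_mul]
  have h3 : 0 ≤ ∑ e ∈ bd S, tauW p (↑S) 0 (inn S e) :=
    Finset.sum_nonneg fun _ _ => tauW_nonneg _ _ _ _
  have h4 : ∑ e ∈ bd S, tauW p (↑S) 0 (inn S e) ≤ M := by
    refine (Finset.sum_le_card_nsmul _ _ 1 fun e _ => tauW_le_one _ _ _ _).trans ?_
    rw [nsmul_eq_mul, mul_one]
  unfold phi
  set A := ∑ e ∈ bd S, tauW p (↑S) 0 (inn S e) with hA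
  have h5 : q * ∑ e ∈ bd S, tauW q (↑S) 0 (inn S e) ≤ q * (A + M * (N * (q - p))) :=
    mul_le_mul_of_nonneg_left h1 (hp.trans hpq)
  refine h5.trans ?_
  have h6 : (q - p) * A ≤ (q - p) * M := mul_le_mul_of_nonneg_left h4 (by linarith)
  have h7 : q * (M * (N * (q - p))) ≤ 1 * (M * (N * (q - p))) :=
    mul_le_mul_of_nonneg_right hq (by
      have : 0 ≤ q - p := by linarith
      positivity)
  nlinarith

/-- at level one every finite set has `phi ≥ 1` -/
theorem phi_one (hd : 1 ≤ d) (S : Finset (V d)) (h0 : (0 : V d) ∈ S) : 1 ≤ phi 1 S := by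
  -- the component of `0` in `S`
  set C : Set (V d) := Cl univ (↑S) 0 with hC
  have hCS : C ⊆ ↑S := fun x hx => Conn.right hx
  have hfin : C.Finite := S.finite_toSet.subset hCS
  have h0C : (0 : V d) ∈ C := Conn.refl h0
  obtain ⟨u, hu, hmax⟩ := hfin.toFinset.exists_max_image (fun x => x ⟨0, hd⟩)
    ⟨0, hfin.mem_toFinset.2 h0C⟩
  rw [hfin.mem_toFinset] at hu
  set e : E d := (u, ⟨0, hd⟩) with he
  have hv : tip e ∉ S := by
    intro hvS
    have h1 : tip e ∈ C := by
      have h2 : Conn univ (↑S) 0 u := hu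
      exact h2.snoc ⟨hCS hu, hvS, e, mem_univ _, Or.inl ⟨rfl, rfl⟩⟩
    have h3 := hmax (tip e) (hfin.mem_toFinset.2 h1)
    simp [tip, he] at h3
  obtain ⟨h1, h2, h3⟩ := bd_of_joins (e := e) (u := u) (v := tip e) (Or.inl ⟨rfl, rfl⟩)
    (hCS hu) hv
  have h4 : tauW 1 (↑S) 0 (inn S e) = 1 := by
    rw [h2]
    have h5 : ∀ᵐ U ∂(P d), Conn (op 1 U) (↑S) 0 u := by
      have h6 : ∀ᵐ U ∂(P d), ∀ e : E d, 0 < U e ∧ U e ≤ 1 := by
        rw [ae_all_iff]
        exact ae_pos_le_one
      filter_upwards [h6] with U hU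
      have h7 : Conn univ (↑S) 0 u := hu
      exact h7.mono (fun e _ => (hU e).2) (subset_refl _)
    unfold tauW
    rw [measureReal_def, (prob_compl_eq_zero_iff (measurableSet_conn _ _ _ _)).1 h5,
      ENNReal.toReal_one]
  unfold phi
  rw [one_mul]
  calc (1 : ℝ) = tauW 1 (↑S) 0 (inn S e) := h4.symm
    _ ≤ _ := Finset.single_le_sum (f := fun e => tauW 1 (↑S) 0 (inn S e))
        (fun _ _ => tauW_nonneg _ _ _ _) h1

theorem phi_pc {S : Finset (V d)} (hd : 1 ≤ d) (h0 : (0 : V d) ∈ S) :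
    1 ≤ phi (sSup (GG d)) S := by
  by_contra hcon
  push Not at hcon
  set pc := sSup (GG d) with hpc
  have hpc0 : 0 ≤ pc := le_csSup GG_bdd zero_mem_GG
  have hpc1 : pc ≤ 1 := csSup_le ⟨0, zero_mem_GG⟩ fun _ h => h.2.1
  rcases hpc1.lt_or_eq with hlt | heq
  · obtain ⟨K, hK, hlip⟩ := phi_lip S
    set δ : ℝ := min (1 - pc) ((1 - phi pc S) / (2 * (K + 1))) with hδ
    have hδ0 : 0 < δ := lt_min (by linarith) (div_pos (by linarith) (by linarith))
    have h1 : phi (pc + δ) S < 1 := by
      have h2 := hlip pc (pc + δ) hpc0 (by linarith) (by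
        have := min_le_left (1 - pc) ((1 - phi pc S) / (2 * (K + 1)))
        linarith)
      have h3 : δ ≤ (1 - phi pc S) / (2 * (K + 1)) := min_le_right _ _
      have h4 : K * δ ≤ (1 - phi pc S) / 2 := by
        have h5 : K * δ ≤ (K + 1) * δ := by nlinarith
        have h6 : (K + 1) * δ ≤ (K + 1) * ((1 - phi pc S) / (2 * (K + 1))) :=
          mul_le_mul_of_nonneg_left h3 (by linarith)
        have h7 : (K + 1) * ((1 - phi pc S) / (2 * (K + 1))) = (1 - phi pc S) / 2 := by
          field_simp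
        linarith
      have h8 : pc + δ - pc = δ := by ring
      rw [h8] at h2
      linarith
    have h2 : pc + δ ∈ GG d := ⟨by linarith, by
        have := min_le_left (1 - pc) ((1 - phi pc S) / (2 * (K + 1)))
        linarith, S, h0, h1⟩
    have h3 := le_csSup GG_bdd h2
    linarith
  · have := phi_one hd S h0
    rw [heq] at hcon
    linarith

theorem phi_ge {p : ℝ} (hd : 1 ≤ d) (hp : sSup (GG d) ≤ p) {S : Finset (V d)}
    (h0 : (0 : V d) ∈ S) : 1 ≤ phi p S :=
  (phi_pc hd h0).trans (phi_mono (le_csSup GG_bdd zero_mem_GG) hp S)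

/-- the ball -/
def WW (d : ℕ) (n : ℕ) : Set (V d) := {x | ‖x‖ ≤ n + 1}

/-- the sphere -/
def TT (d : ℕ) (n : ℕ) : Set (V d) := {x | ‖x‖ ≤ n + 1 ∧ (n : ℝ) < ‖x‖}

theorem AA_lower (hd : 1 ≤ d) {δ : ℝ} (hδ : 0 < δ) (h1 : sSup (GG d) + δ ≤ 1) (n : ℕ) :
    1 - Real.exp (-δ) ≤ (P d).real (AA (sSup (GG d) + δ) (WW d n) (TT d n)) := by
  set pc := sSup (GG d) with hpc
  have hpc0 : 0 ≤ pc := le_csSup GG_bdd zero_mem_GG
  obtain ⟨K, hK, hstep⟩ := dct_step (W := WW d n) (T := TT d n) (closedBall_finite _)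
    (by
      change ‖(0 : V d)‖ ≤ n + 1
      rw [norm_zero]
      positivity)
    (by
      rintro x ⟨hx, hxT⟩ y hxy
      have hx' : ‖x‖ ≤ n := by
        by_contra hcon
        exact hxT ⟨hx, not_le.1 hcon⟩
      have h2 := Adj.norm hxy
      have h3 : y = x + (y - x) := by abel
      change ‖y‖ ≤ n + 1
      rw [h3]
      exact (norm_add_le _ _).trans (add_le_add hx' h2))
  set g : ℝ → ℝ := fun p => 1 - (P d).real (AA p (WW d n) (TT d n)) with hg
  have hg0 : ∀ p, 0 ≤ g p := by
    intro p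
    have : (P d).real (AA p (WW d n) (TT d n)) ≤ 1 := measureReal_le_one
    simp only [hg]
    linarith
  have hg1 : ∀ p, g p ≤ 1 := by
    intro p
    have : 0 ≤ (P d).real (AA p (WW d n) (TT d n)) := measureReal_nonneg
    simp only [hg]
    linarith
  have hgs : ∀ p q : ℝ, pc ≤ p → p ≤ q → q ≤ 1 →
      g q ≤ Real.exp (-(q - p)) * g p + K * (q - p) ^ 2 := by
    intro p q hp hpq hq
    have h2 := hstep p q (hpc0.trans hp) hpq hq (fun S h0 => phi_ge hd hp h0)
    have h3 : 1 - (q - p) ≤ Real.exp (-(q - p)) := by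
      have := Real.add_one_le_exp (-(q - p))
      linarith
    have h4 : (1 - (q - p)) * g p ≤ Real.exp (-(q - p)) * g p :=
      mul_le_mul_of_nonneg_right h3 (hg0 p)
    simp only [hg] at h4 ⊢
    nlinarith
  -- iteration
  have hiter : ∀ N : ℕ, 0 < N → ∀ j : ℕ, j ≤ N →
      g (pc + j * (δ / N)) ≤ Real.exp (-(j * (δ / N))) + j * (K * (δ / N) ^ 2) := by
    intro N hN j
    have hN' : (0 : ℝ) < N := by exact_mod_cast hN
    induction j with
    | zero =>
      intro _
      simp only [Nat.cast_zero, zero_mul, add_zero, neg_zero, Real.exp_zero]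
      exact hg1 _
    | succ j ih =>
      intro hj
      have hjN : ((j + 1 : ℕ) : ℝ) ≤ N := by exact_mod_cast hj
      have hδN : 0 < δ / N := by positivity
      have h5 : ((j + 1 : ℕ) : ℝ) * (δ / N) ≤ δ := by
        calc ((j + 1 : ℕ) : ℝ) * (δ / N) ≤ N * (δ / N) :=
              mul_le_mul_of_nonneg_right hjN hδN.le
          _ = δ := by field_simp
      push_cast at h5 ⊢
      have h6 := hgs (pc + j * (δ / N)) (pc + (j + 1) * (δ / N)) (by
        have : 0 ≤ (j : ℝ) * (δ / N) := by positivity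
        linarith) (by nlinarith) (by linarith)
      have h7 : pc + (j + 1) * (δ / N) - (pc + j * (δ / N)) = δ / N := by ring
      rw [h7] at h6
      have h8 := ih (by omega)
      refine h6.trans ?_
      have h9 : Real.exp (-(δ / N)) * g (pc + j * (δ / N)) ≤
          Real.exp (-(δ / N)) * (Real.exp (-(j * (δ / N))) + j * (K * (δ / N) ^ 2)) :=
        mul_le_mul_of_nonneg_left h8 (Real.exp_pos _).le
      have h10 : Real.exp (-(δ / N)) ≤ 1 := by
        rw [Real.exp_le_one_iff]
        linarith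
      have h11 : Real.exp (-(δ / N)) * (j * (K * (δ / N) ^ 2)) ≤ 1 * (j * (K * (δ / N) ^ 2)) :=
        mul_le_mul_of_nonneg_right h10 (by positivity)
      have h12 : Real.exp (-((j + 1) * (δ / N))) =
          Real.exp (-(δ / N)) * Real.exp (-(j * (δ / N))) := by
        rw [← Real.exp_add]
        congr 1
        ring
      rw [h12]
      nlinarith
  have hfin : ∀ N : ℕ, 0 < N → g (pc + δ) ≤ Real.exp (-δ) + K * δ ^ 2 / N := by
    intro N hN
    have hN' : (0 : ℝ) < N := by exact_mod_cast hN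
    have h2 := hiter N hN N le_rfl
    have h3 : (N : ℝ) * (δ / N) = δ := by field_simp
    have h4 : (N : ℝ) * (K * (δ / N) ^ 2) = K * δ ^ 2 / N := by field_simp
    rw [h3, h4] at h2
    exact h2
  have hlim : Tendsto (fun N : ℕ => Real.exp (-δ) + K * δ ^ 2 / N) atTop
      (𝓝 (Real.exp (-δ) + 0)) :=
    tendsto_const_nhds.add (tendsto_const_div_atTop_nhds_zero_nat _)
  have h2 : g (pc + δ) ≤ Real.exp (-δ) + 0 := by
    apply ge_of_tendsto hlim
    filter_upwards [eventually_gt_atTop 0] with N hN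
    exact hfin N hN
  simp only [hg] at h2
  linarith

theorem theta_lower (hd : 1 ≤ d) {δ : ℝ} (hδ : 0 < δ) (h1 : sSup (GG d) + δ ≤ 1) :
    1 - Real.exp (-δ) ≤ theta d (sSup (GG d) + δ) := by
  set p := sSup (GG d) + δ with hp
  set B : ℕ → Set (Cfg d) := fun n => {U | ∃ y ∈ {y : V d | (n : ℝ) < ‖y‖}, Conn (op p U) univ 0 y}
    with hB
  have hBm : ∀ n, MeasurableSet (B n) := fun n => measurableSet_conn_to p univ _ 0
  have hanti : Antitone B := by
    intro m n hmn U hU
    obtain ⟨y, hy, hc⟩ := hU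
    refine ⟨y, ?_, hc⟩
    have h2 : (m : ℝ) ≤ n := by exact_mod_cast hmn
    exact lt_of_le_of_lt h2 hy
  have hlow : ∀ n, 1 - Real.exp (-δ) ≤ (P d).real (B n) := by
    intro n
    refine (AA_lower hd hδ h1 n).trans (measureReal_mono ?_ (measure_ne_top (P d) _))
    rintro U ⟨y, hy, hc⟩
    exact ⟨y, hy.2, hc.mono (subset_refl _) (subset_univ _)⟩
  have hlim : Tendsto (fun n => (P d).real (B n)) atTop (𝓝 ((P d).real (⋂ n, B n))) := by
    have := tendsto_measure_iInter_atTop (μ := P d) (s := B)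
      (fun n => (hBm n).nullMeasurableSet) hanti ⟨0, measure_ne_top (P d) _⟩
    exact (ENNReal.tendsto_toReal (measure_ne_top (P d) _)).comp this
  have h2 : 1 - Real.exp (-δ) ≤ (P d).real (⋂ n, B n) := ge_of_tendsto' hlim hlow
  refine h2.trans (measureReal_mono ?_ (measure_ne_top (P d) _))
  intro U hU
  rw [mem_iInter] at hU
  change (Cl (op p U) univ 0).Infinite
  intro hfin
  obtain ⟨n, hn⟩ : ∃ n : ℕ, ∀ x ∈ Cl (op p U) univ (0 : V d), ‖x‖ ≤ n := by
    obtain ⟨n, hn⟩ := exists_nat_ge (∑ x ∈ hfin.toFinset, ‖x‖)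
    refine ⟨n, fun x hx => ?_⟩
    have h3 : ‖x‖ ≤ ∑ x ∈ hfin.toFinset, ‖x‖ :=
      Finset.single_le_sum (f := fun x : V d => ‖x‖) (fun _ _ => norm_nonneg _)
        (hfin.mem_toFinset.2 hx)
    exact h3.trans hn
  obtain ⟨y, hy, hc⟩ := hU n
  exact absurd (hn y hc) (not_le.2 hy)

/-- the spheres have large mass at `pc` -/
theorem sphere_lower {p : ℝ} (hp1 : p ≤ 1)
    (hphi : ∀ S : Finset (V d), 0 ∈ S → 1 ≤ phi p S) (n : ℕ) :
    1 ≤ 2 * d * ∑ x ∈ (closedBall_finite (d := d) (n : ℝ)).toFinset.filter (fun x => ‖x‖ = n),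
      tau p x := by
  classical
  set S := (closedBall_finite (d := d) (n : ℝ)).toFinset with hS
  have hmemS : ∀ x, x ∈ S ↔ ‖x‖ ≤ n := by
    intro x
    rw [hS, Set.Finite.mem_toFinset]
    rfl
  have h0 : (0 : V d) ∈ S := by
    rw [hmemS, norm_zero]
    positivity
  have h1 := hphi S h0
  unfold phi at h1
  have h2 : ∑ e ∈ bd S, tauW p (↑S) 0 (inn S e) ≤
      2 * d * ∑ x ∈ S.filter (fun x => ‖x‖ = n), tau p x := by
    have hnorm : ∀ e ∈ bd S, inn S e ∈ S.filter (fun x => ‖x‖ = n) := by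
      intro e he
      obtain ⟨h3, h4, h5⟩ := bd_spec he
      rw [Finset.mem_filter]
      refine ⟨h3, ?_⟩
      rw [hmemS] at h3 h4
      rw [not_le] at h4
      have h6 := Adj.norm ⟨e, h5⟩
      -- integrality of the norm
      have hint : ∀ x : V d, ∃ k : ℕ, ‖x‖ = k := by
        intro x
        refine ⟨Finset.univ.sup fun i => (x i).natAbs, ?_⟩
        have h7 : ‖x‖ = ((‖x‖₊ : NNReal) : ℝ) := rfl
        rw [h7, Pi.nnnorm_def]
        have h8 : ∀ i, ‖x i‖₊ = ((x i).natAbs : NNReal) := by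
          intro i
          exact (NNReal.natCast_natAbs (x i)).symm
        simp only [h8]
        have h9 : (Finset.univ.sup fun i => ((x i).natAbs : NNReal)) =
            ((Finset.univ.sup fun i => (x i).natAbs : ℕ) : NNReal) := by
          rw [Finset.apply_sup_eq_sup_comp_of_linearOrder (fun k : ℕ => (k : NNReal))
            Nat.mono_cast (by simp)]
          rfl
        rw [h9]
        exact NNReal.coe_natCast _
      obtain ⟨k, hk⟩ := hint (inn S e)
      obtain ⟨l, hl⟩ := hint (out S e)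
      rw [hk] at h3 ⊢
      rw [hl] at h4
      have h7 : ‖out S e‖ ≤ ‖inn S e‖ + ‖out S e - inn S e‖ := by
        have h8 : out S e = inn S e + (out S e - inn S e) := by abel
        calc ‖out S e‖ = ‖inn S e + (out S e - inn S e)‖ := by rw [← h8]
          _ ≤ _ := norm_add_le _ _
      rw [hk, hl] at h7
      have h8 : (l : ℝ) ≤ k + 1 := by linarith
      have h9 : k ≤ n := by exact_mod_cast h3
      have h10 : n < l := by exact_mod_cast h4
      have h11 : l ≤ k + 1 := by exact_mod_cast h8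
      have : k = n := by omega
      rw [this]
    rw [← Finset.sum_fiberwise_of_maps_to hnorm, Finset.mul_sum]
    apply Finset.sum_le_sum
    intro x _
    have h3 : ∀ e ∈ (bd S).filter (fun e => inn S e = x), tauW p (↑S) 0 (inn S e) ≤ tau p x := by
      intro e he
      rw [Finset.mem_filter] at he
      rw [he.2]
      have := tauW_le p (↑S) 0 x
      rwa [sub_zero] at this
    refine (Finset.sum_le_card_nsmul _ _ _ h3).trans ?_
    rw [nsmul_eq_mul]
    apply mul_le_mul_of_nonneg_right _ (tauW_nonneg _ _ _ _)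
    have h4 : (bd S).filter (fun e => inn S e = x) ⊆
        (Finset.univ.image fun i : Fin d => ((x, i) : E d)) ∪
        (Finset.univ.image fun i : Fin d => ((x - Pi.single i 1, i) : E d)) := by
      rintro ⟨y, i⟩ he
      rw [Finset.mem_filter] at he
      rw [Finset.mem_union, Finset.mem_image, Finset.mem_image]
      have h5 := he.2
      unfold inn at h5
      split_ifs at h5 with h6
      · left
        exact ⟨i, Finset.mem_univ _, by rw [← h5]⟩
      · right
        refine ⟨i, Finset.mem_univ _, ?_⟩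
        rw [← h5]
        simp [tip]
    have h5 := (Finset.card_le_card h4).trans (Finset.card_union_le _ _)
    have h6 : (Finset.univ.image fun i : Fin d => ((x, i) : E d)).card ≤ d := by
      refine Finset.card_image_le.trans ?_
      rw [Finset.card_univ, Fintype.card_fin]
    have h7 : (Finset.univ.image fun i : Fin d => ((x - Pi.single i 1, i) : E d)).card ≤ d := by
      refine Finset.card_image_le.trans ?_
      rw [Finset.card_univ, Fintype.card_fin]
    have h8 : ((bd S).filter (fun e => inn S e = x)).card ≤ 2 * d := by omega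
    exact_mod_cast h8
  have h3 : 0 ≤ ∑ e ∈ bd S, tauW p (↑S) 0 (inn S e) :=
    Finset.sum_nonneg fun _ _ => tauW_nonneg _ _ _ _
  nlinarith

end Pool.Agent.helper28.FPS

namespace Pool.Agent.helper55.FP

variable {d : ℕ}

open Pool.Agent.helper28.FPS in
/-- sharpness -/
theorem sharpness (hd : 1 ≤ d) : ∃ pc : ℝ, 0 < pc ∧ pc ≤ 1 ∧
    (∀ p, 0 ≤ p → p < pc → ∃ C > 0, ∃ c > 0, ∀ x : V d, tau p x ≤ C * Real.exp (-c * ‖x‖)) ∧
    (∀ δ > 0, pc + δ ≤ 1 → δ / 2 ≤ theta d (pc + δ)) ∧
    (∀ K : ℝ, ∃ p, 0 ≤ p ∧ p < pc ∧ K ≤ ∑' x : V d, tau p x) := by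
  have hd' : (1 : ℝ) ≤ d := by exact_mod_cast hd
  have hpc1 : sSup (GG d) ≤ 1 := csSup_le ⟨0, zero_mem_GG⟩ fun _ h => h.2.1
  have hpc0 : 0 < sSup (GG d) := by
    have h1 : (1 / (4 * d) : ℝ) ∈ GG d := by
      refine ⟨by positivity, ?_, {0}, Finset.mem_singleton_self _, ?_⟩
      · rw [div_le_one (by positivity)]
        linarith
      · unfold phi
        have h2 : ∑ e ∈ bd ({0} : Finset (V d)), tauW (1 / (4 * d)) (↑({0} : Finset (V d))) 0
            (Pool.Agent.helper28.FPS.inn {0} e) ≤ 2 * d := by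
          refine (Finset.sum_le_card_nsmul _ _ 1 fun e _ => tauW_le_one _ _ _ _).trans ?_
          rw [nsmul_eq_mul, mul_one]
          have h4 : bd ({0} : Finset (V d)) ⊆
              (Finset.univ.image fun i : Fin d => ((0, i) : E d)) ∪
              (Finset.univ.image fun i : Fin d => ((0 - Pi.single i 1, i) : E d)) := by
            rintro ⟨y, i⟩ he
            rw [Finset.mem_union, Finset.mem_image, Finset.mem_image]
            rcases mem_bd.1 he with ⟨h5, -⟩ | ⟨-, h5⟩
            · left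
              rw [Finset.mem_singleton] at h5
              exact ⟨i, Finset.mem_univ _, by rw [← h5]⟩
            · right
              rw [Finset.mem_singleton] at h5
              refine ⟨i, Finset.mem_univ _, ?_⟩
              rw [← h5]
              simp [tip]
          have h5 := (Finset.card_le_card h4).trans (Finset.card_union_le _ _)
          have h6 : (Finset.univ.image fun i : Fin d => ((0, i) : E d)).card ≤ d := by
            refine Finset.card_image_le.trans ?_
            rw [Finset.card_univ, Fintype.card_fin]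
          have h7 : (Finset.univ.image fun i : Fin d => ((0 - Pi.single i 1, i) : E d)).card
              ≤ d := by
            refine Finset.card_image_le.trans ?_
            rw [Finset.card_univ, Fintype.card_fin]
          have h8 : (bd ({0} : Finset (V d))).card ≤ 2 * d := by omega
          exact_mod_cast h8
        have h3 : (1 / (4 * d) : ℝ) * (2 * d) = 1 / 2 := by
          field_simp
          norm_num
        calc (1 / (4 * d) : ℝ) * _ ≤ 1 / (4 * d) * (2 * d) :=
              mul_le_mul_of_nonneg_left h2 (by positivity)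
          _ = 1 / 2 := h3
          _ < 1 := by norm_num
    exact lt_of_lt_of_le (by positivity) (le_csSup GG_bdd h1)
  have hdecay : ∀ p, 0 ≤ p → p < sSup (GG d) →
      ∃ C > 0, ∃ c > 0, ∀ x : V d, tau p x ≤ C * Real.exp (-c * ‖x‖) := by
    intro p hp hpc
    obtain ⟨p', ⟨h1, h2, S, h0, h3⟩, h4⟩ := exists_lt_of_lt_csSup ⟨0, zero_mem_GG⟩ hpc
    exact exp_decay hp (h4.le.trans h2) S h0 (lt_of_le_of_lt (phi_mono hp h4.le S) h3)
  refine ⟨sSup (GG d), hpc0, hpc1, hdecay, ?_, ?_⟩
  · intro δ hδ h1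
    refine le_trans ?_ (theta_lower hd hδ h1)
    have h2 : δ ≤ 1 := by linarith
    have h3 : Real.exp (-δ) ≤ 1 - δ / 2 := by
      have h4 : Real.exp (-δ) ≤ 1 / (1 + δ) := by
        rw [Real.exp_neg, ← one_div]
        apply one_div_le_one_div_of_le (by linarith)
        have := Real.add_one_le_exp δ
        linarith
      refine h4.trans ?_
      rw [div_le_iff₀ (by linarith)]
      nlinarith
    linarith
  · intro K
    set pc := sSup (GG d) with hpc
    obtain ⟨N, hN⟩ := exists_nat_ge (2 * d * (|K| + 1))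
    set F := (closedBall_finite (d := d) (N : ℝ)).toFinset with hF
    have h1 : |K| + 1 ≤ ∑ x ∈ F, tau pc x := by
      have h2 : ∀ n ∈ Finset.range (N + 1), (1 : ℝ) ≤ 2 * d *
          ∑ x ∈ (closedBall_finite (d := d) (n : ℝ)).toFinset.filter (fun x => ‖x‖ = n),
            tau pc x :=
        fun n _ => sphere_lower hpc1 (fun S h0 => phi_pc hd h0) n
      have h3 := Finset.sum_le_sum h2
      rw [Finset.sum_const, Finset.card_range, nsmul_eq_mul, mul_one, ← Finset.mul_sum] at h3
      have h4 : ∑ n ∈ Finset.range (N + 1),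
          ∑ x ∈ (closedBall_finite (d := d) (n : ℝ)).toFinset.filter (fun x => ‖x‖ = n),
            tau pc x ≤ ∑ x ∈ F, tau pc x := by
        rw [← Finset.sum_biUnion]
        · apply Finset.sum_le_sum_of_subset_of_nonneg
          · intro x hx
            rw [Finset.mem_biUnion] at hx
            obtain ⟨n, hn, hx⟩ := hx
            rw [Finset.mem_filter] at hx
            rw [hF, Set.Finite.mem_toFinset]
            change ‖x‖ ≤ N
            rw [hx.2]
            have : n ≤ N := by
              rw [Finset.mem_range] at hn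
              omega
            exact_mod_cast this
          · intro x _ _
            exact tauW_nonneg _ _ _ _
        · intro m _ n _ hmn
          rw [Function.onFun, Finset.disjoint_left]
          intro x hx hx'
          rw [Finset.mem_filter] at hx hx'
          apply hmn
          have := hx.2.symm.trans hx'.2
          exact_mod_cast this
      push_cast at h3
      have h5 : (N : ℝ) + 1 ≤ 2 * d * ∑ x ∈ F, tau pc x :=
        h3.trans (mul_le_mul_of_nonneg_left h4 (by positivity))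
      have h6 : 2 * d * (|K| + 1) ≤ 2 * d * ∑ x ∈ F, tau pc x := by linarith
      exact le_of_mul_le_mul_left h6 (by positivity)
    have h2 : Tendsto (fun q => ∑ x ∈ F, tau q x) (𝓝[<] pc) (𝓝 (∑ x ∈ F, tau pc x)) :=
      tendsto_finsetSum _ fun x _ => tauW_left_cont pc univ 0 x
    have h3 : ∀ᶠ q in 𝓝[<] pc, |K| < ∑ x ∈ F, tau q x :=
      h2.eventually (lt_mem_nhds (by linarith))
    have h4 : ∀ᶠ q in 𝓝[<] pc, q ∈ Ioo 0 pc := Ioo_mem_nhdsLT hpc0
    obtain ⟨p, h5, h6⟩ := (h3.and h4).exists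
    refine ⟨p, h6.1.le, h6.2, ?_⟩
    obtain ⟨C, hC, c, hc, hdec⟩ := hdecay p h6.1.le h6.2
    have hs := summable_tau hc hdec
    exact (le_abs_self K).trans (h5.le.trans (hs.sum_le_tsum _ fun x _ => tauW_nonneg _ _ _ _))

end Pool.Agent.helper55.FP
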