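import Pool.Agent.helper55.FP.Defs
import Pool.Agent.helper55.FP.Conn
import Pool.Agent.helper55.FP.BK
import Pool.Agent.helper55.FP.Resample
import Pool.Agent.helper55.FP.Indep

/-!
# Sprinkling inequality (B8)

If `a` and `b` are connected at level `q` but not at level `p`, look at the `p`-cluster `S` of `a`
and at the last exit of a `q`-open path from `S`: the edge `e = (u,v)` used there has
`p < U e ≤ q`, the connection from `a` to `u` uses edges inside `S` and the one from `v` to `b`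
edges outside `S`.  Independence of `e` and the BK inequality give the bound.
-/

set_option autoImplicit false

open MeasureTheory Set Filter Topology
open scoped ENNReal

namespace Pool.Agent.helper55.FP

variable {d : ℕ}

/-- first entrance in `S`, starting from outside. -/
private theorem first_entrance {O : Set (E d)} {W S : Set (V d)} {b a : V d}
    (h : Conn O W b a) (hb : b ∉ S) (ha : a ∈ S) :
    ∃ v u, v ∉ S ∧ u ∈ S ∧ u ∈ W ∧ v ∈ W ∧ (∃ e ∈ O, Joins e v u) ∧ Conn O (W ∩ Sᶜ) b v := by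
  obtain ⟨hbW, hr⟩ := h
  have key : ∀ c, Relation.ReflTransGen (Step O W) b c →
      (∃ v u, v ∉ S ∧ u ∈ S ∧ u ∈ W ∧ v ∈ W ∧ (∃ e ∈ O, Joins e v u) ∧ Conn O (W ∩ Sᶜ) b v) ∨
      Conn O (W ∩ Sᶜ) b c := by
    intro c hc
    induction hc with
    | refl => exact Or.inr ⟨⟨hbW, hb⟩, Relation.ReflTransGen.refl⟩
    | @tail c e hc hce ih =>
      rcases ih with ih | ih
      · exact Or.inl ih
      · have hcW : c ∈ W ∩ Sᶜ := ih.right
        by_cases he : e ∈ S
        · exact Or.inl ⟨c, e, hcW.2, he, hce.2.1, hce.1, hce.2.2, ih⟩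
        · exact Or.inr (ih.snoc ⟨hcW, ⟨hce.2.1, he⟩, hce.2.2⟩)
  rcases key a hr with h1 | h1
  · exact h1
  · exact absurd ha h1.right.2

/-- a connection in `W` uses only edges of `W`. -/
private theorem conn_inner {O : Set (E d)} {W : Set (V d)} {a b : V d} (h : Conn O W a b) :
    Conn (O ∩ inner W) W a b := by
  refine ⟨h.1, ?_⟩
  refine Relation.ReflTransGen.mono ?_ _ _ h.2
  rintro x y ⟨hx, hy, e, he, hj⟩
  refine ⟨hx, hy, e, ⟨he, ?_⟩, hj⟩
  rcases hj with ⟨h1, h2⟩ | ⟨h1, h2⟩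
  · exact ⟨h1 ▸ hx, h2 ▸ hy⟩
  · exact ⟨h1 ▸ hy, h2 ▸ hx⟩

/-- a connection inside `W` stays in the cluster. -/
private theorem conn_cl {O : Set (E d)} {W : Set (V d)} {a b : V d} (h : Conn O W a b) :
    Conn O (Cl O W a) a b := by
  obtain ⟨ha, hr⟩ := h
  induction hr with
  | refl => exact ⟨Conn.refl ha, Relation.ReflTransGen.refl⟩
  | @tail c e hc hce ih =>
    exact ih.snoc ⟨ih.right, (Conn.snoc ih.right hce : Conn O W a e), hce.2.2⟩

/-- the event for a given edge `e` and endpoints `u, v`. -/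
private def evB (p q : ℝ) (W : Set (V d)) (a b : V d) (e : E d) (u v : V d) : Set (Cfg d) :=
  {U : Cfg d | ∃ K ∈ {K : Finset (E d) | K ∈ cw W a u ∧ e ∉ K},
    ∃ L ∈ {L : Finset (E d) | L ∈ cw W v b ∧ e ∉ L}, Disjoint K L ∧ (∀ e ∈ K, U e ≤ p) ∧
      (∀ e ∈ L, U e ≤ q)}

private theorem cover {p q : ℝ} (hpq : p ≤ q) (W : Set (V d)) (a b : V d) (U : Cfg d)
    (h1 : Conn (op q U) W a b) (h2 : ¬ Conn (op p U) W a b) :
    ∃ u v : V d, u ∈ W ∧ v ∈ W ∧ ∃ e, Joins e u v ∧ (p < U e ∧ U e ≤ q) ∧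
      U ∈ evB p q W a b e u v := by
  classical
  set S : Set (V d) := Cl (op p U) W a with hS
  have haS : a ∈ S := Conn.refl h1.left
  have hbS : b ∉ S := h2
  obtain ⟨v, u, hvS, huS, huW, hvW, ⟨e, heO, hej⟩, hbv⟩ := first_entrance h1.symm hbS haS
  refine ⟨u, v, huW, hvW, e, hej.symm, ⟨?_, heO⟩, ?_⟩
  · by_contra hcon
    exact hvS (Conn.snoc (huS : Conn (op p U) W a u) ⟨huW, hvW, e, not_lt.1 hcon, hej.symm⟩)
  · -- the witnesses
    obtain ⟨K, hK, hKO⟩ := conn_iff_wit.1 (conn_cl (huS : Conn (op p U) W a u))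
    obtain ⟨L, hL, hLO⟩ := conn_iff_wit.1 hbv.symm
    have hSW : S ⊆ W := fun x hx => (hx : Conn (op p U) W a x).right
    have he1 : ¬ (e.1 ∈ S ∧ tip e ∈ S) := by
      rcases hej with ⟨h3, h4⟩ | ⟨h3, h4⟩
      · exact fun h5 => hvS (h3 ▸ h5.1)
      · exact fun h5 => hvS (h4 ▸ h5.2)
    have he2 : ¬ (e.1 ∈ Sᶜ ∧ tip e ∈ Sᶜ) := by
      rcases hej with ⟨h3, h4⟩ | ⟨h3, h4⟩
      · exact fun h5 => h5.2 (h4 ▸ huS)
      · exact fun h5 => h5.1 (h3 ▸ huS)
    refine ⟨K.filter (fun e => e ∈ inner S), ⟨?_, ?_⟩, L.filter (fun e => e ∈ inner (W ∩ Sᶜ)),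
      ⟨?_, ?_⟩, ?_, ?_, ?_⟩
    · have h3 := conn_inner (hK : Conn (↑K) S a u)
      refine h3.mono ?_ hSW
      intro x hx
      rw [Finset.coe_filter]
      exact hx
    · intro h3
      exact he1 (Finset.mem_filter.1 h3).2
    · have h3 := conn_inner (hL : Conn (↑L) (W ∩ Sᶜ) v b)
      refine h3.mono ?_ inter_subset_left
      intro x hx
      rw [Finset.coe_filter]
      exact hx
    · intro h3
      have h4 := (Finset.mem_filter.1 h3).2
      exact he2 ⟨h4.1.2, h4.2.2⟩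
    · rw [Finset.disjoint_left]
      intro x hx hx'
      have h3 := (Finset.mem_filter.1 hx).2
      have h4 := (Finset.mem_filter.1 hx').2
      exact h4.1.2 h3.1
    · intro x hx
      exact hKO (Finset.mem_filter.1 hx).1
    · intro x hx
      exact hLO (Finset.mem_filter.1 hx).1

private theorem measurableSet_evB (p q : ℝ) (W : Set (V d)) (a b : V d) (e : E d) (u v : V d) :
    MeasurableSet (evB p q W a b e u v) := by
  have h : evB p q W a b e u v = ⋃ K : Finset (E d), ⋃ L : Finset (E d),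
      {U : Cfg d | (K ∈ cw W a u ∧ e ∉ K) ∧ (L ∈ cw W v b ∧ e ∉ L) ∧ Disjoint K L ∧
        (∀ e ∈ K, U e ≤ p) ∧ (∀ e ∈ L, U e ≤ q)} := by
    ext U
    simp only [evB, mem_setOf_eq, mem_iUnion]
    constructor
    · rintro ⟨K, hK, L, hL, h⟩
      exact ⟨K, L, hK, hL, h⟩
    · rintro ⟨K, L, hK, hL, h⟩
      exact ⟨K, hK, L, hL, h⟩
  rw [h]
  refine MeasurableSet.iUnion fun K => MeasurableSet.iUnion fun L => ?_
  have hm : ∀ (c : ℝ) (M : Finset (E d)), MeasurableSet {U : Cfg d | ∀ e ∈ M, U e ≤ c} := by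
    intro c M
    have : {U : Cfg d | ∀ e ∈ M, U e ≤ c} = ⋂ e ∈ M, {U : Cfg d | U e ≤ c} := by
      ext U
      simp
    rw [this]
    exact Finset.measurableSet_biInter _ fun e _ => measurableSet_le (measurable_pi_apply e)
      measurable_const
  by_cases h1 : (K ∈ cw W a u ∧ e ∉ K) ∧ (L ∈ cw W v b ∧ e ∉ L) ∧ Disjoint K L
  · have : {U : Cfg d | (K ∈ cw W a u ∧ e ∉ K) ∧ (L ∈ cw W v b ∧ e ∉ L) ∧ Disjoint K L ∧
        (∀ e ∈ K, U e ≤ p) ∧ (∀ e ∈ L, U e ≤ q)} =
        {U : Cfg d | ∀ e ∈ K, U e ≤ p} ∩ {U : Cfg d | ∀ e ∈ L, U e ≤ q} := by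
      ext U
      simp only [mem_setOf_eq, mem_inter_iff]
      tauto
    rw [this]
    exact (hm p K).inter (hm q L)
  · have : {U : Cfg d | (K ∈ cw W a u ∧ e ∉ K) ∧ (L ∈ cw W v b ∧ e ∉ L) ∧ Disjoint K L ∧
        (∀ e ∈ K, U e ≤ p) ∧ (∀ e ∈ L, U e ≤ q)} = ∅ := by
      ext U
      simp only [mem_setOf_eq, mem_empty_iff_false, iff_false]
      tauto
    rw [this]
    exact MeasurableSet.empty

private theorem dependsOn_evB (p q : ℝ) (W : Set (V d)) (a b : V d) (e : E d) (u v : V d) :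
    DependsOn (fun U => U ∈ evB p q W a b e u v) ({e}ᶜ : Set (E d)) := by
  have key : ∀ U U' : Cfg d, (∀ i ∈ ({e}ᶜ : Set (E d)), U i = U' i) →
      U ∈ evB p q W a b e u v → U' ∈ evB p q W a b e u v := by
    rintro U U' h ⟨K, hK, L, hL, hd, h1, h2⟩
    refine ⟨K, hK, L, hL, hd, ?_, ?_⟩
    · intro x hx
      rw [← h x (fun h3 => hK.2 (by rw [mem_singleton_iff] at h3; rw [← h3]; exact hx))]
      exact h1 x hx
    · intro x hx
      rw [← h x (fun h3 => hL.2 (by rw [mem_singleton_iff] at h3; rw [← h3]; exact hx))]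
      exact h2 x hx
  intro U U' h
  exact propext ⟨key U U' h, key U' U fun i hi => (h i hi).symm⟩

private theorem edge_bound {p q : ℝ} (hp : 0 ≤ p) (hpq : p ≤ q) (hq : q ≤ 1) (W : Set (V d))
    (a b : V d) (e : E d) (u v : V d) :
    (P d).real ({U : Cfg d | p < U e ∧ U e ≤ q} ∩ evB p q W a b e u v) ≤
      (q - p) * (tauW p W a u * tauW q W v b) := by
  have hm : MeasurableSet {U : Cfg d | p < U e ∧ U e ≤ q} :=
    (measurableSet_lt measurable_const (measurable_pi_apply e)).inter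
      (measurableSet_le (measurable_pi_apply e) measurable_const)
  have hdep : DependsOn (fun U : Cfg d => U ∈ {U : Cfg d | p < U e ∧ U e ≤ q}) {e} := by
    intro U U' h
    change (p < U e ∧ U e ≤ q) = (p < U' e ∧ U' e ≤ q)
    rw [h e rfl]
  rw [prob_inter hm (measurableSet_evB p q W a b e u v) hdep (dependsOn_evB p q W a b e u v)
    (Set.disjoint_compl_right_iff_subset.2 subset_rfl), prob_level e hp hpq hq]
  refine mul_le_mul_of_nonneg_left ?_ (sub_nonneg.2 hpq)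
  refine (bk p q _ _).trans ?_
  have h1 : (P d).real (Ev p {K : Finset (E d) | K ∈ cw W a u ∧ e ∉ K}) ≤ tauW p W a u := by
    refine measureReal_mono ?_
    rintro U ⟨K, hK, hU⟩
    exact conn_op_iff.2 ⟨K, hK.1, hU⟩
  have h2 : (P d).real (Ev q {L : Finset (E d) | L ∈ cw W v b ∧ e ∉ L}) ≤ tauW q W v b := by
    refine measureReal_mono ?_
    rintro U ⟨K, hK, hU⟩
    exact conn_op_iff.2 ⟨K, hK.1, hU⟩
  exact mul_le_mul h1 h2 measureReal_nonneg measureReal_nonneg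

/-- decomposition at the first sprinkled edge -/
theorem sprinkle {p q : ℝ} (hp : 0 ≤ p) (hpq : p ≤ q) (hq : q ≤ 1) (W : Set (V d)) (a b : V d) :
    P d {U : Cfg d | Conn (op q U) W a b ∧ ¬ Conn (op p U) W a b} ≤
      ENNReal.ofReal (q - p) * ∑' x : V d × V d,
        Set.indicator {x : V d × V d | x.1 ∈ W ∧ x.2 ∈ W ∧ Adj x.1 x.2}
          (fun x => ENNReal.ofReal (tauW p W a x.1 * tauW q W x.2 b)) x := by
  rw [← ENNReal.tsum_mul_left]
  let D : V d × V d → Set (Cfg d) := fun x =>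
    {U : Cfg d | x.1 ∈ W ∧ x.2 ∈ W ∧ ∃ e, Joins e x.1 x.2 ∧ (p < U e ∧ U e ≤ q) ∧
      U ∈ evB p q W a b e x.1 x.2}
  have hsub : {U : Cfg d | Conn (op q U) W a b ∧ ¬ Conn (op p U) W a b} ⊆ ⋃ x, D x := by
    rintro U ⟨h1, h2⟩
    obtain ⟨u, v, h⟩ := cover hpq W a b U h1 h2
    exact mem_iUnion.2 ⟨(u, v), h⟩
  refine (measure_mono hsub).trans ((measure_iUnion_le D).trans (ENNReal.tsum_le_tsum fun x => ?_))
  by_cases hx : x ∈ {x : V d × V d | x.1 ∈ W ∧ x.2 ∈ W ∧ Adj x.1 x.2}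
  · rw [indicator_of_mem hx]
    obtain ⟨e, he⟩ := hx.2.2
    have hD : D x ⊆ {U : Cfg d | p < U e ∧ U e ≤ q} ∩ evB p q W a b e x.1 x.2 := by
      rintro U ⟨_, _, e', he', h1, h2⟩
      obtain rfl := he.unique he'
      exact ⟨h1, h2⟩
    refine (measure_mono hD).trans ?_
    rw [← ENNReal.ofReal_mul (sub_nonneg.2 hpq), ← ofReal_measureReal (measure_ne_top _ _)]
    exact ENNReal.ofReal_le_ofReal (edge_bound hp hpq hq W a b e x.1 x.2)
  · have hD : D x = ∅ := by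
      ext U
      rw [mem_empty_iff_false, iff_false]
      rintro ⟨h1, h2, e, he, _⟩
      exact hx ⟨h1, h2, e, he⟩
    rw [hD, measure_empty]
    exact bot_le

end Pool.Agent.helper55.FP
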