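import Pool.Agent.helper55.FP.LDefs
import Pool.Agent.helper55.FP.Conn
import Pool.Agent.helper55.FP.Paths
import Pool.Agent.helper55.FP.Meas
import Pool.Agent.helper55.FP.Indep
import Pool.Agent.helper55.FP.BK
import Pool.Agent.helper55.FP.Symm
import Pool.Agent.helper55.FP.LeftCont
import Pool.Agent.helper55.FP.Sprinkle
import Pool.Agent.helper55.FP.Sharp
import Pool.Agent.helper55.FP.MeanField
import Pool.Agent.helper55.FP.Lace
import Pool.Agent.helper28.FPS.B

/-! Module Decay: polynomial decay of the two-point function, assembly of `HD`. -/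

set_option autoImplicit false

open MeasureTheory Set Filter Topology
open scoped ENNReal

namespace Pool.Agent.helper55.FP

namespace DecayAux

variable {d : ℕ}

theorem norm_int (x : V d) : ∃ n : ℕ, ‖x‖ = n := by
  classical
  refine ⟨Finset.univ.sup fun i => (x i).natAbs, ?_⟩
  apply le_antisymm
  · rw [pi_norm_le_iff_of_nonneg (by positivity)]
    intro i
    rw [Int.norm_eq_abs, ← Int.cast_abs]
    have h1 : (x i).natAbs ≤ Finset.univ.sup fun i => (x i).natAbs :=
      Finset.le_sup (f := fun i => (x i).natAbs) (Finset.mem_univ i)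
    have h2 : |x i| = ((x i).natAbs : ℤ) := Int.abs_eq_natAbs (x i)
    rw [h2]
    exact_mod_cast h1
  · have : ∀ i ∈ Finset.univ, ((x i).natAbs : ℝ) ≤ ‖x‖ := by
      intro i _
      have h1 := norm_le_pi_norm x i
      have h2 : |x i| = ((x i).natAbs : ℤ) := Int.abs_eq_natAbs (x i)
      rw [Int.norm_eq_abs, ← Int.cast_abs, h2, Int.cast_natCast] at h1
      exact h1
    by_cases hne : (Finset.univ : Finset (Fin d)).Nonempty
    · obtain ⟨i, hi, hsup⟩ := Finset.exists_mem_eq_sup Finset.univ hne (fun i => (x i).natAbs)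
      rw [hsup]
      exact this i hi
    · rw [Finset.not_nonempty_iff_eq_empty] at hne
      rw [hne]
      simp

/-- sphere around `x` -/
noncomputable def sph (x : V d) (j : ℕ) : Finset (V d) := by
  classical
  exact ((Pool.Agent.helper28.FPS.closedBall_finite (d := d) (‖x‖ + j)).toFinset).filter
    fun y => ‖x - y‖ = j

theorem mem_sph {x y : V d} {j : ℕ} : y ∈ sph x j ↔ ‖x - y‖ = j := by
  classical
  unfold sph
  rw [Finset.mem_filter, Set.Finite.mem_toFinset, mem_setOf_eq]
  constructor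
  · exact fun h => h.2
  · intro h
    refine ⟨?_, h⟩
    have : y = x - (x - y) := by abel
    calc ‖y‖ = ‖x - (x - y)‖ := by rw [← this]
      _ ≤ ‖x‖ + ‖x - y‖ := norm_sub_le _ _
      _ = _ := by rw [h]

/-- union bound over the vertex of the path at distance `j` of the end point -/
theorem tau_le_sphere (p : ℝ) (x : V d) (j : ℕ) (hj : (j : ℝ) ≤ ‖x‖) :
    tau p x ≤ ∑ y ∈ sph x j, tau p y * tau p (x - y) := by
  classical
  have hsub : {U : Cfg d | Conn (op p U) univ 0 x} ⊆
      ⋃ y ∈ sph x j, Ev p (dj (cw univ 0 y) (cw univ y x)) := by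
    intro U hU
    rw [mem_setOf_eq, conn_op_iff] at hU
    obtain ⟨K, hK, hKU⟩ := hU
    simp only [mem_iUnion]
    obtain ⟨R, hR⟩ := norm_int x
    rw [hR] at hj
    have hj' : j ≤ R := by exact_mod_cast hj
    rcases hj'.eq_or_lt with heq | hlt
    · refine ⟨0, ?_, ?_⟩
      · rw [mem_sph, sub_zero, hR, heq]
      · refine ⟨K, ⟨∅, ?_, K, hK, by simp, by simp, subset_rfl⟩, hKU⟩
        exact Conn.refl (mem_univ _)
    · let S : Set (V d) := {v | (j : ℝ) < ‖x - v‖}
      have h0 : (0 : V d) ∈ S := by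
        simp only [S, mem_setOf_eq, sub_zero, hR]
        exact_mod_cast hlt
      have hx : x ∉ S := by simp [S]
      obtain ⟨u, hu, v, hv, e, he, hdj⟩ := exit_dj hK h0 hx
      have hvn : ‖x - v‖ = j := by
        obtain ⟨n, hn⟩ := norm_int (x - v)
        obtain ⟨m, hm⟩ := norm_int (x - u)
        have h1 : n ≤ j := by
          have := hv.2
          simp only [S, mem_setOf_eq, not_lt, hn] at this
          exact_mod_cast this
        have h2 : j < m := by
          have := hu
          simp only [S, mem_setOf_eq, hm] at this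
          exact_mod_cast this
        have h3 : (m : ℝ) ≤ n + 1 := by
          rw [← hm, ← hn]
          have h4 : x - u = (x - v) + (v - u) := by abel
          rw [h4]
          refine (norm_add_le _ _).trans ?_
          have := Adj.norm (a := u) (b := v) ⟨e, he⟩
          linarith
        have h3' : m ≤ n + 1 := by exact_mod_cast h3
        rw [hn]
        congr 1
        omega
      refine ⟨v, mem_sph.2 hvn, K, ?_, hKU⟩
      obtain ⟨K1, hK1, K2, hK2, hd12, hs1, hs2⟩ := hdj
      obtain ⟨K3, hK3, K4, hK4, hd34, hs3, hs4⟩ := hK2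
      refine ⟨K1 ∪ K3, ?_, K4, ?_, ?_, ?_, hs4.trans hs2⟩
      · -- path to `u`, then the edge `e`
        have h1 : Conn (↑(K1 ∪ K3) : Set (E d)) univ 0 u :=
          Conn.mono (by intro a ha; simp only [Finset.coe_union, mem_union]; left; exact ha)
            (by intro a _; exact mem_univ _) hK1
        exact Conn.snoc h1 ⟨mem_univ _, mem_univ _, e, by
          simp only [Finset.coe_union, mem_union]; right; exact hK3, he⟩
      · exact hK4
      · rw [Finset.disjoint_union_left]
        exact ⟨Disjoint.mono_right hs4 hd12, hd34⟩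
      · exact Finset.union_subset hs1 (hs3.trans hs2)
  have h1 : (P d).real {U : Cfg d | Conn (op p U) univ 0 x} ≤
      ∑ y ∈ sph x j, (P d).real (Ev p (dj (cw univ 0 y) (cw univ y x))) :=
    (measureReal_mono hsub (measure_ne_top _ _)).trans (measureReal_biUnion_finset_le _ _)
  refine h1.trans (Finset.sum_le_sum fun y _ => ?_)
  refine (bk_dj p _ _).trans (le_of_eq ?_)
  have e1 : (P d).real (Ev p (cw univ 0 y)) = tau p y := by
    unfold tau tauW
    congr 1
    ext U
    rw [mem_setOf_eq, conn_op_iff]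
  have e2 : (P d).real (Ev p (cw univ y x)) = tau p (x - y) := by
    rw [← tauW_univ]
    unfold tauW
    congr 1
    ext U
    rw [mem_setOf_eq, conn_op_iff]
  rw [e1, e2]

theorem sum_pow_ge (m R : ℕ) :
    ((1 + (R : ℝ)) / 2) ^ (m + 1) ≤ ∑ j ∈ Finset.range (R + 1), (1 + (j : ℝ)) ^ m := by
  classical
  -- the indices `j` with `2 (1 + j) ≥ 1 + R`
  have h1 : ∑ j ∈ (Finset.range (R + 1)).filter (fun j => R ≤ 2 * j + 1), (1 + (j : ℝ)) ^ m ≤
      ∑ j ∈ Finset.range (R + 1), (1 + (j : ℝ)) ^ m :=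
    Finset.sum_le_sum_of_subset_of_nonneg (Finset.filter_subset _ _) (fun _ _ _ => by positivity)
  refine le_trans ?_ h1
  have h2 : ((Finset.range (R + 1)).filter (fun j => R ≤ 2 * j + 1)).card • ((1 + (R : ℝ)) / 2) ^ m ≤
      ∑ j ∈ (Finset.range (R + 1)).filter (fun j => R ≤ 2 * j + 1), (1 + (j : ℝ)) ^ m := by
    refine Finset.card_nsmul_le_sum _ _ _ fun j hj => ?_
    rw [Finset.mem_filter] at hj
    refine pow_le_pow_left₀ (by positivity) ?_ m
    have : (R : ℝ) ≤ 2 * j + 1 := by exact_mod_cast hj.2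
    linarith
  refine le_trans ?_ h2
  rw [nsmul_eq_mul, pow_succ, mul_comm]
  refine mul_le_mul_of_nonneg_right ?_ (by positivity)
  -- cardinality
  have h3 : Finset.Icc (R / 2) R ⊆ (Finset.range (R + 1)).filter (fun j => R ≤ 2 * j + 1) := by
    intro j hj
    rw [Finset.mem_Icc] at hj
    rw [Finset.mem_filter, Finset.mem_range]
    omega
  have h4 := Finset.card_le_card h3
  rw [Nat.card_Icc] at h4
  have h5 : R + 1 ≤ 2 * (R + 1 - R / 2) := by omega
  have h6 : R + 1 ≤ 2 * ((Finset.range (R + 1)).filter (fun j => R ≤ 2 * j + 1)).card := by omega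
  have h7 : ((R : ℝ) + 1) ≤ 2 * (((Finset.range (R + 1)).filter (fun j => R ≤ 2 * j + 1)).card : ℝ) := by
    exact_mod_cast h6
  linarith

theorem cpow_nonneg {f : V d → ℝ} (hf : ∀ x, 0 ≤ f x) (m : ℕ) (x : V d) : 0 ≤ cpow f m x := by
  induction m generalizing x with
  | zero => unfold cpow dirac0; split_ifs <;> norm_num
  | succ m ih => unfold cpow conv; exact tsum_nonneg fun y => mul_nonneg (hf y) (ih _)

theorem cpow_bdd {f : V d → ℝ} (hf : ∀ x, 0 ≤ f x) (hs : Summable f) (m : ℕ) :
    ∃ B, ∀ x, cpow f m x ≤ B := by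
  induction m with
  | zero =>
    refine ⟨1, fun x => ?_⟩
    unfold cpow dirac0; split_ifs <;> norm_num
  | succ m ih =>
    obtain ⟨B, hB⟩ := ih
    refine ⟨(∑' y, f y) * B, fun x => ?_⟩
    unfold cpow conv
    rw [← tsum_mul_right]
    have hB0 : 0 ≤ B := (cpow_nonneg hf m 0).trans (hB 0)
    refine Summable.tsum_le_tsum (fun y => mul_le_mul_of_nonneg_left (hB _) (hf y)) ?_ (hs.mul_right B)
    exact Summable.of_nonneg_of_le (fun y => mul_nonneg (hf y) (cpow_nonneg hf m _))
      (fun y => mul_le_mul_of_nonneg_left (hB _) (hf y)) (hs.mul_right B)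

theorem conv_summable {f : V d → ℝ} (hf : ∀ x, 0 ≤ f x) (hs : Summable f) (m : ℕ) (x : V d) :
    Summable fun y => f y * cpow f m (x - y) := by
  obtain ⟨B, hB⟩ := cpow_bdd hf hs m
  exact Summable.of_nonneg_of_le (fun y => mul_nonneg (hf y) (cpow_nonneg hf m _))
    (fun y => mul_le_mul_of_nonneg_left (hB _) (hf y)) (hs.mul_right B)

theorem tau_nonneg (p : ℝ) (x : V d) : 0 ≤ tau p x := measureReal_nonneg

/-- lower bound of the convolution powers -/
theorem cpow_ge (m : ℕ) : ∃ c > 0, ∀ (p : ℝ), Summable (fun x : V d => tau p x) → ∀ x : V d,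
    c * (1 + ‖x‖) ^ m * tau p x ≤ cpow (tau p) (m + 1) x := by
  classical
  induction m with
  | zero =>
    refine ⟨1, one_pos, fun p hs x => ?_⟩
    have h : cpow (tau p) 1 x = tau p x := by
      show conv (tau p) (cpow (tau p) 0) x = _
      unfold conv
      have h1 : ∀ y, tau p y * cpow (tau p) 0 (x - y) = if y = x then tau p x else 0 := by
        intro y
        show tau p y * dirac0 (x - y) = _
        unfold dirac0
        by_cases hy : y = x
        · simp [hy]
        · have : x - y ≠ 0 := fun h => hy (sub_eq_zero.1 h).symm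
          simp [hy, this]
      simp_rw [h1]
      rw [tsum_ite_eq]
    rw [h]; simp
  | succ m ih =>
    obtain ⟨c, hc, ih⟩ := ih
    refine ⟨c / 2 ^ (m + 1), by positivity, fun p hs x => ?_⟩
    obtain ⟨R, hR⟩ := norm_int x
    have hτ := fun y : V d => tau_nonneg p y
    have hsum := conv_summable hτ hs (m + 1) x
    -- disjoint spheres
    let F : Finset (V d) := (Finset.range (R + 1)).biUnion fun j => sph x j
    have hdis : ∀ i ∈ Finset.range (R + 1), ∀ j ∈ Finset.range (R + 1), i ≠ j →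
        Disjoint (sph x i) (sph x j) := by
      intro i _ j _ hij
      rw [Finset.disjoint_left]
      intro y hy hy'
      rw [mem_sph] at hy hy'
      exact hij (by exact_mod_cast hy.symm.trans hy')
    calc c / 2 ^ (m + 1) * (1 + ‖x‖) ^ (m + 1) * tau p x
        = c * (((1 + (R : ℝ)) / 2) ^ (m + 1)) * tau p x := by rw [hR, div_pow]; ring
      _ ≤ c * (∑ j ∈ Finset.range (R + 1), (1 + (j : ℝ)) ^ m) * tau p x := by
          refine mul_le_mul_of_nonneg_right (mul_le_mul_of_nonneg_left (sum_pow_ge m R) hc.le) (hτ x)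
      _ = ∑ j ∈ Finset.range (R + 1), c * (1 + (j : ℝ)) ^ m * tau p x := by
          rw [Finset.mul_sum, Finset.sum_mul]
      _ ≤ ∑ j ∈ Finset.range (R + 1), ∑ y ∈ sph x j, tau p y * cpow (tau p) (m + 1) (x - y) := by
          refine Finset.sum_le_sum fun j hj => ?_
          rw [Finset.mem_range] at hj
          have hj' : (j : ℝ) ≤ ‖x‖ := by rw [hR]; exact_mod_cast Nat.lt_succ_iff.1 hj
          calc c * (1 + (j : ℝ)) ^ m * tau p x
              ≤ c * (1 + (j : ℝ)) ^ m * ∑ y ∈ sph x j, tau p y * tau p (x - y) :=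
                mul_le_mul_of_nonneg_left (tau_le_sphere p x j hj') (by positivity)
            _ = ∑ y ∈ sph x j, tau p y * (c * (1 + (j : ℝ)) ^ m * tau p (x - y)) := by
                rw [Finset.mul_sum]
                exact Finset.sum_congr rfl fun y _ => by ring
            _ ≤ _ := by
                refine Finset.sum_le_sum fun y hy => mul_le_mul_of_nonneg_left ?_ (hτ y)
                rw [mem_sph] at hy
                have := ih p hs (x - y)
                rwa [hy] at this
      _ = ∑ y ∈ F, tau p y * cpow (tau p) (m + 1) (x - y) := by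
          rw [Finset.sum_biUnion hdis]
      _ ≤ ∑' y, tau p y * cpow (tau p) (m + 1) (x - y) :=
          hsum.sum_le_tsum _ fun y _ => mul_nonneg (hτ y) (cpow_nonneg hτ _ _)
      _ = cpow (tau p) (m + 1 + 1) x := rfl

end DecayAux

open DecayAux

/-- polynomial decay from bounded convolution powers (ordered points on the path, BK) -/
theorem decay_sub {d : ℕ} {pc : ℝ} (hs : SubExp d pc) (hpc : 0 < pc) (m : ℕ) (hm : 1 ≤ m) (C : ℝ)
    (hC : ∀ p, 0 ≤ p → p < pc → ∀ x : V d, cpow (tau p) m x ≤ C) :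
    ∃ C' > 0, ∀ p, 0 ≤ p → p < pc → ∀ x : V d, tau p x ≤ C' / (1 + ‖x‖) ^ (m - 1) := by
  obtain ⟨m, rfl⟩ : ∃ n, m = n + 1 := ⟨m - 1, by omega⟩
  obtain ⟨c, hc, h⟩ := cpow_ge (d := d) m
  refine ⟨(|C| + 1) / c, by positivity, fun p hp hp' x => ?_⟩
  obtain ⟨A, hA, c', hc', hexp⟩ := hs p hp hp'
  have hsum := Pool.Agent.helper28.FPS.summable_tau hc' hexp
  have h1 := h p hsum x
  have h2 := hC p hp hp' x
  have h3 : c * (1 + ‖x‖) ^ m * tau p x ≤ |C| + 1 := by
    have := le_abs_self C
    linarith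
  simp only [Nat.add_sub_cancel]
  have hpos : 0 < (1 + ‖x‖) ^ m := by positivity
  rw [div_div, le_div_iff₀ (by positivity)]
  linarith [mul_comm (tau p x) (c * (1 + ‖x‖) ^ m)]

theorem exists_HD (a : ℕ) : ∃ d : ℕ, 3 ≤ d ∧ ∃ pc : ℝ, HD d a pc := by
  obtain ⟨η, hη, d₁, htail⟩ := tail_bound
  obtain ⟨d₀, hlace⟩ := lace η hη
  obtain ⟨d₂, hd₂⟩ := exists_nat_gt (1 + η)
  let d := 3 + d₁ + d₀ + d₂ + 4 * (a + 1)
  have hd3 : 3 ≤ d := by simp only [d]; omega
  obtain ⟨pc, hpc0, hpc1, hsub, htheta, hchi⟩ := sharpness (d := d) (by omega)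
  have hsub' : SubExp d pc := hsub
  have hL : LaceOut d η pc := hlace d (by simp only [d]; omega) pc hpc0 hpc1 hsub'
  have hd₂' : (d₂ : ℝ) ≤ d := by
    have : d₂ ≤ d := by simp only [d]; omega
    exact_mod_cast this
  have hlt : pc < 1 := by
    have h1 := hL.pc_le
    have h2 : (0 : ℝ) < d := by linarith
    by_contra hcon
    push Not at hcon
    have h3 : 2 * (d : ℝ) * 1 ≤ 2 * d * pc := by
      exact mul_le_mul_of_nonneg_left hcon (by positivity)
    linarith
  refine ⟨d, hd3, pc, hpc0, hlt, ⟨1 / 2, by norm_num, fun δ hδ hδ1 => ?_⟩, ?_, ?_, ?_⟩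
  · have := htheta δ hδ hδ1
    linarith
  · exact htail d (by simp only [d]; omega) pc hpc0 hpc1 hsub' hchi hL
  · obtain ⟨C, hC⟩ := hL.poly (a + 1) (by simp only [d]; omega)
    obtain ⟨C', hC', hdec⟩ := decay_sub hsub' hpc0 (a + 1) (by omega) C hC
    refine ⟨C', hC', fun x => ?_⟩
    have hlim : Tendsto (fun q => tau q x) (𝓝[<] pc) (𝓝 (tau pc x)) := tauW_left_cont pc univ 0 x
    have hev : ∀ᶠ q in 𝓝[<] pc, tau q x ≤ C' / (1 + ‖x‖) ^ a := by
      have : Ioo 0 pc ∈ 𝓝[<] pc := Ioo_mem_nhdsLT hpc0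
      filter_upwards [this] with q hq
      exact hdec q hq.1.le hq.2 x
    exact le_of_tendsto hlim hev
  · obtain ⟨C, hC, hball⟩ := hL.ball
    refine ⟨C, hC, fun r hr F hF => ?_⟩
    have hlim : Tendsto (fun q => ∑ x ∈ F, tau q x) (𝓝[<] pc) (𝓝 (∑ x ∈ F, tau pc x)) :=
      tendsto_finsetSum _ fun x _ => tauW_left_cont pc univ 0 x
    have hev : ∀ᶠ q in 𝓝[<] pc, ∑ x ∈ F, tau q x ≤ C * (r : ℝ) ^ 2 := by
      have : Ioo 0 pc ∈ 𝓝[<] pc := Ioo_mem_nhdsLT hpc0
      filter_upwards [this] with q hq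
      exact hball q hq.1.le hq.2 r hr F hF
    exact le_of_tendsto hlim hev

end Pool.Agent.helper55.FP
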