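import Pool.Agent.helper55.FP.Defs

/-! FP project, part L: convolutions on `ℤ^d` and the output of the lace expansion. -/

set_option autoImplicit false

open MeasureTheory Set

namespace Pool.Agent.helper55.FP

variable {d : ℕ}

/-- convolution on `ℤ^d` -/
noncomputable def conv (f g : V d → ℝ) (x : V d) : ℝ := ∑' y, f y * g (x - y)

/-- unit mass at the origin -/
noncomputable def dirac0 : V d → ℝ := fun x => if x = 0 then 1 else 0

/-- convolution powers -/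
noncomputable def cpow (f : V d → ℝ) : ℕ → V d → ℝ
  | 0 => dirac0
  | (m + 1) => conv f (cpow f m)

/-- susceptibility -/
noncomputable def chi (d : ℕ) (p : ℝ) : ℝ := ∑' x : V d, tau p x

/-- exponential decay below `pc` -/
def SubExp (d : ℕ) (pc : ℝ) : Prop :=
  ∀ p, 0 ≤ p → p < pc → ∃ C > 0, ∃ c > 0, ∀ x : V d, tau p x ≤ C * Real.exp (-c * ‖x‖)

/-- what the lace expansion gives in dimension `d` -/
structure LaceOut (d : ℕ) (η : ℝ) (pc : ℝ) : Prop where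
  pc_le : 2 * d * pc ≤ 1 + η
  tri : ∀ p, 0 ≤ p → p < pc → ∀ z : V d, z ≠ 0 → cpow (tau p) 3 z ≤ η
  lower : ∀ p, 0 ≤ p → p < pc → 1 - η - 2 / chi d p ≤ 2 * d * p
  poly : ∀ m : ℕ, 4 * m ≤ d → ∃ C : ℝ, ∀ p, 0 ≤ p → p < pc → ∀ x : V d, cpow (tau p) m x ≤ C
  ball : ∃ C > 0, ∀ p, 0 ≤ p → p < pc → ∀ r : ℕ, 1 ≤ r → ∀ F : Finset (V d), (∀ x ∈ F, ‖x‖ ≤ r) →
    ∑ x ∈ F, tau p x ≤ C * (r : ℝ) ^ 2

end Pool.Agent.helper55.FP
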