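import Pool.Agent.helper55.FP.NDefs
import Pool.Agent.helper55.FP.LDefs

/-! FP project, part F: level costs. -/

set_option autoImplicit false

open MeasureTheory Set Filter Topology
open scoped ENNReal

namespace Pool.Agent.helper55.FP

variable {d : ℕ}

/-! ## FILE Costs : level costs -/

private theorem cst_zero' (pl : ℕ → ℝ) (M : ℕ → ℕ) (u : ℝ) :
    cst pl M 0 u = if u ≤ pl 0 then 0 else 1 := by
  simp only [cst]

private theorem cst_succ' (pl : ℕ → ℝ) (M : ℕ → ℕ) (k : ℕ) (u : ℝ) :
    cst pl M (k + 1) u = if u ≤ pl (k + 1) then 0 else if u ≤ pl k then 1 else M k * cst pl M k u := by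
  simp only [cst]

private theorem cst_of_le (pl : ℕ → ℝ) (M : ℕ → ℕ) (k : ℕ) {u : ℝ} (hu : u ≤ pl k) :
    cst pl M k u = 0 := by
  cases k with
  | zero => rw [cst_zero', if_pos hu]
  | succ k => rw [cst_succ', if_pos hu]

private theorem cst_pos_of_lt {pl : ℕ → ℝ} {M : ℕ → ℕ} (hM : ∀ k, 1 ≤ M k) (k : ℕ) {u : ℝ}
    (hu : pl k < u) : 1 ≤ cst pl M k u := by
  induction k with
  | zero => rw [cst_zero', if_neg (not_le.mpr hu)]
  | succ k ih =>
    rw [cst_succ', if_neg (not_le.mpr hu)]
    split_ifs with h1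
    · exact le_rfl
    · exact Nat.one_le_iff_ne_zero.mpr (Nat.mul_ne_zero (by have := hM k; omega)
        (by have := ih (not_le.mp h1); omega))

private theorem cst_mono {pl : ℕ → ℝ} {M : ℕ → ℕ} (hM : ∀ k, 1 ≤ M k) (k : ℕ) :
    Monotone (cst pl M k) := by
  induction k with
  | zero =>
    intro u v huv
    rw [cst_zero', cst_zero']
    split_ifs with h1 h2 h2
    · exact le_rfl
    · exact Nat.zero_le _
    · exact absurd (huv.trans h2) h1
    · exact le_rfl
  | succ k ih =>
    intro u v huv
    rw [cst_succ', cst_succ']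
    split_ifs with h1 h2 h3 h4 h5 h6 h7 h8
    · exact le_rfl
    · exact Nat.zero_le _
    · exact Nat.zero_le _
    · exact absurd (huv.trans h5) h1
    · exact le_rfl
    · exact Nat.one_le_iff_ne_zero.mpr (Nat.mul_ne_zero (by have := hM k; omega)
        (by have := cst_pos_of_lt (pl := pl) hM k (not_le.mp h6); omega))
    · exact absurd (huv.trans h7) h1
    · exact absurd (huv.trans h8) h4
    · exact Nat.mul_le_mul_left _ (ih huv)

/-- the profile of level `k` is of the form `cost g (pl k)` -/
theorem cst_profile {pl : ℕ → ℝ} (hpl : StrictAnti pl) {M : ℕ → ℕ} (hM : ∀ k, 1 ≤ M k) (k : ℕ) :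
    ∃ g : ℝ → ℕ, Monotone g ∧ (∀ u, 1 ≤ g u) ∧ (∀ j, j + 1 = k → ∀ u ≤ pl j, g u = 1) ∧
      ∀ u, cst pl M k u = cost g (pl k) u := by
  classical
  cases k with
  | zero =>
    refine ⟨fun _ => 1, monotone_const, fun _ => le_rfl, fun j hj => by omega, fun u => ?_⟩
    rw [cst_zero']
    simp only [cost]
  | succ k =>
    refine ⟨fun u => if u ≤ pl k then 1 else M k * cst pl M k u, ?_, ?_, ?_, ?_⟩
    · intro u v huv
      dsimp only
      split_ifs with h1 h2 h2
      · exact le_rfl
      · exact Nat.one_le_iff_ne_zero.mpr (Nat.mul_ne_zero (by have := hM k; omega)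
          (by have := cst_pos_of_lt (pl := pl) hM k (not_le.mp h2); omega))
      · exact absurd (huv.trans h2) h1
      · exact Nat.mul_le_mul_left _ (cst_mono hM k huv)
    · intro u
      dsimp only
      split_ifs with h1
      · exact le_rfl
      · exact Nat.one_le_iff_ne_zero.mpr (Nat.mul_ne_zero (by have := hM k; omega)
          (by have := cst_pos_of_lt (pl := pl) hM k (not_le.mp h1); omega))
    · intro j hj u hu
      obtain rfl : j = k := by omega
      exact if_pos hu
    · intro u
      rw [cst_succ']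
      simp only [cost]

theorem cst_succ_ge {pl : ℕ → ℝ} (hpl : StrictAnti pl) (M : ℕ → ℕ) (k : ℕ) (u : ℝ) :
    M k * cst pl M k u ≤ cst pl M (k + 1) u := by
  rw [cst_succ']
  split_ifs with h1 h2
  · rw [cst_of_le pl M k (h1.trans (hpl (Nat.lt_succ_self k)).le)]; simp
  · rw [cst_of_le pl M k h2]; simp
  · exact le_rfl

theorem cst_succ_le {pl : ℕ → ℝ} (hpl : StrictAnti pl) (M : ℕ → ℕ) (k : ℕ) (u : ℝ) :
    cst pl M (k + 1) u ≤ M k * cst pl M k u + 1 := by
  rw [cst_succ']
  split_ifs with h1 h2
  · exact Nat.zero_le _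
  · omega
  · omega

theorem cst_eq_zero {pl : ℕ → ℝ} (hpl : StrictAnti pl) {M : ℕ → ℕ} (hM : ∀ k, 1 ≤ M k) (k : ℕ)
    (u : ℝ) : cst pl M k u = 0 ↔ u ≤ pl k := by
  constructor
  · intro h
    by_contra hu
    have := cst_pos_of_lt (pl := pl) hM k (not_le.mp hu)
    omega
  · exact cst_of_le pl M k

private theorem wt_nonneg' (M : ℕ → ℕ) (k : ℕ) : 0 ≤ wt M k := by
  induction k with
  | zero => simp [wt]
  | succ k ih => simp only [wt]; positivity

private theorem wt_anti {M : ℕ → ℕ} (hM : ∀ k, 1 ≤ M k) : Antitone (wt M) := by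
  refine antitone_nat_of_succ_le fun k => ?_
  simp only [wt]
  exact div_le_self (wt_nonneg' M k) (by exact_mod_cast hM k)

theorem rcost_nonneg (pl : ℕ → ℝ) (M : ℕ → ℕ) (u : ℝ) : 0 ≤ rcost pl M u := by
  classical
  unfold rcost
  split_ifs with h
  · exact wt_nonneg' M _
  · exact le_rfl

private theorem wt_mul_cst {pl : ℕ → ℝ} (hpl : StrictAnti pl) {M : ℕ → ℕ} (hM : ∀ k, 1 ≤ M k)
    (k : ℕ) {u : ℝ} (hu : pl k < u) : wt M k * cst pl M k u = rcost pl M u := by
  classical
  have h : ∃ k, pl k < u := ⟨k, hu⟩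
  have hr : rcost pl M u = wt M (Nat.find h) := by
    unfold rcost
    rw [dif_pos h]
  rw [hr]
  have hk0 : Nat.find h ≤ k := Nat.find_min' h hu
  have hbase : cst pl M (Nat.find h) u = 1 := by
    have hs := Nat.find_spec h
    rcases Nat.eq_zero_or_pos (Nat.find h) with h0 | h0
    · rw [h0] at hs ⊢
      rw [cst_zero', if_neg (not_le.mpr hs)]
    · obtain ⟨j, hj⟩ : ∃ j, Nat.find h = j + 1 := ⟨Nat.find h - 1, by omega⟩
      have hmin : ¬ pl j < u := Nat.find_min h (by omega)
      rw [hj] at hs ⊢
      rw [cst_succ', if_neg (not_le.mpr hs), if_pos (not_lt.mp hmin)]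
  have key : ∀ m, wt M (Nat.find h + m) * cst pl M (Nat.find h + m) u = wt M (Nat.find h) := by
    intro m
    induction m with
    | zero => simp [hbase]
    | succ m ih =>
      have hlt : pl (Nat.find h + m) < u :=
        lt_of_le_of_lt (hpl.antitone (Nat.le_add_right _ _)) (Nat.find_spec h)
      have hlt' : pl (Nat.find h + m + 1) < u :=
        lt_of_le_of_lt (hpl.antitone (by omega : Nat.find h ≤ Nat.find h + m + 1)) (Nat.find_spec h)
      have e1 : Nat.find h + (m + 1) = Nat.find h + m + 1 := by omega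
      rw [e1, cst_succ', if_neg (not_le.mpr hlt'), if_neg (not_le.mpr hlt)]
      have hM0 : (M (Nat.find h + m) : ℝ) ≠ 0 := by
        have := hM (Nat.find h + m)
        positivity
      simp only [wt]
      push_cast
      rw [← ih]
      field_simp
  obtain ⟨m, rfl⟩ := Nat.exists_eq_add_of_le hk0
  exact key m

theorem rcost_ge {pl : ℕ → ℝ} (hpl : StrictAnti pl) {M : ℕ → ℕ} (hM : ∀ k, 1 ≤ M k) (k : ℕ)
    (u : ℝ) : wt M k * cst pl M k u ≤ rcost pl M u := by
  by_cases hu : pl k < u
  · exact (wt_mul_cst hpl hM k hu).le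
  · rw [cst_of_le pl M k (not_lt.mp hu)]
    simpa using rcost_nonneg pl M u

theorem rcost_le {pl : ℕ → ℝ} (hpl : StrictAnti pl) {M : ℕ → ℕ} (hM : ∀ k, 1 ≤ M k) (k : ℕ)
    (u : ℝ) : rcost pl M u ≤ wt M k * cst pl M k u + wt M (k + 1) := by
  classical
  by_cases hu : pl k < u
  · rw [wt_mul_cst hpl hM k hu]
    have := wt_nonneg' M (k + 1)
    linarith
  · rw [cst_of_le pl M k (not_lt.mp hu)]
    simp only [Nat.cast_zero, mul_zero, zero_add]
    unfold rcost
    split_ifs with h
    · apply wt_anti hM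
      by_contra hlt
      apply hu
      have h1 : Nat.find h ≤ k := by omega
      exact lt_of_le_of_lt (hpl.antitone h1) (Nat.find_spec h)
    · exact wt_nonneg' M (k + 1)

theorem measurable_rcost (pl : ℕ → ℝ) (M : ℕ → ℕ) : Measurable (rcost pl M) := by
  classical
  set f : ℝ → ℕ := fun u => if h : ∃ k, pl k < u then Nat.find h + 1 else 0 with hf
  set G : ℕ → ℝ := fun n => if n = 0 then 0 else wt M (n - 1) with hG
  have hfac : rcost pl M = G ∘ f := by
    funext u
    simp only [rcost, hf, hG, Function.comp]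
    split_ifs with h h' <;> simp_all
  rw [hfac]
  refine (measurable_from_nat).comp (measurable_to_countable' fun n => ?_)
  cases n with
  | zero =>
    have : f ⁻¹' {0} = ⋂ k, Iic (pl k) := by
      ext u
      simp only [hf, mem_preimage, mem_singleton_iff, mem_iInter, mem_Iic]
      constructor
      · intro h k
        by_contra hk
        have hex : ∃ k, pl k < u := ⟨k, not_le.mp hk⟩
        rw [dif_pos hex] at h
        omega
      · intro h
        rw [dif_neg]
        rintro ⟨k, hk⟩
        exact absurd (h k) (not_le.mpr hk)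
    rw [this]
    exact MeasurableSet.iInter fun k => measurableSet_Iic
  | succ n =>
    have : f ⁻¹' {n + 1} = Ioi (pl n) ∩ ⋂ j ∈ Finset.range n, Iic (pl j) := by
      ext u
      simp only [hf, mem_preimage, mem_singleton_iff, mem_inter_iff, mem_Ioi, mem_iInter,
        Finset.mem_range, mem_Iic]
      constructor
      · intro h
        by_cases hex : ∃ k, pl k < u
        · rw [dif_pos hex] at h
          have h' : Nat.find hex = n := by omega
          refine ⟨h' ▸ Nat.find_spec hex, fun j hj => ?_⟩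
          exact not_lt.mp (Nat.find_min hex (by omega))
        · rw [dif_neg hex] at h
          omega
      · rintro ⟨h1, h2⟩
        have hex : ∃ k, pl k < u := ⟨n, h1⟩
        rw [dif_pos hex]
        have : Nat.find hex = n := by
          rw [Nat.find_eq_iff]
          exact ⟨h1, fun j hj => not_lt.mpr (h2 j hj)⟩
        rw [this]
    rw [this]
    exact measurableSet_Ioi.inter (Finset.measurableSet_biInter _ fun j _ => measurableSet_Iic)

end Pool.Agent.helper55.FP
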