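import Pool.Agent.helper55.FP.Defs

/-!
# FP project, module Harris: the Harris - FKG inequality
-/

set_option autoImplicit false

open MeasureTheory Set Filter Topology
open scoped ENNReal

namespace Pool.Agent.helper55.FP

namespace Harris

section gen

variable {ι : Type} (ν : Measure ℝ) [IsProbabilityMeasure ν]

/-- the product measure -/
noncomputable abbrev μ (ι : Type) (ν : Measure ℝ) [IsProbabilityMeasure ν] : Measure (ι → ℝ) :=
  Measure.infinitePi (fun _ : ι => ν)

open Classical in
/-- take the coordinates in `S` from the first configuration, the others from the second -/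
noncomputable def mg (S : Set ι) (U U' : ι → ℝ) : ι → ℝ := fun i => if i ∈ S then U i else U' i

theorem measurable_mg (S : Set ι) :
    Measurable (fun p : (ι → ℝ) × (ι → ℝ) => mg S p.1 p.2) := by
  classical
  rw [measurable_pi_iff]
  intro i
  unfold mg
  by_cases h : i ∈ S
  · simp only [h, if_true]; exact (measurable_pi_apply i).comp measurable_fst
  · simp only [h, if_false]; exact (measurable_pi_apply i).comp measurable_snd

theorem mp_mg (S : Set ι) :
    MeasurePreserving (fun p : (ι → ℝ) × (ι → ℝ) => mg S p.1 p.2) ((μ ι ν).prod (μ ι ν))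
      (μ ι ν) := by
  classical
  refine ⟨measurable_mg S, ?_⟩
  refine Measure.eq_infinitePi _ fun s t ht => ?_
  rw [Measure.map_apply (measurable_mg S) (MeasurableSet.pi s.countable_toSet fun i _ => ht i)]
  have h1 : (fun p : (ι → ℝ) × (ι → ℝ) => mg S p.1 p.2) ⁻¹' (Set.pi s t) =
      (Set.pi (s.filter (fun i => i ∈ S)) t) ×ˢ (Set.pi (s.filter (fun i => ¬ i ∈ S)) t) := by
    ext ⟨U, U'⟩
    simp only [mem_preimage, Set.mem_pi, mem_prod, Finset.mem_coe, Finset.mem_filter, mg]
    constructor
    · intro h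
      refine ⟨fun i hi => ?_, fun i hi => ?_⟩
      · have := h i hi.1; rwa [if_pos hi.2] at this
      · have := h i hi.1; rwa [if_neg hi.2] at this
    · rintro ⟨h1, h2⟩ i hi
      by_cases hS : i ∈ S
      · rw [if_pos hS]; exact h1 i ⟨hi, hS⟩
      · rw [if_neg hS]; exact h2 i ⟨hi, hS⟩
  rw [h1, Measure.prod_prod, Measure.infinitePi_pi _ (fun i _ => ht i),
    Measure.infinitePi_pi _ (fun i _ => ht i)]
  exact Finset.prod_filter_mul_prod_filter_not s (fun i => i ∈ S) _

open Classical in
theorem mp_update (e : ι) :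
    MeasurePreserving (fun p : ℝ × (ι → ℝ) => Function.update p.2 e p.1) (ν.prod (μ ι ν))
      (μ ι ν) := by
  have hm : Measurable (fun p : ℝ × (ι → ℝ) => Function.update p.2 e p.1) := by
    rw [measurable_pi_iff]
    intro i
    by_cases h : i = e
    · subst h
      simp only [Function.update_self]; exact measurable_fst
    · simp only [Function.update_of_ne h]
      exact (measurable_pi_apply i).comp measurable_snd
  refine ⟨hm, ?_⟩
  refine Measure.eq_infinitePi _ fun s t ht => ?_
  rw [Measure.map_apply hm (MeasurableSet.pi s.countable_toSet fun i _ => ht i)]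
  by_cases he : e ∈ s
  · have h1 : (fun p : ℝ × (ι → ℝ) => Function.update p.2 e p.1) ⁻¹' (Set.pi s t) =
        (t e) ×ˢ (Set.pi (s.erase e) t) := by
      ext ⟨a, U⟩
      simp only [mem_preimage, Set.mem_pi, mem_prod, Finset.mem_coe, Finset.mem_erase]
      constructor
      · intro h
        refine ⟨?_, fun i hi => ?_⟩
        · have := h e he; rwa [Function.update_self] at this
        · have := h i hi.2; rwa [Function.update_of_ne hi.1] at this
      · rintro ⟨h1, h2⟩ i hi
        by_cases hie : i = e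
        · subst hie; rw [Function.update_self]; exact h1
        · rw [Function.update_of_ne hie]; exact h2 i ⟨hie, hi⟩
    rw [h1, Measure.prod_prod, Measure.infinitePi_pi _ (fun i _ => ht i),
      Finset.mul_prod_erase s (fun i => ν (t i)) he]
  · have h1 : (fun p : ℝ × (ι → ℝ) => Function.update p.2 e p.1) ⁻¹' (Set.pi s t) =
        univ ×ˢ (Set.pi s t) := by
      ext ⟨a, U⟩
      simp only [mem_preimage, Set.mem_pi, mem_prod, Finset.mem_coe, mem_univ, true_and]
      constructor
      · intro h i hi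
        have := h i hi
        rwa [Function.update_of_ne (by rintro rfl; exact he hi)] at this
      · intro h i hi
        rw [Function.update_of_ne (by rintro rfl; exact he hi)]
        exact h i hi
    rw [h1, Measure.prod_prod, Measure.infinitePi_pi _ (fun i _ => ht i), measure_univ, one_mul]

theorem int_of_bdd {Ω : Type*} [MeasurableSpace Ω] {m : Measure Ω} [IsFiniteMeasure m]
    {f : Ω → ℝ} (hf : Measurable f) {C : ℝ} (h : ∀ x, |f x| ≤ C) : Integrable f m :=
  Integrable.of_bound hf.aestronglyMeasurable C (Eventually.of_forall fun x => by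
    rw [Real.norm_eq_abs]; exact h x)

theorem int_mul {Ω : Type*} [MeasurableSpace Ω] {m : Measure Ω} [IsFiniteMeasure m]
    {f g : Ω → ℝ} (hf : Measurable f) (hg : Measurable g) {C D : ℝ} (h : ∀ x, |f x| ≤ C)
    (h' : ∀ x, |g x| ≤ D) : Integrable (fun x => f x * g x) m :=
  int_of_bdd (hf.mul hg) (C := C * D) fun x => by
    rw [abs_mul]
    exact mul_le_mul (h x) (h' x) (abs_nonneg _) ((abs_nonneg _).trans (h x))

theorem integral_mp {α β : Type*} [MeasurableSpace α] [MeasurableSpace β] {ma : Measure α}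
    {mb : Measure β} {T : α → β} (hT : MeasurePreserving T ma mb) {h : β → ℝ}
    (hh : Measurable h) : ∫ b, h b ∂mb = ∫ a, h (T a) ∂ma := by
  rw [← hT.map_eq, integral_map hT.measurable.aemeasurable hh.aestronglyMeasurable]

/-- Chebyshev -/
theorem cheb {Ω : Type*} [MeasurableSpace Ω] (m : Measure Ω) [IsProbabilityMeasure m]
    {f g : Ω → ℝ} (hf : Measurable f) (hg : Measurable g) {C : ℝ} (h : ∀ x, |f x| ≤ C)
    (h' : ∀ x, |g x| ≤ C) (hm : ∀ x y, 0 ≤ (f x - f y) * (g x - g y)) :
    (∫ x, f x ∂m) * (∫ x, g x ∂m) ≤ ∫ x, f x * g x ∂m := by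
  have i1 : Integrable (fun x => f x * g x) m := int_mul hf hg h h'
  have i2 : Integrable f m := int_of_bdd hf h
  have i3 : Integrable g m := int_of_bdd hg h'
  have h1 : 0 ≤ ∫ p : Ω × Ω, (f p.1 - f p.2) * (g p.1 - g p.2) ∂(m.prod m) :=
    integral_nonneg fun p => hm p.1 p.2
  have e : ∀ p : Ω × Ω, (f p.1 - f p.2) * (g p.1 - g p.2) =
      ((f p.1 * g p.1) * 1 + 1 * (f p.2 * g p.2)) - (f p.1 * g p.2 + g p.1 * f p.2) := fun p => by
    ring
  simp_rw [e] at h1
  have j1 : Integrable (fun p : Ω × Ω => (f p.1 * g p.1) * (1 : ℝ)) (m.prod m) :=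
    i1.mul_prod (integrable_const 1)
  have j2 : Integrable (fun p : Ω × Ω => (1 : ℝ) * (f p.2 * g p.2)) (m.prod m) :=
    (integrable_const (1 : ℝ)).mul_prod i1
  have j3 : Integrable (fun p : Ω × Ω => f p.1 * g p.2) (m.prod m) := i2.mul_prod i3
  have j4 : Integrable (fun p : Ω × Ω => g p.1 * f p.2) (m.prod m) := i3.mul_prod i2
  have j12 : Integrable (fun p : Ω × Ω => (f p.1 * g p.1) * (1 : ℝ) + (1 : ℝ) * (f p.2 * g p.2))
    (m.prod m) := j1.add j2
  have j34 : Integrable (fun p : Ω × Ω => f p.1 * g p.2 + g p.1 * f p.2) (m.prod m) := j3.add j4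
  rw [integral_sub j12 j34, integral_add j1 j2, integral_add j3 j4,
    integral_prod_mul (fun x => f x * g x) (fun _ => (1 : ℝ)),
    integral_prod_mul (fun _ => (1 : ℝ)) (fun x => f x * g x), integral_prod_mul f g,
    integral_prod_mul g f] at h1
  simp only [integral_const, probReal_univ, one_smul, mul_one, one_mul] at h1
  linarith [mul_comm (∫ x, f x ∂m) (∫ x, g x ∂m)]

/-- both functions are monotone or both are antitone -/
def Co (f g : (ι → ℝ) → ℝ) : Prop := (Monotone f ∧ Monotone g) ∨ (Antitone f ∧ Antitone g)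

open Classical in
theorem Co.sec {f g : (ι → ℝ) → ℝ} (h : Co f g) (e : ι) (a : ℝ) :
    Co (fun U => f (Function.update U e a)) (fun U => g (Function.update U e a)) := by
  have hm : Monotone (fun U : ι → ℝ => Function.update U e a) := by
    intro U U' hU i
    by_cases hi : i = e
    · subst hi; simp
    · simp [Function.update_of_ne hi]; exact hU i
  rcases h with ⟨h1, h2⟩ | ⟨h1, h2⟩
  · exact Or.inl ⟨h1.comp hm, h2.comp hm⟩
  · exact Or.inr ⟨h1.comp_monotone hm, h2.comp_monotone hm⟩

open Classical in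
theorem measurable_update' {f : (ι → ℝ) → ℝ} (hf : Measurable f) (e : ι) :
    Measurable (fun p : ℝ × (ι → ℝ) => f (Function.update p.2 e p.1)) :=
  hf.comp (mp_update (ι := ι) (Measure.dirac 0) e).measurable

open Classical in
theorem measurable_sec {f : (ι → ℝ) → ℝ} (hf : Measurable f) (e : ι) (a : ℝ) :
    Measurable (fun U : ι → ℝ => f (Function.update U e a)) :=
  (measurable_update' hf e).comp (measurable_const.prodMk measurable_id)

/-- finitely many coordinates -/
theorem fin_step (S : Finset ι) : ∀ (f g : (ι → ℝ) → ℝ) (C : ℝ), Measurable f → Measurable g →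
    (∀ U, |f U| ≤ C) → (∀ U, |g U| ≤ C) → Co f g →
    (∫ U, f U ∂(μ ι ν)) * (∫ U, g U ∂(μ ι ν)) ≤
      ∫ p : (ι → ℝ) × (ι → ℝ), f p.1 * g (mg S p.1 p.2) ∂((μ ι ν).prod (μ ι ν)) := by
  classical
  induction S using Finset.induction_on with
  | empty =>
    intro f g C hf hg hfC hgC hco
    have e : ∀ p : (ι → ℝ) × (ι → ℝ), f p.1 * g (mg (↑(∅ : Finset ι)) p.1 p.2) =
        f p.1 * g p.2 := by
      intro p
      congr 2
      funext i
      simp [mg]
    simp_rw [e]
    rw [integral_prod_mul f g]
  | insert e S he ih =>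
    intro f g C hf hg hfC hgC hco
    -- resample the coordinate `e` of the first configuration
    have hmpf := mp_update (ι := ι) ν e
    have hT : MeasurePreserving (fun p : ℝ × ((ι → ℝ) × (ι → ℝ)) =>
        ((Function.update p.2.1 e p.1, p.2.2) : (ι → ℝ) × (ι → ℝ)))
        (ν.prod ((μ ι ν).prod (μ ι ν))) ((μ ι ν).prod (μ ι ν)) := by
      have h1 := (hmpf.prod (MeasurePreserving.id (μ ι ν))).comp
        (measurePreserving_prodAssoc ν (μ ι ν) (μ ι ν)).symm
      exact h1
    have hmg : Measurable (fun p : (ι → ℝ) × (ι → ℝ) =>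
        f p.1 * g (mg (↑(insert e S)) p.1 p.2)) :=
      (hf.comp measurable_fst).mul (hg.comp (measurable_mg _))
    have e1 : ∫ p : (ι → ℝ) × (ι → ℝ), f p.1 * g (mg (↑(insert e S)) p.1 p.2)
        ∂((μ ι ν).prod (μ ι ν)) =
        ∫ p : ℝ × ((ι → ℝ) × (ι → ℝ)), f (Function.update p.2.1 e p.1) *
          g (Function.update (mg S p.2.1 p.2.2) e p.1) ∂(ν.prod ((μ ι ν).prod (μ ι ν))) := by
      rw [integral_mp hT hmg]
      refine integral_congr_ae (Eventually.of_forall fun p => ?_)
      simp only
      congr 2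
      funext i
      by_cases hi : i = e
      · subst hi; simp [mg]
      · rw [Function.update_of_ne hi]
        simp only [mg, Finset.coe_insert, mem_insert_iff, hi, false_or, Function.update_of_ne hi]
        split_ifs <;> rfl
    have hint : Integrable (fun p : ℝ × ((ι → ℝ) × (ι → ℝ)) => f (Function.update p.2.1 e p.1) *
          g (Function.update (mg S p.2.1 p.2.2) e p.1)) (ν.prod ((μ ι ν).prod (μ ι ν))) := by
      refine int_mul ?_ ?_ (fun p => hfC _) (fun p => hgC _)
      · exact (measurable_update' hf e).comp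
          (measurable_fst.prodMk (measurable_fst.comp measurable_snd))
      · exact (measurable_update' hg e).comp
          (measurable_fst.prodMk ((measurable_mg _).comp measurable_snd))
    rw [e1, integral_prod _ hint]
    -- one-dimensional functions
    set Fa : ℝ → ℝ := fun a => ∫ U, f (Function.update U e a) ∂(μ ι ν) with hFa
    set Ga : ℝ → ℝ := fun a => ∫ U, g (Function.update U e a) ∂(μ ι ν) with hGa
    have hstep : ∀ a : ℝ, Fa a * Ga a ≤
        ∫ p : (ι → ℝ) × (ι → ℝ), f (Function.update p.1 e a) *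
          g (Function.update (mg S p.1 p.2) e a) ∂((μ ι ν).prod (μ ι ν)) := fun a =>
      ih (fun U => f (Function.update U e a)) (fun U => g (Function.update U e a)) C
        (measurable_sec hf e a) (measurable_sec hg e a) (fun U => hfC _) (fun U => hgC _)
        (hco.sec e a)
    have hFm : Measurable Fa := by
      have := (measurable_update' hf e).stronglyMeasurable.integral_prod_right' (ν := μ ι ν)
      exact this.measurable
    have hGm : Measurable Ga := by
      have := (measurable_update' hg e).stronglyMeasurable.integral_prod_right' (ν := μ ι ν)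
      exact this.measurable
    have hbd : ∀ (f : (ι → ℝ) → ℝ), (∀ U, |f U| ≤ C) → ∀ a,
        |∫ U, f (Function.update U e a) ∂(μ ι ν)| ≤ C := by
      intro f hf a
      have := norm_integral_le_of_norm_le_const (μ := μ ι ν) (C := C)
        (f := fun U => f (Function.update U e a)) (Eventually.of_forall fun U => by
          rw [Real.norm_eq_abs]; exact hf _)
      rwa [probReal_univ, mul_one, Real.norm_eq_abs] at this
    have hFi : ∫ a, Fa a ∂ν = ∫ U, f U ∂(μ ι ν) := by
      rw [integral_mp hmpf hf,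
        integral_prod _ (int_of_bdd (measurable_update' hf e) fun p => hfC _)]
    have hGi : ∫ a, Ga a ∂ν = ∫ U, g U ∂(μ ι ν) := by
      rw [integral_mp hmpf hg,
        integral_prod _ (int_of_bdd (measurable_update' hg e) fun p => hgC _)]
    have hiF : ∀ a, Integrable (fun U => f (Function.update U e a)) (μ ι ν) := fun a =>
      int_of_bdd (measurable_sec hf e a) fun U => hfC _
    have hiG : ∀ a, Integrable (fun U => g (Function.update U e a)) (μ ι ν) := fun a =>
      int_of_bdd (measurable_sec hg e a) fun U => hgC _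
    have hupd : ∀ (a b : ℝ), a ≤ b → ∀ U : ι → ℝ, Function.update U e a ≤ Function.update U e b := by
      intro a b hab U i
      by_cases hi : i = e
      · subst hi; simpa using hab
      · simp [Function.update_of_ne hi]
    have hcheb : (∫ a, Fa a ∂ν) * (∫ a, Ga a ∂ν) ≤ ∫ a, Fa a * Ga a ∂ν := by
      refine cheb ν hFm hGm (hbd f hfC) (hbd g hgC) fun a b => ?_
      rcases hco with ⟨h1, h2⟩ | ⟨h1, h2⟩
      · have hF : Monotone Fa := fun a b hab =>
          integral_mono (hiF a) (hiF b) fun U => h1 (hupd a b hab U)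
        have hG : Monotone Ga := fun a b hab =>
          integral_mono (hiG a) (hiG b) fun U => h2 (hupd a b hab U)
        rcases le_total a b with hab | hab
        · exact mul_nonneg_of_nonpos_of_nonpos (sub_nonpos.2 (hF hab)) (sub_nonpos.2 (hG hab))
        · exact mul_nonneg (sub_nonneg.2 (hF hab)) (sub_nonneg.2 (hG hab))
      · have hF : Antitone Fa := fun a b hab =>
          integral_mono (hiF b) (hiF a) fun U => h1 (hupd a b hab U)
        have hG : Antitone Ga := fun a b hab =>
          integral_mono (hiG b) (hiG a) fun U => h2 (hupd a b hab U)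
        rcases le_total a b with hab | hab
        · exact mul_nonneg (sub_nonneg.2 (hF hab)) (sub_nonneg.2 (hG hab))
        · exact mul_nonneg_of_nonpos_of_nonpos (sub_nonpos.2 (hF hab)) (sub_nonpos.2 (hG hab))
    rw [← hFi, ← hGi]
    refine hcheb.trans ?_
    refine integral_mono (int_mul hFm hGm (hbd f hfC) (hbd g hgC)) hint.integral_prod_left hstep

/-- **Harris** for countable products -/
theorem main [Countable ι] {f g : (ι → ℝ) → ℝ} (hf : Measurable f) (hg : Measurable g) (C : ℝ)
    (hfC : ∀ U, |f U| ≤ C) (hgC : ∀ U, |g U| ≤ C) (hco : Co f g) :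
    (∫ U, f U ∂(μ ι ν)) * (∫ U, g U ∂(μ ι ν)) ≤ ∫ U, f U * g U ∂(μ ι ν) := by
  classical
  have hC : 0 ≤ C := (abs_nonneg _).trans (hfC 0)
  refine le_of_forall_pos_le_add fun ε hε => ?_
  -- continuous approximation
  obtain ⟨g', hg', hg'i⟩ := (int_of_bdd (m := μ ι ν) hg hgC).exists_boundedContinuous_integral_sub_le
    (ε := ε / (2 * (C + 1))) (by positivity)
  have hg'm : Measurable (fun U => g' U) := g'.continuous.measurable
  have hg'b : ∀ U, |g' U| ≤ ‖g'‖ := fun U => by
    rw [← Real.norm_eq_abs]; exact g'.norm_coe_le_norm U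
  have hdb : ∀ U, |g U - g' U| ≤ C + ‖g'‖ := fun U =>
    (abs_sub _ _).trans (add_le_add (hgC U) (hg'b U))
  have hdi : Integrable (fun U => |g U - g' U|) (μ ι ν) :=
    (int_of_bdd (hg.sub hg'm) hdb).abs
  have hd : ∫ U, |g U - g' U| ∂(μ ι ν) ≤ ε / (2 * (C + 1)) := by
    simpa [Real.norm_eq_abs] using hg'
  set m2 := (μ ι ν).prod (μ ι ν) with hm2
  -- the middle term tends to zero
  have hlim : Tendsto (fun S : Finset ι => ∫ p : (ι → ℝ) × (ι → ℝ),
      f p.1 * (g' (mg S p.1 p.2) - g' p.1) ∂m2) atTop (𝓝 0) := by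
    have h0 : (0 : ℝ) = ∫ p : (ι → ℝ) × (ι → ℝ), (0 : ℝ) ∂m2 := by simp
    rw [h0]
    refine tendsto_integral_filter_of_dominated_convergence (fun _ => C * (‖g'‖ + ‖g'‖)) ?_ ?_
      (integrable_const _) ?_
    · refine Eventually.of_forall fun S => ?_
      exact ((hf.comp measurable_fst).mul ((hg'm.comp (measurable_mg _)).sub
        (hg'm.comp measurable_fst))).aestronglyMeasurable
    · refine Eventually.of_forall fun S => Eventually.of_forall fun p => ?_
      rw [Real.norm_eq_abs, abs_mul]
      exact mul_le_mul (hfC _) ((abs_sub _ _).trans (add_le_add (hg'b _) (hg'b _)))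
        (abs_nonneg _) hC
    · refine Eventually.of_forall fun p => ?_
      have h1 : Tendsto (fun S : Finset ι => mg S p.1 p.2) atTop (𝓝 p.1) := by
        rw [tendsto_pi_nhds]
        intro i
        refine tendsto_const_nhds.congr' ?_
        filter_upwards [eventually_ge_atTop ({i} : Finset ι)] with S hS
        have : i ∈ S := hS (Finset.mem_singleton_self i)
        simp [mg, this]
      have h2 : Tendsto (fun S : Finset ι => g' (mg S p.1 p.2)) atTop (𝓝 (g' p.1)) :=
        (g'.continuous.tendsto _).comp h1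
      have h3 : Tendsto (fun S : Finset ι => f p.1 * (g' (mg S p.1 p.2) - g' p.1)) atTop
          (𝓝 (f p.1 * (g' p.1 - g' p.1))) := (h2.sub tendsto_const_nhds).const_mul _
      simpa using h3
  -- the two outer terms
  have key : ∀ S : Finset ι, (∫ U, f U ∂(μ ι ν)) * (∫ U, g U ∂(μ ι ν)) ≤
      (∫ U, f U * g U ∂(μ ι ν)) + ε + ∫ p : (ι → ℝ) × (ι → ℝ),
      f p.1 * (g' (mg S p.1 p.2) - g' p.1) ∂m2 := by
    intro S
    refine (fin_step ν S f g C hf hg hfC hgC hco).trans ?_
    have hmpS := mp_mg (ι := ι) ν (↑S)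
    have hfst : MeasurePreserving Prod.fst m2 (μ ι ν) := measurePreserving_fst
    have e : ∀ p : (ι → ℝ) × (ι → ℝ), f p.1 * g (mg S p.1 p.2) =
        ((f p.1 * g p.1 + f p.1 * (g (mg S p.1 p.2) - g' (mg S p.1 p.2))) +
          f p.1 * (g' p.1 - g p.1)) + f p.1 * (g' (mg S p.1 p.2) - g' p.1) := fun p => by ring
    have mf : Measurable (fun p : (ι → ℝ) × (ι → ℝ) => f p.1) := hf.comp measurable_fst
    have mg1 : Measurable (fun p : (ι → ℝ) × (ι → ℝ) => g p.1) := hg.comp measurable_fst
    have mg2 : Measurable (fun p : (ι → ℝ) × (ι → ℝ) => g' p.1) := hg'm.comp measurable_fst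
    have mg3 : Measurable (fun p : (ι → ℝ) × (ι → ℝ) => g (mg S p.1 p.2)) :=
      hg.comp (measurable_mg _)
    have mg4 : Measurable (fun p : (ι → ℝ) × (ι → ℝ) => g' (mg S p.1 p.2)) :=
      hg'm.comp (measurable_mg _)
    have i1 : Integrable (fun p : (ι → ℝ) × (ι → ℝ) => f p.1 * g p.1) m2 :=
      int_mul mf mg1 (fun p => hfC _) fun p => hgC _
    have i2 : Integrable (fun p : (ι → ℝ) × (ι → ℝ) =>
        f p.1 * (g (mg S p.1 p.2) - g' (mg S p.1 p.2))) m2 :=
      int_mul mf (mg3.sub mg4) (fun p => hfC _) fun p => hdb _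
    have i3 : Integrable (fun p : (ι → ℝ) × (ι → ℝ) => f p.1 * (g' p.1 - g p.1)) m2 :=
      int_mul mf (mg2.sub mg1) (fun p => hfC _) fun p => by
        rw [abs_sub_comm]; exact hdb _
    have i4 : Integrable (fun p : (ι → ℝ) × (ι → ℝ) =>
        f p.1 * (g' (mg S p.1 p.2) - g' p.1)) m2 :=
      int_mul mf (mg4.sub mg2) (fun p => hfC _) fun p =>
        (abs_sub _ _).trans (add_le_add (hg'b _) (hg'b _))
    simp_rw [e]
    have i12 : Integrable (fun p : (ι → ℝ) × (ι → ℝ) => f p.1 * g p.1 +
        f p.1 * (g (mg S p.1 p.2) - g' (mg S p.1 p.2))) m2 := i1.add i2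
    have i123 : Integrable (fun p : (ι → ℝ) × (ι → ℝ) => f p.1 * g p.1 +
        f p.1 * (g (mg S p.1 p.2) - g' (mg S p.1 p.2)) + f p.1 * (g' p.1 - g p.1)) m2 :=
      i12.add i3
    rw [integral_add i123 i4, integral_add i12 i3, integral_add i1 i2]
    have b1 : ∫ p : (ι → ℝ) × (ι → ℝ), f p.1 * g p.1 ∂m2 = ∫ U, f U * g U ∂(μ ι ν) :=
      (integral_mp hfst (hf.mul hg)).symm
    have hε2 : C * (ε / (2 * (C + 1))) ≤ ε / 2 := by
      have h1 : C * (ε / (2 * (C + 1))) = ε / 2 * (C / (C + 1)) := by field_simp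
      rw [h1]
      have h2 : C / (C + 1) ≤ 1 := by rw [div_le_one (by positivity)]; linarith
      exact mul_le_of_le_one_right (by positivity) h2
    have b2 : ∫ p : (ι → ℝ) × (ι → ℝ), f p.1 * (g (mg S p.1 p.2) - g' (mg S p.1 p.2)) ∂m2 ≤
        ε / 2 := by
      have hi : Integrable (fun p : (ι → ℝ) × (ι → ℝ) =>
          C * |g (mg S p.1 p.2) - g' (mg S p.1 p.2)|) m2 :=
        ((int_of_bdd (mg3.sub mg4) fun p => hdb _).abs).const_mul C
      refine (integral_mono i2 hi fun p => ?_).trans ?_
      · refine (le_abs_self _).trans ?_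
        rw [abs_mul]
        exact mul_le_mul_of_nonneg_right (hfC _) (abs_nonneg _)
      · rw [integral_const_mul]
        have h1 : ∫ p : (ι → ℝ) × (ι → ℝ), |g (mg S p.1 p.2) - g' (mg S p.1 p.2)| ∂m2 =
            ∫ U, |g U - g' U| ∂(μ ι ν) :=
          (integral_mp hmpS (continuous_abs.measurable.comp (hg.sub hg'm))).symm
        rw [h1]
        exact (mul_le_mul_of_nonneg_left hd hC).trans hε2
    have b3 : ∫ p : (ι → ℝ) × (ι → ℝ), f p.1 * (g' p.1 - g p.1) ∂m2 ≤ ε / 2 := by
      have hi : Integrable (fun p : (ι → ℝ) × (ι → ℝ) => C * |g p.1 - g' p.1|) m2 :=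
        ((int_of_bdd (mg1.sub mg2) fun p => hdb _).abs).const_mul C
      refine (integral_mono i3 hi fun p => ?_).trans ?_
      · refine (le_abs_self _).trans ?_
        rw [abs_mul, abs_sub_comm]
        exact mul_le_mul_of_nonneg_right (hfC _) (abs_nonneg _)
      · rw [integral_const_mul]
        have h1 : ∫ p : (ι → ℝ) × (ι → ℝ), |g p.1 - g' p.1| ∂m2 =
            ∫ U, |g U - g' U| ∂(μ ι ν) :=
          (integral_mp hfst (continuous_abs.measurable.comp (hg.sub hg'm))).symm
        rw [h1]
        exact (mul_le_mul_of_nonneg_left hd hC).trans hε2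
    rw [b1]
    linarith
  have hlim2 : Tendsto (fun S : Finset ι => (∫ U, f U * g U ∂(μ ι ν)) + ε +
      ∫ p : (ι → ℝ) × (ι → ℝ), f p.1 * (g' (mg S p.1 p.2) - g' p.1) ∂m2) atTop
      (𝓝 ((∫ U, f U * g U ∂(μ ι ν)) + ε + 0)) := tendsto_const_nhds.add hlim
  rw [add_zero] at hlim2
  exact ge_of_tendsto' hlim2 key

end gen

end Harris

variable {d : ℕ}

/-! ## B5 : Harris - FKG inequality -/

theorem harris {f g : Cfg d → ℝ} (hf : Measurable f) (hg : Measurable g) (C : ℝ)
    (hfC : ∀ U, |f U| ≤ C) (hgC : ∀ U, |g U| ≤ C)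
    (hmon : (Monotone f ∧ Monotone g) ∨ (Antitone f ∧ Antitone g)) :
    (∫ U, f U ∂(P d)) * (∫ U, g U ∂(P d)) ≤ ∫ U, f U * g U ∂(P d) :=
  Harris.main unif hf hg C hfC hgC hmon

theorem harris_set {A B : Set (Cfg d)} (hA : MeasurableSet A) (hB : MeasurableSet B)
    (hAm : IsLowerSet A) (hBm : IsLowerSet B) :
    (P d).real A * (P d).real B ≤ (P d).real (A ∩ B) := by
  classical
  have hanti : ∀ {A : Set (Cfg d)}, IsLowerSet A → Antitone (A.indicator (fun _ => (1 : ℝ))) := by
    intro A hA U U' hU
    by_cases h : U' ∈ A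
    · rw [indicator_of_mem h, indicator_of_mem (hA hU h)]
    · rw [indicator_of_notMem h]
      exact indicator_nonneg (fun _ _ => zero_le_one) U
  have hbd : ∀ {A : Set (Cfg d)}, ∀ U, |A.indicator (fun _ => (1 : ℝ)) U| ≤ 1 := by
    intro A U
    by_cases h : U ∈ A
    · rw [indicator_of_mem h]; simp
    · rw [indicator_of_notMem h]; simp
  have h := harris (measurable_const.indicator hA) (measurable_const.indicator hB) 1 hbd hbd
    (Or.inr ⟨hanti hAm, hanti hBm⟩)
  rw [integral_indicator_const _ hA, integral_indicator_const _ hB] at h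
  have e : ∀ U : Cfg d, A.indicator (fun _ => (1 : ℝ)) U * B.indicator (fun _ => (1 : ℝ)) U =
      (A ∩ B).indicator (fun _ => (1 : ℝ)) U := by
    intro U
    by_cases h1 : U ∈ A <;> by_cases h2 : U ∈ B <;> simp [h1, h2]
  simp_rw [e] at h
  rw [integral_indicator_const _ (hA.inter hB)] at h
  simpa using h

end Pool.Agent.helper55.FP
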