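import Pool.Agent.helper55.FP.NDefs
import Pool.Agent.helper55.FP.LDefs
import Pool.Agent.helper55.FP.Conn
import Pool.Agent.helper55.FP.Paths
import Pool.Agent.helper55.FP.Meas
import Pool.Agent.helper55.FP.Indep
import Pool.Agent.helper55.FP.Resample
import Pool.Agent.helper55.FP.BK
import Pool.Agent.helper55.FP.Harris
import Pool.Agent.helper55.FP.Symm
import Pool.Agent.helper55.FP.LeftCont
import Pool.Agent.helper55.FP.Sprinkle

/-! Module Balls: first-passage balls, elementary properties. -/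

set_option autoImplicit false

open MeasureTheory Set Filter Topology
open scoped ENNReal

namespace Pool.Agent.helper55.FP

variable {d : ℕ}

/-! ## auxiliary lemmas on walks -/

theorem Balls_wk_prefix {W : Set (V d)} {n : ℕ} {w : ℕ → V d} {e : ℕ → E d} (h : Wk W n w e)
    {i : ℕ} (hi : i ≤ n) : Wk W i w e :=
  ⟨fun j hj => h.1 j (hj.trans hi), fun j hj => h.2 j (hj.trans_le hi)⟩

theorem Balls_wcost_mono (c : E d → ℕ) (e : ℕ → E d) {i n : ℕ} (hi : i ≤ n) :
    wcost c i e ≤ wcost c n e :=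
  Finset.sum_le_sum_of_subset (Finset.range_mono hi)

theorem Balls_wcost_succ (c : E d → ℕ) (e : ℕ → E d) (n : ℕ) :
    wcost c (n + 1) e = wcost c n e + c (e n) := Finset.sum_range_succ _ _

theorem Balls_wcost_congr (c : E d → ℕ) {e e' : ℕ → E d} {n : ℕ} (h : ∀ i < n, e i = e' i) :
    wcost c n e = wcost c n e' :=
  Finset.sum_congr rfl fun i hi => by rw [h i (Finset.mem_range.1 hi)]

/-- add one step -/
theorem Balls_snoc {W : Set (V d)} {n : ℕ} {w : ℕ → V d} {e : ℕ → E d} (h : Wk W n w e)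
    {b : V d} {f : E d} (hb : b ∈ W) (hf : Joins f (w n) b) :
    Wk W (n + 1) (fun j => if j ≤ n then w j else b) (fun j => if j < n then e j else f) := by
  refine ⟨fun j _ => ?_, fun j hj => ?_⟩
  · by_cases h1 : j ≤ n
    · simp only [h1, if_true]; exact h.1 j h1
    · simp only [h1, if_false]; exact hb
  · by_cases h1 : j < n
    · have h2 : j ≤ n := h1.le
      have h3 : j + 1 ≤ n := h1
      simp only [h1, h2, h3, if_true]
      exact h.2 j h1
    · have h2 : j = n := by omega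
      subst h2
      have h3 : ¬ (j + 1 ≤ j) := by omega
      simp only [h1, h3, le_refl, if_true, if_false]
      exact hf

/-- concatenate a walk with the part of another walk after time `i` -/
theorem Balls_concat {W : Set (V d)} {n n' i : ℕ} {w w' : ℕ → V d} {e e' : ℕ → E d}
    (h' : Wk W n' w' e') (h : Wk W n w e) (hi : i ≤ n) (hw : w' n' = w i) :
    Wk W (n' + (n - i)) (fun j => if j < n' then w' j else w (j - n' + i))
      (fun j => if j < n' then e' j else e (j - n' + i)) := by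
  refine ⟨fun j hj => ?_, fun j hj => ?_⟩
  · by_cases h1 : j < n'
    · simp only [h1, if_true]; exact h'.1 j h1.le
    · simp only [h1, if_false]; exact h.1 _ (by omega)
  · by_cases h1 : j < n'
    · simp only [h1, if_true]
      by_cases h2 : j + 1 < n'
      · simp only [h2, if_true]; exact h'.2 j h1
      · have h3 : n' = j + 1 := by omega
        simp only [h2, if_false]
        have h4 := h'.2 j h1
        rw [← h3, hw] at h4
        have h5 : j + 1 - n' + i = i := by omega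
        rw [h5]
        exact h4
    · have h2 : ¬ (j + 1 < n') := by omega
      simp only [h1, h2, if_false]
      have h3 : j + 1 - n' + i = j - n' + i + 1 := by omega
      rw [h3]
      exact h.2 _ (by omega)

theorem Balls_concat_cost (c : E d → ℕ) {n n' i : ℕ} (e e' : ℕ → E d) (hi : i ≤ n) :
    wcost c (n' + (n - i)) (fun j => if j < n' then e' j else e (j - n' + i)) + wcost c i e =
      wcost c n' e' + wcost c n e := by
  unfold wcost
  rw [Finset.sum_range_add]
  have h1 : ∑ x ∈ Finset.range n', c (if x < n' then e' x else e (x - n' + i)) =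
      ∑ x ∈ Finset.range n', c (e' x) :=
    Finset.sum_congr rfl fun x hx => by rw [if_pos (Finset.mem_range.1 hx)]
  have h2 : ∑ x ∈ Finset.range (n - i), c (if n' + x < n' then e' (n' + x)
      else e (n' + x - n' + i)) = ∑ x ∈ Finset.range (n - i), c (e (i + x)) :=
    Finset.sum_congr rfl fun x _ => by
      rw [if_neg (by omega), show n' + x - n' + i = i + x by omega]
  have h3 : ∑ x ∈ Finset.range n, c (e x) =
      ∑ x ∈ Finset.range i, c (e x) + ∑ x ∈ Finset.range (n - i), c (e (i + x)) := by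
    rw [← Finset.sum_range_add, Nat.add_sub_of_le hi]
  rw [h1, h2, h3]
  ring

/-! ## FILE Balls (F1) : first-passage balls -/

theorem bl_mono (c : E d → ℕ) (W : Set (V d)) (x : V d) {s t : ℕ} (h : s ≤ t) :
    Bl c W x s ⊆ Bl c W x t := by
  rintro z ⟨n, w, e, h1, h2, h3, h4⟩
  exact ⟨n, w, e, h1, h2, h3, h4.trans h⟩

theorem bl_subset (c : E d → ℕ) {W W' : Set (V d)} (h : W ⊆ W') (x : V d) (t : ℕ) :
    Bl c W x t ⊆ Bl c W' x t := by
  rintro z ⟨n, w, e, h1, h2, h3, h4⟩
  exact ⟨n, w, e, ⟨fun i hi => h (h1.1 i hi), h1.2⟩, h2, h3, h4⟩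

/-- a lattice edge (needs `d ≠ 0`) -/
theorem Balls_edge (d : ℕ) [NeZero d] : Nonempty (E d) := ⟨(0, ⟨0, NeZero.pos d⟩)⟩

theorem mem_bl_self [NeZero d] (c : E d → ℕ) {W : Set (V d)} {x : V d} (h : x ∈ W) (t : ℕ) :
    x ∈ Bl c W x t := by
  obtain ⟨e0⟩ := Balls_edge d
  refine ⟨0, fun _ => x, fun _ => e0, ⟨fun _ _ => h, fun i hi => absurd hi (by omega)⟩, rfl, rfl,
    ?_⟩
  simp [wcost]

theorem bl_step {c : E d → ℕ} {W : Set (V d)} {x a b : V d} {e : E d} {t : ℕ}
    (h : a ∈ Bl c W x t) (hb : b ∈ W) (he : Joins e a b) : b ∈ Bl c W x (t + c e) := by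
  obtain ⟨n, w, f, h1, h2, h3, h4⟩ := h
  rw [← h3] at he
  refine ⟨n + 1, _, _, Balls_snoc h1 hb he, ?_, ?_, ?_⟩
  · simp [h2]
  · simp
  · rw [Balls_wcost_succ, Balls_wcost_congr (e' := f) c (fun i hi => by simp [hi])]
    simp only [lt_irrefl, if_false]
    omega

/-- balls are closed under open connections -/
theorem bl_closed {g : ℝ → ℕ} {q : ℝ} {U : Cfg d} {W : Set (V d)} {x a b : V d} {t : ℕ}
    (h : a ∈ Bl (costE g q U) W x t) (hc : Conn (op q U) W a b) :
    b ∈ Bl (costE g q U) W x t := by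
  have := hc.2
  induction this with
  | refl => exact h
  | tail hab hbc ih =>
    obtain ⟨h1, h2, e, he, hj⟩ := hbc
    have h3 : costE g q U e = 0 := by
      have : U e ≤ q := he
      simp [costE, cost, this]
    have h4 := bl_step (ih ⟨hc.1, hab⟩) h2 hj
    rwa [h3, add_zero] at h4

theorem Balls_line (x : V d) (i : Fin d) (k : ℤ) :
    Conn (univ : Set (E d)) univ x (x + Pi.single i k) := by
  induction k using Int.induction_on with
  | zero => simpa using Conn.refl (mem_univ x)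
  | succ k ih =>
    refine ih.snoc ⟨mem_univ _, mem_univ _, (x + Pi.single i (k : ℤ), i), mem_univ _,
      Or.inl ⟨rfl, ?_⟩⟩
    simp only [tip]
    rw [add_assoc, ← Pi.single_add]
  | pred k ih =>
    refine ih.snoc ⟨mem_univ _, mem_univ _, (x + Pi.single i (-(k : ℤ) - 1), i), mem_univ _,
      Or.inr ⟨rfl, ?_⟩⟩
    simp only [tip]
    rw [add_assoc, ← Pi.single_add]
    simp

theorem Balls_conn (x z : V d) : Conn (univ : Set (E d)) univ x z := by
  have key : ∀ s : Finset (Fin d),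
      Conn (univ : Set (E d)) univ x (x + ∑ i ∈ s, Pi.single i ((z - x) i)) := by
    intro s
    induction s using Finset.induction_on with
    | empty => simpa using Conn.refl (mem_univ x)
    | insert i s hi ih =>
      rw [Finset.sum_insert hi]
      have h2 := ih.trans (Balls_line (x + ∑ i ∈ s, Pi.single i ((z - x) i)) i ((z - x) i))
      rwa [add_assoc, add_comm (∑ i ∈ s, _)] at h2
  have h1 := key Finset.univ
  rwa [Finset.univ_sum_single, add_sub_cancel] at h1

/-- every vertex belongs to some ball -/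
theorem exists_mem_bl [NeZero d] (c : E d → ℕ) (x z : V d) : ∃ t, z ∈ Bl c univ x t := by
  have := (Balls_conn x z).2
  induction this with
  | refl => exact ⟨0, mem_bl_self c (mem_univ x) 0⟩
  | tail _ hbc ih =>
    obtain ⟨t, ht⟩ := ih
    obtain ⟨_, h2, e, _, hj⟩ := hbc
    exact ⟨_, bl_step ht h2 hj⟩

theorem Balls_cost_pos {g : ℝ → ℕ} (hg : ∀ u, 1 ≤ g u) {q : ℝ} {U : Cfg d} {e : E d}
    (h : costE g q U e = 0) : e ∈ op q U := by
  by_contra h1
  have h2 : ¬ U e ≤ q := h1
  have h3 := hg (U e)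
  simp only [costE, cost, h2, if_false] at h
  omega

/-- walks of cost zero after time `i` are open connections -/
theorem Balls_conn_of_cost {g : ℝ → ℕ} (hg : ∀ u, 1 ≤ g u) {q : ℝ} {U : Cfg d} {W D : Set (V d)}
    {n : ℕ} {w : ℕ → V d} {e : ℕ → E d} (h : Wk W n w e) {i : ℕ} (hi : i ≤ n)
    (hc : wcost (costE g q U) n e ≤ wcost (costE g q U) i e) (hD : ∀ j, i ≤ j → j ≤ n → w j ∈ D) :
    ∀ j, i ≤ j → j ≤ n → Conn (op q U) D (w i) (w j) := by
  intro j hij
  induction j, hij using Nat.le_induction with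
  | base => intro _; exact Conn.refl (hD i le_rfl hi)
  | succ j hij ih =>
    intro hj
    refine (ih (by omega)).snoc ⟨hD j hij (by omega), hD (j + 1) (by omega) hj, e j, ?_,
      h.2 j (by omega)⟩
    apply Balls_cost_pos hg
    have h1 := Balls_wcost_mono (costE g q U) e hij
    have h2 := Balls_wcost_mono (costE g q U) e hj
    rw [Balls_wcost_succ] at h2
    omega

/-- a new vertex of the ball `t+1` is connected, off the ball `t`, to a boundary vertex -/
theorem bl_succ {g : ℝ → ℕ} (hg : ∀ u, 1 ≤ g u) {q : ℝ} {U : Cfg d} {W : Set (V d)} {x z : V d}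
    {t : ℕ} (h : z ∈ Bl (costE g q U) W x (t + 1)) (hz : z ∉ Bl (costE g q U) W x t) :
    ∃ b, b ∈ W \ Bl (costE g q U) W x t ∧ (∃ a ∈ Bl (costE g q U) W x t, Adj a b) ∧
      Conn (op q U) (W \ Bl (costE g q U) W x t) b z ∧ b ∈ Bl (costE g q U) W x (t + 1) := by
  obtain ⟨n, w, e, h1, h2, h3, h4⟩ := h
  have h0 : w 0 ∈ Bl (costE g q U) W x t :=
    ⟨0, w, e, Balls_wk_prefix h1 (Nat.zero_le n), h2, rfl, by simp [wcost]⟩
  -- the last vertex in the ball
  classical
  obtain ⟨i, hi, hiB, hlast⟩ : ∃ i, i < n ∧ w i ∈ Bl (costE g q U) W x t ∧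
      ∀ j, i < j → j ≤ n → w j ∉ Bl (costE g q U) W x t := by
    have hne : ((Finset.range (n + 1)).filter
        (fun i => w i ∈ Bl (costE g q U) W x t)).Nonempty := ⟨0, by simp [h0]⟩
    obtain ⟨i, hi, hmax⟩ := Finset.exists_max_image _ id hne
    simp only [Finset.mem_filter, Finset.mem_range, id] at hi hmax
    have hin : i ≠ n := by
      rintro rfl
      exact hz (h3 ▸ hi.2)
    exact ⟨i, by omega, hi.2, fun j hj hjn hjB => by
      have := hmax j ⟨by omega, hjB⟩
      omega⟩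
  have hcost : t + 1 ≤ wcost (costE g q U) (i + 1) e := by
    by_contra hlt
    exact hlast (i + 1) (by omega) hi
      ⟨i + 1, w, e, Balls_wk_prefix h1 hi, h2, rfl, by omega⟩
  have hD : ∀ j, i + 1 ≤ j → j ≤ n → w j ∈ W \ Bl (costE g q U) W x t :=
    fun j hj hjn => ⟨h1.1 j hjn, hlast j (by omega) hjn⟩
  have hconn := Balls_conn_of_cost hg h1 (i := i + 1) hi (h4.trans hcost) hD n hi le_rfl
  rw [h3] at hconn
  exact ⟨w (i + 1), hD (i + 1) le_rfl hi, ⟨w i, hiB, ⟨e i, h1.2 i hi⟩⟩, hconn,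
    ⟨i + 1, w, e, Balls_wk_prefix h1 hi, h2, rfl,
      (Balls_wcost_mono (costE g q U) e hi).trans h4⟩⟩

/-- locality: only the costs of the edges touching the ball matter -/
theorem bl_eq_of_agree {c c' : E d → ℕ} {W : Set (V d)} {x : V d} {t : ℕ} {D : Set (V d)}
    (h : ∀ e ∈ inner W ∩ touch D, c e = c' e) (hD : Bl c W x t = D) (hx : x ∈ W) :
    Bl c' W x t = D := by
  -- an edge of a walk that starts at a vertex of `D` is in `inner W ∩ touch D`
  have hedge : ∀ {n : ℕ} {w : ℕ → V d} {e : ℕ → E d}, Wk W n w e → ∀ i < n, w i ∈ D →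
      c (e i) = c' (e i) := by
    intro n w e hw i hi hwi
    apply h
    have h1 := hw.1 i hi.le
    have h2 := hw.1 (i + 1) hi
    rcases hw.2 i hi with ⟨h3, h4⟩ | ⟨h3, h4⟩
    · exact ⟨⟨h3 ▸ h1, h4 ▸ h2⟩, Or.inl (h3 ▸ hwi)⟩
    · exact ⟨⟨h3 ▸ h2, h4 ▸ h1⟩, Or.inr (h4 ▸ hwi)⟩
  apply Subset.antisymm
  · rintro z ⟨n, w, e, h1, h2, h3, h4⟩
    have key : ∀ i ≤ n, wcost c i e = wcost c' i e ∧ w i ∈ D := by
      intro i
      induction i with
      | zero =>
        intro _
        refine ⟨rfl, ?_⟩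
        rw [← hD]
        exact ⟨0, w, e, Balls_wk_prefix h1 (Nat.zero_le n), h2, rfl, by simp [wcost]⟩
      | succ i ih =>
        intro hi
        obtain ⟨h5, h6⟩ := ih (by omega)
        have h7 : wcost c (i + 1) e = wcost c' (i + 1) e := by
          rw [Balls_wcost_succ, Balls_wcost_succ, h5, hedge h1 i hi h6]
        refine ⟨h7, ?_⟩
        rw [← hD]
        refine ⟨i + 1, w, e, Balls_wk_prefix h1 hi, h2, rfl, ?_⟩
        rw [h7]
        exact (Balls_wcost_mono c' e hi).trans h4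
    rw [← h3]
    exact (key n le_rfl).2
  · intro z hz
    rw [← hD] at hz
    obtain ⟨n, w, e, h1, h2, h3, h4⟩ := hz
    have hwD : ∀ i ≤ n, w i ∈ D := by
      intro i hi
      rw [← hD]
      exact ⟨i, w, e, Balls_wk_prefix h1 hi, h2, rfl, (Balls_wcost_mono c e hi).trans h4⟩
    refine ⟨n, w, e, h1, h2, h3, ?_⟩
    have : wcost c' n e = wcost c n e :=
      Finset.sum_congr rfl fun i hi =>
        (hedge h1 i (Finset.mem_range.1 hi) (hwD i (Finset.mem_range.1 hi).le)).symm
    rw [this]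
    exact h4

theorem bl_zero [NeZero d] {g : ℝ → ℕ} (hg : ∀ u, 1 ≤ g u) {q : ℝ} {U : Cfg d} {W : Set (V d)}
    {x : V d} : Bl (costE g q U) W x 0 = Cl (op q U) W x := by
  apply Subset.antisymm
  · rintro z ⟨n, w, e, h1, h2, h3, h4⟩
    have := Balls_conn_of_cost (D := W) hg h1 (i := 0) (Nat.zero_le n) (h4.trans (Nat.zero_le _))
      (fun j _ hj => h1.1 j hj) n (Nat.zero_le n) le_rfl
    rw [h2, h3] at this
    exact this
  · intro z hz
    have hz' : Conn (op q U) W x z := hz
    exact bl_closed (mem_bl_self _ hz'.left 0) hz'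

theorem exists_optW (c : E d → ℕ) (W : Set (V d)) (x z : V d) (t : ℕ) (h : z ∈ Bl c W x t) :
    ∃ n w e, OptW c W n w e ∧ w 0 = x ∧ w n = z ∧ wcost c n e ≤ t := by
  classical
  obtain ⟨n0, w0, e0, h1, h2, h3, h4⟩ := h
  have hex : ∃ k : ℕ, ∃ n w e, Wk W n w e ∧ w 0 = x ∧ w n = z ∧ wcost c n e = k :=
    ⟨_, n0, w0, e0, h1, h2, h3, rfl⟩
  have hmin : ∀ n w e, Wk W n w e → w 0 = x → w n = z → Nat.find hex ≤ wcost c n e :=
    fun n w e a1 a2 a3 => Nat.find_min' hex ⟨n, w, e, a1, a2, a3, rfl⟩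
  obtain ⟨n1, w1, e1, b1, b2, b3, b4⟩ := Nat.find_spec hex
  have hex2 : ∃ n : ℕ, ∃ w e, Wk W n w e ∧ w 0 = x ∧ w n = z ∧ wcost c n e = Nat.find hex :=
    ⟨n1, w1, e1, b1, b2, b3, b4⟩
  obtain ⟨w, e, c1, c2, c3, c4⟩ := Nat.find_spec hex2
  refine ⟨Nat.find hex2, w, e, ⟨c1, fun n' w' e' d1 d2 d3 => ?_⟩, c2, c3, ?_⟩
  · have hk := hmin n' w' e' d1 (d2.trans c2) (d3.trans c3)
    rcases lt_or_eq_of_le hk with hlt | heq
    · exact Or.inl (by rw [c4]; exact hlt)
    · refine Or.inr ⟨by rw [c4]; exact heq, ?_⟩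
      exact Nat.find_min' hex2 ⟨w', e', d1, d2.trans c2, d3.trans c3, heq.symm⟩
  · rw [c4]
    exact (hmin n0 w0 e0 h1 h2 h3).trans h4

theorem OptW.pre {c : E d → ℕ} {W : Set (V d)} {n : ℕ} {w : ℕ → V d} {e : ℕ → E d}
    (h : OptW c W n w e) {i : ℕ} (hi : i ≤ n) : OptW c W i w e := by
  refine ⟨Balls_wk_prefix h.1 hi, fun n' w' e' h1 h2 h3 => ?_⟩
  have h4 := Balls_concat h1 h.1 hi h3
  have h5 := Balls_concat_cost c e e' hi (n' := n')
  have h6 := h.2 _ _ _ h4 (by
    by_cases h0 : 0 < n'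
    · simp only [h0, if_true]; exact h2
    · have : n' = 0 := by omega
      subst this
      simp only [lt_irrefl, if_false, Nat.sub_zero, Nat.zero_add]
      rw [← h3, h2]) (by
    have h7 : ¬ (n' + (n - i) < n') := by omega
    simp only [h7, if_false]
    congr 1
    omega)
  omega

theorem OptW.inj {c : E d → ℕ} {W : Set (V d)} {n : ℕ} {w : ℕ → V d} {e : ℕ → E d}
    (h : OptW c W n w e) {i j : ℕ} (hi : i ≤ n) (hj : j ≤ n) (hij : w i = w j) : i = j := by
  have key : ∀ {i j : ℕ}, i < j → j ≤ n → w i = w j → False := by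
    intro i j hlt hj hij
    have h4 := Balls_concat (Balls_wk_prefix h.1 (hlt.le.trans hj)) h.1 hj hij
    have h5 := Balls_concat_cost c e e hj (n' := i)
    have h6 := h.2 _ _ _ h4 (by
      by_cases h0 : 0 < i
      · simp only [h0, if_true]
      · have : i = 0 := by omega
        subst this
        simp only [lt_irrefl, if_false, Nat.sub_zero, Nat.zero_add]
        exact hij.symm) (by
      have h7 : ¬ (i + (n - j) < i) := by omega
      simp only [h7, if_false]
      congr 1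
      omega)
    have h7 := Balls_wcost_mono c e hlt.le
    omega
  rcases lt_trichotomy i j with hlt | heq | hgt
  · exact (key hlt hj hij).elim
  · exact heq
  · exact (key hgt hi hij.symm).elim

theorem OptW.mono {c : E d → ℕ} {W W' : Set (V d)} {n : ℕ} {w : ℕ → V d} {e : ℕ → E d}
    (h : OptW c W n w e) (hW : W' ⊆ W) (hw : ∀ i ≤ n, w i ∈ W') : OptW c W' n w e :=
  ⟨⟨hw, h.1.2⟩, fun n' w' e' h1 h2 h3 => h.2 n' w' e' ⟨fun i hi => hW (h1.1 i hi), h1.2⟩ h2 h3⟩

end Pool.Agent.helper55.FP
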