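import Pool.Agent.helper55.FP.NDefs
import Pool.Agent.helper55.FP.Conn
import Pool.Agent.helper55.FP.Balls
import Pool.Agent.helper55.FP.Costs

/-! Module NoGeod: a pair of vertices without geodesic. -/

set_option autoImplicit false

open MeasureTheory Set Filter Topology
open scoped ENNReal

namespace Pool.Agent.helper55.FP

variable {d : ℕ}

/-! ## FILE NoGeod (F8) -/

namespace NoGeodAux

/-- some walk from `a` to `b` has weight `s` -/
def R (f : E d → ℝ) (a b : V d) (s : ℝ) : Prop :=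
  ∃ n w e, Wk (univ : Set (V d)) n w e ∧ w 0 = a ∧ w n = b ∧ ∑ i ∈ Finset.range n, f (e i) = s

theorem R.refl (f : E d → ℝ) (a : V d) (e : E d) : R f a a 0 :=
  ⟨0, fun _ => a, fun _ => e, ⟨fun _ _ => mem_univ _, fun i hi => absurd hi (by omega)⟩,
    rfl, rfl, by simp⟩

theorem R.step {f : E d → ℝ} {a b c : V d} {s : ℝ} (h : R f a b s) {e : E d} (he : Joins e b c) :
    R f a c (s + f e) := by
  classical
  obtain ⟨n, w, e', ⟨hw1, hw2⟩, h0, h1, h2⟩ := h
  refine ⟨n + 1, fun i => if i ≤ n then w i else c, fun i => if i < n then e' i else e, ?_, ?_, ?_,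
    ?_⟩
  · refine ⟨fun _ _ => mem_univ _, fun i hi => ?_⟩
    rcases Nat.lt_succ_iff_lt_or_eq.1 hi with h | h
    · simp only [if_pos h, if_pos h.le, if_pos (Nat.succ_le_of_lt h)]
      exact hw2 i h
    · subst h
      simp only [lt_irrefl, if_false, le_refl, if_true]
      rw [if_neg (by omega), h1]
      exact he
  · simp only [Nat.zero_le, if_true]; exact h0
  · simp
  · rw [Finset.sum_range_succ]
    simp only [lt_irrefl, if_false]
    congr 1
    rw [← h2]
    refine Finset.sum_congr rfl fun i hi => ?_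
    rw [if_pos (Finset.mem_range.1 hi)]

theorem R.walk {f : E d → ℝ} {n : ℕ} {w : ℕ → V d} {e : ℕ → E d} (hw : Wk (univ : Set (V d)) n w e)
    {a : V d} {s : ℝ} {i j : ℕ} (hij : i ≤ j) (hj : j ≤ n) (h : R f a (w i) s) :
    R f a (w j) (s + ∑ l ∈ Finset.Ico i j, f (e l)) := by
  induction j, hij using Nat.le_induction with
  | base => simpa using h
  | succ j hij ih =>
    have h1 := (ih (by omega)).step (hw.2 j (by omega))
    rwa [add_assoc, ← Finset.sum_Ico_succ_top hij] at h1

theorem R.trans {f : E d → ℝ} {a b c : V d} {s t : ℝ} (h : R f a b s) (h' : R f b c t) :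
    R f a c (s + t) := by
  obtain ⟨n, w, e, hw, h0, h1, h2⟩ := h'
  rw [← h0] at h
  have := R.walk hw (Nat.zero_le n) le_rfl h
  rwa [← Finset.range_eq_Ico, h2, h1] at this

theorem R.symm {f : E d → ℝ} {a b : V d} {s : ℝ} (h : R f a b s) : R f b a s := by
  obtain ⟨n, w, e, hw, h0, h1, h2⟩ := h
  refine ⟨n, fun i => w (n - i), fun i => e (n - 1 - i), ⟨fun _ _ => mem_univ _, fun i hi => ?_⟩,
    ?_, ?_, ?_⟩
  · have := (hw.2 (n - 1 - i) (by omega)).symm
    rw [show n - 1 - i + 1 = n - i by omega] at this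
    show Joins (e (n - 1 - i)) (w (n - i)) (w (n - (i + 1)))
    rw [show n - (i + 1) = n - 1 - i by omega]
    exact this
  · simpa using h1
  · simpa using h0
  · rw [← h2]
    exact Finset.sum_range_reflect (fun j => f (e j)) n

/-- steps inside `O` are cheap -/
theorem R_Sb {f : E d → ℝ} {O : Set (E d)} {c : ℝ} (hc : 0 ≤ c) (hf : ∀ e ∈ O, f e ≤ c) (e₀ : E d)
    {z : V d} (j : ℕ) : ∀ z' ∈ Sb O univ z j, ∃ s ≤ j * c, R f z z' s := by
  induction j with
  | zero =>
    intro z' hz'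
    have : z' = z := hz'.1
    exact ⟨0, by simp, this ▸ R.refl f z e₀⟩
  | succ j ih =>
    intro z' hz'
    rcases hz' with hz' | ⟨a, ha, -, -, e, he, hj⟩
    · obtain ⟨s, hs, hR⟩ := ih z' hz'
      refine ⟨s, hs.trans ?_, hR⟩
      push_cast
      nlinarith
    · obtain ⟨s, hs, hR⟩ := ih a ha
      refine ⟨s + f e, ?_, hR.step hj⟩
      have := hf e he
      push_cast
      nlinarith

theorem inf_anti' {p q : ℝ} (h : p ≤ q) (U : Cfg d) : Inf p U ⊆ Inf q U := by
  intro z hz
  exact Set.Infinite.mono (fun v hv => Conn.mono (op_mono h U) (Subset.refl _) hv) hz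

theorem wt_pos {M : ℕ → ℕ} (hM : ∀ k, 1 ≤ M k) (k : ℕ) : 0 < wt M k := by
  induction k with
  | zero => exact one_pos
  | succ k ih =>
    have : (0 : ℝ) < M k := by exact_mod_cast hM k
    exact div_pos ih this

/-- real cost of a walk from above -/
theorem sum_le {pl : ℕ → ℝ} (hpl : StrictAnti pl) {M : ℕ → ℕ} (hM : ∀ k, 1 ≤ M k) (k n : ℕ)
    (U : Cfg d) (e : ℕ → E d) : ∑ i ∈ Finset.range n, rcost pl M (U (e i)) ≤
      wt M k * wcost (cE pl M k U) n e + n * wt M (k + 1) := by
  calc ∑ i ∈ Finset.range n, rcost pl M (U (e i))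
      ≤ ∑ i ∈ Finset.range n, (wt M k * (cE pl M k U (e i) : ℝ) + wt M (k + 1)) :=
        Finset.sum_le_sum fun i _ => rcost_le hpl hM k _
    _ = _ := by
        rw [Finset.sum_add_distrib, ← Finset.mul_sum, Finset.sum_const, Finset.card_range,
          nsmul_eq_mul, wcost]
        push_cast
        rfl

/-- real cost of a walk from below -/
theorem le_sum {pl : ℕ → ℝ} (hpl : StrictAnti pl) {M : ℕ → ℕ} (hM : ∀ k, 1 ≤ M k) (k n : ℕ)
    (U : Cfg d) (e : ℕ → E d) : wt M k * wcost (cE pl M k U) n e ≤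
      ∑ i ∈ Finset.range n, rcost pl M (U (e i)) := by
  rw [wcost]
  push_cast
  rw [Finset.mul_sum]
  exact Finset.sum_le_sum fun i _ => rcost_ge hpl hM k _

/-- a vertex of a walk from `x`, close to `x`, is in `Abar` -/
theorem mem_abar {pl : ℕ → ℝ} {M : ℕ → ℕ} {k : ℕ} {U : Cfg d} {x z : V d} {n : ℕ} {e : ℕ → E d}
    (hmin : ∀ n' w' e', Wk univ n' w' e' → w' 0 = x → w' n' ∈ Inf (pl k) U →
      wcost (cE pl M k U) n e ≤ wcost (cE pl M k U) n' e')
    (hz : z ∉ Inf (pl k) U) {s : ℕ} (hs : s ≤ wcost (cE pl M k U) n e)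
    (hzs : z ∈ Bl (cE pl M k U) univ x s) : z ∈ Abar pl M k U x := by
  refine ⟨hz, fun t ht => ?_⟩
  obtain ⟨v, ⟨n', w', e', hw', h0, h1, h2⟩, hv⟩ := ht
  have := hmin n' w' e' hw' h0 (by rw [h1]; exact hv)
  exact bl_mono _ _ _ (hs.trans (this.trans h2)) hzs

end NoGeodAux

open NoGeodAux in
theorem no_geod {pl : ℕ → ℝ} (hpl : StrictAnti pl) {M N r : ℕ → ℕ} (hM : ∀ k, 1 ≤ M k)
    {x y : V d} {U : Cfg d} (h : GoodPair pl M N r x y U)
    (hnt : ∀ k, 1 ≤ k → ¬ Touch (Abar pl M k U x) (Abar pl M k U y)) :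
    ¬ ∃ n w e, Wk (univ : Set (V d)) n w e ∧ w 0 = x ∧ w n = y ∧
      ∀ n' w' e', Wk (univ : Set (V d)) n' w' e' → w' 0 = x → w' n' = y →
        ∑ i ∈ Finset.range n, rcost pl M (U (e i)) ≤
          ∑ i ∈ Finset.range n', rcost pl M (U (e' i)) := by
  classical
  rintro ⟨n, w, e, hw, hw0, hwn, hmin⟩
  have : NeZero d := ⟨fun hd => by
    have h1 := (e 0).2.isLt
    omega⟩
  -- a level whose infinite cluster avoids the walk
  choose κ hκ using h.leave
  set k : ℕ := (Finset.range (n + 1)).sup (fun i => κ (w i)) + 1 with hk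
  have hk1 : 1 ≤ k := by omega
  have hav : ∀ i ≤ n, w i ∉ Inf (pl k) U := by
    intro i hi hmem
    have h1 : κ (w i) ≤ k := by
      have := Finset.le_sup (f := fun i => κ (w i)) (Finset.mem_range.2 (Nat.lt_succ_of_le hi))
      exact this.trans (Nat.le_succ _)
    exact hκ (w i) (inf_anti' (hpl.antitone h1) U hmem)
  obtain ⟨n₁, z₁, n₂, z₂, j, ⟨w₁, e₁, hw₁, hw₁0, hw₁n, hz₁, hmin₁⟩,
    ⟨w₂, e₂, hw₂, hw₂0, hw₂n, hz₂, hmin₂⟩, hSb, hlen⟩ := h.lenxy k
  set Tx : ℕ := wcost (cE pl M k U) n₁ e₁ with hTx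
  set Ty : ℕ := wcost (cE pl M k U) n₂ e₂ with hTy
  have hwt : 0 < wt M k := wt_pos hM k
  have hwt' : 0 < wt M (k + 1) := wt_pos hM (k + 1)
  have hMk : (0 : ℝ) < M k := by exact_mod_cast hM k
  have hwtM : wt M (k + 1) * M k = wt M k := by
    show wt M k / M k * M k = wt M k
    field_simp
  -- the cost of the walk
  have hcost : wcost (cE pl M k U) n e ≤ Tx + Ty := by
    have r1 : R (fun e => rcost pl M (U e)) x z₁ (∑ i ∈ Finset.range n₁, rcost pl M (U (e₁ i))) :=
      ⟨n₁, w₁, e₁, hw₁, hw₁0, hw₁n, rfl⟩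
    have r2 : R (fun e => rcost pl M (U e)) y z₂ (∑ i ∈ Finset.range n₂, rcost pl M (U (e₂ i))) :=
      ⟨n₂, w₂, e₂, hw₂, hw₂0, hw₂n, rfl⟩
    obtain ⟨s, hs, r3⟩ := R_Sb (f := fun e => rcost pl M (U e)) (O := op (pl k) U)
      (c := wt M (k + 1)) hwt'.le (fun e' he' => by
        have h1 := rcost_le hpl hM k (U e')
        rw [(cst_eq_zero hpl hM k (U e')).2 he'] at h1
        simpa using h1) (e 0) j z₂ hSb
    obtain ⟨n', w', e', hw', h0', h1', h2'⟩ := (r1.trans r3).trans r2.symm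
    have h3 := hmin n' w' e' hw' h0' h1'
    rw [h2'] at h3
    have h4 := sum_le hpl hM k n₁ U e₁
    have h5 := sum_le hpl hM k n₂ U e₂
    have h6 := le_sum hpl hM k n U e
    rw [← hTx] at h4
    rw [← hTy] at h5
    have h7 : ((n₁ + n₂ + j : ℕ) : ℝ) < M k := by exact_mod_cast hlen
    have h8 : wt M k * (wcost (cE pl M k U) n e : ℝ) < wt M k * (Tx + Ty + 1) := by
      calc wt M k * (wcost (cE pl M k U) n e : ℝ)
          ≤ wt M k * Tx + n₁ * wt M (k + 1) + j * wt M (k + 1) +
            (wt M k * Ty + n₂ * wt M (k + 1)) := by linarith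
        _ = wt M k * (Tx + Ty) + wt M (k + 1) * ((n₁ + n₂ + j : ℕ) : ℝ) := by push_cast; ring
        _ < wt M k * (Tx + Ty) + wt M (k + 1) * M k := by
            have := mul_lt_mul_of_pos_left h7 hwt'
            linarith
        _ = _ := by rw [hwtM]; ring
    have h9 := lt_of_mul_lt_mul_left h8 hwt.le
    have h10 : wcost (cE pl M k U) n e < Tx + Ty + 1 := by exact_mod_cast h9
    omega
  -- the last vertex close to `x`
  have hpre : ∀ i ≤ n, w i ∈ Bl (cE pl M k U) univ x (wcost (cE pl M k U) i e) := fun i hi =>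
    ⟨i, w, e, ⟨fun _ _ => mem_univ _, fun i' hi' => hw.2 i' (by omega)⟩, hw0, rfl, le_rfl⟩
  have hex : ∃ i ≤ n, wcost (cE pl M k U) i e ≤ Tx ∧
      (i = n ∨ Tx < wcost (cE pl M k U) (i + 1) e) := by
    set S := (Finset.range (n + 1)).filter (fun i => wcost (cE pl M k U) i e ≤ Tx) with hS
    have hne : S.Nonempty := ⟨0, Finset.mem_filter.2 ⟨Finset.mem_range.2 (by omega),
      by simp [wcost]⟩⟩
    refine ⟨S.max' hne, ?_, ?_, ?_⟩
    · have := (Finset.mem_filter.1 (S.max'_mem hne)).1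
      exact Nat.lt_succ_iff.1 (Finset.mem_range.1 this)
    · exact (Finset.mem_filter.1 (S.max'_mem hne)).2
    · by_contra hcon
      push Not at hcon
      have h1 : S.max' hne ≤ n := by
        have := (Finset.mem_filter.1 (S.max'_mem hne)).1
        exact Nat.lt_succ_iff.1 (Finset.mem_range.1 this)
      have h2 : S.max' hne + 1 ∈ S := by
        refine Finset.mem_filter.2 ⟨Finset.mem_range.2 ?_, hcon.2⟩
        have := hcon.1
        omega
      have := S.le_max' _ h2
      omega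
  obtain ⟨i, hi, hiT, hor⟩ := hex
  have hix : w i ∈ Abar pl M k U x := mem_abar hmin₁ (hav i hi) hiT (hpre i hi)
  by_cases hin : i = n
  · refine hnt k hk1 ⟨w i, hix, w i, ?_, Or.inl rfl⟩
    refine mem_abar hmin₂ (hav i hi) (s := 0) (Nat.zero_le _) ?_
    rw [hin, hwn]
    exact mem_bl_self _ (mem_univ _) 0
  · rcases hor with hor | hor
    · exact absurd hor hin
    · have hin' : i + 1 ≤ n := by omega
      -- the suffix
      have hsuf : ∀ m ≤ n, w (n - m) ∈ Bl (cE pl M k U) univ y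
          (∑ l ∈ Finset.Ico (n - m) n, cE pl M k U (e l)) := by
        intro m
        induction m with
        | zero =>
          intro _
          simp only [Nat.sub_zero, Finset.Ico_self, Finset.sum_empty]
          rw [hwn]
          exact mem_bl_self _ (mem_univ _) 0
        | succ m ih =>
          intro hm
          have h1 := ih (by omega)
          have h2 := hw.2 (n - (m + 1)) (by omega)
          rw [show n - (m + 1) + 1 = n - m by omega] at h2
          have h3 := bl_step h1 (mem_univ (w (n - (m + 1)))) h2.symm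
          have h4 : ∑ l ∈ Finset.Ico (n - (m + 1)) n, cE pl M k U (e l) =
              (∑ l ∈ Finset.Ico (n - m) n, cE pl M k U (e l)) + cE pl M k U (e (n - (m + 1))) := by
            rw [Finset.sum_eq_sum_Ico_succ_bot (by omega : n - (m + 1) < n),
              show n - (m + 1) + 1 = n - m by omega, add_comm]
          rw [h4]
          exact h3
      have h1 := hsuf (n - (i + 1)) (by omega)
      rw [show n - (n - (i + 1)) = i + 1 by omega] at h1
      have h2 : wcost (cE pl M k U) (i + 1) e + ∑ l ∈ Finset.Ico (i + 1) n, cE pl M k U (e l) =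
          wcost (cE pl M k U) n e := by
        unfold wcost
        exact Finset.sum_range_add_sum_Ico _ hin'
      have h3 : w (i + 1) ∈ Abar pl M k U y :=
        mem_abar hmin₂ (hav (i + 1) hin') (s := ∑ l ∈ Finset.Ico (i + 1) n, cE pl M k U (e l))
          (by omega) h1
      exact hnt k hk1 ⟨w i, hix, w (i + 1), h3, Or.inr ⟨e i, hw.2 i (by omega)⟩⟩

end Pool.Agent.helper55.FP
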