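import Pool.Agent.helper55.FP.NDefs
import Pool.Agent.helper55.FP.LDefs
import Pool.Agent.helper55.FP.Conn
import Pool.Agent.helper55.FP.Paths
import Pool.Agent.helper55.FP.Meas
import Pool.Agent.helper55.FP.Indep
import Pool.Agent.helper55.FP.Resample
import Pool.Agent.helper55.FP.BK
import Pool.Agent.helper55.FP.Harris
import Pool.Agent.helper55.FP.Symm
import Pool.Agent.helper55.FP.LeftCont
import Pool.Agent.helper55.FP.Sprinkle
import Pool.Agent.helper55.FP.Costs
import Pool.Agent.helper55.FP.NoTouch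
import Pool.Agent.helper55.FP.NoGeod

/-! Module Final: from the good event to the negation of the frozen statement. -/

set_option autoImplicit false

open MeasureTheory Set Filter Topology
open scoped ENNReal

namespace Pool.Agent.helper55.FP

variable {d : ℕ}

/-! ## FILE Final (F13) -/

theorem not_geodesic {pl : ℕ → ℝ} (hpl : StrictAnti pl) {M N r : ℕ → ℕ} (hM : ∀ k, 1 ≤ M k)
    (hN : Monotone N) {x y : V d} (hd : 3 ≤ d)
    (h : 0 < (P d).real {U : Cfg d | GoodPair pl M N r x y U}) :
    ¬ (∀ (d : ℕ), 3 ≤ d →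
    ∀ (μ : Measure ℝ), IsProbabilityMeasure μ → μ (Set.Iio (0 : ℝ)) = 0 →
    ∀ (Ω : Type) [MeasurableSpace Ω] (P : Measure Ω), IsProbabilityMeasure P →
    ∀ (X : (Fin d → ℤ) × Fin d → Ω → ℝ),
      (∀ e, Measurable (X e)) →
      ProbabilityTheory.iIndepFun X P →
      (∀ e, Measure.map (X e) P = μ) →
      ∀ᵐ ω ∂P, ∀ x y : Fin d → ℤ,
        ∃ (n : ℕ) (p : Fin (n + 1) → Fin d → ℤ) (e : Fin n → (Fin d → ℤ) × Fin d),
          p 0 = x ∧ p (Fin.last n) = y ∧
          (∀ i : Fin n,
            (p (Fin.castSucc i) = (e i).1 ∧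
              p (Fin.succ i) = (e i).1 + (Pi.single (e i).2 (1 : ℤ) : Fin d → ℤ)) ∨
            (p (Fin.succ i) = (e i).1 ∧
              p (Fin.castSucc i) = (e i).1 + (Pi.single (e i).2 (1 : ℤ) : Fin d → ℤ))) ∧
          ∀ (m : ℕ) (q : Fin (m + 1) → Fin d → ℤ) (f : Fin m → (Fin d → ℤ) × Fin d),
            q 0 = x → q (Fin.last m) = y →
            (∀ i : Fin m,
              (q (Fin.castSucc i) = (f i).1 ∧
                q (Fin.succ i) = (f i).1 + (Pi.single (f i).2 (1 : ℤ) : Fin d → ℤ)) ∨
              (q (Fin.succ i) = (f i).1 ∧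
                q (Fin.castSucc i) = (f i).1 + (Pi.single (f i).2 (1 : ℤ) : Fin d → ℤ))) →
            ∑ i : Fin n, X (e i) ω ≤ ∑ i : Fin m, X (f i) ω) := by
  classical
  intro hall
  have key := hall d hd (Measure.map (rcost pl M) unif)
    (Measure.isProbabilityMeasure_map (measurable_rcost pl M).aemeasurable)
    (by
      rw [Measure.map_apply (measurable_rcost pl M) measurableSet_Iio]
      have : rcost pl M ⁻¹' (Iio 0) = ∅ := by
        ext u
        simp only [mem_preimage, mem_Iio, mem_empty_iff_false, iff_false, not_lt]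
        exact rcost_nonneg pl M u
      rw [this]; simp)
    (Cfg d) (P d) inferInstance (fun e U => rcost pl M (U e))
    (fun e => (measurable_rcost pl M).comp (measurable_pi_apply e))
    (by
      unfold P
      exact ProbabilityTheory.iIndepFun_infinitePi (X := fun _ : E d => rcost pl M)
        (fun _ => measurable_rcost pl M))
    (by
      intro e
      have h1 : (fun U : Cfg d => rcost pl M (U e)) = rcost pl M ∘ (fun U : Cfg d => U e) := rfl
      rw [h1, ← Measure.map_map (measurable_rcost pl M) (measurable_pi_apply e)]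
      congr 1
      unfold P
      exact Measure.infinitePi_map_eval (fun _ : E d => unif) e)
  -- some configuration is good and has geodesics
  have hex : ∃ U : Cfg d, GoodPair pl M N r x y U ∧ (∀ x y : Fin d → ℤ,
        ∃ (n : ℕ) (p : Fin (n + 1) → Fin d → ℤ) (e : Fin n → (Fin d → ℤ) × Fin d),
          p 0 = x ∧ p (Fin.last n) = y ∧
          (∀ i : Fin n,
            (p (Fin.castSucc i) = (e i).1 ∧
              p (Fin.succ i) = (e i).1 + (Pi.single (e i).2 (1 : ℤ) : Fin d → ℤ)) ∨
            (p (Fin.succ i) = (e i).1 ∧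
              p (Fin.castSucc i) = (e i).1 + (Pi.single (e i).2 (1 : ℤ) : Fin d → ℤ))) ∧
          ∀ (m : ℕ) (q : Fin (m + 1) → Fin d → ℤ) (f : Fin m → (Fin d → ℤ) × Fin d),
            q 0 = x → q (Fin.last m) = y →
            (∀ i : Fin m,
              (q (Fin.castSucc i) = (f i).1 ∧
                q (Fin.succ i) = (f i).1 + (Pi.single (f i).2 (1 : ℤ) : Fin d → ℤ)) ∨
              (q (Fin.succ i) = (f i).1 ∧
                q (Fin.castSucc i) = (f i).1 + (Pi.single (f i).2 (1 : ℤ) : Fin d → ℤ))) →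
            ∑ i : Fin n, rcost pl M (U (e i)) ≤ ∑ i : Fin m, rcost pl M (U (f i))) := by
    by_contra hcon
    push Not at hcon
    have hsub : {U : Cfg d | GoodPair pl M N r x y U} ⊆ {U : Cfg d | ¬ (∀ x y : Fin d → ℤ,
        ∃ (n : ℕ) (p : Fin (n + 1) → Fin d → ℤ) (e : Fin n → (Fin d → ℤ) × Fin d),
          p 0 = x ∧ p (Fin.last n) = y ∧
          (∀ i : Fin n,
            (p (Fin.castSucc i) = (e i).1 ∧
              p (Fin.succ i) = (e i).1 + (Pi.single (e i).2 (1 : ℤ) : Fin d → ℤ)) ∨
            (p (Fin.succ i) = (e i).1 ∧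
              p (Fin.castSucc i) = (e i).1 + (Pi.single (e i).2 (1 : ℤ) : Fin d → ℤ))) ∧
          ∀ (m : ℕ) (q : Fin (m + 1) → Fin d → ℤ) (f : Fin m → (Fin d → ℤ) × Fin d),
            q 0 = x → q (Fin.last m) = y →
            (∀ i : Fin m,
              (q (Fin.castSucc i) = (f i).1 ∧
                q (Fin.succ i) = (f i).1 + (Pi.single (f i).2 (1 : ℤ) : Fin d → ℤ)) ∨
              (q (Fin.succ i) = (f i).1 ∧
                q (Fin.castSucc i) = (f i).1 + (Pi.single (f i).2 (1 : ℤ) : Fin d → ℤ))) →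
            ∑ i : Fin n, rcost pl M (U (e i)) ≤ ∑ i : Fin m, rcost pl M (U (f i)))} := by
      intro U hU hcontra
      obtain ⟨x', y', hxy⟩ := hcon U hU
      obtain ⟨n, p, e, h0, h1, h2, h3⟩ := hcontra x' y'
      obtain ⟨m, q, f, g0, g1, g2, g3⟩ := hxy n p e h0 h1 h2
      exact absurd (h3 m q f g0 g1 g2) (not_le.mpr g3)
    have hnull : (P d) {U : Cfg d | GoodPair pl M N r x y U} = 0 :=
      measure_mono_null hsub (ae_iff.mp key)
    rw [Measure.real, hnull] at h
    simp at h
  obtain ⟨U, hU, hgeo⟩ := hex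
  obtain ⟨n, p, e, hp0, hpn, hpe, hmin⟩ := hgeo x y
  refine no_geod hpl hM hU (no_touch hpl hM hN hU) ?_
  -- extend the finite path to functions on `ℕ`
  have hd0 : 0 < d := by omega
  let dflt : E d := (0, ⟨0, hd0⟩)
  refine ⟨n, fun i => if h : i < n + 1 then p ⟨i, h⟩ else 0, fun i => if h : i < n then e ⟨i, h⟩ else dflt,
    ⟨fun i _ => mem_univ _, fun i hi => ?_⟩, ?_, ?_, ?_⟩
  · have h1 : i < n + 1 := by omega
    have h2 : i + 1 < n + 1 := by omega
    simp only [h1, h2, hi, dif_pos]
    rcases hpe ⟨i, hi⟩ with h | h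
    · left
      exact ⟨h.1, h.2⟩
    · right
      exact ⟨h.1, h.2⟩
  · have : (⟨0, by omega⟩ : Fin (n + 1)) = 0 := rfl
    simp only [Nat.zero_lt_succ, dif_pos]
    rw [← hp0]; rfl
  · have : n < n + 1 := by omega
    simp only [this, dif_pos]
    rw [← hpn]; rfl
  · intro n' w' e' hw' hw0 hwn
    have hcmp := hmin n' (fun i => w' i) (fun i => e' i) (by simpa using hw0)
      (by simpa using hwn) (by
        intro i
        have := hw'.2 i.1 i.2
        rcases this with h | h
        · left
          exact ⟨by simpa using h.1, by simpa [tip] using h.2⟩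
        · right
          exact ⟨by simpa using h.1, by simpa [tip] using h.2⟩)
    have hL : ∑ i ∈ Finset.range n, rcost pl M (U (if h : i < n then e ⟨i, h⟩ else dflt)) =
        ∑ i : Fin n, rcost pl M (U (e i)) := by
      rw [Finset.sum_range]
      refine Finset.sum_congr rfl fun i _ => ?_
      simp [i.2]
    have hR : ∑ i ∈ Finset.range n', rcost pl M (U (e' i)) =
        ∑ i : Fin n', rcost pl M (U (e' i)) := by
      rw [Finset.sum_range]
    rw [hL, hR]
    exact hcmp

end Pool.Agent.helper55.FP
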