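import Pool.Agent.helper55.FP.NDefs
import Pool.Agent.helper55.FP.LDefs
import Pool.Agent.helper55.FP.Conn
import Pool.Agent.helper55.FP.Paths
import Pool.Agent.helper55.FP.Meas
import Pool.Agent.helper55.FP.Indep
import Pool.Agent.helper55.FP.Resample
import Pool.Agent.helper55.FP.BK
import Pool.Agent.helper55.FP.Harris
import Pool.Agent.helper55.FP.Symm
import Pool.Agent.helper55.FP.LeftCont
import Pool.Agent.helper55.FP.Sprinkle

/-! Module Leave. -/

set_option autoImplicit false

open MeasureTheory Set Filter Topology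
open scoped ENNReal

namespace Pool.Agent.helper55.FP

variable {d : ℕ}

/-! ## FILE Leave (F11) -/

theorem leave_ae {a : ℕ} {pc : ℝ} (h : HD d a pc) {pl : ℕ → ℝ} (hpl : StrictAnti pl)
    (hpc : ∀ k, pc < pl k) (h1 : pl 0 ≤ 1) (hlim : Tendsto pl atTop (𝓝 pc)) :
    ∀ᵐ U ∂(P d), ∀ v : V d, ∃ k, v ∉ Inf (pl k) U := by
  obtain ⟨C, hC, hub⟩ := h.tail_ub
  have hθ : ∀ k, theta d (pl k) ≤ C * (pl k - pc) := by
    intro k
    have hδ : 0 ≤ pl k - pc := by linarith [hpc k]
    have hle : pl k ≤ 1 := (hpl.antitone (Nat.zero_le k)).trans h1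
    have h2 : ∀ n : ℕ, 1 ≤ n → theta d (pl k) ≤ C * ((pl k - pc) + 1 / Real.sqrt n) := by
      intro n hn
      have h3 := hub (pl k - pc) hδ (by linarith) n hn
      rw [add_sub_cancel] at h3
      exact (theta_le_tail _ _).trans h3
    have h4 : Tendsto (fun n : ℕ => C * ((pl k - pc) + 1 / Real.sqrt n)) atTop
        (𝓝 (C * ((pl k - pc) + 0))) := by
      refine Tendsto.const_mul C (tendsto_const_nhds.add ?_)
      have h5 : Tendsto (fun n : ℕ => Real.sqrt (n : ℝ)) atTop atTop :=
        Real.tendsto_sqrt_atTop.comp tendsto_natCast_atTop_atTop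
      exact (tendsto_const_nhds (x := (1 : ℝ))).div_atTop h5
    rw [add_zero] at h4
    exact ge_of_tendsto h4 (eventually_atTop.2 ⟨1, h2⟩)
  rw [ae_all_iff]
  intro v
  have hm : ∀ k, P d {U : Cfg d | v ∈ Inf (pl k) U} = ENNReal.ofReal (theta d (pl k)) := by
    intro k
    rw [← thetaW_univ (pl k) v]
    unfold thetaW Measure.real
    rw [ENNReal.ofReal_toReal (measure_ne_top _ _)]
    rfl
  have h0 : P d {U : Cfg d | ¬ ∃ k, v ∉ Inf (pl k) U} = 0 := by
    have hle : ∀ k, P d {U : Cfg d | ¬ ∃ k, v ∉ Inf (pl k) U}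
        ≤ ENNReal.ofReal (C * (pl k - pc)) := by
      intro k
      calc P d {U : Cfg d | ¬ ∃ k, v ∉ Inf (pl k) U} ≤ P d {U : Cfg d | v ∈ Inf (pl k) U} := by
            refine measure_mono fun U hU => ?_
            by_contra hcon
            exact hU ⟨k, hcon⟩
        _ ≤ _ := by
            rw [hm k]
            exact ENNReal.ofReal_le_ofReal (hθ k)
    have hl : Tendsto (fun k => ENNReal.ofReal (C * (pl k - pc))) atTop
        (𝓝 (ENNReal.ofReal (C * (pc - pc)))) :=
      ENNReal.tendsto_ofReal ((hlim.sub_const pc).const_mul C)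
    rw [sub_self, mul_zero, ENNReal.ofReal_zero] at hl
    exact le_antisymm (ge_of_tendsto' hl hle) zero_le
  exact h0

end Pool.Agent.helper55.FP
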