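import Pool.Agent.helper55.FP.NDefs
import Pool.Agent.helper55.FP.Conn
import Pool.Agent.helper55.FP.Symm
import Pool.Agent.helper55.FP.Sprinkle

/-! FP project, module InBall: the two-point function slightly above `pc` inside a small region. -/

set_option autoImplicit false

open MeasureTheory Set Filter Topology
open scoped ENNReal

namespace Pool.Agent.helper55.FP

variable {d : ℕ}

namespace InBall

theorem tauW_nonneg (p : ℝ) (W : Set (V d)) (a b : V d) : 0 ≤ tauW p W a b := measureReal_nonneg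

theorem nb_finite (u : V d) (r : ℕ) : (nb u r).Finite := by
  have h : nb u r = Metric.closedBall u (r : ℝ) := by
    ext v
    rw [Metric.mem_closedBall, dist_eq_norm]
    rfl
  rw [h]
  exact (isCompact_closedBall u (r : ℝ)).finite_of_discrete

theorem card_adj (B : Finset (V d)) (b : V d) [DecidablePred fun a : V d => Adj b a] :
    ((B.filter fun a => Adj b a).card : ℝ) ≤ 2 * d := by
  have h1 : (↑(B.filter fun a => Adj b a) : Set (V d)) ⊆ {a | Adj b a} := by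
    intro a ha
    simp only [Finset.coe_filter, mem_ofPred_eq] at ha
    exact ha.2
  have h2 := (encard_le_encard h1).trans (adj_encard b)
  rw [encard_coe_eq_coe_finsetCard] at h2
  have h3 : (B.filter fun a => Adj b a).card ≤ 2 * d := by exact_mod_cast h2
  exact_mod_cast h3

open Classical in
/-- pairs of adjacent vertices of `B` -/
noncomputable def prs (B : Finset (V d)) : Finset (V d × V d) :=
  (B ×ˢ B).filter fun x => Adj x.1 x.2

theorem mem_prs {B : Finset (V d)} {x : V d × V d} :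
    x ∈ prs B ↔ (x.1 ∈ B ∧ x.2 ∈ B) ∧ Adj x.1 x.2 := by
  classical
  simp [prs]

theorem sum_fst (B : Finset (V d)) (g : V d → ℝ) (hg : ∀ a, 0 ≤ g a) :
    ∑ x ∈ prs B, g x.1 ≤ 2 * d * ∑ a ∈ B, g a := by
  classical
  have h1 : ∑ x ∈ prs B, g x.1 = ∑ a ∈ B, ∑ b ∈ B.filter (fun b => Adj a b), g a := by
    unfold prs
    rw [Finset.sum_filter, Finset.sum_product]
    exact Finset.sum_congr rfl fun a _ => (Finset.sum_filter _ _).symm
  rw [h1, Finset.mul_sum]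
  refine Finset.sum_le_sum fun a _ => ?_
  rw [Finset.sum_const, nsmul_eq_mul]
  exact mul_le_mul_of_nonneg_right (card_adj B a) (hg a)

theorem sum_snd (B : Finset (V d)) (g : V d → ℝ) (hg : ∀ a, 0 ≤ g a) :
    ∑ x ∈ prs B, g x.2 ≤ 2 * d * ∑ a ∈ B, g a := by
  classical
  have h1 : ∑ x ∈ prs B, g x.2 = ∑ b ∈ B, ∑ a ∈ B.filter (fun a => Adj b a), g b := by
    unfold prs
    rw [Finset.sum_filter, Finset.sum_product_right]
    refine Finset.sum_congr rfl fun b _ => ?_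
    rw [Finset.sum_filter]
    refine Finset.sum_congr rfl fun a _ => ?_
    have : Adj a b ↔ Adj b a := ⟨Adj.symm, Adj.symm⟩
    simp only [this]
  rw [h1, Finset.mul_sum]
  refine Finset.sum_le_sum fun a _ => ?_
  rw [Finset.sum_const, nsmul_eq_mul]
  exact mul_le_mul_of_nonneg_right (card_adj B a) (hg a)

/-- `sprinkle` in a finite region, real version -/
theorem sprinkle_fin {p q : ℝ} (hp : 0 ≤ p) (hpq : p ≤ q) (hq : q ≤ 1) (B : Finset (V d))
    (v u : V d) : tauW q ↑B v u ≤ tauW p ↑B v u +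
      (q - p) * ∑ x ∈ prs B, tauW p ↑B v x.1 * tauW q ↑B x.2 u := by
  classical
  have h1 := sprinkle hp hpq hq (↑B : Set (V d)) v u
  have h2 : ∑' x : V d × V d, Set.indicator {x : V d × V d | x.1 ∈ (↑B : Set (V d)) ∧
      x.2 ∈ (↑B : Set (V d)) ∧ Adj x.1 x.2}
      (fun x => ENNReal.ofReal (tauW p ↑B v x.1 * tauW q ↑B x.2 u)) x =
      ENNReal.ofReal (∑ x ∈ prs B, tauW p ↑B v x.1 * tauW q ↑B x.2 u) := by
    rw [ENNReal.ofReal_sum_of_nonneg fun x _ => mul_nonneg (tauW_nonneg _ _ _ _)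
      (tauW_nonneg _ _ _ _), tsum_eq_sum (s := prs B)]
    · refine Finset.sum_congr rfl fun x hx => ?_
      rw [mem_prs] at hx
      rw [Set.indicator_of_mem]
      exact ⟨hx.1.1, hx.1.2, hx.2⟩
    · intro x hx
      rw [Set.indicator_of_notMem]
      rintro ⟨h3, h4, h5⟩
      exact hx (mem_prs.2 ⟨⟨h3, h4⟩, h5⟩)
  rw [h2, ← ENNReal.ofReal_mul (by linarith)] at h1
  have h0 : 0 ≤ (q - p) * ∑ x ∈ prs B, tauW p ↑B v x.1 * tauW q ↑B x.2 u :=
    mul_nonneg (by linarith) (Finset.sum_nonneg fun x _ => mul_nonneg (tauW_nonneg _ _ _ _)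
      (tauW_nonneg _ _ _ _))
  have h3 : (P d).real {U : Cfg d | Conn (op q U) ↑B v u ∧ ¬ Conn (op p U) ↑B v u} ≤
      (q - p) * ∑ x ∈ prs B, tauW p ↑B v x.1 * tauW q ↑B x.2 u := by
    refine ENNReal.toReal_le_of_le_ofReal h0 h1
  have h4 : {U : Cfg d | Conn (op q U) ↑B v u} ⊆ {U : Cfg d | Conn (op p U) ↑B v u} ∪
      {U : Cfg d | Conn (op q U) ↑B v u ∧ ¬ Conn (op p U) ↑B v u} := by
    intro U hU
    by_cases h : Conn (op p U) ↑B v u
    · exact Or.inl h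
    · exact Or.inr ⟨hU, h⟩
  have h5 := (measureReal_mono h4).trans
    (measureReal_union_le (μ := P d) {U : Cfg d | Conn (op p U) ↑B v u}
      {U : Cfg d | Conn (op q U) ↑B v u ∧ ¬ Conn (op p U) ↑B v u})
  unfold tauW at h3 h5 ⊢
  linarith

/-- sums of the critical two-point function over a small set -/
theorem sum_tau {pc C₁ : ℝ} (hC : ∀ r : ℕ, 1 ≤ r → ∀ F : Finset (V d), (∀ x ∈ F, ‖x‖ ≤ r) →
    ∑ x ∈ F, tau pc x ≤ C₁ * (r : ℝ) ^ 2) {r : ℕ} {u₀ : V d} {B : Finset (V d)}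
    (hB : ∀ x ∈ B, ‖x - u₀‖ ≤ r + 1) {v : V d} (hv : v ∈ B) :
    ∑ x ∈ B, tauW pc ↑B v x ≤ C₁ * (2 * r + 2) ^ 2 := by
  classical
  have h1 : ∑ x ∈ B, tauW pc ↑B v x ≤ ∑ x ∈ B, tau pc (x - v) :=
    Finset.sum_le_sum fun x _ => tauW_le pc _ v x
  have h2 : ∑ x ∈ B, tau pc (x - v) = ∑ y ∈ B.image (fun x => x - v), tau pc y := by
    rw [Finset.sum_image]
    intro x _ y _ h
    exact sub_left_injective h
  have h3 := hC (2 * r + 2) (by omega) (B.image fun x => x - v) (by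
    intro y hy
    rw [Finset.mem_image] at hy
    obtain ⟨x, hx, rfl⟩ := hy
    have h4 : x - v = (x - u₀) - (v - u₀) := by abel
    rw [h4]
    refine (norm_sub_le _ _).trans ?_
    have := hB x hx
    have := hB v hv
    push_cast
    linarith)
  push_cast at h3
  linarith

/-- the sum of the supercritical two-point function -/
theorem sum_bound {p δ G : ℝ} (hp : 0 ≤ p) (hδ : 0 ≤ δ) (hq : p + δ ≤ 1) {B : Finset (V d)}
    {u : V d} (hu : u ∈ B) (hG : ∀ v ∈ B, ∑ x ∈ B, tauW p ↑B v x ≤ G) (hG0 : 0 ≤ G)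
    (hsm : δ * (2 * d * G) ≤ 1 / 2) : ∑ v ∈ B, tauW (p + δ) ↑B v u ≤ 2 * G := by
  have hG' : ∀ a ∈ B, ∑ v ∈ B, tauW p ↑B v a ≤ G := by
    intro a ha
    refine le_trans (le_of_eq (Finset.sum_congr rfl fun v _ => ?_)) (hG a ha)
    exact tauW_symm p _ v a
  have h1 : ∑ v ∈ B, tauW (p + δ) ↑B v u ≤ ∑ v ∈ B, (tauW p ↑B v u +
      δ * ∑ x ∈ prs B, tauW p ↑B v x.1 * tauW (p + δ) ↑B x.2 u) := by
    refine Finset.sum_le_sum fun v _ => ?_
    have := sprinkle_fin hp (by linarith : p ≤ p + δ) hq B v u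
    rwa [add_sub_cancel_left] at this
  rw [Finset.sum_add_distrib, ← Finset.mul_sum, Finset.sum_comm] at h1
  have h2 : ∑ x ∈ prs B, ∑ v ∈ B, tauW p ↑B v x.1 * tauW (p + δ) ↑B x.2 u ≤
      ∑ x ∈ prs B, G * tauW (p + δ) ↑B x.2 u := by
    refine Finset.sum_le_sum fun x hx => ?_
    rw [← Finset.sum_mul]
    exact mul_le_mul_of_nonneg_right (hG' _ (mem_prs.1 hx).1.1) (tauW_nonneg _ _ _ _)
  rw [← Finset.mul_sum] at h2
  have h3 := sum_snd B (fun b => tauW (p + δ) ↑B b u) fun b => tauW_nonneg _ _ _ _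
  set S := ∑ v ∈ B, tauW (p + δ) ↑B v u with hS
  have hS0 : 0 ≤ S := Finset.sum_nonneg fun _ _ => tauW_nonneg _ _ _ _
  have h4 := hG' u hu
  have h5 : G * ∑ x ∈ prs B, tauW (p + δ) ↑B x.2 u ≤ G * (2 * d * S) :=
    mul_le_mul_of_nonneg_left h3 hG0
  have h6 : δ * ∑ x ∈ prs B, ∑ v ∈ B, tauW p ↑B v x.1 * tauW (p + δ) ↑B x.2 u ≤
      δ * (G * (2 * d * S)) := mul_le_mul_of_nonneg_left (h2.trans h5) hδ
  have h7 : δ * (G * (2 * d * S)) = δ * (2 * d * G) * S := by ring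
  have h8 : δ * (2 * d * G) * S ≤ 1 / 2 * S := mul_le_mul_of_nonneg_right hsm hS0
  linarith

/-- one step of the pointwise bound -/
theorem pointwise {p δ G C₂ X S : ℝ} {a : ℕ} (hp : 0 ≤ p) (hδ : 0 ≤ δ) (hq : p + δ ≤ 1)
    {B : Finset (V d)} {u v : V d} (hv : v ∈ B) (hG : ∀ v ∈ B, ∑ x ∈ B, tauW p ↑B v x ≤ G)
    (hC₂ : 0 ≤ C₂) (hdec : ∀ x : V d, tau p x ≤ C₂ / (1 + ‖x‖) ^ a) (hX0 : 0 ≤ X)
    (hX : ∀ b ∈ B, tauW (p + δ) ↑B b u ≤ X / (1 + ‖b - u‖) ^ a)
    (hS : ∑ v ∈ B, tauW (p + δ) ↑B v u ≤ S) :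
    tauW (p + δ) ↑B v u ≤ (C₂ + δ * (2 * d * G * (X * 3 ^ a) + C₂ * 2 ^ a * (2 * d * S))) /
      (1 + ‖v - u‖) ^ a := by
  set t := ‖v - u‖ with ht
  have ht0 : 0 ≤ t := norm_nonneg _
  have hT : 0 < (1 + t) ^ a := by positivity
  have h1 := sprinkle_fin hp (by linarith : p ≤ p + δ) hq B v u
  rw [add_sub_cancel_left] at h1
  have h2 : tauW p ↑B v u ≤ C₂ / (1 + t) ^ a := by
    refine (tauW_le p _ v u).trans ?_
    have := hdec (u - v)
    rwa [norm_sub_rev] at this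
  have h3 : ∀ x ∈ prs B, tauW p ↑B v x.1 * tauW (p + δ) ↑B x.2 u ≤
      (tauW p ↑B v x.1 * (X * 3 ^ a) + C₂ * 2 ^ a * tauW (p + δ) ↑B x.2 u) / (1 + t) ^ a := by
    intro x hx
    obtain ⟨⟨hx1, hx2⟩, hadj⟩ := mem_prs.1 hx
    have n1 : 0 ≤ tauW p (↑B : Set (V d)) v x.1 := tauW_nonneg _ _ _ _
    have n2 : 0 ≤ tauW (p + δ) (↑B : Set (V d)) x.2 u := tauW_nonneg _ _ _ _
    rw [add_div]
    have htri : t ≤ ‖x.1 - v‖ + ‖x.1 - u‖ := by
      have h4 : v - u = -(x.1 - v) + (x.1 - u) := by abel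
      rw [ht, h4]
      refine (norm_add_le _ _).trans ?_
      rw [norm_neg]
    rcases le_total (t / 2) ‖x.1 - u‖ with hc | hc
    · -- `x.1` is far from `u`
      have h4 : ‖x.1 - u‖ ≤ ‖x.2 - u‖ + 1 := by
        have h5 : x.1 - u = (x.2 - u) - (x.2 - x.1) := by abel
        rw [h5]
        refine (norm_sub_le _ _).trans ?_
        have := hadj.norm
        linarith
      have h5 : (1 + t) ≤ 3 * (1 + ‖x.2 - u‖) := by
        have := norm_nonneg (x.2 - u)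
        linarith
      have h6 : tauW (p + δ) ↑B x.2 u ≤ X * 3 ^ a / (1 + t) ^ a := by
        refine (hX _ hx2).trans ?_
        rw [div_le_div_iff₀ (by positivity) hT, mul_assoc, ← mul_pow]
        refine mul_le_mul_of_nonneg_left ?_ hX0
        exact pow_le_pow_left₀ (by positivity) h5 a
      have h7 : tauW p ↑B v x.1 * tauW (p + δ) ↑B x.2 u ≤
          tauW p ↑B v x.1 * (X * 3 ^ a / (1 + t) ^ a) := mul_le_mul_of_nonneg_left h6 n1
      have h8 : tauW p ↑B v x.1 * (X * 3 ^ a / (1 + t) ^ a) =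
          tauW p ↑B v x.1 * (X * 3 ^ a) / (1 + t) ^ a := by ring
      have h9 : 0 ≤ C₂ * 2 ^ a * tauW (p + δ) ↑B x.2 u / (1 + t) ^ a := by positivity
      linarith
    · -- `x.1` is far from `v`
      have h4 : (1 + t) ≤ 2 * (1 + ‖x.1 - v‖) := by
        have := norm_nonneg (x.1 - v)
        linarith
      have h5 : tauW p ↑B v x.1 ≤ C₂ * 2 ^ a / (1 + t) ^ a := by
        refine ((tauW_le p _ v x.1).trans (hdec _)).trans ?_
        rw [div_le_div_iff₀ (by positivity) hT, mul_assoc, ← mul_pow]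
        refine mul_le_mul_of_nonneg_left ?_ hC₂
        exact pow_le_pow_left₀ (by positivity) h4 a
      have h7 : tauW p ↑B v x.1 * tauW (p + δ) ↑B x.2 u ≤
          (C₂ * 2 ^ a / (1 + t) ^ a) * tauW (p + δ) ↑B x.2 u :=
        mul_le_mul_of_nonneg_right h5 n2
      have h8 : (C₂ * 2 ^ a / (1 + t) ^ a) * tauW (p + δ) ↑B x.2 u =
          C₂ * 2 ^ a * tauW (p + δ) ↑B x.2 u / (1 + t) ^ a := by ring
      have h9 : 0 ≤ tauW p ↑B v x.1 * (X * 3 ^ a) / (1 + t) ^ a := by positivity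
      linarith
  have h4 := Finset.sum_le_sum h3
  rw [← Finset.sum_div, Finset.sum_add_distrib, ← Finset.sum_mul, ← Finset.mul_sum] at h4
  have h5 := sum_fst B (fun b => tauW p ↑B v b) fun b => tauW_nonneg _ _ _ _
  have h6 := sum_snd B (fun b => tauW (p + δ) ↑B b u) fun b => tauW_nonneg _ _ _ _
  have h7 : ∑ x ∈ prs B, tauW p ↑B v x.1 ≤ 2 * d * G :=
    h5.trans (mul_le_mul_of_nonneg_left (hG v hv) (by positivity))
  have h8 : ∑ x ∈ prs B, tauW (p + δ) ↑B x.2 u ≤ 2 * d * S :=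
    h6.trans (mul_le_mul_of_nonneg_left hS (by positivity))
  have h9 : ((∑ x ∈ prs B, tauW p ↑B v x.1) * (X * 3 ^ a) +
      C₂ * 2 ^ a * ∑ x ∈ prs B, tauW (p + δ) ↑B x.2 u) / (1 + t) ^ a ≤
      (2 * d * G * (X * 3 ^ a) + C₂ * 2 ^ a * (2 * d * S)) / (1 + t) ^ a := by
    refine div_le_div_of_nonneg_right ?_ hT.le
    exact add_le_add (mul_le_mul_of_nonneg_right h7 (by positivity))
      (mul_le_mul_of_nonneg_left h8 (by positivity))
  have h10 := mul_le_mul_of_nonneg_left (h4.trans h9) hδ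
  have h11 : (C₂ + δ * (2 * d * G * (X * 3 ^ a) + C₂ * 2 ^ a * (2 * d * S))) / (1 + t) ^ a =
      C₂ / (1 + t) ^ a + δ * ((2 * d * G * (X * 3 ^ a) + C₂ * 2 ^ a * (2 * d * S)) / (1 + t) ^ a) := by
    ring
  rw [h11]
  linarith

theorem tauW_zero_right {p : ℝ} {W : Set (V d)} {v u : V d} (hu : u ∉ W) : tauW p W v u = 0 := by
  unfold tauW
  have : {U : Cfg d | Conn (op p U) W v u} = ∅ := by
    ext U
    simp only [mem_ofPred_eq, mem_empty_iff_false, iff_false]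
    exact fun h => hu h.right
  rw [this, measureReal_empty]

theorem tauW_zero_left {p : ℝ} {W : Set (V d)} {v u : V d} (hv : v ∉ W) : tauW p W v u = 0 := by
  unfold tauW
  have : {U : Cfg d | Conn (op p U) W v u} = ∅ := by
    ext U
    simp only [mem_ofPred_eq, mem_empty_iff_false, iff_false]
    exact fun h => hv h.left
  rw [this, measureReal_empty]

end InBall

open InBall

/-- two-point function slightly above `pc` inside a small region -/
theorem inball {a : ℕ} {pc : ℝ} (h : HD d a pc) : ∃ C > 0, ∃ δ₀ > 0, ∀ δ, 0 < δ → δ ≤ δ₀ →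
    ∀ r : ℕ, 1 ≤ r → (r : ℝ) ^ 4 * δ ≤ 1 → ∀ (u₀ : V d) (W : Set (V d)), W ⊆ nb u₀ (r + 1) →
    ∀ u : V d, (∀ v, tauW (pc + δ) W v u ≤ C / (1 + ‖v - u‖) ^ a) ∧
      ∀ F : Finset (V d), ∑ v ∈ F, tauW (pc + δ) W v u ≤ C * (r : ℝ) ^ 2 := by
  classical
  obtain ⟨C₂, hC₂, hdec⟩ := h.decay
  obtain ⟨C₁, hC₁, hball⟩ := h.ball
  have hpc := h.pos
  have hpc1 := h.lt_one
  set κ : ℝ := 1 / (64 * (d + 1) * C₁ * 3 ^ a) with hκ
  have hκ0 : 0 < κ := by positivity
  refine ⟨max (4 * C₂) (32 * C₁), by positivity, min (1 - pc) (κ ^ 2),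
    lt_min (by linarith) (by positivity), ?_⟩
  intro δ hδ0 hδ r hr hrδ u₀ W hW u
  have hr1 : (1 : ℝ) ≤ r := by exact_mod_cast hr
  have hq : pc + δ ≤ 1 := by
    have := hδ.trans (min_le_left _ _)
    linarith
  have hδr : δ * (r : ℝ) ^ 2 ≤ κ := by
    have h1 : (δ * (r : ℝ) ^ 2) ^ 2 ≤ κ ^ 2 := by
      have h2 : (δ * (r : ℝ) ^ 2) ^ 2 = δ * ((r : ℝ) ^ 4 * δ) := by ring
      rw [h2]
      have h3 : δ * ((r : ℝ) ^ 4 * δ) ≤ δ * 1 := mul_le_mul_of_nonneg_left hrδ hδ0.le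
      have h4 := hδ.trans (min_le_right _ _)
      linarith
    exact (pow_le_pow_iff_left₀ (by positivity) hκ0.le two_ne_zero).1 h1
  by_cases hu : u ∈ W
  swap
  · refine ⟨fun v => ?_, fun F => ?_⟩
    · rw [tauW_zero_right hu]
      positivity
    · simp only [tauW_zero_right hu, Finset.sum_const_zero]
      positivity
  -- the finite region
  have hfin : W.Finite := (nb_finite u₀ (r + 1)).subset hW
  obtain ⟨B, hB⟩ : ∃ B : Finset (V d), (↑B : Set (V d)) = W := ⟨hfin.toFinset, hfin.coe_toFinset⟩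
  subst hB
  have hB1 : ∀ x ∈ B, ‖x - u₀‖ ≤ (r : ℝ) + 1 := by
    intro x hx
    have := hW hx
    simp only [nb, mem_ofPred_eq] at this
    push_cast at this
    exact this
  set G : ℝ := C₁ * (2 * r + 2) ^ 2 with hGd
  have hG0 : 0 ≤ G := by positivity
  have hG : ∀ v ∈ B, ∑ x ∈ B, tauW pc ↑B v x ≤ G := fun v hv => sum_tau hball hB1 hv
  have hG16 : G ≤ 16 * C₁ * (r : ℝ) ^ 2 := by
    rw [hGd]
    have h1 : (2 * (r : ℝ) + 2) ^ 2 ≤ (4 * r) ^ 2 := by
      apply pow_le_pow_left₀ (by positivity)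
      linarith
    calc C₁ * (2 * (r : ℝ) + 2) ^ 2 ≤ C₁ * (4 * r) ^ 2 := mul_le_mul_of_nonneg_left h1 hC₁.le
      _ = 16 * C₁ * (r : ℝ) ^ 2 := by ring
  have hsm3 : δ * (2 * d * G) * 3 ^ a ≤ 1 / 2 := by
    have h1 : δ * (2 * d * G) * 3 ^ a ≤ δ * (2 * d * (16 * C₁ * (r : ℝ) ^ 2)) * 3 ^ a := by
      gcongr
    have h2 : δ * (2 * d * (16 * C₁ * (r : ℝ) ^ 2)) * 3 ^ a =
        (32 * d * C₁ * 3 ^ a) * (δ * (r : ℝ) ^ 2) := by ring
    have h3 : (32 * d * C₁ * 3 ^ a) * (δ * (r : ℝ) ^ 2) ≤ (32 * d * C₁ * 3 ^ a) * κ :=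
      mul_le_mul_of_nonneg_left hδr (by positivity)
    have h4 : (32 * (d : ℝ) * C₁ * 3 ^ a) * κ = (1 / 2) * (d / (d + 1)) := by
      rw [hκ]
      field_simp
      ring
    have h5 : (d : ℝ) / (d + 1) ≤ 1 := by
      rw [div_le_one (by positivity)]
      linarith
    linarith
  have h3a : (1 : ℝ) ≤ 3 ^ a := one_le_pow₀ (by norm_num)
  have h23 : (2 : ℝ) ^ a ≤ 3 ^ a := pow_le_pow_left₀ (by norm_num) (by norm_num) a
  have hD0 : 0 ≤ δ * (2 * d * G) := by positivity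
  have hsm : δ * (2 * d * G) ≤ 1 / 2 := by
    have := mul_le_mul_of_nonneg_left h3a hD0
    linarith
  have hsm2 : δ * (2 * d * G) * 2 ^ a ≤ 1 / 2 := by
    have := mul_le_mul_of_nonneg_left h23 hD0
    linarith
  have huB : u ∈ B := hu
  have hS := sum_bound hpc.le hδ0.le hq huB hG hG0 hsm
  -- the maximum
  obtain ⟨w, hw, hmax⟩ := Finset.exists_max_image B
    (fun b => tauW (pc + δ) ↑B b u * (1 + ‖b - u‖) ^ a) ⟨u, huB⟩
  set X := tauW (pc + δ) ↑B w u * (1 + ‖w - u‖) ^ a with hXd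
  have hX0 : 0 ≤ X := mul_nonneg (tauW_nonneg _ _ _ _) (by positivity)
  have hX : ∀ b ∈ B, tauW (pc + δ) ↑B b u ≤ X / (1 + ‖b - u‖) ^ a := by
    intro b hb
    rw [le_div_iff₀ (by positivity)]
    exact hmax b hb
  have hpt := pointwise hpc.le hδ0.le hq hw hG hC₂.le hdec hX0 hX hS
  rw [le_div_iff₀ (by positivity), ← hXd] at hpt
  have hX4 : X ≤ 4 * C₂ := by
    have h1 : C₂ + δ * (2 * d * G * (X * 3 ^ a) + C₂ * 2 ^ a * (2 * d * (2 * G))) =
        C₂ + (δ * (2 * d * G) * 3 ^ a) * X + (δ * (2 * d * G) * 2 ^ a) * (2 * C₂) := by ring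
    rw [h1] at hpt
    have h2 := mul_le_mul_of_nonneg_right hsm3 hX0
    have h3 := mul_le_mul_of_nonneg_right hsm2 (by positivity : 0 ≤ 2 * C₂)
    linarith
  refine ⟨fun v => ?_, fun F => ?_⟩
  · by_cases hv : v ∈ (↑B : Set (V d))
    · refine (hX v hv).trans ?_
      refine div_le_div_of_nonneg_right (hX4.trans (le_max_left _ _)) (by positivity)
    · rw [tauW_zero_left hv]
      positivity
  · have h1 : ∑ v ∈ F, tauW (pc + δ) ↑B v u ≤ ∑ v ∈ B, tauW (pc + δ) ↑B v u := by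
      have h2 : ∑ v ∈ F, tauW (pc + δ) ↑B v u = ∑ v ∈ F ∩ B, tauW (pc + δ) ↑B v u := by
        symm
        refine Finset.sum_subset Finset.inter_subset_left fun v hv hv' => ?_
        apply tauW_zero_left
        intro hvB
        exact hv' (Finset.mem_inter.2 ⟨hv, hvB⟩)
      rw [h2]
      exact Finset.sum_le_sum_of_subset_of_nonneg Finset.inter_subset_right
        fun _ _ _ => tauW_nonneg _ _ _ _
    have h2 : 32 * C₁ * (r : ℝ) ^ 2 ≤ max (4 * C₂) (32 * C₁) * (r : ℝ) ^ 2 :=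
      mul_le_mul_of_nonneg_right (le_max_right _ _) (by positivity)
    linarith

/-- consequence: connection from far away -/
theorem inball_far {a : ℕ} {pc : ℝ} (h : HD d a pc) : ∃ C > 0, ∃ δ₀ > 0, ∀ δ, 0 < δ → δ ≤ δ₀ →
    ∀ r : ℕ, 1 ≤ r → (r : ℝ) ^ 4 * δ ≤ 1 → ∀ (W : Set (V d)) (z u : V d), (r : ℝ) < ‖z - u‖ →
    tauW (pc + δ) (W ∩ (nb u r ∪ {z})) z u ≤ C / (1 + (r : ℝ)) ^ a := by
  obtain ⟨C, hC, δ₀, hδ₀, hmain⟩ := inball h
  refine ⟨C, hC, δ₀, hδ₀, ?_⟩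
  intro δ hδ0 hδ r hr hrδ W z u hz
  by_cases hz1 : ‖z - u‖ ≤ r + 1
  · have hsub : W ∩ (nb u r ∪ {z}) ⊆ nb u (r + 1) := by
      rintro x ⟨-, hx | hx⟩
      · simp only [nb, mem_ofPred_eq] at hx ⊢
        push_cast
        linarith
      · rw [mem_singleton_iff] at hx
        subst hx
        simp only [nb, mem_ofPred_eq]
        push_cast
        exact hz1
    refine ((hmain δ hδ0 hδ r hr hrδ u _ hsub u).1 z).trans ?_
    refine div_le_div_of_nonneg_left hC.le (by positivity) ?_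
    exact pow_le_pow_left₀ (by positivity) (by linarith) a
  · push Not at hz1
    have h0 : tauW (pc + δ) (W ∩ (nb u r ∪ {z})) z u = 0 := by
      unfold tauW
      have : {U : Cfg d | Conn (op (pc + δ) U) (W ∩ (nb u r ∪ {z})) z u} = ∅ := by
        ext U
        simp only [mem_ofPred_eq, mem_empty_iff_false, iff_false]
        rintro ⟨hzW, hr'⟩
        rcases hr'.cases_head with h1 | ⟨c, h1, -⟩
        · rw [h1, sub_self, norm_zero] at hz
          have : (0 : ℝ) ≤ r := by positivity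
          linarith
        · obtain ⟨-, ⟨-, hc⟩, e, -, hj⟩ := h1
          have hadj : Adj z c := ⟨e, hj⟩
          have hn := hadj.norm
          rcases hc with hc | hc
          · simp only [nb, mem_ofPred_eq] at hc
            have h2 : z - u = (c - u) - (c - z) := by abel
            have h3 := norm_sub_le (c - u) (c - z)
            rw [← h2] at h3
            linarith
          · rw [mem_singleton_iff] at hc
            exact hj.ne hc.symm
      rw [this, measureReal_empty]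
    rw [h0]
    positivity

end Pool.Agent.helper55.FP
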