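import Pool.Agent.helper55.FP.NDefs
import Pool.Agent.helper55.FP.LDefs
import Pool.Agent.helper55.FP.Conn
import Pool.Agent.helper55.FP.Paths
import Pool.Agent.helper55.FP.Meas
import Pool.Agent.helper55.FP.Indep
import Pool.Agent.helper55.FP.Resample
import Pool.Agent.helper55.FP.BK
import Pool.Agent.helper55.FP.Harris
import Pool.Agent.helper55.FP.Symm
import Pool.Agent.helper55.FP.LeftCont
import Pool.Agent.helper55.FP.Sprinkle
import Pool.Agent.helper55.FP.Balls
import Pool.Agent.helper55.FP.BallLoc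

/-!
# FP project, module VisCount: counting of the exploration
-/

set_option autoImplicit false

open MeasureTheory Set Filter Topology
open scoped ENNReal

namespace Pool.Agent.helper55.FP

variable {d : ℕ}

/-! ## FILE VisCount -/

/-- a union of at most `K` sets of at most `L` elements -/
private theorem encard_biUnion_le' {ι α : Type*} {S : Set ι} {T : ι → Set α} {K L : ℕ}
    (hS : S.encard ≤ K) (hT : ∀ i ∈ S, (T i).encard ≤ L) :
    (⋃ i ∈ S, T i).encard ≤ (K * L : ℕ) := by
  classical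
  have hfin : S.Finite := finite_of_encard_le_coe hS
  obtain ⟨s, rfl⟩ := hfin.exists_finset_coe
  rw [encard_coe_eq_coe_finsetCard] at hS
  have hK : s.card ≤ K := by exact_mod_cast hS
  have key : ∀ s : Finset ι, (∀ i ∈ s, (T i).encard ≤ L) →
      (⋃ i ∈ s, T i).encard ≤ (s.card * L : ℕ) := by
    intro s
    induction s using Finset.induction_on with
    | empty => intro _; simp
    | insert a s ha ih =>
      intro h
      rw [Finset.set_biUnion_insert, Finset.card_insert_of_notMem ha]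
      refine (encard_union_le _ _).trans ?_
      have h1 := h a (Finset.mem_insert_self a s)
      have h2 := ih fun i hi => h i (Finset.mem_insert_of_mem hi)
      calc (T a).encard + (⋃ i ∈ s, T i).encard ≤ (L : ℕ∞) + (s.card * L : ℕ) := add_le_add h1 h2
        _ = ((s.card + 1) * L : ℕ) := by
          push_cast
          ring
  have h1 := key s (fun i hi => hT i (by exact_mod_cast hi))
  refine le_trans ?_ (h1.trans ?_)
  · apply encard_le_encard
    intro v hv
    simpa using hv
  · exact_mod_cast Nat.mul_le_mul_right L hK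

/-- outer neighbours of a finite set -/
private theorem nbr_count (B : Finset (V d)) :
    {b : V d | ∃ a ∈ B, Adj a b}.encard ≤ (B.card * (2 * d) : ℕ) := by
  have h : {b : V d | ∃ a ∈ B, Adj a b} ⊆ ⋃ a ∈ (↑B : Set (V d)), {b : V d | Adj a b} := by
    rintro b ⟨a, ha, hab⟩
    simp only [mem_iUnion]
    exact ⟨a, by exact_mod_cast ha, hab⟩
  refine (encard_le_encard h).trans (encard_biUnion_le' ?_ fun a _ => adj_encard a)
  rw [encard_coe_eq_coe_finsetCard]

private theorem encard_image_le' {α β : Type*} (f : α → β) (s : Set α) :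
    (f '' s).encard ≤ s.encard := encard_image_le f s

theorem ent_count (c : E d → ℕ) (W : Set (V d)) (x : V d) (N : ℕ) (hN : 1 ≤ N) :
    {y : Finset (V d) × V d | y.1.card ≤ N ∧ Ent c W x (↑y.1) y.2}.encard ≤
      (3 * (2 * d + 1) * N ^ 2 : ℕ) := by
  classical
  -- the balls as finsets
  set S : Set (Finset (V d)) := {D | D.card ≤ N ∧ ∃ t, (↑D : Set (V d)) = Bl c W x t} with hSdef
  have hS : S.encard ≤ (N + 1 : ℕ) := by
    have h1 := bl_count c W x N
    have hinj : InjOn (fun D : Finset (V d) => (↑D : Set (V d))) S := by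
      intro D _ D' _ h
      exact Finset.coe_injective h
    rw [← hinj.encard_image]
    refine (encard_le_encard ?_).trans h1
    rintro _ ⟨D, ⟨hD, t, ht⟩, rfl⟩
    refine ⟨?_, t, ht⟩
    simp only [encard_coe_eq_coe_finsetCard]
    exact_mod_cast hD
  have hsub : {y : Finset (V d) × V d | y.1.card ≤ N ∧ Ent c W x (↑y.1) y.2} ⊆
      {(∅, x)} ∪ ⋃ D ∈ S, (fun b => (D, b)) '' {b : V d | ∃ a ∈ D, Adj a b} := by
    rintro ⟨D, b⟩ ⟨hD, hE⟩
    rcases hE with ⟨h1, h2, -⟩ | ⟨t, h1, -, a, ha, hab⟩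
    · left
      have h3 : D = ∅ := by exact_mod_cast h1
      simp only at h2
      simp [h3, h2]
    · right
      simp only [mem_iUnion]
      exact ⟨D, ⟨hD, t, h1⟩, b, ⟨a, by exact_mod_cast ha, hab⟩, rfl⟩
  refine (encard_le_encard hsub).trans ((encard_union_le _ _).trans ?_)
  have h2 : (⋃ D ∈ S, (fun b => (D, b)) '' {b : V d | ∃ a ∈ D, Adj a b}).encard ≤
      ((N + 1) * (N * (2 * d)) : ℕ) := by
    refine encard_biUnion_le' hS ?_
    rintro D ⟨hD, -⟩
    refine (encard_image_le _ _).trans ((nbr_count D).trans ?_)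
    exact_mod_cast Nat.mul_le_mul_right _ hD
  rw [encard_singleton]
  calc (1 : ℕ∞) + (⋃ D ∈ S, (fun b => (D, b)) '' {b : V d | ∃ a ∈ D, Adj a b}).encard
      ≤ ((1 : ℕ) : ℕ∞) + ((N + 1) * (N * (2 * d)) : ℕ) := add_le_add (by simp) h2
    _ ≤ (3 * (2 * d + 1) * N ^ 2 : ℕ) := by
      have h3 : 1 + (N + 1) * (N * (2 * d)) ≤ 3 * (2 * d + 1) * N ^ 2 := by
        have h4 : 1 ≤ N ^ 2 := Nat.one_le_pow _ _ hN
        have h5 : N * (2 * d) ≤ N ^ 2 * (2 * d) := by
          apply Nat.mul_le_mul_right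
          nlinarith
        nlinarith
      exact_mod_cast h3

private theorem vc_sb_mono_succ (O : Set (E d)) (W : Set (V d)) (b : V d) (m : ℕ) :
    Sb O W b m ⊆ Sb O W b (m + 1) := by
  intro v hv
  exact Or.inl hv

private theorem vc_sb_mono (O : Set (E d)) (W : Set (V d)) (b : V d) {m n : ℕ} (h : m ≤ n) :
    Sb O W b m ⊆ Sb O W b n := by
  induction h with
  | refl => exact subset_rfl
  | step _ ih => exact ih.trans (vc_sb_mono_succ O W b _)

private theorem vc_sb_sub (O : Set (E d)) (W : Set (V d)) (b : V d) (m : ℕ) :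
    Sb O W b m ⊆ W := by
  induction m with
  | zero => exact inter_subset_right
  | succ m ih =>
    rintro v (hv | ⟨a, -, hs⟩)
    · exact ih hv
    · exact hs.2.1

private theorem vc_sb_stop (O : Set (E d)) (W : Set (V d)) (b : V d) {j : ℕ}
    (h : Sb O W b (j + 1) = Sb O W b j) : ∀ m, j ≤ m → Sb O W b m = Sb O W b j := by
  intro m hm
  induction m, hm using Nat.le_induction with
  | base => rfl
  | succ m hm ih =>
    show Sb O W b m ∪ {v | ∃ a ∈ Sb O W b m, Step O W a v} = Sb O W b j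
    rw [ih]
    exact h

/-- the sets `Sb m` grow by at least one element as long as there is a new vertex -/
private theorem vc_sb_card (O : Set (E d)) (W : Set (V d)) (b : V d) {m : ℕ}
    (hne : (Sb O W b (m + 1) \ Sb O W b m).Nonempty) :
    ((m + 1 : ℕ) : ℕ∞) ≤ (Sb O W b m).encard := by
  have hstrict : ∀ j ≤ m, Sb O W b j ≠ Sb O W b (j + 1) := by
    intro j hj h
    have h1 := vc_sb_stop O W b h.symm m hj
    have h2 := vc_sb_stop O W b h.symm (m + 1) (by omega)
    obtain ⟨v, hv1, hv2⟩ := hne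
    rw [h2, ← h1] at hv1
    exact hv2 hv1
  have h0 : (Sb O W b 0).Nonempty := by
    by_contra h
    rw [not_nonempty_iff_eq_empty] at h
    apply hstrict 0 (Nat.zero_le _)
    show Sb O W b 0 = Sb O W b 0 ∪ {v | ∃ a ∈ Sb O W b 0, Step O W a v}
    rw [h]
    simp
  have key : ∀ j ≤ m, ((j + 1 : ℕ) : ℕ∞) ≤ (Sb O W b j).encard := by
    intro j
    induction j with
    | zero =>
      intro _
      simpa using one_le_encard_iff_nonempty.2 h0
    | succ j ih =>
      intro hj
      have ih' := ih (by omega)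
      obtain ⟨v, hv1, hv2⟩ : ∃ v, v ∈ Sb O W b (j + 1) ∧ v ∉ Sb O W b j := by
        by_contra hcon
        push Not at hcon
        exact hstrict j (by omega) (subset_antisymm (vc_sb_mono_succ O W b j) hcon)
      have h1 : insert v (Sb O W b j) ⊆ Sb O W b (j + 1) :=
        insert_subset hv1 (vc_sb_mono_succ O W b j)
      refine le_trans ?_ (encard_le_encard h1)
      rw [encard_insert_of_notMem hv2]
      push_cast
      gcongr
      exact_mod_cast ih'
  exact key m le_rfl

theorem vis_count (c : E d → ℕ) (O : Set (E d)) (W : Set (V d)) (x : V d) (N : ℕ) (hN : 1 ≤ N) :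
    {y : Finset (V d) × V d | y.1.card ≤ N ∧ Vis c O W x (↑y.1) y.2}.encard ≤
      (3 * (2 * d + 1) * (4 * d + 1) * N ^ 4 : ℕ) := by
  classical
  set S : Set (Finset (V d) × V d) := {y | y.1.card ≤ N ∧ Ent c W x (↑y.1) y.2} with hSdef
  have hS : S.encard ≤ (3 * (2 * d + 1) * N ^ 2 : ℕ) := ent_count c W x N hN
  -- the fibre over `(B, b)`
  set T : Finset (V d) × V d → Set (Finset (V d) × V d) := fun y =>
    {y} ∪ ⋃ m ∈ (↑(Finset.range N) : Set ℕ), {z | z.1.card ≤ N ∧
      (↑z.1 : Set (V d)) = ↑y.1 ∪ Sb O (W \ ↑y.1) y.2 m ∧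
      z.2 ∈ Sb O (W \ ↑y.1) y.2 (m + 1) \ Sb O (W \ ↑y.1) y.2 m} with hTdef
  have hsub : {y : Finset (V d) × V d | y.1.card ≤ N ∧ Vis c O W x (↑y.1) y.2} ⊆
      ⋃ y ∈ S, T y := by
    rintro ⟨A, z⟩ ⟨hA, B, b, hE, hcase⟩
    simp only at hA hE hcase
    have hBA : B ⊆ (↑A : Set (V d)) := by
      rcases hcase with ⟨hA, -⟩ | ⟨m, hA, -⟩
      · rw [hA]
      · rw [hA]; exact subset_union_left
    obtain ⟨B', rfl⟩ := (A.finite_toSet.subset hBA).exists_finset_coe
    have hB'A : B' ⊆ A := by exact_mod_cast hBA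
    have hyS : (B', b) ∈ S := ⟨(Finset.card_le_card hB'A).trans hA, hE⟩
    simp only [mem_iUnion]
    refine ⟨(B', b), hyS, ?_⟩
    rcases hcase with ⟨hAB, hz⟩ | ⟨m, hAB, hz⟩
    · left
      have h1 : A = B' := by exact_mod_cast hAB
      simp [h1, hz]
    · right
      simp only [mem_iUnion]
      refine ⟨m, ?_, hA, hAB, hz⟩
      have h1 := vc_sb_card O (W \ ↑B') b ⟨z, hz⟩
      have h2 : (Sb O (W \ ↑B') b m).encard ≤ (N : ℕ∞) := by
        have h3 : Sb O (W \ ↑B') b m ⊆ ↑A := by rw [hAB]; exact subset_union_right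
        refine (encard_le_encard h3).trans ?_
        rw [encard_coe_eq_coe_finsetCard]
        exact_mod_cast hA
      have h3 : m + 1 ≤ N := by exact_mod_cast h1.trans h2
      rw [Finset.coe_range]
      exact h3
  have hT : ∀ y ∈ S, (T y).encard ≤ ((4 * d + 1) * N ^ 2 : ℕ) := by
    rintro ⟨B, b⟩ ⟨hB, hE⟩
    have h1 : (⋃ m ∈ (↑(Finset.range N) : Set ℕ), {z : Finset (V d) × V d | z.1.card ≤ N ∧
      (↑z.1 : Set (V d)) = ↑B ∪ Sb O (W \ ↑B) b m ∧
      z.2 ∈ Sb O (W \ ↑B) b (m + 1) \ Sb O (W \ ↑B) b m}).encard ≤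
        (N * (N * (2 * d)) : ℕ) := by
      refine encard_biUnion_le' ?_ ?_
      · rw [encard_coe_eq_coe_finsetCard, Finset.card_range]
      · intro m _
        by_cases hne : ∃ A : Finset (V d), A.card ≤ N ∧
            (↑A : Set (V d)) = ↑B ∪ Sb O (W \ ↑B) b m
        · obtain ⟨A, hA, hAB⟩ := hne
          refine (encard_le_encard (t := (fun z => (A, z)) '' {z : V d | ∃ a ∈ A, Adj a z})
            ?_).trans ((encard_image_le _ _).trans ((nbr_count A).trans ?_))
          · rintro ⟨A', z⟩ ⟨-, hA', hz1, hz2⟩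
            simp only at hA' hz1 hz2
            have h2 : A' = A := by
              apply Finset.coe_injective
              rw [hA', hAB]
            refine ⟨z, ?_, by rw [h2]⟩
            rcases hz1 with h3 | ⟨a, ha, hs⟩
            · exact absurd h3 hz2
            · refine ⟨a, ?_, ?_⟩
              · have h4 : a ∈ (↑A : Set (V d)) := by rw [hAB]; exact Or.inr ha
                exact_mod_cast h4
              · obtain ⟨-, -, e, -, hj⟩ := hs
                exact ⟨e, hj⟩
          · exact_mod_cast Nat.mul_le_mul_right _ hA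
        · have h2 : {z : Finset (V d) × V d | z.1.card ≤ N ∧
              (↑z.1 : Set (V d)) = ↑B ∪ Sb O (W \ ↑B) b m ∧
              z.2 ∈ Sb O (W \ ↑B) b (m + 1) \ Sb O (W \ ↑B) b m} = ∅ := by
            rw [eq_empty_iff_forall_notMem]
            rintro ⟨A', z⟩ ⟨h3, h4, -⟩
            exact hne ⟨A', h3, h4⟩
          rw [h2]
          simp
    refine (encard_union_le _ _).trans ?_
    rw [encard_singleton]
    calc (1 : ℕ∞) + _ ≤ ((1 : ℕ) : ℕ∞) + (N * (N * (2 * d)) : ℕ) := add_le_add (by simp) h1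
      _ ≤ ((4 * d + 1) * N ^ 2 : ℕ) := by
        have h3 : 1 + N * (N * (2 * d)) ≤ (4 * d + 1) * N ^ 2 := by
          have h4 : 1 ≤ N ^ 2 := Nat.one_le_pow _ _ hN
          nlinarith
        exact_mod_cast h3
  refine (encard_le_encard hsub).trans ((encard_biUnion_le' hS hT).trans ?_)
  have h3 : 3 * (2 * d + 1) * N ^ 2 * ((4 * d + 1) * N ^ 2) ≤
      3 * (2 * d + 1) * (4 * d + 1) * N ^ 4 := le_of_eq (by ring)
  exact_mod_cast h3

theorem pc_count (c : E d → ℕ) (O : Set (E d)) (W : Set (V d)) (x : V d) (N : ℕ) (hN : 1 ≤ N) :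
    {F : Finset (V d) | F.card ≤ N ∧ Pc c O W x (↑F)}.encard ≤ (3 * (2 * d + 1) * N ^ 2 : ℕ) := by
  classical
  set S : Set (Finset (V d) × V d) := {y | y.1.card ≤ N ∧ Ent c W x (↑y.1) y.2} with hSdef
  have hS : S.encard ≤ (3 * (2 * d + 1) * N ^ 2 : ℕ) := ent_count c W x N hN
  set G : Finset (V d) × V d → Set (V d) := fun y => ↑y.1 ∪ Cl O (W \ ↑y.1) y.2 with hGdef
  have hinj : InjOn (fun D : Finset (V d) => (↑D : Set (V d)))
      {F : Finset (V d) | F.card ≤ N ∧ Pc c O W x (↑F)} := by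
    intro D _ D' _ h
    exact Finset.coe_injective h
  rw [← hinj.encard_image]
  refine (encard_le_encard ?_).trans ((encard_image_le G S).trans hS)
  rintro _ ⟨F, ⟨hF, B, b, hE, hFB⟩, rfl⟩
  have hBF : B ⊆ (↑F : Set (V d)) := by rw [hFB]; exact subset_union_left
  obtain ⟨B', rfl⟩ := (F.finite_toSet.subset hBF).exists_finset_coe
  have hB'F : B' ⊆ F := by exact_mod_cast hBF
  exact ⟨(B', b), ⟨(Finset.card_le_card hB'F).trans hF, hE⟩, hFB.symm⟩

end Pool.Agent.helper55.FP
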