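import Pool.Agent.helper55.FP.NDefs
import Pool.Agent.helper55.FP.LDefs
import Pool.Agent.helper55.FP.Conn
import Pool.Agent.helper55.FP.Paths
import Pool.Agent.helper55.FP.Meas
import Pool.Agent.helper55.FP.Indep
import Pool.Agent.helper55.FP.Resample
import Pool.Agent.helper55.FP.BK
import Pool.Agent.helper55.FP.Harris
import Pool.Agent.helper55.FP.Symm
import Pool.Agent.helper55.FP.LeftCont
import Pool.Agent.helper55.FP.Sprinkle
import Pool.Agent.helper55.FP.VisLoc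
import Pool.Agent.helper55.FP.VisCount
import Pool.Agent.helper55.FP.InBall

/-! FP project, module MeetProb: the far contacts have small probability (helper71). -/

set_option autoImplicit false

open MeasureTheory Set Filter Topology
open scoped ENNReal

namespace Pool.Agent.helper55.FP

variable {d : ℕ}

namespace MeetProb_aux

/-- finite superset of the boundary -/
noncomputable def bdf (F : Finset (V d)) : Finset (V d) := by
  classical exact F.biUnion (fun a => (adj_finite a).toFinset)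

theorem bd_sub (F : Finset (V d)) : bd (↑F : Set (V d)) ⊆ ↑(bdf F) := by
  classical
  rintro b ⟨_, a, ha, hab⟩
  simp only [bdf, Finset.coe_biUnion, mem_iUnion]
  exact ⟨a, ha, by simpa using hab⟩

theorem bdf_card (F : Finset (V d)) : (bdf F).card ≤ F.card * (2 * d) := by
  classical
  unfold bdf
  apply Finset.card_biUnion_le_card_mul
  intro a _
  have h := adj_encard a
  rw [Set.Finite.encard_eq_coe_toFinset_card (adj_finite a)] at h
  exact_mod_cast h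

theorem bdf_card_real (F : Finset (V d)) (N : ℕ) (hF : F.card ≤ N) :
    ((bdf F).card : ℝ) ≤ N * (2 * d + 1) := by
  have h1 : (bdf F).card ≤ N * (2 * d + 1) :=
    (bdf_card F).trans (Nat.mul_le_mul hF (by omega))
  exact_mod_cast h1

theorem nb_finite (u : V d) (r : ℕ) : (nb u r).Finite := by
  apply (Set.finite_Icc (fun i => u i - (r : ℤ)) (fun i => u i + (r : ℤ))).subset
  intro v hv
  have h1 : ∀ i, |v i - u i| ≤ (r : ℤ) := by
    intro i
    have h2 : ‖(v - u) i‖ ≤ r := (norm_le_pi_norm (v - u) i).trans hv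
    have h3 : ‖(v - u) i‖ = ((|v i - u i| : ℤ) : ℝ) := by
      rw [Pi.sub_apply, Int.norm_eq_abs]
      push_cast
      rfl
    rw [h3] at h2
    exact_mod_cast h2
  constructor <;> intro i <;> have := abs_le.mp (h1 i) <;> simp only <;> linarith [this.1, this.2]

theorem encard_dep {α β : Type} (X : Set α) (Y : α → Set β) (n m : ℕ) (hX : X.encard ≤ n)
    (hY : ∀ a, (Y a).encard ≤ m) : {p : α × β | p.1 ∈ X ∧ p.2 ∈ Y p.1}.encard ≤ (n * m : ℕ) := by
  classical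
  have hXf : X.Finite := Set.finite_of_encard_le_coe hX
  have hYf : ∀ a, (Y a).Finite := fun a => Set.finite_of_encard_le_coe (hY a)
  have hsub : {p : α × β | p.1 ∈ X ∧ p.2 ∈ Y p.1} ⊆
      ↑(hXf.toFinset.biUnion (fun a => ((hYf a).toFinset.image (fun b => (a, b))))) := by
    rintro ⟨a, b⟩ ⟨h1, h2⟩
    simp only [Finset.coe_biUnion, mem_iUnion]
    exact ⟨a, by simpa using h1, by simpa using h2⟩
  refine (Set.encard_le_encard hsub).trans ?_
  rw [Set.encard_coe_eq_coe_finsetCard]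
  have h1 : (hXf.toFinset.biUnion (fun a => ((hYf a).toFinset.image (fun b => (a, b))))).card
      ≤ hXf.toFinset.card * m := by
    apply Finset.card_biUnion_le_card_mul
    intro a _
    refine Finset.card_image_le.trans ?_
    have := hY a
    rw [Set.Finite.encard_eq_coe_toFinset_card (hYf a)] at this
    exact_mod_cast this
  have h2 : hXf.toFinset.card ≤ n := by
    rw [Set.Finite.encard_eq_coe_toFinset_card hXf] at hX
    exact_mod_cast hX
  exact_mod_cast h1.trans (Nat.mul_le_mul_right m h2)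

/-- the visited triples -/
def vis (gF g : ℝ → ℕ) (qF q : ℝ) (xF x : V d) (N : ℕ)
    (i : Finset (V d) × Finset (V d) × V d) : Set (Cfg d) :=
  {U | (i.1.card ≤ N ∧ Pc (costE gF qF U) (op qF U) univ xF (↑i.1)) ∧
    (i.2.1.card ≤ N ∧ Vis (costE g q U) (op q U) (↑i.1)ᶜ x (↑i.2.1) i.2.2)}

def SS (i : Finset (V d) × Finset (V d) × V d) : Set (E d) := touch (↑i.1 ∪ ↑i.2.1 : Set (V d))

theorem vis_meas {gF g : ℝ → ℕ} (hgF : Monotone gF) (hg : Monotone g) (qF q : ℝ) (xF x : V d)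
    (N : ℕ) (i : Finset (V d) × Finset (V d) × V d) : MeasurableSet (vis gF g qF q xF x N i) := by
  have e : vis gF g qF q xF x N i = ({U : Cfg d | i.1.card ≤ N} ∩
      {U : Cfg d | Pc (costE gF qF U) (op qF U) univ xF (↑i.1)}) ∩
      ({U : Cfg d | i.2.1.card ≤ N} ∩
      {U : Cfg d | Vis (costE g q U) (op q U) (↑i.1)ᶜ x (↑i.2.1) i.2.2}) := rfl
  rw [e]
  exact ((MeasurableSet.const _).inter (measurableSet_pc hgF qF univ xF i.1)).inter
    ((MeasurableSet.const _).inter (measurableSet_vis hg q _ x i.2.1 i.2.2))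

theorem vis_dep (gF g : ℝ → ℕ) (qF q : ℝ) (xF x : V d)
    (N : ℕ) (i : Finset (V d) × Finset (V d) × V d) :
    DependsOn (fun U => U ∈ vis gF g qF q xF x N i) (SS i) := by
  intro U U' h
  have h1 : (fun U : Cfg d => Pc (costE gF qF U) (op qF U) univ xF (↑i.1)) U =
      (fun U : Cfg d => Pc (costE gF qF U) (op qF U) univ xF (↑i.1)) U' :=
    pc_loc gF qF univ xF (↑i.1 : Set (V d))
    (fun e he => h e (he.2.elim (fun h => Or.inl (Or.inl h)) (fun h => Or.inr (Or.inl h))))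
  have h2 : (fun U : Cfg d => Vis (costE g q U) (op q U) (↑i.1)ᶜ x (↑i.2.1) i.2.2) U =
      (fun U : Cfg d => Vis (costE g q U) (op q U) (↑i.1)ᶜ x (↑i.2.1) i.2.2) U' :=
    vis_loc g q (↑i.1)ᶜ x (↑i.2.1 : Set (V d)) i.2.2
    (fun e he => h e (he.2.elim (fun h => Or.inl (Or.inr h)) (fun h => Or.inr (Or.inr h))))
  simp only [eq_iff_iff] at h1 h2
  simp only [vis, Set.mem_ofPred_eq, eq_iff_iff]
  rw [h1, h2]

theorem vis_enc (gF g : ℝ → ℕ) (qF q : ℝ) (xF x : V d) (N : ℕ) (hN : 1 ≤ N) (U : Cfg d) :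
    {i : Finset (V d) × Finset (V d) × V d | U ∈ vis gF g qF q xF x N i}.encard ≤
      ((3 * (2 * d + 1) * N ^ 2) * (3 * (2 * d + 1) * (4 * d + 1) * N ^ 4) : ℕ) := by
  exact encard_dep _ (fun F : Finset (V d) => {y : Finset (V d) × V d | y.1.card ≤ N ∧
      Vis (costE g q U) (op q U) (↑F)ᶜ x (↑y.1) y.2}) _ _
    (pc_count (costE gF qF U) (op qF U) univ xF N hN)
    (fun F => vis_count (costE g q U) (op q U) (↑F)ᶜ x N hN)

theorem fin_of_enc {S : Set (V d)} {N : ℕ} (h : S.encard ≤ N) :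
    ∃ F : Finset (V d), (↑F : Set (V d)) = S ∧ F.card ≤ N := by
  have hf : S.Finite := Set.finite_of_encard_le_coe h
  refine ⟨hf.toFinset, by simp, ?_⟩
  rw [Set.Finite.encard_eq_coe_toFinset_card hf] at h
  exact_mod_cast h

theorem inner_sub {i : Finset (V d) × Finset (V d) × V d} {W : Set (V d)} {e : E d}
    (h : e ∈ inner ((↑i.1 ∪ ↑i.2.1)ᶜ ∩ W : Set (V d))) : e ∈ (SS i)ᶜ := by
  intro h'
  rcases h' with h' | h'
  · exact h.1.1 h'
  · exact h.2.1 h'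

/-! ### event A -/

def HA (p : ℝ) (r N : ℕ) (i : Finset (V d) × Finset (V d) × V d) : Set (Cfg d) :=
  {U | i.1.card ≤ N ∧ ∃ u ∈ bd (↑i.1 : Set (V d)), (r : ℝ) < ‖i.2.2 - u‖ ∧
    Conn (op p U) ((↑i.1 ∪ ↑i.2.1)ᶜ ∩ (nb u r ∪ {i.2.2})) i.2.2 u}

theorem HA_meas (p : ℝ) (r N : ℕ) (i : Finset (V d) × Finset (V d) × V d) :
    MeasurableSet (HA p r N i) := by
  have e : HA p r N i = {U : Cfg d | i.1.card ≤ N} ∩ ⋃ u ∈ bd (↑i.1 : Set (V d)),
      ({U : Cfg d | (r : ℝ) < ‖i.2.2 - u‖} ∩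
      {U : Cfg d | Conn (op p U) ((↑i.1 ∪ ↑i.2.1)ᶜ ∩ (nb u r ∪ {i.2.2})) i.2.2 u}) := by
    ext U
    simp only [HA, Set.mem_ofPred_eq, mem_inter_iff, mem_iUnion, exists_prop]
  rw [e]
  apply (MeasurableSet.const _).inter
  apply MeasurableSet.biUnion (Set.to_countable _)
  intro u _
  exact (MeasurableSet.const _).inter (measurableSet_conn _ _ _ _)

theorem HA_dep (p : ℝ) (r N : ℕ) (i : Finset (V d) × Finset (V d) × V d) :
    DependsOn (fun U => U ∈ HA p r N i) (SS i)ᶜ := by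
  have key : ∀ U U' : Cfg d, (∀ e ∈ (SS i)ᶜ, U e = U' e) → U ∈ HA p r N i → U' ∈ HA p r N i := by
    rintro U U' h ⟨h1, u, hu, h2, h3⟩
    exact ⟨h1, u, hu, h2, conn_congr (fun e he => h e (inner_sub he)) h3⟩
  intro U U' h
  simp only [eq_iff_iff]
  exact ⟨key U U' h, key U' U (fun e he => (h e he).symm)⟩

theorem HA_prob {p B : ℝ} {r N : ℕ} (hB : 0 ≤ B)
    (hb : ∀ (W : Set (V d)) (z u : V d), (r : ℝ) < ‖z - u‖ → tauW p (W ∩ (nb u r ∪ {z})) z u ≤ B)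
    (i : Finset (V d) × Finset (V d) × V d) :
    (P d).real (HA p r N i) ≤ N * (2 * d + 1) * B := by
  classical
  by_cases hc : i.1.card ≤ N
  · have hsub : HA p r N i ⊆ ⋃ u ∈ bdf i.1, {U : Cfg d | (r : ℝ) < ‖i.2.2 - u‖ ∧
        Conn (op p U) ((↑i.1 ∪ ↑i.2.1)ᶜ ∩ (nb u r ∪ {i.2.2})) i.2.2 u} := by
      rintro U ⟨_, u, hu, h2, h3⟩
      simp only [mem_iUnion]
      exact ⟨u, bd_sub _ hu, h2, h3⟩
    refine (measureReal_mono hsub (measure_ne_top _ _)).trans ?_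
    refine (measureReal_biUnion_finset_le _ _).trans ?_
    have h1 : ∀ u ∈ bdf i.1, (P d).real {U : Cfg d | (r : ℝ) < ‖i.2.2 - u‖ ∧
        Conn (op p U) ((↑i.1 ∪ ↑i.2.1)ᶜ ∩ (nb u r ∪ {i.2.2})) i.2.2 u} ≤ B := by
      intro u _
      by_cases hr : (r : ℝ) < ‖i.2.2 - u‖
      · refine le_trans ?_ (hb ((↑i.1 ∪ ↑i.2.1)ᶜ) i.2.2 u hr)
        unfold tauW
        apply measureReal_mono _ (measure_ne_top _ _)
        rintro U ⟨_, h⟩
        exact h
      · have : {U : Cfg d | (r : ℝ) < ‖i.2.2 - u‖ ∧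
          Conn (op p U) ((↑i.1 ∪ ↑i.2.1)ᶜ ∩ (nb u r ∪ {i.2.2})) i.2.2 u} = ∅ := by
          ext U
          simp only [Set.mem_ofPred_eq, mem_empty_iff_false, iff_false, not_and]
          intro h
          exact absurd h hr
        rw [this]
        simpa using hB
    refine (Finset.sum_le_sum h1).trans ?_
    rw [Finset.sum_const, nsmul_eq_mul]
    exact mul_le_mul_of_nonneg_right (bdf_card_real _ _ hc) hB
  · have : HA p r N i = ∅ := by
      ext U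
      simp only [HA, Set.mem_ofPred_eq, mem_empty_iff_false, iff_false, not_and]
      intro h
      exact absurd h hc
    rw [this]
    simp only [measureReal_empty]
    positivity

/-! ### event B -/

def HBu (p₁ p₂ : ℝ) (r r' : ℕ) (i : Finset (V d) × Finset (V d) × V d) (u b : V d) :
    Set (Cfg d) :=
  {U | (r' : ℝ) < ‖i.2.2 - b‖ ∧
    ∃ K ∈ cw ((↑i.1 ∪ ↑i.2.1)ᶜ ∩ (nb b r' ∪ {i.2.2})) i.2.2 b,
      ∃ L ∈ cw ((↑i.1 ∪ ↑i.2.1)ᶜ ∩ nb u r) b u, Disjoint K L ∧ (∀ e ∈ K, U e ≤ p₂) ∧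
        (∀ e ∈ L, U e ≤ p₁)}

def HB (p₁ p₂ : ℝ) (r r' N : ℕ) (i : Finset (V d) × Finset (V d) × V d) : Set (Cfg d) :=
  {U | i.1.card ≤ N ∧ ∃ u ∈ bd (↑i.1 : Set (V d)), ∃ b, U ∈ HBu p₁ p₂ r r' i u b}

theorem HBu_meas (p₁ p₂ : ℝ) (r r' : ℕ) (i : Finset (V d) × Finset (V d) × V d) (u b : V d) :
    MeasurableSet (HBu p₁ p₂ r r' i u b) := by
  have e : HBu p₁ p₂ r r' i u b = {U : Cfg d | (r' : ℝ) < ‖i.2.2 - b‖} ∩
      ⋃ K ∈ cw ((↑i.1 ∪ ↑i.2.1)ᶜ ∩ (nb b r' ∪ {i.2.2})) i.2.2 b,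
      ⋃ L ∈ cw ((↑i.1 ∪ ↑i.2.1)ᶜ ∩ nb u r) b u,
      ({U : Cfg d | Disjoint K L} ∩ ((⋂ e ∈ K, {U : Cfg d | U e ≤ p₂}) ∩
        (⋂ e ∈ L, {U : Cfg d | U e ≤ p₁}))) := by
    ext U
    simp only [HBu, Set.mem_ofPred_eq, mem_inter_iff, mem_iUnion, mem_iInter, exists_prop]
  rw [e]
  apply (MeasurableSet.const _).inter
  apply MeasurableSet.biUnion (Set.to_countable _)
  intro K _
  apply MeasurableSet.biUnion (Set.to_countable _)
  intro L _
  apply (MeasurableSet.const _).inter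
  apply MeasurableSet.inter
  · exact Finset.measurableSet_biInter K (fun e _ => measurableSet_le (measurable_pi_apply e) measurable_const)
  · exact Finset.measurableSet_biInter L (fun e _ => measurableSet_le (measurable_pi_apply e) measurable_const)

theorem HB_meas (p₁ p₂ : ℝ) (r r' N : ℕ) (i : Finset (V d) × Finset (V d) × V d) :
    MeasurableSet (HB p₁ p₂ r r' N i) := by
  have e : HB p₁ p₂ r r' N i = {U : Cfg d | i.1.card ≤ N} ∩ ⋃ u ∈ bd (↑i.1 : Set (V d)),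
      ⋃ b, HBu p₁ p₂ r r' i u b := by
    ext U
    simp only [HB, Set.mem_ofPred_eq, mem_inter_iff, mem_iUnion, exists_prop]
  rw [e]
  apply (MeasurableSet.const _).inter
  apply MeasurableSet.biUnion (Set.to_countable _)
  intro u _
  exact MeasurableSet.iUnion (fun b => HBu_meas _ _ _ _ _ _ _)

/-- a witness may be restricted to the edges inside the region -/
theorem cw_filter {W : Set (V d)} {a b : V d} {K K' : Finset (E d)} (h : K ∈ cw W a b)
    (hK : ∀ e ∈ K, e ∈ inner W → e ∈ K') : K' ∈ cw W a b := by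
  have hle : Step (↑K : Set (E d)) W ≤ Step (↑K' : Set (E d)) W := by
    rintro x y ⟨hx, hy, e, he, hj⟩
    refine ⟨hx, hy, e, hK e he ?_, hj⟩
    rcases hj with ⟨h1, h2⟩ | ⟨h1, h2⟩
    · exact ⟨h1 ▸ hx, h2 ▸ hy⟩
    · exact ⟨h1 ▸ hy, h2 ▸ hx⟩
  exact ⟨h.1, Relation.ReflTransGen.mono hle _ _ h.2⟩

theorem HB_dep (p₁ p₂ : ℝ) (r r' N : ℕ) (i : Finset (V d) × Finset (V d) × V d) :
    DependsOn (fun U => U ∈ HB p₁ p₂ r r' N i) (SS i)ᶜ := by
  classical
  have key : ∀ U U' : Cfg d, (∀ e ∈ (SS i)ᶜ, U e = U' e) → U ∈ HB p₁ p₂ r r' N i →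
      U' ∈ HB p₁ p₂ r r' N i := by
    rintro U U' h ⟨h1, u, hu, b, h2, K, hK, L, hL, hKL, h3, h4⟩
    refine ⟨h1, u, hu, b, h2, K.filter (fun e => e ∈ (SS i)ᶜ),
      cw_filter hK (fun e he he' => Finset.mem_filter.mpr ⟨he, inner_sub he'⟩),
      L.filter (fun e => e ∈ (SS i)ᶜ),
      cw_filter hL (fun e he he' => Finset.mem_filter.mpr ⟨he, inner_sub he'⟩),
      Disjoint.mono (Finset.filter_subset _ _) (Finset.filter_subset _ _) hKL, ?_, ?_⟩
    · intro e he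
      rw [Finset.mem_filter] at he
      rw [← h e he.2]
      exact h3 e he.1
    · intro e he
      rw [Finset.mem_filter] at he
      rw [← h e he.2]
      exact h4 e he.1
  intro U U' h
  simp only [eq_iff_iff]
  exact ⟨key U U' h, key U' U (fun e he => (h e he).symm)⟩

theorem HB_prob {p₁ p₂ B B' : ℝ} {r r' N : ℕ} (hB : 0 ≤ B)
    (hb : ∀ (W : Set (V d)) (z u : V d), (r' : ℝ) < ‖z - u‖ →
      tauW p₂ (W ∩ (nb u r' ∪ {z})) z u ≤ B)
    (hb' : ∀ (W : Set (V d)) (u : V d) (F : Finset (V d)), W ⊆ nb u r → ∑ v ∈ F, tauW p₁ W v u ≤ B')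
    (i : Finset (V d) × Finset (V d) × V d) :
    (P d).real (HB p₁ p₂ r r' N i) ≤ N * (2 * d + 1) * (B * B') := by
  classical
  have hB' : 0 ≤ B' := by
    have := hb' ∅ 0 ∅ (empty_subset _)
    simpa using this
  by_cases hc : i.1.card ≤ N
  · have hsub : HB p₁ p₂ r r' N i ⊆ ⋃ u ∈ bdf i.1, ⋃ b ∈ (nb_finite u r).toFinset,
        HBu p₁ p₂ r r' i u b := by
      rintro U ⟨_, u, hu, b, h2⟩
      simp only [mem_iUnion]
      refine ⟨u, bd_sub _ hu, b, ?_, h2⟩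
      obtain ⟨_, K, _, L, hL, _⟩ := h2
      rw [Set.Finite.mem_toFinset]
      exact hL.1.2
    refine (measureReal_mono hsub (measure_ne_top _ _)).trans ?_
    refine (measureReal_biUnion_finset_le _ _).trans ?_
    have h1 : ∀ u ∈ bdf i.1, (P d).real (⋃ b ∈ (nb_finite u r).toFinset,
        HBu p₁ p₂ r r' i u b) ≤ B * B' := by
      intro u _
      refine (measureReal_biUnion_finset_le _ _).trans ?_
      have h2 : ∀ b ∈ (nb_finite u r).toFinset, (P d).real (HBu p₁ p₂ r r' i u b) ≤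
          B * tauW p₁ ((↑i.1 ∪ ↑i.2.1)ᶜ ∩ nb u r) b u := by
        intro b _
        have ht : 0 ≤ tauW p₁ ((↑i.1 ∪ ↑i.2.1)ᶜ ∩ nb u r) b u := measureReal_nonneg
        by_cases hr : (r' : ℝ) < ‖i.2.2 - b‖
        · have h3 := bk p₂ p₁ (cw ((↑i.1 ∪ ↑i.2.1)ᶜ ∩ (nb b r' ∪ {i.2.2})) i.2.2 b)
            (cw ((↑i.1 ∪ ↑i.2.1)ᶜ ∩ nb u r) b u)
          have h4 : (P d).real (HBu p₁ p₂ r r' i u b) ≤
              (P d).real {U : Cfg d | ∃ K ∈ cw ((↑i.1 ∪ ↑i.2.1)ᶜ ∩ (nb b r' ∪ {i.2.2})) i.2.2 b,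
                ∃ L ∈ cw ((↑i.1 ∪ ↑i.2.1)ᶜ ∩ nb u r) b u, Disjoint K L ∧ (∀ e ∈ K, U e ≤ p₂) ∧
                  (∀ e ∈ L, U e ≤ p₁)} := by
            apply measureReal_mono _ (measure_ne_top _ _)
            rintro U ⟨_, h⟩
            exact h
          have h5 : (P d).real (Ev p₂ (cw ((↑i.1 ∪ ↑i.2.1)ᶜ ∩ (nb b r' ∪ {i.2.2})) i.2.2 b)) ≤ B := by
            refine le_trans (le_of_eq ?_) (hb ((↑i.1 ∪ ↑i.2.1)ᶜ) i.2.2 b hr)
            unfold tauW
            congr 1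
            ext U
            exact conn_op_iff.symm
          have h6 : (P d).real (Ev p₁ (cw ((↑i.1 ∪ ↑i.2.1)ᶜ ∩ nb u r) b u)) =
              tauW p₁ ((↑i.1 ∪ ↑i.2.1)ᶜ ∩ nb u r) b u := by
            unfold tauW
            congr 1
            ext U
            exact conn_op_iff.symm
          refine h4.trans (h3.trans ?_)
          rw [h6]
          exact mul_le_mul_of_nonneg_right h5 ht
        · have : HBu p₁ p₂ r r' i u b = ∅ := by
            ext U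
            simp only [HBu, Set.mem_ofPred_eq, mem_empty_iff_false, iff_false, not_and]
            intro h
            exact absurd h hr
          rw [this]
          simp only [measureReal_empty]
          positivity
      refine (Finset.sum_le_sum h2).trans ?_
      rw [← Finset.mul_sum]
      exact mul_le_mul_of_nonneg_left (hb' _ u _ inter_subset_right) hB
    refine (Finset.sum_le_sum h1).trans ?_
    rw [Finset.sum_const, nsmul_eq_mul]
    exact mul_le_mul_of_nonneg_right (bdf_card_real _ _ hc) (by positivity)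
  · have : HB p₁ p₂ r r' N i = ∅ := by
      ext U
      simp only [HB, Set.mem_ofPred_eq, mem_empty_iff_false, iff_false, not_and]
      intro h
      exact absurd h hc
    rw [this]
    simp only [measureReal_empty]
    positivity

end MeetProb_aux

open MeetProb_aux

/-! ## FILE MeetProb (F3), NearProb (F4) -/

theorem meetA_prob {a : ℕ} {pc : ℝ} (h : HD d a pc) : ∃ C > 0, ∃ δ₀ > 0, ∀ δ, 0 < δ → δ ≤ δ₀ →
    ∀ r : ℕ, 1 ≤ r → (r : ℝ) ^ 4 * δ ≤ 1 → ∀ (gF g : ℝ → ℕ), Monotone gF → Monotone g →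
    (∀ u, 1 ≤ gF u) → (∀ u, 1 ≤ g u) → ∀ (qF q : ℝ) (xF x : V d) (N : ℕ), 1 ≤ N →
    (P d).real {U : Cfg d | MeetA (costE gF qF U) (op qF U) xF (costE g q U) (op q U) x
      (op (pc + δ) U) r N} ≤ C * (N : ℝ) ^ 7 / (1 + (r : ℝ)) ^ a := by
  obtain ⟨C, hC, δ₀, hδ₀, hfar⟩ := inball_far h
  refine ⟨9 * (2 * d + 1) ^ 3 * (4 * d + 1) * C, by positivity, δ₀, hδ₀, ?_⟩
  intro δ hδ hδ' r hr hrδ gF g hgF hg _ _ qF q xF x N hN
  have hB : 0 ≤ C / (1 + (r : ℝ)) ^ a := by positivity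
  have hb := hfar δ hδ hδ' r hr hrδ
  have h1 := markov_union (vis gF g qF q xF x N) (HA (pc + δ) r N) SS
    (vis_meas hgF hg qF q xF x N) (HA_meas (pc + δ) r N) (vis_dep gF g qF q xF x N)
    (HA_dep (pc + δ) r N) _ (N * (2 * d + 1) * (C / (1 + (r : ℝ)) ^ a))
    (vis_enc gF g qF q xF x N hN) (HA_prob hB hb) (by positivity)
  have hsub : {U : Cfg d | MeetA (costE gF qF U) (op qF U) xF (costE g q U) (op q U) x
      (op (pc + δ) U) r N} ⊆ ⋃ i, vis gF g qF q xF x N i ∩ HA (pc + δ) r N i := by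
    rintro U ⟨F, hF, hFN, u, hu, A, z, hA, hAN, hz, hconn⟩
    obtain ⟨F, rfl, hFc⟩ := fin_of_enc hFN
    obtain ⟨A, rfl, hAc⟩ := fin_of_enc hAN
    simp only [mem_iUnion]
    exact ⟨(F, A, z), ⟨⟨hFc, hF⟩, ⟨hAc, hA⟩⟩, hFc, u, hu, hz, hconn⟩
  refine (measureReal_mono hsub (measure_ne_top _ _)).trans (h1.trans (le_of_eq ?_))
  push_cast
  ring

theorem meetB_prob {a : ℕ} {pc : ℝ} (h : HD d a pc) : ∃ C > 0, ∃ δ₀ > 0, ∀ δ₁ δ₂, 0 < δ₁ →
    0 < δ₂ → δ₁ ≤ δ₀ → δ₂ ≤ δ₀ → ∀ r r' : ℕ, 1 ≤ r → 1 ≤ r' → (r : ℝ) ^ 4 * δ₁ ≤ 1 →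
    (r' : ℝ) ^ 4 * δ₂ ≤ 1 → ∀ (gF g : ℝ → ℕ), Monotone gF → Monotone g →
    (∀ u, 1 ≤ gF u) → (∀ u, 1 ≤ g u) → ∀ (qF q : ℝ) (xF x : V d) (N : ℕ), 1 ≤ N →
    (P d).real {U : Cfg d | MeetB (costE gF qF U) (op qF U) xF (costE g q U) (op q U) x
      (op (pc + δ₁) U) (op (pc + δ₂) U) r r' N} ≤
      C * (N : ℝ) ^ 7 * (r : ℝ) ^ 2 / (1 + (r' : ℝ)) ^ a := by
  obtain ⟨C, hC, δ₀, hδ₀, hfar⟩ := inball_far h
  obtain ⟨C', hC', δ₀', hδ₀', hin⟩ := inball h
  refine ⟨9 * (2 * d + 1) ^ 3 * (4 * d + 1) * (C * C'), by positivity, min δ₀ δ₀',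
    lt_min hδ₀ hδ₀', ?_⟩
  intro δ₁ δ₂ hδ₁ hδ₂ hδ₁' hδ₂' r r' hr hr' hrδ hrδ' gF g hgF hg _ _ qF q xF x N hN
  have hB : 0 ≤ C / (1 + (r' : ℝ)) ^ a := by positivity
  have hb := hfar δ₂ hδ₂ (hδ₂'.trans (min_le_left _ _)) r' hr' hrδ'
  have hb' : ∀ (W : Set (V d)) (u : V d) (F : Finset (V d)), W ⊆ nb u r →
      ∑ v ∈ F, tauW (pc + δ₁) W v u ≤ C' * (r : ℝ) ^ 2 := by
    intro W u F hW
    refine (hin δ₁ hδ₁ (hδ₁'.trans (min_le_right _ _)) r hr hrδ u W ?_ u).2 F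
    intro v hv
    have := hW hv
    simp only [nb, Set.mem_ofPred_eq] at this ⊢
    push_cast
    linarith
  have h1 := markov_union (vis gF g qF q xF x N) (HB (pc + δ₁) (pc + δ₂) r r' N) SS
    (vis_meas hgF hg qF q xF x N) (HB_meas (pc + δ₁) (pc + δ₂) r r' N)
    (vis_dep gF g qF q xF x N)
    (HB_dep (pc + δ₁) (pc + δ₂) r r' N) _
    (N * (2 * d + 1) * (C / (1 + (r' : ℝ)) ^ a * (C' * (r : ℝ) ^ 2)))
    (vis_enc gF g qF q xF x N hN) (HB_prob hB hb hb') (by positivity)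
  have hsub : {U : Cfg d | MeetB (costE gF qF U) (op qF U) xF (costE g q U) (op q U) x
      (op (pc + δ₁) U) (op (pc + δ₂) U) r r' N} ⊆
      ⋃ i, vis gF g qF q xF x N i ∩ HB (pc + δ₁) (pc + δ₂) r r' N i := by
    rintro U ⟨F, hF, hFN, u, hu, A, z, hA, hAN, b, hz, K, hK, L, hL, hKL, hKo, hLo⟩
    obtain ⟨F, rfl, hFc⟩ := fin_of_enc hFN
    obtain ⟨A, rfl, hAc⟩ := fin_of_enc hAN
    simp only [mem_iUnion]
    exact ⟨(F, A, z), ⟨⟨hFc, hF⟩, ⟨hAc, hA⟩⟩, hFc, u, hu, b, hz, K, hK, L, hL, hKL,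
      fun e he => hKo he, fun e he => hLo he⟩
  refine (measureReal_mono hsub (measure_ne_top _ _)).trans (h1.trans (le_of_eq ?_))
  push_cast
  ring

end Pool.Agent.helper55.FP
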