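import Pool.Agent.helper55.FP.NDefs
import Pool.Agent.helper55.FP.LDefs
import Pool.Agent.helper55.FP.Conn
import Pool.Agent.helper55.FP.Paths
import Pool.Agent.helper55.FP.Meas
import Pool.Agent.helper55.FP.Indep
import Pool.Agent.helper55.FP.Resample
import Pool.Agent.helper55.FP.BK
import Pool.Agent.helper55.FP.Harris
import Pool.Agent.helper55.FP.Symm
import Pool.Agent.helper55.FP.LeftCont
import Pool.Agent.helper55.FP.Sprinkle
import Pool.Agent.helper55.FP.Balls
import Pool.Agent.helper55.FP.BallLoc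

/-!
# FP project, module VisLoc: locality and measurability of the exploration
-/

set_option autoImplicit false

open MeasureTheory Set Filter Topology
open scoped ENNReal

namespace Pool.Agent.helper55.FP

variable {d : ℕ}

/-! ## FILE VisLoc (F2) : locality, measurability and counting -/

private theorem ent_mem {c : E d → ℕ} {W : Set (V d)} {x : V d} {B : Set (V d)} {b : V d}
    (h : Ent c W x B b) : b ∈ W \ B := by
  rcases h with ⟨hB, hb, hx⟩ | ⟨t, hB, hb, ha⟩
  · subst hB; subst hb; exact ⟨hx, fun h => h.elim⟩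
  · exact hb

private theorem bl_nonempty_mem {c : E d → ℕ} {W : Set (V d)} {x a : V d} {t : ℕ}
    (h : a ∈ Bl c W x t) : x ∈ W := by
  obtain ⟨n, w, e, hw, h0, -, -⟩ := h
  rw [← h0]
  exact hw.1 0 (Nat.zero_le _)

private theorem ent_congr {g : ℝ → ℕ} {q : ℝ} {W : Set (V d)} {x : V d} {B D : Set (V d)} {b : V d}
    (hBD : B ⊆ D) {U U' : Cfg d} (h : ∀ e ∈ inner W ∩ touch D, U e = U' e)
    (hE : Ent (costE g q U) W x B b) : Ent (costE g q U') W x B b := by
  rcases hE with h1 | ⟨t, hB, hb, a, ha, hab⟩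
  · exact Or.inl h1
  · refine Or.inr ⟨t, ?_, hb, a, ha, hab⟩
    have hx : x ∈ W := bl_nonempty_mem (hB ▸ ha)
    refine (bl_eq_of_agree (c := costE g q U) (c' := costE g q U') ?_ hB.symm hx).symm
    intro e he
    have he' : e ∈ inner W ∩ touch D :=
      ⟨he.1, he.2.elim (fun h => Or.inl (hBD h)) (fun h => Or.inr (hBD h))⟩
    show cost g q (U e) = cost g q (U' e)
    rw [h e he']

theorem ent_loc (g : ℝ → ℕ) (q : ℝ) (W : Set (V d)) (x : V d) (B : Set (V d)) (b : V d) :
    DependsOn (fun U : Cfg d => Ent (costE g q U) W x B b) (inner W ∩ touch B) := by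
  intro U U' h
  exact propext ⟨fun hE => ent_congr subset_rfl h hE,
    fun hE => ent_congr subset_rfl (fun e he => (h e he).symm) hE⟩

private theorem sb_mono_succ (O : Set (E d)) (W : Set (V d)) (b : V d) (m : ℕ) :
    Sb O W b m ⊆ Sb O W b (m + 1) := by
  intro v hv
  exact Or.inl hv

private theorem sb_mono (O : Set (E d)) (W : Set (V d)) (b : V d) {m n : ℕ} (h : m ≤ n) :
    Sb O W b m ⊆ Sb O W b n := by
  induction h with
  | refl => exact subset_rfl
  | step _ ih => exact ih.trans (sb_mono_succ O W b _)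

private theorem sb_congr {q : ℝ} {W D : Set (V d)} {b : V d} {U U' : Cfg d}
    (h : ∀ e ∈ inner W ∩ touch D, U e = U' e) (m : ℕ) (hm : Sb (op q U) W b m ⊆ D) :
    ∀ j ≤ m + 1, Sb (op q U') W b j = Sb (op q U) W b j := by
  intro j
  induction j with
  | zero => intro _; rfl
  | succ j ih =>
    intro hj
    have ih' := ih (by omega)
    have hjD : Sb (op q U) W b j ⊆ D := (sb_mono _ _ _ (by omega)).trans hm
    have key : ∀ (Z Z' : Cfg d), (∀ e ∈ inner W ∩ touch D, Z e = Z' e) → ∀ x y : V d, x ∈ D →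
        Step (op q Z) W x y → Step (op q Z') W x y := by
      rintro Z Z' hZ x y hxD ⟨hx, hy, e, he, hj⟩
      refine ⟨hx, hy, e, ?_, hj⟩
      have hin : e ∈ inner W ∩ touch D := by
        rcases hj with ⟨h1, h2⟩ | ⟨h1, h2⟩
        · exact ⟨⟨h1 ▸ hx, h2 ▸ hy⟩, Or.inl (h1 ▸ hxD)⟩
        · exact ⟨⟨h1 ▸ hy, h2 ▸ hx⟩, Or.inr (h2 ▸ hxD)⟩
      show Z' e ≤ q
      rw [← hZ e hin]
      exact he
    ext v
    show (v ∈ Sb (op q U') W b j ∨ ∃ a ∈ Sb (op q U') W b j, Step (op q U') W a v) ↔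
      (v ∈ Sb (op q U) W b j ∨ ∃ a ∈ Sb (op q U) W b j, Step (op q U) W a v)
    rw [ih']
    constructor
    · rintro (h1 | ⟨a, ha, hs⟩)
      · exact Or.inl h1
      · exact Or.inr ⟨a, ha, key U' U (fun e he => (h e he).symm) a v (hjD ha) hs⟩
    · rintro (h1 | ⟨a, ha, hs⟩)
      · exact Or.inl h1
      · exact Or.inr ⟨a, ha, key U U' h a v (hjD ha) hs⟩

private theorem vis_congr {g : ℝ → ℕ} {q : ℝ} {W : Set (V d)} {x : V d} {A : Set (V d)} {z : V d}
    {U U' : Cfg d} (h : ∀ e ∈ inner W ∩ touch A, U e = U' e)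
    (hV : Vis (costE g q U) (op q U) W x A z) : Vis (costE g q U') (op q U') W x A z := by
  obtain ⟨B, b, hE, hcase⟩ := hV
  rcases hcase with ⟨hA, hz⟩ | ⟨m, hA, hz⟩
  · subst hA
    exact ⟨A, b, ent_congr subset_rfl h hE, Or.inl ⟨rfl, hz⟩⟩
  · have hBA : B ⊆ A := by rw [hA]; exact subset_union_left
    have hSA : Sb (op q U) (W \ B) b m ⊆ A := by rw [hA]; exact subset_union_right
    have h' : ∀ e ∈ inner (W \ B) ∩ touch A, U e = U' e := fun e he =>
      h e ⟨⟨he.1.1.1, he.1.2.1⟩, he.2⟩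
    have hS := sb_congr h' m hSA
    refine ⟨B, b, ent_congr hBA h hE, Or.inr ⟨m, ?_, ?_⟩⟩
    · rw [hS m (by omega)]; exact hA
    · rw [hS m (by omega), hS (m + 1) le_rfl]; exact hz

theorem vis_loc (g : ℝ → ℕ) (q : ℝ) (W : Set (V d)) (x : V d) (A : Set (V d)) (z : V d) :
    DependsOn (fun U : Cfg d => Vis (costE g q U) (op q U) W x A z) (inner W ∩ touch A) := by
  intro U U' h
  exact propext ⟨fun hV => vis_congr h hV, fun hV => vis_congr (fun e he => (h e he).symm) hV⟩

private theorem pc_congr {g : ℝ → ℕ} {q : ℝ} {W : Set (V d)} {x : V d} {F : Set (V d)}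
    {U U' : Cfg d} (h : ∀ e ∈ inner W ∩ touch F, U e = U' e)
    (hP : Pc (costE g q U) (op q U) W x F) : Pc (costE g q U') (op q U') W x F := by
  obtain ⟨B, b, hE, hF⟩ := hP
  have hBF : B ⊆ F := by rw [hF]; exact subset_union_left
  have hCF : Cl (op q U) (W \ B) b ⊆ F := by rw [hF]; exact subset_union_right
  refine ⟨B, b, ent_congr hBF h hE, ?_⟩
  rw [cl_eq_congr (p := q) (W := W \ B) (D := Cl (op q U) (W \ B) b) (ent_mem hE)
    (U := U) (U' := U') ?_ rfl]
  · exact hF
  · intro e he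
    exact h e ⟨⟨he.1.1.1, he.1.2.1⟩, he.2.elim (fun h => Or.inl (hCF h)) (fun h => Or.inr (hCF h))⟩

theorem pc_loc (g : ℝ → ℕ) (q : ℝ) (W : Set (V d)) (x : V d) (F : Set (V d)) :
    DependsOn (fun U : Cfg d => Pc (costE g q U) (op q U) W x F) (inner W ∩ touch F) := by
  intro U U' h
  exact propext ⟨fun hP => pc_congr h hP, fun hP => pc_congr (fun e he => (h e he).symm) hP⟩

private theorem measurableSet_ent' {g : ℝ → ℕ} (hg : Monotone g) (q : ℝ) (W : Set (V d)) (x : V d)
    (B : Set (V d)) (b : V d) :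
    MeasurableSet {U : Cfg d | Ent (costE g q U) W x B b} := by
  have h : {U : Cfg d | Ent (costE g q U) W x B b} =
      {U : Cfg d | B = ∅ ∧ b = x ∧ x ∈ W} ∪ ⋃ t : ℕ, ({U : Cfg d | Bl (costE g q U) W x t = B} ∩
        {U : Cfg d | b ∈ W \ B ∧ ∃ a ∈ B, Adj a b}) := by
    ext U
    simp only [mem_union, mem_iUnion, mem_inter_iff, mem_ofPred_eq]
    constructor
    · rintro (h1 | ⟨t, hB, hb, ha⟩)
      · exact Or.inl h1
      · exact Or.inr ⟨t, hB.symm, hb, ha⟩
    · rintro (h1 | ⟨t, hB, hb, ha⟩)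
      · exact Or.inl h1
      · exact Or.inr ⟨t, hB.symm, hb, ha⟩
  rw [h]
  refine MeasurableSet.union (MeasurableSet.const _) (MeasurableSet.iUnion fun t => ?_)
  exact (measurableSet_bl_eq hg q W B x t).inter (MeasurableSet.const _)

theorem measurableSet_ent {g : ℝ → ℕ} (hg : Monotone g) (q : ℝ) (W : Set (V d)) (x : V d)
    (B : Finset (V d)) (b : V d) :
    MeasurableSet {U : Cfg d | Ent (costE g q U) W x (↑B) b} :=
  measurableSet_ent' hg q W x (↑B) b

private theorem measurableSet_step (q : ℝ) (W : Set (V d)) (a b : V d) :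
    MeasurableSet {U : Cfg d | Step (op q U) W a b} := by
  have h : {U : Cfg d | Step (op q U) W a b} =
      {U : Cfg d | a ∈ W ∧ b ∈ W} ∩ ⋃ e : E d, ({U : Cfg d | U e ≤ q} ∩
        {U : Cfg d | Joins e a b}) := by
    ext U
    simp only [mem_inter_iff, mem_iUnion, mem_ofPred_eq]
    constructor
    · rintro ⟨ha, hb, e, he, hj⟩
      exact ⟨⟨ha, hb⟩, e, he, hj⟩
    · rintro ⟨⟨ha, hb⟩, e, he, hj⟩
      exact ⟨ha, hb, e, he, hj⟩
  rw [h]
  refine (MeasurableSet.const _).inter (MeasurableSet.iUnion fun e => ?_)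
  exact (measurableSet_le (measurable_pi_apply e) measurable_const).inter (MeasurableSet.const _)

private theorem measurableSet_sb (q : ℝ) (W : Set (V d)) (b : V d) (m : ℕ) (v : V d) :
    MeasurableSet {U : Cfg d | v ∈ Sb (op q U) W b m} := by
  induction m generalizing v with
  | zero => exact MeasurableSet.const _
  | succ m ih =>
    have h : {U : Cfg d | v ∈ Sb (op q U) W b (m + 1)} =
        {U : Cfg d | v ∈ Sb (op q U) W b m} ∪ ⋃ a : V d, ({U : Cfg d | a ∈ Sb (op q U) W b m} ∩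
          {U : Cfg d | Step (op q U) W a v}) := by
      ext U
      simp only [mem_union, mem_iUnion, mem_inter_iff, mem_ofPred_eq]
      rfl
    rw [h]
    exact (ih v).union (MeasurableSet.iUnion fun a => (ih a).inter (measurableSet_step q W a v))

private theorem measurableSet_set_eq {f : Cfg d → Set (V d)}
    (hf : ∀ v, MeasurableSet {U : Cfg d | v ∈ f U}) (D : Set (V d)) :
    MeasurableSet {U : Cfg d | D = f U} := by
  classical
  have h : {U : Cfg d | D = f U} = ⋂ v : V d, {U : Cfg d | v ∈ D ↔ v ∈ f U} := by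
    ext U
    simp only [mem_iInter, mem_ofPred_eq]
    exact Set.ext_iff
  rw [h]
  refine MeasurableSet.iInter fun v => ?_
  by_cases hv : v ∈ D
  · have : {U : Cfg d | v ∈ D ↔ v ∈ f U} = {U : Cfg d | v ∈ f U} := by
      ext U; simp [hv]
    rw [this]
    exact hf v
  · have : {U : Cfg d | v ∈ D ↔ v ∈ f U} = {U : Cfg d | v ∈ f U}ᶜ := by
      ext U; simp [hv]
    rw [this]
    exact (hf v).compl

private theorem measurableSet_mem_union {f : Cfg d → Set (V d)} (B : Set (V d)) (v : V d)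
    (hf : MeasurableSet {U : Cfg d | v ∈ f U}) : MeasurableSet {U : Cfg d | v ∈ B ∪ f U} := by
  have h : {U : Cfg d | v ∈ B ∪ f U} = {U : Cfg d | v ∈ B} ∪ {U : Cfg d | v ∈ f U} := rfl
  rw [h]
  exact (MeasurableSet.const _).union hf

theorem measurableSet_vis {g : ℝ → ℕ} (hg : Monotone g) (q : ℝ) (W : Set (V d)) (x : V d)
    (A : Finset (V d)) (z : V d) :
    MeasurableSet {U : Cfg d | Vis (costE g q U) (op q U) W x (↑A) z} := by
  classical
  have h : {U : Cfg d | Vis (costE g q U) (op q U) W x (↑A) z} =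
      ⋃ B : Finset (V d), ⋃ b : V d, ({U : Cfg d | Ent (costE g q U) W x (↑B) b} ∩
        ({U : Cfg d | (↑A : Set (V d)) = ↑B ∧ z = b} ∪ ⋃ m : ℕ,
          ({U : Cfg d | (↑A : Set (V d)) = ↑B ∪ Sb (op q U) (W \ ↑B) b m} ∩
          ({U : Cfg d | z ∈ Sb (op q U) (W \ ↑B) b (m + 1)} \
            {U : Cfg d | z ∈ Sb (op q U) (W \ ↑B) b m})))) := by
    ext U
    simp only [mem_union, mem_iUnion, mem_inter_iff, mem_ofPred_eq, Set.mem_sdiff]
    constructor
    · rintro ⟨B, b, hE, hcase⟩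
      have hBA : B ⊆ (↑A : Set (V d)) := by
        rcases hcase with ⟨hA, -⟩ | ⟨m, hA, -⟩
        · rw [hA]
        · rw [hA]; exact subset_union_left
      obtain ⟨B', rfl⟩ := (A.finite_toSet.subset hBA).exists_finset_coe
      refine ⟨B', b, hE, ?_⟩
      rcases hcase with h1 | ⟨m, hA, hz⟩
      · exact Or.inl h1
      · exact Or.inr ⟨m, hA, hz.1, hz.2⟩
    · rintro ⟨B, b, hE, hcase⟩
      refine ⟨↑B, b, hE, ?_⟩
      rcases hcase with h1 | ⟨m, hA, hz1, hz2⟩
      · exact Or.inl h1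
      · exact Or.inr ⟨m, hA, hz1, hz2⟩
  rw [h]
  refine MeasurableSet.iUnion fun B => MeasurableSet.iUnion fun b => ?_
  refine (measurableSet_ent hg q W x B b).inter ((MeasurableSet.const _).union
    (MeasurableSet.iUnion fun m => ?_))
  refine MeasurableSet.inter ?_ ((measurableSet_sb q _ b (m + 1) z).diff
    (measurableSet_sb q _ b m z))
  exact measurableSet_set_eq (f := fun U => ↑B ∪ Sb (op q U) (W \ ↑B) b m)
    (fun v => measurableSet_mem_union _ v (measurableSet_sb q _ b m v)) _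

theorem measurableSet_pc {g : ℝ → ℕ} (hg : Monotone g) (q : ℝ) (W : Set (V d)) (x : V d)
    (F : Finset (V d)) :
    MeasurableSet {U : Cfg d | Pc (costE g q U) (op q U) W x (↑F)} := by
  classical
  have h : {U : Cfg d | Pc (costE g q U) (op q U) W x (↑F)} =
      ⋃ B : Finset (V d), ⋃ b : V d, ({U : Cfg d | Ent (costE g q U) W x (↑B) b} ∩
        {U : Cfg d | (↑F : Set (V d)) = ↑B ∪ Cl (op q U) (W \ ↑B) b}) := by
    ext U
    simp only [mem_iUnion, mem_inter_iff, mem_ofPred_eq]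
    constructor
    · rintro ⟨B, b, hE, hF⟩
      have hBF : B ⊆ (↑F : Set (V d)) := by rw [hF]; exact subset_union_left
      obtain ⟨B', rfl⟩ := (F.finite_toSet.subset hBF).exists_finset_coe
      exact ⟨B', b, hE, hF⟩
    · rintro ⟨B, b, hE, hF⟩
      exact ⟨↑B, b, hE, hF⟩
  rw [h]
  refine MeasurableSet.iUnion fun B => MeasurableSet.iUnion fun b => ?_
  refine (measurableSet_ent hg q W x B b).inter ?_
  exact measurableSet_set_eq (f := fun U => ↑B ∪ Cl (op q U) (W \ ↑B) b)
    (fun v => measurableSet_mem_union _ v (measurableSet_conn q _ b v)) _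

end Pool.Agent.helper55.FP
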