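import Pool.Agent.helper55.FP.NDefs
import Pool.Agent.helper55.FP.LDefs
import Pool.Agent.helper55.FP.Conn
import Pool.Agent.helper55.FP.Paths
import Pool.Agent.helper55.FP.Meas
import Pool.Agent.helper55.FP.Indep
import Pool.Agent.helper55.FP.BK
import Pool.Agent.helper55.FP.Symm
import Pool.Agent.helper55.FP.VisLoc
import Pool.Agent.helper55.FP.VisCount
import Pool.Agent.helper55.FP.InBall

/-! FP project, part N: an infinite cluster is unlikely to be entered close to the entrance point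
of the previous level. -/

set_option autoImplicit false

open MeasureTheory Set Filter Topology
open scoped ENNReal

namespace Pool.Agent.helper55.FP

variable {d : ℕ}

/-! ## FILE NearProb -/

namespace NearProb

theorem conn_inner_cl {O : Set (E d)} {W : Set (V d)} {b z : V d} (h : Conn O W b z) :
    Conn (O ∩ inner (Cl O W b)) W b z := by
  refine ⟨h.1, ?_⟩
  have hb := h.1
  have h2 := h.2
  clear h
  induction h2 with
  | refl => exact Relation.ReflTransGen.refl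
  | tail h1 h3 ih =>
    rename_i c z
    refine ih.tail ?_
    have hc : Conn O W b c := ⟨hb, h1⟩
    have hz : Conn O W b z := hc.snoc h3
    obtain ⟨hcW, hzW, e, he, hj⟩ := h3
    refine ⟨hcW, hzW, e, ⟨he, ?_⟩, hj⟩
    rcases hj with ⟨h4, h5⟩ | ⟨h4, h5⟩
    · exact ⟨show Conn O W b e.1 from h4 ▸ hc, show Conn O W b (tip e) from h5 ▸ hz⟩
    · exact ⟨show Conn O W b e.1 from h4 ▸ hz, show Conn O W b (tip e) from h5 ▸ hc⟩

theorem exists_wit {O : Set (E d)} {W : Set (V d)} {b : V d} (h : (Cl O W b).Infinite) (n : ℕ) :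
    ∃ L : Finset (E d), (↑L : Set (E d)) ⊆ O ∩ inner (Cl O W b) ∧
      (n : ℕ∞) ≤ (Cl (↑L) W b).encard := by
  classical
  obtain ⟨F, hF, hcard⟩ := h.exists_subset_card_eq n
  have hK : ∀ z : V d, ∃ K : Finset (E d), z ∈ F →
      K ∈ cw W b z ∧ (↑K : Set (E d)) ⊆ O ∩ inner (Cl O W b) := by
    intro z
    by_cases hz : z ∈ F
    · obtain ⟨K, hK, hKO⟩ := conn_iff_wit.1 (conn_inner_cl (hF hz))
      exact ⟨K, fun _ => ⟨hK, hKO⟩⟩
    · exact ⟨∅, fun h => absurd h hz⟩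
  choose K hK using hK
  refine ⟨F.biUnion K, ?_, ?_⟩
  · intro e he
    rw [Finset.mem_coe, Finset.mem_biUnion] at he
    obtain ⟨z, hz, he⟩ := he
    exact (hK z hz).2 he
  · have hsub : (↑F : Set (V d)) ⊆ Cl (↑(F.biUnion K)) W b := by
      intro z hz
      refine Conn.mono ?_ subset_rfl (hK z hz).1
      exact_mod_cast Finset.subset_biUnion_of_mem K hz
    have := Set.encard_le_encard hsub
    rwa [Set.encard_coe_eq_coe_finsetCard, hcard] at this

theorem cw_filter {W W' : Set (V d)} (hW : W ⊆ W') {a b : V d} {K : Finset (E d)}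
    (hK : K ∈ cw W a b) [DecidablePred (· ∈ inner W')] :
    K.filter (· ∈ inner W') ∈ cw W a b := by
  refine ⟨hK.1, ?_⟩
  have h2 := hK.2
  refine Relation.ReflTransGen.mono ?_ _ _ h2
  rintro u v ⟨hu, hv, e, he, hj⟩
  refine ⟨hu, hv, e, ?_, hj⟩
  rw [Finset.mem_coe, Finset.mem_filter]
  refine ⟨he, ?_⟩
  rcases hj with ⟨h4, h5⟩ | ⟨h4, h5⟩
  · exact ⟨h4 ▸ hW hu, h5 ▸ hW hv⟩
  · exact ⟨h4 ▸ hW hv, h5 ▸ hW hu⟩

/-- witnesses of the connection `b' ↔ b` in a ball around `b`, off `B` -/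
def FA (B : Set (V d)) (r : ℕ) (b' b : V d) : Set (Finset (E d)) :=
  {K | K ∈ cw (Bᶜ ∩ nb b r) b' b ∧ (↑K : Set (E d)) ⊆ inner Bᶜ}

/-- witnesses of a big cluster -/
def FB (B : Set (V d)) (b : V d) (n : ℕ) : Set (Finset (E d)) :=
  {L | (n : ℕ∞) ≤ (Cl (↑L) Bᶜ b).encard ∧ (↑L : Set (E d)) ⊆ inner Bᶜ}

/-- the disjoint occurrence -/
def X (p p' : ℝ) (B : Set (V d)) (r n : ℕ) (b' b : V d) : Set (Cfg d) :=
  {U : Cfg d | ∃ K ∈ FA B r b' b, ∃ L ∈ FB B b n, Disjoint K L ∧ (∀ e ∈ K, U e ≤ p) ∧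
      (∀ e ∈ L, U e ≤ p')}

theorem measurableSet_X (p p' : ℝ) (B : Set (V d)) (r n : ℕ) (b' b : V d) :
    MeasurableSet (X p p' B r n b' b) := by
  have h1 : X p p' B r n b' b = ⋃ K ∈ FA B r b' b, ⋃ L ∈ FB B b n,
      {U : Cfg d | Disjoint K L} ∩ ((⋂ e ∈ K, {U : Cfg d | U e ≤ p}) ∩
        (⋂ e ∈ L, {U : Cfg d | U e ≤ p'})) := by
    ext U
    simp only [X, mem_ofPred_eq, mem_iUnion, mem_inter_iff, mem_iInter, exists_prop]
  rw [h1]
  refine MeasurableSet.biUnion (to_countable _) fun K _ => MeasurableSet.biUnion (to_countable _)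
    fun L _ => (MeasurableSet.const _).inter ((Finset.measurableSet_biInter _ fun e _ => ?_).inter
      (Finset.measurableSet_biInter _ fun e _ => ?_))
  · exact measurableSet_le (measurable_pi_apply e) measurable_const
  · exact measurableSet_le (measurable_pi_apply e) measurable_const

theorem X_congr {p p' : ℝ} {B : Set (V d)} {r n : ℕ} {b' b : V d} {U U' : Cfg d}
    (h : ∀ e ∈ (touch B)ᶜ, U e = U' e) (hU : U ∈ X p p' B r n b' b) :
    U' ∈ X p p' B r n b' b := by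
  obtain ⟨K, hK, L, hL, hd, h1, h2⟩ := hU
  have hin : ∀ e ∈ inner (Bᶜ), e ∈ (touch B)ᶜ := by
    rintro e ⟨h3, h4⟩ (h5 | h5)
    · exact h3 h5
    · exact h4 h5
  refine ⟨K, hK, L, hL, hd, fun e he => ?_, fun e he => ?_⟩
  · rw [← h e (hin e (hK.2 he))]
    exact h1 e he
  · rw [← h e (hin e (hL.2 he))]
    exact h2 e he

theorem prob_X {p p' : ℝ} (B : Set (V d)) (r n : ℕ) (b' b : V d) :
    (P d).real (X p p' B r n b' b) ≤ tauW p (Bᶜ ∩ nb b r) b' b * tail d p' n := by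
  refine (bk p p' _ _).trans ?_
  have hA : (P d).real (Ev p (FA B r b' b)) ≤ tauW p (Bᶜ ∩ nb b r) b' b := by
    refine measureReal_mono ?_
    rintro U ⟨K, hK, hKU⟩
    exact conn_op_iff.2 ⟨K, hK.1, hKU⟩
  have hB : (P d).real (Ev p' (FB B b n)) ≤ tail d p' n := by
    refine le_trans ?_ (tailW_le p' Bᶜ b n)
    refine measureReal_mono ?_
    rintro U ⟨L, hL, hLU⟩
    exact hL.1.trans (Set.encard_le_encard (cl_mono (fun e he => hLU e he) subset_rfl b))
  exact mul_le_mul hA hB measureReal_nonneg measureReal_nonneg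

theorem finite_nb (u : V d) (r : ℕ) : (nb u r).Finite := by
  have h : nb u r = Metric.closedBall u r := by
    ext v
    simp only [nb, mem_ofPred_eq, Metric.mem_closedBall, dist_eq_norm]
  rw [h]
  exact (isCompact_closedBall u (r : ℝ)).finite_of_discrete

theorem nb_symm {u v : V d} {r : ℕ} (h : u ∈ nb v r) : v ∈ nb u r := by
  have h' : ‖u - v‖ ≤ r := h
  show ‖v - u‖ ≤ r
  rwa [norm_sub_rev]

theorem nb_sub {u v : V d} {r : ℕ} (h : u ∈ nb v r) : nb v r ⊆ nb u (2 * r) := by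
  intro w hw
  have h1 : ‖u - v‖ ≤ r := h
  have h2 : ‖w - v‖ ≤ r := hw
  show ‖w - u‖ ≤ ((2 * r : ℕ) : ℝ)
  have h3 : ‖w - u‖ ≤ ‖w - v‖ + ‖v - u‖ := norm_sub_le_norm_sub_add_norm_sub w v u
  rw [norm_sub_rev v u] at h3
  push_cast
  linarith

theorem near_sub {c : Cfg d → E d → ℕ} {p p' : ℝ} {x : V d} {r N : ℕ} (n : ℕ) :
    {U : Cfg d | Near (c U) (op p U) (op p' U) x r N} ⊆
      ⋃ i : Finset (V d) × V d, {U : Cfg d | i.1.card ≤ N ∧ Ent (c U) univ x (↑i.1) i.2} ∩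
        ⋃ b ∈ nb i.2 r, X p p' (↑i.1) r n i.2 b := by
  classical
  rintro U ⟨B, b', hE, hB, b, hinf, K, hK, hKO, hKd⟩
  have hBf : B.Finite := Set.finite_of_encard_le_coe hB
  have hBc : (↑hBf.toFinset : Set (V d)) = B := hBf.coe_toFinset
  simp only [mem_iUnion]
  refine ⟨(hBf.toFinset, b'), ⟨?_, ?_⟩, ?_⟩
  · have h1 : ((hBf.toFinset.card : ℕ) : ℕ∞) ≤ N := by
      rw [← Set.encard_coe_eq_coe_finsetCard, hBc]
      exact hB
    exact_mod_cast h1
  · show Ent (c U) univ x (↑hBf.toFinset) b'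
    rw [hBc]
    exact hE
  · rw [mem_iUnion₂]
    refine ⟨b, nb_symm hK.1.2, ?_⟩
    show U ∈ X p p' (↑hBf.toFinset) r n b' b
    rw [hBc]
    obtain ⟨L, hL, hLn⟩ := exists_wit hinf n
    refine ⟨K.filter (· ∈ inner Bᶜ), ⟨cw_filter inter_subset_left hK, ?_⟩, L, ⟨hLn, ?_⟩, ?_, ?_, ?_⟩
    · intro e he
      rw [Finset.mem_coe, Finset.mem_filter] at he
      exact he.2
    · intro e he
      obtain ⟨h1, h2⟩ := (hL he).2
      exact ⟨Conn.right h1, Conn.right h2⟩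
    · rw [Finset.disjoint_left]
      intro e he heL
      rw [Finset.mem_filter] at he
      obtain ⟨h1, h2⟩ := (hL heL).2
      rcases hKd e he.1 with h3 | h3
      · exact h3 h1
      · exact h3 h2
    · intro e he
      rw [Finset.mem_filter] at he
      exact hKO he.1
    · intro e he
      exact (hL he).1

end NearProb

open NearProb in
theorem near_prob {a : ℕ} {pc : ℝ} (h : HD d a pc) : ∃ C > 0, ∃ δ₀ > 0, ∀ δ₁ δ₂, 0 < δ₁ →
    0 < δ₂ → δ₁ ≤ δ₀ → δ₂ ≤ δ₀ → ∀ r : ℕ, 1 ≤ r → (2 * (r : ℝ)) ^ 4 * δ₂ ≤ 1 →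
    ∀ (g : ℝ → ℕ), Monotone g → (∀ u, 1 ≤ g u) → ∀ (q : ℝ) (x : V d) (N : ℕ), 1 ≤ N →
    (P d).real {U : Cfg d | Near (costE g q U) (op (pc + δ₂) U) (op (pc + δ₁) U) x r N} ≤
      C * (N : ℝ) ^ 2 * (r : ℝ) ^ 2 * δ₁ := by
  classical
  obtain ⟨C₁, hC₁, δ₀, hδ₀, hball⟩ := inball h
  obtain ⟨C₂, hC₂, htail⟩ := h.tail_ub
  have hpc1 := h.lt_one
  refine ⟨(3 * (2 * d + 1)) * (8 * C₁ * C₂), by positivity, min δ₀ (1 - pc),
    lt_min hδ₀ (by linarith), ?_⟩
  intro δ₁ δ₂ h1 h2 h3 h4 r hr hrδ g hg hg1 q x N hN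
  obtain ⟨n, hn⟩ := exists_nat_gt (1 / δ₁ ^ 2)
  have hn0 : 0 < (n : ℝ) := lt_trans (by positivity) hn
  have hn1 : 1 ≤ n := by
    have : 0 < n := by exact_mod_cast hn0
    omega
  have hsq : 1 / Real.sqrt n ≤ δ₁ := by
    have h5 : 1 / δ₁ ≤ Real.sqrt n := by
      apply Real.le_sqrt_of_sq_le
      rw [div_pow, one_pow]
      exact hn.le
    have h6 : 0 < Real.sqrt n := Real.sqrt_pos.2 hn0
    rw [div_le_iff₀ h6]
    rw [div_le_iff₀ h1] at h5
    linarith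
  have htl : tail d (pc + δ₁) n ≤ 2 * C₂ * δ₁ := by
    have h5 := htail δ₁ h1.le (by have := h3.trans (min_le_right _ _); linarith) n hn1
    calc tail d (pc + δ₁) n ≤ C₂ * (δ₁ + 1 / Real.sqrt n) := h5
      _ ≤ C₂ * (δ₁ + δ₁) := by gcongr
      _ = 2 * C₂ * δ₁ := by ring
  have htl0 : 0 ≤ tail d (pc + δ₁) n := measureReal_nonneg
  set Q : ℝ := 8 * C₁ * C₂ * (r : ℝ) ^ 2 * δ₁ with hQ
  have hQ0 : 0 ≤ Q := by positivity
  have key := markov_union (d := d) (ι := Finset (V d) × V d)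
    (fun i => {U : Cfg d | i.1.card ≤ N ∧ Ent (costE g q U) univ x (↑i.1) i.2})
    (fun i => ⋃ b ∈ nb i.2 r, X (pc + δ₂) (pc + δ₁) (↑i.1) r n i.2 b)
    (fun i => touch (↑i.1 : Set (V d))) ?_ ?_ ?_ ?_ (3 * (2 * d + 1) * N ^ 2) Q ?_ ?_ hQ0
  · refine (measureReal_mono (near_sub n)).trans (key.trans (le_of_eq ?_))
    rw [hQ]
    push_cast
    ring
  · intro i
    exact (MeasurableSet.const _).inter (measurableSet_ent hg q univ x i.1 i.2)
  · intro i
    exact MeasurableSet.biUnion (to_countable _) fun b _ => measurableSet_X _ _ _ _ _ _ _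
  · intro i U U' hUU
    have h5 : Ent (costE g q U) univ x (↑i.1 : Set (V d)) i.2 =
        Ent (costE g q U') univ x (↑i.1 : Set (V d)) i.2 :=
      (ent_loc g q univ x (↑i.1 : Set (V d)) i.2) (fun e he => hUU e he.2)
    show (i.1.card ≤ N ∧ Ent (costE g q U) univ x (↑i.1) i.2) =
      (i.1.card ≤ N ∧ Ent (costE g q U') univ x (↑i.1) i.2)
    rw [h5]
  · intro i U U' hUU
    simp only [eq_iff_iff, mem_iUnion]
    constructor
    · rintro ⟨b, hb, hX⟩
      exact ⟨b, hb, X_congr (fun e he => hUU e he) hX⟩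
    · rintro ⟨b, hb, hX⟩
      exact ⟨b, hb, X_congr (fun e he => (hUU e he).symm) hX⟩
  · intro U
    exact ent_count (costE g q U) univ x N hN
  · rintro ⟨B, b'⟩
    have hfin := finite_nb b' r
    have hU : (⋃ b ∈ nb b' r, X (pc + δ₂) (pc + δ₁) (↑B : Set (V d)) r n b' b) =
        ⋃ b ∈ hfin.toFinset, X (pc + δ₂) (pc + δ₁) (↑B : Set (V d)) r n b' b := by
      simp only [Set.Finite.mem_toFinset]
    show (P d).real (⋃ b ∈ nb b' r, X (pc + δ₂) (pc + δ₁) (↑B : Set (V d)) r n b' b) ≤ Q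
    rw [hU]
    refine (measureReal_biUnion_finset_le _ _).trans ?_
    have hsum := (hball δ₂ h2 (h4.trans (min_le_left _ _)) (2 * r) (by omega)
      (by push_cast; exact hrδ) b' ((↑B : Set (V d))ᶜ ∩ nb b' (2 * r)) (by
        intro v hv
        have h5 : ‖v - b'‖ ≤ ((2 * r : ℕ) : ℝ) := hv.2
        show ‖v - b'‖ ≤ ((2 * r + 1 : ℕ) : ℝ)
        push_cast at h5 ⊢
        linarith) b').2 hfin.toFinset
    calc ∑ b ∈ hfin.toFinset, (P d).real (X (pc + δ₂) (pc + δ₁) (↑B : Set (V d)) r n b' b)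
        ≤ ∑ b ∈ hfin.toFinset, tauW (pc + δ₂) ((↑B : Set (V d))ᶜ ∩ nb b' (2 * r)) b b' *
            (2 * C₂ * δ₁) := by
          refine Finset.sum_le_sum fun b hb => ?_
          rw [Set.Finite.mem_toFinset] at hb
          refine (prob_X _ _ _ _ _).trans ?_
          refine mul_le_mul ?_ htl htl0 measureReal_nonneg
          rw [tauW_symm]
          refine tauW_mono le_rfl (inter_subset_inter_right _ (nb_sub (nb_symm hb))) b b'
      _ = (∑ b ∈ hfin.toFinset, tauW (pc + δ₂) ((↑B : Set (V d))ᶜ ∩ nb b' (2 * r)) b b') *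
            (2 * C₂ * δ₁) := by rw [Finset.sum_mul]
      _ ≤ (C₁ * ((2 * r : ℕ) : ℝ) ^ 2) * (2 * C₂ * δ₁) := by gcongr
      _ = Q := by rw [hQ]; push_cast; ring

end Pool.Agent.helper55.FP
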