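import Pool.Agent.helper55.FP.Defs
import Pool.Agent.helper55.FP.Conn
import Pool.Agent.helper55.FP.Meas
import Pool.Agent.helper55.FP.Indep
import Pool.Agent.helper55.FP.Symm
import Pool.Agent.helper40.FP.BurtonKeane

/-! U : uniqueness of the infinite cluster (Burton - Keane), 0-1 law.
The proofs are in `Pool/Agent/helper40/FP/{Graph,Graph2,Prob,BurtonKeane}.lean`. -/

set_option autoImplicit false

open MeasureTheory Set Filter Topology
open scoped ENNReal

namespace Pool.Agent.helper55.FP

variable {d : ℕ}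

theorem uniqueness {p : ℝ} (hp : 0 < p) (_hp1 : p < 1) :
    ∀ᵐ U ∂(P d), ∀ a b : V d, (Cl (op p U) univ a).Infinite → (Cl (op p U) univ b).Infinite →
      Conn (op p U) univ a b := Pool.Agent.helper40.FP.uniq hp

theorem exists_inf_cluster {p : ℝ} (h : 0 < theta d p) :
    ∀ᵐ U ∂(P d), ∃ a : V d, (Cl (op p U) univ a).Infinite :=
  Pool.Agent.helper40.FP.exists_inf h

end Pool.Agent.helper55.FP
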