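import Pool.Agent.helper55.FP.NDefs
import Pool.Agent.helper55.FP.LDefs
import Pool.Agent.helper55.FP.Conn
import Pool.Agent.helper55.FP.Paths
import Pool.Agent.helper55.FP.Meas
import Pool.Agent.helper55.FP.Indep
import Pool.Agent.helper55.FP.Resample
import Pool.Agent.helper55.FP.BK
import Pool.Agent.helper55.FP.Harris
import Pool.Agent.helper55.FP.Symm
import Pool.Agent.helper55.FP.LeftCont
import Pool.Agent.helper55.FP.Sprinkle
import Pool.Agent.helper55.FP.Params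
import Pool.Agent.helper55.FP.MeetProb
import Pool.Agent.helper55.FP.NearProb
import Pool.Agent.helper55.FP.Leave
import Pool.Agent.helper55.FP.Uniq
import Pool.Agent.helper55.FP.Costs

/-! FP project, file Positive: the good event has positive probability. -/

set_option autoImplicit false

open MeasureTheory Set Filter Topology
open scoped ENNReal

namespace Pool.Agent.helper55.FP

variable {d : ℕ}

namespace Positive_aux

/-- radius of a level -/
noncomputable def rr (D : ℝ) : ℕ := ⌊1 / (2 * Real.sqrt (Real.sqrt D))⌋₊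

/-- fourth root -/
noncomputable def fr (D : ℝ) : ℝ := Real.sqrt (Real.sqrt D)

theorem fr_pow {D : ℝ} (h : 0 ≤ D) : fr D ^ 4 = D := by
  unfold fr
  rw [show (4 : ℕ) = 2 * 2 from rfl, pow_mul, Real.sq_sqrt (Real.sqrt_nonneg _), Real.sq_sqrt h]

theorem fr_pos {D : ℝ} (h : 0 < D) : 0 < fr D := Real.sqrt_pos.2 (Real.sqrt_pos.2 h)

theorem rr_one {D : ℝ} (h0 : 0 < D) (h1 : D ≤ 1 / 16) : 1 ≤ rr D := by
  have hq := fr_pos h0
  have : fr D ≤ 1 / 2 := by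
    have h2 : fr D ^ 4 ≤ (1 / 2) ^ 4 := by rw [fr_pow h0.le]; norm_num; linarith
    exact le_of_pow_le_pow_left₀ (by norm_num) (by norm_num) h2
  unfold rr
  rw [Nat.one_le_floor_iff, le_div_iff₀ (by unfold fr at hq; positivity)]
  unfold fr at this
  linarith

theorem rr_le {D : ℝ} (h0 : 0 < D) : (2 * (rr D : ℝ)) ^ 4 * D ≤ 1 := by
  have hq := fr_pos h0
  have h1 : (rr D : ℝ) ≤ 1 / (2 * fr D) := Nat.floor_le (by positivity)
  have h2 : 2 * (rr D : ℝ) * fr D ≤ 1 := by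
    rw [le_div_iff₀ (by positivity)] at h1; linarith
  calc (2 * (rr D : ℝ)) ^ 4 * D = (2 * (rr D : ℝ) * fr D) ^ 4 := by
        rw [mul_pow (2 * (rr D : ℝ)), fr_pow h0.le]
    _ ≤ 1 := pow_le_one₀ (by positivity) h2

theorem rr_le' {D : ℝ} (h0 : 0 < D) : (rr D : ℝ) ^ 4 * D ≤ 1 := by
  have h := rr_le h0
  have h1 : 0 ≤ (rr D : ℝ) ^ 4 * D := by positivity
  rw [mul_pow] at h
  nlinarith

/-- `r^2 ≤ 1/D` -/
theorem rr_sq {D : ℝ} (h0 : 0 < D) : (rr D : ℝ) ^ 2 ≤ 1 / D := by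
  have h := rr_le' h0
  rw [le_div_iff₀ h0]
  refine le_trans (mul_le_mul_of_nonneg_right ?_ h0.le) h
  rcases Nat.eq_zero_or_pos (rr D) with h1 | h1
  · simp [h1]
  · have h2 : (1 : ℝ) ≤ rr D := by exact_mod_cast h1
    exact pow_le_pow_right₀ h2 (by norm_num)

theorem rr_pow {D : ℝ} (h0 : 0 < D) (h1 : D ≤ 1 / 16) {a b : ℕ} (hab : 4 * b ≤ a) :
    1 / (1 + (rr D : ℝ)) ^ a ≤ 2 ^ a * D ^ b := by
  have hq := fr_pos h0
  have hq1 : fr D ≤ 1 := by
    have h2 : fr D ^ 4 ≤ 1 ^ 4 := by rw [fr_pow h0.le]; norm_num; linarith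
    exact le_of_pow_le_pow_left₀ (by norm_num) (by norm_num) h2
  have h2 : 1 / (2 * fr D) < (rr D : ℝ) + 1 := Nat.lt_floor_add_one _
  have h3 : 1 ≤ 2 * fr D * (1 + (rr D : ℝ)) := by
    rw [div_lt_iff₀ (by positivity)] at h2; linarith
  rw [div_le_iff₀ (by positivity)]
  calc (1 : ℝ) ≤ (2 * fr D * (1 + (rr D : ℝ))) ^ a := one_le_pow₀ h3
    _ = 2 ^ a * fr D ^ a * (1 + (rr D : ℝ)) ^ a := by rw [mul_pow, mul_pow]
    _ ≤ 2 ^ a * D ^ b * (1 + (rr D : ℝ)) ^ a := by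
        refine mul_le_mul_of_nonneg_right (mul_le_mul_of_nonneg_left ?_ (by positivity))
          (by positivity)
        calc fr D ^ a ≤ fr D ^ (4 * b) := pow_le_pow_of_le_one hq.le hq1 hab
          _ = D ^ b := by rw [pow_mul, fr_pow h0.le]

/-- volume scale -/
noncomputable def NN (K : ℕ) (D : ℝ) : ℕ := ⌈1 / (D ^ K) ^ CV⌉₊

theorem NN_pos {K : ℕ} {D : ℝ} (h0 : 0 < D) : 1 ≤ NN K D := by
  unfold NN; rw [Nat.one_le_ceil_iff]; positivity

theorem NN_le {K : ℕ} {D : ℝ} (h0 : 0 < D) (h1 : D ≤ 1) : (NN K D : ℝ) * D ^ (K * CV) ≤ 2 := by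
  have h2 : (NN K D : ℝ) < 1 / (D ^ K) ^ CV + 1 := Nat.ceil_lt_add_one (by positivity)
  rw [← pow_mul] at h2
  have h3 : 0 < D ^ (K * CV) := by positivity
  have h4 : D ^ (K * CV) ≤ 1 := pow_le_one₀ h0.le h1
  have := mul_le_mul_of_nonneg_right h2.le h3.le
  rw [add_mul, div_mul_cancel₀ _ h3.ne'] at this
  linarith

theorem NN_anti {K : ℕ} {D D' : ℝ} (h0 : 0 < D) (h : D ≤ D') : NN K D' ≤ NN K D := by
  unfold NN
  refine Nat.ceil_mono (one_div_le_one_div_of_le (by positivity) ?_)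
  have : 0 < D' := by linarith
  gcongr

/-- `(2N)^7` -/
theorem NN_seven {K : ℕ} {D : ℝ} (h0 : 0 < D) (h1 : D ≤ 1) :
    ((2 * NN K D : ℕ) : ℝ) ^ 7 * D ^ (49000 * K) ≤ 4 ^ 7 := by
  have h := NN_le (K := K) h0 h1
  have e : D ^ (49000 * K) = (D ^ (K * CV)) ^ 7 := by
    rw [← pow_mul]; congr 1; unfold CV; ring
  rw [e, ← mul_pow]
  push_cast
  exact pow_le_pow_left₀ (by positivity) (by linarith) 7

/-- first meeting bound -/
theorem numA {K a : ℕ} (hK : 1 ≤ K) (ha : 4 * (49000 * K ^ 2 + 10 * K) ≤ a) {C D : ℝ} (hC : 0 < C)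
    (h0 : 0 < D) (h1 : D ≤ 1 / 16) :
    C * ((2 * NN K D : ℕ) : ℝ) ^ 7 / (1 + (rr D : ℝ)) ^ a ≤ C * 4 ^ 7 * 2 ^ a * D ^ 3 := by
  have hD1 : D ≤ 1 := by linarith
  have h2 := rr_pow h0 h1 ha
  have h3 := NN_seven (K := K) h0 hD1
  have h4 : D ^ (49000 * K ^ 2 + 10 * K) ≤ D ^ (49000 * K) * D ^ 3 := by
    rw [← pow_add]
    exact pow_le_pow_of_le_one h0.le hD1 (by nlinarith)
  calc C * ((2 * NN K D : ℕ) : ℝ) ^ 7 / (1 + (rr D : ℝ)) ^ a
      = C * ((2 * NN K D : ℕ) : ℝ) ^ 7 * (1 / (1 + (rr D : ℝ)) ^ a) := by ring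
    _ ≤ C * ((2 * NN K D : ℕ) : ℝ) ^ 7 * (2 ^ a * (D ^ (49000 * K) * D ^ 3)) := by
        refine mul_le_mul_of_nonneg_left (h2.trans ?_) (by positivity)
        exact mul_le_mul_of_nonneg_left h4 (by positivity)
    _ = C * 2 ^ a * D ^ 3 * (((2 * NN K D : ℕ) : ℝ) ^ 7 * D ^ (49000 * K)) := by ring
    _ ≤ C * 2 ^ a * D ^ 3 * 4 ^ 7 := mul_le_mul_of_nonneg_left h3 (by positivity)
    _ = _ := by ring

/-- second meeting bound -/
theorem numB {K a : ℕ} (hK : 1 ≤ K) (ha : 4 * (49000 * K ^ 2 + 10 * K) ≤ a) {C D D' : ℝ}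
    (hC : 0 < C) (h0 : 0 < D) (h1 : D ≤ 1 / 16) (hD : D ^ K ≤ D') (hD' : D' ≤ 1) :
    C * ((2 * NN K D' : ℕ) : ℝ) ^ 7 * (rr D' : ℝ) ^ 2 / (1 + (rr D : ℝ)) ^ a ≤
      C * 4 ^ 7 * 2 ^ a * D ^ 3 := by
  have hD1 : D ≤ 1 := by linarith
  have hD0 : 0 < D' := lt_of_lt_of_le (by positivity) hD
  have h2 := rr_pow h0 h1 ha
  have h3 := NN_seven (K := K) hD0 hD'
  have h5 := rr_sq hD0
  have h6 : (rr D' : ℝ) ^ 2 * D' ≤ 1 := by rwa [le_div_iff₀ hD0] at h5
  have h4 : D ^ (49000 * K ^ 2 + 10 * K) ≤ D' ^ (49000 * K) * D' * D ^ 3 := by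
    have e1 : D ^ (49000 * K ^ 2 + 10 * K) ≤ (D ^ K) ^ (49000 * K + 1) * D ^ 3 := by
      rw [← pow_mul, ← pow_add]
      exact pow_le_pow_of_le_one h0.le hD1 (by nlinarith)
    refine e1.trans (mul_le_mul_of_nonneg_right ?_ (by positivity))
    rw [← pow_succ]
    exact pow_le_pow_left₀ (by positivity) hD _
  calc C * ((2 * NN K D' : ℕ) : ℝ) ^ 7 * (rr D' : ℝ) ^ 2 / (1 + (rr D : ℝ)) ^ a
      = C * ((2 * NN K D' : ℕ) : ℝ) ^ 7 * (rr D' : ℝ) ^ 2 * (1 / (1 + (rr D : ℝ)) ^ a) := by ring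
    _ ≤ C * ((2 * NN K D' : ℕ) : ℝ) ^ 7 * (rr D' : ℝ) ^ 2 *
        (2 ^ a * (D' ^ (49000 * K) * D' * D ^ 3)) := by
        refine mul_le_mul_of_nonneg_left (h2.trans ?_) (by positivity)
        exact mul_le_mul_of_nonneg_left h4 (by positivity)
    _ = C * 2 ^ a * D ^ 3 * ((((2 * NN K D' : ℕ) : ℝ) ^ 7 * D' ^ (49000 * K)) *
        ((rr D' : ℝ) ^ 2 * D')) := by ring
    _ ≤ C * 2 ^ a * D ^ 3 * (4 ^ 7 * 1) := by
        refine mul_le_mul_of_nonneg_left ?_ (by positivity)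
        exact mul_le_mul h3 h6 (by positivity) (by norm_num)
    _ = _ := by ring

/-- near bound -/
theorem numN {K : ℕ} (hK : 14004 ≤ K) {C D D' N : ℝ} (hC : 0 < C) (h0 : 0 < D)
    (h1 : D ≤ 1 / 16) (hD : D' ≤ 2 * D ^ K) (hN0 : 0 ≤ N) (hN : N * D ^ CV ≤ 2 * 2 ^ CV) :
    C * N ^ 2 * (rr D : ℝ) ^ 2 * D' ≤ C * (2 * 2 ^ CV) ^ 2 * 2 * D ^ 3 := by
  have hD1 : D ≤ 1 := by linarith
  have h5 := rr_sq h0
  have h6 : (rr D : ℝ) ^ 2 * D ≤ 1 := by rwa [le_div_iff₀ h0] at h5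
  have h7 : D ^ K ≤ (D ^ CV) ^ 2 * D * D ^ 3 := by
    have : (D ^ CV) ^ 2 * D * D ^ 3 = D ^ (CV * 2 + 1 + 3) := by ring
    rw [this]
    exact pow_le_pow_of_le_one h0.le hD1 (by unfold CV; omega)
  calc C * N ^ 2 * (rr D : ℝ) ^ 2 * D'
      ≤ C * N ^ 2 * (rr D : ℝ) ^ 2 * (2 * ((D ^ CV) ^ 2 * D * D ^ 3)) := by
        refine mul_le_mul_of_nonneg_left ?_ (by positivity)
        linarith
    _ = C * 2 * D ^ 3 * ((N * D ^ CV) ^ 2 * ((rr D : ℝ) ^ 2 * D)) := by ring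
    _ ≤ C * 2 * D ^ 3 * ((2 * 2 ^ CV) ^ 2 * 1) := by
        refine mul_le_mul_of_nonneg_left ?_ (by positivity)
        exact mul_le_mul (pow_le_pow_left₀ (by positivity) hN 2) h6 (by positivity) (by positivity)
    _ = _ := by ring

/-- volume bound -/
theorem numV {K : ℕ} (hK : 14004 ≤ K) {C D : ℝ} (hC : 0 < C) (h0 : 0 < D) (h1 : D ≤ 1 / 16) :
    C * (Real.sqrt (D ^ K) / D) ≤ C * D ^ 3 := by
  have hD1 : D ≤ 1 := by linarith
  refine mul_le_mul_of_nonneg_left ?_ hC.le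
  rw [div_le_iff₀ h0]
  have : D ^ K ≤ (D ^ 4) ^ 2 := by
    rw [← pow_mul]; exact pow_le_pow_of_le_one h0.le hD1 (by omega)
  calc Real.sqrt (D ^ K) ≤ Real.sqrt ((D ^ 4) ^ 2) := Real.sqrt_le_sqrt this
    _ = D ^ 4 := Real.sqrt_sq (by positivity)
    _ = D ^ 3 * D := by ring

theorem iUnion_bound (B : ℕ → Set (Cfg d)) (η : ℝ) (hη : 0 ≤ η)
    (h : ∀ k, (P d).real (B k) ≤ η * (1 / 2) ^ k) : (P d).real (⋃ k, B k) ≤ 2 * η := by
  have h2 : ∑' k, P d (B k) ≤ ∑' k : ℕ, ENNReal.ofReal (η * (1 / 2) ^ k) := by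
    refine ENNReal.tsum_le_tsum fun k => ?_
    rw [← ENNReal.ofReal_toReal (measure_ne_top (P d) (B k))]
    exact ENNReal.ofReal_le_ofReal (h k)
  have h3 : ∑' k : ℕ, ENNReal.ofReal (η * (1 / 2) ^ k) = ENNReal.ofReal (2 * η) := by
    rw [← ENNReal.ofReal_tsum_of_nonneg (fun k => by positivity)
      (summable_geometric_two.mul_left η), tsum_mul_left, tsum_geometric_two, mul_comm]
  have h4 := (measure_iUnion_le (μ := P d) B).trans (h2.trans h3.le)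
  exact ENNReal.toReal_le_of_le_ofReal (by positivity) h4

/-- the volume bounds of the levels -/
noncomputable def Nf (K : ℕ) (pl : ℕ → ℝ) (pc : ℝ) : ℕ → ℕ
  | 0 => 1
  | (k + 1) => NN K (pl k - pc)

theorem inf_lower (p : ℝ) (v : V d) :
    IsLowerSet {U : Cfg d | (Cl (op p U) univ v).Infinite} := by
  intro U U' hU h
  refine Set.Infinite.mono (cl_mono ?_ subset_rfl v) h
  intro e he
  exact (hU e).trans he

theorem posK {a K : ℕ} (hK : 14004 ≤ K) (ha : 4 * (49000 * K ^ 2 + 10 * K) ≤ a) {pc : ℝ}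
    (hd : 1 ≤ d) (h : HD d a pc) : ∃ (pl : ℕ → ℝ) (M N r : ℕ → ℕ) (x y : V d), StrictAnti pl ∧
      (∀ k, 1 ≤ M k) ∧ Monotone N ∧
      0 < (P d).real {U : Cfg d | GoodPair pl M N r x y U} := by
  obtain ⟨c, hc, Hθ⟩ := h.theta_lb
  obtain ⟨C₁, hC₁, a₁, ha₁, H₁⟩ := exists_params h K (by omega)
  obtain ⟨C₂, hC₂, a₂, ha₂, H₂⟩ := meetA_prob h
  obtain ⟨C₃, hC₃, a₃, ha₃, H₃⟩ := meetB_prob h
  obtain ⟨C₄, hC₄, a₄, ha₄, H₄⟩ := near_prob h
  have hlt := h.lt_one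
  have hpos := h.pos
  obtain ⟨X₂, hX₂⟩ : ∃ X : ℝ, X = C₂ * 4 ^ 7 * 2 ^ a := ⟨_, rfl⟩
  obtain ⟨X₃, hX₃⟩ : ∃ X : ℝ, X = C₃ * 4 ^ 7 * 2 ^ a := ⟨_, rfl⟩
  obtain ⟨X₄, hX₄⟩ : ∃ X : ℝ, X = C₄ * (2 * 2 ^ CV) ^ 2 * 2 := ⟨_, rfl⟩
  have pX₂ : 0 < X₂ := by rw [hX₂]; positivity
  have pX₃ : 0 < X₃ := by rw [hX₃]; positivity
  have pX₄ : 0 < X₄ := by rw [hX₄]; positivity
  obtain ⟨T, hT⟩ : ∃ T : ℝ, T = 2 * C₁ + 2 * X₂ + 2 * X₃ + 2 * X₄ + 1 := ⟨_, rfl⟩
  have hT0 : 0 < T := by rw [hT]; positivity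
  -- choice of `δ`
  obtain ⟨δ, h0, hδ16, hδ1, hδ2, hδ3, hδ4, hδpc, hδc⟩ : ∃ δ : ℝ, 0 < δ ∧ δ ≤ 1 / 16 ∧ δ ≤ a₁ ∧
      δ ≤ a₂ ∧ δ ≤ a₃ ∧ δ ≤ a₄ ∧ pc + δ < 1 ∧ 2 * T * δ < c ^ 2 := by
    have e1 : 0 < (1 - pc) / 2 := by linarith
    have e2 : 0 < c ^ 2 / (4 * T) := by positivity
    refine ⟨min (1 / 16) (min a₁ (min a₂ (min a₃ (min a₄ (min ((1 - pc) / 2)
      (c ^ 2 / (4 * T))))))), by positivity, min_le_left _ _,
      (min_le_right _ _).trans (min_le_left _ _),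
      (min_le_right _ _).trans ((min_le_right _ _).trans (min_le_left _ _)),
      (min_le_right _ _).trans ((min_le_right _ _).trans ((min_le_right _ _).trans
        (min_le_left _ _))),
      (min_le_right _ _).trans ((min_le_right _ _).trans ((min_le_right _ _).trans
        ((min_le_right _ _).trans (min_le_left _ _)))), ?_, ?_⟩
    · have : min (1 / 16) (min a₁ (min a₂ (min a₃ (min a₄ (min ((1 - pc) / 2)
        (c ^ 2 / (4 * T))))))) ≤ (1 - pc) / 2 := (min_le_right _ _).trans ((min_le_right _ _).trans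
          ((min_le_right _ _).trans ((min_le_right _ _).trans ((min_le_right _ _).trans
          (min_le_left _ _)))))
      linarith
    · have : min (1 / 16) (min a₁ (min a₂ (min a₃ (min a₄ (min ((1 - pc) / 2)
        (c ^ 2 / (4 * T))))))) ≤ c ^ 2 / (4 * T) := (min_le_right _ _).trans
          ((min_le_right _ _).trans ((min_le_right _ _).trans ((min_le_right _ _).trans
          ((min_le_right _ _).trans (min_le_right _ _)))))
      calc 2 * T * _ ≤ 2 * T * (c ^ 2 / (4 * T)) := mul_le_mul_of_nonneg_left this (by positivity)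
        _ = c ^ 2 / 2 := by field_simp; norm_num
        _ < c ^ 2 := by nlinarith [pow_pos hc 2]
  -- the far point
  obtain ⟨y, hy⟩ : ∃ y : V d, 4 * (NN K δ : ℝ) + 4 < ‖(0 : V d) - y‖ := by
    refine ⟨fun _ => (4 * (NN K δ : ℤ) + 5), ?_⟩
    rw [zero_sub, norm_neg]
    have h1 := norm_le_pi_norm (fun _ : Fin d => (4 * (NN K δ : ℤ) + 5 : ℤ)) ⟨0, hd⟩
    refine lt_of_lt_of_le ?_ h1
    rw [Int.norm_eq_abs]
    push_cast
    rw [abs_of_nonneg (by positivity)]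
    linarith
  obtain ⟨pl, M, hpl, hM, hpl0, hstep, hvol, hlen⟩ := H₁ δ h0 hδ1 0 y (δ ^ 3) (by positivity)
  -- the increments
  obtain ⟨D, hD⟩ : ∃ D : ℕ → ℝ, ∀ k, D k = pl k - pc := ⟨_, fun _ => rfl⟩
  have hplD : ∀ k, pl k = pc + D k := fun k => by rw [hD]; ring
  have hD0 : D 0 = δ := by rw [hD, hpl0]; ring
  have hDge : ∀ k, D k ^ K ≤ D (k + 1) := fun k => by
    have := (hstep k).1; rw [← hD] at this; rw [hD (k + 1)]; linarith
  have hDle2 : ∀ k, D (k + 1) ≤ 2 * D k ^ K := fun k => by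
    have := (hstep k).2; rw [← hD] at this; rw [hD (k + 1)]; linarith
  have hDpos : ∀ k, 0 < D k := by
    intro k
    induction k with
    | zero => rw [hD0]; exact h0
    | succ k ih => exact lt_of_lt_of_le (by positivity) (hDge k)
  have hDle : ∀ k, D k ≤ δ * (1 / 2) ^ k := by
    intro k
    induction k with
    | zero => rw [hD0]; simp
    | succ k ih =>
      have hk : D k ≤ 1 / 16 := by
        refine ih.trans (le_trans ?_ hδ16)
        exact mul_le_of_le_one_right h0.le (pow_le_one₀ (by norm_num) (by norm_num))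
      have h1 : D k ^ K ≤ D k ^ 2 :=
        pow_le_pow_of_le_one (hDpos k).le (by linarith) (by omega)
      have h2 := hDle2 k
      have h3 : D k ^ 2 ≤ D k * (1 / 16) := by
        rw [pow_two]; exact mul_le_mul_of_nonneg_left hk (hDpos k).le
      have := hDpos k
      rw [pow_succ]
      linarith
  have hD16 : ∀ k, D k ≤ 1 / 16 := fun k => (hDle k).trans (le_trans
    (mul_le_of_le_one_right h0.le (pow_le_one₀ (by norm_num) (by norm_num))) hδ16)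
  have hDδ : ∀ k, D k ≤ δ := fun k => (hDle k).trans
    (mul_le_of_le_one_right h0.le (pow_le_one₀ (by norm_num) (by norm_num)))
  have hanti : ∀ k, D (k + 1) ≤ D k := fun k => by
    have := hpl (Nat.lt_succ_self k)
    rw [hD, hD]; linarith
  have hD3 : ∀ k, D k ^ 3 ≤ δ ^ 3 * (1 / 2) ^ k := fun k => by
    calc D k ^ 3 ≤ (δ * (1 / 2) ^ k) ^ 3 := pow_le_pow_left₀ (hDpos k).le (hDle k) 3
      _ = δ ^ 3 * ((1 / 2) ^ k) ^ 3 := by rw [mul_pow]
      _ ≤ δ ^ 3 * ((1 / 2) ^ k) ^ 1 := by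
          refine mul_le_mul_of_nonneg_left ?_ (by positivity)
          exact pow_le_pow_of_le_one (by positivity) (pow_le_one₀ (by norm_num) (by norm_num))
            (by norm_num)
      _ = _ := by rw [pow_one]
  have hD3' : ∀ k, D (k + 1) ^ 3 ≤ δ ^ 3 * (1 / 2) ^ k := fun k =>
    (pow_le_pow_left₀ (hDpos _).le (hanti k) 3).trans (hD3 k)
  -- volume bounds
  obtain ⟨N, hN⟩ : ∃ N : ℕ → ℕ, N = Nf K pl pc := ⟨_, rfl⟩
  have hN0 : N 0 = 1 := by rw [hN]; rfl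
  have hNs : ∀ k, N (k + 1) = NN K (D k) := fun k => by rw [hN, hD]; rfl
  have hN1 : ∀ k, 1 ≤ N k := by
    intro k
    cases k with
    | zero => rw [hN0]
    | succ k => rw [hNs]; exact NN_pos (hDpos k)
  have hNmono : Monotone N := by
    refine monotone_nat_of_le_succ fun k => ?_
    cases k with
    | zero => rw [hN0]; exact hN1 1
    | succ k => rw [hNs, hNs]; exact NN_anti (hDpos _) (hanti k)
  have hNb : ∀ k, (N k : ℝ) * D k ^ CV ≤ 2 * 2 ^ CV := by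
    intro k
    cases k with
    | zero =>
      rw [hN0, Nat.cast_one, one_mul]
      have h1 : D 0 ^ CV ≤ 1 := pow_le_one₀ (hDpos 0).le (by linarith [hD16 0])
      have h2 : (1 : ℝ) ≤ 2 ^ CV := one_le_pow₀ (by norm_num)
      linarith
    | succ k =>
      rw [hNs]
      have h1 : D (k + 1) ^ CV ≤ (2 * D k ^ K) ^ CV :=
        pow_le_pow_left₀ (hDpos _).le (hDle2 k) _
      have h2 := NN_le (K := K) (hDpos k) (by linarith [hD16 k])
      calc (NN K (D k) : ℝ) * D (k + 1) ^ CV ≤ (NN K (D k) : ℝ) * (2 * D k ^ K) ^ CV :=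
            mul_le_mul_of_nonneg_left h1 (by positivity)
        _ = ((NN K (D k) : ℝ) * D k ^ (K * CV)) * 2 ^ CV := by rw [mul_pow, ← pow_mul]; ring
        _ ≤ 2 * 2 ^ CV := mul_le_mul_of_nonneg_right h2 (by positivity)
  -- profiles
  choose g hg1 hg2 hg3 hg4 using fun k => cst_profile hpl hM k
  have hcE : ∀ k (U : Cfg d), cE pl M k U = costE (g k) (pl k) U :=
    fun k U => funext fun e => hg4 k (U e)
  -- radii
  obtain ⟨r, hr⟩ : ∃ r : ℕ → ℕ, ∀ k, r k = rr (D k) := ⟨_, fun _ => rfl⟩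
  have bA : ∀ k j (u v : V d), (P d).real {U : Cfg d | MeetA (cE pl M j U) (op (pl j) U) u
      (cE pl M (k + 2) U) (op (pl (k + 2)) U) v (op (pl (k + 1)) U) (r (k + 1)) (2 * N (k + 2))} ≤
      X₂ * (δ ^ 3 * (1 / 2) ^ k) := by
    intro k j u v
    have h1 := H₂ (D (k + 1)) (hDpos _) ((hDδ _).trans hδ2) (rr (D (k + 1)))
      (rr_one (hDpos _) (hD16 _)) (rr_le' (hDpos _)) (g j) (g (k + 2)) (hg1 _) (hg1 _) (hg2 _)
      (hg2 _) (pl j) (pl (k + 2)) u v (2 * N (k + 2)) (by have := hN1 (k + 2); omega)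
    simp only [hcE, hr]
    rw [← hplD] at h1
    refine h1.trans ?_
    rw [hNs]
    refine (numA (by omega) ha hC₂ (hDpos _) (hD16 _)).trans ?_
    rw [← hX₂]
    exact mul_le_mul_of_nonneg_left (hD3' k) pX₂.le
  have bB : ∀ k j (u v : V d), (P d).real {U : Cfg d | MeetB (cE pl M j U) (op (pl j) U) u
      (cE pl M (k + 2) U) (op (pl (k + 2)) U) v (op (pl (k + 1)) U) (op (pl k) U) (r (k + 1)) (r k)
      (2 * N (k + 2))} ≤ X₃ * (δ ^ 3 * (1 / 2) ^ k) := by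
    intro k j u v
    have h1 := H₃ (D (k + 1)) (D k) (hDpos _) (hDpos _) ((hDδ _).trans hδ3) ((hDδ _).trans hδ3)
      (rr (D (k + 1))) (rr (D k)) (rr_one (hDpos _) (hD16 _)) (rr_one (hDpos _) (hD16 _))
      (rr_le' (hDpos _)) (rr_le' (hDpos _)) (g j) (g (k + 2)) (hg1 _) (hg1 _) (hg2 _)
      (hg2 _) (pl j) (pl (k + 2)) u v (2 * N (k + 2)) (by have := hN1 (k + 2); omega)
    simp only [hcE, hr]
    rw [← hplD, ← hplD] at h1
    refine h1.trans ?_
    rw [hNs]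
    refine (numB (by omega) ha hC₃ (hDpos k) (hD16 k) (hDge k) (by linarith [hD16 (k + 1)])).trans ?_
    rw [← hX₃]
    exact mul_le_mul_of_nonneg_left (hD3 k) pX₃.le
  have bN : ∀ k (u : V d), (P d).real {U : Cfg d | Near (cE pl M k U) (op (pl k) U)
      (op (pl (k + 1)) U) u (r k) (N k)} ≤ X₄ * (δ ^ 3 * (1 / 2) ^ k) := by
    intro k u
    have h1 := H₄ (D (k + 1)) (D k) (hDpos _) (hDpos _) ((hDδ _).trans hδ4) ((hDδ _).trans hδ4)
      (rr (D k)) (rr_one (hDpos _) (hD16 _)) (rr_le (hDpos _)) (g k) (hg1 _) (hg2 _) (pl k) u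
      (N k) (hN1 k)
    simp only [hcE, hr]
    rw [← hplD, ← hplD] at h1
    refine h1.trans ?_
    refine (numN hK hC₄ (hDpos k) (hD16 k) (hDle2 k) (by positivity) (hNb k)).trans ?_
    rw [← hX₄]
    exact mul_le_mul_of_nonneg_left (hD3 k) pX₄.le
  have bV : ∀ k (u : V d), (P d).real {U : Cfg d | ¬ GoodV (cE pl M (k + 1) U)
      (op (pl (k + 1)) U) u (N (k + 1))} ≤ C₁ * (δ ^ 3 * (1 / 2) ^ k) := by
    intro k u
    have h1 := hvol k u
    rw [← hD] at h1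
    rw [hNs]
    refine h1.trans ((numV hK hC₁ (hDpos k) (hD16 k)).trans ?_)
    exact mul_le_mul_of_nonneg_left (hD3 k) hC₁.le
  have bL : ∀ k, (P d).real {U : Cfg d | ¬ (
        Len1 (cE pl M k U) (op (pl k) U) 0 (Inf (pl k) U) (Inf (pl (k + 1)) U) (M k) ∧
        Len1 (cE pl M k U) (op (pl k) U) y (Inf (pl k) U) (Inf (pl (k + 1)) U) (M k) ∧
        Len2 (cE pl M k U) (op (pl k) U) 0 y (Inf (pl k) U) (M k))} ≤ δ ^ 3 * (1 / 2) ^ k := by
    intro k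
    refine (hlen k).trans (le_of_eq ?_)
    rw [one_div, inv_pow, div_eq_mul_inv]
  -- the bad events
  obtain ⟨B, hB⟩ : ∃ B : ℕ → Set (Cfg d), ∀ k, B k =
      {U : Cfg d | ¬ (
        Len1 (cE pl M k U) (op (pl k) U) 0 (Inf (pl k) U) (Inf (pl (k + 1)) U) (M k) ∧
        Len1 (cE pl M k U) (op (pl k) U) y (Inf (pl k) U) (Inf (pl (k + 1)) U) (M k) ∧
        Len2 (cE pl M k U) (op (pl k) U) 0 y (Inf (pl k) U) (M k))} ∪
      ({U : Cfg d | ¬ GoodV (cE pl M (k + 1) U) (op (pl (k + 1)) U) 0 (N (k + 1))} ∪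
      ({U : Cfg d | ¬ GoodV (cE pl M (k + 1) U) (op (pl (k + 1)) U) y (N (k + 1))} ∪
      ({U : Cfg d | MeetA (cE pl M (k + 2) U) (op (pl (k + 2)) U) 0
        (cE pl M (k + 2) U) (op (pl (k + 2)) U) y (op (pl (k + 1)) U) (r (k + 1))
        (2 * N (k + 2))} ∪
      ({U : Cfg d | MeetA (cE pl M (k + 1) U) (op (pl (k + 1)) U) y
        (cE pl M (k + 2) U) (op (pl (k + 2)) U) 0 (op (pl (k + 1)) U) (r (k + 1))
        (2 * N (k + 2))} ∪
      ({U : Cfg d | MeetB (cE pl M (k + 2) U) (op (pl (k + 2)) U) 0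
        (cE pl M (k + 2) U) (op (pl (k + 2)) U) y (op (pl (k + 1)) U) (op (pl k) U) (r (k + 1))
        (r k) (2 * N (k + 2))} ∪
      ({U : Cfg d | MeetB (cE pl M (k + 1) U) (op (pl (k + 1)) U) y
        (cE pl M (k + 2) U) (op (pl (k + 2)) U) 0 (op (pl (k + 1)) U) (op (pl k) U) (r (k + 1))
        (r k) (2 * N (k + 2))} ∪
      ({U : Cfg d | Near (cE pl M k U) (op (pl k) U) (op (pl (k + 1)) U) 0 (r k) (N k)} ∪
       {U : Cfg d | Near (cE pl M k U) (op (pl k) U) (op (pl (k + 1)) U) y (r k) (N k)}))))))) :=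
    ⟨_, fun _ => rfl⟩
  have hBk : ∀ k, (P d).real (B k) ≤ (T * δ ^ 3) * (1 / 2) ^ k := by
    intro k
    rw [hB]
    refine (measureReal_union_le _ _).trans ?_
    refine (add_le_add (bL k) ((measureReal_union_le _ _).trans (add_le_add (bV k 0)
      ((measureReal_union_le _ _).trans (add_le_add (bV k y)
      ((measureReal_union_le _ _).trans (add_le_add (bA k (k + 2) 0 y)
      ((measureReal_union_le _ _).trans (add_le_add (bA k (k + 1) y 0)
      ((measureReal_union_le _ _).trans (add_le_add (bB k (k + 2) 0 y)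
      ((measureReal_union_le _ _).trans (add_le_add (bB k (k + 1) y 0)
      ((measureReal_union_le _ _).trans (add_le_add (bN k 0) (bN k y)))))))))))))))).trans ?_
    rw [hT]
    apply le_of_eq
    ring
  have hBad := iUnion_bound B (T * δ ^ 3) (by positivity) hBk
  -- almost sure events
  have hplpos : ∀ k, 0 < pl k := fun k => by rw [hplD]; linarith [hDpos k]
  have hpl1 : ∀ k, pl k < 1 := fun k => by rw [hplD]; linarith [hDδ k]
  have hlim : Tendsto pl atTop (𝓝 pc) := by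
    have h1 : Tendsto (fun k : ℕ => pc + δ * (1 / 2) ^ k) atTop (𝓝 pc) := by
      have := (tendsto_pow_atTop_nhds_zero_of_lt_one (r := (1 / 2 : ℝ)) (by norm_num)
        (by norm_num)).const_mul δ
      simpa using this.const_add pc
    refine tendsto_of_tendsto_of_tendsto_of_le_of_le tendsto_const_nhds h1 (fun k => ?_)
      (fun k => ?_)
    · rw [hplD]; simpa using (hDpos k).le
    · rw [hplD]; simpa using hDle k
  have hleave := leave_ae h hpl (fun k => by rw [hplD]; linarith [hDpos k]) (hpl1 0).le hlim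
  have huniq : ∀ᵐ U ∂(P d), ∀ k, ∀ a b : V d, (Cl (op (pl k) U) univ a).Infinite →
      (Cl (op (pl k) U) univ b).Infinite → Conn (op (pl k) U) univ a b :=
    ae_all_iff.2 fun k => uniqueness (hplpos k) (hpl1 k)
  have hae := hleave.and huniq
  obtain ⟨Z, hZ⟩ : ∃ Z : Set (Cfg d), Z = {U : Cfg d | ¬ ((∀ v : V d, ∃ k, v ∉ Inf (pl k) U) ∧
      ∀ k, ∀ a b : V d, (Cl (op (pl k) U) univ a).Infinite →
      (Cl (op (pl k) U) univ b).Infinite → Conn (op (pl k) U) univ a b)} := ⟨_, rfl⟩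
  have hZ0 : (P d).real Z = 0 := by
    have : (P d) Z = 0 := by rw [hZ]; exact hae
    rw [measureReal_def, this]; rfl
  -- lower bound
  have hA : c * δ * (c * δ) ≤ (P d).real ({U : Cfg d | (Cl (op (pl 0) U) univ (0 : V d)).Infinite} ∩
      {U : Cfg d | (Cl (op (pl 0) U) univ y).Infinite}) := by
    have h1 := harris_set (measurableSet_inf (pl 0) univ (0 : V d)) (measurableSet_inf (pl 0) univ y)
      (inf_lower _ _) (inf_lower _ _)
    refine le_trans ?_ h1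
    have h2 : c * δ ≤ theta d (pl 0) := by rw [hpl0]; exact Hθ δ h0 hδpc.le
    have h3 : thetaW (pl 0) (univ : Set (V d)) 0 = theta d (pl 0) := rfl
    have h4 := thetaW_univ (pl 0) y
    unfold thetaW at h3 h4
    rw [h3, h4]
    exact mul_le_mul h2 h2 (by positivity) (le_trans (by positivity) h2)
  have hsub : ({U : Cfg d | (Cl (op (pl 0) U) univ (0 : V d)).Infinite} ∩
      {U : Cfg d | (Cl (op (pl 0) U) univ y).Infinite}) ⊆
      {U : Cfg d | GoodPair pl M N r 0 y U} ∪ ((⋃ k, B k) ∪ Z) := by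
    rintro U ⟨hx, hyI⟩
    by_cases hUB : U ∈ ⋃ k, B k
    · exact Or.inr (Or.inl hUB)
    by_cases hUZ : U ∈ Z
    · exact Or.inr (Or.inr hUZ)
    left
    rw [hZ] at hUZ
    simp only [mem_ofPred_eq, not_not] at hUZ
    obtain ⟨hU1, hU2⟩ := hUZ
    have hnot : ∀ k, U ∉ B k := fun k hk => hUB (mem_iUnion.2 ⟨k, hk⟩)
    have hall := hnot
    simp only [hB, mem_union, mem_ofPred_eq, not_or, not_not] at hall
    refine ⟨fun k u hu v hv => hU2 k u v hu hv, hx, hyI, hU1, ?_, ?_, fun k => (hall k).1.1,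
      fun k => (hall k).1.2.1, fun k => (hall k).1.2.2, ?_, fun k => (hall k).2.2.2.1,
      fun k => (hall k).2.2.2.2.1, fun k => (hall k).2.2.2.2.2.1,
      fun k => (hall k).2.2.2.2.2.2.1, fun k => (hall k).2.2.2.2.2.2.2.1,
      fun k => (hall k).2.2.2.2.2.2.2.2⟩
    · intro k hk
      obtain ⟨j, rfl⟩ : ∃ j, k = j + 1 := ⟨k - 1, by omega⟩
      exact (hall j).2.1
    · intro k hk
      obtain ⟨j, rfl⟩ : ∃ j, k = j + 1 := ⟨k - 1, by omega⟩
      exact (hall j).2.2.1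
    · rw [hNs, hD0]; exact hy
  refine ⟨pl, M, N, r, 0, y, hpl, hM, hNmono, ?_⟩
  have h1 := measureReal_mono (μ := P d) hsub
  have h2 := h1.trans (measureReal_union_le _ _)
  have h3 := measureReal_union_le (μ := P d) (⋃ k, B k) Z
  rw [hZ0] at h3
  have h4 : 2 * (T * δ ^ 3) < c * δ * (c * δ) := by
    have : 2 * T * δ * δ ^ 2 < c ^ 2 * δ ^ 2 := mul_lt_mul_of_pos_right hδc (by positivity)
    nlinarith
  linarith

end Positive_aux

open Positive_aux in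
theorem good_pair_pos {a : ℕ} (ha : 4 * (49000 * KK ^ 2 + 10 * KK) ≤ a) {pc : ℝ} (hd : 1 ≤ d)
    (h : HD d a pc) : ∃ (pl : ℕ → ℝ) (M N r : ℕ → ℕ) (x y : V d), StrictAnti pl ∧
      (∀ k, 1 ≤ M k) ∧ Monotone N ∧
      0 < (P d).real {U : Cfg d | GoodPair pl M N r x y U} :=
  posK (by norm_num [KK]) ha hd h

end Pool.Agent.helper55.FP
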