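import Pool.Agent.helper55.FP.NDefs
import Pool.Agent.helper55.FP.LDefs
import Pool.Agent.helper55.FP.Conn
import Pool.Agent.helper55.FP.Paths
import Pool.Agent.helper55.FP.Meas
import Pool.Agent.helper55.FP.Indep
import Pool.Agent.helper55.FP.Resample
import Pool.Agent.helper55.FP.BK
import Pool.Agent.helper55.FP.Harris
import Pool.Agent.helper55.FP.Symm
import Pool.Agent.helper55.FP.LeftCont
import Pool.Agent.helper55.FP.Sprinkle
import Pool.Agent.helper55.FP.Balls

/-! Module BallLoc: measurability, locality and counting of first-passage balls. -/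

set_option autoImplicit false

open MeasureTheory Set Filter Topology
open scoped ENNReal

namespace Pool.Agent.helper55.FP

variable {d : ℕ}

/-! ## FILE BallLoc (F1') : locality and measurability -/

theorem measurable_costE {g : ℝ → ℕ} (hg : Monotone g) (q : ℝ) (e : E d) :
    Measurable fun U : Cfg d => costE g q U e := by
  have h1 : Measurable (cost g q) := by
    unfold cost
    exact Measurable.ite (measurableSet_Iic (a := q)) measurable_const hg.measurable
  exact h1.comp (measurable_pi_apply e)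

/-- reachability in `n` steps with cost at most `t` (recursive form) -/
private def Rch (c : E d → ℕ) (W : Set (V d)) (x : V d) : ℕ → ℕ → V d → Prop
  | 0, _, z => (z = x ∧ x ∈ W) ∧ Nonempty (E d)
  | (n + 1), t, z => ∃ y : V d, ∃ e : E d, ∃ s : ℕ, Rch c W x n s y ∧ Joins e y z ∧ z ∈ W ∧ s + c e ≤ t

private theorem rch_iff (c : E d → ℕ) (W : Set (V d)) (x : V d) (n t : ℕ) (z : V d) :
    Rch c W x n t z ↔ ∃ w e, Wk W n w e ∧ w 0 = x ∧ w n = z ∧ wcost c n e ≤ t := by
  induction n generalizing t z with
  | zero =>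
    constructor
    · rintro ⟨⟨rfl, hx⟩, ⟨e₀⟩⟩
      exact ⟨fun _ => z, fun _ => e₀, ⟨fun i _ => hx, fun i hi => absurd hi (by omega)⟩, rfl, rfl,
        by simp [wcost]⟩
    · rintro ⟨w, e, ⟨hw, -⟩, h0, hn, -⟩
      exact ⟨⟨hn.symm.trans h0, h0 ▸ hw 0 le_rfl⟩, ⟨e 0⟩⟩
  | succ n ih =>
    constructor
    · rintro ⟨y, e, s, hy, hj, hz, hc⟩
      obtain ⟨w, f, ⟨hw, hf⟩, h0, hn, hcost⟩ := (ih s y).1 hy
      refine ⟨fun i => if i ≤ n then w i else z, fun i => if i < n then f i else e, ⟨?_, ?_⟩, ?_, ?_, ?_⟩
      · intro i hi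
        by_cases h : i ≤ n
        · simp only [h, if_true]
          exact hw i h
        · simp only [h, if_false]
          exact hz
      · intro i hi
        by_cases h : i < n
        · have h1 : i ≤ n := h.le
          have h2 : i + 1 ≤ n := h
          simp only [h, h1, h2, if_true]
          exact hf i h
        · have h1 : i = n := by omega
          subst h1
          simp only [lt_irrefl, le_refl, if_true, if_false]
          have h2 : ¬ (i + 1 ≤ i) := by omega
          simp only [h2, if_false]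
          rw [hn]
          exact hj
      · simp [h0]
      · simp
      · unfold wcost at hcost ⊢
        rw [Finset.sum_range_succ]
        simp only [lt_irrefl, if_false]
        have : ∑ i ∈ Finset.range n, c (if i < n then f i else e) = ∑ i ∈ Finset.range n, c (f i) := by
          refine Finset.sum_congr rfl fun i hi => ?_
          rw [if_pos (Finset.mem_range.1 hi)]
        rw [this]
        omega
    · rintro ⟨w, e, ⟨hw, he⟩, h0, hn, hcost⟩
      refine ⟨w n, e n, wcost c n e, (ih _ _).2 ⟨w, e, ⟨fun i hi => hw i (by omega), fun i hi => he i (by omega)⟩,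
        h0, rfl, le_rfl⟩, ?_, ?_, ?_⟩
      · rw [← hn]
        exact he n (by omega)
      · rw [← hn]
        exact hw _ le_rfl
      · unfold wcost at hcost ⊢
        rw [Finset.sum_range_succ] at hcost
        exact hcost

private theorem mem_bl_iff (c : E d → ℕ) (W : Set (V d)) (x z : V d) (t : ℕ) :
    z ∈ Bl c W x t ↔ ∃ n, Rch c W x n t z := by
  constructor
  · rintro ⟨n, w, e, h⟩
    exact ⟨n, (rch_iff c W x n t z).2 ⟨w, e, h⟩⟩
  · rintro ⟨n, h⟩
    obtain ⟨w, e, h'⟩ := (rch_iff c W x n t z).1 h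
    exact ⟨n, w, e, h'⟩

private theorem measurableSet_rch {g : ℝ → ℕ} (hg : Monotone g) (q : ℝ) (W : Set (V d)) (x : V d)
    (n t : ℕ) (z : V d) : MeasurableSet {U : Cfg d | Rch (costE g q U) W x n t z} := by
  induction n generalizing t z with
  | zero =>
    simp only [Rch]
    exact MeasurableSet.const _
  | succ n ih =>
    have h1 : {U : Cfg d | Rch (costE g q U) W x (n + 1) t z}
        = ⋃ y : V d, ⋃ e : E d, ⋃ s : ℕ, ({U : Cfg d | Rch (costE g q U) W x n s y} ∩
          {_U : Cfg d | Joins e y z ∧ z ∈ W}) ∩ {U : Cfg d | s + costE g q U e ≤ t} := by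
      ext U
      simp only [Rch, mem_iUnion, mem_inter_iff]
      constructor
      · rintro ⟨y, e, s, h1, h2, h3, h4⟩
        exact ⟨y, e, s, ⟨h1, h2, h3⟩, h4⟩
      · rintro ⟨y, e, s, ⟨h1, h2, h3⟩, h4⟩
        exact ⟨y, e, s, h1, h2, h3, h4⟩
    rw [h1]
    refine MeasurableSet.iUnion fun y => MeasurableSet.iUnion fun e => MeasurableSet.iUnion fun s =>
      ((ih s y).inter (MeasurableSet.const _)).inter ?_
    exact measurableSet_le (measurable_const.add (measurable_costE hg q e)) measurable_const

theorem measurableSet_bl {g : ℝ → ℕ} (hg : Monotone g) (q : ℝ) (W : Set (V d)) (x z : V d) (t : ℕ) :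
    MeasurableSet {U : Cfg d | z ∈ Bl (costE g q U) W x t} := by
  have h1 : {U : Cfg d | z ∈ Bl (costE g q U) W x t}
      = ⋃ n, {U : Cfg d | Rch (costE g q U) W x n t z} := by
    ext U
    simp only [mem_iUnion]
    exact mem_bl_iff _ _ _ _ _
  rw [h1]
  exact MeasurableSet.iUnion fun n => measurableSet_rch hg q W x n t z

theorem measurableSet_bl_eq {g : ℝ → ℕ} (hg : Monotone g) (q : ℝ) (W D : Set (V d)) (x : V d)
    (t : ℕ) : MeasurableSet {U : Cfg d | Bl (costE g q U) W x t = D} := by
  have h1 : {U : Cfg d | Bl (costE g q U) W x t = D}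
      = ⋂ z : V d, {U : Cfg d | z ∈ Bl (costE g q U) W x t ↔ z ∈ D} := by
    ext U
    simp only [mem_iInter]
    exact Set.ext_iff
  rw [h1]
  refine MeasurableSet.iInter fun z => ?_
  by_cases hz : z ∈ D
  · have h2 : {U : Cfg d | z ∈ Bl (costE g q U) W x t ↔ z ∈ D}
        = {U : Cfg d | z ∈ Bl (costE g q U) W x t} := by
      ext U
      exact ⟨fun h => h.2 hz, fun h => ⟨fun _ => hz, fun _ => h⟩⟩
    rw [h2]
    exact measurableSet_bl hg q W x z t
  · have h2 : {U : Cfg d | z ∈ Bl (costE g q U) W x t ↔ z ∈ D}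
        = {U : Cfg d | z ∈ Bl (costE g q U) W x t}ᶜ := by
      ext U
      exact ⟨fun h h' => hz (h.1 h'), fun h => ⟨fun h' => absurd h' h, fun h' => absurd h' hz⟩⟩
    rw [h2]
    exact (measurableSet_bl hg q W x z t).compl

/-- `{Bl = D}` depends only on the edges of `W` touching `D` -/
theorem dependsOn_bl_eq (g : ℝ → ℕ) (q : ℝ) (W D : Set (V d)) (x : V d) (hx : x ∈ W) (t : ℕ) :
    DependsOn (fun U : Cfg d => Bl (costE g q U) W x t = D) (inner W ∩ touch D) := by
  intro U U' h
  have h1 : ∀ e ∈ inner W ∩ touch D, costE g q U e = costE g q U' e := by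
    intro e he
    unfold costE
    rw [h e he]
  exact propext ⟨fun hs => bl_eq_of_agree h1 hs hx,
    fun hs => bl_eq_of_agree (fun e he => (h1 e he).symm) hs hx⟩

/-- the balls with at most `N` elements are at most `N + 1` in number -/
theorem bl_count (c : E d → ℕ) (W : Set (V d)) (x : V d) (N : ℕ) :
    {D : Set (V d) | D.encard ≤ N ∧ ∃ t, D = Bl c W x t}.encard ≤ (N : ℕ∞) + 1 := by
  have hmaps : ∀ D ∈ {D : Set (V d) | D.encard ≤ N ∧ ∃ t, D = Bl c W x t},
      D.ncard ∈ (↑(Finset.range (N + 1)) : Set ℕ) := by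
    rintro D ⟨hD, -⟩
    simp only [Finset.coe_range, mem_Iio]
    have hfin : D.Finite := finite_of_encard_le_coe hD
    have h1 := hfin.cast_ncard_eq
    rw [← h1] at hD
    have : D.ncard ≤ N := by exact_mod_cast hD
    omega
  have hinj : InjOn Set.ncard {D : Set (V d) | D.encard ≤ N ∧ ∃ t, D = Bl c W x t} := by
    rintro D ⟨hD, t, ht⟩ D' ⟨hD', t', ht'⟩ h
    have hfin : D.Finite := finite_of_encard_le_coe hD
    have hfin' : D'.Finite := finite_of_encard_le_coe hD'
    rcases le_total t t' with htt | htt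
    · have hsub : D ⊆ D' := by
        rw [ht, ht']
        exact bl_mono c W x htt
      exact Set.eq_of_subset_of_ncard_le hsub h.ge hfin'
    · have hsub : D' ⊆ D := by
        rw [ht, ht']
        exact bl_mono c W x htt
      exact (Set.eq_of_subset_of_ncard_le hsub h.le hfin).symm
  calc {D : Set (V d) | D.encard ≤ N ∧ ∃ t, D = Bl c W x t}.encard
      ≤ (↑(Finset.range (N + 1)) : Set ℕ).encard := Set.encard_le_encard_of_injOn hmaps hinj
    _ = (N : ℕ∞) + 1 := by
      rw [Set.encard_coe_eq_coe_finsetCard, Finset.card_range]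
      simp

end Pool.Agent.helper55.FP
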