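import Pool.Agent.helper55.FP.NDefs
import Pool.Agent.helper55.FP.LDefs
import Pool.Agent.helper55.FP.Conn
import Pool.Agent.helper55.FP.Paths
import Pool.Agent.helper55.FP.Meas
import Pool.Agent.helper55.FP.Indep
import Pool.Agent.helper55.FP.Resample
import Pool.Agent.helper55.FP.BK
import Pool.Agent.helper55.FP.Harris
import Pool.Agent.helper55.FP.Symm
import Pool.Agent.helper55.FP.LeftCont
import Pool.Agent.helper55.FP.Sprinkle
import Pool.Agent.helper55.FP.Balls

/-! # FP project, module Chain (F6): optimal walks and the exploration -/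

set_option autoImplicit false

open MeasureTheory Set Filter Topology
open scoped ENNReal

namespace Pool.Agent.helper55.FP

variable {d : ℕ}

namespace Chain_aux

theorem wcost_succ (c : E d → ℕ) (n : ℕ) (e : ℕ → E d) :
    wcost c (n + 1) e = wcost c n e + c (e n) := by
  unfold wcost
  rw [Finset.sum_range_succ]

theorem wcost_mono (c : E d → ℕ) (e : ℕ → E d) {i j : ℕ} (h : i ≤ j) :
    wcost c i e ≤ wcost c j e := by
  unfold wcost
  exact Finset.sum_le_sum_of_subset (Finset.range_mono h)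

theorem Wk_prefix {W : Set (V d)} {n : ℕ} {w : ℕ → V d} {e : ℕ → E d} (h : Wk W n w e) {i : ℕ}
    (hi : i ≤ n) : Wk W i w e :=
  ⟨fun j hj => h.1 j (hj.trans hi), fun j hj => h.2 j (lt_of_lt_of_le hj hi)⟩

/-- extending a walk by one step -/
theorem Wk_snoc (c : E d → ℕ) {W : Set (V d)} {n : ℕ} {w : ℕ → V d} {e : ℕ → E d}
    (h : Wk W n w e) {v : V d} (hv : v ∈ W) {e1 : E d} (he1 : Joins e1 (w n) v) :
    ∃ w' e', Wk W (n + 1) w' e' ∧ w' 0 = w 0 ∧ w' (n + 1) = v ∧
      wcost c (n + 1) e' = wcost c n e + c e1 := by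
  refine ⟨fun j => if j ≤ n then w j else v, fun j => if j < n then e j else e1,
    ⟨?_, ?_⟩, ?_, ?_, ?_⟩
  · intro j _
    by_cases hj : j ≤ n
    · simp only [hj, if_true]
      exact h.1 j hj
    · simp only [hj, if_false]
      exact hv
  · intro j hj
    have hj' : j ≤ n := by omega
    by_cases hjn : j < n
    · have h2 : j + 1 ≤ n := hjn
      simp only [hjn, hj', h2, if_true]
      exact h.2 j hjn
    · have h3 : j = n := by omega
      subst h3
      simp only [lt_irrefl, if_false, le_refl, if_true, Nat.not_succ_le_self]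
      exact he1
  · simp
  · simp
  · rw [wcost_succ]
    simp only [lt_irrefl, if_false]
    congr 1
    unfold wcost
    refine Finset.sum_congr rfl fun j hj => ?_
    rw [Finset.mem_range] at hj
    simp only [hj, if_true]

/-- a walk followed by free steps -/
theorem Sb_walk {c : E d → ℕ} {O : Set (E d)} (hO : ∀ e ∈ O, c e = 0) {W W' : Set (V d)}
    (hW : W' ⊆ W) {n : ℕ} {w : ℕ → V d} {e : ℕ → E d} (h : Wk W n w e) {b : V d} (hb : w n = b) :
    ∀ (k : ℕ) (v : V d), v ∈ Sb O W' b k → ∃ n' w' e', Wk W n' w' e' ∧ w' 0 = w 0 ∧ w' n' = v ∧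
      n' ≤ n + k ∧ wcost c n' e' = wcost c n e := by
  intro k
  induction k with
  | zero =>
    intro v hv
    have : v = b := hv.1
    exact ⟨n, w, e, h, rfl, hb.trans this.symm, by omega, rfl⟩
  | succ k ih =>
    intro v hv
    rcases hv with hv | ⟨a, ha, -, hvW, e1, he1, hj⟩
    · obtain ⟨n', w', e', h1, h2, h3, h4, h5⟩ := ih v hv
      exact ⟨n', w', e', h1, h2, h3, by omega, h5⟩
    · obtain ⟨n', w', e', h1, h2, h3, h4, h5⟩ := ih a ha
      rw [← h3] at hj
      obtain ⟨w'', e'', g1, g2, g3, g4⟩ := Wk_snoc c h1 (hW hvW) hj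
      exact ⟨n' + 1, w'', e'', g1, g2.trans h2, g3, by omega, by rw [g4, hO e1 he1, h5, add_zero]⟩

theorem Sb_conn {O : Set (E d)} {W : Set (V d)} {b : V d} :
    ∀ (k : ℕ) (v : V d), v ∈ Sb O W b k → Conn O univ b v := by
  intro k
  induction k with
  | zero =>
    intro v hv
    have : v = b := hv.1
    rw [this]
    exact Conn.refl (mem_univ _)
  | succ k ih =>
    intro v hv
    rcases hv with hv | ⟨a, ha, hs⟩
    · exact ih v hv
    · exact (ih a ha).snoc ⟨mem_univ _, mem_univ _, hs.2.2⟩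

theorem costE_zero {g : ℝ → ℕ} {q : ℝ} {U : Cfg d} {e : E d} (h : e ∈ op q U) :
    costE g q U e = 0 := by
  unfold costE cost
  have h' : U e ≤ q := h
  rw [if_pos h']

theorem mem_op_of_costE {g : ℝ → ℕ} (hg : ∀ u, 1 ≤ g u) {q : ℝ} {U : Cfg d} {e : E d}
    (h : costE g q U e = 0) : e ∈ op q U := by
  by_contra hno
  have h' : ¬ U e ≤ q := hno
  unfold costE cost at h
  rw [if_neg h'] at h
  have := hg (U e)
  omega

end Chain_aux

open Chain_aux

/-- along an optimal walk every vertex is visited by the exploration, the rest of the walk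
avoids the explored set -/
theorem chain_vis {g : ℝ → ℕ} (hg : ∀ u, 1 ≤ g u) {q : ℝ} {U : Cfg d} {W : Set (V d)} {n : ℕ}
    {w : ℕ → V d} {e : ℕ → E d} (h : OptW (costE g q U) W n w e) {i : ℕ} (hi : i ≤ n) :
    ∃ A, Vis (costE g q U) (op q U) W (w 0) A (w i) ∧ (∀ j, i ≤ j → j ≤ n → w j ∉ A) ∧
      A ⊆ Cl (op q U) univ (w i) ∪
        {v | ∃ t, t + 1 = wcost (costE g q U) i e ∧ v ∈ Bl (costE g q U) W (w 0) t} := by
  classical
  set c : E d → ℕ := costE g q U with hc
  -- the first index with the cost of `w i`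
  have hex : ∃ j, wcost c j e = wcost c i e := ⟨i, rfl⟩
  set j0 := Nat.find hex with hj0
  have hj0s : wcost c j0 e = wcost c i e := Nat.find_spec hex
  have hj0i : j0 ≤ i := Nat.find_min' hex rfl
  have hopen : ∀ j, j0 ≤ j → j < i → e j ∈ op q U := by
    intro j h1 h2
    refine mem_op_of_costE hg ?_
    have h3 := wcost_mono c e h1
    have h4 := wcost_mono c e (Nat.succ_le_of_lt h2)
    rw [wcost_succ] at h4
    show c (e j) = 0
    omega
  -- optimal cost
  have hopt : ∀ j, j ≤ n → ∀ n' w' e', Wk W n' w' e' → w' 0 = w 0 → w' n' = w j →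
      wcost c j e < wcost c n' e' ∨ (wcost c j e = wcost c n' e' ∧ j ≤ n') :=
    fun j hj => (h.pre hj).2
  -- the ball
  obtain ⟨B, hEnt, hBw, hBsub⟩ : ∃ B : Set (V d), Ent c W (w 0) B (w j0) ∧
      (∀ j, j0 ≤ j → j ≤ n → w j ∉ B) ∧
      B ⊆ {v | ∃ t, t + 1 = wcost c i e ∧ v ∈ Bl c W (w 0) t} := by
    rcases Nat.eq_zero_or_pos (wcost c i e) with hs | hs
    · have h0 : j0 = 0 := by
        have : wcost c 0 e = wcost c i e := by
          rw [hs]
          unfold wcost
          simp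
        exact Nat.le_zero.1 (Nat.find_min' hex this)
      refine ⟨∅, Or.inl ⟨rfl, by rw [h0], h.1.1 0 (Nat.zero_le _)⟩, fun j _ _ => fun h => h, ?_⟩
      exact empty_subset _
    · obtain ⟨t, ht⟩ : ∃ t, wcost c i e = t + 1 := ⟨wcost c i e - 1, by omega⟩
      have hnot : ∀ j, j0 ≤ j → j ≤ n → w j ∉ Bl c W (w 0) t := by
        rintro j hj hjn ⟨n', w', e', h1, h2, h3, h4⟩
        have h5 := wcost_mono c e hj
        rcases hopt j hjn n' w' e' h1 h2 h3 with h6 | ⟨h6, -⟩ <;> omega
      refine ⟨Bl c W (w 0) t, Or.inr ⟨t, rfl, ⟨h.1.1 j0 (hj0i.trans hi),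
        hnot j0 le_rfl (hj0i.trans hi)⟩, ?_⟩, hnot, fun v hv => ⟨t, ht.symm, hv⟩⟩
      have hpos : 0 < j0 := by
        rcases Nat.eq_zero_or_pos j0 with h0 | h0
        · exfalso
          rw [h0] at hj0s
          have : wcost c 0 e = 0 := by
            unfold wcost
            simp
          omega
        · exact h0
      obtain ⟨j1, hj1⟩ : ∃ j1, j0 = j1 + 1 := ⟨j0 - 1, by omega⟩
      have hj1n : j1 < n := by omega
      have hne : wcost c j1 e ≠ wcost c i e := by
        apply Nat.find_min hex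
        omega
      have hle := wcost_mono c e (show j1 ≤ i by omega)
      refine ⟨w j1, ⟨j1, w, e, Wk_prefix h.1 hj1n.le, rfl, rfl, by omega⟩, e j1, ?_⟩
      have := h.1.2 j1 hj1n
      rwa [← hj1] at this
  -- the vertices after `j0` are reached by open steps
  have hmem : ∀ k, j0 + k ≤ i → w (j0 + k) ∈ Sb (op q U) (W \ B) (w j0) k := by
    intro k
    induction k with
    | zero =>
      intro hk
      exact ⟨rfl, h.1.1 _ (hk.trans hi), hBw _ le_rfl (hk.trans hi)⟩
    | succ k ih =>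
      intro hk
      refine Or.inr ⟨w (j0 + k), ih (by omega), ⟨h.1.1 _ (by omega), hBw _ (by omega) (by omega)⟩,
        ⟨h.1.1 _ (by omega), hBw _ (by omega) (by omega)⟩, e (j0 + k),
        hopen _ (by omega) (by omega), ?_⟩
      exact h.1.2 (j0 + k) (by omega)
  have hbi : Conn (op q U) univ (w j0) (w i) := by
    have := hmem (i - j0) (by omega)
    rw [show j0 + (i - j0) = i by omega] at this
    exact Sb_conn _ _ this
  rcases Nat.eq_or_lt_of_le hj0i with hji | hji
  · refine ⟨B, ⟨B, w j0, hEnt, Or.inl ⟨rfl, by rw [hji]⟩⟩, ?_, hBsub.trans subset_union_right⟩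
    intro j h1 h2
    exact hBw j (by omega) h2
  · obtain ⟨m, hm⟩ : ∃ m, i = j0 + m + 1 := ⟨i - j0 - 1, by omega⟩
    have hnot : ∀ j, i ≤ j → j ≤ n → w j ∉ Sb (op q U) (W \ B) (w j0) m := by
      intro j h1 h2 h3
      obtain ⟨n', w', e', g1, g2, g3, g4, g5⟩ := Sb_walk (c := c) (fun e he => costE_zero he)
        (W := W) diff_subset (Wk_prefix h.1 (hj0i.trans hi)) rfl m (w j) h3
      have h5 := wcost_mono c e h1
      rcases hopt j h2 n' w' e' g1 g2 g3 with h6 | ⟨h6, h7⟩ <;> omega
    refine ⟨B ∪ Sb (op q U) (W \ B) (w j0) m, ⟨B, w j0, hEnt, Or.inr ⟨m, rfl, ?_, ?_⟩⟩, ?_, ?_⟩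
    · have := hmem (m + 1) (by omega)
      rwa [show j0 + (m + 1) = i by omega] at this
    · exact hnot i le_rfl hi
    · intro j h1 h2 h3
      rcases h3 with h3 | h3
      · exact hBw j (by omega) h2 h3
      · exact hnot j h1 h2 h3
    · refine union_subset (hBsub.trans subset_union_right) ?_
      intro v hv
      exact Or.inl (hbi.symm.trans (Sb_conn _ _ hv))

end Pool.Agent.helper55.FP
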