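import Mathlib

/-!
# First-passage percolation project (MP_716210_pr): basic definitions

`V d = ℤ^d`, `E d` = edges (`(x,i)` joins `x` and `x + e_i`), `Cfg d = E d → ℝ` configurations,
`P d` = product of the uniform laws on `[0,1]`, `op p U` = edges open at level `p`.
-/

set_option autoImplicit false

open MeasureTheory Set

namespace Pool.Agent.helper55.FP

/-- vertices of the lattice `ℤ^d` -/
abbrev V (d : ℕ) := Fin d → ℤ

/-- edges: `(x, i)` joins `x` and `x + e_i` -/
abbrev E (d : ℕ) := (Fin d → ℤ) × Fin d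

/-- configurations -/
abbrev Cfg (d : ℕ) := E d → ℝ

/-- uniform law on `[0,1]` -/
noncomputable def unif : Measure ℝ := (volume : Measure ℝ).restrict (Icc 0 1)

instance : IsProbabilityMeasure unif := ⟨by simp [unif]⟩

/-- the product measure: i.i.d. uniform variables on the edges -/
noncomputable def P (d : ℕ) : Measure (Cfg d) := Measure.infinitePi (fun _ : E d => unif)

instance (d : ℕ) : IsProbabilityMeasure (P d) := by unfold P; infer_instance

variable {d : ℕ}

/-- far endpoint of an edge -/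
def tip (e : E d) : V d := e.1 + Pi.single e.2 1

/-- the edge `e` joins `a` and `b` -/
def Joins (e : E d) (a b : V d) : Prop := (a = e.1 ∧ b = tip e) ∨ (b = e.1 ∧ a = tip e)

/-- lattice adjacency -/
def Adj (a b : V d) : Prop := ∃ e : E d, Joins e a b

/-- one step along an edge of `O` inside the vertex set `W` -/
def Step (O : Set (E d)) (W : Set (V d)) (a b : V d) : Prop :=
  a ∈ W ∧ b ∈ W ∧ ∃ e ∈ O, Joins e a b

/-- `a` and `b` are connected by edges of `O` inside the vertex set `W` -/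
def Conn (O : Set (E d)) (W : Set (V d)) (a b : V d) : Prop :=
  a ∈ W ∧ Relation.ReflTransGen (Step O W) a b

/-- the cluster of `a` (edges of `O`, inside `W`) -/
def Cl (O : Set (E d)) (W : Set (V d)) (a : V d) : Set (V d) := {b | Conn O W a b}

/-- open edges at level `p` -/
def op (p : ℝ) (U : Cfg d) : Set (E d) := {e | U e ≤ p}

/-- edges with at least one endpoint in `D` -/
def touch (D : Set (V d)) : Set (E d) := {e | e.1 ∈ D ∨ tip e ∈ D}

/-- edges with both endpoints in `W` -/
def inner (W : Set (V d)) : Set (E d) := {e | e.1 ∈ W ∧ tip e ∈ W}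

/-- event: some finite edge set of the family `𝒜` is open at level `p` -/
def Ev (p : ℝ) (𝒜 : Set (Finset (E d))) : Set (Cfg d) := {U | ∃ K ∈ 𝒜, ∀ e ∈ K, U e ≤ p}

/-- witnesses of a connection -/
def cw (W : Set (V d)) (a b : V d) : Set (Finset (E d)) := {K | Conn (↑K) W a b}

/-- disjoint occurrence of two families of witnesses -/
def dj (𝒜 ℬ : Set (Finset (E d))) : Set (Finset (E d)) :=
  {M | ∃ K ∈ 𝒜, ∃ L ∈ ℬ, Disjoint K L ∧ K ⊆ M ∧ L ⊆ M}

/-- probability of a connection inside `W` at level `p` -/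
noncomputable def tauW (p : ℝ) (W : Set (V d)) (a b : V d) : ℝ :=
  (P d).real {U | Conn (op p U) W a b}

/-- two-point function `τ_p(x)` -/
noncomputable def tau (p : ℝ) (x : V d) : ℝ := tauW p univ 0 x

/-- probability that the cluster of `a` in `W` is infinite -/
noncomputable def thetaW (p : ℝ) (W : Set (V d)) (a : V d) : ℝ :=
  (P d).real {U | (Cl (op p U) W a).Infinite}

/-- percolation probability -/
noncomputable def theta (d : ℕ) (p : ℝ) : ℝ := thetaW p (univ : Set (V d)) 0

/-- `P(|C_W(a)| ≥ n)` -/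
noncomputable def tailW (p : ℝ) (W : Set (V d)) (a : V d) (n : ℕ) : ℝ :=
  (P d).real {U | (n : ℕ∞) ≤ (Cl (op p U) W a).encard}

/-- `P(|C(0)| ≥ n)` -/
noncomputable def tail (d : ℕ) (p : ℝ) (n : ℕ) : ℝ := tailW p (univ : Set (V d)) 0 n

/-- The facts on high-dimensional percolation that are used in the near-critical part. -/
structure HD (d a : ℕ) (pc : ℝ) : Prop where
  pos : 0 < pc
  lt_one : pc < 1
  theta_lb : ∃ c > 0, ∀ δ > 0, pc + δ ≤ 1 → c * δ ≤ theta d (pc + δ)
  tail_ub : ∃ C > 0, ∀ δ ≥ 0, pc + δ ≤ 1 → ∀ n : ℕ, 1 ≤ n → tail d (pc + δ) n ≤ C * (δ + 1 / Real.sqrt n)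
  decay : ∃ C > 0, ∀ x : V d, tau pc x ≤ C / (1 + ‖x‖) ^ a
  ball : ∃ C > 0, ∀ r : ℕ, 1 ≤ r → ∀ F : Finset (V d), (∀ x ∈ F, ‖x‖ ≤ r) → ∑ x ∈ F, tau pc x ≤ C * (r : ℝ) ^ 2

end Pool.Agent.helper55.FP
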