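import Pool.Agent.helper55.FP.Defs

/-! `HD d a pc` forces `d ≠ 0`. -/

set_option autoImplicit false

open MeasureTheory Set

namespace Pool.Agent.helper55.FP

theorem HD.neZero {d a : ℕ} {pc : ℝ} (h : HD d a pc) : NeZero d := by
  refine ⟨fun hd => ?_⟩
  subst hd
  obtain ⟨c, hc, hth⟩ := h.theta_lb
  have h1 := h.lt_one
  have h2 := hth (1 - pc) (by linarith) (by linarith)
  have h3 : theta 0 (pc + (1 - pc)) = 0 := by
    unfold theta thetaW
    have : {U : Cfg 0 | (Cl (op (pc + (1 - pc)) U) (univ : Set (V 0)) 0).Infinite} = ∅ := by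
      ext U
      simp only [mem_setOf_eq, mem_empty_iff_false, iff_false, Set.not_infinite]
      exact Set.toFinite _
    rw [this]; simp
  rw [h3] at h2
  have : 0 < c * (1 - pc) := mul_pos hc (by linarith)
  linarith

end Pool.Agent.helper55.FP
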