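import Pool.Agent.helper55.FP.NDefs
import Pool.Agent.helper55.FP.LDefs
import Pool.Agent.helper55.FP.Conn
import Pool.Agent.helper55.FP.Paths
import Pool.Agent.helper55.FP.Meas
import Pool.Agent.helper55.FP.Indep
import Pool.Agent.helper55.FP.Resample
import Pool.Agent.helper55.FP.BK
import Pool.Agent.helper55.FP.Harris
import Pool.Agent.helper55.FP.Symm
import Pool.Agent.helper55.FP.LeftCont
import Pool.Agent.helper55.FP.Sprinkle

/-! # FP project, module ExitLim: finite volume to infinite volume for exits, measurability. -/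

set_option autoImplicit false

open MeasureTheory Set Filter Topology
open scoped ENNReal

namespace Pool.Agent.helper55.FP

variable {d : ℕ}

/-! ## Random subsets of a countable type -/

private theorem meas_encard_nat {ι : Type} [Countable ι] (X : Cfg d → Set ι)
    (hX : ∀ i, MeasurableSet {U : Cfg d | i ∈ X U}) (n : ℕ) :
    MeasurableSet {U : Cfg d | (n : ℕ∞) ≤ (X U).encard} := by
  have h : {U : Cfg d | (n : ℕ∞) ≤ (X U).encard} =
      ⋃ F ∈ {F : Finset ι | F.card = n}, ⋂ i ∈ F, {U : Cfg d | i ∈ X U} := by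
    ext U
    simp only [mem_ofPred_eq, mem_iUnion, mem_iInter, exists_prop]
    constructor
    · intro hU
      obtain ⟨t, ht, htn⟩ := Set.exists_subset_encard_eq hU
      have htf : t.Finite := Set.finite_of_encard_eq_coe htn
      refine ⟨htf.toFinset, ?_, fun i hi => ht (htf.mem_toFinset.1 hi)⟩
      rw [htf.encard_eq_coe_toFinset_card] at htn
      exact_mod_cast htn
    · rintro ⟨F, hF, hFU⟩
      rw [← hF, ← Set.encard_coe_eq_coe_finsetCard]
      exact Set.encard_le_encard fun i hi => hFU i hi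
  rw [h]
  exact MeasurableSet.biUnion (Set.to_countable _) fun F _ =>
    MeasurableSet.biInter (Set.to_countable _) fun i _ => hX i

private theorem meas_encard {ι : Type} [Countable ι] (X : Cfg d → Set ι)
    (hX : ∀ i, MeasurableSet {U : Cfg d | i ∈ X U}) (J : ℕ∞) :
    MeasurableSet {U : Cfg d | J ≤ (X U).encard} := by
  induction J using ENat.recTopCoe with
  | top =>
    have h : {U : Cfg d | ⊤ ≤ (X U).encard} = ⋂ n : ℕ, {U : Cfg d | (n : ℕ∞) ≤ (X U).encard} := by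
      ext U
      simp only [mem_ofPred_eq, mem_iInter, top_le_iff]
      constructor
      · intro h n
        rw [h]
        exact le_top
      · intro h
        exact ENat.eq_top_iff_forall_ge.2 h
    rw [h]
    exact MeasurableSet.iInter fun n => meas_encard_nat X hX n
  | coe n => exact meas_encard_nat X hX n

/-! ## FILE ExitLim (N2') : finite volume to infinite volume -/

theorem exits_finite (O : Set (E d)) (W : Set (V d)) (S : Finset (V d)) :
    (Exits O W (↑S)).Finite := by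
  refine (Set.Finite.biUnion S.finite_toSet (t := fun a => {a} ×ˢ {b : V d | Adj a b})
    fun a _ => (Set.finite_singleton a).prod (adj_finite a)).subset ?_
  rintro ⟨a, b⟩ ⟨ha, -, hab, -⟩
  simp only [mem_iUnion]
  exact ⟨a, ha, rfl, hab⟩

theorem exits_mono {O O' : Set (E d)} (h : O ⊆ O') (W S : Set (V d)) :
    Exits O W S ⊆ Exits O' W S := by
  rintro ⟨a, b⟩ ⟨ha, hb, hab, hinf⟩
  exact ⟨ha, hb, hab, hinf.mono fun v hv => Conn.mono h subset_rfl hv⟩

private theorem exitsTo_sub_finite (O : Set (E d)) (W Γ : Set (V d)) (S : Finset (V d)) :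
    ExitsTo O W (↑S) Γ ⊆ ⋃ a ∈ (↑S : Set (V d)), {a} ×ˢ {b : V d | Adj a b} := by
  rintro ⟨a, b⟩ ⟨ha, -, hab, -⟩
  simp only [mem_iUnion]
  exact ⟨a, ha, rfl, hab⟩

theorem measurableSet_exits (q : ℝ) (W S : Set (V d)) (J : ℕ∞) :
    MeasurableSet {U : Cfg d | J ≤ (Exits (op q U) W S).encard} := by
  refine meas_encard (fun U : Cfg d => Exits (op q U) W S) (fun x => ?_) J
  have h : {U : Cfg d | x ∈ Exits (op q U) W S} =
      {U : Cfg d | (x.1 ∈ S ∧ x.2 ∈ W \ S ∧ Adj x.1 x.2)} ∩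
        {U : Cfg d | (Cl (op q U) (W \ S) x.2).Infinite} := by
    ext U
    simp only [Exits, mem_ofPred_eq, mem_inter_iff]
    tauto
  rw [h]
  exact (MeasurableSet.const _).inter (measurableSet_inf _ _ _)

theorem measurableSet_exitsTo (q : ℝ) (W S Γ : Set (V d)) (J : ℕ∞) :
    MeasurableSet {U : Cfg d | J ≤ (ExitsTo (op q U) W S Γ).encard} := by
  refine meas_encard (fun U : Cfg d => ExitsTo (op q U) W S Γ) (fun x => ?_) J
  have h : {U : Cfg d | x ∈ ExitsTo (op q U) W S Γ} =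
      {U : Cfg d | (x.1 ∈ S ∧ x.2 ∈ W \ S ∧ Adj x.1 x.2)} ∩
        ⋃ g ∈ Γ, {U : Cfg d | Conn (op q U) (W \ S) x.2 g} := by
    ext U
    simp only [ExitsTo, mem_ofPred_eq, mem_inter_iff, mem_iUnion, exists_prop]
    tauto
  rw [h]
  exact (MeasurableSet.const _).inter
    (MeasurableSet.biUnion (Set.to_countable _) fun g _ => measurableSet_conn _ _ _ _)

theorem dependsOn_exits (q : ℝ) (W S : Set (V d)) :
    DependsOn (fun U : Cfg d => Exits (op q U) W S) (touch S)ᶜ := by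
  intro U U' h
  have hin : ∀ e ∈ inner (W \ S), U e = U' e := by
    intro e he
    refine h e ?_
    rintro (h1 | h1)
    · exact he.1.2 h1
    · exact he.2.2 h1
  have hcl : ∀ b, Cl (op q U) (W \ S) b = Cl (op q U') (W \ S) b := fun b =>
    dependsOn_cl q (W \ S) b hin
  ext x
  simp only [Exits, mem_ofPred_eq, hcl]

/-- exits of `S` towards the boundary of large boxes decrease to the exits of `S` -/
theorem exits_limit (q : ℝ) (D S : Finset (V d)) (hDS : Disjoint D S) (J : ℕ) (c : ℝ)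
    (h : ∃ N₀ : ℕ, ∀ N ≥ N₀, ∀ Λ Γ : Finset (V d), (∀ v, v ∈ Λ ↔ v ∉ D ∧ ‖v‖ ≤ N) →
      (∀ v, v ∈ Γ ↔ v ∉ D ∧ ‖v‖ = N) →
      c ≤ (P d).real {U : Cfg d | (J : ℕ∞) ≤ (ExitsTo (op q U) (↑Λ) (↑S) (↑Γ)).encard}) :
    c ≤ (P d).real {U : Cfg d | (J : ℕ∞) ≤ (Exits (op q U) (↑D)ᶜ (↑S)).encard} := by
  classical
  obtain ⟨N₀, hN₀⟩ := h
  -- the boxes
  have hball : ∀ N : ℕ, {v : V d | ‖v‖ ≤ (N : ℝ)}.Finite := by
    intro N
    have h1 : {v : V d | ‖v‖ ≤ (N : ℝ)} = Metric.closedBall (0 : V d) N := by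
      ext v
      simp
    rw [h1]
    exact (isCompact_closedBall (0 : V d) (N : ℝ)).finite_of_discrete
  set Λ : ℕ → Finset (V d) := fun N => (hball N).toFinset.filter (fun v => v ∉ D) with hΛ
  set Γ : ℕ → Finset (V d) := fun N => (hball N).toFinset.filter (fun v => v ∉ D ∧ ‖v‖ = N) with hΓ
  have mΛ : ∀ N v, v ∈ Λ N ↔ v ∉ D ∧ ‖v‖ ≤ N := by
    intro N v
    simp only [hΛ, Finset.mem_filter, Set.Finite.mem_toFinset, mem_ofPred_eq]
    tauto
  have mΓ : ∀ N v, v ∈ Γ N ↔ v ∉ D ∧ ‖v‖ = N := by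
    intro N v
    simp only [hΓ, Finset.mem_filter, Set.Finite.mem_toFinset, mem_ofPred_eq]
    constructor
    · exact fun h => h.2
    · exact fun h => ⟨h.2.le, h⟩
  set A : ℕ → Set (Cfg d) := fun N =>
    {U : Cfg d | (J : ℕ∞) ≤ (ExitsTo (op q U) (↑(Λ N)) (↑S) (↑(Γ N))).encard} with hA
  have hAm : ∀ N, MeasurableSet (A N) := fun N => measurableSet_exitsTo _ _ _ _ _
  have hAc : ∀ N ≥ N₀, c ≤ (P d).real (A N) := fun N hN => hN₀ N hN _ _ (mΛ N) (mΓ N)
  -- the limsup
  set B : ℕ → Set (Cfg d) := fun n => ⋃ m ≥ n, A m with hB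
  have hBm : ∀ n, MeasurableSet (B n) := fun n =>
    MeasurableSet.iUnion fun m => MeasurableSet.iUnion fun _ => hAm m
  have hBanti : Antitone B := by
    intro n n' hn
    refine iUnion_mono fun m => ?_
    exact iUnion_mono' fun hm => ⟨hn.trans hm, subset_rfl⟩
  have hlim : Tendsto (fun n => P d (B n)) atTop (𝓝 (P d (⋂ n, B n))) :=
    tendsto_measure_iInter_atTop (fun n => (hBm n).nullMeasurableSet) hBanti
      ⟨0, measure_ne_top _ _⟩
  have hBc : ∀ n ≥ N₀, ENNReal.ofReal c ≤ P d (B n) := by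
    intro n hn
    refine le_trans ?_ (measure_mono (s := A n) ?_)
    · rw [ENNReal.ofReal_le_iff_le_toReal (measure_ne_top _ _)]
      exact hAc n hn
    · exact subset_iUnion_of_subset n (subset_iUnion_of_subset le_rfl subset_rfl)
  have hBI : ENNReal.ofReal c ≤ P d (⋂ n, B n) :=
    ge_of_tendsto hlim (eventually_atTop.2 ⟨N₀, hBc⟩)
  have hsub : (⋂ n, B n) ⊆ {U : Cfg d | (J : ℕ∞) ≤ (Exits (op q U) (↑D)ᶜ (↑S)).encard} := by
    intro U hU
    have hU1 : ∀ n, ∃ m ≥ n, U ∈ A m := by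
      intro n
      have := mem_iInter.1 hU n
      simp only [hB, mem_iUnion, exists_prop] at this
      exact this
    -- infinitely many `m` with the same set of exits
    have hfin : ({T : Set (V d × V d) |
        T ⊆ ⋃ a ∈ (↑S : Set (V d)), {a} ×ˢ {b : V d | Adj a b}}).Finite :=
      (Set.Finite.biUnion S.finite_toSet
        fun a _ => (Set.finite_singleton a).prod (adj_finite a)).finite_subsets
    have hinf : {m : ℕ | U ∈ A m}.Infinite := by
      refine Set.infinite_of_not_bddAbove ?_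
      rintro ⟨b, hb⟩
      obtain ⟨m, hm, hmA⟩ := hU1 (b + 1)
      have := hb hmA
      omega
    set X : ℕ → Set (V d × V d) := fun m => ExitsTo (op q U) (↑(Λ m)) (↑S) (↑(Γ m)) with hX
    have hmaps : ∀ m, X m ∈ {T : Set (V d × V d) |
        T ⊆ ⋃ a ∈ (↑S : Set (V d)), {a} ×ˢ {b : V d | Adj a b}} :=
      fun m => exitsTo_sub_finite _ _ _ _
    obtain ⟨T, hT⟩ : ∃ T, {m : ℕ | U ∈ A m ∧ X m = T}.Infinite := by
      by_contra hcon
      push Not at hcon
      refine hinf ((hfin.biUnion (t := fun T => {m : ℕ | U ∈ A m ∧ X m = T})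
        fun T _ => hcon T).subset ?_)
      intro m hm
      exact mem_iUnion₂.2 ⟨X m, hmaps m, hm, rfl⟩
    -- `T` consists of exits
    obtain ⟨m₀, hm₀, hTm₀⟩ := hT.nonempty
    have hTsub : T ⊆ Exits (op q U) (↑D)ᶜ (↑S) := by
      intro x hx
      have hx0 : x ∈ X m₀ := by rw [hTm₀]; exact hx
      have hsubW : ∀ m, (↑(Λ m) : Set (V d)) \ ↑S ⊆ (↑D)ᶜ \ ↑S := fun m v hv =>
        ⟨fun hD => ((mΛ m v).1 hv.1).1 hD, hv.2⟩
      refine ⟨hx0.1, hsubW m₀ hx0.2.1, hx0.2.2.1, ?_⟩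
      intro hfin'
      obtain ⟨R, hR⟩ : ∃ R : ℝ, ∀ v ∈ Cl (op q U) ((↑D)ᶜ \ ↑S) x.2, ‖v‖ ≤ R := by
        obtain ⟨R, hR⟩ := (hfin'.image (fun v : V d => ‖v‖)).bddAbove
        exact ⟨R, fun v hv => hR (mem_image_of_mem _ hv)⟩
      obtain ⟨m, ⟨hm, hTm⟩, hmR⟩ : ∃ m ∈ {m : ℕ | U ∈ A m ∧ X m = T}, ⌈R⌉₊ < m :=
        hT.exists_gt ⌈R⌉₊
      have hxm : x ∈ X m := by rw [hTm]; exact hx
      obtain ⟨-, -, -, g, hg, hconn⟩ := hxm
      have h1 : ‖g‖ = m := ((mΓ m g).1 hg).2
      have h2 : ‖g‖ ≤ R := hR g (Conn.mono subset_rfl (hsubW m) hconn)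
      rw [h1] at h2
      have h3 : R < m := (Nat.le_ceil R).trans_lt (by exact_mod_cast hmR)
      linarith
    have h4 : (J : ℕ∞) ≤ (X m₀).encard := hm₀
    rw [hTm₀] at h4
    exact h4.trans (Set.encard_le_encard hTsub)
  have hfinal := hBI.trans (measure_mono hsub)
  rwa [ENNReal.ofReal_le_iff_le_toReal (measure_ne_top _ _)] at hfinal

end Pool.Agent.helper55.FP
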