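import Pool.Agent.helper55.FP.NDefs
import Pool.Agent.helper55.FP.LDefs
import Pool.Agent.helper55.FP.Conn
import Pool.Agent.helper55.FP.Paths
import Pool.Agent.helper55.FP.Meas
import Pool.Agent.helper55.FP.Indep
import Pool.Agent.helper55.FP.Resample
import Pool.Agent.helper55.FP.BK
import Pool.Agent.helper55.FP.Harris
import Pool.Agent.helper55.FP.Symm
import Pool.Agent.helper55.FP.LeftCont
import Pool.Agent.helper55.FP.Sprinkle
import Pool.Agent.helper55.FP.Balls
import Pool.Agent.helper55.FP.BallLoc
import Pool.Agent.helper55.FP.ExitLim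

/-! Module Fail: if a ball has many exits, the next layer hits the infinite cluster. -/

set_option autoImplicit false

open MeasureTheory Set Filter Topology
open scoped ENNReal

namespace Pool.Agent.helper55.FP

variable {d : ℕ}

/-! ## FILE Fail (N8) : next layer hits the infinite cluster -/

/-- `(a,b)` is a pair through which the infinite cluster is hit from the ball `τ` by an edge of
cost at most one -/
private def hp (g : ℝ → ℕ) (q : ℝ) (x : V d) (τ : ℕ) (a b : V d) (U : Cfg d) : Prop :=
  a ∈ Bl (costE g q U) univ x τ ∧ (Cl (op q U) univ b).Infinite ∧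
    ∃ f : E d, Joins f a b ∧ costE g q U f ≤ 1

/-- the ball `τ` does not meet the infinite cluster -/
private def nohit (g : ℝ → ℕ) (q : ℝ) (x : V d) (τ : ℕ) (U : Cfg d) : Prop :=
  ∀ z, z ∈ Bl (costE g q U) univ x τ → ¬ (Cl (op q U) univ z).Infinite

/-- `(a,b)` is the unique hitting pair -/
private def HH (g : ℝ → ℕ) (q : ℝ) (x : V d) (y : V d × V d) : Set (Cfg d) :=
  {U | ∃ τ, nohit g q x τ U ∧ hp g q x τ y.1 y.2 U ∧
    ∀ y' : V d × V d, hp g q x τ y'.1 y'.2 U → y' = y}

private def FF (g : ℝ → ℕ) (q : ℝ) (x : V d) (y : V d × V d) : Set (Cfg d) :=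
  {U | ∃ t, nohit g q x (t + 1) U ∧ y.1 ∈ Bl (costE g q U) univ x t ∧
    (Cl (op q U) univ y.2).Infinite ∧ Adj y.1 y.2}

private theorem meas_nohit {g : ℝ → ℕ} (hg : Monotone g) (q : ℝ) (x : V d) (τ : ℕ) :
    Measurable (nohit g q x τ) := by
  unfold nohit
  refine Measurable.forall (fun z => ?_)
  refine Measurable.imp ?_ ?_
  · exact measurableSet_setOfPred.1 (measurableSet_bl hg q univ x z τ)
  · exact (measurableSet_setOfPred.1 (measurableSet_inf q univ z)).not

private theorem meas_hp {g : ℝ → ℕ} (hg : Monotone g) (q : ℝ) (x : V d) (τ : ℕ) (a b : V d) :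
    Measurable (hp g q x τ a b) := by
  unfold hp
  refine Measurable.and ?_ (Measurable.and ?_ ?_)
  · exact measurableSet_setOfPred.1 (measurableSet_bl hg q univ x a τ)
  · exact measurableSet_setOfPred.1 (measurableSet_inf q univ b)
  · refine Measurable.exists (fun f => Measurable.and measurable_const ?_)
    exact measurableSet_setOfPred.1 (measurableSet_le (measurable_costE hg q f) measurable_const)

private theorem meas_HH {g : ℝ → ℕ} (hg : Monotone g) (q : ℝ) (x : V d) (y : V d × V d) :
    MeasurableSet (HH g q x y) := by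
  unfold HH
  rw [measurableSet_setOfPred]
  refine Measurable.exists (fun τ => Measurable.and (meas_nohit hg q x τ)
    (Measurable.and (meas_hp hg q x τ _ _) (Measurable.forall (fun y' => ?_))))
  exact Measurable.imp (meas_hp hg q x τ _ _) measurable_const

private theorem meas_FF {g : ℝ → ℕ} (hg : Monotone g) (q : ℝ) (x : V d) (y : V d × V d) :
    MeasurableSet (FF g q x y) := by
  unfold FF
  rw [measurableSet_setOfPred]
  refine Measurable.exists (fun t => Measurable.and (meas_nohit hg q x (t + 1))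
    (Measurable.and ?_ (Measurable.and ?_ measurable_const)))
  · exact measurableSet_setOfPred.1 (measurableSet_bl hg q univ x _ t)
  · exact measurableSet_setOfPred.1 (measurableSet_inf q univ _)

private theorem disj_HH (g : ℝ → ℕ) (q : ℝ) (x : V d) :
    Pairwise (Function.onFun Disjoint (HH g q x)) := by
  intro y y' hne
  refine Set.disjoint_left.2 (fun U hU hU' => hne ?_)
  obtain ⟨τ, h1, h2, h3⟩ := hU
  obtain ⟨τ', h1', h2', h3'⟩ := hU'
  have key : ∀ {s s' : ℕ} {z z' : V d × V d}, nohit g q x s U → hp g q x s' z'.1 z'.2 U →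
      s ≤ s' := by
    intro s s' z z' hs hz'
    by_contra hlt
    push Not at hlt
    obtain ⟨ha, hb, f, hf, hcf⟩ := hz'
    have h4 : z'.2 ∈ Bl (costE g q U) univ x (s' + costE g q U f) :=
      bl_step ha (mem_univ _) hf
    exact hs _ (bl_mono _ _ _ (by omega) h4) hb
  have e1 : τ = τ' := le_antisymm (key (z := y) (z' := y') h1 h2') (key (z := y') (z' := y) h1' h2)
  subst e1
  exact h3' _ h2

private theorem bl_le {c c' : E d → ℕ} (h : ∀ f, c' f ≤ c f) {W : Set (V d)} {x : V d} (s : ℕ) :
    Bl c W x s ⊆ Bl c' W x s := by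
  rintro z ⟨n, w, e, hw, h0, hn, hc⟩
  exact ⟨n, w, e, hw, h0, hn, (Finset.sum_le_sum (fun i _ => h (e i))).trans hc⟩

private theorem bl_upd {c c' : E d → ℕ} {e : E d} {a b x : V d} {s : ℕ} (he : Joins e a b)
    (hne : ∀ f, f ≠ e → c' f = c f) (h1 : c' e = 1)
    (hmin : ∀ r < s, a ∉ Bl c univ x r) (hb : b ∉ Bl c univ x s) :
    Bl c' univ x s ⊆ Bl c univ x s := by
  have : NeZero d := ⟨by
    intro hd
    subst hd
    exact e.2.elim0⟩
  rintro z ⟨n, w, f, hw, h0, hn, hc⟩
  have key : ∀ i ≤ n, w i ∈ Bl c univ x (wcost c' i f) ∨ s + 1 ≤ wcost c' i f := by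
    intro i
    induction i with
    | zero =>
      intro _
      left
      rw [h0]
      exact mem_bl_self c (mem_univ x) _
    | succ i ih =>
      intro hi
      have hstep : wcost c' (i + 1) f = wcost c' i f + c' (f i) := by
        unfold wcost
        rw [Finset.sum_range_succ]
      rcases ih (by omega) with h | h
      · by_cases hbig : s + 1 ≤ wcost c' i f
        · right
          omega
        push Not at hbig
        by_cases hfe : f i = e
        · have hj := hw.2 i (by omega)
          rw [hfe] at hj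
          have hcases : w i = a ∨ w i = b := by
            rcases he with ⟨p1, p2⟩ | ⟨p1, p2⟩ <;> rcases hj with ⟨p3, p4⟩ | ⟨p3, p4⟩
            · left; rw [p1, p3]
            · right; rw [p2, p4]
            · right; rw [p1, p3]
            · left; rw [p2, p4]
          rcases hcases with hwa | hwb
          · right
            rw [hwa] at h
            have : s ≤ wcost c' i f := by
              by_contra hlt
              push Not at hlt
              exact hmin _ hlt h
            rw [hstep, hfe, h1]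
            omega
          · exfalso
            rw [hwb] at h
            exact hb (bl_mono c univ x (by omega) h)
        · left
          rw [hstep, hne _ hfe]
          exact bl_step h (mem_univ _) (hw.2 i (by omega))
      · right
        omega
  rcases key n le_rfl with h | h
  · rw [hn] at h
    exact bl_mono c univ x hc h
  · omega

private theorem det {g : ℝ → ℕ} (hg1 : ∀ u, 1 ≤ g u) {q q' : ℝ}
    (hgq : ∀ u ≤ q', g u = 1) (x : V d) (y : V d × V d) {e : E d} (he : Joins e y.1 y.2)
    {U : Cfg d} (hU : U ∈ FF g q x y) {s : ℝ} (hs : q < s) (hs' : s ≤ q') :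
    Function.update U e s ∈ HH g q x y := by
  classical
  obtain ⟨a, b⟩ := y
  obtain ⟨t, h1, h2, h3, -⟩ := hU
  simp only at he h2 h3
  set c := costE g q U with hc
  set U' := Function.update U e s with hU'
  set c' := costE g q U' with hc'
  have hbI : ∀ r ≤ t + 1, b ∉ Bl c univ x r := fun r hr hb =>
    h1 b (bl_mono c univ x hr hb) h3
  have hUe : q < U e := by
    by_contra hle
    push Not at hle
    have hce : c e = 0 := by
      simp only [hc, costE, cost, if_pos hle]
    have h4 : b ∈ Bl c univ x (t + c e) := bl_step h2 (mem_univ _) he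
    rw [hce] at h4
    exact hbI _ (by omega) h4
  have hce : 1 ≤ c e := by
    simp only [hc, costE, cost, if_neg (not_le.2 hUe)]
    exact hg1 _
  have hce' : c' e = 1 := by
    simp only [hc', hU', costE, cost, Function.update_self, if_neg (not_le.2 hs)]
    exact hgq s hs'
  have hne : ∀ f, f ≠ e → c' f = c f := by
    intro f hf
    simp only [hc', hU', hc, costE, Function.update_of_ne hf]
  have hop : op q U' = op q U := by
    ext f
    simp only [op, mem_ofPred_eq, hU']
    by_cases hf : f = e
    · subst hf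
      rw [Function.update_self]
      constructor
      · intro h; exact absurd h (not_le.2 hs)
      · intro h; exact absurd h (not_le.2 hUe)
    · rw [Function.update_of_ne hf]
  have hle : ∀ f, c' f ≤ c f := by
    intro f
    by_cases hf : f = e
    · subst hf; omega
    · exact (hne f hf).le
  have hex : ∃ r, a ∈ Bl c univ x r := ⟨t, h2⟩
  set ta := Nat.find hex with hta
  have hta1 : a ∈ Bl c univ x ta := Nat.find_spec hex
  have hta2 : ∀ r < ta, a ∉ Bl c univ x r := fun r hr => Nat.find_min hex hr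
  have hta3 : ta ≤ t := Nat.find_min' hex h2
  have hsub : Bl c' univ x ta ⊆ Bl c univ x ta :=
    bl_upd he hne hce' hta2 (hbI _ (by omega))
  have hnoh : nohit g q x ta U' := by
    intro z hz
    rw [hop]
    exact h1 z (bl_mono c univ x (by omega) (hsub hz))
  refine ⟨ta, hnoh, ⟨bl_le hle ta hta1, ?_, e, he, hce'.le⟩, ?_⟩
  · rw [hop]; exact h3
  · rintro ⟨a', b'⟩ ⟨p1, p2, f, p3, p4⟩
    simp only at p1 p2 p3
    rw [hop] at p2
    change c' f ≤ 1 at p4
    have p1' : a' ∈ Bl c univ x ta := hsub p1
    by_cases hf : f = e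
    · subst hf
      rcases he with ⟨r1, r2⟩ | ⟨r1, r2⟩ <;> rcases p3 with ⟨r3, r4⟩ | ⟨r3, r4⟩
      · rw [r1, r2, r3, r4]
      · exfalso
        rw [r3, ← r1] at p2
        exact h1 a (bl_mono c univ x (by omega) h2) p2
      · exfalso
        rw [r4, ← r2] at p2
        exact h1 a (bl_mono c univ x (by omega) h2) p2
      · rw [r1, r2, r3, r4]
    · exfalso
      have p5 : b' ∈ Bl c univ x (ta + c f) := bl_step p1' (mem_univ _) p3
      rw [hne f hf] at p4
      exact h1 b' (bl_mono c univ x (by omega) p5) p2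

private theorem prob_FF {g : ℝ → ℕ} (hg : Monotone g) (hg1 : ∀ u, 1 ≤ g u) {q q' : ℝ}
    (hq : 0 ≤ q) (hq' : q' ≤ 1) (hgq : ∀ u ≤ q', g u = 1) (x : V d)
    (y : V d × V d) :
    P d (FF g q x y) * ENNReal.ofReal (q' - q) ≤ P d (HH g q x y) := by
  by_cases hadj : Adj y.1 y.2
  · obtain ⟨e, he⟩ := hadj
    have h1 := measurePreserving_update (d := d) e
    rw [← h1.measure_preimage (meas_HH hg q x y).nullMeasurableSet]
    have h2 : unif (Ioc q q') = ENNReal.ofReal (q' - q) := by
      unfold unif
      rw [Measure.restrict_apply measurableSet_Ioc, inter_eq_self_of_subset_left, Real.volume_Ioc]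
      intro z hz
      exact ⟨hq.trans hz.1.le, hz.2.trans hq'⟩
    rw [← h2, ← Measure.prod_prod]
    refine measure_mono ?_
    rintro ⟨U, s⟩ ⟨hU, hs⟩
    exact det hg1 hgq x y he hU hs.1 hs.2
  · have : FF g q x y = ∅ := by
      ext U
      simp only [mem_empty_iff_false, iff_false]
      rintro ⟨t, -, -, -, h⟩
      exact hadj h
    rw [this]
    simp

private theorem sum_HH {g : ℝ → ℕ} (hg : Monotone g) (q : ℝ) (x : V d) :
    ∑' y : V d × V d, P d (HH g q x y) ≤ 1 := by
  rw [← measure_iUnion (disj_HH g q x) (meas_HH hg q x)]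
  exact prob_le_one

private theorem markov_count {ι : Type} [Countable ι] (F : ι → Set (Cfg d))
    (hF : ∀ i, MeasurableSet (F i)) (J : ℕ) :
    (J : ℝ≥0∞) * P d {U | (J : ℕ∞) ≤ {i | U ∈ F i}.encard} ≤ ∑' i, P d (F i) := by
  have h1 : ∑' i, P d (F i) = ∫⁻ U, ∑' i, (F i).indicator (fun _ => (1 : ℝ≥0∞)) U ∂(P d) := by
    rw [lintegral_tsum (fun i => (measurable_const.indicator (hF i)).aemeasurable)]
    refine tsum_congr (fun i => ?_)
    rw [lintegral_indicator (hF i)]
    simp
  have h2 : ∀ U : Cfg d, ∑' i, (F i).indicator (fun _ => (1 : ℝ≥0∞)) U =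
      (({i | U ∈ F i}.encard : ℕ∞) : ℝ≥0∞) := by
    intro U
    rw [← ENNReal.tsum_set_one, tsum_subtype {i | U ∈ F i} (fun _ => (1 : ℝ≥0∞))]
    rfl
  have hmeas : Measurable (fun U : Cfg d => ∑' i, (F i).indicator (fun _ => (1 : ℝ≥0∞)) U) :=
    Measurable.tsum (fun i => measurable_const.indicator (hF i))
  rw [h1]
  refine le_trans ?_ (mul_meas_ge_le_lintegral hmeas (J : ℝ≥0∞))
  refine mul_le_mul_right (measure_mono ?_) _
  intro U hU
  simp only [mem_ofPred_eq] at hU ⊢
  rw [h2]
  exact_mod_cast hU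

/-- if a ball has at least `J` exits then the next layer hits the infinite cluster, up to an event
of probability `1 / (J (q' - q))` -/
theorem fail_prob {g : ℝ → ℕ} (hg : Monotone g) (hg1 : ∀ u, 1 ≤ g u) {q q' : ℝ} (hq : 0 ≤ q)
    (hqq : q < q') (hq' : q' ≤ 1) (hgq : ∀ u ≤ q', g u = 1) (x : V d) (J : ℕ) (hJ : 1 ≤ J) :
    (P d).real {U : Cfg d | ∃ t, (∀ z ∈ Bl (costE g q U) univ x (t + 1),
        ¬ (Cl (op q U) univ z).Infinite) ∧
      (J : ℕ∞) ≤ (Exits (op q U) univ (Bl (costE g q U) univ x t)).encard} ≤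
    1 / (J * (q' - q)) := by
  set A : Set (Cfg d) := {U : Cfg d | ∃ t, (∀ z ∈ Bl (costE g q U) univ x (t + 1),
        ¬ (Cl (op q U) univ z).Infinite) ∧
      (J : ℕ∞) ≤ (Exits (op q U) univ (Bl (costE g q U) univ x t)).encard} with hA
  have hsub : A ⊆ {U | (J : ℕ∞) ≤ {y : V d × V d | U ∈ FF g q x y}.encard} := by
    rintro U ⟨t, h1, h2⟩
    simp only [mem_ofPred_eq]
    refine h2.trans (encard_le_encard ?_)
    rintro ⟨a, b⟩ ⟨p1, p2, p3, p4⟩
    refine ⟨t, h1, p1, p4.mono ?_, p3⟩
    intro z hz
    exact Conn.mono (le_refl (op q U)) (subset_univ _) hz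
  have hpos : 0 < q' - q := by linarith
  have hJ' : (0 : ℝ) < J := by exact_mod_cast hJ
  have h1 : (J : ℝ≥0∞) * P d A * ENNReal.ofReal (q' - q) ≤ 1 := by
    calc (J : ℝ≥0∞) * P d A * ENNReal.ofReal (q' - q)
        ≤ (∑' y, P d (FF g q x y)) * ENNReal.ofReal (q' - q) := by
          refine mul_le_mul_left ?_ _
          refine le_trans ?_ (markov_count (fun y => FF g q x y) (fun y => meas_FF hg q x y) J)
          exact mul_le_mul_right (measure_mono hsub) _
      _ = ∑' y, P d (FF g q x y) * ENNReal.ofReal (q' - q) := by rw [ENNReal.tsum_mul_right]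
      _ ≤ ∑' y, P d (HH g q x y) :=
          ENNReal.tsum_le_tsum (fun y => prob_FF hg hg1 hq hq' hgq x y)
      _ ≤ 1 := sum_HH hg q x
  have h2 : (J : ℝ) * (P d).real A * (q' - q) ≤ 1 := by
    have := ENNReal.toReal_mono ENNReal.one_ne_top h1
    rw [ENNReal.toReal_mul, ENNReal.toReal_mul, ENNReal.toReal_ofReal hpos.le,
      ENNReal.toReal_natCast, ENNReal.toReal_one] at this
    exact this
  rw [le_div_iff₀ (mul_pos hJ' hpos)]
  calc (P d).real A * (↑J * (q' - q)) = (J : ℝ) * (P d).real A * (q' - q) := by ring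
    _ ≤ 1 := h2

end Pool.Agent.helper55.FP
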