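import Pool.Agent.helper55.FP.NDefs
import Pool.Agent.helper55.FP.LDefs
import Pool.Agent.helper55.FP.Conn
import Pool.Agent.helper55.FP.Paths
import Pool.Agent.helper55.FP.Meas
import Pool.Agent.helper55.FP.Indep
import Pool.Agent.helper55.FP.Resample
import Pool.Agent.helper55.FP.BK
import Pool.Agent.helper55.FP.Harris
import Pool.Agent.helper55.FP.Symm
import Pool.Agent.helper55.FP.LeftCont
import Pool.Agent.helper55.FP.Sprinkle

/-! Module Pairs: exploration of `n` vertices of the cluster of `w`. -/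

set_option autoImplicit false

open MeasureTheory Set Filter Topology
open scoped ENNReal

namespace Pool.Agent.helper55.FP

variable {d : ℕ}

/-! ## FILE Pairs (N1) -/

namespace Pairs_aux

theorem nbr_encard (T : Finset (V d)) :
    {v : V d | ∃ a ∈ T, Adj a v}.encard ≤ ((2 * d * T.card : ℕ) : ℕ∞) := by
  classical
  induction T using Finset.induction_on with
  | empty => simp
  | insert a T ha ih =>
    have hsub : {v : V d | ∃ a' ∈ insert a T, Adj a' v} ⊆
        {v | Adj a v} ∪ {v | ∃ a' ∈ T, Adj a' v} := by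
      rintro v ⟨a', ha', h⟩
      rcases Finset.mem_insert.1 ha' with rfl | h'
      · exact Or.inl h
      · exact Or.inr ⟨a', h', h⟩
    refine (encard_le_encard hsub).trans ((encard_union_le _ _).trans
      ((add_le_add (adj_encard a) ih).trans ?_))
    rw [Finset.card_insert_of_notMem ha]
    have : 2 * d + 2 * d * T.card ≤ 2 * d * (T.card + 1) := by
      rw [mul_add, mul_one, add_comm]
    exact_mod_cast this

theorem exists_bd (D : Finset (V d)) :
    ∃ B : Finset (V d), (∀ v, v ∈ B ↔ v ∈ bd (↑D : Set (V d))) ∧ B.card ≤ 2 * d * D.card := by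
  have h1 : bd (↑D : Set (V d)) ⊆ {v : V d | ∃ a ∈ D, Adj a v} := fun v hv => hv.2
  have h2 := (encard_le_encard h1).trans (nbr_encard D)
  have hfin : (bd (↑D : Set (V d))).Finite := finite_of_encard_le_coe h2
  refine ⟨hfin.toFinset, fun v => hfin.mem_toFinset, ?_⟩
  have h3 := h2
  rw [hfin.encard_eq_coe_toFinset_card] at h3
  exact_mod_cast h3

theorem sb_sub_cl (O : Set (E d)) (W : Set (V d)) (b : V d) (m : ℕ) : Sb O W b m ⊆ Cl O W b := by
  induction m with
  | zero =>
    rintro v ⟨hv, hW⟩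
    rw [mem_singleton_iff] at hv
    subst hv
    exact Conn.refl hW
  | succ m ih =>
    rintro v (hv | ⟨a, ha, hs⟩)
    · exact ih hv
    · exact Conn.snoc (ih ha) hs

theorem sb_mono (O : Set (E d)) (W : Set (V d)) (b : V d) : Monotone (Sb O W b) :=
  monotone_nat_of_le_succ fun _ => subset_union_left

theorem cl_sub_sb {O : Set (E d)} {W : Set (V d)} {b v : V d} (h : v ∈ Cl O W b) :
    ∃ m, v ∈ Sb O W b m := by
  obtain ⟨hb, h⟩ := h
  induction h with
  | refl => exact ⟨0, rfl, hb⟩
  | tail _ hs ih =>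
    obtain ⟨m, hm⟩ := ih
    exact ⟨m + 1, Or.inr ⟨_, hm, hs⟩⟩

theorem sb_big {O : Set (E d)} {W : Set (V d)} {b : V d} {n : ℕ}
    (h : (n : ℕ∞) ≤ (Cl O W b).encard) : ∃ m, (n : ℕ∞) ≤ (Sb O W b m).encard := by
  obtain ⟨t, ht, htn⟩ := exists_subset_encard_eq h
  have hfin : t.Finite := finite_of_encard_eq_coe htn
  choose! f hf using fun v (hv : v ∈ t) => cl_sub_sb (ht hv)
  obtain ⟨m, hm⟩ := (hfin.image f).bddAbove
  refine ⟨m, ?_⟩
  rw [← htn]
  refine encard_le_encard fun v hv => ?_
  exact sb_mono O W b (hm (mem_image_of_mem f hv)) (hf v hv)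

theorem sb_zero_encard (O : Set (E d)) (W : Set (V d)) (b : V d) : (Sb O W b 0).encard ≤ 1 := by
  refine (encard_le_encard (inter_subset_left : {b} ∩ W ⊆ {b})).trans ?_
  rw [encard_singleton]

theorem sb_succ_encard {O : Set (E d)} {W : Set (V d)} {b : V d} {m n : ℕ}
    (h : (Sb O W b m).encard ≤ n) : (Sb O W b (m + 1)).encard ≤ (((2 * d + 1) * n : ℕ) : ℕ∞) := by
  have hfin : (Sb O W b m).Finite := finite_of_encard_le_coe h
  have hc : hfin.toFinset.card ≤ n := by
    rw [hfin.encard_eq_coe_toFinset_card] at h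
    exact_mod_cast h
  have h1 : Sb O W b (m + 1) ⊆ Sb O W b m ∪ {v : V d | ∃ a ∈ hfin.toFinset, Adj a v} := by
    rintro v (hv | ⟨a, ha, -, -, e, -, he⟩)
    · exact Or.inl hv
    · exact Or.inr ⟨a, hfin.mem_toFinset.2 ha, e, he⟩
  refine (encard_le_encard h1).trans ((encard_union_le _ _).trans
    ((add_le_add h (nbr_encard _)).trans ?_))
  have : n + 2 * d * hfin.toFinset.card ≤ (2 * d + 1) * n := by
    have := Nat.mul_le_mul_left (2 * d) hc
    nlinarith
  exact_mod_cast this

/-- the exploration up to step `m` only looks at the edges touching the explored set -/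
theorem sb_congr {q : ℝ} {U U' : Cfg d} {W : Set (V d)} {b : V d} {m : ℕ}
    (h : ∀ e ∈ touch (Sb (op q U) W b m), U e = U' e) :
    ∀ k ≤ m, Sb (op q U') W b k = Sb (op q U) W b k := by
  intro k
  induction k with
  | zero => intro _; rfl
  | succ k ih =>
    intro hk
    have ih' := ih (Nat.le_of_succ_le hk)
    have hsub : Sb (op q U) W b k ⊆ Sb (op q U) W b m := sb_mono _ _ _ (Nat.le_of_succ_le hk)
    show Sb (op q U') W b k ∪ {v | ∃ a ∈ Sb (op q U') W b k, Step (op q U') W a v} =
      Sb (op q U) W b k ∪ {v | ∃ a ∈ Sb (op q U) W b k, Step (op q U) W a v}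
    rw [ih']
    congr 1
    ext v
    have key : ∀ a ∈ Sb (op q U) W b k, (Step (op q U') W a v ↔ Step (op q U) W a v) := by
      intro a ha
      have hj : ∀ e : E d, Joins e a v → U e = U' e := by
        intro e he
        refine h e ?_
        rcases he with ⟨h1, -⟩ | ⟨-, h2⟩
        · exact Or.inl (h1 ▸ hsub ha)
        · exact Or.inr (h2 ▸ hsub ha)
      constructor
      · rintro ⟨h1, h2, e, he, hje⟩
        refine ⟨h1, h2, e, ?_, hje⟩
        show U e ≤ q
        rw [hj e hje]; exact he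
      · rintro ⟨h1, h2, e, he, hje⟩
        refine ⟨h1, h2, e, ?_, hje⟩
        show U' e ≤ q
        rw [← hj e hje]; exact he
    constructor
    · rintro ⟨a, ha, hs⟩
      exact ⟨a, ha, (key a ha).1 hs⟩
    · rintro ⟨a, ha, hs⟩
      exact ⟨a, ha, (key a ha).2 hs⟩

theorem measurable_step (q : ℝ) (W : Set (V d)) (a b : V d) :
    MeasurableSet {U : Cfg d | Step (op q U) W a b} := by
  have h : {U : Cfg d | Step (op q U) W a b} =
      ⋃ e ∈ {e : E d | a ∈ W ∧ b ∈ W ∧ Joins e a b}, {U : Cfg d | U e ≤ q} := by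
    ext U
    simp only [mem_iUnion, mem_setOf_eq, exists_prop]
    constructor
    · rintro ⟨h1, h2, e, he, hj⟩
      exact ⟨e, ⟨h1, h2, hj⟩, he⟩
    · rintro ⟨e, ⟨h1, h2, hj⟩, he⟩
      exact ⟨h1, h2, e, he, hj⟩
  rw [h]
  exact MeasurableSet.biUnion (to_countable _) fun e _ =>
    measurableSet_le (measurable_pi_apply e) measurable_const

theorem measurable_mem_sb (q : ℝ) (W : Set (V d)) (b : V d) (m : ℕ) :
    ∀ v, MeasurableSet {U : Cfg d | v ∈ Sb (op q U) W b m} := by
  induction m with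
  | zero =>
    intro v
    exact MeasurableSet.const _
  | succ m ih =>
    intro v
    have h : {U : Cfg d | v ∈ Sb (op q U) W b (m + 1)} = {U : Cfg d | v ∈ Sb (op q U) W b m} ∪
        ⋃ a : V d, {U : Cfg d | a ∈ Sb (op q U) W b m} ∩ {U : Cfg d | Step (op q U) W a v} := by
      ext U
      simp only [mem_union, mem_iUnion, mem_inter_iff, mem_setOf_eq]
      rfl
    rw [h]
    exact (ih v).union (MeasurableSet.iUnion fun a => (ih a).inter (measurable_step q W a v))

theorem measurable_sb_eq (q : ℝ) (W : Set (V d)) (b : V d) (m : ℕ) (D : Set (V d)) :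
    MeasurableSet {U : Cfg d | Sb (op q U) W b m = D} := by
  classical
  have h : {U : Cfg d | Sb (op q U) W b m = D} =
      ⋂ v : V d, {U : Cfg d | v ∈ Sb (op q U) W b m ↔ v ∈ D} := by
    ext U
    simp only [mem_iInter, mem_setOf_eq]
    exact Set.ext_iff
  rw [h]
  refine MeasurableSet.iInter fun v => ?_
  by_cases hv : v ∈ D
  · simp only [hv, iff_true]
    exact measurable_mem_sb q W b m v
  · simp only [hv, iff_false]
    exact (measurable_mem_sb q W b m v).compl

theorem measurable_sb_encard (q : ℝ) (W : Set (V d)) (b : V d) (m n : ℕ) :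
    MeasurableSet {U : Cfg d | (n : ℕ∞) ≤ (Sb (op q U) W b m).encard} := by
  have h : {U : Cfg d | (n : ℕ∞) ≤ (Sb (op q U) W b m).encard} =
      ⋃ F ∈ {F : Finset (V d) | F.card = n}, ⋂ v ∈ F, {U : Cfg d | v ∈ Sb (op q U) W b m} := by
    ext U
    simp only [mem_setOf_eq, mem_iUnion, mem_iInter, exists_prop]
    constructor
    · intro hU
      obtain ⟨t, ht, htn⟩ := exists_subset_encard_eq hU
      have hfin : t.Finite := finite_of_encard_eq_coe htn
      refine ⟨hfin.toFinset, ?_, fun v hv => ht (hfin.mem_toFinset.1 hv)⟩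
      rw [hfin.encard_eq_coe_toFinset_card] at htn
      exact_mod_cast htn
    · rintro ⟨F, hF, hFU⟩
      rw [← hF, ← encard_coe_eq_coe_finsetCard]
      exact encard_le_encard fun v hv => hFU v hv
  rw [h]
  exact MeasurableSet.biUnion (to_countable _) fun F _ =>
    Finset.measurableSet_biInter F fun v _ => measurable_mem_sb q W b m v

/-- the exploration of the cluster of `w` has found `n` vertices for the first time at step
`i.1`, and the explored set is `i.2` -/
def Aev (q : ℝ) (W : Set (V d)) (w : V d) (n : ℕ) (i : ℕ × Finset (V d)) : Set (Cfg d) :=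
  {U | Sb (op q U) W w i.1 = ↑i.2 ∧ n ≤ i.2.card ∧
    ∀ k < i.1, ¬ (n : ℕ∞) ≤ (Sb (op q U) W w k).encard}

theorem measurable_Aev (q : ℝ) (W : Set (V d)) (w : V d) (n : ℕ) (i : ℕ × Finset (V d)) :
    MeasurableSet (Aev q W w n i) := by
  have h : Aev q W w n i = {U : Cfg d | Sb (op q U) W w i.1 = ↑i.2} ∩
      ({U : Cfg d | n ≤ i.2.card} ∩
      ⋂ k ∈ Finset.range i.1, {U : Cfg d | (n : ℕ∞) ≤ (Sb (op q U) W w k).encard}ᶜ) := by
    ext U
    simp only [Aev, mem_inter_iff, mem_setOf_eq, mem_iInter, Finset.mem_range, mem_compl_iff]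
  rw [h]
  exact (measurable_sb_eq q W w _ _).inter ((MeasurableSet.const _).inter
    (Finset.measurableSet_biInter _ fun k _ => (measurable_sb_encard q W w k n).compl))

theorem dependsOn_Aev (q : ℝ) (W : Set (V d)) (w : V d) (n : ℕ) (i : ℕ × Finset (V d)) :
    DependsOn (fun U : Cfg d => U ∈ Aev q W w n i) (touch (↑i.2 : Set (V d))) := by
  have key : ∀ U U' : Cfg d, (∀ e ∈ touch (↑i.2 : Set (V d)), U e = U' e) → U ∈ Aev q W w n i →
      U' ∈ Aev q W w n i := by
    rintro U U' h ⟨h1, h2, h3⟩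
    have h4 : ∀ e ∈ touch (Sb (op q U) W w i.1), U e = U' e := by rw [h1]; exact h
    have h5 := sb_congr h4
    refine ⟨(h5 _ le_rfl).trans h1, h2, fun k hk => ?_⟩
    rw [h5 k hk.le]
    exact h3 k hk
  intro U U' h
  exact propext ⟨key U U' h, key U' U fun e he => (h e he).symm⟩

theorem Aev_disj (q : ℝ) (W : Set (V d)) (w : V d) (n : ℕ) :
    Pairwise (Function.onFun Disjoint (Aev q W w n)) := by
  intro i j hij
  rw [Function.onFun, Set.disjoint_left]
  rintro U ⟨h1, h2, h3⟩ ⟨g1, g2, g3⟩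
  apply hij
  have hi : (n : ℕ∞) ≤ (Sb (op q U) W w i.1).encard := by
    rw [h1, encard_coe_eq_coe_finsetCard]; exact_mod_cast h2
  have hj : (n : ℕ∞) ≤ (Sb (op q U) W w j.1).encard := by
    rw [g1, encard_coe_eq_coe_finsetCard]; exact_mod_cast g2
  have e1 : i.1 = j.1 := by
    rcases lt_trichotomy i.1 j.1 with h | h | h
    · exact absurd hi (g3 _ h)
    · exact h
    · exact absurd hj (h3 _ h)
  have e2 : (↑i.2 : Set (V d)) = ↑j.2 := by
    rw [← h1, ← g1, e1]
  exact Prod.ext e1 (Finset.coe_injective e2)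

theorem Aev_sub (q : ℝ) (W : Set (V d)) (w : V d) (n : ℕ) (i : ℕ × Finset (V d)) :
    Aev q W w n i ⊆ {U : Cfg d | (n : ℕ∞) ≤ (Cl (op q U) W w).encard} := by
  rintro U ⟨h1, h2, -⟩
  refine le_trans ?_ (encard_le_encard (sb_sub_cl (op q U) W w i.1))
  rw [h1, encard_coe_eq_coe_finsetCard]
  exact_mod_cast h2

theorem sub_Aev (q : ℝ) (W : Set (V d)) (w : V d) (n : ℕ) :
    {U : Cfg d | (n : ℕ∞) ≤ (Cl (op q U) W w).encard} ⊆ ⋃ i, Aev q W w n i := by
  classical
  intro U hU
  have hex := sb_big hU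
  have hfind := Nat.find_spec hex
  have hmin : ∀ k < Nat.find hex, ¬ (n : ℕ∞) ≤ (Sb (op q U) W w k).encard :=
    fun k hk => Nat.find_min hex hk
  have hfin : (Sb (op q U) W w (Nat.find hex)).Finite := by
    rcases Nat.eq_zero_or_pos (Nat.find hex) with h0 | h0
    · rw [h0]
      exact finite_of_encard_le_coe (k := 1) (sb_zero_encard _ _ _)
    · obtain ⟨k, hk⟩ := Nat.exists_eq_succ_of_ne_zero h0.ne'
      have h1 := hmin k (by omega)
      rw [not_le] at h1
      rw [hk]
      exact finite_of_encard_le_coe (sb_succ_encard h1.le)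
  refine mem_iUnion.2 ⟨(Nat.find hex, hfin.toFinset), ?_, ?_, hmin⟩
  · simp
  · rw [hfin.encard_eq_coe_toFinset_card] at hfind
    exact_mod_cast hfind

theorem Aev_card {q : ℝ} {W : Set (V d)} {w : V d} {n : ℕ} (hn : 1 ≤ n)
    {i : ℕ × Finset (V d)} {U : Cfg d} (h : U ∈ Aev q W w n i) : i.2.card ≤ (2 * d + 1) * n := by
  obtain ⟨h1, -, h3⟩ := h
  have h4 : ((i.2.card : ℕ) : ℕ∞) ≤ (((2 * d + 1) * n : ℕ) : ℕ∞) := by
    rw [← encard_coe_eq_coe_finsetCard, ← h1]
    rcases Nat.eq_zero_or_pos i.1 with h0 | h0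
    · rw [h0]
      refine (sb_zero_encard _ _ _).trans ?_
      have : 1 ≤ (2 * d + 1) * n := Nat.one_le_iff_ne_zero.2 (by positivity)
      exact_mod_cast this
    · obtain ⟨k, hk⟩ := Nat.exists_eq_succ_of_ne_zero h0.ne'
      have h5 := h3 k (by omega)
      rw [not_le] at h5
      rw [hk]
      exact sb_succ_encard h5.le
  exact_mod_cast h4

/-- a large cluster off `D` is large in `W \ D` or touches `D` -/
theorem cl_split {O : Set (E d)} {W D : Set (V d)} {w' : V d} {n : ℕ} (hw' : w' ∉ D) (hn : 1 ≤ n)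
    (h : (n : ℕ∞) ≤ (Cl O W w').encard) :
    (n : ℕ∞) ≤ (Cl O (W \ D) w').encard ∨
      ∃ v ∈ bd D, w' ∈ Cl O (W \ D) v ∧ ¬ (n : ℕ∞) ≤ (Cl O (W \ D) v).encard := by
  by_cases hbig : (n : ℕ∞) ≤ (Cl O (W \ D) w').encard
  · exact Or.inl hbig
  refine Or.inr ?_
  have hw'W : w' ∈ W := by
    by_contra hcon
    have : Cl O W w' = ∅ := by
      ext v
      simp only [mem_empty_iff_false, iff_false]
      intro hv
      exact hcon hv.1
    rw [this, encard_empty] at h
    have h' : n ≤ 0 := by exact_mod_cast h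
    omega
  have hns : ¬ Cl O W w' ⊆ Cl O (W \ D) w' := fun hs => hbig (h.trans (encard_le_encard hs))
  rw [Set.not_subset] at hns
  obtain ⟨z, hz, hz'⟩ := hns
  obtain ⟨-, hr⟩ := hz
  have key : ∃ a b, a ∈ Cl O (W \ D) w' ∧ b ∉ Cl O (W \ D) w' ∧ Step O W a b := by
    by_contra hcon
    push Not at hcon
    apply hz'
    clear hz'
    induction hr with
    | refl => exact Conn.refl ⟨hw'W, hw'⟩
    | tail _ hs ih =>
      by_contra hc
      exact hcon _ _ ih hc hs
  obtain ⟨a, b, ha, hb, h1, h2, e, he, hj⟩ := key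
  have haWD : a ∈ W \ D := Conn.right ha
  have hbD : b ∈ D := by
    by_contra hbD
    exact hb (Conn.snoc ha ⟨haWD, ⟨h2, hbD⟩, e, he, hj⟩)
  refine ⟨a, ⟨haWD.2, b, hbD, e, hj.symm⟩, Conn.symm ha, ?_⟩
  have hcl : Cl O (W \ D) a = Cl O (W \ D) w' := by
    ext v
    exact ⟨fun hv => Conn.trans ha hv, fun hv => Conn.trans (Conn.symm ha) hv⟩
  rw [hcl]
  exact hbig

/-- `E[|S ∩ C(v)|; |C(v)| < n] ≤ E[|C| ∧ n]` -/
theorem sum_small (q : ℝ) (W : Set (V d)) (v : V d) (S : Finset (V d)) (n : ℕ) :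
    ∑ w' ∈ S, (P d).real {U : Cfg d | w' ∈ Cl (op q U) W v ∧
      ¬ (n : ℕ∞) ≤ (Cl (op q U) W v).encard} ≤ ecap d q n := by
  classical
  set X : V d → Set (Cfg d) := fun w' => {U : Cfg d | w' ∈ Cl (op q U) W v ∧
      ¬ (n : ℕ∞) ≤ (Cl (op q U) W v).encard} with hX
  set Y : ℕ → Set (Cfg d) := fun j => {U : Cfg d | (j : ℕ∞) ≤ (Cl (op q U) W v).encard} with hY
  have mX : ∀ w', MeasurableSet (X w') := fun w' =>
    (measurableSet_conn q W v w').inter (measurableSet_encard_nat q W v n).compl
  have mY : ∀ j, MeasurableSet (Y j) := fun j => measurableSet_encard_nat q W v j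
  have h1 : ∑ w' ∈ S, (P d).real (X w') ≤ ∑ j ∈ Finset.Icc 1 n, (P d).real (Y j) := by
    have e1 : ∀ w', (P d).real (X w') = ∫ U, (X w').indicator (fun _ => (1 : ℝ)) U ∂(P d) := by
      intro w'
      rw [integral_indicator_const _ (mX w')]
      simp
    have e2 : ∀ j, (P d).real (Y j) = ∫ U, (Y j).indicator (fun _ => (1 : ℝ)) U ∂(P d) := by
      intro w'
      rw [integral_indicator_const _ (mY w')]
      simp
    simp only [e1, e2]
    have i1 : ∀ w' ∈ S, Integrable (fun U => (X w').indicator (fun _ => (1 : ℝ)) U) (P d) :=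
      fun w' _ => (integrable_const (1 : ℝ)).indicator (mX w')
    have i2 : ∀ j ∈ Finset.Icc 1 n,
        Integrable (fun U => (Y j).indicator (fun _ => (1 : ℝ)) U) (P d) :=
      fun j _ => (integrable_const (1 : ℝ)).indicator (mY j)
    rw [← integral_finset_sum _ i1, ← integral_finset_sum _ i2]
    refine integral_mono (integrable_finset_sum _ i1) (integrable_finset_sum _ i2) fun U => ?_
    by_cases hU : (n : ℕ∞) ≤ (Cl (op q U) W v).encard
    · have h0 : ∀ w' ∈ S, (X w').indicator (fun _ => (1 : ℝ)) U = 0 := by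
        intro w' _
        rw [indicator_of_notMem]
        rintro ⟨-, h⟩
        exact h hU
      show ∑ w' ∈ S, (X w').indicator (fun _ => (1 : ℝ)) U ≤
        ∑ j ∈ Finset.Icc 1 n, (Y j).indicator (fun _ => (1 : ℝ)) U
      rw [Finset.sum_eq_zero h0]
      exact Finset.sum_nonneg fun j _ => indicator_nonneg (fun _ _ => zero_le_one) _
    · have hlt : (Cl (op q U) W v).encard < n := not_le.1 hU
      have hfin : (Cl (op q U) W v).Finite := finite_of_encard_le_coe hlt.le
      set k := hfin.toFinset.card with hk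
      have hkc : (Cl (op q U) W v).encard = k := hfin.encard_eq_coe_toFinset_card
      have hkn : k < n := by rw [hkc] at hlt; exact_mod_cast hlt
      show ∑ w' ∈ S, (X w').indicator (fun _ => (1 : ℝ)) U ≤
        ∑ j ∈ Finset.Icc 1 n, (Y j).indicator (fun _ => (1 : ℝ)) U
      have l1 : ∑ w' ∈ S, (X w').indicator (fun _ => (1 : ℝ)) U ≤ k := by
        have : ∀ w' ∈ S, (X w').indicator (fun _ => (1 : ℝ)) U =
            if w' ∈ hfin.toFinset then 1 else 0 := by
          intro w' _
          by_cases hw' : w' ∈ Cl (op q U) W v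
          · rw [if_pos (hfin.mem_toFinset.2 hw'), indicator_of_mem]
            exact ⟨hw', hU⟩
          · rw [if_neg (fun h => hw' (hfin.mem_toFinset.1 h)), indicator_of_notMem]
            rintro ⟨h, -⟩
            exact hw' h
        rw [Finset.sum_congr rfl this, ← Finset.sum_filter, Finset.sum_const, nsmul_eq_mul,
          mul_one]
        have : (S.filter (· ∈ hfin.toFinset)).card ≤ k := by
          apply Finset.card_le_card
          intro x hx
          exact (Finset.mem_filter.1 hx).2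
        exact_mod_cast this
      have l2 : (k : ℝ) ≤ ∑ j ∈ Finset.Icc 1 n, (Y j).indicator (fun _ => (1 : ℝ)) U := by
        have h5 : ∑ j ∈ Finset.Icc 1 k, (Y j).indicator (fun _ => (1 : ℝ)) U = k := by
          have : ∀ j ∈ Finset.Icc 1 k, (Y j).indicator (fun _ => (1 : ℝ)) U = 1 := by
            intro j hj
            rw [indicator_of_mem]
            show (j : ℕ∞) ≤ (Cl (op q U) W v).encard
            rw [hkc]
            exact_mod_cast (Finset.mem_Icc.1 hj).2
          rw [Finset.sum_congr rfl this]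
          simp
        rw [← h5]
        apply Finset.sum_le_sum_of_subset_of_nonneg
        · exact Finset.Icc_subset_Icc le_rfl hkn.le
        · intro j _ _
          exact indicator_nonneg (fun _ _ => zero_le_one) _
      exact l1.trans l2
  refine h1.trans ?_
  unfold ecap
  exact Finset.sum_le_sum fun j _ => tailW_le q W v j

end Pairs_aux

open Pairs_aux in
/-- `∑_{w'} P(|C(w)| ≥ n, |C(w')| ≥ n)`: exploration of `n` vertices of the cluster of `w` -/
theorem pair_bound (q : ℝ) (W : Set (V d)) (S : Finset (V d)) (n : ℕ) (hn : 1 ≤ n) :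
    ∑ w ∈ S, ∑ w' ∈ S, (P d).real {U : Cfg d | (n : ℕ∞) ≤ (Cl (op q U) W w).encard ∧
      (n : ℕ∞) ≤ (Cl (op q U) W w').encard} ≤
    S.card * tail d q n * (S.card * tail d q n + (2 * d + 1) * n * (1 + 2 * d * ecap d q n)) := by
  classical
  have hκ : 0 ≤ ecap d q n := Finset.sum_nonneg fun j _ => measureReal_nonneg
  have hπ : 0 ≤ tail d q n := measureReal_nonneg
  set R : ℝ := S.card * tail d q n + (2 * d + 1) * n * (1 + 2 * d * ecap d q n) with hR
  have hR0 : 0 ≤ R := by positivity
  set H : V d → Set (Cfg d) := fun w' => {U : Cfg d | (n : ℕ∞) ≤ (Cl (op q U) W w').encard}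
    with hH
  have mH : ∀ w', MeasurableSet (H w') := fun w' => measurableSet_encard_nat q W w' n
  -- the bound for one explored set
  have hone : ∀ (w : V d) (i : ℕ × Finset (V d)),
      ∑ w' ∈ S, (P d).real (Aev q W w n i ∩ H w') ≤ (P d).real (Aev q W w n i) * R := by
    intro w i
    rcases (Aev q W w n i).eq_empty_or_nonempty with h0 | ⟨U0, hU0⟩
    · simp [h0]
    have hcard := Aev_card hn hU0
    set D := i.2 with hD
    obtain ⟨B, hB, hBc⟩ := exists_bd D
    have mA := measurable_Aev q W w n i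
    have hdis : Disjoint (touch (↑D : Set (V d))) (inner (W \ (↑D : Set (V d)))) := by
      rw [Set.disjoint_left]
      rintro e (he | he) ⟨h1, h2⟩
      · exact h1.2 he
      · exact h2.2 he
    have hb : ∀ w' ∈ S, (P d).real (Aev q W w n i ∩ H w') ≤ (P d).real (Aev q W w n i) *
        ((if w' ∈ D then 1 else 0) + tail d q n + ∑ v ∈ B, (P d).real
          {U : Cfg d | w' ∈ Cl (op q U) (W \ ↑D) v ∧
            ¬ (n : ℕ∞) ≤ (Cl (op q U) (W \ ↑D) v).encard}) := by
      intro w' _
      by_cases hw' : w' ∈ D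
      · rw [if_pos hw']
        have h1 : (P d).real (Aev q W w n i ∩ H w') ≤ (P d).real (Aev q W w n i) :=
          measureReal_mono inter_subset_left
        refine h1.trans (le_mul_of_one_le_right measureReal_nonneg ?_)
        have : 0 ≤ ∑ v ∈ B, (P d).real {U : Cfg d | w' ∈ Cl (op q U) (W \ ↑D) v ∧
            ¬ (n : ℕ∞) ≤ (Cl (op q U) (W \ ↑D) v).encard} :=
          Finset.sum_nonneg fun _ _ => measureReal_nonneg
        linarith
      · rw [if_neg hw', zero_add]
        set T : Set (Cfg d) := {U : Cfg d | (n : ℕ∞) ≤ (Cl (op q U) (W \ ↑D) w').encard} with hT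
        set Z : V d → Set (Cfg d) := fun v => {U : Cfg d | w' ∈ Cl (op q U) (W \ ↑D) v ∧
            ¬ (n : ℕ∞) ≤ (Cl (op q U) (W \ ↑D) v).encard} with hZ
        have hsub : Aev q W w n i ∩ H w' ⊆
            (Aev q W w n i ∩ T) ∪ ⋃ v ∈ B, (Aev q W w n i ∩ Z v) := by
          rintro U ⟨hUA, hUH⟩
          rcases cl_split (D := (↑D : Set (V d))) (by exact_mod_cast hw') hn hUH with h | h
          · exact Or.inl ⟨hUA, h⟩
          · obtain ⟨v, hv, h1, h2⟩ := h
            refine Or.inr (mem_iUnion₂.2 ⟨v, (hB v).2 hv, hUA, h1, h2⟩)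
        have mT : MeasurableSet T := measurableSet_encard_nat q _ w' n
        have mZ : ∀ v, MeasurableSet (Z v) := fun v =>
          (measurableSet_conn q _ v w').inter (measurableSet_encard_nat q _ v n).compl
        have dT : DependsOn (fun U => U ∈ T) (inner (W \ (↑D : Set (V d)))) := by
          intro U U' h
          have := dependsOn_cl q (W \ ↑D) w' h
          simp only at this
          show ((n : ℕ∞) ≤ (Cl (op q U) (W \ ↑D) w').encard) =
            ((n : ℕ∞) ≤ (Cl (op q U') (W \ ↑D) w').encard)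
          rw [this]
        have dZ : ∀ v, DependsOn (fun U => U ∈ Z v) (inner (W \ (↑D : Set (V d)))) := by
          intro v U U' h
          have := dependsOn_cl q (W \ ↑D) v h
          simp only at this
          show (w' ∈ Cl (op q U) (W \ ↑D) v ∧ ¬ (n : ℕ∞) ≤ (Cl (op q U) (W \ ↑D) v).encard) =
            (w' ∈ Cl (op q U') (W \ ↑D) v ∧ ¬ (n : ℕ∞) ≤ (Cl (op q U') (W \ ↑D) v).encard)
          rw [this]
        calc (P d).real (Aev q W w n i ∩ H w')
            ≤ (P d).real ((Aev q W w n i ∩ T) ∪ ⋃ v ∈ B, (Aev q W w n i ∩ Z v)) :=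
              measureReal_mono hsub
          _ ≤ (P d).real (Aev q W w n i ∩ T) + (P d).real (⋃ v ∈ B, (Aev q W w n i ∩ Z v)) :=
              measureReal_union_le _ _
          _ ≤ (P d).real (Aev q W w n i ∩ T) + ∑ v ∈ B, (P d).real (Aev q W w n i ∩ Z v) := by
              gcongr
              exact measureReal_biUnion_finset_le _ _
          _ = (P d).real (Aev q W w n i) * (P d).real T +
                ∑ v ∈ B, (P d).real (Aev q W w n i) * (P d).real (Z v) := by
              rw [prob_inter mA mT (dependsOn_Aev q W w n i) dT hdis]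
              congr 1
              exact Finset.sum_congr rfl fun v _ =>
                prob_inter mA (mZ v) (dependsOn_Aev q W w n i) (dZ v) hdis
          _ = (P d).real (Aev q W w n i) * ((P d).real T + ∑ v ∈ B, (P d).real (Z v)) := by
              rw [mul_add, Finset.mul_sum]
          _ ≤ (P d).real (Aev q W w n i) * (tail d q n + ∑ v ∈ B, (P d).real (Z v)) := by
              gcongr
              exact tailW_le q _ w' n
    refine (Finset.sum_le_sum hb).trans ?_
    rw [← Finset.mul_sum]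
    refine mul_le_mul_of_nonneg_left ?_ measureReal_nonneg
    rw [Finset.sum_add_distrib, Finset.sum_add_distrib, Finset.sum_comm]
    have b1 : ∑ w' ∈ S, (if w' ∈ D then (1 : ℝ) else 0) ≤ (2 * d + 1) * n := by
      rw [← Finset.sum_filter, Finset.sum_const, nsmul_eq_mul, mul_one]
      have : (S.filter (· ∈ D)).card ≤ (2 * d + 1) * n := by
        refine le_trans (Finset.card_le_card ?_) hcard
        intro x hx
        exact (Finset.mem_filter.1 hx).2
      exact_mod_cast this
    have b2 : ∑ w' ∈ S, tail d q n = S.card * tail d q n := by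
      rw [Finset.sum_const, nsmul_eq_mul]
    have b3 : ∑ v ∈ B, ∑ w' ∈ S, (P d).real {U : Cfg d | w' ∈ Cl (op q U) (W \ ↑D) v ∧
            ¬ (n : ℕ∞) ≤ (Cl (op q U) (W \ ↑D) v).encard} ≤
        (2 * d * ((2 * d + 1) * n)) * ecap d q n := by
      refine (Finset.sum_le_sum fun v _ => sum_small q (W \ ↑D) v S n).trans ?_
      rw [Finset.sum_const, nsmul_eq_mul]
      refine mul_le_mul_of_nonneg_right ?_ hκ
      have : B.card ≤ 2 * d * ((2 * d + 1) * n) := hBc.trans (Nat.mul_le_mul_left _ hcard)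
      exact_mod_cast this
    rw [b2, hR]
    calc _ ≤ ((2 * d + 1) * n : ℝ) + S.card * tail d q n +
          (2 * d * ((2 * d + 1) * n)) * ecap d q n := by linarith
      _ = _ := by ring
  -- sum over the explored sets
  have hw : ∀ w, ∑ w' ∈ S, (P d).real (H w ∩ H w') ≤ tail d q n * R := by
    intro w
    have e1 : ∀ w' ∈ S, P d (H w ∩ H w') ≤ ∑' i, P d (Aev q W w n i ∩ H w') := by
      intro w' _
      refine le_trans (measure_mono ?_) (measure_iUnion_le _)
      rintro U ⟨h1, h2⟩
      obtain ⟨i, hi⟩ := mem_iUnion.1 (sub_Aev q W w n h1)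
      exact mem_iUnion.2 ⟨i, hi, h2⟩
    have e2 : ∀ i, ∑ w' ∈ S, P d (Aev q W w n i ∩ H w') ≤
        P d (Aev q W w n i) * ENNReal.ofReal R := by
      intro i
      have h := hone w i
      have h1 : ∑ w' ∈ S, P d (Aev q W w n i ∩ H w') =
          ENNReal.ofReal (∑ w' ∈ S, (P d).real (Aev q W w n i ∩ H w')) := by
        rw [ENNReal.ofReal_sum_of_nonneg fun _ _ => measureReal_nonneg]
        exact Finset.sum_congr rfl fun w' _ => (ofReal_measureReal).symm
      rw [h1, ← ofReal_measureReal (μ := P d) (s := Aev q W w n i), ← ENNReal.ofReal_mul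
        measureReal_nonneg]
      exact ENNReal.ofReal_le_ofReal h
    have e3 : ∑' i, P d (Aev q W w n i) ≤ ENNReal.ofReal (tail d q n) := by
      rw [← measure_iUnion (Aev_disj q W w n) (measurable_Aev q W w n),
        ← ofReal_measureReal (μ := P d)]
      refine ENNReal.ofReal_le_ofReal ((measureReal_mono ?_).trans (tailW_le q W w n))
      exact iUnion_subset fun i => Aev_sub q W w n i
    have e4 : ∑ w' ∈ S, P d (H w ∩ H w') ≤ ENNReal.ofReal (tail d q n * R) := by
      calc ∑ w' ∈ S, P d (H w ∩ H w') ≤ ∑ w' ∈ S, ∑' i, P d (Aev q W w n i ∩ H w') :=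
            Finset.sum_le_sum e1
        _ = ∑' i, ∑ w' ∈ S, P d (Aev q W w n i ∩ H w') :=
            (Summable.tsum_finsetSum fun _ _ => ENNReal.summable).symm
        _ ≤ ∑' i, P d (Aev q W w n i) * ENNReal.ofReal R := ENNReal.tsum_le_tsum e2
        _ = (∑' i, P d (Aev q W w n i)) * ENNReal.ofReal R := ENNReal.tsum_mul_right
        _ ≤ ENNReal.ofReal (tail d q n) * ENNReal.ofReal R := by gcongr
        _ = ENNReal.ofReal (tail d q n * R) := (ENNReal.ofReal_mul hπ).symm
    have e5 : ∑ w' ∈ S, P d (H w ∩ H w') =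
        ENNReal.ofReal (∑ w' ∈ S, (P d).real (H w ∩ H w')) := by
      rw [ENNReal.ofReal_sum_of_nonneg fun _ _ => measureReal_nonneg]
      exact Finset.sum_congr rfl fun w' _ => (ofReal_measureReal).symm
    rw [e5] at e4
    exact (ENNReal.ofReal_le_ofReal_iff (by positivity)).1 e4
  have hfin : ∑ w ∈ S, ∑ w' ∈ S, (P d).real (H w ∩ H w') ≤ ∑ w ∈ S, tail d q n * R :=
    Finset.sum_le_sum fun w _ => hw w
  rw [Finset.sum_const, nsmul_eq_mul] at hfin
  calc _ = ∑ w ∈ S, ∑ w' ∈ S, (P d).real (H w ∩ H w') := rfl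
    _ ≤ _ := hfin
    _ = _ := by ring

end Pool.Agent.helper55.FP
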