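import Pool.Agent.helper55.FP.NDefs
import Pool.Agent.helper55.FP.LDefs
import Pool.Agent.helper55.FP.Conn
import Pool.Agent.helper55.FP.Paths
import Pool.Agent.helper55.FP.Meas
import Pool.Agent.helper55.FP.Indep
import Pool.Agent.helper55.FP.Resample
import Pool.Agent.helper55.FP.BK
import Pool.Agent.helper55.FP.Harris
import Pool.Agent.helper55.FP.Symm
import Pool.Agent.helper55.FP.LeftCont
import Pool.Agent.helper55.FP.Sprinkle
import Pool.Agent.helper55.FP.Pairs

/-! Module Split: splitting of the number of vertices connected to the target along the exits. -/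

set_option autoImplicit false

open MeasureTheory Set Filter Topology
open scoped ENNReal

namespace Pool.Agent.helper55.FP

variable {d : ℕ}

/-! ## FILE Split (N2) -/

namespace Split_aux

/-- vertices connected to the target off `S` -/
def IS (O : Set (E d)) (W Γ : Set (V d)) : Set (V d) := {v | ∃ g ∈ Γ, Conn O W v g}

theorem is_congr {q : ℝ} {U U' : Cfg d} {W Γ : Set (V d)} {I : Set (V d)}
    (h : ∀ e ∈ inner W ∩ touch I, U e = U' e) (hI : IS (op q U) W Γ = I) :
    IS (op q U') W Γ = I := by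
  have hsame : ∀ a b : V d, a ∈ W → b ∈ W → (a ∈ I ∨ b ∈ I) → ∀ e, Joins e a b → U e = U' e := by
    intro a b ha hb hab e hj
    refine h e ⟨?_, ?_⟩
    · rcases hj with ⟨h1, h2⟩ | ⟨h1, h2⟩
      · exact ⟨h1 ▸ ha, h2 ▸ hb⟩
      · exact ⟨h1 ▸ hb, h2 ▸ ha⟩
    · rcases hj with ⟨h1, h2⟩ | ⟨h1, h2⟩
      · rcases hab with h3 | h3
        · exact Or.inl (h1 ▸ h3)
        · exact Or.inr (h2 ▸ h3)
      · rcases hab with h3 | h3
        · exact Or.inr (h2 ▸ h3)
        · exact Or.inl (h1 ▸ h3)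
  apply Subset.antisymm
  · -- a path of `U'` ending in `Γ` stays in `I`
    rintro v ⟨g, hg, hvW, hr⟩
    have hgW : g ∈ W := Conn.right ⟨hvW, hr⟩
    clear hvW
    induction hr using Relation.ReflTransGen.head_induction_on with
    | refl =>
      rw [← hI]
      exact ⟨g, hg, Conn.refl hgW⟩
    | head hs _ ih =>
      obtain ⟨h1, h2, e, he, hj⟩ := hs
      have hc := ih
      have he' : e ∈ op q U := by
        show U e ≤ q
        rw [hsame _ _ h1 h2 (Or.inr hc) e hj]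
        exact he
      rw [← hI] at hc ⊢
      obtain ⟨g', hg', hc'⟩ := hc
      exact ⟨g', hg', h1, Relation.ReflTransGen.head ⟨h1, h2, e, he', hj⟩ hc'.2⟩
  · intro v hv
    have hv' := hv
    rw [← hI] at hv'
    obtain ⟨g, hg, hvW, hr⟩ := hv'
    have hgW : g ∈ W := Conn.right ⟨hvW, hr⟩
    refine ⟨g, hg, hvW, ?_⟩
    have hIclosed : ∀ a b : V d, a ∈ I → Step (op q U) W a b → b ∈ I := by
      intro a b ha hs
      rw [← hI] at ha ⊢
      obtain ⟨g', hg', hc'⟩ := ha
      have hb : Conn (op q U) W b a := Conn.symm ⟨hs.1, Relation.ReflTransGen.single hs⟩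
      exact ⟨g', hg', hb.trans hc'⟩
    clear hgW hg
    have key : ∀ u, Relation.ReflTransGen (Step (op q U) W) v u →
        u ∈ I ∧ Relation.ReflTransGen (Step (op q U') W) v u := by
      intro u hu
      induction hu with
      | refl => exact ⟨hv, Relation.ReflTransGen.refl⟩
      | tail _ hs ih =>
        refine ⟨hIclosed _ _ ih.1 hs, ih.2.tail ?_⟩
        obtain ⟨h1, h2, e, he, hj⟩ := hs
        refine ⟨h1, h2, e, ?_, hj⟩
        show U' e ≤ q
        rw [← hsame _ _ h1 h2 (Or.inl ih.1) e hj]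
        exact he
    exact (key g hr).2

theorem measurable_is_eq (q : ℝ) (W I : Set (V d)) (Γ : Set (V d)) :
    MeasurableSet {U : Cfg d | IS (op q U) W Γ = I} := by
  classical
  have h : {U : Cfg d | IS (op q U) W Γ = I} =
      ⋂ v : V d, {U : Cfg d | v ∈ IS (op q U) W Γ ↔ v ∈ I} := by
    ext U
    simp only [mem_iInter, mem_ofPred_eq]
    exact Set.ext_iff
  have hm : ∀ v, MeasurableSet {U : Cfg d | v ∈ IS (op q U) W Γ} := by
    intro v
    have : {U : Cfg d | v ∈ IS (op q U) W Γ} = ⋃ g ∈ Γ, {U : Cfg d | Conn (op q U) W v g} := by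
      ext U
      simp only [mem_iUnion, mem_ofPred_eq, exists_prop, IS]
    rw [this]
    exact MeasurableSet.biUnion (to_countable _) fun g _ => measurableSet_conn q W v g
  rw [h]
  refine MeasurableSet.iInter fun v => ?_
  by_cases hv : v ∈ I
  · simp only [hv, iff_true]
    exact hm v
  · simp only [hv, iff_false]
    exact (hm v).compl

/-- first hit of `I` -/
theorem exists_exit {O : Set (E d)} {Λ S Γ : Set (V d)} {w g : V d} (hw : w ∈ S) (hg : g ∈ Γ)
    (hΓ : Γ ⊆ Λ \ S) (h : Conn O Λ w g) :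
    ∃ a b, a ∈ S ∧ b ∈ IS O (Λ \ S) Γ ∧ Adj a b ∧ w ∈ Cl O (Λ \ IS O (Λ \ S) Γ) a := by
  set I := IS O (Λ \ S) Γ with hI
  have hIΛ : I ⊆ Λ \ S := fun v hv => by
    obtain ⟨g', -, hc⟩ := hv
    exact hc.1
  have hgI : g ∈ I := ⟨g, hg, Conn.refl (hΓ hg)⟩
  have hwI : w ∉ I := fun h => (hIΛ h).2 hw
  obtain ⟨hwΛ, hr⟩ := h
  have key : ∃ a b, Conn O (Λ \ I) w a ∧ b ∈ I ∧ Step O Λ a b := by
    by_contra hcon
    push Not at hcon
    have : ∀ u, Relation.ReflTransGen (Step O Λ) w u → Conn O (Λ \ I) w u := by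
      intro u hu
      induction hu with
      | refl => exact Conn.refl ⟨hwΛ, hwI⟩
      | @tail b c _ hs ih =>
        have hc : c ∉ I := fun hc => hcon b c ih hc hs
        obtain ⟨h1, h2, e, he, hj⟩ := hs
        exact Conn.snoc ih ⟨⟨h1, (Conn.right ih).2⟩, ⟨h2, hc⟩, e, he, hj⟩
    exact (Conn.right (this g hr)).2 hgI
  obtain ⟨a, b, hwa, hb, h1, h2, e, he, hj⟩ := key
  refine ⟨a, b, ?_, hb, ⟨e, hj⟩, Conn.symm hwa⟩
  by_contra haS
  apply (Conn.right hwa).2
  have hb' := hb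
  obtain ⟨g', hg', hc⟩ := hb
  exact ⟨g', hg', ⟨h1, haS⟩, Relation.ReflTransGen.head ⟨⟨h1, haS⟩, hIΛ hb', e, he, hj⟩ hc.2⟩

end Split_aux

open Split_aux in
/-- splitting of the number of vertices of `S` connected to the target `Γ` in the finite region
`Λ`: if there are at most `J` exits then, off a bad event, it is bounded by `Xs` -/
theorem exits_split (q : ℝ) (Λ S Γ : Finset (V d)) (hS : S ⊆ Λ) (hΓ : Γ ⊆ Λ) (hSΓ : Disjoint S Γ)
    (n J : ℕ) : ∃ (Xs : Cfg d → ℝ) (B : Set (Cfg d)), Measurable Xs ∧ MeasurableSet B ∧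
      (∀ U, 0 ≤ Xs U) ∧ Integrable Xs (P d) ∧
      (∀ U, U ∉ B → (ExitsTo (op q U) (↑Λ) (↑S) (↑Γ)).encard ≤ J →
        ({w : V d | w ∈ S ∧ ∃ g ∈ Γ, Conn (op q U) (↑Λ) w g}.ncard : ℝ) ≤ Xs U) ∧
      ∫ U, Xs U ∂(P d) ≤ J * ecap d q n ∧ (P d).real B ≤ J * tail d q n := by
  classical
  have hκ : 0 ≤ ecap d q n := Finset.sum_nonneg fun j _ => measureReal_nonneg
  have hπ : 0 ≤ tail d q n := measureReal_nonneg
  have hΓΛ : (↑Γ : Set (V d)) ⊆ (↑Λ : Set (V d)) \ ↑S := by
    intro v hv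
    exact ⟨hΓ hv, fun h => Finset.disjoint_left.1 hSΓ h hv⟩
  obtain ⟨Ex, hEx⟩ : ∃ Ex : Finset (V d) → Finset (V d × V d),
      ∀ I x, x ∈ Ex I ↔ x.1 ∈ S ∧ x.2 ∈ I ∧ Adj x.1 x.2 := by
    refine ⟨fun I => (S ×ˢ I).filter fun x => Adj x.1 x.2, fun I x => ?_⟩
    simp only [Finset.mem_filter, Finset.mem_product, and_assoc]
  obtain ⟨F, hF⟩ : ∃ F : Finset (Finset (V d)),
      ∀ I, I ∈ F ↔ I ∈ Λ.powerset ∧ (Ex I).card ≤ J := by
    refine ⟨Λ.powerset.filter fun I => (Ex I).card ≤ J, fun I => ?_⟩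
    simp only [Finset.mem_filter]
  let A : Finset (V d) → Set (Cfg d) := fun I => {U | IS (op q U) (↑Λ \ ↑S) ↑Γ = ↑I}
  let Z : Finset (V d) → V d → V d → Set (Cfg d) := fun I a w =>
    {U | w ∈ Cl (op q U) (↑Λ \ ↑I) a ∧ ¬ (n : ℕ∞) ≤ (Cl (op q U) (↑Λ \ ↑I) a).encard}
  let T : Finset (V d) → V d → Set (Cfg d) := fun I a =>
    {U | (n : ℕ∞) ≤ (Cl (op q U) (↑Λ \ ↑I) a).encard}
  have mA : ∀ I, MeasurableSet (A I) := fun I => measurable_is_eq q _ _ _
  have mT : ∀ I a, MeasurableSet (T I a) := fun I a => measurableSet_encard_nat q _ a n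
  have mZ : ∀ I a w, MeasurableSet (Z I a w) := fun I a w =>
    (measurableSet_conn q _ a w).inter (measurableSet_encard_nat q _ a n).compl
  have dA : ∀ I, DependsOn (fun U => U ∈ A I) (touch (↑I : Set (V d))) := by
    intro I U U' h
    exact propext ⟨fun hU => is_congr (fun e he => h e he.2) hU,
      fun hU => is_congr (fun e he => (h e he.2).symm) hU⟩
  have dT : ∀ I a, DependsOn (fun U => U ∈ T I a) (inner ((↑Λ : Set (V d)) \ ↑I)) := by
    intro I a U U' h
    have := dependsOn_cl q ((↑Λ : Set (V d)) \ ↑I) a h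
    simp only at this
    show ((n : ℕ∞) ≤ (Cl (op q U) (↑Λ \ ↑I) a).encard) =
      ((n : ℕ∞) ≤ (Cl (op q U') (↑Λ \ ↑I) a).encard)
    rw [this]
  have dZ : ∀ I a w, DependsOn (fun U => U ∈ Z I a w) (inner ((↑Λ : Set (V d)) \ ↑I)) := by
    intro I a w U U' h
    have := dependsOn_cl q ((↑Λ : Set (V d)) \ ↑I) a h
    simp only at this
    show (w ∈ Cl (op q U) (↑Λ \ ↑I) a ∧ ¬ (n : ℕ∞) ≤ (Cl (op q U) (↑Λ \ ↑I) a).encard) =
      (w ∈ Cl (op q U') (↑Λ \ ↑I) a ∧ ¬ (n : ℕ∞) ≤ (Cl (op q U') (↑Λ \ ↑I) a).encard)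
    rw [this]
  have hdis : ∀ I : Finset (V d), Disjoint (touch (↑I : Set (V d)))
      (inner ((↑Λ : Set (V d)) \ ↑I)) := by
    intro I
    rw [Set.disjoint_left]
    rintro e (he | he) ⟨h1, h2⟩
    · exact h1.2 he
    · exact h2.2 he
  have hAdis : ∀ I ∈ F, ∀ I' ∈ F, I ≠ I' → Disjoint (A I) (A I') := by
    intro I _ I' _ hne
    rw [Set.disjoint_left]
    intro U h1 h2
    apply hne
    have h3 : (↑I : Set (V d)) = ↑I' := by
      have e1 : IS (op q U) (↑Λ \ ↑S) ↑Γ = (↑I : Set (V d)) := h1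
      have e2 : IS (op q U) (↑Λ \ ↑S) ↑Γ = (↑I' : Set (V d)) := h2
      rw [← e1, ← e2]
    exact Finset.coe_injective h3
  have hsumA : ∑ I ∈ F, (P d).real (A I) ≤ 1 := by
    rw [← measureReal_biUnion_finset (fun I hI I' hI' hne => hAdis I hI I' hI' hne)
      (fun I _ => mA I)]
    exact measureReal_le_one
  let ind : Set (Cfg d) → Cfg d → ℝ := fun X => X.indicator fun _ => (1 : ℝ)
  have hind0 : ∀ X U, 0 ≤ ind X U := fun X U => indicator_nonneg (fun _ _ => zero_le_one) _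
  have mind : ∀ X, MeasurableSet X → Measurable (ind X) := fun X hX =>
    measurable_const.indicator hX
  have iind : ∀ X, MeasurableSet X → Integrable (ind X) (P d) := fun X hX =>
    (integrable_const (1 : ℝ)).indicator hX
  have eind : ∀ X, MeasurableSet X → ∫ U, ind X U ∂(P d) = (P d).real X := by
    intro X hX
    show ∫ U, X.indicator (fun _ => (1 : ℝ)) U ∂(P d) = _
    rw [integral_indicator_const _ hX]
    simp
  refine ⟨fun U => ∑ I ∈ F, ∑ x ∈ Ex I, ∑ w ∈ S, ind (A I ∩ Z I x.1 w) U,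
    ⋃ I ∈ F, ⋃ x ∈ Ex I, A I ∩ T I x.1, ?_, ?_, ?_, ?_, ?_, ?_, ?_⟩
  · exact Finset.measurable_fun_sum _ fun I _ => Finset.measurable_fun_sum _ fun x _ =>
      Finset.measurable_fun_sum _ fun w _ => mind _ ((mA I).inter (mZ I x.1 w))
  · exact Finset.measurableSet_biUnion _ fun I _ => Finset.measurableSet_biUnion _ fun x _ =>
      (mA I).inter (mT I x.1)
  · intro U
    exact Finset.sum_nonneg fun I _ => Finset.sum_nonneg fun x _ => Finset.sum_nonneg fun w _ =>
      hind0 _ _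
  · exact integrable_finsetSum _ fun I _ => integrable_finsetSum _ fun x _ =>
      integrable_finsetSum _ fun w _ => iind _ ((mA I).inter (mZ I x.1 w))
  · intro U hUB hJ
    have hfin : (IS (op q U) (↑Λ \ ↑S) (↑Γ : Set (V d))).Finite := by
      refine Λ.finite_toSet.subset fun v hv => ?_
      obtain ⟨g, -, hc⟩ := hv
      exact hc.1.1
    set I := hfin.toFinset with hI
    have hIc : (↑I : Set (V d)) = IS (op q U) (↑Λ \ ↑S) ↑Γ := hfin.coe_toFinset
    have hUA : U ∈ A I := hIc.symm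
    have hIΛ : I ∈ Λ.powerset := by
      rw [Finset.mem_powerset]
      intro v hv
      have : v ∈ (↑I : Set (V d)) := hv
      rw [hIc] at this
      obtain ⟨g, -, hc⟩ := this
      exact hc.1.1
    have hExit : ExitsTo (op q U) (↑Λ) (↑S) (↑Γ) = ↑(Ex I) := by
      ext x
      rw [Finset.mem_coe, hEx]
      constructor
      · rintro ⟨h1, h2, h3, h4⟩
        refine ⟨h1, ?_, h3⟩
        have : x.2 ∈ (↑I : Set (V d)) := by rw [hIc]; exact h4
        exact this
      · rintro ⟨h1, h2, h3⟩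
        have h2' : x.2 ∈ (↑I : Set (V d)) := h2
        rw [hIc] at h2'
        obtain ⟨g, hg, hc⟩ := h2'
        exact ⟨h1, hc.1, h3, g, hg, hc⟩
    have hcard : (Ex I).card ≤ J := by
      rw [hExit, encard_coe_eq_coe_finsetCard] at hJ
      exact_mod_cast hJ
    have hIF : I ∈ F := (hF I).2 ⟨hIΛ, hcard⟩
    have hset : {w : V d | w ∈ S ∧ ∃ g ∈ Γ, Conn (op q U) (↑Λ) w g} =
        ↑(S.filter fun w => ∃ g ∈ Γ, Conn (op q U) (↑Λ) w g) := by
      ext w
      simp
    rw [hset, ncard_coe_finset]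
    have h1 : ∀ w ∈ S.filter (fun w => ∃ g ∈ Γ, Conn (op q U) (↑Λ) w g),
        (1 : ℝ) ≤ ∑ x ∈ Ex I, ind (A I ∩ Z I x.1 w) U := by
      intro w hw
      obtain ⟨hwS, g, hg, hc⟩ := Finset.mem_filter.1 hw
      obtain ⟨a, b, ha, hb, hadj, hwa⟩ := exists_exit (Λ := (↑Λ : Set (V d))) (S := ↑S) (Γ := ↑Γ)
        hwS hg hΓΛ hc
      rw [← hIc] at hb hwa
      have hx : (a, b) ∈ Ex I := (hEx I (a, b)).2 ⟨ha, hb, hadj⟩
      have hnT : U ∉ T I a := by
        intro hT
        apply hUB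
        exact mem_iUnion₂.2 ⟨I, hIF, mem_iUnion₂.2 ⟨(a, b), hx, hUA, hT⟩⟩
      have hmem : U ∈ A I ∩ Z I a w := ⟨hUA, hwa, hnT⟩
      have h2 : ind (A I ∩ Z I (a, b).1 w) U = 1 := indicator_of_mem hmem _
      rw [← h2]
      exact Finset.single_le_sum (f := fun x : V d × V d => ind (A I ∩ Z I x.1 w) U)
        (fun x _ => hind0 _ _) hx
    calc ((S.filter fun w => ∃ g ∈ Γ, Conn (op q U) (↑Λ) w g).card : ℝ)
        = ∑ w ∈ S.filter (fun w => ∃ g ∈ Γ, Conn (op q U) (↑Λ) w g), (1 : ℝ) := by simp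
      _ ≤ ∑ w ∈ S.filter (fun w => ∃ g ∈ Γ, Conn (op q U) (↑Λ) w g),
            ∑ x ∈ Ex I, ind (A I ∩ Z I x.1 w) U := Finset.sum_le_sum h1
      _ ≤ ∑ w ∈ S, ∑ x ∈ Ex I, ind (A I ∩ Z I x.1 w) U :=
          Finset.sum_le_sum_of_subset_of_nonneg (Finset.filter_subset _ _)
            fun w _ _ => Finset.sum_nonneg fun x _ => hind0 _ _
      _ = ∑ x ∈ Ex I, ∑ w ∈ S, ind (A I ∩ Z I x.1 w) U := Finset.sum_comm
      _ ≤ ∑ I ∈ F, ∑ x ∈ Ex I, ∑ w ∈ S, ind (A I ∩ Z I x.1 w) U :=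
          Finset.single_le_sum (f := fun I => ∑ x ∈ Ex I, ∑ w ∈ S, ind (A I ∩ Z I x.1 w) U)
            (fun I _ => Finset.sum_nonneg fun x _ => Finset.sum_nonneg fun w _ => hind0 _ _) hIF
  · have e1 : ∫ U, ∑ I ∈ F, ∑ x ∈ Ex I, ∑ w ∈ S, ind (A I ∩ Z I x.1 w) U ∂(P d) =
        ∑ I ∈ F, ∑ x ∈ Ex I, ∑ w ∈ S, (P d).real (A I) * (P d).real (Z I x.1 w) := by
      rw [integral_finsetSum _ fun I _ => integrable_finsetSum _ fun x _ =>
        integrable_finsetSum _ fun w _ => iind _ ((mA I).inter (mZ I x.1 w))]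
      refine Finset.sum_congr rfl fun I _ => ?_
      rw [integral_finsetSum _ fun x _ =>
        integrable_finsetSum _ fun w _ => iind _ ((mA I).inter (mZ I x.1 w))]
      refine Finset.sum_congr rfl fun x _ => ?_
      rw [integral_finsetSum _ fun w _ => iind _ ((mA I).inter (mZ I x.1 w))]
      refine Finset.sum_congr rfl fun w _ => ?_
      rw [eind _ ((mA I).inter (mZ I x.1 w)),
        prob_inter (mA I) (mZ I x.1 w) (dA I) (dZ I x.1 w) (hdis I)]
    rw [e1]
    have e2 : ∀ I ∈ F, ∑ x ∈ Ex I, ∑ w ∈ S, (P d).real (A I) * (P d).real (Z I x.1 w) ≤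
        (P d).real (A I) * (J * ecap d q n) := by
      intro I hI
      have hc : (Ex I).card ≤ J := ((hF I).1 hI).2
      calc ∑ x ∈ Ex I, ∑ w ∈ S, (P d).real (A I) * (P d).real (Z I x.1 w)
          = ∑ x ∈ Ex I, (P d).real (A I) * ∑ w ∈ S, (P d).real (Z I x.1 w) := by
            simp only [Finset.mul_sum]
        _ ≤ ∑ x ∈ Ex I, (P d).real (A I) * ecap d q n := by
            refine Finset.sum_le_sum fun x _ => ?_
            have hs : ∑ w ∈ S, (P d).real (Z I x.1 w) ≤ ecap d q n :=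
              Pairs_aux.sum_small q ((↑Λ : Set (V d)) \ (↑I : Set (V d))) x.1 S n
            exact mul_le_mul_of_nonneg_left hs measureReal_nonneg
        _ = (Ex I).card * ((P d).real (A I) * ecap d q n) := by
            rw [Finset.sum_const, nsmul_eq_mul]
        _ ≤ J * ((P d).real (A I) * ecap d q n) := by
            have : ((Ex I).card : ℝ) ≤ J := by exact_mod_cast hc
            have h0 : 0 ≤ (P d).real (A I) * ecap d q n := mul_nonneg measureReal_nonneg hκ
            gcongr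
        _ = (P d).real (A I) * (J * ecap d q n) := by ring
    refine (Finset.sum_le_sum e2).trans ?_
    rw [← Finset.sum_mul]
    have h0 : 0 ≤ (J : ℝ) * ecap d q n := mul_nonneg (Nat.cast_nonneg _) hκ
    exact mul_le_of_le_one_left h0 hsumA
  · have e2 : ∀ I ∈ F, (P d).real (⋃ x ∈ Ex I, A I ∩ T I x.1) ≤
        (P d).real (A I) * (J * tail d q n) := by
      intro I hI
      have hc : (Ex I).card ≤ J := ((hF I).1 hI).2
      calc (P d).real (⋃ x ∈ Ex I, A I ∩ T I x.1) ≤ ∑ x ∈ Ex I, (P d).real (A I ∩ T I x.1) :=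
            measureReal_biUnion_finset_le _ _
        _ = ∑ x ∈ Ex I, (P d).real (A I) * (P d).real (T I x.1) :=
            Finset.sum_congr rfl fun x _ =>
              prob_inter (mA I) (mT I x.1) (dA I) (dT I x.1) (hdis I)
        _ ≤ ∑ x ∈ Ex I, (P d).real (A I) * tail d q n := by
            refine Finset.sum_le_sum fun x _ => ?_
            have hs : (P d).real (T I x.1) ≤ tail d q n :=
              tailW_le q ((↑Λ : Set (V d)) \ (↑I : Set (V d))) x.1 n
            exact mul_le_mul_of_nonneg_left hs measureReal_nonneg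
        _ = (Ex I).card * ((P d).real (A I) * tail d q n) := by
            rw [Finset.sum_const, nsmul_eq_mul]
        _ ≤ J * ((P d).real (A I) * tail d q n) := by
            have : ((Ex I).card : ℝ) ≤ J := by exact_mod_cast hc
            have h0 : 0 ≤ (P d).real (A I) * tail d q n := mul_nonneg measureReal_nonneg hπ
            gcongr
        _ = (P d).real (A I) * (J * tail d q n) := by ring
    refine (measureReal_biUnion_finset_le _ _).trans ((Finset.sum_le_sum e2).trans ?_)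
    rw [← Finset.sum_mul]
    have h0 : 0 ≤ (J : ℝ) * tail d q n := mul_nonneg (Nat.cast_nonneg _) hπ
    exact mul_le_of_le_one_left h0 hsumA

end Pool.Agent.helper55.FP
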