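import Pool.Agent.helper55.FP.NDefs
import Pool.Agent.helper55.FP.LDefs
import Pool.Agent.helper55.FP.Conn
import Pool.Agent.helper55.FP.Paths
import Pool.Agent.helper55.FP.Meas
import Pool.Agent.helper55.FP.Indep
import Pool.Agent.helper55.FP.Resample
import Pool.Agent.helper55.FP.BK
import Pool.Agent.helper55.FP.Harris
import Pool.Agent.helper55.FP.Symm
import Pool.Agent.helper55.FP.LeftCont
import Pool.Agent.helper55.FP.Sprinkle
import Pool.Agent.helper55.FP.Pairs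
import Pool.Agent.helper55.FP.Split
import Pool.Agent.helper55.FP.ExitLim

/-!
# FP project, module Weak (helper42): second moment lower bound for the number of exits
-/

set_option autoImplicit false

open MeasureTheory Set Filter Topology
open scoped ENNReal

namespace Pool.Agent.helper55.FP.Weak_aux

variable {d : ℕ}

theorem cl_subset_of_closed {O : Set (E d)} {W T : Set (V d)} {a : V d} (ha : a ∈ T)
    (h : ∀ x ∈ T, ∀ y, Step O W x y → y ∈ T) : Cl O W a ⊆ T := by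
  rintro b ⟨-, hb⟩
  induction hb with
  | refl => exact ha
  | tail _ hs ih => exact h _ ih _ hs

theorem cl_subset_of_closed' {O : Set (E d)} {W T : Set (V d)} {a : V d} (ha : a ∈ T)
    (h : ∀ x ∈ T, Conn O W a x → ∀ y, Step O W x y → y ∈ T) : Cl O W a ⊆ T := by
  rintro b ⟨haW, hb⟩
  have key : Conn O W a b ∧ b ∈ T := by
    induction hb with
    | refl => exact ⟨Conn.refl haW, ha⟩
    | tail _ hs ih => exact ⟨ih.1.snoc hs, h _ ih.2 ih.1 _ hs⟩
  exact key.2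

theorem meets_bd {O : Set (E d)} {D : Set (V d)} {w : V d} (hw : w ∉ D)
    (hinf : (Cl O univ w).Infinite) (hfin : (Cl O Dᶜ w).Finite) :
    ∃ v ∈ bd D, Conn O Dᶜ w v := by
  by_contra hcon
  push Not at hcon
  apply hinf
  apply hfin.subset
  apply cl_subset_of_closed (Conn.refl hw)
  rintro x hx y ⟨-, -, e, he, hj⟩
  have hxD : x ∉ D := Conn.right hx
  by_cases hy : y ∈ D
  · exact absurd hx (hcon x ⟨hxD, y, hy, ⟨e, hj.symm⟩⟩)
  · exact Conn.snoc hx ⟨hxD, hy, e, he, hj⟩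

theorem bd_sub (D : Set (V d)) : bd D ⊆ ⋃ a ∈ D, {b : V d | Adj a b} := by
  rintro b ⟨-, a, ha, hab⟩
  exact mem_biUnion ha hab

theorem bd_finite {D : Set (V d)} (hD : D.Finite) : (bd D).Finite :=
  (hD.biUnion fun a _ => adj_finite a).subset (bd_sub D)

theorem bd_ncard (D : Finset (V d)) : ((bd (↑D : Set (V d))).ncard : ℝ) ≤ 2 * d * D.card := by
  classical
  have h0 : ∀ a : V d, (adj_finite a).toFinset.card ≤ 2 * d := by
    intro a
    have h1 := adj_encard a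
    rw [(adj_finite a).encard_eq_coe_toFinset_card] at h1
    exact_mod_cast h1
  have h1 : bd (↑D : Set (V d)) ⊆ ↑(D.biUnion fun a => (adj_finite a).toFinset) := by
    intro b hb
    have h2 := bd_sub _ hb
    simpa using h2
  have h2 : (bd (↑D : Set (V d))).ncard ≤ D.card * (2 * d) := by
    refine (ncard_le_ncard h1 (Finset.finite_toSet _)).trans ?_
    rw [ncard_coe_finset]
    exact Finset.card_biUnion_le_card_mul _ _ _ fun a _ => h0 a
  have h3 : ((bd (↑D : Set (V d))).ncard : ℝ) ≤ ((D.card * (2 * d) : ℕ) : ℝ) := by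
    exact_mod_cast h2
  push_cast at h3
  linarith

theorem exists_new {O : Set (E d)} {D : Set (V d)} {w : V d} (hD : D.Finite) (hw : w ∉ D)
    (hinf : (Cl O univ w).Infinite) (hfin : (Cl O Dᶜ w).Finite) :
    ∃ v ∈ bd D, (Cl O (D ∪ Cl O Dᶜ w)ᶜ v).Infinite := by
  by_contra hcon
  push Not at hcon
  apply hinf
  have hT : ((D ∪ Cl O Dᶜ w) ∪ ⋃ v ∈ bd D, Cl O (D ∪ Cl O Dᶜ w)ᶜ v).Finite := by
    refine (hD.union hfin).union ((bd_finite hD).biUnion fun v hv => ?_)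
    exact hcon v hv
  apply hT.subset
  apply cl_subset_of_closed (Or.inl (Or.inr (Conn.refl hw)))
  rintro x hx y ⟨-, -, e, he, hj⟩
  by_cases hy : y ∈ D ∪ Cl O Dᶜ w
  · exact Or.inl hy
  right
  rcases hx with (hx | hx) | hx
  · have hyb : y ∈ bd D := ⟨fun h => hy (Or.inl h), x, hx, ⟨e, hj⟩⟩
    exact mem_biUnion hyb (Conn.refl hy)
  · exact absurd (Or.inr (Conn.snoc hx ⟨Conn.right hx, fun h => hy (Or.inl h), e, he, hj⟩)) hy
  · simp only [mem_iUnion] at hx
    obtain ⟨v, hv, hx⟩ := hx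
    exact mem_biUnion hv (Conn.snoc hx ⟨Conn.right hx, hy, e, he, hj⟩)

/-- natural number valued norm -/
theorem exists_nrm (x : V d) : ∃ k : ℕ, ‖x‖ = k := by
  refine ⟨Finset.univ.sup fun i => (x i).natAbs, ?_⟩
  have h7 : ‖x‖ = ((‖x‖₊ : NNReal) : ℝ) := rfl
  rw [h7, Pi.nnnorm_def]
  have h8 : ∀ i, ‖x i‖₊ = ((x i).natAbs : NNReal) := by
    intro i
    exact (NNReal.natCast_natAbs (x i)).symm
  simp only [h8]
  have h9 : (Finset.univ.sup fun i => ((x i).natAbs : NNReal)) =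
      ((Finset.univ.sup fun i => (x i).natAbs : ℕ) : NNReal) := by
    rw [Finset.apply_sup_eq_sup_comp_of_linearOrder (fun k : ℕ => (k : NNReal))
      Nat.mono_cast (by simp)]
    rfl
  rw [h9]
  exact NNReal.coe_natCast _

theorem norm_step {x y : V d} {e : E d} (hj : Joins e x y) : ‖y‖ ≤ ‖x‖ + 1 := by
  have h1 := Adj.norm ⟨e, hj⟩
  have h2 : y = x + (y - x) := by abel
  calc ‖y‖ = ‖x + (y - x)‖ := by rw [← h2]
    _ ≤ ‖x‖ + ‖y - x‖ := norm_add_le _ _
    _ ≤ ‖x‖ + 1 := by linarith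

/-- an infinite cluster off `D` reaches the boundary of the box inside the box -/
theorem reach {O : Set (E d)} {D : Set (V d)} {Λ Γ : Finset (V d)} {N : ℕ}
    (hΛ : ∀ v, v ∈ Λ ↔ v ∉ D ∧ ‖v‖ ≤ N) (hΓ : ∀ v, v ∈ Γ ↔ v ∉ D ∧ ‖v‖ = N) {w : V d}
    (hw : w ∈ Λ) (hinf : (Cl O Dᶜ w).Infinite) : ∃ g ∈ Γ, Conn O (↑Λ) w g := by
  by_contra hcon
  push Not at hcon
  apply hinf
  have hfin : (Cl O (↑Λ) w).Finite := Λ.finite_toSet.subset fun x hx => Conn.right hx
  refine hfin.subset ?_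
  apply cl_subset_of_closed (Conn.refl hw)
  rintro x hx y ⟨-, hyD, e, he, hj⟩
  have hxΛ : x ∈ Λ := Conn.right hx
  have hxn := ((hΛ x).1 hxΛ)
  have hxN : ‖x‖ ≠ N := fun h => hcon x ((hΓ x).2 ⟨hxn.1, h⟩) hx
  obtain ⟨k, hk⟩ := exists_nrm x
  have h1 := norm_step hj
  have h2 : k < N := by
    have h3 := hxn.2
    rw [hk] at h3 hxN
    have h4 : k ≤ N := by exact_mod_cast h3
    have h5 : k ≠ N := by exact_mod_cast hxN
    omega
  have hyΛ : y ∈ Λ := by
    rw [hΛ]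
    refine ⟨hyD, ?_⟩
    rw [hk] at h1
    have h3 : ((k + 1 : ℕ) : ℝ) ≤ N := by exact_mod_cast h2
    push_cast at h3
    linarith
  exact Conn.snoc hx ⟨hxΛ, hyΛ, e, he, hj⟩

/-- a connection to the boundary of a large box gives a large cluster -/
theorem large {O : Set (E d)} {D : Set (V d)} {Λ Γ : Finset (V d)} {N n : ℕ}
    (hΛ : ∀ v, v ∈ Λ ↔ v ∉ D ∧ ‖v‖ ≤ N) (hΓ : ∀ v, v ∈ Γ ↔ v ∉ D ∧ ‖v‖ = N) {w : V d}
    (hwN : ‖w‖ + n ≤ N) (h : ∃ g ∈ Γ, Conn O (↑Λ) w g) :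
    (n : ℕ∞) ≤ (Cl O Dᶜ w).encard := by
  obtain ⟨g, hg, hc⟩ := h
  have hsub : (↑Λ : Set (V d)) ⊆ Dᶜ := fun v hv => ((hΛ v).1 hv).1
  have hc' : Conn O Dᶜ w g := Conn.mono subset_rfl hsub hc
  obtain ⟨k0, hk0⟩ := exists_nrm w
  have key : ∀ v, Conn O Dᶜ w v → ∀ k : ℕ, k0 ≤ k → (k : ℝ) ≤ ‖v‖ →
      ∃ u ∈ Cl O Dᶜ w, ‖u‖ = k := by
    rintro v ⟨hwD, hv⟩
    induction hv with
    | refl =>
      intro k hk hkv
      refine ⟨w, Conn.refl hwD, ?_⟩
      rw [hk0] at hkv ⊢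
      have h1 : k ≤ k0 := by exact_mod_cast hkv
      have : k = k0 := le_antisymm h1 hk
      rw [this]
    | tail hab hs ih =>
      rename_i x y
      intro k hk hky
      by_cases hkx : (k : ℝ) ≤ ‖x‖
      · exact ih k hk hkx
      · refine ⟨y, Conn.snoc ⟨hwD, hab⟩ hs, ?_⟩
        obtain ⟨-, -, e, he, hj⟩ := hs
        have h1 := norm_step hj
        obtain ⟨kx, hkx'⟩ := exists_nrm x
        obtain ⟨ky, hky'⟩ := exists_nrm y
        rw [hkx', hky'] at h1
        rw [hkx'] at hkx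
        rw [hky'] at hky ⊢
        have h2 : ky ≤ kx + 1 := by exact_mod_cast h1
        have h3 : kx < k := by
          rw [not_le] at hkx
          exact_mod_cast hkx
        have h4 : k ≤ ky := by exact_mod_cast hky
        have : ky = k := by omega
        rw [this]
  have hgN : ‖g‖ = N := ((hΓ g).1 hg).2
  choose! f hf1 hf2 using key g hc'
  have hN : k0 + n ≤ N := by
    rw [hk0] at hwN
    exact_mod_cast hwN
  have hinj : InjOn f (Finset.Ico k0 (k0 + n) : Finset ℕ) := by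
    intro k hk l hl hkl
    rw [Finset.mem_coe, Finset.mem_Ico] at hk hl
    have h1 := hf2 k hk.1 (by rw [hgN]; exact_mod_cast (by omega : k ≤ N))
    have h2 := hf2 l hl.1 (by rw [hgN]; exact_mod_cast (by omega : l ≤ N))
    rw [hkl, h2] at h1
    exact_mod_cast h1.symm
  have himg : f '' (Finset.Ico k0 (k0 + n) : Finset ℕ) ⊆ Cl O Dᶜ w := by
    rintro _ ⟨k, hk, rfl⟩
    rw [Finset.mem_coe, Finset.mem_Ico] at hk
    exact hf1 k hk.1 (by rw [hgN]; exact_mod_cast (by omega : k ≤ N))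
  calc (n : ℕ∞) = (f '' (Finset.Ico k0 (k0 + n) : Finset ℕ)).encard := by
        rw [hinj.encard_image, encard_coe_eq_coe_finsetCard, Nat.card_Ico]
        congr 1
        omega
    _ ≤ _ := encard_le_encard himg

/-- Markov union bound for disjoint events -/
theorem markov_disjoint {ι : Type} [Countable ι] (vis H : ι → Set (Cfg d)) (S : ι → Set (E d))
    (hv : ∀ i, MeasurableSet (vis i)) (hH : ∀ i, MeasurableSet (H i))
    (hvS : ∀ i, DependsOn (fun U => U ∈ vis i) (S i))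
    (hHS : ∀ i, DependsOn (fun U => U ∈ H i) (S i)ᶜ)
    (hdis : ∀ i j, i ≠ j → Disjoint (vis i) (vis j)) (T : Set (Cfg d)) (hT : ∀ i, vis i ⊆ T)
    (q : ℝ) (hq0 : 0 ≤ q) (hq : ∀ i, (P d).real (H i) ≤ q) :
    (P d).real (⋃ i, vis i ∩ H i) ≤ (P d).real T * q := by
  have h1 : P d (⋃ i, vis i ∩ H i) ≤ P d T * ENNReal.ofReal q := by
    calc P d (⋃ i, vis i ∩ H i) ≤ ∑' i, P d (vis i ∩ H i) := measure_iUnion_le _
      _ ≤ ∑' i, P d (vis i) * ENNReal.ofReal q := by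
          refine ENNReal.tsum_le_tsum fun i => ?_
          have h2 := prob_inter (hv i) (hH i) (hvS i) (hHS i) disjoint_compl_right
          rw [← ofReal_measureReal (μ := P d) (s := vis i ∩ H i), h2,
            ENNReal.ofReal_mul measureReal_nonneg, ofReal_measureReal]
          gcongr
          exact hq i
      _ = P d (⋃ i, vis i) * ENNReal.ofReal q := by
          rw [ENNReal.tsum_mul_right, measure_iUnion (fun i j hij => hdis i j hij) hv]
      _ ≤ P d T * ENNReal.ofReal q := by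
          gcongr
          exact iUnion_subset hT
  have h2 := ENNReal.toReal_mono (ENNReal.mul_ne_top (measure_ne_top _ _) ENNReal.ofReal_ne_top) h1
  rw [ENNReal.toReal_mul, ENNReal.toReal_ofReal hq0] at h2
  exact h2

theorem dependsOn_mono' {α : Type*} {f : Cfg d → α} {S T : Set (E d)} (h : DependsOn f S)
    (hST : S ⊆ T) : DependsOn f T := fun _ _ hU => h fun e he => hU e (hST he)

theorem inner_disj {F W : Set (V d)} (h : W ⊆ Fᶜ) : inner W ⊆ (touch F)ᶜ := by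
  rintro e ⟨h1, h2⟩ (h3 | h3)
  · exact h h1 h3
  · exact h h2 h3

theorem tail_nonneg' (q : ℝ) (n : ℕ) : 0 ≤ tail d q n := measureReal_nonneg

theorem theta_nonneg' (q : ℝ) : 0 ≤ theta d q := measureReal_nonneg

theorem first_term (q : ℝ) (D : Finset (V d)) {w : V d} (hw : w ∉ D) (n : ℕ) :
    (P d).real {U : Cfg d | (n : ℕ∞) ≤ (Cl (op q U) (↑D)ᶜ w).encard ∧
      (Cl (op q U) (↑D)ᶜ w).Finite ∧
      ∃ v ∈ bd (↑D : Set (V d)), (Cl (op q U) (↑D ∪ Cl (op q U) (↑D)ᶜ w)ᶜ v).Infinite} ≤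
    tail d q n * (2 * d * D.card * theta d q) := by
  classical
  set vis : {F : Finset (V d) // n ≤ F.card} → Set (Cfg d) :=
    fun F => {U | Cl (op q U) (↑D)ᶜ w = ↑F.1} with hvis
  set H : {F : Finset (V d) // n ≤ F.card} → Set (Cfg d) :=
    fun F => {U | ∃ v ∈ bd (↑D : Set (V d)), (Cl (op q U) (↑D ∪ ↑F.1)ᶜ v).Infinite} with hH
  have hbd := bd_finite (D.finite_toSet)
  have h1 : {U : Cfg d | (n : ℕ∞) ≤ (Cl (op q U) (↑D)ᶜ w).encard ∧
      (Cl (op q U) (↑D)ᶜ w).Finite ∧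
      ∃ v ∈ bd (↑D : Set (V d)), (Cl (op q U) (↑D ∪ Cl (op q U) (↑D)ᶜ w)ᶜ v).Infinite} ⊆
      ⋃ F, vis F ∩ H F := by
    rintro U ⟨h2, h3, v, hv, h4⟩
    have h5 : n ≤ h3.toFinset.card := by
      rw [h3.encard_eq_coe_toFinset_card] at h2
      exact_mod_cast h2
    rw [mem_iUnion]
    refine ⟨⟨h3.toFinset, h5⟩, ?_, v, hv, ?_⟩
    · change _ = ((h3.toFinset : Finset (V d)) : Set (V d))
      rw [h3.coe_toFinset]
    · change (Cl (op q U) (↑D ∪ ((h3.toFinset : Finset (V d)) : Set (V d)))ᶜ v).Infinite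
      rw [h3.coe_toFinset]
      exact h4
  have hHeq : ∀ F, H F = ⋃ v ∈ bd (↑D : Set (V d)),
      {U | (Cl (op q U) (↑D ∪ ↑F.1)ᶜ v).Infinite} := by
    intro F
    ext U
    simp [hH]
  have h2 := markov_disjoint vis H (fun F => inner (↑D)ᶜ ∩ touch (↑F.1))
    (fun F => measurableSet_cl_eq q _ _ _)
    (fun F => by
      rw [hHeq]
      exact MeasurableSet.biUnion hbd.countable fun v _ => measurableSet_inf q _ v)
    (fun F => dependsOn_cl_eq q _ _ w (by simpa using hw))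
    (fun F => by
      intro U U' hU
      have h3 : ∀ v, Cl (op q U) (↑D ∪ ↑F.1)ᶜ v = Cl (op q U') (↑D ∪ ↑F.1)ᶜ v := by
        intro v
        refine dependsOn_cl q _ v fun e he => hU e ?_
        intro h4
        exact inner_disj (F := (↑F.1 : Set (V d)))
          (compl_subset_compl.2 subset_union_right) he h4.2
      change (∃ v ∈ bd (↑D : Set (V d)), (Cl (op q U) (↑D ∪ ↑F.1)ᶜ v).Infinite) =
        (∃ v ∈ bd (↑D : Set (V d)), (Cl (op q U') (↑D ∪ ↑F.1)ᶜ v).Infinite)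
      simp only [h3])
    (fun F F' hFF => by
      rw [Set.disjoint_left]
      intro U hU hU'
      apply hFF
      have h3 : ((F.1 : Finset (V d)) : Set (V d)) = ↑F'.1 := hU.symm.trans hU'
      exact Subtype.ext (Finset.coe_injective h3))
    {U : Cfg d | (n : ℕ∞) ≤ (Cl (op q U) (↑D)ᶜ w).encard}
    (fun F => by
      intro U hU
      have h3 : Cl (op q U) (↑D)ᶜ w = ↑F.1 := hU
      change (n : ℕ∞) ≤ (Cl (op q U) (↑D)ᶜ w).encard
      rw [h3, encard_coe_eq_coe_finsetCard]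
      exact_mod_cast F.2)
    (2 * d * D.card * theta d q)
    (mul_nonneg (by positivity) (theta_nonneg' q))
    (fun F => by
      rw [hHeq]
      have h3 : (⋃ v ∈ bd (↑D : Set (V d)), {U : Cfg d | (Cl (op q U) (↑D ∪ ↑F.1)ᶜ v).Infinite})
          = ⋃ v ∈ hbd.toFinset, {U : Cfg d | (Cl (op q U) (↑D ∪ ↑F.1)ᶜ v).Infinite} := by
        simp
      rw [h3]
      refine (measureReal_biUnion_finset_le _ _).trans ?_
      refine (Finset.sum_le_card_nsmul _ _ (theta d q) fun v _ => thetaW_le q _ v).trans ?_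
      rw [nsmul_eq_mul]
      refine mul_le_mul_of_nonneg_right ?_ (theta_nonneg' q)
      have h4 := bd_ncard D
      rw [ncard_eq_toFinset_card _ hbd] at h4
      exact h4)
  refine (measureReal_mono h1).trans (h2.trans ?_)
  exact mul_le_mul_of_nonneg_right (tailW_le q _ w n) (mul_nonneg (by positivity) (theta_nonneg' q))

theorem sum_ind {α : Type*} (s : Finset α) (A : α → Set (Cfg d)) (U : Cfg d) :
    ∑ w ∈ s, (A w).indicator (1 : Cfg d → ℝ≥0∞) U =
      (({w | w ∈ s ∧ U ∈ A w} : Set α).ncard : ℝ≥0∞) := by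
  classical
  have h1 : ({w | w ∈ s ∧ U ∈ A w} : Set α) = ↑(s.filter fun w => U ∈ A w) := by
    ext w
    simp
  rw [h1, ncard_coe_finset, Finset.card_filter]
  push_cast
  refine Finset.sum_congr rfl fun w _ => ?_
  by_cases h : U ∈ A w <;> simp [h]

theorem sum_ind_real {α : Type*} (s : Finset α) (A : α → Set (Cfg d)) (U : Cfg d) :
    ∑ w ∈ s, (A w).indicator (1 : Cfg d → ℝ) U =
      (({w | w ∈ s ∧ U ∈ A w} : Set α).ncard : ℝ) := by
  classical
  have h1 : ({w | w ∈ s ∧ U ∈ A w} : Set α) = ↑(s.filter fun w => U ∈ A w) := by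
    ext w
    simp
  rw [h1, ncard_coe_finset, Finset.card_filter]
  push_cast
  refine Finset.sum_congr rfl fun w _ => ?_
  by_cases h : U ∈ A w <;> simp [h]

theorem sum_conn_le (q : ℝ) (W : Set (V d)) (v : V d) (S : Finset (V d)) (n : ℕ) :
    ∑ w ∈ S, (P d).real {U : Cfg d | (Cl (op q U) W v).encard < n ∧ Conn (op q U) W v w} ≤
      ecap d q n := by
  classical
  set A : V d → Set (Cfg d) :=
    fun w => {U : Cfg d | (Cl (op q U) W v).encard < n ∧ Conn (op q U) W v w} with hA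
  set B : ℕ → Set (Cfg d) := fun j => {U : Cfg d | (j : ℕ∞) ≤ (Cl (op q U) W v).encard} with hB
  have hBm : ∀ j, MeasurableSet (B j) := fun j => measurableSet_encard q W v j
  have hAm : ∀ w, MeasurableSet (A w) := by
    intro w
    have h1 : A w = (B n)ᶜ ∩ {U | Conn (op q U) W v w} := by
      ext U
      simp [hA, hB]
    rw [h1]
    exact (hBm n).compl.inter (measurableSet_conn q W v w)
  have key : ∑ w ∈ S, P d (A w) ≤ ∑ j ∈ Finset.Icc 1 n, P d (B j) := by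
    have e1 : ∀ w, P d (A w) = ∫⁻ U, (A w).indicator 1 U ∂(P d) := fun w =>
      (lintegral_indicator_one (hAm w)).symm
    have e2 : ∀ j, P d (B j) = ∫⁻ U, (B j).indicator 1 U ∂(P d) := fun j =>
      (lintegral_indicator_one (hBm j)).symm
    simp_rw [e1, e2]
    rw [← lintegral_finsetSum _ (fun w _ => measurable_one.indicator (hAm w)),
      ← lintegral_finsetSum _ (fun j _ => measurable_one.indicator (hBm j))]
    apply lintegral_mono
    intro U
    change ∑ w ∈ S, (A w).indicator (1 : Cfg d → ℝ≥0∞) U ≤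
      ∑ j ∈ Finset.Icc 1 n, (B j).indicator (1 : Cfg d → ℝ≥0∞) U
    rw [sum_ind, sum_ind]
    by_cases hn : (Cl (op q U) W v).encard < n
    · have hfin : (Cl (op q U) W v).Finite := by
        rw [← encard_ne_top_iff]
        exact ne_top_of_lt hn
      have hm := hfin.encard_eq_coe_toFinset_card
      rw [hm] at hn
      have hn' : hfin.toFinset.card < n := by exact_mod_cast hn
      have h1 : ({w | w ∈ S ∧ U ∈ A w} : Set (V d)).ncard ≤ hfin.toFinset.card := by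
        rw [← ncard_coe_finset]
        refine ncard_le_ncard ?_ (Finset.finite_toSet _)
        intro w hw
        rw [hfin.coe_toFinset]
        exact hw.2.2
      have h2 : hfin.toFinset.card ≤ ({j | j ∈ Finset.Icc 1 n ∧ U ∈ B j} : Set ℕ).ncard := by
        have h3 : (↑(Finset.Icc 1 hfin.toFinset.card) : Set ℕ) ⊆
            {j | j ∈ Finset.Icc 1 n ∧ U ∈ B j} := by
          intro j hj
          rw [Finset.mem_coe, Finset.mem_Icc] at hj
          refine ⟨Finset.mem_Icc.2 ⟨hj.1, by omega⟩, ?_⟩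
          change (j : ℕ∞) ≤ (Cl (op q U) W v).encard
          rw [hm]
          exact_mod_cast hj.2
        have h4 := ncard_le_ncard h3 ((Finset.finite_toSet (Finset.Icc 1 n)).subset
          fun j hj => hj.1)
        rwa [ncard_coe_finset, Nat.card_Icc, Nat.add_sub_cancel] at h4
      exact_mod_cast h1.trans h2
    · have h1 : ({w | w ∈ S ∧ U ∈ A w} : Set (V d)) = ∅ := by
        rw [eq_empty_iff_forall_notMem]
        intro w hw
        exact hn hw.2.1
      rw [h1]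
      simp
  have h1 := ENNReal.toReal_mono (ENNReal.sum_ne_top.2 fun _ _ => measure_ne_top _ _) key
  rw [ENNReal.toReal_sum (fun _ _ => measure_ne_top _ _),
    ENNReal.toReal_sum (fun _ _ => measure_ne_top _ _)] at h1
  refine h1.trans ?_
  unfold ecap
  exact Finset.sum_le_sum fun j _ => tailW_le q W v j

theorem theta_sum (q : ℝ) (D S : Finset (V d)) (hDS : Disjoint D S) (n : ℕ) :
    S.card * theta d q ≤ ∑ w ∈ S, thetaW q (↑D)ᶜ w +
      S.card * (tail d q n * (2 * d * D.card * theta d q)) + 2 * d * D.card * ecap d q n := by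
  classical
  have hbd := bd_finite (D.finite_toSet)
  have h1 : ∀ w ∈ S, theta d q ≤ thetaW q (↑D)ᶜ w + tail d q n * (2 * d * D.card * theta d q) +
      ∑ v ∈ hbd.toFinset, (P d).real {U : Cfg d | (Cl (op q U) (↑D)ᶜ v).encard < n ∧
        Conn (op q U) (↑D)ᶜ v w} := by
    intro w hw
    have hwD : w ∉ (↑D : Set (V d)) := fun h => Finset.disjoint_left.1 hDS h hw
    have h0 : theta d q = (P d).real {U : Cfg d | (Cl (op q U) univ w).Infinite} :=
      (thetaW_univ q w).symm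
    have h2 : {U : Cfg d | (Cl (op q U) univ w).Infinite} ⊆
        ({U : Cfg d | (Cl (op q U) (↑D)ᶜ w).Infinite} ∪
        {U : Cfg d | (n : ℕ∞) ≤ (Cl (op q U) (↑D)ᶜ w).encard ∧
          (Cl (op q U) (↑D)ᶜ w).Finite ∧
          ∃ v ∈ bd (↑D : Set (V d)),
            (Cl (op q U) (↑D ∪ Cl (op q U) (↑D)ᶜ w)ᶜ v).Infinite}) ∪
        ⋃ v ∈ hbd.toFinset, {U : Cfg d | (Cl (op q U) (↑D)ᶜ v).encard < n ∧
          Conn (op q U) (↑D)ᶜ v w} := by
      intro U hU
      by_cases hfin : (Cl (op q U) (↑D)ᶜ w).Finite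
      · by_cases hn : (n : ℕ∞) ≤ (Cl (op q U) (↑D)ᶜ w).encard
        · exact Or.inl (Or.inr ⟨hn, hfin, exists_new D.finite_toSet hwD hU hfin⟩)
        · right
          obtain ⟨v, hv, hc⟩ := meets_bd hwD hU hfin
          have hcl : Cl (op q U) (↑D)ᶜ v = Cl (op q U) (↑D)ᶜ w := by
            ext x
            exact ⟨fun h => hc.trans h, fun h => hc.symm.trans h⟩
          refine mem_biUnion (hbd.mem_toFinset.2 hv) ?_
          refine ⟨?_, hc.symm⟩
          rw [hcl]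
          exact not_le.1 hn
      · exact Or.inl (Or.inl hfin)
    refine h0.le.trans ((measureReal_mono h2).trans ?_)
    refine (measureReal_union_le _ _).trans ?_
    gcongr
    · refine (measureReal_union_le _ _).trans ?_
      gcongr
      · exact le_rfl
      · exact first_term q D hwD n
    · exact measureReal_biUnion_finset_le _ _
  have h2 := Finset.sum_le_sum h1
  rw [Finset.sum_const, nsmul_eq_mul, Finset.sum_add_distrib, Finset.sum_add_distrib,
    Finset.sum_const, nsmul_eq_mul, Finset.sum_comm] at h2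
  refine h2.trans ?_
  gcongr
  refine (Finset.sum_le_card_nsmul _ _ (ecap d q n) fun v _ => sum_conn_le q _ v S n).trans ?_
  rw [nsmul_eq_mul]
  refine mul_le_mul_of_nonneg_right ?_ (Finset.sum_nonneg fun _ _ => tail_nonneg' q _)
  have h4 := bd_ncard D
  rw [ncard_eq_toFinset_card _ hbd] at h4
  exact h4

theorem main_est (q : ℝ) (D S Λ Γ : Finset (V d)) (N n J : ℕ) (hn : 1 ≤ n) (hDS : Disjoint D S)
    (hΛ : ∀ v, v ∈ Λ ↔ v ∉ D ∧ ‖v‖ ≤ N) (hΓ : ∀ v, v ∈ Γ ↔ v ∉ D ∧ ‖v‖ = N)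
    (hSN : ∀ w ∈ S, ‖w‖ + n ≤ N) (t : ℝ) (ht : 0 < t) :
    ∑ w ∈ S, thetaW q (↑D)ᶜ w ≤ J * ecap d q n +
      t / 2 * (S.card * tail d q n * (S.card * tail d q n +
        (2 * d + 1) * n * (1 + 2 * d * ecap d q n))) +
      (J * tail d q n + (P d).real {U : Cfg d | (J : ℕ∞) ≤
        (ExitsTo (op q U) (↑Λ) (↑S) (↑Γ)).encard}) / (2 * t) := by
  classical
  have hSD : ∀ w ∈ S, w ∉ D := fun w hw h => Finset.disjoint_left.1 hDS h hw
  have hn' : (1 : ℝ) ≤ n := by exact_mod_cast hn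
  have hSΛ : S ⊆ Λ := by
    intro w hw
    rw [hΛ]
    exact ⟨hSD w hw, by linarith [hSN w hw]⟩
  have hΓΛ : Γ ⊆ Λ := by
    intro w hw
    rw [hΓ] at hw
    rw [hΛ]
    exact ⟨hw.1, hw.2.le⟩
  have hSΓ : Disjoint S Γ := by
    rw [Finset.disjoint_left]
    intro w hw hw'
    rw [hΓ] at hw'
    linarith [hSN w hw, hw'.2]
  obtain ⟨Xs, B, hXm, hBm, hX0, hXi, hXle, hXe, hBp⟩ := exits_split q Λ S Γ hSΛ hΓΛ hSΓ n J
  set R : V d → Set (Cfg d) := fun w => {U | ∃ g ∈ Γ, Conn (op q U) (↑Λ) w g} with hR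
  have hRm : ∀ w, MeasurableSet (R w) := by
    intro w
    have h1 : R w = ⋃ g ∈ Γ, {U | Conn (op q U) (↑Λ) w g} := by
      ext U
      simp [hR]
    rw [h1]
    exact Finset.measurableSet_biUnion _ fun g _ => measurableSet_conn q _ w g
  set X : Cfg d → ℝ := fun U => ∑ w ∈ S, (R w).indicator (1 : Cfg d → ℝ) U with hX
  set G : Set (Cfg d) := {U : Cfg d | (J : ℕ∞) ≤
    (ExitsTo (op q U) (↑Λ) (↑S) (↑Γ)).encard} with hG
  have hGm : MeasurableSet G := measurableSet_exitsTo q _ _ _ _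
  have hi1 : ∀ A : Set (Cfg d), MeasurableSet A → Integrable (A.indicator (1 : Cfg d → ℝ)) (P d) :=
    fun A hA => (integrable_const (1 : ℝ)).indicator hA
  have hint : ∀ A : Set (Cfg d), MeasurableSet A →
      ∫ U, A.indicator (1 : Cfg d → ℝ) U ∂(P d) = (P d).real A := by
    intro A hA
    exact integral_indicator_one hA
  -- expectation of X
  have hEX : ∫ U, X U ∂(P d) = ∑ w ∈ S, (P d).real (R w) := by
    rw [hX]
    rw [integral_finsetSum _ (fun w _ => hi1 _ (hRm w))]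
    exact Finset.sum_congr rfl fun w _ => hint _ (hRm w)
  have hXint : Integrable X (P d) := integrable_finsetSum _ fun w _ => hi1 _ (hRm w)
  -- second moment
  have hXX : ∀ U, X U ^ 2 = ∑ w ∈ S, ∑ w' ∈ S, (R w ∩ R w').indicator (1 : Cfg d → ℝ) U := by
    intro U
    rw [hX, sq, Finset.sum_mul_sum]
    refine Finset.sum_congr rfl fun w _ => Finset.sum_congr rfl fun w' _ => ?_
    by_cases h1 : U ∈ R w <;> by_cases h2 : U ∈ R w' <;> simp [h1, h2]
  have hXXint : Integrable (fun U => X U ^ 2) (P d) := by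
    simp_rw [hXX]
    exact integrable_finsetSum _ fun w _ => integrable_finsetSum _ fun w' _ =>
      hi1 _ ((hRm w).inter (hRm w'))
  have hEXX : ∫ U, X U ^ 2 ∂(P d) ≤ S.card * tail d q n * (S.card * tail d q n +
      (2 * d + 1) * n * (1 + 2 * d * ecap d q n)) := by
    refine le_trans ?_ (pair_bound q (↑D)ᶜ S n hn)
    simp_rw [hXX]
    rw [integral_finsetSum _ (fun w _ => integrable_finsetSum _ fun w' _ =>
      hi1 _ ((hRm w).inter (hRm w')))]
    refine Finset.sum_le_sum fun w hw => ?_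
    rw [integral_finsetSum _ (fun w' _ => hi1 _ ((hRm w).inter (hRm w')))]
    refine Finset.sum_le_sum fun w' hw' => ?_
    rw [hint _ ((hRm w).inter (hRm w'))]
    refine measureReal_mono ?_
    rintro U ⟨h1, h2⟩
    have h3 : ∀ v, v ∈ Λ ↔ v ∉ (↑D : Set (V d)) ∧ ‖v‖ ≤ N := hΛ
    have h4 : ∀ v, v ∈ Γ ↔ v ∉ (↑D : Set (V d)) ∧ ‖v‖ = N := hΓ
    exact ⟨large h3 h4 (hSN w hw) h1, large h3 h4 (hSN w' hw') h2⟩
  -- pointwise inequality
  have hpt : ∀ U, X U ≤ Xs U + (t / 2 * X U ^ 2 +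
      (B.indicator (1 : Cfg d → ℝ) U + G.indicator (1 : Cfg d → ℝ) U) / (2 * t)) := by
    intro U
    have h1 : 0 ≤ t / 2 * X U ^ 2 := by positivity
    have hB0 : 0 ≤ B.indicator (1 : Cfg d → ℝ) U := indicator_nonneg (fun _ _ => zero_le_one) U
    have hG0 : 0 ≤ G.indicator (1 : Cfg d → ℝ) U := indicator_nonneg (fun _ _ => zero_le_one) U
    have h2 : X U ≤ t / 2 * X U ^ 2 + 1 / (2 * t) := by
      have h3 : t / 2 * X U ^ 2 + 1 / (2 * t) - X U = (t * X U - 1) ^ 2 / (2 * t) := by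
        field_simp
        ring
      have h4 : 0 ≤ (t * X U - 1) ^ 2 / (2 * t) := by positivity
      linarith
    by_cases hBU : U ∈ B
    · have h3 : B.indicator (1 : Cfg d → ℝ) U = 1 := by simp [hBU]
      rw [h3]
      have h4 : 1 / (2 * t) ≤ (1 + G.indicator (1 : Cfg d → ℝ) U) / (2 * t) := by
        gcongr
        linarith
      linarith [hX0 U]
    · by_cases hGU : U ∈ G
      · have h3 : G.indicator (1 : Cfg d → ℝ) U = 1 := by simp [hGU]
        rw [h3]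
        have h4 : 1 / (2 * t) ≤ (B.indicator (1 : Cfg d → ℝ) U + 1) / (2 * t) := by
          gcongr
          linarith
        linarith [hX0 U]
      · have h3 : (ExitsTo (op q U) (↑Λ) (↑S) (↑Γ)).encard ≤ J := by
          have h4 : ¬ (J : ℕ∞) ≤ (ExitsTo (op q U) (↑Λ) (↑S) (↑Γ)).encard := hGU
          exact (not_le.1 h4).le
        have h4 := hXle U hBU h3
        have h5 : X U = ({w : V d | w ∈ S ∧ ∃ g ∈ Γ, Conn (op q U) (↑Λ) w g}.ncard : ℝ) :=
          sum_ind_real S R U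
        rw [← h5] at h4
        have h6 : 0 ≤ (B.indicator (1 : Cfg d → ℝ) U + G.indicator (1 : Cfg d → ℝ) U) /
          (2 * t) := by positivity
        linarith
  have hlow : ∑ w ∈ S, thetaW q (↑D)ᶜ w ≤ ∫ U, X U ∂(P d) := by
    rw [hEX]
    refine Finset.sum_le_sum fun w hw => ?_
    refine measureReal_mono fun U hU => ?_
    have h3 : ∀ v, v ∈ Λ ↔ v ∉ (↑D : Set (V d)) ∧ ‖v‖ ≤ N := hΛ
    have h4 : ∀ v, v ∈ Γ ↔ v ∉ (↑D : Set (V d)) ∧ ‖v‖ = N := hΓ
    exact reach h3 h4 (hSΛ hw) hU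
  have hI2 : Integrable (fun U => (B.indicator (1 : Cfg d → ℝ) U +
      G.indicator (1 : Cfg d → ℝ) U) / (2 * t)) (P d) :=
    ((hi1 B hBm).add (hi1 G hGm)).div_const _
  have hI : Integrable (fun U => t / 2 * X U ^ 2 +
      (B.indicator (1 : Cfg d → ℝ) U + G.indicator (1 : Cfg d → ℝ) U) / (2 * t)) (P d) :=
    (hXXint.const_mul _).add hI2
  have hmain := integral_mono hXint (hXi.add hI) hpt
  have e1 : ∫ U, (Xs U + (t / 2 * X U ^ 2 +
      (B.indicator (1 : Cfg d → ℝ) U + G.indicator (1 : Cfg d → ℝ) U) / (2 * t))) ∂(P d) =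
      ∫ U, Xs U ∂(P d) + (t / 2 * ∫ U, X U ^ 2 ∂(P d) +
        ((P d).real B + (P d).real G) / (2 * t)) := by
    rw [integral_add hXi hI, integral_add (hXXint.const_mul _) hI2, integral_const_mul,
      integral_div, integral_add (hi1 B hBm) (hi1 G hGm), hint B hBm, hint G hGm]
  have hmain' : ∫ U, X U ∂(P d) ≤ ∫ U, Xs U ∂(P d) + (t / 2 * ∫ U, X U ^ 2 ∂(P d) +
        ((P d).real B + (P d).real G) / (2 * t)) := by
    rw [← e1]
    exact hmain
  have h7 : t / 2 * ∫ U, X U ^ 2 ∂(P d) ≤ t / 2 * (S.card * tail d q n * (S.card * tail d q n +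
      (2 * d + 1) * n * (1 + 2 * d * ecap d q n))) :=
    mul_le_mul_of_nonneg_left hEXX (by positivity)
  have h8 : ((P d).real B + (P d).real G) / (2 * t) ≤
      (J * tail d q n + (P d).real G) / (2 * t) := by
    gcongr
  linarith

theorem ecap_le {q C0 δ : ℝ} (hC0 : 0 ≤ C0)
    (ht : ∀ n : ℕ, 1 ≤ n → tail d q n ≤ C0 * (δ + 1 / Real.sqrt n)) (n : ℕ) :
    ecap d q n ≤ C0 * (n * δ + 2 * Real.sqrt n) := by
  unfold ecap
  induction n with
  | zero => simp
  | succ n ih =>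
    rw [Finset.sum_Icc_succ_top (by omega)]
    have h1 := ht (n + 1) (by omega)
    have h2 : 1 / Real.sqrt ((n + 1 : ℕ) : ℝ) ≤
        2 * Real.sqrt ((n + 1 : ℕ) : ℝ) - 2 * Real.sqrt n := by
      have ha : 0 < Real.sqrt ((n + 1 : ℕ) : ℝ) := Real.sqrt_pos.2 (by positivity)
      have hb : 0 ≤ Real.sqrt (n : ℝ) := Real.sqrt_nonneg _
      have ha2 : Real.sqrt ((n + 1 : ℕ) : ℝ) ^ 2 = n + 1 := by
        rw [Real.sq_sqrt (by positivity)]
        push_cast
        ring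
      have hb2 : Real.sqrt (n : ℝ) ^ 2 = n := Real.sq_sqrt (by positivity)
      have hab : Real.sqrt (n : ℝ) ≤ Real.sqrt ((n + 1 : ℕ) : ℝ) :=
        Real.sqrt_le_sqrt (by push_cast; linarith)
      rw [div_le_iff₀ ha]
      nlinarith [sq_nonneg (Real.sqrt ((n + 1 : ℕ) : ℝ) - Real.sqrt (n : ℝ))]
    have h3 : C0 * (1 / Real.sqrt ((n + 1 : ℕ) : ℝ)) ≤
        C0 * (2 * Real.sqrt ((n + 1 : ℕ) : ℝ) - 2 * Real.sqrt n) :=
      mul_le_mul_of_nonneg_left h2 hC0
    push_cast at *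
    nlinarith

end Pool.Agent.helper55.FP.Weak_aux

namespace Pool.Agent.helper55.FP

variable {d : ℕ}

open Weak_aux in
theorem weak_exits {a : ℕ} {pc : ℝ} (h : HD d a pc) : ∃ c > 0, ∃ cJ > 0, ∃ cD > 0, ∃ δ₀ > 0,
    ∀ δ, 0 < δ → δ ≤ δ₀ → ∀ D S : Finset (V d), Disjoint D S → (D.card : ℝ) ≤ cD / δ →
      1 / δ ^ 4 ≤ (S.card : ℝ) →
      c ≤ (P d).real {U : Cfg d | cJ / δ ≤ ((Exits (op (pc + δ) U) (↑D)ᶜ (↑S)).ncard : ℝ)} := by
  obtain ⟨c0, hc0, hth⟩ := h.theta_lb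
  obtain ⟨C0, hC0, htail⟩ := h.tail_ub
  have hpc := h.lt_one
  obtain ⟨K, hK⟩ : ∃ K : ℝ, K = 8 * d * C0 ^ 2 + 10 * d * C0 + 1 := ⟨_, rfl⟩
  obtain ⟨K1, hK1⟩ : ∃ K1 : ℝ, K1 = 2 * C0 * (2 * C0 + 2 * (2 * d + 1) * (1 + 10 * d * C0)) :=
    ⟨_, rfl⟩
  have hKpos : 0 < K := by rw [hK]; positivity
  have hK1pos : 0 < K1 := by rw [hK1]; positivity
  obtain ⟨cJ, hcJ⟩ : ∃ cJ : ℝ, cJ = c0 ^ 2 / (160 * C0 * c0 + 128 * C0 * K1) := ⟨_, rfl⟩
  have hcJpos : 0 < cJ := by rw [hcJ]; positivity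
  have hcJ2 : cJ * (160 * C0 * c0 + 128 * C0 * K1) = c0 ^ 2 := by
    rw [hcJ]
    field_simp
  refine ⟨c0 ^ 2 / (8 * K1), by positivity, cJ, hcJpos, c0 / (4 * K), by positivity,
    min (min 1 (1 - pc)) cJ, lt_min (lt_min one_pos (by linarith)) hcJpos, ?_⟩
  intro δ hδ hδ0 D S hDS hD hS
  have hδ1 : δ ≤ 1 := hδ0.trans ((min_le_left _ _).trans (min_le_left _ _))
  have hδ2 : pc + δ ≤ 1 := by
    have := hδ0.trans ((min_le_left _ _).trans (min_le_right _ _))
    linarith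
  have hδ3 : δ ≤ cJ := hδ0.trans (min_le_right _ _)
  obtain ⟨n, hn⟩ : ∃ n : ℕ, n = ⌈1 / δ ^ 2⌉₊ := ⟨_, rfl⟩
  obtain ⟨J, hJ⟩ : ∃ J : ℕ, J = ⌈cJ / δ⌉₊ := ⟨_, rfl⟩
  have hn1 : 1 / δ ^ 2 ≤ n := by rw [hn]; exact Nat.le_ceil _
  have hn2 : (n : ℝ) ≤ 2 / δ ^ 2 := by
    have h1 : (n : ℝ) < 1 / δ ^ 2 + 1 := by rw [hn]; exact Nat.ceil_lt_add_one (by positivity)
    have h2 : (1 : ℝ) ≤ 1 / δ ^ 2 := by
      rw [le_div_iff₀ (by positivity), one_mul]
      exact pow_le_one₀ hδ.le hδ1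
    have h3 : 2 / δ ^ 2 = 1 / δ ^ 2 + 1 / δ ^ 2 := by ring
    linarith
  have hnpos : 1 ≤ n := by
    rw [hn, Nat.one_le_ceil_iff]
    positivity
  have hJ1 : cJ / δ ≤ J := by rw [hJ]; exact Nat.le_ceil _
  have hJ2 : (J : ℝ) ≤ 2 * cJ / δ := by
    have h1 : (J : ℝ) < cJ / δ + 1 := by rw [hJ]; exact Nat.ceil_lt_add_one (by positivity)
    have h2 : (1 : ℝ) ≤ cJ / δ := by
      rw [le_div_iff₀ hδ]
      linarith
    have h3 : 2 * cJ / δ = cJ / δ + cJ / δ := by ring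
    linarith
  -- bounds on tail and ecap
  have hsq : 1 / δ ≤ Real.sqrt n := by
    apply Real.le_sqrt_of_sq_le
    rw [div_pow, one_pow]
    exact hn1
  have hsq2 : Real.sqrt n ≤ 3 / 2 / δ := by
    rw [Real.sqrt_le_left (by positivity)]
    rw [div_pow]
    refine hn2.trans ?_
    gcongr
    norm_num
  have hsqpos : 0 < Real.sqrt n := lt_of_lt_of_le (by positivity) hsq
  have hpi : tail d (pc + δ) n ≤ 2 * C0 * δ := by
    have h1 := htail δ hδ.le hδ2 n hnpos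
    have h2 : 1 / Real.sqrt n ≤ δ := by
      rw [div_le_iff₀ hsqpos]
      rw [div_le_iff₀ hδ] at hsq
      linarith
    calc tail d (pc + δ) n ≤ C0 * (δ + 1 / Real.sqrt n) := h1
      _ ≤ C0 * (δ + δ) := by gcongr
      _ = 2 * C0 * δ := by ring
  have hec : ecap d (pc + δ) n ≤ 5 * C0 / δ := by
    have h1 := ecap_le hC0.le (fun m hm => htail δ hδ.le hδ2 m hm) n (d := d)
    have h2 : (n : ℝ) * δ ≤ 2 / δ := by
      calc (n : ℝ) * δ ≤ 2 / δ ^ 2 * δ := mul_le_mul_of_nonneg_right hn2 hδ.le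
        _ = 2 / δ := by field_simp
    have h3 : (n : ℝ) * δ + 2 * Real.sqrt n ≤ 5 / δ := by
      have h4 : 5 / δ = 2 / δ + 2 * (3 / 2 / δ) := by ring
      linarith
    calc ecap d (pc + δ) n ≤ C0 * (n * δ + 2 * Real.sqrt n) := h1
      _ ≤ C0 * (5 / δ) := mul_le_mul_of_nonneg_left h3 hC0.le
      _ = 5 * C0 / δ := by ring
  have hec0 : 0 ≤ ecap d (pc + δ) n := Finset.sum_nonneg fun _ _ => tail_nonneg' _ _
  have hpi0 : 0 ≤ tail d (pc + δ) n := tail_nonneg' _ _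
  have hth0 : c0 * δ ≤ theta d (pc + δ) := hth δ hδ hδ2
  have hthpi : theta d (pc + δ) ≤ 2 * C0 * δ := (theta_le_tail _ n).trans hpi
  obtain ⟨s, hs⟩ : ∃ s : ℝ, s = S.card := ⟨_, rfl⟩
  rw [← hs] at hS
  have hspos : 0 < s := lt_of_lt_of_le (by positivity) hS
  obtain ⟨x, hx⟩ : ∃ x : ℝ, x = s * δ := ⟨_, rfl⟩
  have hxpos : 0 < x := by rw [hx]; positivity
  have hx3 : 1 / δ ^ 3 ≤ x := by
    rw [hx]
    calc 1 / δ ^ 3 = 1 / δ ^ 4 * δ := by field_simp
      _ ≤ s * δ := mul_le_mul_of_nonneg_right hS hδ.le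
  have hx2 : 1 / δ ^ 2 ≤ x := by
    refine le_trans ?_ hx3
    exact one_div_le_one_div_of_le (by positivity) (pow_le_pow_of_le_one hδ.le hδ1 (by norm_num))
  -- lower bound on the sum of the percolation probabilities
  have hA1 : 3 / 4 * c0 * x ≤ ∑ w ∈ S, thetaW (pc + δ) (↑D)ᶜ w := by
    have h1 := theta_sum (pc + δ) D S hDS n
    rw [← hs] at h1
    have h2 : s * (tail d (pc + δ) n * (2 * d * D.card * theta d (pc + δ))) ≤
        s * (2 * C0 * δ * (2 * d * (c0 / (4 * K) / δ) * (2 * C0 * δ))) := by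
      have h20 := theta_nonneg' (d := d) (pc + δ)
      gcongr
    have h3 : s * (2 * C0 * δ * (2 * d * (c0 / (4 * K) / δ) * (2 * C0 * δ))) =
        8 * d * C0 ^ 2 * (c0 / (4 * K)) * x := by
      rw [hx]
      field_simp
      ring
    have h4 : 2 * d * D.card * ecap d (pc + δ) n ≤
        2 * d * (c0 / (4 * K) / δ) * (5 * C0 / δ) := by
      gcongr
    have h5 : 2 * d * (c0 / (4 * K) / δ) * (5 * C0 / δ) =
        10 * d * C0 * (c0 / (4 * K)) * (1 / δ ^ 2) := by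
      field_simp
      ring
    have h6 : 10 * d * C0 * (c0 / (4 * K)) * (1 / δ ^ 2) ≤ 10 * d * C0 * (c0 / (4 * K)) * x :=
      mul_le_mul_of_nonneg_left hx2 (by positivity)
    have h7 : 8 * d * C0 ^ 2 * (c0 / (4 * K)) * x + 10 * d * C0 * (c0 / (4 * K)) * x ≤
        c0 / 4 * x := by
      have h8 : c0 / 4 = K * (c0 / (4 * K)) := by field_simp
      rw [h8, ← add_mul]
      apply mul_le_mul_of_nonneg_right _ hxpos.le
      rw [← add_mul]
      apply mul_le_mul_of_nonneg_right _ (by positivity)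
      rw [hK]
      linarith
    have h8 : c0 * x ≤ s * theta d (pc + δ) := by
      rw [hx]
      calc c0 * (s * δ) = s * (c0 * δ) := by ring
        _ ≤ s * theta d (pc + δ) := mul_le_mul_of_nonneg_left hth0 hspos.le
    linarith
  have hA2 : (J : ℝ) * ecap d (pc + δ) n ≤ 10 * C0 * cJ * x := by
    calc (J : ℝ) * ecap d (pc + δ) n ≤ (2 * cJ / δ) * (5 * C0 / δ) := by gcongr
      _ = 10 * C0 * cJ * (1 / δ ^ 2) := by field_simp; ring
      _ ≤ 10 * C0 * cJ * x := mul_le_mul_of_nonneg_left hx2 (by positivity)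
  have hA3 : s * tail d (pc + δ) n * (s * tail d (pc + δ) n +
        (2 * d + 1) * n * (1 + 2 * d * ecap d (pc + δ) n)) ≤ x ^ 2 * K1 := by
    have h1 : s * tail d (pc + δ) n ≤ 2 * C0 * x := by
      rw [hx]
      calc s * tail d (pc + δ) n ≤ s * (2 * C0 * δ) := mul_le_mul_of_nonneg_left hpi hspos.le
        _ = 2 * C0 * (s * δ) := by ring
    have h2 : (2 * d + 1) * n * (1 + 2 * d * ecap d (pc + δ) n) ≤
        2 * (2 * d + 1) * (1 + 10 * d * C0) * x := by
      have h3 : 1 + 2 * d * ecap d (pc + δ) n ≤ (1 + 10 * d * C0) / δ := by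
        have h4 : 1 + 2 * d * ecap d (pc + δ) n ≤ 1 + 2 * d * (5 * C0 / δ) := by gcongr
        have h5 : (1 + 10 * d * C0) / δ = 1 / δ + 2 * d * (5 * C0 / δ) := by
          field_simp
          ring
        have h6 : (1 : ℝ) ≤ 1 / δ := by
          rw [le_div_iff₀ hδ]
          linarith
        linarith
      calc (2 * d + 1) * n * (1 + 2 * d * ecap d (pc + δ) n) ≤
          (2 * d + 1) * (2 / δ ^ 2) * ((1 + 10 * d * C0) / δ) := by gcongr
        _ = 2 * (2 * d + 1) * (1 + 10 * d * C0) * (1 / δ ^ 3) := by field_simp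
        _ ≤ _ := mul_le_mul_of_nonneg_left hx3 (by positivity)
    calc s * tail d (pc + δ) n * (s * tail d (pc + δ) n +
        (2 * d + 1) * n * (1 + 2 * d * ecap d (pc + δ) n)) ≤
        (2 * C0 * x) * (2 * C0 * x + 2 * (2 * d + 1) * (1 + 10 * d * C0) * x) := by
          gcongr
      _ = x ^ 2 * K1 := by rw [hK1]; ring
  have hA4 : (J : ℝ) * tail d (pc + δ) n ≤ 4 * cJ * C0 := by
    calc (J : ℝ) * tail d (pc + δ) n ≤ (2 * cJ / δ) * (2 * C0 * δ) := by gcongr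
      _ = 4 * cJ * C0 := by field_simp; ring
  -- infinite volume limit
  have hlim : c0 ^ 2 / (8 * K1) ≤ (P d).real {U : Cfg d |
      (J : ℕ∞) ≤ (Exits (op (pc + δ) U) (↑D)ᶜ (↑S)).encard} := by
    apply exits_limit (pc + δ) D S hDS
    obtain ⟨N0, hN0⟩ := exists_nat_ge (∑ w ∈ S, ‖w‖ + n)
    refine ⟨N0, fun N hN Λ Γ hΛ hΓ => ?_⟩
    have hSN : ∀ w ∈ S, ‖w‖ + n ≤ N := by
      intro w hw
      have h1 : ‖w‖ ≤ ∑ w ∈ S, ‖w‖ :=
        Finset.single_le_sum (f := fun w : V d => ‖w‖) (fun _ _ => norm_nonneg _) hw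
      have h2 : (N0 : ℝ) ≤ N := by exact_mod_cast hN
      linarith
    obtain ⟨t, ht⟩ : ∃ t : ℝ, t = c0 / (4 * K1) / x := ⟨_, rfl⟩
    have htpos : 0 < t := by rw [ht]; positivity
    have hmain := main_est (pc + δ) D S Λ Γ N n J hnpos hDS hΛ hΓ hSN t htpos
    rw [← hs] at hmain
    obtain ⟨PG, hPG⟩ : ∃ PG : ℝ, PG = (P d).real {U : Cfg d | (J : ℕ∞) ≤
        (ExitsTo (op (pc + δ) U) (↑Λ) (↑S) (↑Γ)).encard} := ⟨_, rfl⟩
    rw [← hPG] at hmain ⊢
    have h1 : t / 2 * (s * tail d (pc + δ) n * (s * tail d (pc + δ) n +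
        (2 * d + 1) * n * (1 + 2 * d * ecap d (pc + δ) n))) ≤ c0 / 8 * x := by
      calc t / 2 * (s * tail d (pc + δ) n * (s * tail d (pc + δ) n +
        (2 * d + 1) * n * (1 + 2 * d * ecap d (pc + δ) n))) ≤ t / 2 * (x ^ 2 * K1) :=
          mul_le_mul_of_nonneg_left hA3 (by positivity)
        _ = c0 / 8 * x := by
          rw [ht]
          field_simp
          ring
    have h2 : (J * tail d (pc + δ) n + PG) / (2 * t) ≤ (4 * cJ * C0 + PG) * (2 * K1 / c0) * x := by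
      have h3 : (4 * cJ * C0 + PG) * (2 * K1 / c0) * x = (4 * cJ * C0 + PG) / (2 * t) := by
        rw [ht]
        field_simp
        ring
      rw [h3]
      gcongr
    have h3 : 3 / 4 * c0 * x ≤ (10 * C0 * cJ + c0 / 8 + (4 * cJ * C0 + PG) * (2 * K1 / c0)) * x := by
      linarith
    have h4 := le_of_mul_le_mul_right h3 hxpos
    have h5 : c0 * (3 / 4 * c0) ≤ c0 * (10 * C0 * cJ + c0 / 8) + (4 * cJ * C0 + PG) * (2 * K1) := by
      have h6 := mul_le_mul_of_nonneg_left h4 hc0.le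
      have h7 : c0 * (10 * C0 * cJ + c0 / 8 + (4 * cJ * C0 + PG) * (2 * K1 / c0)) =
          c0 * (10 * C0 * cJ + c0 / 8) + (4 * cJ * C0 + PG) * (2 * K1) := by
        field_simp
      rwa [h7] at h6
    rw [div_le_iff₀ (by positivity)]
    linarith [h5, hcJ2, sq_nonneg c0]
  refine hlim.trans (measureReal_mono ?_)
  intro U hU
  have hfin : (Exits (op (pc + δ) U) (↑D)ᶜ (↑S)).Finite := exits_finite _ _ S
  change cJ / δ ≤ ((Exits (op (pc + δ) U) (↑D)ᶜ (↑S)).ncard : ℝ)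
  have h1 : (J : ℕ∞) ≤ (Exits (op (pc + δ) U) (↑D)ᶜ (↑S)).encard := hU
  rw [← hfin.cast_ncard_eq] at h1
  have h2 : J ≤ (Exits (op (pc + δ) U) (↑D)ᶜ (↑S)).ncard := by exact_mod_cast h1
  exact hJ1.trans (by exact_mod_cast h2)

end Pool.Agent.helper55.FP
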