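import Pool.Agent.helper55.FP.NDefs
import Pool.Agent.helper55.FP.Conn
import Pool.Agent.helper55.FP.Meas
import Pool.Agent.helper55.FP.Indep
import Pool.Agent.helper55.FP.Resample
import Pool.Agent.helper55.FP.Weak
import Pool.Agent.helper55.FP.ExitLim

/-! Module Trunc (helper36): the growth of the percolation probability dominates the mass of the
large finite clusters. -/

set_option autoImplicit false

open MeasureTheory Set Filter Topology
open scoped ENNReal

namespace Pool.Agent.helper55.FP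

variable {d : ℕ}

namespace Trunc_aux

/-- summation over a countable family of disjoint events -/
theorem sum_le {ι : Type} [Countable ι] {A B : ι → Set (Cfg d)} {A₀ B₀ : Set (Cfg d)} {c : ℝ}
    (hc : 0 ≤ c) (hB : ∀ i, MeasurableSet (B i)) (hdis : Pairwise (Function.onFun Disjoint B))
    (hA₀ : A₀ ⊆ ⋃ i, A i) (hB₀ : ∀ i, B i ⊆ B₀)
    (h : ∀ i, c * (P d).real (A i) ≤ (P d).real (B i)) :
    c * (P d).real A₀ ≤ (P d).real B₀ := by
  have h1 : ∀ i, ENNReal.ofReal c * (P d) (A i) ≤ (P d) (B i) := by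
    intro i
    rw [← ofReal_measureReal (μ := P d) (s := A i), ← ofReal_measureReal (μ := P d) (s := B i),
      ← ENNReal.ofReal_mul hc]
    exact ENNReal.ofReal_le_ofReal (h i)
  have h2 : ENNReal.ofReal c * (P d) A₀ ≤ (P d) B₀ := by
    calc ENNReal.ofReal c * (P d) A₀ ≤ ENNReal.ofReal c * ∑' i, (P d) (A i) := by
          gcongr
          exact (measure_mono hA₀).trans (measure_iUnion_le _)
      _ = ∑' i, ENNReal.ofReal c * (P d) (A i) := ENNReal.tsum_mul_left.symm
      _ ≤ ∑' i, (P d) (B i) := ENNReal.tsum_le_tsum h1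
      _ = (P d) (⋃ i, B i) := (measure_iUnion hdis hB).symm
      _ ≤ (P d) B₀ := measure_mono (iUnion_subset hB₀)
  have h3 := ENNReal.toReal_mono (measure_ne_top _ _) h2
  rw [ENNReal.toReal_mul, ENNReal.toReal_ofReal hc] at h3
  exact h3

theorem prob_gt (e : E d) {s : ℝ} (h0 : 0 ≤ s) (h1 : s ≤ 1) :
    (P d).real {U : Cfg d | s < U e} = 1 - s := by
  have hm : MeasurableSet {U : Cfg d | s < U e ∧ U e ≤ 1} :=
    (measurableSet_lt measurable_const (measurable_pi_apply e)).inter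
      (measurableSet_le (measurable_pi_apply e) measurable_const)
  have hm0 : MeasurableSet {U : Cfg d | 0 < U e ∧ U e ≤ 1} :=
    (measurableSet_lt measurable_const (measurable_pi_apply e)).inter
      (measurableSet_le (measurable_pi_apply e) measurable_const)
  have h2 : (P d).real {U : Cfg d | 0 < U e ∧ U e ≤ 1}ᶜ = 0 := by
    rw [probReal_compl_eq_one_sub hm0, prob_level e le_rfl zero_le_one le_rfl]
    norm_num
  have h3 : (P d).real {U : Cfg d | s < U e} ≤
      (P d).real ({U : Cfg d | s < U e ∧ U e ≤ 1} ∪ {U : Cfg d | 0 < U e ∧ U e ≤ 1}ᶜ) := by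
    apply measureReal_mono _ (measure_ne_top _ _)
    intro U hU
    by_cases h : U e ≤ 1
    · exact Or.inl ⟨hU, h⟩
    · exact Or.inr (fun h' => h h'.2)
  have h4 := measureReal_union_le (μ := P d) {U : Cfg d | s < U e ∧ U e ≤ 1}
    {U : Cfg d | 0 < U e ∧ U e ≤ 1}ᶜ
  have h5 : (P d).real {U : Cfg d | s < U e ∧ U e ≤ 1} ≤ (P d).real {U : Cfg d | s < U e} :=
    measureReal_mono (fun U hU => hU.1) (measure_ne_top _ _)
  rw [prob_level e h0 h1 le_rfl] at h4 h5
  linarith

theorem meas_gt (K : Finset (E d)) (s : ℝ) : MeasurableSet {U : Cfg d | ∀ e ∈ K, s < U e} := by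
  have : {U : Cfg d | ∀ e ∈ K, s < U e} = ⋂ e ∈ K, {U : Cfg d | s < U e} := by
    ext U; simp
  rw [this]
  exact Finset.measurableSet_biInter K fun e _ =>
    measurableSet_lt measurable_const (measurable_pi_apply e)

theorem dep_gt (K : Finset (E d)) (s : ℝ) :
    DependsOn (fun U : Cfg d => U ∈ {U : Cfg d | ∀ e ∈ K, s < U e}) (↑K : Set (E d)) := by
  intro U U' h
  apply propext
  constructor
  · intro hU e he
    rw [← h e he]; exact hU e he
  · intro hU e he
    rw [h e he]; exact hU e he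

theorem prob_gt_pow (K : Finset (E d)) {s : ℝ} (h0 : 0 ≤ s) (h1 : s ≤ 1) :
    (P d).real {U : Cfg d | ∀ e ∈ K, s < U e} = (1 - s) ^ K.card := by
  classical
  induction K using Finset.induction_on with
  | empty => simp
  | insert e K he ih =>
    have e1 : {U : Cfg d | ∀ e' ∈ insert e K, s < U e'} =
        {U : Cfg d | ∀ e' ∈ ({e} : Finset (E d)), s < U e'} ∩ {U : Cfg d | ∀ e' ∈ K, s < U e'} := by
      ext U
      simp
    rw [e1, prob_inter (meas_gt _ s) (meas_gt K s) (dep_gt _ s) (dep_gt K s), ih,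
      Finset.card_insert_of_notMem he, pow_succ, mul_comm]
    · congr 1
      have : {U : Cfg d | ∀ e' ∈ ({e} : Finset (E d)), s < U e'} = {U : Cfg d | s < U e} := by
        ext U; simp
      rw [this, prob_gt e h0 h1]
    · rw [Finset.disjoint_coe]
      simpa using he

/-- if `A` depends on the edges off `K` then closing the gap between the levels `p` and `p + ε` on
`K` costs a factor `(1 - ε)^{|K|}` -/
theorem gap {A : Set (Cfg d)} (K : Finset (E d)) (hA : MeasurableSet A)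
    (hAK : DependsOn (fun U => U ∈ A) (↑K : Set (E d))ᶜ) {p ε : ℝ} (hp : 0 ≤ p) (hε : 0 ≤ ε)
    (h1 : p + ε ≤ 1) :
    (1 - (1 - ε) ^ K.card) * (P d).real (A ∩ {U : Cfg d | ∀ e ∈ K, p < U e}) ≤
      (P d).real (A ∩ {U : Cfg d | ∀ e ∈ K, p < U e} ∩ {U : Cfg d | ∃ e ∈ K, U e ≤ p + ε}) := by
  have hd : Disjoint ((↑K : Set (E d))ᶜ) (↑K : Set (E d)) := disjoint_compl_left
  have e1 := prob_inter hA (meas_gt K p) hAK (dep_gt K p) hd
  have e2 := prob_inter hA (meas_gt K (p + ε)) hAK (dep_gt K (p + ε)) hd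
  rw [prob_gt_pow K hp (by linarith)] at e1
  rw [prob_gt_pow K (by linarith) h1] at e2
  have e3 : (P d).real (A ∩ {U : Cfg d | ∀ e ∈ K, p < U e}) ≤
      (P d).real (A ∩ {U : Cfg d | ∀ e ∈ K, p < U e} ∩ {U : Cfg d | ∃ e ∈ K, U e ≤ p + ε}) +
      (P d).real (A ∩ {U : Cfg d | ∀ e ∈ K, p + ε < U e}) := by
    refine (measureReal_mono ?_ (measure_ne_top _ _)).trans (measureReal_union_le _ _)
    rintro U ⟨hU, hU'⟩
    by_cases h : ∃ e ∈ K, U e ≤ p + ε
    · exact Or.inl ⟨⟨hU, hU'⟩, h⟩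
    · push Not at h
      exact Or.inr ⟨hU, h⟩
  rw [e2] at e3
  have e4 : (1 - (p + ε)) ^ K.card ≤ (1 - ε) ^ K.card * (1 - p) ^ K.card := by
    rw [← mul_pow]
    apply pow_le_pow_left₀ (by linarith)
    nlinarith
  have e5 : (P d).real A * (1 - (p + ε)) ^ K.card ≤
      (1 - ε) ^ K.card * (P d).real (A ∩ {U : Cfg d | ∀ e ∈ K, p < U e}) := by
    rw [e1]
    have := mul_le_mul_of_nonneg_left e4 (measureReal_nonneg (μ := P d) (s := A))
    linarith
  linarith

/-- the configuration closed on `K` -/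
noncomputable def cl2 (K : Finset (E d)) (U : Cfg d) : Cfg d := by
  classical exact fun e => if e ∈ K then 2 else U e

theorem meas_cl2 (K : Finset (E d)) : Measurable (cl2 K) := by
  classical
  rw [measurable_pi_iff]
  intro e
  unfold cl2
  by_cases h : e ∈ K
  · simp only [h, if_true]; exact measurable_const
  · simp only [h, if_false]; exact measurable_pi_apply e

theorem op_cl2 {K : Finset (E d)} {p : ℝ} (hp : p ≤ 1) {U : Cfg d} (h : ∀ e ∈ K, p < U e) :
    op p (cl2 K U) = op p U := by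
  classical
  ext e
  show cl2 K U e ≤ p ↔ U e ≤ p
  unfold cl2
  by_cases he : e ∈ K
  · simp only [he, if_true]
    constructor
    · intro h'; linarith
    · intro h'; have := h e he; linarith
  · simp only [he, if_false]

/-- edges leading from `F` to an infinite cluster off `F` -/
def xe (O : Set (E d)) (W F : Set (V d)) : Set (E d) :=
  {e | ∃ a ∈ F, ∃ b ∈ W \ F, Joins e a b ∧ (Cl O (W \ F) b).Infinite}

theorem xe_finite (O : Set (E d)) (W : Set (V d)) (F : Finset (V d)) : (xe O W ↑F).Finite := by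
  have h : (⋃ a ∈ F, ⋃ b ∈ {b : V d | Adj a b}, {e : E d | Joins e a b}).Finite := by
    refine Set.Finite.biUnion F.finite_toSet fun a _ => Set.Finite.biUnion (adj_finite a)
      fun b _ => ?_
    refine Set.Subsingleton.finite ?_
    intro e he e' he'
    exact Joins.unique he he'
  refine h.subset ?_
  rintro e ⟨a, ha, b, hb, hj, -⟩
  simp only [mem_iUnion]
  exact ⟨a, ha, b, ⟨e, hj⟩, hj⟩

theorem exits_le (O : Set (E d)) (W : Set (V d)) (F : Finset (V d)) :
    (Exits O W ↑F).ncard ≤ (xe O W ↑F).ncard := by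
  classical
  rcases isEmpty_or_nonempty (E d) with hE | hE
  · have : Exits O W (↑F : Set (V d)) = ∅ := by
      ext x
      simp only [mem_empty_iff_false, iff_false]
      rintro ⟨-, -, ⟨e, -⟩, -⟩
      exact hE.false e
    rw [this, ncard_empty]
    exact Nat.zero_le _
  have hch : ∀ x : V d × V d, ∃ e : E d, Adj x.1 x.2 → Joins e x.1 x.2 := by
    intro x
    by_cases h : Adj x.1 x.2
    · obtain ⟨e, he⟩ := h
      exact ⟨e, fun _ => he⟩
    · exact ⟨hE.some, fun h' => absurd h' h⟩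
  choose f hf using hch
  refine Set.ncard_le_ncard_of_injOn f ?_ ?_ (xe_finite O W F)
  · rintro x ⟨h1, h2, h3, h4⟩
    exact ⟨x.1, h1, x.2, h2, hf x h3, h4⟩
  · rintro x ⟨h1, h2, h3, h4⟩ y ⟨k1, k2, k3, k4⟩ hxy
    have j1 := hf x h3
    have j2 := hf y k3
    rw [← hxy] at j2
    rcases j1 with ⟨a1, a2⟩ | ⟨a1, a2⟩ <;> rcases j2 with ⟨b1, b2⟩ | ⟨b1, b2⟩
    · exact Prod.ext (a1.trans b1.symm) (a2.trans b2.symm)
    · exfalso
      apply k2.2
      rw [b1, ← a1]; exact h1
    · exfalso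
      apply k2.2
      rw [b2, ← a2]; exact h1
    · exact Prod.ext (a2.trans b2.symm) (a1.trans b1.symm)

theorem xe_touch (O : Set (E d)) (W F : Set (V d)) : xe O W F ⊆ touch F := by
  rintro e ⟨a, ha, b, hb, hj | hj, -⟩
  · left; rw [← hj.1]; exact ha
  · right; rw [← hj.2]; exact ha

theorem meas_xe (p : ℝ) (W F : Set (V d)) (K : Set (E d)) :
    MeasurableSet {U : Cfg d | xe (op p U) W F = K} := by
  classical
  have h1 : ∀ e : E d, MeasurableSet {U : Cfg d | e ∈ xe (op p U) W F} := by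
    intro e
    have : {U : Cfg d | e ∈ xe (op p U) W F} = ⋃ a ∈ F, ⋃ b ∈ W \ F, ⋃ _ : Joins e a b,
        {U : Cfg d | (Cl (op p U) (W \ F) b).Infinite} := by
      ext U
      simp only [xe, mem_ofPred_eq, mem_iUnion, exists_prop]
    rw [this]
    exact MeasurableSet.biUnion (to_countable _) fun a _ =>
      MeasurableSet.biUnion (to_countable _) fun b _ =>
      MeasurableSet.iUnion fun _ => measurableSet_inf p _ b
  have h : {U : Cfg d | xe (op p U) W F = K} =
      ⋂ e : E d, {U : Cfg d | e ∈ xe (op p U) W F ↔ e ∈ K} := by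
    ext U
    simp only [mem_ofPred_eq, mem_iInter]
    exact Set.ext_iff
  rw [h]
  refine MeasurableSet.iInter fun e => ?_
  by_cases he : e ∈ K
  · have : {U : Cfg d | e ∈ xe (op p U) W F ↔ e ∈ K} = {U : Cfg d | e ∈ xe (op p U) W F} := by
      ext U; simp [he]
    rw [this]
    exact h1 e
  · have : {U : Cfg d | e ∈ xe (op p U) W F ↔ e ∈ K} = {U : Cfg d | e ∈ xe (op p U) W F}ᶜ := by
      ext U; simp [he]
    rw [this]
    exact (h1 e).compl

theorem dep_xe (p : ℝ) (W F : Set (V d)) :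
    DependsOn (fun U : Cfg d => xe (op p U) W F) (touch F)ᶜ := by
  intro U U' h
  have h2 : ∀ b, Cl (op p U) (W \ F) b = Cl (op p U') (W \ F) b := by
    intro b
    apply dependsOn_cl p (W \ F) b
    intro e he
    apply h
    rintro (h3 | h3)
    · exact he.1.2 h3
    · exact he.2.2 h3
  ext e
  simp only [xe, mem_ofPred_eq, h2]

/-- one value of the set of exit edges -/
theorem step_K {D : Set (V d)} {v : V d} (hv : v ∉ D) (F : Set (V d)) (K : Finset (E d)) {p ε κ : ℝ}
    (hp : 0 ≤ p) (hε : 0 ≤ ε) (h1 : p + ε ≤ 1) (hK : κ ≤ ε * K.card) :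
    (1 - Real.exp (-κ)) * (P d).real ({U : Cfg d | Cl (op p U) Dᶜ v = F} ∩
        {U : Cfg d | xe (op p U) Dᶜ F = ↑K}) ≤
      (P d).real ({U : Cfg d | Cl (op p U) Dᶜ v = F} ∩ {U : Cfg d | xe (op p U) Dᶜ F = ↑K} ∩
        {U : Cfg d | ∃ e ∈ K, U e ≤ p + ε}) := by
  by_cases hKF : (↑K : Set (E d)) ⊆ touch F
  · have hp1 : p ≤ 1 := by linarith
    set A : Set (Cfg d) := (cl2 K) ⁻¹' {U : Cfg d | Cl (op p U) Dᶜ v = F} ∩
      {U : Cfg d | xe (op p U) Dᶜ F = ↑K} with hAdef
    have hA : MeasurableSet A :=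
      (meas_cl2 K (measurableSet_cl_eq p _ _ _)).inter (meas_xe p _ _ _)
    have hAK : DependsOn (fun U => U ∈ A) (↑K : Set (E d))ᶜ := by
      intro U U' h
      have e1 : cl2 K U = cl2 K U' := by
        classical
        funext e
        unfold cl2
        by_cases he : e ∈ K
        · simp [he]
        · simp only [he, if_false]
          exact h e he
      have e2 : xe (op p U) Dᶜ F = xe (op p U') Dᶜ F := by
        apply dep_xe p Dᶜ F
        intro e he
        exact h e (fun h' => he (hKF h'))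
      show (Cl (op p (cl2 K U)) Dᶜ v = F ∧ xe (op p U) Dᶜ F = ↑K) =
        (Cl (op p (cl2 K U')) Dᶜ v = F ∧ xe (op p U') Dᶜ F = ↑K)
      rw [e1, e2]
    have hAe : {U : Cfg d | Cl (op p U) Dᶜ v = F} ∩ {U : Cfg d | xe (op p U) Dᶜ F = ↑K} =
        A ∩ {U : Cfg d | ∀ e ∈ K, p < U e} := by
      ext U
      constructor
      · rintro ⟨hU1, hU2⟩
        have hgt : ∀ e ∈ K, p < U e := by
          intro e he
          by_contra hle
          push Not at hle
          have he' : e ∈ xe (op p U) Dᶜ F := by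
            rw [show xe (op p U) Dᶜ F = ↑K from hU2]; exact he
          obtain ⟨a, ha, b, hb, hj, -⟩ := he'
          apply hb.2
          have ha' : Conn (op p U) Dᶜ v a := by
            rw [← show Cl (op p U) Dᶜ v = F from hU1] at ha; exact ha
          rw [← show Cl (op p U) Dᶜ v = F from hU1]
          exact ha'.snoc ⟨ha'.right, hb.1, e, hle, hj⟩
        refine ⟨⟨?_, hU2⟩, hgt⟩
        show Cl (op p (cl2 K U)) Dᶜ v = F
        rw [op_cl2 hp1 hgt]
        exact hU1
      · rintro ⟨⟨hU1, hU2⟩, hgt⟩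
        refine ⟨?_, hU2⟩
        have : Cl (op p (cl2 K U)) Dᶜ v = F := hU1
        rw [op_cl2 hp1 hgt] at this
        exact this
    rw [hAe]
    refine le_trans ?_ (gap K hA hAK hp hε h1)
    apply mul_le_mul_of_nonneg_right _ measureReal_nonneg
    have e3 : (1 - ε) ^ K.card ≤ Real.exp (-κ) := by
      have hε1 : 0 ≤ 1 - ε := by linarith
      calc (1 - ε) ^ K.card ≤ (Real.exp (-ε)) ^ K.card := by
            apply pow_le_pow_left₀ hε1
            have := Real.add_one_le_exp (-ε)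
            linarith
        _ = Real.exp (-(ε * K.card)) := by
            rw [← Real.exp_nat_mul]
            congr 1
            ring
        _ ≤ Real.exp (-κ) := Real.exp_le_exp.2 (by linarith)
    linarith
  · have he : {U : Cfg d | xe (op p U) Dᶜ F = ↑K} = ∅ := by
      ext U
      simp only [mem_ofPred_eq, mem_empty_iff_false, iff_false]
      intro h
      apply hKF
      rw [← h]
      exact xe_touch _ _ _
    rw [he]
    simp

/-- one value of the cluster -/
theorem step_F {D : Set (V d)} {v : V d} (hv : v ∉ D) (F : Finset (V d)) {p ε κ c : ℝ}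
    (hp : 0 ≤ p) (hε : 0 < ε) (h1 : p + ε ≤ 1) (hκ : 0 ≤ κ)
    (hc : c ≤ (P d).real {U : Cfg d | κ / ε ≤ ((xe (op p U) Dᶜ ↑F).ncard : ℝ)}) :
    (1 - Real.exp (-κ)) * c * (P d).real {U : Cfg d | Cl (op p U) Dᶜ v = ↑F} ≤
      (P d).real ({U : Cfg d | Cl (op p U) Dᶜ v = ↑F} ∩
        {U : Cfg d | (Cl (op (p + ε) U) Dᶜ v).Infinite}) := by
  have hexp : 0 ≤ 1 - Real.exp (-κ) := by
    have := Real.exp_le_one_iff.2 (show -κ ≤ 0 by linarith)
    linarith
  set G : Set (Cfg d) := {U : Cfg d | κ / ε ≤ ((xe (op p U) Dᶜ ↑F).ncard : ℝ)} with hG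
  have hGm : MeasurableSet G := by
    have : G = ⋃ K ∈ {K : Finset (E d) | κ / ε ≤ (K.card : ℝ)},
        {U : Cfg d | xe (op p U) Dᶜ ↑F = ↑K} := by
      ext U
      simp only [hG, mem_ofPred_eq, mem_iUnion, exists_prop]
      constructor
      · intro h
        refine ⟨(xe_finite (op p U) Dᶜ F).toFinset, ?_, by simp⟩
        rw [Set.ncard_eq_toFinset_card _ (xe_finite (op p U) Dᶜ F)] at h
        exact h
      · rintro ⟨K, h2, h3⟩
        rw [h3, Set.ncard_coe_finset]
        exact h2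
    rw [this]
    exact MeasurableSet.biUnion (to_countable _) fun K _ => meas_xe p _ _ _
  have hind : (P d).real ({U : Cfg d | Cl (op p U) Dᶜ v = ↑F} ∩ G) =
      (P d).real {U : Cfg d | Cl (op p U) Dᶜ v = ↑F} * (P d).real G := by
    refine prob_inter (measurableSet_cl_eq p _ _ _) hGm (dependsOn_cl_eq p Dᶜ ↑F v hv)
      (T := (touch (↑F : Set (V d)))ᶜ) ?_ ?_
    · intro U U' h
      have := dep_xe p Dᶜ (↑F : Set (V d)) h
      show (κ / ε ≤ _) = (κ / ε ≤ _)
      rw [show xe (op p U) Dᶜ (↑F : Set (V d)) = xe (op p U') Dᶜ (↑F : Set (V d)) from this]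
    · exact Disjoint.mono_left inter_subset_right disjoint_compl_right
  have hsum : (1 - Real.exp (-κ)) * (P d).real ({U : Cfg d | Cl (op p U) Dᶜ v = ↑F} ∩ G) ≤
      (P d).real ({U : Cfg d | Cl (op p U) Dᶜ v = ↑F} ∩
        {U : Cfg d | (Cl (op (p + ε) U) Dᶜ v).Infinite}) := by
    refine sum_le (ι := {K : Finset (E d) // κ / ε ≤ (K.card : ℝ)})
      (A := fun K => {U : Cfg d | Cl (op p U) Dᶜ v = ↑F} ∩
        {U : Cfg d | xe (op p U) Dᶜ ↑F = ↑K.1})
      (B := fun K => {U : Cfg d | Cl (op p U) Dᶜ v = ↑F} ∩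
        {U : Cfg d | xe (op p U) Dᶜ ↑F = ↑K.1} ∩ {U : Cfg d | ∃ e ∈ K.1, U e ≤ p + ε})
      hexp ?_ ?_ ?_ ?_ ?_
    · intro K
      refine ((measurableSet_cl_eq p _ _ _).inter (meas_xe p _ _ _)).inter ?_
      have : {U : Cfg d | ∃ e ∈ K.1, U e ≤ p + ε} = ⋃ e ∈ K.1, {U : Cfg d | U e ≤ p + ε} := by
        ext U; simp
      rw [this]
      exact Finset.measurableSet_biUnion _ fun e _ =>
        measurableSet_le (measurable_pi_apply e) measurable_const
    · intro K K' hne
      rw [Function.onFun, Set.disjoint_left]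
      rintro U ⟨⟨-, h2⟩, -⟩ ⟨⟨-, h3⟩, -⟩
      apply hne
      apply Subtype.ext
      have h4 : (↑K.1 : Set (E d)) = ↑K'.1 := by
        rw [← show xe (op p U) Dᶜ (↑F : Set (V d)) = ↑K.1 from h2]
        exact h3
      exact_mod_cast h4
    · rintro U ⟨hU1, hU2⟩
      rw [mem_iUnion]
      have hfin := xe_finite (op p U) Dᶜ F
      refine ⟨⟨hfin.toFinset, ?_⟩, hU1, ?_⟩
      · have : κ / ε ≤ ((xe (op p U) Dᶜ ↑F).ncard : ℝ) := hU2
        rw [Set.ncard_eq_toFinset_card _ hfin] at this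
        exact this
      · show xe (op p U) Dᶜ ↑F = ↑hfin.toFinset
        rw [hfin.coe_toFinset]
    · rintro K U ⟨⟨hU1, hU2⟩, e, he, hle⟩
      refine ⟨hU1, ?_⟩
      have he' : e ∈ xe (op p U) Dᶜ (↑F : Set (V d)) := by
        rw [show xe (op p U) Dᶜ (↑F : Set (V d)) = ↑K.1 from hU2]; exact he
      obtain ⟨a, ha, b, hb, hj, hinf⟩ := he'
      show (Cl (op (p + ε) U) Dᶜ v).Infinite
      refine hinf.mono ?_
      intro z hz
      have ha' : Conn (op p U) Dᶜ v a := by
        rw [← show Cl (op p U) Dᶜ v = ↑F from hU1] at ha; exact ha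
      have hmono : op p U ⊆ op (p + ε) U := op_mono (by linarith) U
      have ha2 : Conn (op (p + ε) U) Dᶜ v a := ha'.mono hmono subset_rfl
      have hb2 : Conn (op (p + ε) U) Dᶜ v b := ha2.snoc ⟨ha'.right, hb.1, e, hle, hj⟩
      exact hb2.trans ((show Conn (op p U) (Dᶜ \ ↑F) b z from hz).mono hmono sdiff_subset)
    · rintro ⟨K, hK⟩
      apply step_K hv _ K hp hε.le h1
      rw [div_le_iff₀ hε] at hK
      linarith
  rw [hind] at hsum
  refine le_trans ?_ hsum
  have h3 := mul_le_mul_of_nonneg_left hc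
    (mul_nonneg hexp (measureReal_nonneg (μ := P d) (s := {U : Cfg d | Cl (op p U) Dᶜ v = ↑F})))
  linarith

end Trunc_aux

open Trunc_aux

/-! ## FILE Trunc (N4) -/

/-- growth of the percolation probability dominates the mass of large finite clusters -/
theorem trunc_step {a : ℕ} {pc : ℝ} (h : HD d a pc) : ∃ c > 0, ∃ cD > 0, ∃ ε₀ > 0,
    ∀ ε, 0 < ε → ε ≤ ε₀ → ∀ (D : Finset (V d)) (v : V d), v ∉ D → (D.card : ℝ) ≤ cD / ε →
      ∀ p, pc + ε ≤ p → p + ε ≤ 1 →
      c * (P d).real {U : Cfg d | (Cl (op p U) (↑D)ᶜ v).Finite ∧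
          1 / ε ^ 4 ≤ ((Cl (op p U) (↑D)ᶜ v).ncard : ℝ)} ≤
        thetaW (p + ε) (↑D)ᶜ v - thetaW p (↑D)ᶜ v := by
  obtain ⟨c, hc, cJ, hcJ, cD, hcD, δ₀, hδ₀, hw⟩ := weak_exits h
  have hexp : 0 < 1 - Real.exp (-cJ) := by
    have := Real.exp_lt_one_iff.2 (show -cJ < 0 by linarith)
    linarith
  refine ⟨(1 - Real.exp (-cJ)) * c, mul_pos hexp hc, cD, hcD, δ₀, hδ₀, ?_⟩
  intro ε hε hε₀ D v hv hD p hp hp1
  have hp0 : 0 ≤ p := by linarith [h.pos]
  have hsub : (P d).real {U : Cfg d | (Cl (op (p + ε) U) (↑D)ᶜ v).Infinite} -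
      (P d).real {U : Cfg d | (Cl (op p U) (↑D)ᶜ v).Infinite} =
      (P d).real ({U : Cfg d | (Cl (op (p + ε) U) (↑D)ᶜ v).Infinite} \
        {U : Cfg d | (Cl (op p U) (↑D)ᶜ v).Infinite}) := by
    rw [measureReal_sdiff _ (measurableSet_inf p _ v)]
    intro U hU
    refine Set.Infinite.mono ?_ hU
    intro z hz
    exact (show Conn (op p U) _ v z from hz).mono (op_mono (by linarith) U) subset_rfl
  unfold thetaW
  rw [hsub]
  refine sum_le (ι := {F : Finset (V d) // 1 / ε ^ 4 ≤ (F.card : ℝ) ∧ Disjoint D F})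
    (A := fun F => {U : Cfg d | Cl (op p U) (↑D)ᶜ v = ↑F.1})
    (B := fun F => {U : Cfg d | Cl (op p U) (↑D)ᶜ v = ↑F.1} ∩
      {U : Cfg d | (Cl (op (p + ε) U) (↑D)ᶜ v).Infinite})
    (mul_nonneg hexp.le hc.le) ?_ ?_ ?_ ?_ ?_
  · intro F
    exact (measurableSet_cl_eq p _ _ _).inter (measurableSet_inf _ _ _)
  · intro F F' hne
    rw [Function.onFun, Set.disjoint_left]
    rintro U ⟨h2, -⟩ ⟨h3, -⟩
    apply hne
    apply Subtype.ext
    have h4 : (↑F.1 : Set (V d)) = ↑F'.1 := by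
      rw [← show Cl (op p U) (↑D)ᶜ v = ↑F.1 from h2]
      exact h3
    exact_mod_cast h4
  · rintro U ⟨hfin, hcard⟩
    rw [mem_iUnion]
    refine ⟨⟨hfin.toFinset, ?_, ?_⟩, ?_⟩
    · rw [Set.ncard_eq_toFinset_card _ hfin] at hcard
      exact hcard
    · rw [Finset.disjoint_left]
      intro b hb hb'
      rw [Set.Finite.mem_toFinset] at hb'
      exact (show Conn (op p U) _ v b from hb').right hb
    · show Cl (op p U) (↑D)ᶜ v = ↑hfin.toFinset
      rw [hfin.coe_toFinset]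
  · rintro F U ⟨hU1, hU2⟩
    refine ⟨hU2, ?_⟩
    show ¬ (Cl (op p U) (↑D)ᶜ v).Infinite
    rw [show Cl (op p U) (↑D)ᶜ v = ↑F.1 from hU1]
    exact fun h' => h' F.1.finite_toSet
  · rintro ⟨F, hF, hDF⟩
    apply step_F (by simpa using hv) F hp0 hε hp1 hcJ.le
    refine (hw ε hε hε₀ D F hDF hD hF).trans ?_
    apply measureReal_mono _ (measure_ne_top _ _)
    intro U hU
    have hU' : cJ / ε ≤ ((Exits (op (pc + ε) U) (↑D : Set (V d))ᶜ ↑F).ncard : ℝ) := hU
    show cJ / ε ≤ ((xe (op p U) (↑D : Set (V d))ᶜ ↑F).ncard : ℝ)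
    refine le_trans hU' ?_
    have h2 := exits_mono (op_mono hp U) (↑D : Set (V d))ᶜ (↑F : Set (V d))
    have h3 := Set.ncard_le_ncard h2 (exits_finite _ _ _)
    have h4 := exits_le (op p U) (↑D : Set (V d))ᶜ F
    exact_mod_cast h3.trans h4

/-- summed over a grid -/
theorem trunc_sum {a : ℕ} {pc : ℝ} (h : HD d a pc) : ∃ C > 0, ∃ cD > 0, ∃ ε₀ > 0,
    ∀ (s : ℝ) (l : ℕ), 0 < s → 1 ≤ l → l * s ≤ ε₀ → ∀ (D : Finset (V d)) (v : V d), v ∉ D →
      (D.card : ℝ) ≤ cD / (l * s) → ∀ (α : ℝ) (m : ℕ), pc + l * s ≤ α → α + (m + l) * s ≤ 1 →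
      ∑ i ∈ Finset.range m, (P d).real {U : Cfg d | (Cl (op (α + i * s) U) (↑D)ᶜ v).Finite ∧
          1 / (l * s) ^ 4 ≤ ((Cl (op (α + i * s) U) (↑D)ᶜ v).ncard : ℝ)} ≤ C * l := by
  obtain ⟨c, hc, cD, hcD, ε₀, hε₀, hs⟩ := trunc_step h
  refine ⟨1 / c, by positivity, cD, hcD, ε₀, hε₀, ?_⟩
  intro s l hs0 hl hls D v hv hD α m hα hα1
  have hl0 : (0 : ℝ) < l := by exact_mod_cast hl
  set f : ℕ → ℝ := fun i => thetaW (α + i * s) (↑D)ᶜ v with hf
  have h0 : ∀ i, 0 ≤ f i := fun i => measureReal_nonneg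
  have h1 : ∀ i, f i ≤ 1 := fun i => measureReal_le_one
  have hstep : ∀ i ∈ Finset.range m, c * (P d).real {U : Cfg d |
      (Cl (op (α + i * s) U) (↑D)ᶜ v).Finite ∧
          1 / (l * s) ^ 4 ≤ ((Cl (op (α + i * s) U) (↑D)ᶜ v).ncard : ℝ)} ≤ f (l + i) - f i := by
    intro i hi
    have him : (i : ℝ) ≤ m := by exact_mod_cast (Finset.mem_range.1 hi).le
    have h2 := hs (l * s) (by positivity) hls D v hv hD (α + i * s)
      (by have : 0 ≤ (i : ℝ) * s := by positivity
          linarith)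
      (by have : (i : ℝ) * s ≤ m * s := by gcongr
          linarith)
    have e : α + i * s + l * s = α + ((l + i : ℕ) : ℝ) * s := by push_cast; ring
    rw [e] at h2
    exact h2
  have hsum := Finset.sum_le_sum hstep
  rw [← Finset.mul_sum, Finset.sum_sub_distrib] at hsum
  have e1 : ∑ i ∈ Finset.range m, f (l + i) =
      ∑ i ∈ Finset.range (l + m), f i - ∑ i ∈ Finset.range l, f i := by
    rw [Finset.sum_range_add]; ring
  have e2 : ∑ i ∈ Finset.range (l + m), f i =
      ∑ i ∈ Finset.range m, f i + ∑ i ∈ Finset.range l, f (m + i) := by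
    rw [add_comm l m, Finset.sum_range_add]
  have e3 : ∑ i ∈ Finset.range l, f (m + i) ≤ l := by
    calc ∑ i ∈ Finset.range l, f (m + i) ≤ ∑ i ∈ Finset.range l, (1 : ℝ) :=
          Finset.sum_le_sum fun i _ => h1 _
      _ = l := by simp
  have e4 : 0 ≤ ∑ i ∈ Finset.range l, f i := Finset.sum_nonneg fun i _ => h0 i
  rw [e1, e2] at hsum
  rw [div_mul_eq_mul_div, one_mul, le_div_iff₀ hc]
  linarith

end Pool.Agent.helper55.FP
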