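import Pool.Agent.helper55.FP.NDefs
import Pool.Agent.helper55.FP.LDefs
import Pool.Agent.helper55.FP.Conn
import Pool.Agent.helper55.FP.Paths
import Pool.Agent.helper55.FP.Meas
import Pool.Agent.helper55.FP.Indep
import Pool.Agent.helper55.FP.Resample
import Pool.Agent.helper55.FP.BK
import Pool.Agent.helper55.FP.Harris
import Pool.Agent.helper55.FP.Symm
import Pool.Agent.helper55.FP.LeftCont
import Pool.Agent.helper55.FP.Sprinkle
import Pool.Agent.helper55.FP.Balls
import Pool.Agent.helper55.FP.BallLoc
import Pool.Agent.helper55.FP.Ratio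
import Pool.Agent.helper55.FP.Trunc

/-! Large finite clusters at the boundary of first-passage balls, summed over a window. -/

set_option autoImplicit false

open MeasureTheory Set Filter Topology
open scoped ENNReal

namespace Pool.Agent.helper55.FP

variable {d : ℕ}

namespace GiantsAux

/-- neighbours of `D` outside `D` -/
noncomputable def nbF (D : Finset (V d)) : Finset (V d) := by
  classical exact (D.biUnion fun a => (adj_finite a).toFinset).filter (fun b => b ∉ D)

theorem mem_nbF {D : Finset (V d)} {b : V d} : b ∈ nbF D ↔ b ∈ bd (↑D : Set (V d)) := by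
  classical
  unfold nbF bd
  simp only [Finset.mem_filter, Finset.mem_biUnion, Set.Finite.mem_toFinset, Set.mem_ofPred_eq,
    Finset.mem_coe]
  tauto

theorem card_nbF (D : Finset (V d)) : (nbF D).card ≤ 2 * d * D.card := by
  classical
  unfold nbF
  refine (Finset.card_filter_le _ _).trans ?_
  refine (Finset.card_biUnion_le).trans ?_
  calc ∑ a ∈ D, (adj_finite a).toFinset.card ≤ ∑ _a ∈ D, 2 * d := by
        apply Finset.sum_le_sum
        intro a _
        have := adj_encard a
        have h2 : {b : V d | Adj a b}.encard = ((adj_finite a).toFinset.card : ℕ∞) := by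
          rw [← Set.encard_coe_eq_coe_finsetCard]
          simp
        rw [h2] at this
        exact_mod_cast this
    _ = 2 * d * D.card := by
        rw [Finset.sum_const, smul_eq_mul, mul_comm]

/-- some ball around `x` equals `D` -/
def isBall (g : ℝ → ℕ) (q : ℝ) (x : V d) (D : Finset (V d)) : Set (Cfg d) :=
  {U | ∃ t, Bl (costE g q U) univ x t = ↑D}

/-- the cluster of `b` off `D` is finite and of size at least `r` -/
def big (q : ℝ) (D : Finset (V d)) (b : V d) (r : ℝ) : Set (Cfg d) :=
  {U : Cfg d | (Cl (op q U) (↑D)ᶜ b).Finite ∧ r ≤ ((Cl (op q U) (↑D)ᶜ b).ncard : ℝ)}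

theorem measurableSet_isBall {g : ℝ → ℕ} (hg : Monotone g) (q : ℝ) (x : V d) (D : Finset (V d)) :
    MeasurableSet (isBall g q x D) := by
  unfold isBall
  rw [Set.ofPred_exists]
  exact MeasurableSet.iUnion fun t => measurableSet_bl_eq hg q univ _ x t

theorem measurableSet_big (q : ℝ) (D : Finset (V d)) (b : V d) (r : ℝ) :
    MeasurableSet (big q D b r) := by
  have h : big q D b r = {U : Cfg d | (Cl (op q U) (↑D)ᶜ b).Infinite}ᶜ ∩
      ({U : Cfg d | (Cl (op q U) (↑D)ᶜ b).Infinite} ∪
        {U : Cfg d | ((⌈r⌉₊ : ℕ) : ℕ∞) ≤ (Cl (op q U) (↑D)ᶜ b).encard}) := by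
    ext U
    simp only [big, Set.mem_ofPred_eq, Set.mem_inter_iff, Set.mem_compl_iff, Set.mem_union]
    constructor
    · rintro ⟨h1, h2⟩
      refine ⟨fun h => h h1, Or.inr ?_⟩
      rw [← h1.cast_ncard_eq]
      exact_mod_cast Nat.ceil_le.mpr h2
    · rintro ⟨h1, h2⟩
      have h1' : (Cl (op q U) (↑D)ᶜ b).Finite := Set.not_infinite.mp h1
      refine ⟨h1', ?_⟩
      rcases h2 with h2 | h2
      · exact absurd h2 h1
      · rw [← h1'.cast_ncard_eq] at h2
        exact Nat.ceil_le.mp (by exact_mod_cast h2)
  rw [h]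
  exact (measurableSet_inf q _ b).compl.inter
    ((measurableSet_inf q _ b).union (measurableSet_encard q _ b _))

theorem inter_le {g : ℝ → ℕ} (hg : Monotone g) (q : ℝ) (x : V d) (D : Finset (V d)) (b : V d)
    (r : ℝ) : P d (isBall g q x D ∩ big q D b r) = P d (isBall g q x D) * P d (big q D b r) := by
  have h1 : DependsOn (fun U : Cfg d => U ∈ isBall g q x D) (touch (↑D : Set (V d))) := by
    intro U U' h
    have : ∀ t, (Bl (costE g q U) univ x t = ↑D) = (Bl (costE g q U') univ x t = ↑D) := by
      intro t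
      exact dependsOn_bl_eq g q univ (↑D) x (mem_univ x) t (fun e he => h e he.2)
    simp only [isBall, Set.mem_ofPred_eq, this]
  have h2 : DependsOn (fun U : Cfg d => U ∈ big q D b r) (inner ((↑D : Set (V d))ᶜ)) := by
    intro U U' h
    have : Cl (op q U) (↑D)ᶜ b = Cl (op q U') (↑D)ᶜ b := dependsOn_cl q _ b h
    simp only [big, Set.mem_ofPred_eq, this]
  have h3 : Disjoint (touch (↑D : Set (V d))) (inner ((↑D : Set (V d))ᶜ)) := by
    rw [Set.disjoint_left]
    rintro e he ⟨he1, he2⟩
    rcases he with he | he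
    · exact he1 he
    · exact he2 he
  have h := prob_inter (measurableSet_isBall hg q x D) (measurableSet_big q D b r) h1 h2 h3
  unfold Measure.real at h
  rw [← ENNReal.toReal_mul] at h
  exact (ENNReal.toReal_eq_toReal_iff' (measure_ne_top _ _)
    (ENNReal.mul_ne_top (measure_ne_top _ _) (measure_ne_top _ _))).mp h

theorem sum_isBall {g : ℝ → ℕ} (hg : Monotone g) (q : ℝ) (x : V d) (N : ℕ) :
    ∑' D : Finset (V d), P d {U | D.card ≤ N ∧ U ∈ isBall g q x D} ≤ (N : ℝ≥0∞) + 1 := by
  classical
  have hm : ∀ D : Finset (V d), MeasurableSet {U | D.card ≤ N ∧ U ∈ isBall g q x D} := by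
    intro D
    by_cases h : D.card ≤ N
    · simpa [h] using measurableSet_isBall hg q x D
    · simp [h]
  have h := markov_sum (ι := Finset (V d)) (fun D => {U | D.card ≤ N ∧ U ∈ isBall g q x D})
    (fun _ _ => 1) (fun _ => univ) hm (fun _ => measurable_const)
    (fun D => by
      intro U U' h
      have : U = U' := funext fun e => h e (mem_univ e)
      rw [this])
    (fun D => by
      intro U U' _
      rfl) (N + 1) 1
    (by
      intro U
      have h1 := bl_count (costE g q U) univ x N
      have h2 : {D : Finset (V d) | U ∈ {U | D.card ≤ N ∧ U ∈ isBall g q x D}}.encard ≤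
          {D : Set (V d) | D.encard ≤ N ∧ ∃ t, D = Bl (costE g q U) univ x t}.encard := by
        refine Set.encard_le_encard_of_injOn (f := fun D : Finset (V d) => (↑D : Set (V d))) ?_ ?_
        · rintro D ⟨hD1, t, ht⟩
          refine ⟨?_, t, ht.symm⟩
          rw [Set.encard_coe_eq_coe_finsetCard]
          exact_mod_cast hD1
        · intro D _ D' _ hDD
          exact Finset.coe_injective hDD
      refine (h2.trans h1).trans ?_
      push_cast
      exact le_rfl)
    (by
      intro _
      simp)
  calc ∑' D : Finset (V d), P d {U | D.card ≤ N ∧ U ∈ isBall g q x D}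
      = ∑' D : Finset (V d), ∫⁻ U, ({U | D.card ≤ N ∧ U ∈ isBall g q x D}).indicator
          (fun _ => 1) U ∂(P d) := by
        congr 1
        ext D
        rw [lintegral_indicator_const (hm D), one_mul]
    _ ≤ _ := by
        refine h.trans ?_
        push_cast
        rw [mul_one]

end GiantsAux

open GiantsAux in
/-- sum over a window of the grid -/
theorem gb_window {a : ℕ} {pc : ℝ} (h : HD d a pc) : ∃ C > 0, ∃ cD > 0, ∃ ε₀ > 0,
    ∀ (g : ℝ → ℕ), Monotone g → (∀ u, 1 ≤ g u) → ∀ (x : V d) (s : ℝ) (l m N : ℕ), 0 < s → 1 ≤ l →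
      1 ≤ N → l * s ≤ ε₀ → (N : ℝ) ≤ cD / (l * s) → ∀ α : ℝ, pc + l * s ≤ α → α + (m + l) * s ≤ 1 →
      4 * d * N * (m * s) ≤ pc →
      ∑ i ∈ Finset.range m, (P d).real (GB g (α + i * s) x N (1 / (l * s) ^ 4)) ≤
        C * (N : ℝ) ^ 2 * l := by
  classical
  obtain ⟨C, hC, cD, hcD, ε₀, hε, key⟩ := trunc_sum h
  refine ⟨(8 * d + 1) * C, by positivity, cD, hcD, ε₀, hε, ?_⟩
  intro g hg hg1 x s l m N hs hl hN hls hNc α hα hα1 hdN
  have hls0 : 0 < l * s := by positivity
  have hpc := h.pos
  have hα0 : 0 < α := by linarith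
  set r : ℝ := 1 / (l * s) ^ 4 with hr
  -- the truncated sums
  have key' : ∀ (D : Finset (V d)) (b : V d), b ∉ D → D.card ≤ N →
      ∑ i ∈ Finset.range m, P d (big (α + i * s) D b r) ≤ ENNReal.ofReal (C * l) := by
    intro D b hb hD
    have := key s l hs hl hls D b hb (le_trans (by exact_mod_cast hD) hNc) α m hα hα1
    have e : ∑ i ∈ Finset.range m, P d (big (α + i * s) D b r) =
        ENNReal.ofReal (∑ i ∈ Finset.range m, (P d).real (big (α + i * s) D b r)) := by
      rw [ENNReal.ofReal_sum_of_nonneg (fun _ _ => measureReal_nonneg)]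
      apply Finset.sum_congr rfl
      intro i _
      rw [ofReal_measureReal]
    rw [e]
    exact ENNReal.ofReal_le_ofReal this
  -- balls
  have hball : ∀ i ∈ Finset.range m, ∀ D : Finset (V d), D.card ≤ N →
      P d (isBall g (α + i * s) x D) ≤ 2 * P d (isBall g α x D) := by
    intro i hi D hD
    have hi' : (i : ℝ) ≤ m := by
      have := Finset.mem_range.mp hi
      exact_mod_cast this.le
    have hl0 : (0 : ℝ) ≤ l := by positivity
    have h1 : α ≤ α + i * s := by
      have : 0 ≤ (i : ℝ) * s := by positivity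
      linarith
    have h2 : α + i * s ≤ 1 := by
      have : (i : ℝ) * s ≤ (m + l) * s := by
        apply mul_le_mul_of_nonneg_right _ hs.le
        linarith
      linarith
    have h3 : 4 * d * D.card * (α + i * s - α) ≤ α := by
      have e1 : α + i * s - α = i * s := by ring
      rw [e1]
      have e2 : 4 * d * (D.card : ℝ) * (i * s) ≤ 4 * d * N * (m * s) := by
        have : (D.card : ℝ) ≤ N := by exact_mod_cast hD
        have h4 : (i : ℝ) * s ≤ m * s := mul_le_mul_of_nonneg_right hi' hs.le
        have h5 : 0 ≤ (i : ℝ) * s := by positivity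
        gcongr
      linarith
    have := ball_ratio hg hg1 hα0 h1 h2 D x h3
    have e : P d (isBall g (α + i * s) x D) = ENNReal.ofReal ((P d).real (isBall g (α + i * s) x D)) := by
      rw [ofReal_measureReal]
    have e' : 2 * P d (isBall g α x D) = ENNReal.ofReal (2 * (P d).real (isBall g α x D)) := by
      rw [ENNReal.ofReal_mul (by norm_num), ofReal_measureReal]
      simp
    rw [e, e']
    exact ENNReal.ofReal_le_ofReal this
  -- GB is contained in a union
  have hGB : ∀ i ∈ Finset.range m, P d (GB g (α + i * s) x N r) ≤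
      (∑' D : Finset (V d), ∑ b ∈ nbF D,
        P d {U | D.card ≤ N ∧ U ∈ isBall g α x D} * (2 * P d (big (α + i * s) D b r))) +
      P d (big (α + i * s) ∅ x r) := by
    intro i hi
    have hsub : GB g (α + i * s) x N r ⊆
        (⋃ D : Finset (V d), ⋃ b ∈ nbF D,
          {U | D.card ≤ N ∧ U ∈ isBall g (α + i * s) x D ∩ big (α + i * s) D b r}) ∪
        big (α + i * s) ∅ x r := by
      rintro U (⟨D, hD, ht, b, hb, hf, hn⟩ | ⟨hf, hn⟩)
      · left
        simp only [Set.mem_iUnion]
        exact ⟨D, b, mem_nbF.mpr hb, hD, ht, hf, hn⟩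
      · right
        unfold big
        simp only [Finset.coe_empty, Set.compl_empty]
        exact ⟨hf, hn⟩
    refine (measure_mono hsub).trans ?_
    refine (measure_union_le _ _).trans ?_
    gcongr
    refine (measure_iUnion_le _).trans ?_
    refine ENNReal.tsum_le_tsum fun D => ?_
    refine (measure_biUnion_finset_le _ _).trans ?_
    refine Finset.sum_le_sum fun b _ => ?_
    by_cases hD : D.card ≤ N
    · simp only [hD, true_and, Set.ofPred_mem_eq]
      rw [inter_le hg]
      calc P d (isBall g (α + i * s) x D) * P d (big (α + i * s) D b r)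
          ≤ (2 * P d (isBall g α x D)) * P d (big (α + i * s) D b r) := by
            gcongr
            exact hball i hi D hD
        _ = _ := by ring
    · simp [hD]
  -- sum up
  have hsum : ∑ i ∈ Finset.range m, P d (GB g (α + i * s) x N r) ≤
      ENNReal.ofReal ((8 * d + 1) * C * (N : ℝ) ^ 2 * l) := by
    calc ∑ i ∈ Finset.range m, P d (GB g (α + i * s) x N r)
        ≤ ∑ i ∈ Finset.range m, ((∑' D : Finset (V d), ∑ b ∈ nbF D,
            P d {U | D.card ≤ N ∧ U ∈ isBall g α x D} * (2 * P d (big (α + i * s) D b r))) +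
            P d (big (α + i * s) ∅ x r)) := Finset.sum_le_sum hGB
      _ = (∑' D : Finset (V d), ∑ b ∈ nbF D,
            P d {U | D.card ≤ N ∧ U ∈ isBall g α x D} *
              (2 * ∑ i ∈ Finset.range m, P d (big (α + i * s) D b r))) +
            ∑ i ∈ Finset.range m, P d (big (α + i * s) ∅ x r) := by
          rw [Finset.sum_add_distrib]
          congr 1
          rw [← Summable.tsum_finsetSum (fun i _ => ENNReal.summable)]
          congr 1
          ext D
          rw [Finset.sum_comm]
          apply Finset.sum_congr rfl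
          intro b _
          rw [Finset.mul_sum, Finset.mul_sum]
      _ ≤ (∑' D : Finset (V d), ∑ b ∈ nbF D,
            P d {U | D.card ≤ N ∧ U ∈ isBall g α x D} *
              (2 * ENNReal.ofReal (C * l))) + ENNReal.ofReal (C * l) := by
          refine add_le_add (ENNReal.tsum_le_tsum fun D => Finset.sum_le_sum fun b hb => ?_)
            (key' ∅ x (by simp) (by simp))
          by_cases hD : D.card ≤ N
          · gcongr
            exact key' D b (fun hbD => (mem_nbF.mp hb).1 (by exact_mod_cast hbD)) hD
          · simp [hD]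
      _ ≤ (∑' D : Finset (V d), (2 * d * N : ℕ) *
            (P d {U | D.card ≤ N ∧ U ∈ isBall g α x D} *
              (2 * ENNReal.ofReal (C * l)))) + ENNReal.ofReal (C * l) := by
          refine add_le_add (ENNReal.tsum_le_tsum fun D => ?_) le_rfl
          by_cases hD : D.card ≤ N
          · rw [Finset.sum_const, nsmul_eq_mul]
            have h6 : ((nbF D).card : ℝ≥0∞) ≤ ((2 * d * N : ℕ) : ℝ≥0∞) := by
              have : (nbF D).card ≤ 2 * d * N := (card_nbF D).trans (Nat.mul_le_mul_left _ hD)
              exact_mod_cast this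
            exact mul_le_mul_left h6 _
          · simp [hD]
      _ = (2 * d * N : ℕ) * ((∑' D : Finset (V d), P d {U | D.card ≤ N ∧ U ∈ isBall g α x D}) *
              (2 * ENNReal.ofReal (C * l))) + ENNReal.ofReal (C * l) := by
          rw [ENNReal.tsum_mul_left, ENNReal.tsum_mul_right]
      _ ≤ (2 * d * N : ℕ) * (((N : ℝ≥0∞) + 1) *
              (2 * ENNReal.ofReal (C * l))) + ENNReal.ofReal (C * l) := by
          gcongr
          exact sum_isBall hg α x N
      _ = ENNReal.ofReal ((2 * d * N : ℕ) * ((N + 1) * (2 * (C * l))) + C * l) := by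
          have hCl : 0 ≤ C * (l : ℝ) := by positivity
          have h7 : (0 : ℝ) ≤ (N : ℝ) + 1 := by positivity
          have h8 : (0 : ℝ) ≤ ((2 * d * N : ℕ) : ℝ) := by positivity
          have h9 : 0 ≤ ((N : ℝ) + 1) * (2 * (C * l)) := by positivity
          rw [ENNReal.ofReal_add (mul_nonneg h8 h9) hCl, ENNReal.ofReal_mul h8,
            ENNReal.ofReal_mul h7, ENNReal.ofReal_mul (by norm_num : (0 : ℝ) ≤ 2),
            ENNReal.ofReal_natCast, ENNReal.ofReal_add (by positivity) (by norm_num),
            ENNReal.ofReal_natCast, ENNReal.ofReal_one]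
          norm_num
      _ ≤ ENNReal.ofReal ((8 * d + 1) * C * (N : ℝ) ^ 2 * l) := by
          apply ENNReal.ofReal_le_ofReal
          have hN1 : (1 : ℝ) ≤ N := by exact_mod_cast hN
          have hCl : 0 ≤ C * l := by positivity
          have hd0 : (0 : ℝ) ≤ d := by positivity
          push_cast
          have e1 : (2 * (d : ℝ) * N) * ((N + 1) * (2 * (C * l))) ≤ 8 * d * (N : ℝ) ^ 2 * (C * l) := by
            have : (N : ℝ) + 1 ≤ 2 * N := by linarith
            calc (2 * (d : ℝ) * N) * ((N + 1) * (2 * (C * l)))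
                ≤ (2 * (d : ℝ) * N) * ((2 * N) * (2 * (C * l))) := by gcongr
              _ = 8 * d * (N : ℝ) ^ 2 * (C * l) := by ring
          have e2 : C * l ≤ (N : ℝ) ^ 2 * (C * l) := by
            have : (1 : ℝ) ≤ (N : ℝ) ^ 2 := one_le_pow₀ hN1
            nlinarith
          nlinarith
  have e : ∑ i ∈ Finset.range m, (P d).real (GB g (α + i * s) x N r) =
      (∑ i ∈ Finset.range m, P d (GB g (α + i * s) x N r)).toReal := by
    rw [ENNReal.toReal_sum (fun _ _ => measure_ne_top _ _)]
    rfl
  rw [e]
  exact ENNReal.toReal_le_of_le_ofReal (by positivity) hsum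

end Pool.Agent.helper55.FP
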