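import Pool.Agent.helper55.FP.NDefs
import Pool.Agent.helper55.FP.LDefs
import Pool.Agent.helper55.FP.Conn
import Pool.Agent.helper55.FP.Paths
import Pool.Agent.helper55.FP.Meas
import Pool.Agent.helper55.FP.Indep
import Pool.Agent.helper55.FP.Resample
import Pool.Agent.helper55.FP.BK
import Pool.Agent.helper55.FP.Harris
import Pool.Agent.helper55.FP.Symm
import Pool.Agent.helper55.FP.LeftCont
import Pool.Agent.helper55.FP.Sprinkle
import Pool.Agent.helper55.FP.Giants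
import Pool.Agent.helper55.FP.Trunc
import Pool.Agent.helper55.FP.BallLoc

/-! FP project, file GoodParam: existence of a good parameter (pigeonhole over a grid). -/

set_option autoImplicit false

open MeasureTheory Set Filter Topology
open scoped ENNReal

namespace Pool.Agent.helper55.FP

variable {d : ℕ}

namespace GoodParam_aux

/-- cut `range (m * B)` into `B` blocks -/
theorem sum_blocks (f : ℕ → ℝ) (m : ℕ) (S : ℝ) : ∀ B : ℕ,
    (∀ j < B, ∑ i ∈ Finset.range m, f (m * j + i) ≤ S) →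
      ∑ i ∈ Finset.range (m * B), f i ≤ B * S := by
  intro B
  induction B with
  | zero => intro _; simp
  | succ B ih =>
    intro h
    rw [Nat.mul_succ, Finset.sum_range_add]
    have h1 := ih fun j hj => h j (by omega)
    have h2 := h B (by omega)
    push_cast
    linarith

/-- pigeonhole with three averages -/
theorem pick (M : ℕ) (hM : 0 < M) (f₁ f₂ f₃ : ℕ → ℝ) {η₁ η₂ η₃ : ℝ} (h1 : 0 < η₁) (h2 : 0 < η₂)
    (h3 : 0 < η₃) (p1 : ∀ i, 0 ≤ f₁ i) (p2 : ∀ i, 0 ≤ f₂ i) (p3 : ∀ i, 0 ≤ f₃ i)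
    (s1 : ∑ i ∈ Finset.range M, f₁ i ≤ M * η₁ / 4) (s2 : ∑ i ∈ Finset.range M, f₂ i ≤ M * η₂ / 4)
    (s3 : ∑ i ∈ Finset.range M, f₃ i ≤ M * η₃ / 4) :
    ∃ i < M, f₁ i ≤ η₁ ∧ f₂ i ≤ η₂ ∧ f₃ i ≤ η₃ := by
  by_contra hcon
  push Not at hcon
  have key : ∀ i ∈ Finset.range M, (1 : ℝ) ≤ f₁ i / η₁ + f₂ i / η₂ + f₃ i / η₃ := by
    intro i hi
    have hi' := Finset.mem_range.1 hi
    have q1 : 0 ≤ f₁ i / η₁ := div_nonneg (p1 i) h1.le
    have q2 : 0 ≤ f₂ i / η₂ := div_nonneg (p2 i) h2.le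
    have q3 : 0 ≤ f₃ i / η₃ := div_nonneg (p3 i) h3.le
    by_cases c1 : f₁ i ≤ η₁
    · by_cases c2 : f₂ i ≤ η₂
      · have c3 := hcon i hi' c1 c2
        have : 1 ≤ f₃ i / η₃ := by rw [le_div_iff₀ h3]; linarith
        linarith
      · have : 1 ≤ f₂ i / η₂ := by rw [le_div_iff₀ h2]; linarith
        linarith
    · have : 1 ≤ f₁ i / η₁ := by rw [le_div_iff₀ h1]; linarith
      linarith
  have hsum := Finset.sum_le_sum key
  rw [Finset.sum_add_distrib, Finset.sum_add_distrib, ← Finset.sum_div, ← Finset.sum_div,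
    ← Finset.sum_div] at hsum
  simp only [Finset.sum_const, Finset.card_range, nsmul_eq_mul, mul_one] at hsum
  have hM' : (0 : ℝ) < M := by exact_mod_cast hM
  have t1 : (∑ i ∈ Finset.range M, f₁ i) / η₁ ≤ M / 4 := by
    rw [div_le_iff₀ h1]; linarith
  have t2 : (∑ i ∈ Finset.range M, f₂ i) / η₂ ≤ M / 4 := by
    rw [div_le_iff₀ h2]; linarith
  have t3 : (∑ i ∈ Finset.range M, f₃ i) / η₃ ≤ M / 4 := by
    rw [div_le_iff₀ h3]; linarith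
  linarith

/-- the integer `⌈1/δ⌉` -/
theorem K_bounds {δ : ℝ} (h0 : 0 < δ) (h1 : δ ≤ 1) :
    1 ≤ (⌈1 / δ⌉₊ : ℝ) ∧ 1 ≤ (⌈1 / δ⌉₊ : ℝ) * δ ∧ (⌈1 / δ⌉₊ : ℝ) * δ ≤ 2 := by
  have a1 : 1 / δ ≤ (⌈1 / δ⌉₊ : ℝ) := Nat.le_ceil _
  have a2 : (⌈1 / δ⌉₊ : ℝ) < 1 / δ + 1 := Nat.ceil_lt_add_one (by positivity)
  have a3 : 1 ≤ 1 / δ := by rw [le_div_iff₀ h0]; linarith
  refine ⟨by linarith, ?_, ?_⟩
  · have := mul_le_mul_of_nonneg_right a1 h0.le
    rwa [div_mul_cancel₀ _ h0.ne'] at this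
  · have := mul_le_mul_of_nonneg_right a2.le h0.le
    rw [add_mul, div_mul_cancel₀ _ h0.ne'] at this
    linarith

/-- size of the cut-off -/
theorem cut_bound (A : ℝ) (hA : 1 ≤ A) (e : ℕ) : ∃ δ₀ > 0, ∀ δ, 0 < δ → δ ≤ δ₀ → ∀ K : ℝ, 1 ≤ K →
    K * δ ≤ 2 → (⌈1 / (δ / (A * K ^ e)) ^ 4⌉₊ : ℝ) ≤ 1 / δ ^ (4 * e + 5) := by
  set T : ℝ := (A * 2 ^ e) ^ 4 with hT
  have hT1 : 1 ≤ T := by
    have : (1 : ℝ) ≤ 2 ^ e := one_le_pow₀ (by norm_num)
    exact one_le_pow₀ (by nlinarith)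
  refine ⟨1 / (T + 1), by positivity, fun δ h0 hδ K hK hKδ => ?_⟩
  have hK0 : 0 < K := by linarith
  have hA0 : 0 < A := by linarith
  have hT0 : 0 < T := by linarith
  have h1 : δ * (T + 1) ≤ 1 := by rwa [le_div_iff₀ (by positivity)] at hδ
  have hδ1 : δ ≤ 1 := by nlinarith
  -- main estimate
  have e1 : 1 / (δ / (A * K ^ e)) ^ 4 = (A * K ^ e) ^ 4 / δ ^ 4 := by
    rw [div_pow, one_div_div]
  have e2 : (A * K ^ e) ^ 4 * δ ^ (4 * e) ≤ T := by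
    have : (A * K ^ e) ^ 4 * δ ^ (4 * e) = (A * (K * δ) ^ e) ^ 4 := by
      rw [pow_mul, mul_pow, mul_pow, mul_pow]; ring
    rw [this, hT]
    have : (K * δ) ^ e ≤ 2 ^ e := pow_le_pow_left₀ (by positivity) hKδ e
    exact pow_le_pow_left₀ (by positivity) (mul_le_mul_of_nonneg_left this hA0.le) 4
  have e3 : (A * K ^ e) ^ 4 / δ ^ 4 ≤ T / δ ^ (4 * e + 4) := by
    rw [div_le_div_iff₀ (by positivity) (by positivity)]
    calc (A * K ^ e) ^ 4 * δ ^ (4 * e + 4) = ((A * K ^ e) ^ 4 * δ ^ (4 * e)) * δ ^ 4 := by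
          rw [pow_add]; ring
      _ ≤ T * δ ^ 4 := mul_le_mul_of_nonneg_right e2 (by positivity)
  have e4 : (⌈1 / (δ / (A * K ^ e)) ^ 4⌉₊ : ℝ) ≤ T / δ ^ (4 * e + 4) + 1 := by
    rw [e1]
    have := (Nat.ceil_lt_add_one (a := (A * K ^ e) ^ 4 / δ ^ 4) (by positivity)).le
    linarith
  refine e4.trans ?_
  have hp : 0 < δ ^ (4 * e + 4) := by positivity
  have hp1 : δ ^ (4 * e + 4) ≤ 1 := pow_le_one₀ h0.le hδ1
  have : T / δ ^ (4 * e + 4) + 1 ≤ (T + 1) / δ ^ (4 * e + 4) := by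
    rw [add_div]
    have : 1 ≤ 1 / δ ^ (4 * e + 4) := by rw [le_div_iff₀ hp]; linarith
    linarith
  refine this.trans ?_
  rw [div_le_div_iff₀ hp (by positivity), show 4 * e + 5 = (4 * e + 4) + 1 by ring, pow_succ]
  nlinarith

/-- `GB` decreases in the size -/
theorem gb_anti (g : ℝ → ℕ) (q : ℝ) (x : V d) (N : ℕ) {m m' : ℝ} (h : m ≤ m') :
    GB g q x N m' ⊆ GB g q x N m := by
  rintro U (⟨D, hD, ht, b, hb, hf, hm⟩ | ⟨hf, hm⟩)
  · exact Or.inl ⟨D, hD, ht, b, hb, hf, h.trans hm⟩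
  · exact Or.inr ⟨hf, h.trans hm⟩

/-- the tail minus the percolation probability -/
theorem tail_sub_le (q : ℝ) (n : ℕ) (y : ℝ) (hy : y ≤ n) :
    tail d q n - theta d q ≤ (P d).real {U : Cfg d |
      (Cl (op q U) (↑(∅ : Finset (V d)) : Set (V d))ᶜ 0).Finite ∧
        y ≤ ((Cl (op q U) (↑(∅ : Finset (V d)) : Set (V d))ᶜ 0).ncard : ℝ)} := by
  have hsub : {U : Cfg d | (n : ℕ∞) ≤ (Cl (op q U) univ (0 : V d)).encard} ⊆
      {U : Cfg d | (Cl (op q U) univ (0 : V d)).Infinite} ∪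
      {U : Cfg d | (Cl (op q U) (↑(∅ : Finset (V d)) : Set (V d))ᶜ 0).Finite ∧
        y ≤ ((Cl (op q U) (↑(∅ : Finset (V d)) : Set (V d))ᶜ 0).ncard : ℝ)} := by
    intro U hU
    rcases (Cl (op q U) univ (0 : V d)).finite_or_infinite with hf | hi
    · right
      simp only [Finset.coe_empty, compl_empty, mem_ofPred_eq]
      refine ⟨hf, hy.trans ?_⟩
      have hU' : (n : ℕ∞) ≤ (Cl (op q U) univ (0 : V d)).encard := hU
      rw [← hf.cast_ncard_eq] at hU'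
      exact_mod_cast hU'
    · exact Or.inl hi
  have h1 := measureReal_mono (μ := P d) hsub
  have h2 := h1.trans (measureReal_union_le _ _)
  unfold tail theta tailW thetaW
  linarith

theorem ls_eq {A K δ : ℝ} (hA : 0 < A) (hK : 0 < K) (E' e : ℕ) :
    K ^ E' * (δ / (A * K ^ (E' + e))) = δ / (A * K ^ e) := by
  rw [pow_add]; field_simp

theorem tt_grid {a : ℕ} {pc : ℝ} (h : HD d a pc) : ∃ A₀ : ℕ, 1 ≤ A₀ ∧ ∃ δ₀ > 0,
    ∀ δ, 0 < δ → δ ≤ δ₀ → ∀ K : ℕ, 1 ≤ (K : ℝ) → 1 ≤ (K : ℝ) * δ → ∀ E' : ℕ,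
    ∑ i ∈ Finset.range (A₀ * K ^ (E' + 2)), (P d).real {U : Cfg d |
      (Cl (op (pc + δ + i * (δ / (A₀ * (K : ℝ) ^ (E' + 2)))) U)
        (↑(∅ : Finset (V d)) : Set (V d))ᶜ 0).Finite ∧
        1 / (δ / (A₀ * (K : ℝ) ^ 2)) ^ 4 ≤
          ((Cl (op (pc + δ + i * (δ / (A₀ * (K : ℝ) ^ (E' + 2)))) U)
            (↑(∅ : Finset (V d)) : Set (V d))ᶜ 0).ncard : ℝ)} ≤
      ((A₀ * K ^ (E' + 2) : ℕ) : ℝ) * δ ^ 2 / 4 := by
  obtain ⟨C, hC, cD, hcD, ε₀, hε₀, H⟩ := trunc_sum h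
  have hlt := h.lt_one
  obtain ⟨A₀, hA₀⟩ := exists_nat_ge (4 * C + 1)
  have hA1 : (1 : ℝ) ≤ A₀ := by linarith
  refine ⟨A₀, by exact_mod_cast hA1, min 1 (min ε₀ ((1 - pc) / 3)), by
    have : 0 < (1 - pc) / 3 := by linarith
    positivity, fun δ h0 hδ K hK hKδ E' => ?_⟩
  have d1 : δ ≤ 1 := hδ.trans (min_le_left _ _)
  have d2 : δ ≤ ε₀ := hδ.trans ((min_le_right _ _).trans (min_le_left _ _))
  have d3 : δ ≤ (1 - pc) / 3 := hδ.trans ((min_le_right _ _).trans (min_le_right _ _))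
  have hA0 : (0 : ℝ) < A₀ := by linarith
  have hK0 : (0 : ℝ) < K := by linarith
  have hKn : 1 ≤ K := by exact_mod_cast hK
  set s : ℝ := δ / (A₀ * (K : ℝ) ^ (E' + 2)) with hs
  have hs0 : 0 < s := by positivity
  have hls : ((K ^ E' : ℕ) : ℝ) * s = δ / (A₀ * (K : ℝ) ^ 2) := by
    push_cast
    exact ls_eq hA0 hK0 E' 2
  have hls1 : δ / (A₀ * (K : ℝ) ^ 2) ≤ δ := by
    apply div_le_self h0.le
    have : (1 : ℝ) ≤ (K : ℝ) ^ 2 := one_le_pow₀ hK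
    nlinarith
  have hms : ((A₀ * K ^ (E' + 2) : ℕ) : ℝ) * s = δ := by
    rw [hs]; push_cast; field_simp
  have h1 := H s (K ^ E') hs0 (Nat.one_le_pow _ _ hKn) (by rw [hls]; linarith) ∅ 0 (by simp)
    (by rw [Finset.card_empty]; push_cast; positivity) (pc + δ) (A₀ * K ^ (E' + 2))
    (by rw [hls]; linarith) (by rw [add_mul, hls, hms]; linarith)
  rw [hls] at h1
  refine h1.trans ?_
  push_cast
  have h2 : (1 : ℝ) ≤ (K : ℝ) ^ 2 * δ ^ 2 := by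
    rw [← mul_pow]; exact one_le_pow₀ hKδ
  have h3 : (0 : ℝ) < (K : ℝ) ^ E' := by positivity
  rw [pow_add]
  have h4 : C ≤ A₀ * (K ^ 2 * δ ^ 2) / 4 := by nlinarith
  calc C * (K : ℝ) ^ E' ≤ (A₀ * (K ^ 2 * δ ^ 2) / 4) * (K : ℝ) ^ E' :=
        mul_le_mul_of_nonneg_right h4 h3.le
    _ = _ := by ring

theorem gb_grid {a : ℕ} {pc : ℝ} (h : HD d a pc) (w E' A : ℕ) (hA : 1 ≤ A) : ∃ δ₀ > 0,
    ∀ δ, 0 < δ → δ ≤ δ₀ → ∀ K : ℕ, 1 ≤ (K : ℝ) → 1 ≤ (K : ℝ) * δ →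
    ∀ (g : ℝ → ℕ), Monotone g → (∀ u, 1 ≤ g u) →
    ∑ i ∈ Finset.range (A * K ^ (E' + (3 * w + 1))), (P d).real
      (GB g (pc + δ + i * (δ / (A * (K : ℝ) ^ (E' + (3 * w + 1))))) (0 : V d) ⌈1 / δ ^ w⌉₊
        (1 / (δ / (A * (K : ℝ) ^ (3 * w + 1))) ^ 4)) ≤
      ((A * K ^ (E' + (3 * w + 1)) : ℕ) : ℝ) * Real.sqrt δ / 4 := by
  obtain ⟨C, hC, cD, hcD, ε₀, hε₀, H⟩ := gb_window h
  have hlt := h.lt_one
  have hpos := h.pos
  have hA1 : (1 : ℝ) ≤ A := by exact_mod_cast hA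
  have e1 : 0 < (1 - pc) / 3 := by linarith
  refine ⟨min 1 (min ε₀ (min ((1 - pc) / 3) (min (cD / 2) (min (pc / (8 * d + 1))
    (1 / (16 * C) ^ 2))))), by positivity, fun δ h0 hδ K hK hKδ g hg hg1 => ?_⟩
  have d1 : δ ≤ 1 := hδ.trans (min_le_left _ _)
  have hδ := hδ.trans (min_le_right _ _)
  have d2 : δ ≤ ε₀ := hδ.trans (min_le_left _ _)
  have hδ := hδ.trans (min_le_right _ _)
  have d3 : δ ≤ (1 - pc) / 3 := hδ.trans (min_le_left _ _)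
  have hδ := hδ.trans (min_le_right _ _)
  have d4 : δ ≤ cD / 2 := hδ.trans (min_le_left _ _)
  have hδ := hδ.trans (min_le_right _ _)
  have d5 : δ ≤ pc / (8 * d + 1) := hδ.trans (min_le_left _ _)
  have d6 : δ ≤ 1 / (16 * C) ^ 2 := hδ.trans (min_le_right _ _)
  have hA0 : (0 : ℝ) < A := by linarith
  have hK0 : (0 : ℝ) < K := by linarith
  have hKn : 1 ≤ K := by exact_mod_cast hK
  set s : ℝ := δ / (A * (K : ℝ) ^ (E' + (3 * w + 1))) with hs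
  have hs0 : 0 < s := by positivity
  have hls : ((K ^ E' : ℕ) : ℝ) * s = δ / (A * (K : ℝ) ^ (3 * w + 1)) := by
    push_cast
    exact ls_eq hA0 hK0 E' _
  have hls1 : δ / (A * (K : ℝ) ^ (3 * w + 1)) ≤ δ := by
    apply div_le_self h0.le
    exact one_le_mul_of_one_le_of_one_le hA1 (one_le_pow₀ hK)
  -- the window size
  set m : ℕ := A * K ^ (E' + (2 * w + 1)) with hm
  have hMm : A * K ^ (E' + (3 * w + 1)) = m * K ^ w := by
    rw [hm, mul_assoc, ← pow_add]; congr 2; ring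
  have hms : (m : ℝ) * s = δ / (K : ℝ) ^ w := by
    rw [hm, hs]
    push_cast
    rw [show E' + (3 * w + 1) = (E' + (2 * w + 1)) + w by ring, pow_add _ (E' + (2 * w + 1)) w]
    field_simp
  have hMs : ((m : ℝ) * (K : ℝ) ^ w) * s = δ := by
    rw [mul_right_comm, hms]; field_simp
  -- the volume
  set N : ℕ := ⌈1 / δ ^ w⌉₊ with hN
  have hN1 : 1 ≤ N := by
    rw [hN, Nat.one_le_ceil_iff]; positivity
  have hdw : 0 < δ ^ w := by positivity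
  have hdw1 : δ ^ w ≤ 1 := pow_le_one₀ h0.le d1
  have hN2 : (N : ℝ) * δ ^ w ≤ 2 := by
    have a2 : (N : ℝ) < 1 / δ ^ w + 1 := Nat.ceil_lt_add_one (by positivity)
    have := mul_le_mul_of_nonneg_right a2.le hdw.le
    rw [add_mul, div_mul_cancel₀ _ hdw.ne'] at this
    linarith
  have hKw : 1 ≤ (K : ℝ) ^ w * δ ^ w := by rw [← mul_pow]; exact one_le_pow₀ hKδ
  have hN0 : (0 : ℝ) < N := by exact_mod_cast hN1
  have hN3 : (N : ℝ) * (δ / (K : ℝ) ^ w) ≤ 2 * δ := by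
    rw [← mul_div_assoc, div_le_iff₀ (by positivity)]
    have : (N : ℝ) ≤ 2 * (K : ℝ) ^ w := by
      have h1 : (N : ℝ) ≤ N * ((K : ℝ) ^ w * δ ^ w) := le_mul_of_one_le_right hN0.le hKw
      have h2 : (N : ℝ) * ((K : ℝ) ^ w * δ ^ w) ≤ 2 * (K : ℝ) ^ w := by
        have := mul_le_mul_of_nonneg_left hN2 (by positivity : (0 : ℝ) ≤ (K : ℝ) ^ w)
        linarith
      linarith
    have := mul_le_mul_of_nonneg_right this h0.le
    linarith
  have hN4 : (N : ℝ) * (δ / (A * (K : ℝ) ^ (3 * w + 1))) ≤ 2 * δ := by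
    refine le_trans (mul_le_mul_of_nonneg_left ?_ hN0.le) hN3
    refine div_le_div_of_nonneg_left h0.le (by positivity) ?_
    have : (K : ℝ) ^ w ≤ (K : ℝ) ^ (3 * w + 1) := pow_le_pow_right₀ hK (by omega)
    have h2 : (0 : ℝ) < (K : ℝ) ^ (3 * w + 1) := by positivity
    exact this.trans (le_mul_of_one_le_left h2.le hA1)
  have hMm' := hMm
  clear_value m N s
  -- blocks
  have hblock : ∀ j < K ^ w, ∑ i ∈ Finset.range m, (P d).real
      (GB g (pc + δ + ((m * j + i : ℕ) : ℝ) * s) (0 : V d) N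
        (1 / (δ / (A * (K : ℝ) ^ (3 * w + 1))) ^ 4)) ≤ C * (N : ℝ) ^ 2 * ((K ^ E' : ℕ) : ℝ) := by
    intro j hj
    have hj' : (j : ℝ) + 1 ≤ (K : ℝ) ^ w := by exact_mod_cast hj
    have hjm : (m : ℝ) * j * s + m * s ≤ δ := by
      rw [← hMs]
      have : (m : ℝ) * s * (j + 1) ≤ (m : ℝ) * s * (K : ℝ) ^ w :=
        mul_le_mul_of_nonneg_left hj' (by positivity)
      linarith
    have hjm0 : 0 ≤ (m : ℝ) * j * s := by positivity
    have h1 := H g hg hg1 (0 : V d) s (K ^ E') m N hs0 (Nat.one_le_pow _ _ hKn) hN1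
      (by rw [hls]; linarith)
      (by rw [hls, le_div_iff₀ (by positivity)]; linarith) (pc + δ + (m : ℝ) * j * s)
      (by rw [hls]; linarith)
      (by
        have hh : ((m : ℝ) + ((K ^ E' : ℕ) : ℝ)) * s = m * s + δ / (A * (K : ℝ) ^ (3 * w + 1)) := by
          rw [add_mul, hls]
        rw [hh]; linarith)
      (by
        rw [hms]
        have hd5 : δ * (8 * d + 1) ≤ pc := by rwa [le_div_iff₀ (by positivity)] at d5
        have : (d : ℝ) * (N * (δ / (K : ℝ) ^ w)) ≤ d * (2 * δ) :=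
          mul_le_mul_of_nonneg_left hN3 (by positivity)
        linarith)
    rw [hls] at h1
    refine le_trans (le_of_eq ?_) h1
    refine Finset.sum_congr rfl fun i _ => ?_
    congr 2
    push_cast
    ring
  have hsum := sum_blocks (fun i => (P d).real
      (GB g (pc + δ + (i : ℝ) * s) (0 : V d) N
        (1 / (δ / (A * (K : ℝ) ^ (3 * w + 1))) ^ 4))) m _ (K ^ w) hblock
  rw [hMm]
  refine hsum.trans ?_
  -- final numerical estimate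
  rw [← hMm]
  push_cast
  have hsq : 0 < Real.sqrt δ := Real.sqrt_pos.2 h0
  have hsq2 : Real.sqrt δ * Real.sqrt δ = δ := Real.mul_self_sqrt h0.le
  have k1 : 16 * C * Real.sqrt δ ≤ 1 := by
    have : Real.sqrt δ ≤ 1 / (16 * C) := by
      rw [show 1 / (16 * C) = Real.sqrt (1 / (16 * C) ^ 2) by
        rw [Real.sqrt_div (by norm_num), Real.sqrt_one, Real.sqrt_sq (by positivity)]]
      exact Real.sqrt_le_sqrt d6
    rw [le_div_iff₀ (by positivity)] at this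
    linarith
  have k2 : C * (N : ℝ) ^ 2 ≤ A * (K : ℝ) ^ (2 * w + 1) * Real.sqrt δ / 4 := by
    have q1 : (N : ℝ) ^ 2 ≤ 4 * ((K : ℝ) ^ w) ^ 2 := by
      have : (N : ℝ) ≤ 2 * (K : ℝ) ^ w := by
        have h1 : (N : ℝ) ≤ N * ((K : ℝ) ^ w * δ ^ w) := le_mul_of_one_le_right hN0.le hKw
        have h2 : (N : ℝ) * ((K : ℝ) ^ w * δ ^ w) ≤ 2 * (K : ℝ) ^ w := by
          have := mul_le_mul_of_nonneg_left hN2 (by positivity : (0 : ℝ) ≤ (K : ℝ) ^ w)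
          linarith
        linarith
      have := pow_le_pow_left₀ hN0.le this 2
      rw [mul_pow] at this
      linarith
    have q2 : (K : ℝ) ^ (2 * w + 1) = ((K : ℝ) ^ w) ^ 2 * K := by
      rw [pow_succ, mul_comm 2 w, pow_mul]
    have q3 : 16 * C ≤ K * Real.sqrt δ := by
      -- K √δ = K δ / √δ ≥ 1/√δ ≥ 16 C
      have : 16 * C * Real.sqrt δ ≤ K * Real.sqrt δ * Real.sqrt δ := by
        rw [mul_assoc (K : ℝ), hsq2]; linarith
      exact le_of_mul_le_mul_right this hsq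
    have q4 : (0 : ℝ) < ((K : ℝ) ^ w) ^ 2 := by positivity
    rw [q2]
    calc C * (N : ℝ) ^ 2 ≤ C * (4 * ((K : ℝ) ^ w) ^ 2) := mul_le_mul_of_nonneg_left q1 hC.le
      _ = (16 * C) * ((K : ℝ) ^ w) ^ 2 / 4 := by ring
      _ ≤ (K * Real.sqrt δ) * ((K : ℝ) ^ w) ^ 2 / 4 := by
          have := mul_le_mul_of_nonneg_right q3 q4.le
          linarith
      _ = 1 * (((K : ℝ) ^ w) ^ 2 * K) * Real.sqrt δ / 4 := by ring
      _ ≤ A * (((K : ℝ) ^ w) ^ 2 * K) * Real.sqrt δ / 4 := by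
          have : 0 ≤ (((K : ℝ) ^ w) ^ 2 * K) * Real.sqrt δ := by positivity
          have := mul_le_mul_of_nonneg_right hA1 this
          linarith
  have k3 : (0 : ℝ) ≤ (K : ℝ) ^ w * (K : ℝ) ^ E' := by positivity
  have k4 := mul_le_mul_of_nonneg_right k2 k3
  have k5 : (K : ℝ) ^ (E' + (3 * w + 1)) = (K : ℝ) ^ (2 * w + 1) * ((K : ℝ) ^ w * (K : ℝ) ^ E') := by
    rw [← pow_add, ← pow_add]; congr 1; ring
  rw [k5]
  linarith

end GoodParam_aux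

open GoodParam_aux in
/-- existence of a good parameter -/
theorem good_param {a : ℕ} {pc : ℝ} (h : HD d a pc) : ∃ δ₀ > 0, ∀ δ, 0 < δ → δ ≤ δ₀ →
    ∀ (g : ℝ → ℕ), Monotone g → (∀ u, 1 ≤ g u) → ∃ q, pc + δ ≤ q ∧ q ≤ pc + 2 * δ ∧
      (∃ n₁ : ℕ, 1 ≤ n₁ ∧ (n₁ : ℝ) ≤ 1 / δ ^ 13 ∧ tail d q n₁ - theta d q ≤ δ ^ 2) ∧
      (∃ m : ℕ, (m : ℝ) ≤ 1 / δ ^ 510 ∧ (P d).real (GB g q (0 : V d) ⌈1 / δ ^ 41⌉₊ m) ≤ Real.sqrt δ) ∧
      (∃ m : ℕ, (m : ℝ) ≤ 1 / δ ^ 6900 ∧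
        (P d).real (GB g q (0 : V d) ⌈1 / δ ^ 560⌉₊ m) ≤ Real.sqrt δ) := by
  obtain ⟨A, hA, δ₁, hδ₁, H1⟩ := tt_grid h
  obtain ⟨δ₂, hδ₂, H2⟩ := gb_grid h 41 1557 A hA
  obtain ⟨δ₃, hδ₃, H3⟩ := gb_grid h 560 0 A hA
  have hA1 : (1 : ℝ) ≤ A := by exact_mod_cast hA
  obtain ⟨δ₄, hδ₄, H4⟩ := cut_bound A hA1 2
  obtain ⟨δ₅, hδ₅, H5⟩ := cut_bound A hA1 124
  obtain ⟨δ₆, hδ₆, H6⟩ := cut_bound A hA1 1681
  refine ⟨min 1 (min δ₁ (min δ₂ (min δ₃ (min δ₄ (min δ₅ δ₆))))), by positivity,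
    fun δ h0 hδ g hg hg1 => ?_⟩
  have d0 : δ ≤ 1 := hδ.trans (min_le_left _ _)
  have hδ := hδ.trans (min_le_right _ _)
  have d1 := hδ.trans (min_le_left _ _)
  have hδ := hδ.trans (min_le_right _ _)
  have d2 := hδ.trans (min_le_left _ _)
  have hδ := hδ.trans (min_le_right _ _)
  have d3 := hδ.trans (min_le_left _ _)
  have hδ := hδ.trans (min_le_right _ _)
  have d4 := hδ.trans (min_le_left _ _)
  have hδ := hδ.trans (min_le_right _ _)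
  have d5 := hδ.trans (min_le_left _ _)
  have d6 := hδ.trans (min_le_right _ _)
  obtain ⟨K1, K2, K3⟩ := K_bounds h0 d0
  set K : ℕ := ⌈1 / δ⌉₊ with hKdef
  have t1 := H1 δ h0 d1 K K1 K2 1679
  have t2 := H2 δ h0 d2 K K1 K2 g hg hg1
  have t3 := H3 δ h0 d3 K K1 K2 g hg hg1
  have t4 := H4 δ h0 d4 K K1 K3
  have t5 := H5 δ h0 d5 K K1 K3
  have t6 := H6 δ h0 d6 K K1 K3
  simp only [show 1679 + 2 = 1681 from rfl, show 3 * 41 + 1 = 124 from rfl,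
    show 4 * 2 + 5 = 13 from rfl,
    show 4 * 124 + 5 = 501 from rfl, show 4 * 1681 + 5 = 6729 from rfl] at t1 t2 t3 t4 t5 t6
  have hA0 : (0 : ℝ) < A := by linarith
  have hK0 : (0 : ℝ) < K := by linarith
  have hKn : 1 ≤ K := by exact_mod_cast K1
  have hM : 0 < A * K ^ 1681 := by positivity
  have hsq : 0 < Real.sqrt δ := Real.sqrt_pos.2 h0
  obtain ⟨i, hi, r1, r2, r3⟩ := pick (A * K ^ 1681) hM _ _ _ (by positivity : 0 < δ ^ 2) hsq hsq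
    (fun i => measureReal_nonneg) (fun i => measureReal_nonneg) (fun i => measureReal_nonneg)
    t1 t2 t3
  have hs0 : 0 < δ / (A * (K : ℝ) ^ 1681) := by positivity
  have hi' : (i : ℝ) ≤ A * (K : ℝ) ^ 1681 := by exact_mod_cast hi.le
  have his : (i : ℝ) * (δ / (A * (K : ℝ) ^ 1681)) ≤ δ := by
    have := mul_le_mul_of_nonneg_right hi' hs0.le
    rwa [mul_div_cancel₀ _ (by positivity)] at this
  refine ⟨pc + δ + i * (δ / (A * (K : ℝ) ^ 1681)), by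
    have : 0 ≤ (i : ℝ) * (δ / (A * (K : ℝ) ^ 1681)) := by positivity
    linarith, by linarith, ⟨_, ?_, t4, ?_⟩, ⟨_, t5.trans ?_, ?_⟩, ⟨_, t6.trans ?_, ?_⟩⟩
  · rw [Nat.one_le_ceil_iff]; positivity
  · exact (tail_sub_le _ _ _ (Nat.le_ceil _)).trans r1
  · exact one_div_le_one_div_of_le (by positivity) (pow_le_pow_of_le_one h0.le d0 (by norm_num))
  · exact (measureReal_mono (gb_anti g _ _ _ (Nat.le_ceil _))).trans r2
  · exact one_div_le_one_div_of_le (by positivity) (pow_le_pow_of_le_one h0.le d0 (by norm_num))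
  · exact (measureReal_mono (gb_anti g _ _ _ (Nat.le_ceil _))).trans r3

end Pool.Agent.helper55.FP
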