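import Pool.Agent.helper55.FP.NDefs
import Pool.Agent.helper55.FP.Conn
import Pool.Agent.helper55.FP.Meas
import Pool.Agent.helper55.FP.Uniq
import Pool.Agent.helper40.FP.Graph2

/-! FP project, module LenProb (F9): the lengths are almost surely finite. -/

set_option autoImplicit false

open MeasureTheory Set Filter Topology
open scoped ENNReal

namespace Pool.Agent.helper55.FP

variable {d : ℕ}

namespace LenProb_aux

/-! ### walks of given cost -/

/-- there is a walk with `n` steps from `x` to `z` with cost `k` -/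
def WkE (c : E d → ℕ) (x : V d) (n : ℕ) (z : V d) (k : ℕ) : Prop :=
  ∃ w e, Wk univ n w e ∧ w 0 = x ∧ w n = z ∧ wcost c n e = k

theorem wkE_zero (c : E d → ℕ) (x z : V d) (k : ℕ) :
    WkE c x 0 z k ↔ (Nonempty (E d) ∧ x = z ∧ k = 0) := by
  constructor
  · rintro ⟨w, e, -, h1, h2, h3⟩
    refine ⟨⟨e 0⟩, h1 ▸ h2, ?_⟩
    rw [← h3]; simp [wcost]
  · rintro ⟨⟨e⟩, rfl, rfl⟩
    exact ⟨fun _ => x, fun _ => e, ⟨fun _ _ => mem_univ _, fun i hi => absurd hi (Nat.not_lt_zero i)⟩,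
      rfl, rfl, by simp [wcost]⟩

theorem wkE_succ (c : E d → ℕ) (x : V d) (n : ℕ) (z : V d) (k : ℕ) :
    WkE c x (n + 1) z k ↔ ∃ (z' : V d) (f : E d) (k' : ℕ), Joins f z' z ∧ WkE c x n z' k' ∧
      k' + c f = k := by
  constructor
  · rintro ⟨w, e, hw, h1, h2, h3⟩
    refine ⟨w n, e n, wcost c n e, ?_, ⟨w, e, ⟨fun _ _ => mem_univ _, fun i hi =>
      hw.2 i (hi.trans (Nat.lt_succ_self n))⟩, h1, rfl, rfl⟩, ?_⟩
    · rw [← h2]; exact hw.2 n (Nat.lt_succ_self n)
    · rw [← h3]; simp only [wcost, Finset.sum_range_succ]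
  · rintro ⟨z', f, k', hf, ⟨w, e, hw, h1, h2, h3⟩, h4⟩
    refine ⟨fun i => if i ≤ n then w i else z, fun i => if i < n then e i else f,
      ⟨fun _ _ => mem_univ _, fun i hi => ?_⟩, ?_, ?_, ?_⟩
    · rcases Nat.lt_succ_iff_lt_or_eq.1 hi with h | h
      · simp only [if_pos h, if_pos h.le, if_pos (Nat.succ_le_of_lt h)]
        exact hw.2 i h
      · subst h
        simp only [le_refl, if_true, lt_irrefl, if_false, Nat.not_succ_le_self, h2]
        exact hf
    · simpa using h1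
    · simp
    · rw [← h4, ← h3]
      simp only [wcost, Finset.sum_range_succ, lt_irrefl, if_false]
      congr 1
      exact Finset.sum_congr rfl fun i hi => by rw [if_pos (Finset.mem_range.1 hi)]

theorem minTo_iff (c : E d → ℕ) (x : V d) (I : Set (V d)) (n : ℕ) (z : V d) :
    MinTo c x I n z ↔ ∃ k, WkE c x n z k ∧ z ∈ I ∧ ∀ n' z' k', WkE c x n' z' k' → z' ∈ I →
      k ≤ k' := by
  constructor
  · rintro ⟨w, e, hw, h1, h2, h3, h4⟩
    refine ⟨_, ⟨w, e, hw, h1, h2, rfl⟩, h3, ?_⟩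
    rintro n' z' k' ⟨w', e', hw', h1', h2', rfl⟩ hz'
    exact h4 n' w' e' hw' h1' (h2' ▸ hz')
  · rintro ⟨k, ⟨w, e, hw, h1, h2, rfl⟩, h3, h4⟩
    exact ⟨w, e, hw, h1, h2, h3, fun n' w' e' hw' h1' h2' =>
      h4 n' (w' n') _ ⟨w', e', hw', h1', rfl, rfl⟩ h2'⟩

/-! ### measurability -/

theorem meas_wkE {c : ℝ → ℕ} (hc : Measurable c) (x : V d) (n : ℕ) :
    ∀ (z : V d) (k : ℕ), MeasurableSet {U : Cfg d | WkE (fun e => c (U e)) x n z k} := by
  induction n with
  | zero =>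
    intro z k
    simp only [wkE_zero]
    exact MeasurableSet.const _
  | succ n ih =>
    intro z k
    simp only [wkE_succ]
    have : {U : Cfg d | ∃ (z' : V d) (f : E d) (k' : ℕ), Joins f z' z ∧
        WkE (fun e => c (U e)) x n z' k' ∧ k' + c (U f) = k} =
        ⋃ (z' : V d), ⋃ (f : E d), ⋃ (k' : ℕ), {U : Cfg d | Joins f z' z} ∩
          ({U : Cfg d | WkE (fun e => c (U e)) x n z' k'} ∩ {U : Cfg d | k' + c (U f) = k}) := by
      ext U
      simp only [mem_iUnion, mem_inter_iff, mem_ofPred_eq]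
    rw [this]
    refine MeasurableSet.iUnion fun z' => MeasurableSet.iUnion fun f => MeasurableSet.iUnion
      fun k' => (MeasurableSet.const _).inter ((ih z' k').inter ?_)
    have hm : Measurable fun U : Cfg d => k' + c (U f) :=
      (hc.comp (measurable_pi_apply f)).const_add k'
    exact hm (measurableSet_singleton k)

theorem meas_minTo {c : ℝ → ℕ} (hc : Measurable c) (x : V d) (q : ℝ) (n : ℕ) (z : V d) :
    MeasurableSet {U : Cfg d | MinTo (fun e => c (U e)) x (Inf q U) n z} := by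
  simp only [minTo_iff]
  have hI : ∀ z : V d, MeasurableSet {U : Cfg d | z ∈ Inf q U} := fun z =>
    measurableSet_inf q univ z
  have : {U : Cfg d | ∃ k, WkE (fun e => c (U e)) x n z k ∧ z ∈ Inf q U ∧
      ∀ n' z' k', WkE (fun e => c (U e)) x n' z' k' → z' ∈ Inf q U → k ≤ k'} =
      ⋃ k : ℕ, {U : Cfg d | WkE (fun e => c (U e)) x n z k} ∩ ({U : Cfg d | z ∈ Inf q U} ∩
        ⋂ (n' : ℕ), ⋂ (z' : V d), ⋂ (k' : ℕ),
          ({U : Cfg d | WkE (fun e => c (U e)) x n' z' k'} ∩ {U : Cfg d | z' ∈ Inf q U})ᶜ ∪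
            {U : Cfg d | k ≤ k'}) := by
    ext U
    simp only [mem_iUnion, mem_inter_iff, mem_ofPred_eq, mem_iInter, mem_union, mem_compl_iff]
    refine exists_congr fun k => and_congr_right fun _ => and_congr_right fun _ =>
      forall_congr' fun n' => forall_congr' fun z' => forall_congr' fun k' => ?_
    tauto
  rw [this]
  refine MeasurableSet.iUnion fun k => (meas_wkE hc x n z k).inter ((hI z).inter ?_)
  refine MeasurableSet.iInter fun n' => MeasurableSet.iInter fun z' => MeasurableSet.iInter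
    fun k' => ?_
  exact ((meas_wkE hc x n' z' k').inter (hI z')).compl.union (MeasurableSet.const _)

theorem meas_Sb (q : ℝ) (z : V d) (j : ℕ) :
    ∀ v : V d, MeasurableSet {U : Cfg d | v ∈ Sb (op q U) univ z j} := by
  induction j with
  | zero => intro v; simp only [Sb]; exact MeasurableSet.const _
  | succ j ih =>
    intro v
    have : {U : Cfg d | v ∈ Sb (op q U) univ z (j + 1)} =
        {U : Cfg d | v ∈ Sb (op q U) univ z j} ∪
          ⋃ (a : V d), ⋃ (e : E d), {U : Cfg d | a ∈ Sb (op q U) univ z j} ∩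
            ({U : Cfg d | U e ≤ q} ∩ {U : Cfg d | Joins e a v}) := by
      ext U
      simp only [Sb, Step, mem_union, mem_ofPred_eq, mem_iUnion, mem_inter_iff, mem_univ, true_and,
        op]
      refine or_congr Iff.rfl (exists_congr fun a => ?_)
      constructor
      · rintro ⟨h1, e, h2, h3⟩; exact ⟨e, h1, h2, h3⟩
      · rintro ⟨e, h1, h2, h3⟩; exact ⟨h1, e, h2, h3⟩
    rw [this]
    refine (ih v).union (MeasurableSet.iUnion fun a => MeasurableSet.iUnion fun e =>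
      (ih a).inter (MeasurableSet.inter ?_ (MeasurableSet.const _)))
    exact measurableSet_le (measurable_pi_apply e) measurable_const

theorem meas_Len1 {c : ℝ → ℕ} (hc : Measurable c) (x : V d) (q q₀ : ℝ) (m : ℕ) :
    MeasurableSet {U : Cfg d | Len1 (fun e => c (U e)) (op q U) x (Inf q U) (Inf q₀ U) m} := by
  have : {U : Cfg d | Len1 (fun e => c (U e)) (op q U) x (Inf q U) (Inf q₀ U) m} =
      ⋃ (n : ℕ), ⋃ (z : V d), ⋃ (j : ℕ),
        {U : Cfg d | MinTo (fun e => c (U e)) x (Inf q U) n z} ∩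
          ((⋃ z' : V d, {U : Cfg d | z' ∈ Sb (op q U) univ z j} ∩ {U : Cfg d | z' ∈ Inf q₀ U}) ∩
            {U : Cfg d | n + j < m}) := by
    ext U
    simp only [Len1, mem_iUnion, mem_inter_iff, mem_ofPred_eq]
  rw [this]
  refine MeasurableSet.iUnion fun n => MeasurableSet.iUnion fun z => MeasurableSet.iUnion
    fun j => (meas_minTo hc x q n z).inter (MeasurableSet.inter ?_ (MeasurableSet.const _))
  exact MeasurableSet.iUnion fun z' => (meas_Sb q z j z').inter (measurableSet_inf q₀ univ z')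

theorem meas_Len2 {c : ℝ → ℕ} (hc : Measurable c) (x y : V d) (q : ℝ) (m : ℕ) :
    MeasurableSet {U : Cfg d | Len2 (fun e => c (U e)) (op q U) x y (Inf q U) m} := by
  have : {U : Cfg d | Len2 (fun e => c (U e)) (op q U) x y (Inf q U) m} =
      ⋃ (n : ℕ), ⋃ (z : V d), ⋃ (n' : ℕ), ⋃ (z' : V d), ⋃ (j : ℕ),
        {U : Cfg d | MinTo (fun e => c (U e)) x (Inf q U) n z} ∩
          ({U : Cfg d | MinTo (fun e => c (U e)) y (Inf q U) n' z'} ∩
            ({U : Cfg d | z' ∈ Sb (op q U) univ z j} ∩ {U : Cfg d | n + n' + j < m})) := by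
    ext U
    simp only [Len2, mem_iUnion, mem_inter_iff, mem_ofPred_eq]
  rw [this]
  refine MeasurableSet.iUnion fun n => MeasurableSet.iUnion fun z => MeasurableSet.iUnion
    fun n' => MeasurableSet.iUnion fun z' => MeasurableSet.iUnion fun j => ?_
  exact (meas_minTo hc x q n z).inter ((meas_minTo hc y q n' z').inter
    ((meas_Sb q z j z').inter (MeasurableSet.const _)))

/-! ### finiteness -/

theorem wkE_of_rtg (hE : Nonempty (E d)) (c : E d → ℕ) {O : Set (E d)} {W : Set (V d)} {x z : V d}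
    (h : Relation.ReflTransGen (Step O W) x z) : ∃ n k, WkE c x n z k := by
  induction h with
  | refl => exact ⟨0, 0, (wkE_zero c x x 0).2 ⟨hE, rfl, rfl⟩⟩
  | tail _ hs ih =>
    obtain ⟨n, k, hk⟩ := ih
    obtain ⟨_, _, e, _, he⟩ := hs
    exact ⟨n + 1, k + c e, (wkE_succ c x n _ _).2 ⟨_, e, k, he, hk, rfl⟩⟩

theorem exists_wkE (hE : Nonempty (E d)) (c : E d → ℕ) (x z : V d) : ∃ n k, WkE c x n z k := by
  classical
  obtain ⟨m, hm⟩ := Pool.Agent.helper40.FP.exists_box ({x, z} : Finset (V d))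
  exact wkE_of_rtg hE c
    (Pool.Agent.helper40.FP.box_conn m x (hm (by simp)) z (hm (by simp))).2

theorem exists_minTo (hE : Nonempty (E d)) (c : E d → ℕ) (x : V d) {I : Set (V d)}
    (hI : I.Nonempty) : ∃ n z, MinTo c x I n z := by
  classical
  have h : ∃ k, ∃ n z, WkE c x n z k ∧ z ∈ I := by
    obtain ⟨z, hz⟩ := hI
    obtain ⟨n, k, hk⟩ := exists_wkE hE c x z
    exact ⟨k, n, z, hk, hz⟩
  obtain ⟨n, z, h1, h2⟩ := Nat.find_spec h
  refine ⟨n, z, (minTo_iff c x I n z).2 ⟨_, h1, h2, fun n' z' k' h3 h4 => ?_⟩⟩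
  exact Nat.find_min' h ⟨n', z', h3, h4⟩

theorem exists_Sb_of_rtg {O : Set (E d)} {a b : V d}
    (h : Relation.ReflTransGen (Step O univ) a b) : ∃ j, b ∈ Sb O univ a j := by
  induction h with
  | refl => exact ⟨0, by simp [Sb]⟩
  | tail _ hs ih =>
    obtain ⟨j, hj⟩ := ih
    exact ⟨j + 1, Or.inr ⟨_, hj, hs⟩⟩

theorem inf_mono {q₀ q : ℝ} (h : q₀ ≤ q) (U : Cfg d) : Inf q₀ U ⊆ Inf q U := by
  intro z hz
  exact Set.Infinite.mono (fun b hb => Conn.mono (op_mono h U) subset_rfl hb) hz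

theorem nonempty_E_of_inf {O : Set (E d)} {a : V d} (h : (Cl O univ a).Infinite) :
    Nonempty (E d) := by
  obtain ⟨b, hb, hne⟩ := h.exists_notMem_finset {a}
  have h2 := hb.2
  rcases Relation.ReflTransGen.cases_tail h2 with h3 | ⟨c, _, h3⟩
  · exact absurd (by rw [h3]; simp) hne
  · exact ⟨h3.2.2.choose⟩

end LenProb_aux

open LenProb_aux in
theorem len_prob {a : ℕ} {pc : ℝ} (h : HD d a pc) {q q₀ : ℝ} (hq₀ : pc < q₀) (hq : q₀ ≤ q)
    (hq1 : q < 1) (c : ℝ → ℕ) (hc : Measurable c) (x y : V d) (ε : ℝ) (hε : 0 < ε) :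
    ∃ m : ℕ, 1 ≤ m ∧ (P d).real {U : Cfg d | ¬ (
      Len1 (fun e => c (U e)) (op q U) x (Inf q U) (Inf q₀ U) m ∧
      Len1 (fun e => c (U e)) (op q U) y (Inf q U) (Inf q₀ U) m ∧
      Len2 (fun e => c (U e)) (op q U) x y (Inf q U) m)} ≤ ε := by
  set G : ℕ → Set (Cfg d) := fun m => {U : Cfg d |
      Len1 (fun e => c (U e)) (op q U) x (Inf q U) (Inf q₀ U) m ∧
      Len1 (fun e => c (U e)) (op q U) y (Inf q U) (Inf q₀ U) m ∧
      Len2 (fun e => c (U e)) (op q U) x y (Inf q U) m} with hG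
  have hGm : ∀ m, MeasurableSet (G m) := fun m =>
    (meas_Len1 hc x q q₀ m).inter ((meas_Len1 hc y q q₀ m).inter (meas_Len2 hc x y q m))
  have hmono : Monotone G := by
    rintro m m' hm U ⟨⟨n, z, j, h1, h2, h3⟩, ⟨n', z', j', h1', h2', h3'⟩,
      ⟨k, v, k', v', i, g1, g2, g3, g4⟩⟩
    exact ⟨⟨n, z, j, h1, h2, h3.trans_le hm⟩, ⟨n', z', j', h1', h2', h3'.trans_le hm⟩,
      ⟨k, v, k', v', i, g1, g2, g3, g4.trans_le hm⟩⟩
  have hq00 : 0 < q := h.pos.trans (hq₀.trans_le hq)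
  have hθ : 0 < theta d q₀ := by
    obtain ⟨c0, hc0, hlb⟩ := h.theta_lb
    have := hlb (q₀ - pc) (sub_pos.2 hq₀) (by linarith)
    rw [add_sub_cancel] at this
    exact (mul_pos hc0 (sub_pos.2 hq₀)).trans_le this
  have hae : ∀ᵐ U ∂(P d), U ∈ ⋃ m, G m := by
    filter_upwards [uniqueness hq00 hq1, exists_inf_cluster hθ] with U hu hex
    obtain ⟨b, hb⟩ := hex
    have hE : Nonempty (E d) := nonempty_E_of_inf hb
    have hb0 : b ∈ Inf q₀ U := hb
    have hbq : b ∈ Inf q U := inf_mono hq U hb0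
    obtain ⟨n, z, h1⟩ := exists_minTo hE (fun e => c (U e)) x ⟨b, hbq⟩
    obtain ⟨n', z', h2⟩ := exists_minTo hE (fun e => c (U e)) y ⟨b, hbq⟩
    have hz : z ∈ Inf q U := by
      obtain ⟨_, _, h3⟩ := (minTo_iff _ _ _ _ _).1 h1
      exact h3.1
    have hz' : z' ∈ Inf q U := by
      obtain ⟨_, _, h3⟩ := (minTo_iff _ _ _ _ _).1 h2
      exact h3.1
    obtain ⟨j, hj⟩ := exists_Sb_of_rtg (hu z b hz hbq).2
    obtain ⟨j', hj'⟩ := exists_Sb_of_rtg (hu z' b hz' hbq).2
    obtain ⟨i, hi⟩ := exists_Sb_of_rtg (hu z z' hz hz').2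
    refine mem_iUnion.2 ⟨n + n' + j + j' + i + 1, ⟨n, z, j, h1, ⟨b, hj, hb0⟩, by omega⟩,
      ⟨n', z', j', h2, ⟨b, hj', hb0⟩, by omega⟩, ⟨n, z, n', z', i, h1, h2, hi, by omega⟩⟩
  have hP : P d (⋃ m, G m) = 1 := by
    have h1 : P d (⋃ m, G m)ᶜ = 0 := hae
    exact (prob_compl_eq_zero_iff (MeasurableSet.iUnion hGm)).1 h1
  have hlim := tendsto_measure_iUnion_atTop (μ := P d) hmono
  rw [hP] at hlim
  have hlim2 : Tendsto (fun m => (P d).real (G m)) atTop (𝓝 1) := by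
    have := (ENNReal.tendsto_toReal ENNReal.one_ne_top).comp hlim
    simpa [Measure.real, Function.comp_def] using this
  have hev : ∀ᶠ m in atTop, 1 - ε < (P d).real (G m) :=
    hlim2.eventually (lt_mem_nhds (by linarith))
  obtain ⟨m, hm1, hm2⟩ := (hev.and (eventually_ge_atTop 1)).exists
  refine ⟨m, hm2, ?_⟩
  have e : {U : Cfg d | ¬ (
      Len1 (fun e => c (U e)) (op q U) x (Inf q U) (Inf q₀ U) m ∧
      Len1 (fun e => c (U e)) (op q U) y (Inf q U) (Inf q₀ U) m ∧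
      Len2 (fun e => c (U e)) (op q U) x y (Inf q U) m)} = (G m)ᶜ := rfl
  rw [e, probReal_compl_eq_one_sub (hGm m)]
  linarith

end Pool.Agent.helper55.FP
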