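import Pool.Agent.helper55.FP.NDefs
import Pool.Agent.helper55.FP.Conn
import Pool.Agent.helper55.FP.Balls
import Pool.Agent.helper55.FP.Costs

/-!
# FP project, module Levels: deterministic structure of the levels (MP_716210_pr)
-/

set_option autoImplicit false

open MeasureTheory Set Filter Topology
open scoped ENNReal

namespace Pool.Agent.helper55.FP

variable {d : ℕ}

/-! ## Clusters -/

theorem inf_anti {p q : ℝ} (h : p ≤ q) (U : Cfg d) : Inf p U ⊆ Inf q U := by
  intro z hz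
  exact hz.mono fun b hb => Conn.mono (op_mono h U) (Set.Subset.refl _) hb

private theorem inf_of_conn {p : ℝ} {U : Cfg d} {a b : V d} (h : Conn (op p U) univ a b)
    (ha : a ∈ Inf p U) : b ∈ Inf p U :=
  Set.Infinite.mono (fun _ hx => h.symm.trans hx) ha

/-! ## Walks -/

private theorem wcost_mono (c : E d → ℕ) (e : ℕ → E d) {i j : ℕ} (h : i ≤ j) :
    wcost c i e ≤ wcost c j e :=
  Finset.sum_le_sum_of_subset (Finset.range_mono h)

private theorem wcost_succ (c : E d → ℕ) (e : ℕ → E d) (i : ℕ) :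
    wcost c (i + 1) e = wcost c i e + c (e i) := Finset.sum_range_succ _ _

/-- if the cost does not increase between `i` and `n`, the edges in between are free -/
private theorem free_of_le {c : E d → ℕ} {e : ℕ → E d} {i n : ℕ}
    (h : wcost c n e ≤ wcost c i e) {j : ℕ} (hij : i ≤ j) (hjn : j < n) : c (e j) = 0 := by
  have h1 := wcost_mono c e hij
  have h2 := wcost_mono c e hjn
  rw [Nat.succ_eq_add_one, wcost_succ] at h2
  omega

private theorem Wk.mem_bl {c : E d → ℕ} {n : ℕ} {w : ℕ → V d} {e : ℕ → E d}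
    (h : Wk univ n w e) {i : ℕ} (hi : i ≤ n) {t : ℕ} (ht : wcost c i e ≤ t) :
    w i ∈ Bl c univ (w 0) t :=
  ⟨i, w, e, ⟨fun _ _ => mem_univ _, fun j hj => h.2 j (hj.trans_le hi)⟩, rfl, rfl, ht⟩

/-- a walk along open edges stays in the cluster -/
private theorem conn_of_free {O : Set (E d)} {n : ℕ} {w : ℕ → V d} {e : ℕ → E d}
    (h : Wk univ n w e) {i : ℕ} (hO : ∀ j, i ≤ j → j < n → e j ∈ O) {m : ℕ} (him : i ≤ m)
    (hm : m ≤ n) : Conn O univ (w i) (w m) := by
  induction m, him using Nat.le_induction with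
  | base => exact Conn.refl (mem_univ _)
  | succ m him ih =>
    exact (ih (by omega)).snoc ⟨mem_univ _, mem_univ _, e m, hO m him (by omega), h.2 m (by omega)⟩

private theorem neZero_of_len {c : E d → ℕ} {O : Set (E d)} {x : V d} {I I' : Set (V d)} {m : ℕ}
    (h : Len1 c O x I I' m) : NeZero d := by
  obtain ⟨n, z, j, ⟨w, e, -⟩, -⟩ := h
  exact ⟨fun hd => by subst hd; exact Fin.elim0 (e 0).2⟩

private theorem neZero_of_inf {p : ℝ} {U : Cfg d} (h : (Inf p U).Nonempty) : NeZero d := by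
  obtain ⟨z, hz⟩ := h
  refine ⟨fun hd => ?_⟩
  subst hd
  exact hz (Set.toFinite _)

/-! ## Hitting times -/

section Early

variable {pl : ℕ → ℝ} {M : ℕ → ℕ} {U : Cfg d} {y : V d}

/-- the cost `s` is not larger than the hitting time of the infinite cluster of level `k` -/
private def Early (pl : ℕ → ℝ) (M : ℕ → ℕ) (U : Cfg d) (y : V d) (k s : ℕ) : Prop :=
  ∀ t, (Bl (cE pl M k U) univ y t ∩ Inf (pl k) U).Nonempty → s ≤ t

/-- points of `Sb` are reached by short open walks -/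
private theorem sb_bl {c : E d → ℕ} {O : Set (E d)} (hc : ∀ e ∈ O, c e ≤ 1) {x b : V d} {t : ℕ}
    (hb : b ∈ Bl c univ x t) (m : ℕ) : ∀ z ∈ Sb O univ b m, z ∈ Bl c univ x (t + m) := by
  induction m with
  | zero =>
    intro z hz
    rw [hz.1]
    exact hb
  | succ m ih =>
    rintro z (hz | ⟨a, ha, -, -, e, he, hj⟩)
    · exact bl_mono c univ x (by omega) (ih z hz)
    · have h1 := bl_step (ih a ha) (mem_univ z) hj
      exact bl_mono c univ x (by have := hc e he; omega) h1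

/-- the main estimate between consecutive levels -/
private theorem early_lower (hpl : StrictAnti pl) (hM : ∀ k, 1 ≤ M k) {k : ℕ}
    (hlen : Len1 (cE pl M k U) (op (pl k) U) y (Inf (pl k) U) (Inf (pl (k + 1)) U) (M k))
    {n : ℕ} {e : ℕ → E d} (h : Early pl M U y (k + 1) (wcost (cE pl M (k + 1) U) n e)) :
    Early pl M U y k (wcost (cE pl M k U) n e) := by
  obtain ⟨n0, z0, j, ⟨w0, e0, hw0, hw0y, hw0z, hz0, hmin⟩, ⟨z', hz', hz'I⟩, hnj⟩ := hlen
  -- the cost of the extended walk at level `k + 1`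
  have h1 : wcost (cE pl M (k + 1) U) n0 e0 ≤ M k * wcost (cE pl M k U) n0 e0 + n0 := by
    unfold wcost
    rw [Finset.mul_sum]
    have : ∑ i ∈ Finset.range n0, cE pl M (k + 1) U (e0 i) ≤
        ∑ i ∈ Finset.range n0, (M k * cE pl M k U (e0 i) + 1) :=
      Finset.sum_le_sum fun i _ => cst_succ_le hpl M k (U (e0 i))
    refine this.trans (le_of_eq ?_)
    rw [Finset.sum_add_distrib, Finset.sum_const, Finset.card_range, smul_eq_mul, mul_one]
  have h2 : z0 ∈ Bl (cE pl M (k + 1) U) univ y (M k * wcost (cE pl M k U) n0 e0 + n0) := by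
    rw [← hw0y, ← hw0z]
    exact Wk.mem_bl hw0 le_rfl h1
  have hfree : ∀ e ∈ op (pl k) U, cE pl M (k + 1) U e ≤ 1 := by
    intro e he
    have h3 := cst_succ_le hpl M k (U e)
    rw [(cst_eq_zero hpl hM k (U e)).2 he, mul_zero, zero_add] at h3
    exact h3
  have h4 := sb_bl hfree h2 j z' hz'
  have h5 := h _ ⟨z', h4, hz'I⟩
  -- divide by `M k`
  have h6 : M k * wcost (cE pl M k U) n e ≤ wcost (cE pl M (k + 1) U) n e := by
    unfold wcost
    rw [Finset.mul_sum]
    exact Finset.sum_le_sum fun i _ => cst_succ_ge hpl M k (U (e i))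
  have h7 : wcost (cE pl M k U) n e ≤ wcost (cE pl M k U) n0 e0 := by
    by_contra hlt
    push Not at hlt
    have h8 : M k * (wcost (cE pl M k U) n0 e0 + 1) ≤ M k * wcost (cE pl M k U) n e :=
      Nat.mul_le_mul_left _ hlt
    rw [mul_add, mul_one] at h8
    omega
  rintro t ⟨u, ⟨n', w', e', hw', hw'y, hw'u, ht⟩, hu⟩
  have h9 := hmin n' w' e' hw' hw'y (by rw [hw'u]; exact hu)
  omega

end Early

/-- a vertex reached before hitting level `k+1` is reached before hitting level `k`, or lies in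
the infinite cluster of level `k` -/
theorem abar_lower {pl : ℕ → ℝ} (hpl : StrictAnti pl) {M : ℕ → ℕ} (hM : ∀ k, 1 ≤ M k)
    {U : Cfg d} {y : V d} {k : ℕ}
    (hlen : Len1 (cE pl M k U) (op (pl k) U) y (Inf (pl k) U) (Inf (pl (k + 1)) U) (M k))
    {z : V d} (hz : z ∈ Abar pl M (k + 1) U y) : z ∈ Abar pl M k U y ∨ z ∈ Inf (pl k) U := by
  by_cases hzI : z ∈ Inf (pl k) U
  · exact Or.inr hzI
  left
  haveI := neZero_of_len hlen
  refine ⟨hzI, fun t ht => ?_⟩
  obtain ⟨t0, ht0⟩ := exists_mem_bl (cE pl M (k + 1) U) y z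
  obtain ⟨n, w, e, hopt, hwy, hwz, -⟩ := exists_optW _ _ _ _ _ ht0
  have hE : Early pl M U y (k + 1) (wcost (cE pl M (k + 1) U) n e) := by
    intro t' ht'
    obtain ⟨n', w', e', hw', h0', hn', hc'⟩ := hz.2 t' ht'
    have := hopt.2 n' w' e' hw' (h0'.trans hwy.symm) (hn'.trans hwz.symm)
    omega
  have h1 := early_lower hpl hM hlen hE t ht
  rw [← hwy, ← hwz]
  exact Wk.mem_bl hopt.1 le_rfl h1

/-- structure of the optimal walk to a vertex of `Abar` -/
theorem level_walk {pl : ℕ → ℝ} (hpl : StrictAnti pl) {M : ℕ → ℕ} (hM : ∀ k, 1 ≤ M k)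
    {U : Cfg d} {y : V d}
    (hlen : ∀ k, Len1 (cE pl M k U) (op (pl k) U) y (Inf (pl k) U) (Inf (pl (k + 1)) U) (M k))
    {k : ℕ} {z : V d} (hz : z ∈ Abar pl M k U y) :
    ∃ n w e, OptW (cE pl M k U) univ n w e ∧ w 0 = y ∧ w n = z ∧
      (∀ i ≤ n, w i ∈ Abar pl M k U y) ∧
      (∀ j ≤ k, ∀ i ≤ n, w i ∈ Inf (pl j) U → ∀ i', i ≤ i' → i' < n → U (e i') ≤ pl j) ∧
      (∀ j ≤ k, ∀ i ≤ n, w i ∈ Inf (pl j) U → (∀ i' < i, w i' ∉ Inf (pl j) U) →
        ∃ B, Ent (cE pl M j U) univ y B (w i) ∧ Disjoint B (Inf (pl j) U) ∧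
          (B = ∅ ∨ ∃ t, B = Bl (cE pl M j U) univ y t)) := by
  haveI := neZero_of_len (hlen 0)
  obtain ⟨t0, ht0⟩ := exists_mem_bl (cE pl M k U) y z
  obtain ⟨n, w, e, hopt, hwy, hwz, -⟩ := exists_optW _ _ _ _ _ ht0
  have hE : Early pl M U y k (wcost (cE pl M k U) n e) := by
    intro t' ht'
    obtain ⟨n', w', e', hw', h0', hn', hc'⟩ := hz.2 t' ht'
    have := hopt.2 n' w' e' hw' (h0'.trans hwy.symm) (hn'.trans hwz.symm)
    omega
  -- all levels
  have hEj : ∀ i, ∀ j, j + i = k → Early pl M U y j (wcost (cE pl M j U) n e) := by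
    intro i
    induction i with
    | zero => intro j hj; obtain rfl : j = k := by omega
              exact hE
    | succ i ih =>
      intro j hj
      exact early_lower hpl hM (hlen j) (ih (j + 1) (by omega))
  have hEj' : ∀ j ≤ k, Early pl M U y j (wcost (cE pl M j U) n e) := fun j hj =>
    hEj (k - j) j (by omega)
  -- after a vertex of the infinite cluster of level `j` the walk is free at level `j`
  have hfree : ∀ j ≤ k, ∀ i ≤ n, w i ∈ Inf (pl j) U →
      wcost (cE pl M j U) n e ≤ wcost (cE pl M j U) i e := by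
    intro j hj i hi hiI
    refine hEj' j hj _ ⟨w i, ?_, hiI⟩
    rw [← hwy]
    exact Wk.mem_bl hopt.1 hi le_rfl
  have hopen : ∀ j ≤ k, ∀ i ≤ n, w i ∈ Inf (pl j) U → ∀ i', i ≤ i' → i' < n →
      U (e i') ≤ pl j := by
    intro j hj i hi hiI i' hii' hi'n
    exact (cst_eq_zero hpl hM j _).1 (free_of_le (hfree j hj i hi hiI) hii' hi'n)
  refine ⟨n, w, e, hopt, hwy, hwz, ?_, hopen, ?_⟩
  · intro i hi
    refine ⟨fun hiI => hz.1 ?_, fun t ht => ?_⟩
    · rw [← hwz]
      exact inf_of_conn (conn_of_free hopt.1 (fun j hj hjn => hopen k le_rfl i hi hiI j hj hjn)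
        hi le_rfl) hiI
    · rw [← hwy]
      exact Wk.mem_bl hopt.1 hi ((wcost_mono _ e hi).trans (hE t ht))
  · intro j hj i hi hiI hfirst
    rcases Nat.eq_zero_or_pos i with rfl | hpos
    · exact ⟨∅, Or.inl ⟨rfl, hwy, mem_univ _⟩, empty_disjoint _, Or.inl rfl⟩
    obtain ⟨i1, rfl⟩ : ∃ i1, i = i1 + 1 := ⟨i - 1, by omega⟩
    have hi1 : w i1 ∉ Inf (pl j) U := hfirst i1 (by omega)
    have hj1 : Joins (e i1) (w i1) (w (i1 + 1)) := hopt.1.2 i1 (by omega)
    have hcost : 1 ≤ cE pl M j U (e i1) := by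
      by_contra h0
      have h1 : cst pl M j (U (e i1)) = 0 := by
        have : cE pl M j U (e i1) = 0 := by omega
        exact this
      have h2 : e i1 ∈ op (pl j) U := (cst_eq_zero hpl hM j _).1 h1
      refine hi1 (inf_of_conn (?_ : Conn (op (pl j) U) univ (w (i1 + 1)) (w i1)) hiI)
      exact (Conn.refl (mem_univ _)).snoc ⟨mem_univ _, mem_univ _, e i1, h2, hj1.symm⟩
    have hT : wcost (cE pl M j U) (i1 + 1) e = wcost (cE pl M j U) i1 e + cE pl M j U (e i1) :=
      wcost_succ _ _ _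
    -- the ball before the hitting time
    have hdis : Disjoint (Bl (cE pl M j U) univ y (wcost (cE pl M j U) (i1 + 1) e - 1))
        (Inf (pl j) U) := by
      rw [Set.disjoint_left]
      intro u hu huI
      have h3 := hEj' j hj _ ⟨u, hu, huI⟩
      have h4 := wcost_mono (cE pl M j U) e hi
      omega
    refine ⟨_, Or.inr ⟨_, rfl, ⟨mem_univ _, ?_⟩, w i1, ?_, e i1, hj1⟩, hdis, Or.inr ⟨_, rfl⟩⟩
    · exact fun h => Set.disjoint_left.1 hdis h hiI
    · rw [← hwy]
      exact Wk.mem_bl hopt.1 (by omega) (by omega)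

/-- every vertex of `Abar` lies in a piece of size `≤ 2 N` contained in `Abar` -/
theorem abar_piece {pl : ℕ → ℝ} (hpl : StrictAnti pl) {M : ℕ → ℕ} (hM : ∀ k, 1 ≤ M k)
    {U : Cfg d} {x : V d} {k N : ℕ} (hV : GoodV (cE pl M k U) (op (pl k) U) x N)
    (hne : (Inf (d := d) (pl k) U).Nonempty) {v : V d} (hv : v ∈ Abar pl M k U x) :
    ∃ F, Pc (cE pl M k U) (op (pl k) U) univ x F ∧ v ∈ F ∧ F ⊆ Abar pl M k U x ∧
      F.encard ≤ (2 * N : ℕ) := by
  classical
  haveI := neZero_of_inf hne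
  obtain ⟨g, -, hg1, -, hg⟩ := cst_profile hpl hM k
  have hc : cE pl M k U = costE g (pl k) U := funext fun e => hg (U e)
  -- the cluster of `v` consists of vertices outside of the infinite cluster
  have hconn : ∀ u, Conn (op (pl k) U) univ u v → u ∉ Inf (pl k) U := fun u hu huI =>
    hv.1 (inf_of_conn hu huI)
  obtain ⟨s, hs, hsmin⟩ : ∃ s, v ∈ Bl (cE pl M k U) univ x s ∧
      ∀ t, v ∈ Bl (cE pl M k U) univ x t → s ≤ t :=
    ⟨Nat.find (exists_mem_bl (cE pl M k U) x v), Nat.find_spec (exists_mem_bl _ x v),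
      fun t ht => Nat.find_min' _ ht⟩
  rcases Nat.eq_zero_or_pos s with rfl | hpos
  · -- `v` is in the cluster of `x`
    have hB0 : Bl (cE pl M k U) univ x 0 = Cl (op (pl k) U) univ x := by
      rw [hc]; exact bl_zero hg1
    rw [hB0] at hs
    have hxv : Conn (op (pl k) U) univ x v := hs
    have hF : (∅ : Set (V d)) ∪ Cl (op (pl k) U) (univ \ ∅) x = Cl (op (pl k) U) univ x := by
      rw [empty_union, Set.sdiff_empty]
    refine ⟨Cl (op (pl k) U) univ x, ⟨∅, x, Or.inl ⟨rfl, rfl, mem_univ _⟩, hF.symm⟩, hs, ?_, ?_⟩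
    · intro u hu
      refine ⟨hconn u (hu.symm.trans hxv), fun t _ => ?_⟩
      rw [← hB0] at hu
      exact bl_mono _ _ _ (Nat.zero_le t) hu
    · have h1 := (hV 0 (fun z hz => by
        rw [hB0] at hz
        exact hconn z (Conn.symm hz |>.trans hxv))).1
      rw [hB0] at h1
      refine h1.trans ?_
      exact_mod_cast (by omega : N ≤ 2 * N)
  · obtain ⟨s', rfl⟩ : ∃ s', s = s' + 1 := ⟨s - 1, by omega⟩
    have hnot : v ∉ Bl (cE pl M k U) univ x s' := fun h => by have := hsmin s' h; omega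
    have hsucc := hs
    rw [hc] at hsucc hnot
    obtain ⟨b, ⟨-, hbB⟩, ⟨a, haB, hab⟩, hbv, hbs⟩ := bl_succ hg1 hsucc hnot
    rw [← hc] at hbB haB hbv hbs hnot
    set B := Bl (cE pl M k U) univ x s' with hBdef
    have hbv' : Conn (op (pl k) U) univ b v := hbv.mono (Set.Subset.refl _) (subset_univ _)
    -- times when the infinite cluster is hit are `≥ s' + 1`
    have hhit : ∀ t, (Bl (cE pl M k U) univ x t ∩ Inf (pl k) U).Nonempty → s' + 1 ≤ t :=
      fun t ht => hsmin t (hv.2 t ht)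
    have hBI : ∀ z ∈ B, z ∉ Inf (pl k) U := fun z hz hzI => by
      have := hhit s' ⟨z, hz, hzI⟩
      omega
    obtain ⟨hBN, hbdN⟩ := hV s' hBI
    have hbbd : b ∈ bd B := ⟨hbB, a, haB, hab⟩
    have hbN : (Cl (op (pl k) U) univ b).encard ≤ N :=
      (hbdN b hbbd).resolve_right (hconn b hbv')
    refine ⟨B ∪ Cl (op (pl k) U) (univ \ B) b,
      ⟨B, b, Or.inr ⟨s', rfl, ⟨mem_univ _, hbB⟩, a, haB, hab⟩, rfl⟩, Or.inr hbv, ?_, ?_⟩
    · rintro u (hu | hu)
      · exact ⟨hBI u hu, fun t ht => bl_mono _ _ _ (by have := hhit t ht; omega) hu⟩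
      · have hu' : Conn (op (pl k) U) univ b u := Conn.mono (Set.Subset.refl _) (subset_univ _) hu
        refine ⟨hconn u (hu'.symm.trans hbv'), fun t ht => ?_⟩
        have h1 : u ∈ Bl (cE pl M k U) univ x (s' + 1) := by
          rw [hc] at hbs ⊢
          exact bl_closed hbs hu'
        exact bl_mono _ _ _ (hhit t ht) h1
    · have h1 : (Cl (op (pl k) U) (univ \ B) b).encard ≤ N :=
        (encard_le_encard fun u hu => Conn.mono (Set.Subset.refl _) (subset_univ _) hu).trans hbN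
      refine (encard_union_le _ _).trans ((add_le_add hBN h1).trans ?_)
      rw [two_mul]
      push_cast
      exact le_rfl

end Pool.Agent.helper55.FP
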