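import Pool.Agent.helper55.FP.Defs

/-!
# FP project, parts N and F: exits, first-passage balls, explorations, levels
-/

set_option autoImplicit false

open MeasureTheory Set

namespace Pool.Agent.helper55.FP

variable {d : ℕ}

/-! ## Part N -/

/-- outer vertex boundary -/
def bd (F : Set (V d)) : Set (V d) := {b | b ∉ F ∧ ∃ a ∈ F, Adj a b}

/-- exits of `S` in `W`: directed boundary edges leading to an infinite cluster of `W \ S` -/
def Exits (O : Set (E d)) (W S : Set (V d)) : Set (V d × V d) :=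
  {x | x.1 ∈ S ∧ x.2 ∈ W \ S ∧ Adj x.1 x.2 ∧ (Cl O (W \ S) x.2).Infinite}

/-- exits of `S` in `W` towards the target set `Γ` -/
def ExitsTo (O : Set (E d)) (W S Γ : Set (V d)) : Set (V d × V d) :=
  {x | x.1 ∈ S ∧ x.2 ∈ W \ S ∧ Adj x.1 x.2 ∧ ∃ g ∈ Γ, Conn O (W \ S) x.2 g}

/-- `E[|C(0)| ∧ n]` -/
noncomputable def ecap (d : ℕ) (p : ℝ) (n : ℕ) : ℝ := ∑ j ∈ Finset.Icc 1 n, tail d p j

/-! ## First passage: walks and balls -/

/-- a walk `w 0, …, w n` in `W` with edges `e 0, …, e (n-1)` -/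
def Wk (W : Set (V d)) (n : ℕ) (w : ℕ → V d) (e : ℕ → E d) : Prop :=
  (∀ i ≤ n, w i ∈ W) ∧ ∀ i < n, Joins (e i) (w i) (w (i + 1))

/-- cost of a walk -/
def wcost (c : E d → ℕ) (n : ℕ) (e : ℕ → E d) : ℕ := ∑ i ∈ Finset.range n, c (e i)

/-- first-passage ball of radius `t` around `x`, walks in `W` -/
def Bl (c : E d → ℕ) (W : Set (V d)) (x : V d) (t : ℕ) : Set (V d) :=
  {z | ∃ n w e, Wk W n w e ∧ w 0 = x ∧ w n = z ∧ wcost c n e ≤ t}

/-- (cost, number of steps)-lexicographically optimal walk -/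
def OptW (c : E d → ℕ) (W : Set (V d)) (n : ℕ) (w : ℕ → V d) (e : ℕ → E d) : Prop :=
  Wk W n w e ∧ ∀ n' w' e', Wk W n' w' e' → w' 0 = w 0 → w' n' = w n →
    wcost c n e < wcost c n' e' ∨ (wcost c n e = wcost c n' e' ∧ n ≤ n')

/-- vertices reached from `b` in at most `m` open steps inside `W` -/
def Sb (O : Set (E d)) (W : Set (V d)) (b : V d) : ℕ → Set (V d)
  | 0 => {b} ∩ W
  | (m + 1) => Sb O W b m ∪ {v | ∃ a ∈ Sb O W b m, Step O W a v}

/-- cost profile: free below `q`, cost `g u` above -/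
noncomputable def cost (g : ℝ → ℕ) (q : ℝ) (u : ℝ) : ℕ := by
  classical exact if u ≤ q then 0 else g u

/-- edge costs in the configuration `U` -/
noncomputable def costE (g : ℝ → ℕ) (q : ℝ) (U : Cfg d) : E d → ℕ := fun e => cost g q (U e)

/-- `(B,b)`: either `B = ∅`, `b = x`, or `B` is a ball around `x` and `b` is adjacent to it -/
def Ent (c : E d → ℕ) (W : Set (V d)) (x : V d) (B : Set (V d)) (b : V d) : Prop :=
  (B = ∅ ∧ b = x ∧ x ∈ W) ∨ (∃ t, B = Bl c W x t ∧ b ∈ W \ B ∧ ∃ a ∈ B, Adj a b)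

/-- visited pairs of the exploration: `A` is the explored set, `z` the next vertex -/
def Vis (c : E d → ℕ) (O : Set (E d)) (W : Set (V d)) (x : V d) (A : Set (V d)) (z : V d) : Prop :=
  ∃ B b, Ent c W x B b ∧ ((A = B ∧ z = b) ∨
    ∃ m, A = B ∪ Sb O (W \ B) b m ∧ z ∈ Sb O (W \ B) b (m + 1) \ Sb O (W \ B) b m)

/-- pieces: a ball and one open cluster attached to it -/
def Pc (c : E d → ℕ) (O : Set (E d)) (W : Set (V d)) (x : V d) (F : Set (V d)) : Prop :=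
  ∃ B b, Ent c W x B b ∧ F = B ∪ Cl O (W \ B) b

/-- volume control of the exploration of `x` until it hits an infinite cluster of `O` -/
def GoodV (c : E d → ℕ) (O : Set (E d)) (x : V d) (N : ℕ) : Prop :=
  ∀ t, (∀ z ∈ Bl c univ x t, ¬ (Cl O univ z).Infinite) →
    (Bl c univ x t).encard ≤ N ∧
      ∀ b ∈ bd (Bl c univ x t), (Cl O univ b).encard ≤ N ∨ (Cl O univ b).Infinite

/-- closed sup-norm ball -/
def nb (u : V d) (r : ℕ) : Set (V d) := {v | ‖v - u‖ ≤ r}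

/-- far contact: the exploration of `x` (off the piece `F` of `xF`) reaches the boundary of `F`
from distance `> r` -/
def MeetA (cF : E d → ℕ) (OF : Set (E d)) (xF : V d) (c : E d → ℕ) (O : Set (E d)) (x : V d)
    (O₁ : Set (E d)) (r N : ℕ) : Prop :=
  ∃ F, Pc cF OF univ xF F ∧ F.encard ≤ N ∧ ∃ u ∈ bd F, ∃ A z, Vis c O Fᶜ x A z ∧ A.encard ≤ N ∧
    (r : ℝ) < ‖z - u‖ ∧ Conn O₁ ((F ∪ A)ᶜ ∩ (nb u r ∪ {z})) z u

/-- contact through a vertex `b` reached from distance `> r'` -/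
def MeetB (cF : E d → ℕ) (OF : Set (E d)) (xF : V d) (c : E d → ℕ) (O : Set (E d)) (x : V d)
    (O₁ O₂ : Set (E d)) (r r' N : ℕ) : Prop :=
  ∃ F, Pc cF OF univ xF F ∧ F.encard ≤ N ∧ ∃ u ∈ bd F, ∃ A z, Vis c O Fᶜ x A z ∧ A.encard ≤ N ∧
    ∃ b, (r' : ℝ) < ‖z - b‖ ∧ ∃ K ∈ cw ((F ∪ A)ᶜ ∩ (nb b r' ∪ {z})) z b,
      ∃ L ∈ cw ((F ∪ A)ᶜ ∩ nb u r) b u, Disjoint K L ∧ (↑K : Set (E d)) ⊆ O₂ ∧ (↑L : Set (E d)) ⊆ O₁

/-- an infinite cluster of `O₁` is entered close to the entrance point `b'` of the previous level -/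
def Near (c : E d → ℕ) (O₂ O₁ : Set (E d)) (x : V d) (r N : ℕ) : Prop :=
  ∃ B b', Ent c univ x B b' ∧ B.encard ≤ N ∧ ∃ b, (Cl O₁ Bᶜ b).Infinite ∧
    ∃ K ∈ cw (Bᶜ ∩ nb b r) b' b, (↑K : Set (E d)) ⊆ O₂ ∧
      ∀ e ∈ K, e.1 ∉ Cl O₁ Bᶜ b ∨ tip e ∉ Cl O₁ Bᶜ b

/-- event: a ball of size `≤ N` around `x` has a boundary vertex with a finite cluster of size
`≥ m`, or the cluster of `x` itself is finite of size `≥ m` -/
def GB (g : ℝ → ℕ) (q : ℝ) (x : V d) (N : ℕ) (m : ℝ) : Set (Cfg d) :=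
  {U | (∃ D : Finset (V d), D.card ≤ N ∧ (∃ t, Bl (costE g q U) univ x t = ↑D) ∧
    ∃ b ∈ bd (↑D : Set (V d)), (Cl (op q U) (↑D)ᶜ b).Finite ∧
      m ≤ ((Cl (op q U) (↑D)ᶜ b).ncard : ℝ)) ∨
    ((Cl (op q U) univ x).Finite ∧ m ≤ ((Cl (op q U) univ x).ncard : ℝ))}

/-! ## Part F: levels -/

/-- integer costs of level `k`: free below `pl k` -/
noncomputable def cst (pl : ℕ → ℝ) (M : ℕ → ℕ) : ℕ → ℝ → ℕ
  | 0, u => by classical exact if u ≤ pl 0 then 0 else 1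
  | (k + 1), u => by
      classical exact if u ≤ pl (k + 1) then 0 else if u ≤ pl k then 1 else M k * cst pl M k u

noncomputable def cE (pl : ℕ → ℝ) (M : ℕ → ℕ) (k : ℕ) (U : Cfg d) : E d → ℕ :=
  fun e => cst pl M k (U e)

/-- vertices in an infinite cluster at level `q` -/
def Inf (q : ℝ) (U : Cfg d) : Set (V d) := {z | (Cl (op q U) univ z).Infinite}

/-- vertices outside the infinite cluster reached not later than the infinite cluster -/
def Abar (pl : ℕ → ℝ) (M : ℕ → ℕ) (k : ℕ) (U : Cfg d) (x : V d) : Set (V d) :=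
  {z | z ∉ Inf (pl k) U ∧
    ∀ t, (Bl (cE pl M k U) univ x t ∩ Inf (pl k) U).Nonempty → z ∈ Bl (cE pl M k U) univ x t}

/-- two sets touch: they meet or contain adjacent vertices -/
def Touch (S T : Set (V d)) : Prop := ∃ v ∈ S, ∃ u ∈ T, v = u ∨ Adj v u

/-- minimal walk (cost `c`) from `x` to the set `I`, with `n` steps -/
def MinTo (c : E d → ℕ) (x : V d) (I : Set (V d)) (n : ℕ) (z : V d) : Prop :=
  ∃ w e, Wk univ n w e ∧ w 0 = x ∧ w n = z ∧ z ∈ I ∧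
    ∀ n' w' e', Wk univ n' w' e' → w' 0 = x → w' n' ∈ I → wcost c n e ≤ wcost c n' e'

/-- lengths are smaller than `m`: minimal walk from `x` to `I`, then to `I'` inside `O` -/
def Len1 (c : E d → ℕ) (O : Set (E d)) (x : V d) (I I' : Set (V d)) (m : ℕ) : Prop :=
  ∃ n z j, MinTo c x I n z ∧ (∃ z' ∈ Sb O univ z j, z' ∈ I') ∧ n + j < m

/-- lengths are smaller than `m`: minimal walks from `x` and `y` to `I`, joined inside `O` -/
def Len2 (c : E d → ℕ) (O : Set (E d)) (x y : V d) (I : Set (V d)) (m : ℕ) : Prop :=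
  ∃ n z n' z' j, MinTo c x I n z ∧ MinTo c y I n' z' ∧ z' ∈ Sb O univ z j ∧ n + n' + j < m

/-- the good event for the pair `(x,y)` (deterministic conditions on the configuration `U`) -/
structure GoodPair (pl : ℕ → ℝ) (M N r : ℕ → ℕ) (x y : V d) (U : Cfg d) : Prop where
  uniq : ∀ k, ∀ a ∈ Inf (pl k) U, ∀ b ∈ Inf (pl k) U, Conn (op (pl k) U) univ a b
  xI : x ∈ Inf (pl 0) U
  yI : y ∈ Inf (pl 0) U
  leave : ∀ v, ∃ k, v ∉ Inf (pl k) U
  volx : ∀ k, 1 ≤ k → GoodV (cE pl M k U) (op (pl k) U) x (N k)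
  voly : ∀ k, 1 ≤ k → GoodV (cE pl M k U) (op (pl k) U) y (N k)
  lenx : ∀ k, Len1 (cE pl M k U) (op (pl k) U) x (Inf (pl k) U) (Inf (pl (k + 1)) U) (M k)
  leny : ∀ k, Len1 (cE pl M k U) (op (pl k) U) y (Inf (pl k) U) (Inf (pl (k + 1)) U) (M k)
  lenxy : ∀ k, Len2 (cE pl M k U) (op (pl k) U) x y (Inf (pl k) U) (M k)
  far : 4 * (N 1 : ℝ) + 4 < ‖x - y‖
  meetA₁ : ∀ k, ¬ MeetA (cE pl M (k + 2) U) (op (pl (k + 2)) U) x (cE pl M (k + 2) U)
    (op (pl (k + 2)) U) y (op (pl (k + 1)) U) (r (k + 1)) (2 * N (k + 2))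
  meetA₂ : ∀ k, ¬ MeetA (cE pl M (k + 1) U) (op (pl (k + 1)) U) y (cE pl M (k + 2) U)
    (op (pl (k + 2)) U) x (op (pl (k + 1)) U) (r (k + 1)) (2 * N (k + 2))
  meetB₁ : ∀ k, ¬ MeetB (cE pl M (k + 2) U) (op (pl (k + 2)) U) x (cE pl M (k + 2) U)
    (op (pl (k + 2)) U) y (op (pl (k + 1)) U) (op (pl k) U) (r (k + 1)) (r k) (2 * N (k + 2))
  meetB₂ : ∀ k, ¬ MeetB (cE pl M (k + 1) U) (op (pl (k + 1)) U) y (cE pl M (k + 2) U)
    (op (pl (k + 2)) U) x (op (pl (k + 1)) U) (op (pl k) U) (r (k + 1)) (r k) (2 * N (k + 2))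
  nearx : ∀ k, ¬ Near (cE pl M k U) (op (pl k) U) (op (pl (k + 1)) U) x (r k) (N k)
  neary : ∀ k, ¬ Near (cE pl M k U) (op (pl k) U) (op (pl (k + 1)) U) y (r k) (N k)

/-- weights of the levels: `wt 0 = 1`, `wt (k+1) = wt k / M k` -/
noncomputable def wt (M : ℕ → ℕ) : ℕ → ℝ
  | 0 => 1
  | (k + 1) => wt M k / M k

/-- the cost of an edge: `wt k` for `pl k < u ≤ pl (k-1)`, `0` below all levels -/
noncomputable def rcost (pl : ℕ → ℝ) (M : ℕ → ℕ) (u : ℝ) : ℝ := by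
  classical exact if h : ∃ k, pl k < u then wt M (Nat.find h) else 0

/-- exponent of the volume bound -/
def CV : ℕ := 7000

/-- ratio of the exponents of consecutive levels -/
def KK : ℕ := 15000

end Pool.Agent.helper55.FP
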