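import Pool.Agent.helper55.FP.NDefs
import Pool.Agent.helper55.FP.Conn
import Pool.Agent.helper55.FP.Balls
import Pool.Agent.helper55.FP.Costs
import Pool.Agent.helper55.FP.Levels
import Pool.Agent.helper55.FP.Chain

/-! Module NoTouch: the sets reached before the infinite clusters never touch (deterministic
induction over the levels). -/

set_option autoImplicit false

open MeasureTheory Set Filter Topology
open scoped ENNReal

namespace Pool.Agent.helper55.FP

namespace NoTouch_aux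

variable {d : ℕ}

theorem seg_conn {O : Set (E d)} {W W' : Set (V d)} {n : ℕ} {w : ℕ → V d} {e : ℕ → E d}
    (h : Wk W n w e) {i j : ℕ} (hij : i ≤ j) (hj : j ≤ n)
    (hW : ∀ m, i ≤ m → m ≤ j → w m ∈ W') (hO : ∀ m, i ≤ m → m < j → e m ∈ O) :
    Conn O W' (w i) (w j) := by
  induction j, hij using Nat.le_induction with
  | base => exact Conn.refl (hW i le_rfl le_rfl)
  | succ j hij ih =>
    have h1 := ih (by omega) (fun m h1 h2 => hW m h1 (by omega)) (fun m h1 h2 => hO m h1 (by omega))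
    exact h1.snoc ⟨hW j hij (by omega), hW (j + 1) (by omega) le_rfl, e j, hO j hij (by omega),
      h.2 j (by omega)⟩

/-- edges of a segment of a walk -/
noncomputable def segK (e : ℕ → E d) (i j : ℕ) : Finset (E d) := by
  classical exact (Finset.Ico i j).image e

theorem mem_segK {e : ℕ → E d} {i j : ℕ} {f : E d} :
    f ∈ segK e i j ↔ ∃ m, i ≤ m ∧ m < j ∧ e m = f := by
  unfold segK
  rw [Finset.mem_image]
  constructor
  · rintro ⟨m, hm, rfl⟩
    rw [Finset.mem_Ico] at hm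
    exact ⟨m, hm.1, hm.2, rfl⟩
  · rintro ⟨m, h1, h2, rfl⟩
    exact ⟨m, Finset.mem_Ico.2 ⟨h1, h2⟩, rfl⟩

theorem segK_cw {W W' : Set (V d)} {n : ℕ} {w : ℕ → V d} {e : ℕ → E d}
    (h : Wk W n w e) {i j : ℕ} (hij : i ≤ j) (hj : j ≤ n)
    (hW : ∀ m, i ≤ m → m ≤ j → w m ∈ W') : segK e i j ∈ cw W' (w i) (w j) :=
  seg_conn h hij hj hW (fun m h1 h2 => Finset.mem_coe.2 (mem_segK.2 ⟨m, h1, h2, rfl⟩))

theorem segK_sub {O : Set (E d)} {e : ℕ → E d} {i j : ℕ} (hO : ∀ m, i ≤ m → m < j → e m ∈ O) :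
    (↑(segK e i j) : Set (E d)) ⊆ O := by
  intro f hf
  obtain ⟨m, h1, h2, rfl⟩ := mem_segK.1 (Finset.mem_coe.1 hf)
  exact hO m h1 h2

theorem joins_or {e : E d} {a b a' b' : V d} (h : Joins e a b) (h' : Joins e a' b') :
    a = a' ∨ a = b' := by
  rcases h with ⟨h1, h2⟩ | ⟨h1, h2⟩ <;> rcases h' with ⟨h3, h4⟩ | ⟨h3, h4⟩
  · exact Or.inl (h1.trans h3.symm)
  · exact Or.inr (h1.trans h3.symm)
  · exact Or.inr (h2.trans h4.symm)
  · exact Or.inl (h2.trans h4.symm)

theorem segK_disjoint {W : Set (V d)} {n : ℕ} {w : ℕ → V d} {e : ℕ → E d}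
    (h : Wk W n w e) (hinj : ∀ i ≤ n, ∀ j ≤ n, w i = w j → i = j) {a b c : ℕ}
    (hc : c ≤ n) : Disjoint (segK e a b) (segK e b c) := by
  rw [Finset.disjoint_left]
  intro f hf hf'
  obtain ⟨m, h1, h2, rfl⟩ := mem_segK.1 hf
  obtain ⟨m', h3, h4, h5⟩ := mem_segK.1 hf'
  have h6 := h.2 m (by omega)
  have h7 := h.2 m' (by omega)
  rw [h5] at h7
  rcases joins_or h6 h7 with h8 | h8
  · have := hinj m (by omega) m' (by omega) h8
    omega
  · have := hinj m (by omega) (m' + 1) (by omega) h8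
    omega

theorem cl_eq {O : Set (E d)} {W : Set (V d)} {a b : V d} (h : Conn O W a b) :
    Cl O W a = Cl O W b := by
  ext z
  exact ⟨fun hz => h.symm.trans hz, fun hz => h.trans hz⟩

theorem inf_conn {q : ℝ} {U : Cfg d} {a b : V d} (h : Conn (op q U) univ a b)
    (ha : a ∈ Inf q U) : b ∈ Inf q U := by
  have h1 : (Cl (op q U) univ a).Infinite := ha
  rw [cl_eq h] at h1
  exact h1

/-- the clusters met by the exploration are small -/
theorem abar_cl [NeZero d] {pl : ℕ → ℝ} (hpl : StrictAnti pl) {M : ℕ → ℕ} (hM : ∀ k, 1 ≤ M k)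
    {U : Cfg d} {y z : V d} {k N : ℕ} (hV : GoodV (cE pl M k U) (op (pl k) U) y N)
    (hz : z ∈ Abar pl M k U y) : (Cl (op (pl k) U) univ z).encard ≤ N := by
  obtain ⟨g, -, hg1, -, hg2⟩ := cst_profile hpl hM k
  have hc : cE pl M k U = costE g (pl k) U := funext fun e => hg2 (U e)
  have hfin : ¬ (Cl (op (pl k) U) univ z).Infinite := hz.1
  rw [hc] at hV
  have hz2 : ∀ t, (Bl (costE g (pl k) U) univ y t ∩ Inf (pl k) U).Nonempty →
      z ∈ Bl (costE g (pl k) U) univ y t := by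
    rw [← hc]; exact hz.2
  classical
  have hex := exists_mem_bl (costE g (pl k) U) y z
  obtain ⟨t0, ht0, hmin⟩ : ∃ t0, z ∈ Bl (costE g (pl k) U) univ y t0 ∧
      ∀ t < t0, z ∉ Bl (costE g (pl k) U) univ y t :=
    ⟨Nat.find hex, Nat.find_spec hex, fun t ht => Nat.find_min hex ht⟩
  rcases Nat.eq_zero_or_pos t0 with h0 | h0
  · subst h0
    have h1 : Bl (costE g (pl k) U) univ y 0 = Cl (op (pl k) U) univ y := bl_zero hg1
    have h2 : Cl (op (pl k) U) univ y = Cl (op (pl k) U) univ z := by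
      rw [h1] at ht0
      exact cl_eq ht0
    have h3 := hV 0 (by
      intro z' hz'
      rw [h1] at hz'
      rw [← cl_eq (show Conn (op (pl k) U) univ y z' from hz'), h2]
      exact hfin)
    rw [h1, h2] at h3
    exact h3.1
  · obtain ⟨t, rfl⟩ : ∃ t, t0 = t + 1 := ⟨t0 - 1, by omega⟩
    have hzt := hmin t (by omega)
    have h3 := hV t (by
      intro z' hz' hi
      exact hzt (hz2 t ⟨z', hz', hi⟩))
    obtain ⟨b, hb1, hb2, hb3, -⟩ := bl_succ hg1 ht0 hzt
    have h4 : Cl (op (pl k) U) univ b = Cl (op (pl k) U) univ z :=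
      cl_eq (hb3.mono le_rfl (subset_univ _))
    rcases h3.2 b ⟨hb1.2, hb2⟩ with h5 | h5
    · rw [← h4]; exact h5
    · rw [h4] at h5
      exact absurd h5 hfin

/-- volume of an explored set -/
theorem explored_card [NeZero d] {pl : ℕ → ℝ} (hpl : StrictAnti pl) {M : ℕ → ℕ} (hM : ∀ k, 1 ≤ M k)
    {U : Cfg d} {y : V d} {k N : ℕ} (hV : GoodV (cE pl M k U) (op (pl k) U) y N)
    {n : ℕ} {w : ℕ → V d} {e : ℕ → E d} (h : OptW (cE pl M k U) univ n w e) (h0 : w 0 = y)
    (hz : w n ∈ Abar pl M k U y) {W A : Set (V d)}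
    (hA : A ⊆ Cl (op (pl k) U) univ (w n) ∪
        {v | ∃ t, t + 1 = wcost (cE pl M k U) n e ∧ v ∈ Bl (cE pl M k U) W (w 0) t}) :
    A.encard ≤ (2 * N : ℕ) := by
  have h1 : (Cl (op (pl k) U) univ (w n)).encard ≤ N := abar_cl hpl hM hV hz
  have h2 : ({v | ∃ t, t + 1 = wcost (cE pl M k U) n e ∧
      v ∈ Bl (cE pl M k U) W (w 0) t} : Set (V d)).encard ≤ N := by
    rcases Nat.eq_zero_or_pos (wcost (cE pl M k U) n e) with h3 | h3
    · have : ({v | ∃ t, t + 1 = wcost (cE pl M k U) n e ∧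
          v ∈ Bl (cE pl M k U) W (w 0) t} : Set (V d)) = ∅ := by
        ext v
        simp only [mem_empty_iff_false, iff_false]
        rintro ⟨t, ht, -⟩
        omega
      rw [this]
      simp
    · obtain ⟨t, ht⟩ : ∃ t, t + 1 = wcost (cE pl M k U) n e := ⟨wcost (cE pl M k U) n e - 1, by omega⟩
      have hwt : w n ∉ Bl (cE pl M k U) univ y t := by
        rintro ⟨n', w', e', hw', hw0, hwn, hle⟩
        rcases h.2 n' w' e' hw' (hw0.trans h0.symm) hwn with h4 | ⟨h4, -⟩ <;> omega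
      have h5 := (hV t (by
        intro z' hz' hi
        exact hwt (hz.2 t ⟨z', hz', hi⟩))).1
      refine le_trans (encard_le_encard ?_) h5
      rintro v ⟨t', ht', hv⟩
      have : t' = t := by omega
      subst this
      rw [h0] at hv
      exact bl_subset _ (subset_univ _) _ _ hv
  refine (encard_le_encard hA).trans ((encard_union_le _ _).trans ?_)
  push_cast
  rw [two_mul]
  exact add_le_add h1 h2

theorem mem_bd_or {F : Set (V d)} {a b : V d} (hb : b ∈ F) (h : b = a ∨ Adj b a) :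
    a ∈ F ∪ bd F := by
  rcases h with rfl | h
  · exact Or.inl hb
  · by_cases ha : a ∈ F
    · exact Or.inl ha
    · exact Or.inr ⟨ha, b, hb, h⟩

theorem of_mem_bd {F : Set (V d)} {a : V d} (h : a ∈ F ∪ bd F) : ∃ b ∈ F, b = a ∨ Adj b a := by
  rcases h with h | ⟨-, b, hb, h⟩
  · exact ⟨a, h, Or.inl rfl⟩
  · exact ⟨b, hb, Or.inr h⟩

/-- last index with a property in `[a,b)` -/
theorem exists_last {p : ℕ → Prop} {a b : ℕ} (h : ∃ m, a ≤ m ∧ m < b ∧ p m) :
    ∃ m, a ≤ m ∧ m < b ∧ p m ∧ ∀ m', m < m' → m' < b → ¬ p m' := by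
  classical
  obtain ⟨m, h1, h2, h3⟩ := h
  have h4 : ((Finset.Ico a b).filter p).Nonempty :=
    ⟨m, Finset.mem_filter.2 ⟨Finset.mem_Ico.2 ⟨h1, h2⟩, h3⟩⟩
  have h5 := Finset.max'_mem _ h4
  rw [Finset.mem_filter, Finset.mem_Ico] at h5
  refine ⟨_, h5.1.1, h5.1.2, h5.2, ?_⟩
  intro m' h6 h7 h8
  have := Finset.le_max' ((Finset.Ico a b).filter p) m'
    (Finset.mem_filter.2 ⟨Finset.mem_Ico.2 ⟨by omega, h7⟩, h8⟩)
  omega

/-- the first contact of the exploration of `y` with a piece `F` is never in the infinite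
cluster of level `j+1` -/
theorem main_contact {pl : ℕ → ℝ} (hpl : StrictAnti pl) {M N r : ℕ → ℕ} (hM : ∀ k, 1 ≤ M k)
    {y xF : V d} {U : Cfg d} {cF : E d → ℕ} {OF : Set (E d)} {F : Set (V d)} {j : ℕ}
    (hF : Pc cF OF univ xF F) (hFc : F.encard ≤ (2 * N (j + 2) : ℕ))
    (hvol : ∀ k, 1 ≤ k → GoodV (cE pl M k U) (op (pl k) U) y (N k))
    (hlen : ∀ k, Len1 (cE pl M k U) (op (pl k) U) y (Inf (pl k) U) (Inf (pl (k + 1)) U) (M k))
    (hy0 : y ∈ Inf (pl 0) U)
    (hA : ¬ MeetA cF OF xF (cE pl M (j + 2) U) (op (pl (j + 2)) U) y (op (pl (j + 1)) U)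
      (r (j + 1)) (2 * N (j + 2)))
    (hB : ¬ MeetB cF OF xF (cE pl M (j + 2) U) (op (pl (j + 2)) U) y (op (pl (j + 1)) U)
      (op (pl j) U) (r (j + 1)) (r j) (2 * N (j + 2)))
    (hN : ¬ Near (cE pl M j U) (op (pl j) U) (op (pl (j + 1)) U) y (r j) (N j))
    {u : V d} (hu : u ∈ Abar pl M (j + 2) U y) (huF : u ∈ F ∪ bd F) :
    ∃ u1 ∈ Abar pl M (j + 2) U y, u1 ∈ F ∪ bd F ∧ u1 ∉ Inf (pl (j + 1)) U := by
  classical
  haveI : NeZero d := by
    obtain ⟨n', z', j', ⟨w', e', -⟩, -⟩ := hlen 0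
    exact ⟨fun hd => by subst hd; exact Fin.elim0 (e' 0).2⟩
  obtain ⟨n, w, e, hopt, hw0, hwn, hwA, hfree, hent⟩ := level_walk hpl hM hlen hu
  have hWk := hopt.1
  have hinj : ∀ i ≤ n, ∀ j ≤ n, w i = w j → i = j := fun i hi j hj => hopt.inj hi hj
  -- first contact
  obtain ⟨i, hi, hiF, himin⟩ : ∃ i, i ≤ n ∧ w i ∈ F ∪ bd F ∧ ∀ i' < i, w i' ∉ F ∪ bd F := by
    have hex : ∃ i, w i ∈ F ∪ bd F := ⟨n, by rw [hwn]; exact huF⟩
    refine ⟨Nat.find hex, Nat.find_min' hex (by rw [hwn]; exact huF), Nat.find_spec hex,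
      fun i' h => Nat.find_min hex h⟩
  by_cases hcon : w i ∈ Inf (pl (j + 1)) U
  swap
  · exact ⟨w i, hwA i hi, hiF, hcon⟩
  exfalso
  -- first index in the infinite cluster of level `j+1`
  obtain ⟨ib, hib, hibI, hibmin⟩ : ∃ ib, ib ≤ i ∧ w ib ∈ Inf (pl (j + 1)) U ∧
      ∀ i' < ib, w i' ∉ Inf (pl (j + 1)) U := by
    have hex : ∃ i, w i ∈ Inf (pl (j + 1)) U := ⟨i, hcon⟩
    exact ⟨Nat.find hex, Nat.find_min' hex hcon, Nat.find_spec hex, fun i' h => Nat.find_min hex h⟩
  have hanti : Inf (d := d) (pl (j + 1)) U ⊆ Inf (pl j) U := inf_anti (hpl (by omega)).le U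
  obtain ⟨i0, hi0, hi0I, hi0min⟩ : ∃ i0, i0 ≤ ib ∧ w i0 ∈ Inf (pl j) U ∧
      ∀ i' < i0, w i' ∉ Inf (pl j) U := by
    have hex : ∃ i, w i ∈ Inf (pl j) U := ⟨ib, hanti hibI⟩
    exact ⟨Nat.find hex, Nat.find_min' hex (hanti hibI), Nat.find_spec hex,
      fun i' h => Nat.find_min hex h⟩
  -- open edges
  have hOj1 : ∀ m, ib ≤ m → m < n → e m ∈ op (pl (j + 1)) U := fun m h1 h2 =>
    hfree (j + 1) (by omega) ib (by omega) hibI m h1 h2
  have hOj : ∀ m, i0 ≤ m → m < n → e m ∈ op (pl j) U := fun m h1 h2 =>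
    hfree j (by omega) i0 (by omega) hi0I m h1 h2
  by_cases hi00 : i = 0
  · -- the walk starts in the infinite cluster
    subst hi00
    apply hN
    rw [hw0] at hcon
    refine ⟨∅, y, Or.inl ⟨rfl, rfl, mem_univ _⟩, by simp, y, ?_, ∅, ?_, by simp, by simp⟩
    · rw [compl_empty]; exact hcon
    · refine Conn.refl ⟨by simp, ?_⟩
      show ‖y - y‖ ≤ _
      rw [sub_self, norm_zero]
      exact Nat.cast_nonneg _
  have hiF' : w i ∈ bd F ∧ w i ∉ F := by
    rcases hiF with h | h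
    · exfalso
      refine himin (i - 1) (by omega) (mem_bd_or h (Or.inr ?_))
      have := hWk.2 (i - 1) (by omega)
      rw [show i - 1 + 1 = i by omega] at this
      exact ⟨_, this.symm⟩
    · exact ⟨h, h.1⟩
  have havoid : ∀ m ≤ i, w m ∈ Fᶜ := by
    intro m hm
    rcases Nat.lt_or_ge m i with h | h
    · exact fun hm => himin m h (Or.inl hm)
    · rw [le_antisymm hm h]; exact hiF'.2
  -- chain_vis
  obtain ⟨g, -, hg1, -, hg2⟩ := cst_profile hpl hM (j + 2)
  have hc : cE pl M (j + 2) U = costE g (pl (j + 2)) U := funext fun e => hg2 (U e)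
  have hvis : ∀ m ≤ i, ∃ A, Vis (cE pl M (j + 2) U) (op (pl (j + 2)) U) Fᶜ y A (w m) ∧
      (∀ j', m ≤ j' → j' ≤ i → w j' ∉ A) ∧ A.encard ≤ (2 * N (j + 2) : ℕ) := by
    intro m hm
    have hoptF : OptW (costE g (pl (j + 2)) U) Fᶜ i w e := by
      rw [← hc]
      exact (hopt.pre hi).mono (subset_univ _) havoid
    obtain ⟨A, hA1, hA2, hA3⟩ := chain_vis hg1 hoptF hm
    rw [← hc] at hA1 hA3
    rw [hw0] at hA1
    refine ⟨A, hA1, hA2, ?_⟩
    exact explored_card hpl hM (hvol (j + 2) (by omega)) (hopt.pre (hm.trans hi)) hw0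
      (hwA m (hm.trans hi)) hA3
  by_cases hfar : ∃ m, ib ≤ m ∧ m < i ∧ (r (j + 1) : ℝ) < ‖w m - w i‖
  · obtain ⟨m, h1, h2, h3, h4⟩ := exists_last hfar
    obtain ⟨A, hA1, hA2, hA3⟩ := hvis m h2.le
    apply hA
    refine ⟨F, hF, hFc, w i, hiF'.1, A, w m, hA1, hA3, h3, ?_⟩
    refine seg_conn hWk h2.le hi ?_ (fun m' h5 h6 => hOj1 m' (by omega) (by omega))
    intro m' h5 h6
    refine ⟨?_, ?_⟩
    · rintro (h7 | h7)
      · exact havoid m' h6 h7
      · exact hA2 m' h5 h6 h7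
    · rcases Nat.lt_or_ge m m' with h7 | h7
      · left
        rcases Nat.lt_or_ge m' i with h8 | h8
        · exact not_lt.1 (h4 m' h7 h8)
        · have : m' = i := le_antisymm h6 h8
          subst this
          show ‖_ - _‖ ≤ _
          rw [sub_self, norm_zero]
          exact Nat.cast_nonneg _
      · right
        have : m' = m := le_antisymm h7 h5
        rw [this]
        rfl
  by_cases hfar2 : ∃ m, i0 ≤ m ∧ m < ib ∧ (r j : ℝ) < ‖w m - w ib‖
  · obtain ⟨m, h1, h2, h3, h4⟩ := exists_last hfar2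
    obtain ⟨A, hA1, hA2, hA3⟩ := hvis m (by omega)
    apply hB
    have hav : ∀ m', m ≤ m' → m' ≤ i → w m' ∈ (F ∪ A)ᶜ := by
      rintro m' h5 h6 (h7 | h7)
      · exact havoid m' h6 h7
      · exact hA2 m' h5 h6 h7
    refine ⟨F, hF, hFc, w i, hiF'.1, A, w m, hA1, hA3, w ib, h3, segK e m ib, ?_,
      segK e ib i, ?_, segK_disjoint hWk hinj hi, ?_, ?_⟩
    · refine segK_cw hWk h2.le (by omega) ?_
      intro m' h5 h6
      refine ⟨hav m' h5 (by omega), ?_⟩
      rcases Nat.lt_or_ge m m' with h7 | h7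
      · left
        rcases Nat.lt_or_ge m' ib with h8 | h8
        · exact not_lt.1 (h4 m' h7 h8)
        · have : m' = ib := le_antisymm h6 h8
          subst this
          show ‖_ - _‖ ≤ _
          rw [sub_self, norm_zero]
          exact Nat.cast_nonneg _
      · right
        have : m' = m := le_antisymm h7 h5
        rw [this]
        rfl
    · refine segK_cw hWk hib hi ?_
      intro m' h5 h6
      refine ⟨hav m' (by omega) h6, ?_⟩
      rcases Nat.lt_or_ge m' i with h8 | h8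
      · by_contra hcc
        exact hfar ⟨m', h5, h8, not_le.1 hcc⟩
      · have : m' = i := le_antisymm h6 h8
        subst this
        show ‖_ - _‖ ≤ _
        rw [sub_self, norm_zero]
        exact Nat.cast_nonneg _
    · exact segK_sub (fun m' h5 h6 => hOj m' (by omega) (by omega))
    · exact segK_sub (fun m' h5 h6 => hOj1 m' (by omega) (by omega))
  -- the near case
  apply hN
  obtain ⟨B, hB1, hB2, hB3⟩ := hent j (by omega) i0 (by omega) hi0I hi0min
  have hBc : B.encard ≤ N j := by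
    rcases hB3 with rfl | ⟨t, rfl⟩
    · simp
    · rcases Nat.eq_zero_or_pos j with h0 | h0
      · subst h0
        exfalso
        exact (Set.disjoint_left.1 hB2) (mem_bl_self _ (mem_univ y) t) hy0
      · refine (hvol j h0 t ?_).1
        intro z hz hzi
        exact (Set.disjoint_left.1 hB2) hz hzi
  have hcl : Cl (op (pl (j + 1)) U) Bᶜ (w ib) = Cl (op (pl (j + 1)) U) univ (w ib) := by
    apply Set.Subset.antisymm
    · intro z hz
      exact Conn.mono le_rfl (subset_univ _) hz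
    · rintro z ⟨-, hz⟩
      have hmem : ∀ z, Relation.ReflTransGen (Step (op (pl (j + 1)) U) univ) (w ib) z → z ∈ Bᶜ :=
        fun z hz hzB => (Set.disjoint_left.1 hB2) hzB
          (hanti (inf_conn ⟨mem_univ _, hz⟩ hibI))
      induction hz with
      | refl => exact Conn.refl (hmem _ Relation.ReflTransGen.refl)
      | tail h1 h2 ih =>
        refine ih.snoc ⟨hmem _ h1, hmem _ (h1.tail h2), h2.2.2⟩
  refine ⟨B, w i0, hB1, hBc, w ib, ?_, segK e i0 ib, ?_, ?_, ?_⟩
  · rw [hcl]; exact hibI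
  · refine segK_cw hWk hi0 (by omega) ?_
    intro m h1 h2
    refine ⟨?_, ?_⟩
    · intro hmB
      refine (Set.disjoint_left.1 hB2) hmB (inf_conn ?_ hi0I)
      exact seg_conn hWk h1 (by omega) (fun _ _ _ => mem_univ _)
        (fun m' h5 h6 => hOj m' (by omega) (by omega))
    · rcases Nat.lt_or_ge m ib with h8 | h8
      · by_contra hcc
        exact hfar2 ⟨m, h1, h8, not_le.1 hcc⟩
      · have : m = ib := le_antisymm h2 h8
        subst this
        show ‖_ - _‖ ≤ _
        rw [sub_self, norm_zero]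
        exact Nat.cast_nonneg _
  · exact segK_sub (fun m' h5 h6 => hOj m' (by omega) (by omega))
  · intro f hf
    obtain ⟨m, h1, h2, rfl⟩ := mem_segK.1 hf
    have hnot : w m ∉ Cl (op (pl (j + 1)) U) Bᶜ (w ib) := by
      intro hm
      rw [hcl] at hm
      exact hibmin m h2 (inf_conn hm hibI)
    rcases hWk.2 m (by omega) with ⟨h5, -⟩ | ⟨-, h5⟩
    · left; rw [← h5]; exact hnot
    · right; rw [← h5]; exact hnot

/-! ### base case -/

theorem path_norm {O : Set (E d)} {W : Set (V d)} {b : V d} (l : List (V d)) :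
    ∀ a : V d, l.head? = some a → l.getLast? = some b → l.IsChain (Step O W) →
      ‖b - a‖ + 1 ≤ l.length := by
  induction l with
  | nil => intro a h; simp at h
  | cons c t ih =>
    intro a h1 h2 h3
    simp only [List.head?_cons, Option.some.injEq] at h1
    subst h1
    cases t with
    | nil =>
      simp only [List.getLast?_singleton, Option.some.injEq] at h2
      subst h2
      simp
    | cons c' t' =>
      rw [List.isChain_cons_cons] at h3
      have h5 := ih c' rfl (by rw [List.getLast?_cons_cons] at h2; exact h2) h3.2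
      obtain ⟨-, -, e, -, he⟩ := h3.1
      have h6 : ‖c' - c‖ ≤ 1 := Adj.norm ⟨e, he⟩
      have h7 : ‖b - c‖ ≤ ‖b - c'‖ + ‖c' - c‖ := by
        have := norm_add_le (b - c') (c' - c)
        rwa [sub_add_sub_cancel] at this
      simp only [List.length_cons] at h5 ⊢
      push_cast at h5 ⊢
      linarith

/-- connected sets have small diameter -/
theorem conn_norm {O : Set (E d)} {F : Set (V d)} {a b : V d} (h : Conn O F a b) {n : ℕ}
    (hF : F.encard ≤ n) : ‖b - a‖ ≤ n := by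
  classical
  obtain ⟨l, h1, h2, h3, h4, h5⟩ := conn_iff_path.1 h
  have h6 := path_norm l a h2 h3 h4
  have h7 : l.length ≤ n := by
    have h8 : ((l.toFinset : Finset (V d)) : Set (V d)) ⊆ F := by
      intro v hv
      exact h5 v (List.mem_toFinset.1 (Finset.mem_coe.1 hv))
    have h9 := (encard_le_encard h8).trans hF
    rw [encard_coe_eq_coe_finsetCard, List.toFinset_card_of_nodup h1] at h9
    exact_mod_cast h9
  have h8 : (l.length : ℝ) ≤ n := by exact_mod_cast h7
  linarith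

theorem bl_connected {c : E d → ℕ} {x z : V d} {t : ℕ} (h : z ∈ Bl c univ x t) :
    Conn univ (Bl c univ x t) x z := by
  obtain ⟨n, w, e, h1, h2, h3, h4⟩ := h
  rw [← h2, ← h3]
  refine seg_conn (W := univ) h1 (Nat.zero_le n) le_rfl ?_ (fun _ _ _ => mem_univ _)
  intro m _ hm
  rw [h2]
  refine ⟨m, w, e, ⟨fun _ _ => mem_univ _, fun i hi => h1.2 i (by omega)⟩, h2, rfl,
    le_trans ?_ h4⟩
  unfold wcost
  exact Finset.sum_le_sum_of_subset (Finset.range_mono hm)

theorem pc_connected {c : E d → ℕ} {O : Set (E d)} {x z : V d} {F : Set (V d)}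
    (h : Pc c O univ x F) (hz : z ∈ F) : Conn univ F x z := by
  obtain ⟨B, b, hE, rfl⟩ := h
  have hcl : ∀ z ∈ Cl O (univ \ B) b, Conn univ (B ∪ Cl O (univ \ B) b) b z := by
    rintro z ⟨hb, hz⟩
    induction hz with
    | refl => exact Conn.refl (Or.inr (Conn.refl hb))
    | tail h1 h2 ih =>
      refine ih.snoc ⟨Or.inr ⟨hb, h1⟩, Or.inr ⟨hb, h1.tail h2⟩, ?_⟩
      obtain ⟨-, -, e, -, he⟩ := h2
      exact ⟨e, mem_univ _, he⟩
  rcases hE with ⟨rfl, rfl, -⟩ | ⟨t, rfl, hb, a, ha, hab⟩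
  · rcases hz with hz | hz
    · exact absurd hz (by simp)
    · exact hcl z hz
  · rcases hz with hz | hz
    · exact (bl_connected hz).mono le_rfl subset_union_left
    · have h1 : Conn univ (Bl c univ x t ∪ Cl O (univ \ Bl c univ x t) b) x a :=
        (bl_connected ha).mono le_rfl subset_union_left
      obtain ⟨e, he⟩ := hab
      exact (h1.snoc ⟨Or.inl ha, Or.inr (Conn.refl hb), e, mem_univ _, he⟩).trans (hcl z hz)

end NoTouch_aux

open NoTouch_aux

variable {d : ℕ}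

theorem no_touch {pl : ℕ → ℝ} (hpl : StrictAnti pl) {M N r : ℕ → ℕ} (hM : ∀ k, 1 ≤ M k)
    (hN : Monotone N) {x y : V d} {U : Cfg d} (h : GoodPair pl M N r x y U) :
    ∀ k, 1 ≤ k → ¬ Touch (Abar pl M k U x) (Abar pl M k U y) := by
  have hne : ∀ k, (Inf (d := d) (pl k) U).Nonempty := by
    intro k
    obtain ⟨n, z, j, ⟨w, e, -, -, -, hz, -⟩, -⟩ := h.lenx k
    exact ⟨z, hz⟩
  intro k hk
  induction k, hk using Nat.le_induction with
  | base =>
    rintro ⟨v, hv, u, hu, huv⟩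
    obtain ⟨F, hF, hvF, -, hFc⟩ := abar_piece hpl hM (h.volx 1 le_rfl) (hne 1) hv
    obtain ⟨G, hG, huG, -, hGc⟩ := abar_piece hpl hM (h.voly 1 le_rfl) (hne 1) hu
    have h1 := conn_norm (pc_connected hF hvF) hFc
    have h2 := conn_norm (pc_connected hG huG) hGc
    have h3 : ‖u - v‖ ≤ 1 := by
      rcases huv with rfl | huv
      · simp
      · exact huv.norm
    have h4 : ‖x - y‖ ≤ ‖v - x‖ + ‖u - v‖ + ‖u - y‖ := by
      have h5 : x - y = -(v - x) + (-(u - v) + (u - y)) := by abel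
      rw [h5]
      refine (norm_add_le _ _).trans ?_
      have h6 := norm_add_le (-(u - v)) (u - y)
      rw [norm_neg] at h6 ⊢
      linarith
    have h5 := h.far
    push_cast at h1 h2
    linarith
  | succ k hk ih =>
    obtain ⟨j, rfl⟩ : ∃ j, k = j + 1 := ⟨k - 1, by omega⟩
    rintro ⟨v, hv, u, hu, huv⟩
    obtain ⟨F, hF, hvF, hFA, hFc⟩ := abar_piece hpl hM (h.volx (j + 2) (by omega)) (hne (j + 2)) hv
    obtain ⟨u1, hu1A, hu1F, hu1I⟩ := main_contact hpl hM hF hFc h.voly h.leny h.yI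
      (h.meetA₁ j) (h.meetB₁ j) (h.neary j) hu (mem_bd_or hvF huv)
    have hu1 : u1 ∈ Abar pl M (j + 1) U y := by
      rcases abar_lower hpl hM (h.leny (j + 1)) hu1A with h1 | h1
      · exact h1
      · exact absurd h1 hu1I
    obtain ⟨v1, hv1F, hv1u1⟩ := of_mem_bd hu1F
    rcases abar_lower hpl hM (h.lenx (j + 1)) (hFA hv1F) with h1 | h1
    · exact ih ⟨v1, h1, u1, hu1, hv1u1⟩
    · obtain ⟨G, hG, hu1G, hGA, hGc⟩ := abar_piece hpl hM (h.voly (j + 1) (by omega))
        (hne (j + 1)) hu1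
      have hGc' : G.encard ≤ (2 * N (j + 2) : ℕ) := by
        refine hGc.trans ?_
        have : N (j + 1) ≤ N (j + 2) := hN (by omega)
        exact_mod_cast (by omega : 2 * N (j + 1) ≤ 2 * N (j + 2))
      have hv1G : v1 ∈ G ∪ bd G := by
        refine mem_bd_or hu1G ?_
        rcases hv1u1 with h2 | h2
        · exact Or.inl h2.symm
        · exact Or.inr h2.symm
      obtain ⟨v2, hv2A, hv2G, hv2I⟩ := main_contact hpl hM hG hGc' h.volx h.lenx h.xI
        (h.meetA₂ j) (h.meetB₂ j) (h.nearx j) (hFA hv1F) hv1G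
      obtain ⟨u2, hu2G, hu2v2⟩ := of_mem_bd hv2G
      rcases abar_lower hpl hM (h.lenx (j + 1)) hv2A with h3 | h3
      · refine ih ⟨v2, h3, u2, hGA hu2G, ?_⟩
        rcases hu2v2 with h4 | h4
        · exact Or.inl h4.symm
        · exact Or.inr h4.symm
      · exact hv2I h3

end Pool.Agent.helper55.FP
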