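import Pool.Agent.helper55.FP.NDefs
import Pool.Agent.helper55.FP.LDefs
import Pool.Agent.helper55.FP.Conn
import Pool.Agent.helper55.FP.Paths
import Pool.Agent.helper55.FP.Meas
import Pool.Agent.helper55.FP.Indep
import Pool.Agent.helper55.FP.Resample
import Pool.Agent.helper55.FP.BK
import Pool.Agent.helper55.FP.Harris
import Pool.Agent.helper55.FP.Symm
import Pool.Agent.helper55.FP.LeftCont
import Pool.Agent.helper55.FP.Sprinkle
import Pool.Agent.helper55.FP.Strong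
import Pool.Agent.helper55.FP.GoodParam
import Pool.Agent.helper55.FP.Fail
import Pool.Agent.helper55.FP.Balls
import Pool.Agent.helper55.FP.BallLoc
import Pool.Agent.helper55.FP.ExitLim
import Pool.Agent.helper55.FP.DimPos

/-! Module Volume: the volume bound at a good level. -/

set_option autoImplicit false

open MeasureTheory Set Filter Topology
open scoped ENNReal

namespace Pool.Agent.helper55.FP

variable {d : ℕ}

namespace Volume

/-! ### translations of balls -/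

theorem bl_aut_sub (A : Aut d) (g : ℝ → ℕ) (q : ℝ) (U : Cfg d) (x z : V d) (t : ℕ)
    (h : z ∈ Bl (costE g q (fun e => U (A.ψ e))) univ x t) :
    A.φ z ∈ Bl (costE g q U) univ (A.φ x) t := by
  obtain ⟨n, w, e, hw, h0, hn, hc⟩ := h
  refine ⟨n, fun i => A.φ (w i), fun i => A.ψ (e i), ⟨fun i _ => mem_univ _, fun i hi => ?_⟩,
    by simp only [h0], by simp only [hn], hc⟩
  exact (A.joins _ _ _).1 (hw.2 i hi)

theorem bl_aut_sub' (A : Aut d) (g : ℝ → ℕ) (q : ℝ) (U : Cfg d) (x z : V d) (t : ℕ)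
    (h : A.φ z ∈ Bl (costE g q U) univ (A.φ x) t) :
    z ∈ Bl (costE g q (fun e => U (A.ψ e))) univ x t := by
  obtain ⟨n, w, e, hw, h0, hn, hc⟩ := h
  refine ⟨n, fun i => A.φ.symm (w i), fun i => A.ψ.symm (e i),
    ⟨fun i _ => mem_univ _, fun i hi => ?_⟩, by simp only [h0, Equiv.symm_apply_apply],
    by simp only [hn, Equiv.symm_apply_apply], ?_⟩
  · rw [A.joins]
    simpa only [Equiv.apply_symm_apply] using hw.2 i hi
  · refine le_of_eq_of_le ?_ hc
    unfold wcost costE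
    simp only [Equiv.apply_symm_apply]

theorem bl_aut (A : Aut d) (g : ℝ → ℕ) (q : ℝ) (U : Cfg d) (x : V d) (t : ℕ) :
    Bl (costE g q (fun e => U (A.ψ e))) univ x t = A.φ ⁻¹' (Bl (costE g q U) univ (A.φ x) t) := by
  ext z
  exact ⟨bl_aut_sub A g q U x z t, bl_aut_sub' A g q U x z t⟩

theorem adj_aut (A : Aut d) {a b : V d} (h : Adj a b) : Adj (A.φ.symm a) (A.φ.symm b) := by
  obtain ⟨e, he⟩ := h
  refine ⟨A.ψ.symm e, ?_⟩
  rw [A.joins]
  simpa only [Equiv.apply_symm_apply] using he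

theorem gb_trans (A : Aut d) (g : ℝ → ℕ) (q : ℝ) (U : Cfg d) (x : V d) (N : ℕ) (m : ℝ)
    (h : U ∈ GB g q (A.φ x) N m) : (fun e => U (A.ψ e)) ∈ GB g q x N m := by
  classical
  have hcl : ∀ (W : Set (V d)) (b : V d), (Cl (op q U) W (A.φ b)).Finite →
      m ≤ ((Cl (op q U) W (A.φ b)).ncard : ℝ) →
      (Cl (op q (fun e => U (A.ψ e))) (A.φ ⁻¹' W) b).Finite ∧
      m ≤ ((Cl (op q (fun e => U (A.ψ e))) (A.φ ⁻¹' W) b).ncard : ℝ) := by
    intro W b h1 h2
    rw [cl_aut, ← Equiv.image_symm_eq_preimage, ncard_image_of_injective _ A.φ.symm.injective]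
    exact ⟨h1.image _, h2⟩
  rcases h with ⟨D, hD, ⟨t, ht⟩, b, ⟨hb1, a, ha, hab⟩, hb2, hb3⟩ | ⟨h1, h2⟩
  · left
    have hD' : (↑(D.map A.φ.symm.toEmbedding) : Set (V d)) = A.φ ⁻¹' ↑D := by
      rw [Finset.coe_map, Equiv.coe_toEmbedding, Equiv.image_symm_eq_preimage]
    refine ⟨D.map A.φ.symm.toEmbedding, by rw [Finset.card_map]; exact hD, ⟨t, ?_⟩,
      A.φ.symm b, ⟨?_, A.φ.symm a, ?_, adj_aut A hab⟩, ?_⟩
    · rw [hD', bl_aut, ht]
    · rw [hD', mem_preimage, Equiv.apply_symm_apply]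
      exact hb1
    · rw [hD', mem_preimage, Equiv.apply_symm_apply]
      exact ha
    · rw [hD', ← preimage_compl]
      exact hcl _ _ (by rwa [Equiv.apply_symm_apply]) (by rwa [Equiv.apply_symm_apply])
  · right
    have := hcl univ x h1 h2
    rwa [preimage_univ] at this

theorem gb_prob (g : ℝ → ℕ) (q : ℝ) (x : V d) (N : ℕ) (m : ℝ) :
    (P d).real (GB g q x N m) ≤ (P d).real (GB g q (0 : V d) N m) := by
  obtain ⟨A, hA⟩ := exists_translation x
  have h0 : A.φ 0 = x := by rw [hA, zero_add]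
  have h1 : GB g q x N m ⊆ (fun U : Cfg d => fun e => U (A.ψ e)) ⁻¹' GB g q (0 : V d) N m := by
    intro U hU
    exact gb_trans A g q U 0 N m (by rwa [h0])
  have hT := measurePreserving_comp A.ψ
  unfold Measure.real
  refine ENNReal.toReal_mono (measure_ne_top _ _) ?_
  refine (measure_mono h1).trans ?_
  have h2 := Measure.le_map_apply (μ := P d) hT.measurable.aemeasurable (GB g q (0 : V d) N m)
  rwa [hT.map_eq] at h2

/-! ### boundary and growth of balls -/

theorem bd_finite (D : Finset (V d)) : (bd (↑D : Set (V d))).Finite ∧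
    (bd (↑D : Set (V d))).ncard ≤ 2 * d * D.card := by
  classical
  have hsub : bd (↑D : Set (V d)) ⊆ ↑(D.biUnion fun a => (adj_finite a).toFinset) := by
    rintro b ⟨-, a, ha, hab⟩
    simp only [Finset.coe_biUnion, mem_iUnion]
    exact ⟨a, ha, by simpa using hab⟩
  have hcard : (D.biUnion fun a => (adj_finite a).toFinset).card ≤ D.card * (2 * d) := by
    refine Finset.card_biUnion_le_card_mul _ _ _ fun a ha => ?_
    have h1 := adj_encard a
    rw [← (adj_finite a).coe_toFinset, encard_coe_eq_coe_finsetCard] at h1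
    exact_mod_cast h1
  refine ⟨(Finset.finite_toSet _).subset hsub, ?_⟩
  refine (ncard_le_ncard hsub (Finset.finite_toSet _)).trans ?_
  rw [ncard_coe_finset]
  rwa [mul_comm] at hcard

theorem conn_off {O : Set (E d)} {D : Set (V d)} (hD : ∀ a ∈ D, ∀ b, Conn O univ a b → b ∈ D)
    {b z : V d} (hb : b ∉ D) (h : Conn O univ b z) : Conn O Dᶜ b z := by
  have hoff : ∀ z, Conn O univ b z → z ∉ D := fun z hz hzD => hb (hD z hzD b hz.symm)
  obtain ⟨-, hr⟩ := h
  induction hr with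
  | refl => exact Conn.refl hb
  | tail h1 h2 ih =>
    obtain ⟨-, -, e, he, hj⟩ := h2
    refine ih.snoc ⟨hoff _ ⟨mem_univ _, h1⟩, ?_, e, he, hj⟩
    exact hoff _ ⟨mem_univ _, h1.tail ⟨mem_univ _, mem_univ _, e, he, hj⟩⟩

theorem cl_off {O : Set (E d)} {D : Set (V d)} (hD : ∀ a ∈ D, ∀ b, Conn O univ a b → b ∈ D)
    {b : V d} (hb : b ∉ D) : Cl O Dᶜ b = Cl O univ b := by
  ext z
  exact ⟨fun h => Conn.mono subset_rfl (subset_univ _) h, fun h => conn_off hD hb h⟩

/-- a ball without infinite cluster whose predecessor is small is not large -/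
theorem growth {g : ℝ → ℕ} (hg1 : ∀ u, 1 ≤ g u) {q : ℝ} {U : Cfg d} {x : V d} {s N m : ℕ}
    (hU : U ∉ GB g q x N m) (D : Finset (V d)) (hD : Bl (costE g q U) univ x s = ↑D)
    (hDN : D.card ≤ N)
    (hfin : ∀ z ∈ Bl (costE g q U) univ x (s + 1), ¬ (Cl (op q U) univ z).Infinite) :
    ∃ D' : Finset (V d), Bl (costE g q U) univ x (s + 1) = ↑D' ∧
      D'.card ≤ D.card + 2 * d * D.card * m := by
  classical
  have hclosed : ∀ a ∈ (↑D : Set (V d)), ∀ b, Conn (op q U) univ a b → b ∈ (↑D : Set (V d)) := by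
    intro a ha b hab
    rw [← hD] at ha ⊢
    exact bl_closed ha hab
  obtain ⟨hbf, hbc⟩ := bd_finite D
  set T := hbf.toFinset with hT
  have hTc : T.card ≤ 2 * d * D.card := by
    rw [← ncard_coe_finset, hT, Finite.coe_toFinset]; exact hbc
  set C : V d → Finset (V d) := fun b =>
    if h : (Cl (op q U) (↑D)ᶜ b).Finite ∧ (Cl (op q U) (↑D)ᶜ b).ncard ≤ m then h.1.toFinset else ∅
    with hC
  have hCc : ∀ b ∈ T, (C b).card ≤ m := by
    intro b _
    simp only [hC]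
    split_ifs with h
    · rw [← ncard_coe_finset, Finite.coe_toFinset]; exact h.2
    · simp
  have hsub : Bl (costE g q U) univ x (s + 1) ⊆ ↑(D ∪ T.biUnion C) := by
    intro z hz
    rw [Finset.coe_union]
    by_cases hzD : z ∈ (↑D : Set (V d))
    · exact Or.inl hzD
    right
    obtain ⟨b, ⟨-, hb⟩, ⟨a, ha, hab⟩, hbz, hbs⟩ := bl_succ hg1 hz (by rw [hD]; exact hzD)
    rw [hD] at hb ha hbz
    have hbfin : (Cl (op q U) (↑D)ᶜ b).Finite := by
      rw [cl_off hclosed hb]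
      exact not_infinite.1 (hfin b hbs)
    have hbm : (Cl (op q U) (↑D)ᶜ b).ncard ≤ m := by
      by_contra hcon
      push Not at hcon
      refine hU (Or.inl ⟨D, hDN, ⟨s, hD⟩, b, ⟨hb, a, ha, hab⟩, hbfin, ?_⟩)
      exact_mod_cast hcon.le
    simp only [Finset.coe_biUnion, mem_iUnion, hT, Finset.mem_coe, Finite.mem_toFinset]
    refine ⟨b, ⟨hb, a, ha, hab⟩, ?_⟩
    simp only [hC]
    rw [dif_pos ⟨hbfin, hbm⟩, Finite.mem_toFinset]
    rwa [← compl_eq_univ_sdiff] at hbz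
  have hfs : (Bl (costE g q U) univ x (s + 1)).Finite := (Finset.finite_toSet _).subset hsub
  refine ⟨hfs.toFinset, by rw [Finite.coe_toFinset], ?_⟩
  have h1 : hfs.toFinset ⊆ D ∪ T.biUnion C := by
    intro z hz
    rw [Finite.mem_toFinset] at hz
    exact_mod_cast hsub hz
  refine (Finset.card_le_card h1).trans ((Finset.card_union_le _ _).trans ?_)
  refine Nat.add_le_add_left ?_ _
  refine (Finset.card_biUnion_le_card_mul _ _ _ hCc).trans ?_
  exact Nat.mul_le_mul_right _ hTc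

/-! ### the first large ball has many exits -/

/-- `D` is the smallest ball with at least `N` elements -/
def first (g : ℝ → ℕ) (q : ℝ) (x : V d) (N : ℕ) (D : Finset (V d)) : Set (Cfg d) :=
  {U | N ≤ D.card ∧ (∃ s, Bl (costE g q U) univ x s = ↑D) ∧
    ∀ D' : Finset (V d), D' ⊂ D → N ≤ D'.card → ¬ ∃ s, Bl (costE g q U) univ x s = ↑D'}

theorem touch_mono {D D' : Set (V d)} (h : D' ⊆ D) : touch D' ⊆ touch D := by
  rintro e (he | he)
  · exact Or.inl (h he)
  · exact Or.inr (h he)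

theorem depends_ball (g : ℝ → ℕ) (q : ℝ) (x : V d) (D : Set (V d)) {U U' : Cfg d}
    (h : ∀ e ∈ touch D, U e = U' e) (hU : ∃ s, Bl (costE g q U) univ x s = D) :
    ∃ s, Bl (costE g q U') univ x s = D := by
  obtain ⟨s, hs⟩ := hU
  refine ⟨s, ?_⟩
  have := dependsOn_bl_eq g q univ D x (mem_univ x) s (fun e he => h e he.2)
  exact this.mp hs

theorem first_depends (g : ℝ → ℕ) (q : ℝ) (x : V d) (N : ℕ) (D : Finset (V d)) :
    DependsOn (fun U : Cfg d => U ∈ first g q x N D) (touch (↑D : Set (V d))) := by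
  intro U U' h
  have key : ∀ {U U' : Cfg d}, (∀ e ∈ touch (↑D : Set (V d)), U e = U' e) →
      U ∈ first g q x N D → U' ∈ first g q x N D := by
    rintro U U' h ⟨h1, h2, h3⟩
    refine ⟨h1, depends_ball g q x _ h h2, fun D' hD' hN hcon => h3 D' hD' hN ?_⟩
    refine depends_ball g q x _ (fun e he => (h e ?_).symm) hcon
    exact touch_mono (by exact_mod_cast hD'.1) he
  exact propext ⟨key h, key fun e he => (h e he).symm⟩

theorem first_meas {g : ℝ → ℕ} (hg : Monotone g) (q : ℝ) (x : V d) (N : ℕ) (D : Finset (V d)) :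
    MeasurableSet (first g q x N D) := by
  have hb : ∀ D' : Finset (V d), MeasurableSet {U : Cfg d | ∃ s, Bl (costE g q U) univ x s = ↑D'} := by
    intro D'
    have : {U : Cfg d | ∃ s, Bl (costE g q U) univ x s = ↑D'} =
        ⋃ s, {U : Cfg d | Bl (costE g q U) univ x s = ↑D'} := by
      ext U; simp
    rw [this]
    exact MeasurableSet.iUnion fun s => measurableSet_bl_eq hg q univ _ x s
  by_cases hN : N ≤ D.card
  · have : first g q x N D = {U : Cfg d | ∃ s, Bl (costE g q U) univ x s = ↑D} ∩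
        ⋂ D' ∈ {D' : Finset (V d) | D' ⊂ D ∧ N ≤ D'.card},
          {U : Cfg d | ∃ s, Bl (costE g q U) univ x s = ↑D'}ᶜ := by
      ext U
      simp only [first, mem_ofPred_eq, mem_inter_iff, mem_iInter, mem_compl_iff, hN, true_and,
        and_imp]
    rw [this]
    exact (hb D).inter (MeasurableSet.biInter (to_countable _) fun D' _ => (hb D').compl)
  · have : first g q x N D = ∅ := by
      ext U
      simp only [first, mem_ofPred_eq, mem_empty_iff_false, iff_false]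
      exact fun h => hN h.1
    rw [this]
    exact MeasurableSet.empty

theorem first_unique (g : ℝ → ℕ) (q : ℝ) (x : V d) (N : ℕ) (U : Cfg d) :
    {D : Finset (V d) | U ∈ first g q x N D}.encard ≤ ((1 : ℕ) : ℕ∞) := by
  rw [Nat.cast_one, encard_le_one_iff]
  rintro D D' ⟨h1, ⟨s, h2⟩, h3⟩ ⟨h1', ⟨s', h2'⟩, h3'⟩
  by_contra hne
  rcases le_total s s' with hs | hs
  · have hsub : (↑D : Set (V d)) ⊆ ↑D' := by
      rw [← h2, ← h2']; exact bl_mono _ _ _ hs
    exact h3' D (Finset.ssubset_iff_subset_ne.2 ⟨by exact_mod_cast hsub, hne⟩) h1 ⟨s, h2⟩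
  · have hsub : (↑D' : Set (V d)) ⊆ ↑D := by
      rw [← h2, ← h2']; exact bl_mono _ _ _ hs
    exact h3 D' (Finset.ssubset_iff_subset_ne.2 ⟨by exact_mod_cast hsub, Ne.symm hne⟩) h1'
      ⟨s', h2'⟩

/-- few exits of the first large ball -/
theorem few_exits {g : ℝ → ℕ} (hg : Monotone g) (q : ℝ) (x : V d) (N J : ℕ) (ρ : ℝ) (hρ : 0 ≤ ρ)
    (h : ∀ D : Finset (V d), N ≤ D.card →
      (P d).real {U : Cfg d | ¬ (J : ℕ∞) ≤ (Exits (op q U) univ (↑D)).encard} ≤ ρ) :
    (P d).real {U : Cfg d | ∃ D, U ∈ first g q x N D ∧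
      ¬ (J : ℕ∞) ≤ (Exits (op q U) univ (↑D)).encard} ≤ ρ := by
  have h1 := markov_union (fun D : Finset (V d) => first g q x N D)
    (fun D => {U : Cfg d | N ≤ D.card ∧ ¬ (J : ℕ∞) ≤ (Exits (op q U) univ (↑D)).encard})
    (fun D => touch (↑D : Set (V d))) (fun D => first_meas hg q x N D) ?_
    (fun D => first_depends g q x N D) ?_ 1 ρ (first_unique g q x N) ?_ hρ
  · rw [Nat.cast_one, one_mul] at h1
    refine (measureReal_mono ?_).trans h1
    rintro U ⟨D, hD, hE⟩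
    exact mem_iUnion.2 ⟨D, hD, hD.1, hE⟩
  · intro D
    by_cases hN : N ≤ D.card
    · have : {U : Cfg d | N ≤ D.card ∧ ¬ (J : ℕ∞) ≤ (Exits (op q U) univ (↑D)).encard} =
          {U : Cfg d | (J : ℕ∞) ≤ (Exits (op q U) univ (↑D)).encard}ᶜ := by
        ext U
        simp only [mem_ofPred_eq, hN, true_and, mem_compl_iff]
      rw [this]
      exact (measurableSet_exits q univ _ _).compl
    · have : {U : Cfg d | N ≤ D.card ∧ ¬ (J : ℕ∞) ≤ (Exits (op q U) univ (↑D)).encard} = ∅ := by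
        ext U
        simp only [mem_ofPred_eq, mem_empty_iff_false, iff_false]
        exact fun h => hN h.1
      rw [this]
      exact MeasurableSet.empty
  · intro D U U' hUU
    have h2 : Exits (op q U) univ (↑D : Set (V d)) = Exits (op q U') univ ↑D :=
      dependsOn_exits q univ _ hUU
    simp only [mem_ofPred_eq, h2]
  · intro D
    by_cases hN : N ≤ D.card
    · refine (measureReal_mono ?_).trans (h D hN)
      exact fun U hU => hU.2
    · have : {U : Cfg d | N ≤ D.card ∧ ¬ (J : ℕ∞) ≤ (Exits (op q U) univ (↑D)).encard} = ∅ := by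
        ext U
        simp only [mem_ofPred_eq, mem_empty_iff_false, iff_false]
        exact fun h => hN h.1
      rw [this, measureReal_empty]
      exact hρ

/-! ### the deterministic argument -/

theorem infinite_cl_off {O : Set (E d)} {D : Set (V d)}
    (hD : ∀ a ∈ D, ∀ b, Conn O univ a b → b ∈ D) {b : V d} (hb : b ∉ D) {N : ℕ}
    (h : ¬ ((Cl O Dᶜ b).Finite ∧ ¬ (Cl O Dᶜ b).encard ≤ N)) :
    (Cl O univ b).encard ≤ N ∨ (Cl O univ b).Infinite := by
  rw [cl_off hD hb] at h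
  by_cases hf : (Cl O univ b).Finite
  · left
    by_contra hc
    exact h ⟨hf, hc⟩
  · exact Or.inr hf

theorem goodV_of [NeZero d] {g : ℝ → ℕ} (hg1 : ∀ u, 1 ≤ g u) {q : ℝ} {U : Cfg d} {x : V d}
    {N1 N2 N m1 m2 J : ℕ} (h12 : N1 + 2 * d * N1 * m1 ≤ N2) (h2 : N2 ≤ N) (hm1 : m1 ≤ N2)
    (hm2 : m2 ≤ N)
    (hF1 : ¬ ∃ D, U ∈ first g q x N1 D ∧ ¬ (J : ℕ∞) ≤ (Exits (op q U) univ (↑D)).encard)
    (hF2 : ¬ ∃ t, (∀ z ∈ Bl (costE g q U) univ x (t + 1), ¬ (Cl (op q U) univ z).Infinite) ∧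
      (J : ℕ∞) ≤ (Exits (op q U) univ (Bl (costE g q U) univ x t)).encard)
    (hF3 : U ∉ GB g q x N1 m1) (hF4 : U ∉ GB g q x N2 m2) :
    GoodV (costE g q U) (op q U) x N := by
  classical
  intro t ht
  have hclosed : ∀ s, ∀ a ∈ Bl (costE g q U) univ x s, ∀ b, Conn (op q U) univ a b →
      b ∈ Bl (costE g q U) univ x s := fun s a ha b hab => bl_closed ha hab
  -- it is enough to bound the ball by `N2`
  have key : ∀ D : Finset (V d), Bl (costE g q U) univ x t = ↑D → D.card ≤ N2 →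
      (Bl (costE g q U) univ x t).encard ≤ N ∧
      ∀ b ∈ bd (Bl (costE g q U) univ x t), (Cl (op q U) univ b).encard ≤ N ∨
        (Cl (op q U) univ b).Infinite := by
    intro D hD hDc
    rw [hD]
    refine ⟨?_, fun b hb => ?_⟩
    · rw [encard_coe_eq_coe_finsetCard]
      exact_mod_cast hDc.trans h2
    · refine infinite_cl_off (D := (↑D : Set (V d))) (by rw [← hD]; exact hclosed t) hb.1 ?_
      rintro ⟨hf, hc⟩
      refine hF4 (Or.inl ⟨D, hDc, ⟨t, hD⟩, b, hb, hf, ?_⟩)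
      rw [hf.encard_eq_coe_toFinset_card, ← ncard_eq_toFinset_card _ hf] at hc
      have : N < (Cl (op q U) (↑D)ᶜ b).ncard := by
        by_contra hcon
        push Not at hcon
        exact hc (by exact_mod_cast hcon)
      exact_mod_cast hm2.trans this.le
  by_cases hsm : ∃ D : Finset (V d), Bl (costE g q U) univ x t = ↑D ∧ D.card < N1
  · obtain ⟨D, hD, hDc⟩ := hsm
    refine key D hD (hDc.le.trans ?_)
    exact (Nat.le_add_right _ _).trans h12
  -- the first large ball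
  have hex : ∃ s, ¬ ∃ D : Finset (V d), Bl (costE g q U) univ x s = ↑D ∧ D.card < N1 := ⟨t, hsm⟩
  set s := Nat.find hex with hs
  have hs1 : ¬ ∃ D : Finset (V d), Bl (costE g q U) univ x s = ↑D ∧ D.card < N1 :=
    Nat.find_spec hex
  have hs2 : ∀ s' < s, ∃ D : Finset (V d), Bl (costE g q U) univ x s' = ↑D ∧ D.card < N1 := by
    intro s' hs'
    have := Nat.find_min hex hs'
    push Not at this
    exact this
  have hst : s ≤ t := Nat.find_min' hex hsm
  have hinfs : ∀ z ∈ Bl (costE g q U) univ x s, ¬ (Cl (op q U) univ z).Infinite :=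
    fun z hz => ht z (bl_mono _ _ _ hst hz)
  -- it is finite and not larger than `N2`
  have hfin : ∃ D : Finset (V d), Bl (costE g q U) univ x s = ↑D ∧ D.card ≤ N2 := by
    rcases Nat.eq_zero_or_pos s with h0 | h0
    · have hcl : Bl (costE g q U) univ x s = Cl (op q U) univ x := by rw [h0]; exact bl_zero hg1
      have hx : (Cl (op q U) univ x).Finite :=
        not_infinite.1 (hinfs x (mem_bl_self _ (mem_univ x) _))
      refine ⟨hx.toFinset, by rw [hcl, Finite.coe_toFinset], ?_⟩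
      rw [← ncard_eq_toFinset_card _ hx]
      by_contra hcon
      push Not at hcon
      refine hF3 (Or.inr ⟨hx, ?_⟩)
      exact_mod_cast hm1.trans hcon.le
    · obtain ⟨r, hr⟩ : ∃ r, s = r + 1 := ⟨s - 1, by omega⟩
      obtain ⟨D, hD, hDc⟩ := hs2 r (by omega)
      obtain ⟨D', hD', hDc'⟩ := growth hg1 hF3 D hD hDc.le (by rw [← hr]; exact hinfs)
      refine ⟨D', by rw [hr]; exact hD', hDc'.trans (le_trans ?_ h12)⟩
      gcongr
  obtain ⟨D, hD, hDc⟩ := hfin
  have hDN1 : N1 ≤ D.card := by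
    by_contra hcon
    push Not at hcon
    exact hs1 ⟨D, hD, hcon⟩
  have hfirst : U ∈ first g q x N1 D := by
    refine ⟨hDN1, ⟨s, hD⟩, ?_⟩
    rintro D' hD' hDN' ⟨s', hs'⟩
    have h3 : s' < s := by
      by_contra hcon
      push Not at hcon
      have h4 := bl_mono (costE g q U) univ x hcon
      rw [hD, hs'] at h4
      exact hD'.2 (by exact_mod_cast h4)
    obtain ⟨D'', h5, h6⟩ := hs2 s' h3
    rw [hs'] at h5
    have h7 : D' = D'' := by exact_mod_cast h5
    rw [h7] at hDN'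
    omega
  have hJ : (J : ℕ∞) ≤ (Exits (op q U) univ (Bl (costE g q U) univ x s)).encard := by
    rw [hD]
    by_contra hcon
    exact hF1 ⟨D, hfirst, hcon⟩
  have hts : t ≤ s := by
    by_contra hcon
    push Not at hcon
    exact hF2 ⟨s, fun z hz => ht z (bl_mono _ _ _ hcon hz), hJ⟩
  have hts' : t = s := le_antisymm hts hst
  rw [← hts'] at hD
  exact key D hD hDc

theorem numerics {δ : ℝ} (hδ : 0 < δ) (m1 : ℕ) (hm1 : (m1 : ℝ) ≤ 1 / δ ^ 510)
    (h : δ ≤ 1 / (2 ^ 14 * (2 * d + 1))) :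
    ⌈1 / δ ^ 41⌉₊ + 2 * d * ⌈1 / δ ^ 41⌉₊ * m1 ≤ ⌈1 / δ ^ 560⌉₊ := by
  have hd : (0 : ℝ) < 2 * d + 1 := by positivity
  have h1 : δ * (2 ^ 14 * (2 * d + 1)) ≤ 1 := by
    rwa [le_div_iff₀ (by positivity)] at h
  have hδ1 : δ ≤ 1 := by
    have : (1 : ℝ) ≤ 2 ^ 14 * (2 * d + 1) := by
      have : (0 : ℝ) ≤ d := Nat.cast_nonneg d
      nlinarith
    nlinarith
  have e1 : (⌈1 / δ ^ 41⌉₊ : ℝ) ≤ 2 / δ ^ 41 := by
    have h2 := Nat.ceil_lt_add_one (a := 1 / δ ^ 41) (by positivity)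
    have h3 : 1 ≤ 1 / δ ^ 41 := by
      rw [le_div_iff₀ (by positivity), one_mul]
      exact pow_le_one₀ hδ.le hδ1
    calc (⌈1 / δ ^ 41⌉₊ : ℝ) ≤ 1 / δ ^ 41 + 1 / δ ^ 41 := by linarith
      _ = 2 / δ ^ 41 := by ring
  have e2 : (1 : ℝ) ≤ 1 / δ ^ 510 := by
    rw [le_div_iff₀ (by positivity), one_mul]
    exact pow_le_one₀ hδ.le hδ1
  have e3 : (1 + 2 * d * m1 : ℝ) ≤ (2 * d + 1) * (1 / δ ^ 510) := by
    have : (0 : ℝ) ≤ d := Nat.cast_nonneg d
    nlinarith
  have e4 : (⌈1 / δ ^ 41⌉₊ : ℝ) * (1 + 2 * d * m1) ≤ 1 / δ ^ 560 := by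
    calc (⌈1 / δ ^ 41⌉₊ : ℝ) * (1 + 2 * d * m1) ≤ (2 / δ ^ 41) * ((2 * d + 1) * (1 / δ ^ 510)) :=
          mul_le_mul e1 e3 (by positivity) (by positivity)
      _ = (2 * (2 * d + 1)) / δ ^ 551 := by
          rw [show (551 : ℕ) = 41 + 510 from rfl, pow_add]
          field_simp
      _ ≤ (1 / δ) / δ ^ 551 := by
          apply div_le_div_of_nonneg_right _ (by positivity)
          rw [le_div_iff₀ hδ]
          nlinarith
      _ = 1 / δ ^ 552 := by
          rw [show (552 : ℕ) = 551 + 1 from rfl, pow_succ]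
          field_simp
      _ ≤ 1 / δ ^ 560 := by
          apply one_div_le_one_div_of_le (by positivity)
          exact pow_le_pow_of_le_one hδ.le hδ1 (by norm_num)
  have e5 : ((⌈1 / δ ^ 41⌉₊ + 2 * d * ⌈1 / δ ^ 41⌉₊ * m1 : ℕ) : ℝ) ≤ (⌈1 / δ ^ 560⌉₊ : ℝ) := by
    refine le_trans ?_ (Nat.le_ceil _)
    push_cast
    calc (⌈1 / δ ^ 41⌉₊ : ℝ) + 2 * d * ⌈1 / δ ^ 41⌉₊ * m1
        = (⌈1 / δ ^ 41⌉₊ : ℝ) * (1 + 2 * d * m1) := by ring
      _ ≤ 1 / δ ^ 560 := e4
  exact_mod_cast e5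

end Volume

open Volume in
theorem good_level {a : ℕ} {pc : ℝ} (h : HD d a pc) : ∃ C > 0, ∃ δ₀ > 0, ∀ δ, 0 < δ → δ ≤ δ₀ →
    ∀ (g : ℝ → ℕ), Monotone g → (∀ u, 1 ≤ g u) → ∀ q', pc + 4 * δ ≤ q' → q' ≤ 1 →
      (∀ u ≤ q', g u = 1) → ∃ q, pc + δ ≤ q ∧ q ≤ pc + 2 * δ ∧ ∀ x : V d,
        (P d).real {U : Cfg d | ¬ GoodV (costE g q U) (op q U) x ⌈1 / δ ^ CV⌉₊} ≤
          C * (Real.sqrt δ / (q' - pc)) := by
  obtain ⟨C1, hC1, δ1, hδ1, hS⟩ := strong_exits h
  obtain ⟨δ2, hδ2, hGP⟩ := good_param h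
  have hpc := h.pos
  haveI := h.neZero
  have hd : (0 : ℝ) < 2 * d + 1 := by positivity
  refine ⟨2 * C1 + 6, by positivity, min (min (δ1 / 2) δ2) (1 / (2 ^ 14 * (2 * d + 1))),
    by positivity, ?_⟩
  intro δ hδ hδ0 g hg hg1 q' hq' hq'1 hgq
  have e1 : δ ≤ δ1 / 2 := hδ0.trans ((min_le_left _ _).trans (min_le_left _ _))
  have e2 : δ ≤ δ2 := hδ0.trans ((min_le_left _ _).trans (min_le_right _ _))
  have e3 : δ ≤ 1 / (2 ^ 14 * (2 * d + 1)) := hδ0.trans (min_le_right _ _)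
  have e4 : δ * (2 ^ 14 * (2 * d + 1)) ≤ 1 := by rwa [le_div_iff₀ (by positivity)] at e3
  have hd0 : (0 : ℝ) ≤ d := Nat.cast_nonneg d
  have e5 : 2 ^ 14 * δ ≤ 1 := by nlinarith
  have e6 : δ ≤ 1 := by nlinarith
  obtain ⟨q, hq1, hq2, ⟨n₁, hn1, hn2, hn3⟩, ⟨m1, hm1, hG1⟩, ⟨m2, hm2, hG2⟩⟩ := hGP δ hδ e2 g hg hg1
  refine ⟨q, hq1, hq2, fun x => ?_⟩
  set ε := q - pc with hε
  have hε1 : δ ≤ ε := by linarith
  have hε2 : ε ≤ 2 * δ := by linarith
  have hε0 : 0 < ε := hδ.trans_le hε1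
  have hqe : pc + ε = q := by rw [hε]; ring
  set w := q' - pc with hw
  have hw0 : 0 < w := by linarith
  have hw1 : w ≤ 1 := by linarith
  have hqw : w / 2 ≤ q' - q := by linarith
  set J := ⌊1 / Real.sqrt ε⌋₊ + 1 with hJ
  set N1 := ⌈1 / δ ^ 41⌉₊ with hN1
  set N2 := ⌈1 / δ ^ 560⌉₊ with hN2
  set N := ⌈1 / δ ^ CV⌉₊ with hN
  have hsδ : 0 < Real.sqrt δ := Real.sqrt_pos.2 hδ
  have hsε : 0 < Real.sqrt ε := Real.sqrt_pos.2 hε0
  have hsε2 : Real.sqrt ε ≤ 2 * Real.sqrt δ := by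
    rw [show (2 : ℝ) * Real.sqrt δ = Real.sqrt (4 * δ) by
      rw [Real.sqrt_mul (by norm_num), show (4 : ℝ) = 2 ^ 2 by norm_num,
        Real.sqrt_sq (by norm_num)]]
    exact Real.sqrt_le_sqrt (by linarith)
  -- the four bad events
  have hP1 := few_exits hg q x N1 J (C1 * Real.sqrt ε) (by positivity) (by
    intro D hD
    have h1 := hS ε hε0 (by linarith) n₁ hn1 ?_ ?_ D ?_
    · rw [hqe] at h1
      refine (measureReal_mono ?_).trans h1
      intro U hU
      simp only [mem_ofPred_eq] at hU ⊢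
      have hf := exits_finite (op q U) univ D
      rw [hf.encard_eq_coe_toFinset_card, ← ncard_eq_toFinset_card _ hf] at hU
      have h2 : (Exits (op q U) univ (↑D : Set (V d))).ncard < J := by
        by_contra hcon
        push Not at hcon
        exact hU (by exact_mod_cast hcon)
      exact (Nat.le_floor_iff (by positivity)).1 (Nat.lt_succ_iff.1 h2)
    · refine hn2.trans (one_div_le_one_div_of_le (by positivity) ?_)
      calc ε ^ 14 ≤ (2 * δ) ^ 14 := pow_le_pow_left₀ hε0.le hε2 14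
        _ = (2 ^ 14 * δ) * δ ^ 13 := by ring
        _ ≤ 1 * δ ^ 13 := by gcongr
        _ = δ ^ 13 := one_mul _
    · rw [hqe]
      exact hn3.trans (pow_le_pow_left₀ hδ.le hε1 2)
    · have h2 : (1 : ℝ) / ε ^ 40 ≤ 1 / δ ^ 41 := by
        apply one_div_le_one_div_of_le (by positivity)
        calc δ ^ 41 ≤ δ ^ 40 := pow_le_pow_of_le_one hδ.le e6 (by norm_num)
          _ ≤ ε ^ 40 := pow_le_pow_left₀ hδ.le hε1 40
      have h3 : (N1 : ℝ) ≤ (D.card : ℝ) := by exact_mod_cast hD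
      exact h2.trans ((Nat.le_ceil _).trans h3))
  have hP2 := fail_prob hg hg1 (q := q) (q' := q') (by linarith) (by linarith) hq'1 hgq x J
    (by omega)
  have hP3 := (gb_prob g q x N1 m1).trans hG1
  have hP4 := (gb_prob g q x N2 m2).trans hG2
  have h12 : N1 + 2 * d * N1 * m1 ≤ N2 := numerics hδ m1 hm1 e3
  have h2 : N2 ≤ N := by
    apply Nat.ceil_mono
    apply one_div_le_one_div_of_le (by positivity)
    exact pow_le_pow_of_le_one hδ.le e6 (by norm_num [CV])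
  have hm1' : m1 ≤ N2 := by
    have h3 : (m1 : ℝ) ≤ (N2 : ℝ) := by
      refine (hm1.trans ?_).trans (Nat.le_ceil _)
      apply one_div_le_one_div_of_le (by positivity)
      exact pow_le_pow_of_le_one hδ.le e6 (by norm_num)
    exact_mod_cast h3
  have hm2' : m2 ≤ N := by
    have h3 : (m2 : ℝ) ≤ (N : ℝ) := by
      refine (hm2.trans ?_).trans (Nat.le_ceil _)
      apply one_div_le_one_div_of_le (by positivity)
      exact pow_le_pow_of_le_one hδ.le e6 (by norm_num [CV])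
    exact_mod_cast h3
  set F1 : Set (Cfg d) := {U : Cfg d | ∃ D, U ∈ first g q x N1 D ∧
      ¬ (J : ℕ∞) ≤ (Exits (op q U) univ (↑D)).encard} with hF1
  set F2 : Set (Cfg d) := {U : Cfg d | ∃ t, (∀ z ∈ Bl (costE g q U) univ x (t + 1),
        ¬ (Cl (op q U) univ z).Infinite) ∧
      (J : ℕ∞) ≤ (Exits (op q U) univ (Bl (costE g q U) univ x t)).encard} with hF2
  have hsub : {U : Cfg d | ¬ GoodV (costE g q U) (op q U) x N} ⊆
      (F1 ∪ F2) ∪ (GB g q x N1 m1 ∪ GB g q x N2 m2) := by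
    intro U hU
    by_contra hcon
    simp only [mem_union, not_or] at hcon
    obtain ⟨⟨c1, c2⟩, c3, c4⟩ := hcon
    exact hU (goodV_of hg1 h12 h2 hm1' hm2' c1 c2 c3 c4)
  have hJr : 1 / Real.sqrt ε ≤ (J : ℝ) := by
    rw [hJ]; push_cast
    exact (Nat.lt_floor_add_one _).le
  have hP2' : 1 / ((J : ℝ) * (q' - q)) ≤ 4 * (Real.sqrt δ / w) := by
    have h3 : 0 < q' - q := by linarith
    calc 1 / ((J : ℝ) * (q' - q)) ≤ 1 / ((1 / Real.sqrt ε) * (w / 2)) := by
          apply one_div_le_one_div_of_le (by positivity)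
          gcongr
      _ = Real.sqrt ε * 2 / w := by field_simp
      _ ≤ (2 * Real.sqrt δ) * 2 / w := by gcongr
      _ = 4 * (Real.sqrt δ / w) := by ring
  have hδw : Real.sqrt δ ≤ Real.sqrt δ / w := by
    rw [le_div_iff₀ hw0]
    nlinarith
  calc (P d).real {U : Cfg d | ¬ GoodV (costE g q U) (op q U) x N}
      ≤ (P d).real ((F1 ∪ F2) ∪ (GB g q x N1 m1 ∪ GB g q x N2 m2)) := measureReal_mono hsub
    _ ≤ (P d).real (F1 ∪ F2) + (P d).real (GB g q x N1 m1 ∪ GB g q x N2 m2) :=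
        measureReal_union_le _ _
    _ ≤ ((P d).real F1 + (P d).real F2) +
        ((P d).real (GB g q x N1 m1) + (P d).real (GB g q x N2 m2)) :=
        add_le_add (measureReal_union_le _ _) (measureReal_union_le _ _)
    _ ≤ (C1 * Real.sqrt ε + 4 * (Real.sqrt δ / w)) + (Real.sqrt δ + Real.sqrt δ) := by
        have := hP2.trans hP2'
        gcongr
    _ ≤ (C1 * (2 * (Real.sqrt δ / w)) + 4 * (Real.sqrt δ / w)) +
        (Real.sqrt δ / w + Real.sqrt δ / w) := by
        have : Real.sqrt ε ≤ 2 * (Real.sqrt δ / w) := hsε2.trans (by linarith)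
        gcongr
    _ = (2 * C1 + 6) * (Real.sqrt δ / w) := by ring

end Pool.Agent.helper55.FP
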