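import Pool.Agent.helper55.FP.NDefs
import Pool.Agent.helper55.FP.LDefs
import Pool.Agent.helper55.FP.Conn
import Pool.Agent.helper55.FP.Paths
import Pool.Agent.helper55.FP.Meas
import Pool.Agent.helper55.FP.Indep
import Pool.Agent.helper55.FP.Resample
import Pool.Agent.helper55.FP.BK
import Pool.Agent.helper55.FP.Harris
import Pool.Agent.helper55.FP.Symm
import Pool.Agent.helper55.FP.LeftCont
import Pool.Agent.helper55.FP.Sprinkle
import Pool.Agent.helper55.FP.Costs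
import Pool.Agent.helper55.FP.Volume
import Pool.Agent.helper55.FP.LenProb

/-! Module Params: recursive choice of the levels. -/

set_option autoImplicit false

open MeasureTheory Set Filter Topology
open scoped ENNReal

namespace Pool.Agent.helper55.FP

variable {d : ℕ}

/-! ## FILE Params (F10) -/

namespace Params_aux

/-- profile of the next level -/
noncomputable def nxt (c : ℝ → ℕ) (p : ℝ) (m : ℕ) (p' : ℝ) (u : ℝ) : ℕ := by
  classical exact if u ≤ p' then 0 else if u ≤ p then 1 else m * c u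

/-- the state `(profile, level)` of the recursion. -/
structure Inv (pc δ₁ : ℝ) (s : (ℝ → ℕ) × ℝ) : Prop where
  gt : pc < s.2
  le : s.2 ≤ pc + δ₁
  prof : ∃ g : ℝ → ℕ, Monotone g ∧ (∀ u, 1 ≤ g u) ∧ ∀ u, s.1 u = cost g s.2 u

theorem cost_mono {g : ℝ → ℕ} (hg : Monotone g) (q : ℝ) : Monotone (cost g q) := by
  classical
  intro u v huv
  unfold cost
  by_cases h1 : u ≤ q
  · simp [h1]
  · have h2 : ¬ v ≤ q := fun h => h1 (huv.trans h)
    simp only [if_neg h1, if_neg h2]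
    exact hg huv

theorem Inv.meas {pc δ₁ : ℝ} {s : (ℝ → ℕ) × ℝ} (h : Inv pc δ₁ s) : Measurable s.1 := by
  obtain ⟨g, hg, -, hs⟩ := h.prof
  have : s.1 = cost g s.2 := funext hs
  rw [this]
  exact (cost_mono hg s.2).measurable

/-- the function `g` of the next level. -/
noncomputable def gn (c : ℝ → ℕ) (p : ℝ) (m : ℕ) (u : ℝ) : ℕ := by
  classical exact if u ≤ p then 1 else m * c u

theorem nxt_eq (c : ℝ → ℕ) (p : ℝ) (m : ℕ) (p' : ℝ) (u : ℝ) :
    nxt c p m p' u = cost (gn c p m) p' u := by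
  unfold nxt cost gn
  rfl

theorem gn_le {c : ℝ → ℕ} {p : ℝ} {m : ℕ} {u : ℝ} (h : u ≤ p) : gn c p m u = 1 := by
  unfold gn; simp [h]

theorem gn_props {pc δ₁ : ℝ} {s : (ℝ → ℕ) × ℝ} (h : Inv pc δ₁ s) {m : ℕ} (hm : 1 ≤ m) :
    Monotone (gn s.1 s.2 m) ∧ ∀ u, 1 ≤ gn s.1 s.2 m u := by
  classical
  obtain ⟨g, hg, hg1, hs⟩ := h.prof
  have h1 : ∀ u, s.2 < u → s.1 u = g u := by
    intro u hu
    rw [hs u]; unfold cost; rw [if_neg (not_le.2 hu)]
  have hone : ∀ u, 1 ≤ gn s.1 s.2 m u := by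
    intro u
    unfold gn
    by_cases hu : u ≤ s.2
    · simp [hu]
    · simp only [if_neg hu]
      rw [h1 u (not_le.1 hu)]
      exact Nat.one_le_iff_ne_zero.2 (Nat.mul_ne_zero (by omega) (by have := hg1 u; omega))
  refine ⟨?_, hone⟩
  intro u v huv
  by_cases hu : u ≤ s.2
  · rw [gn_le hu]; exact hone v
  · have hv : ¬ v ≤ s.2 := fun h => hu (huv.trans h)
    unfold gn
    simp only [if_neg hu, if_neg hv]
    rw [h1 u (not_le.1 hu), h1 v (not_le.1 hv)]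
    exact Nat.mul_le_mul_left m (hg huv)

theorem inf_mono {q q' : ℝ} (h : q ≤ q') (U : Cfg d) : Inf q U ⊆ Inf q' U := by
  intro z hz
  exact Set.Infinite.mono (cl_mono (op_mono h U) (Subset.refl _) z) hz

theorem len1_mono {c : E d → ℕ} {O : Set (E d)} {x : V d} {I I' I'' : Set (V d)} {m : ℕ}
    (hI : I' ⊆ I'') (h : Len1 c O x I I' m) : Len1 c O x I I'' m := by
  obtain ⟨n, z, j, h1, ⟨z', h2, h3⟩, h4⟩ := h
  exact ⟨n, z, j, h1, ⟨z', h2, hI h3⟩, h4⟩

/-- what one step of the recursion gives. -/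
structure StepOut (d : ℕ) (pc : ℝ) (K : ℕ) (C : ℝ) (x y : V d) (ε : ℝ) (s : (ℝ → ℕ) × ℝ)
    (m : ℕ) (p' : ℝ) : Prop where
  m1 : 1 ≤ m
  lo : pc + (s.2 - pc) ^ K ≤ p'
  hi : p' ≤ pc + 2 * (s.2 - pc) ^ K
  vol : ∀ z : V d, (P d).real {U : Cfg d | ¬ GoodV (fun e => nxt s.1 s.2 m p' (U e)) (op p' U) z
        ⌈1 / ((s.2 - pc) ^ K) ^ CV⌉₊} ≤ C * (Real.sqrt ((s.2 - pc) ^ K) / (s.2 - pc))
  len : (P d).real {U : Cfg d | ¬ (
        Len1 (fun e => s.1 (U e)) (op s.2 U) x (Inf s.2 U) (Inf p' U) m ∧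
        Len1 (fun e => s.1 (U e)) (op s.2 U) y (Inf s.2 U) (Inf p' U) m ∧
        Len2 (fun e => s.1 (U e)) (op s.2 U) x y (Inf s.2 U) m)} ≤ ε

theorem pow_small {t : ℝ} (h0 : 0 < t) (h1 : t ≤ 1 / 4) {K : ℕ} (hK : 2 ≤ K) :
    0 < t ^ K ∧ 4 * t ^ K ≤ t := by
  refine ⟨pow_pos h0 K, ?_⟩
  have h2 : t ^ K ≤ t ^ 2 := pow_le_pow_of_le_one h0.le (by linarith) hK
  nlinarith

end Params_aux

open Params_aux

/-- choice of the levels and of the ratios of the weights -/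
theorem exists_params {a : ℕ} {pc : ℝ} (h : HD d a pc) (K : ℕ) (hK : 2 ≤ K) : ∃ C > 0, ∃ δ₀ > 0,
    ∀ δ₁, 0 < δ₁ → δ₁ ≤ δ₀ → ∀ (x y : V d) (ε : ℝ), 0 < ε →
    ∃ (pl : ℕ → ℝ) (M : ℕ → ℕ), StrictAnti pl ∧ (∀ k, 1 ≤ M k) ∧ pl 0 = pc + δ₁ ∧
      (∀ k, pc + (pl k - pc) ^ K ≤ pl (k + 1) ∧ pl (k + 1) ≤ pc + 2 * (pl k - pc) ^ K) ∧
      (∀ k, ∀ z : V d, (P d).real {U : Cfg d | ¬ GoodV (cE pl M (k + 1) U) (op (pl (k + 1)) U) z
        ⌈1 / ((pl k - pc) ^ K) ^ CV⌉₊} ≤ C * (Real.sqrt ((pl k - pc) ^ K) / (pl k - pc))) ∧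
      (∀ k, (P d).real {U : Cfg d | ¬ (
        Len1 (cE pl M k U) (op (pl k) U) x (Inf (pl k) U) (Inf (pl (k + 1)) U) (M k) ∧
        Len1 (cE pl M k U) (op (pl k) U) y (Inf (pl k) U) (Inf (pl (k + 1)) U) (M k) ∧
        Len2 (cE pl M k U) (op (pl k) U) x y (Inf (pl k) U) (M k))} ≤ ε / 2 ^ k) := by
  classical
  obtain ⟨C, hC, δg, hδg, hgl⟩ := good_level h
  refine ⟨C, hC, min (min δg (1 / 4)) ((1 - pc) / 2), ?_, ?_⟩
  · refine lt_min (lt_min hδg (by norm_num)) ?_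
    have := h.lt_one
    linarith
  intro δ₁ hδ₁ hδ₁' x y ε hε
  have hd1 : δ₁ ≤ δg := hδ₁'.trans ((min_le_left _ _).trans (min_le_left _ _))
  have hd2 : δ₁ ≤ 1 / 4 := hδ₁'.trans ((min_le_left _ _).trans (min_le_right _ _))
  have hd3 : δ₁ ≤ (1 - pc) / 2 := hδ₁'.trans (min_le_right _ _)
  have hlt1 := h.lt_one
  -- one step
  have step : ∀ (k : ℕ) (s : (ℝ → ℕ) × ℝ), Inv pc δ₁ s →
      ∃ (m : ℕ) (p' : ℝ), StepOut d pc K C x y (ε / 2 ^ k) s m p' := by
    intro k s hs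
    have ht0 : 0 < s.2 - pc := by linarith [hs.gt]
    have ht1 : s.2 - pc ≤ 1 / 4 := by linarith [hs.le]
    obtain ⟨hp0, hp4⟩ := pow_small ht0 ht1 hK
    have hεk : 0 < ε / 2 ^ k := by positivity
    obtain ⟨m, hm1, hm⟩ := len_prob h (q := s.2) (q₀ := pc + (s.2 - pc) ^ K) (by linarith)
      (by linarith) (by linarith [hs.le]) s.1 hs.meas x y (ε / 2 ^ k) hεk
    obtain ⟨hgm, hg1⟩ := gn_props hs hm1
    obtain ⟨p', hp1, hp2, hvol⟩ := hgl ((s.2 - pc) ^ K) hp0 (by linarith [hs.le]) (gn s.1 s.2 m) hgm hg1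
      s.2 (by linarith) (by linarith [hs.le]) (fun u hu => gn_le hu)
    refine ⟨m, p', hm1, hp1, hp2, ?_, ?_⟩
    · intro z
      have heq : ∀ U : Cfg d, (fun e => nxt s.1 s.2 m p' (U e)) = costE (gn s.1 s.2 m) p' U := by
        intro U
        funext e
        exact nxt_eq _ _ _ _ _
      simp only [heq]
      exact hvol z
    · refine le_trans (measureReal_mono ?_) hm
      intro U hU hcon
      refine hU ⟨len1_mono (inf_mono hp1 U) hcon.1, len1_mono (inf_mono hp1 U) hcon.2.1,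
        hcon.2.2⟩
  -- the invariant is preserved
  have hnext : ∀ (k : ℕ) (s : (ℝ → ℕ) × ℝ), Inv pc δ₁ s → ∀ (m : ℕ) (p' : ℝ),
      StepOut d pc K C x y (ε / 2 ^ k) s m p' → Inv pc δ₁ (nxt s.1 s.2 m p', p') := by
    intro k s hs m p' ho
    have ht0 : 0 < s.2 - pc := by linarith [hs.gt]
    have ht1 : s.2 - pc ≤ 1 / 4 := by linarith [hs.le]
    obtain ⟨hp0, hp4⟩ := pow_small ht0 ht1 hK
    obtain ⟨hgm, hg1⟩ := gn_props hs ho.m1
    refine ⟨?_, ?_, gn s.1 s.2 m, hgm, hg1, fun u => nxt_eq _ _ _ _ _⟩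
    · have := ho.lo
      change pc < p'
      linarith
    · have := ho.hi
      have := hs.le
      change p' ≤ pc + δ₁
      linarith
  choose fm fp hf using step
  -- the sequence of states
  let St := {s : (ℝ → ℕ) × ℝ // Inv pc δ₁ s}
  have hinit : Inv pc δ₁ (cost (fun _ => 1) (pc + δ₁), pc + δ₁) := by
    refine ⟨?_, le_rfl, fun _ => 1, fun _ _ _ => le_rfl, fun _ => le_rfl, fun _ => rfl⟩
    change pc < pc + δ₁
    linarith
  let s0 : St := ⟨(cost (fun _ => 1) (pc + δ₁), pc + δ₁), hinit⟩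
  let nx : ℕ → St → St := fun k s =>
    ⟨(nxt s.1.1 s.1.2 (fm k s.1 s.2) (fp k s.1 s.2), fp k s.1 s.2),
      hnext k s.1 s.2 _ _ (hf k s.1 s.2)⟩
  let sq : ℕ → St := fun k => Nat.rec s0 (fun k s => nx k s) k
  have hsq : ∀ k, sq (k + 1) = nx k (sq k) := fun k => rfl
  let pl : ℕ → ℝ := fun k => (sq k).1.2
  let M : ℕ → ℕ := fun k => fm k (sq k).1 (sq k).2
  have hpl : ∀ k, pl (k + 1) = fp k (sq k).1 (sq k).2 := fun k => rfl
  have hcst : ∀ k, ∀ u, cst pl M k u = (sq k).1.1 u := by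
    intro k
    induction k with
    | zero =>
      intro u
      change cst pl M 0 u = cost (fun _ => 1) (pc + δ₁) u
      unfold cst cost
      rfl
    | succ k ih =>
      intro u
      change cst pl M (k + 1) u = nxt (sq k).1.1 (sq k).1.2 (M k) (pl (k + 1)) u
      unfold cst nxt
      rw [ih u]
  have hout : ∀ k, StepOut d pc K C x y (ε / 2 ^ k) (sq k).1 (M k) (pl (k + 1)) :=
    fun k => hf k (sq k).1 (sq k).2
  have hcE : ∀ k (U : Cfg d), cE pl M k U = fun e => (sq k).1.1 (U e) := by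
    intro k U
    funext e
    exact hcst k (U e)
  refine ⟨pl, M, ?_, fun k => (hout k).m1, rfl, fun k => ⟨(hout k).lo, (hout k).hi⟩, ?_, ?_⟩
  · refine strictAnti_nat_of_succ_lt fun k => ?_
    have hs := (sq k).2
    have ht0 : 0 < (sq k).1.2 - pc := by linarith [hs.gt]
    have ht1 : (sq k).1.2 - pc ≤ 1 / 4 := by linarith [hs.le]
    obtain ⟨hp0, hp4⟩ := pow_small ht0 ht1 hK
    have := (hout k).hi
    change pl (k + 1) < (sq k).1.2
    linarith
  · intro k z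
    have h1 := (hout k).vol z
    have h2 : ∀ U : Cfg d, cE pl M (k + 1) U =
        fun e => nxt (sq k).1.1 (sq k).1.2 (M k) (pl (k + 1)) (U e) := by
      intro U
      rw [hcE (k + 1) U]
    simp only [h2]
    exact h1
  · intro k
    have h1 := (hout k).len
    simp only [hcE k]
    exact h1

end Pool.Agent.helper55.FP
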