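import Pool.Agent.helper55.FP.NDefs
import Pool.Agent.helper55.FP.LDefs
import Pool.Agent.helper55.FP.Conn
import Pool.Agent.helper55.FP.Paths
import Pool.Agent.helper55.FP.Meas
import Pool.Agent.helper55.FP.Indep
import Pool.Agent.helper55.FP.Resample
import Pool.Agent.helper55.FP.BK
import Pool.Agent.helper55.FP.Harris
import Pool.Agent.helper55.FP.Symm
import Pool.Agent.helper55.FP.LeftCont
import Pool.Agent.helper55.FP.Sprinkle
import Pool.Agent.helper55.FP.Balls
import Pool.Agent.helper55.FP.BallLoc

/-! Module Ratio: the law of small balls hardly depends on the level in a small window. -/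

set_option autoImplicit false

open MeasureTheory Set Filter Topology
open scoped ENNReal

namespace Pool.Agent.helper55.FP

variable {d : ℕ}

/-! ## FILE Ratio (N6) -/

namespace Ratio_aux

/-- the edges touching `D`, as a finset -/
noncomputable def tf (D : Finset (V d)) : Finset (E d) := by
  classical
  exact (D ×ˢ (Finset.univ : Finset (Fin d))) ∪
    (D ×ˢ (Finset.univ : Finset (Fin d))).image (fun p => (p.1 - Pi.single p.2 1, p.2))

theorem touch_sub (D : Finset (V d)) {e : E d} (he : e ∈ touch (↑D : Set (V d))) : e ∈ tf D := by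
  classical
  unfold tf
  rw [Finset.mem_union]
  rcases he with h | h
  · left
    exact Finset.mem_product.2 ⟨h, Finset.mem_univ _⟩
  · right
    refine Finset.mem_image.2 ⟨(tip e, e.2), Finset.mem_product.2 ⟨h, Finset.mem_univ _⟩, ?_⟩
    ext1
    · simp [tip]
    · rfl

theorem tf_card (D : Finset (V d)) : (tf D).card ≤ 2 * d * D.card := by
  classical
  unfold tf
  refine (Finset.card_union_le _ _).trans ?_
  have h1 : (D ×ˢ (Finset.univ : Finset (Fin d))).card = D.card * d := by
    rw [Finset.card_product, Finset.card_univ, Fintype.card_fin]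
  have h2 : ((D ×ˢ (Finset.univ : Finset (Fin d))).image
      (fun p => (p.1 - Pi.single p.2 1, p.2))).card ≤ D.card * d := by
    refine Finset.card_image_le.trans ?_
    rw [h1]
  rw [h1]
  calc D.card * d + _ ≤ D.card * d + D.card * d := Nat.add_le_add_left h2 _
    _ = 2 * d * D.card := by ring

theorem measurable_upd0 (e : E d) : Measurable (fun U : Cfg d => Function.update U e 0) := by
  have h := (measurable_update_pair (d := d) e).comp
    (measurable_id.prodMk (measurable_const (a := (0 : ℝ))))
  exact h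

theorem unif_Ioc {p q : ℝ} (hp : 0 ≤ p) (hpq : p ≤ q) (hq : q ≤ 1) :
    unif.real (Ioc p q) = q - p := by
  rw [measureReal_def]
  unfold unif
  rw [Measure.restrict_apply measurableSet_Ioc, inter_eq_self_of_subset_left, Real.volume_Ioc,
    ENNReal.toReal_ofReal (by linarith)]
  intro x hx
  exact ⟨hp.trans hx.1.le, hx.2.trans hq⟩

/-- an event which does not feel the value of `U e` below `q'`. -/
theorem slice {q q' : ℝ} (hq : 0 ≤ q) (hqq : q ≤ q') (hq' : q' ≤ 1) (e : E d)
    {A : Set (Cfg d)} (hA : MeasurableSet A)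
    (hs : ∀ (U : Cfg d) (s : ℝ), s ≤ q' → (Function.update U e s ∈ A ↔ Function.update U e 0 ∈ A)) :
    (P d).real (A ∩ {U | q < U e ∧ U e ≤ q'}) =
      (q' - q) * (P d).real {U | Function.update U e 0 ∈ A} := by
  have hmeas : MeasurableSet (A ∩ {U : Cfg d | q < U e ∧ U e ≤ q'}) := by
    refine hA.inter ?_
    have : {U : Cfg d | q < U e ∧ U e ≤ q'} = (fun U : Cfg d => U e) ⁻¹' (Ioc q q') := rfl
    rw [this]
    exact (measurable_pi_apply e) measurableSet_Ioc
  rw [← (measurePreserving_update e).measureReal_preimage hmeas.nullMeasurableSet]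
  have hset : (fun z : Cfg d × ℝ => Function.update z.1 e z.2) ⁻¹'
      (A ∩ {U : Cfg d | q < U e ∧ U e ≤ q'}) =
      {U : Cfg d | Function.update U e 0 ∈ A} ×ˢ (Ioc q q') := by
    ext ⟨U, s⟩
    simp only [mem_preimage, mem_inter_iff, mem_setOf_eq, Function.update_self, mem_prod, mem_Ioc]
    constructor
    · rintro ⟨h1, h2, h3⟩
      exact ⟨(hs U s h3).1 h1, h2, h3⟩
    · rintro ⟨h1, h2, h3⟩
      exact ⟨(hs U s h3).2 h1, h2, h3⟩
  rw [hset, measureReal_prod_prod, unif_Ioc hq hqq hq', mul_comm]

end Ratio_aux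

open Ratio_aux

/-- the law of the balls of size `≤ N` hardly depends on `q` in a window of width `≪ 1/N` -/
theorem ball_ratio {g : ℝ → ℕ} (hg : Monotone g) (hg1 : ∀ u, 1 ≤ g u) {q q' : ℝ} (hq : 0 < q)
    (hqq : q ≤ q') (hq' : q' ≤ 1) (D : Finset (V d)) (x : V d)
    (hD : 4 * d * D.card * (q' - q) ≤ q) :
    (P d).real {U : Cfg d | ∃ t, Bl (costE g q' U) univ x t = ↑D} ≤
      2 * (P d).real {U : Cfg d | ∃ t, Bl (costE g q U) univ x t = ↑D} := by
  classical
  set A : Set (Cfg d) := {U : Cfg d | ∃ t, Bl (costE g q' U) univ x t = ↑D} with hAdef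
  set B : Set (Cfg d) := {U : Cfg d | ∃ t, Bl (costE g q U) univ x t = ↑D} with hBdef
  have hAm : MeasurableSet A := by
    have : A = ⋃ t, {U : Cfg d | Bl (costE g q' U) univ x t = ↑D} := by
      ext U; simp [hAdef]
    rw [this]
    exact MeasurableSet.iUnion fun t => measurableSet_bl_eq hg q' univ _ x t
  -- the slice property
  have hs : ∀ (e : E d) (U : Cfg d) (s : ℝ), s ≤ q' →
      (Function.update U e s ∈ A ↔ Function.update U e 0 ∈ A) := by
    intro e U s hsq
    have : costE g q' (Function.update U e s) = costE g q' (Function.update U e 0) := by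
      funext e'
      by_cases h : e' = e
      · subst h
        simp only [costE, Function.update_self, cost, if_pos hsq, if_pos (hq.le.trans hqq)]
      · simp only [costE, Function.update_of_ne h]
    simp only [hAdef, mem_setOf_eq, this]
  have hq'0 : 0 < q' := hq.trans_le hqq
  have hone : ∀ e : E d, (P d).real (A ∩ {U | q < U e ∧ U e ≤ q'}) ≤
      (q' - q) / q' * (P d).real A := by
    intro e
    rw [slice hq.le hqq hq' e hAm (hs e)]
    have h1 := slice (le_refl (0 : ℝ)) hq'0.le hq' e hAm (hs e)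
    have h2 : (P d).real (A ∩ {U | 0 < U e ∧ U e ≤ q'}) ≤ (P d).real A :=
      measureReal_mono inter_subset_left
    rw [h1, sub_zero] at h2
    rw [div_mul_eq_mul_div, le_div_iff₀ hq'0]
    calc (q' - q) * (P d).real {U | Function.update U e 0 ∈ A} * q'
        = (q' - q) * (q' * (P d).real {U | Function.update U e 0 ∈ A}) := by ring
      _ ≤ (q' - q) * (P d).real A := mul_le_mul_of_nonneg_left h2 (by linarith)
  have hcov : A ⊆ B ∪ ⋃ e ∈ tf D, (A ∩ {U : Cfg d | q < U e ∧ U e ≤ q'}) := by
    intro U hU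
    by_cases hex : ∃ e ∈ tf D, q < U e ∧ U e ≤ q'
    · right
      obtain ⟨e, he, h⟩ := hex
      exact mem_biUnion he ⟨hU, h⟩
    · left
      obtain ⟨t, ht⟩ := hU
      refine ⟨t, ?_⟩
      refine bl_eq_of_agree ?_ ht (mem_univ x)
      intro e he
      have hn : ¬ (q < U e ∧ U e ≤ q') := fun h => hex ⟨e, touch_sub D he.2, h⟩
      simp only [costE, cost]
      by_cases h1 : U e ≤ q
      · rw [if_pos (h1.trans hqq), if_pos h1]
      · have h2 : ¬ U e ≤ q' := fun h2 => hn ⟨not_le.1 h1, h2⟩
        rw [if_neg h1, if_neg h2]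
  have hA2 : (P d).real A ≤ (P d).real B + ∑ e ∈ tf D, (q' - q) / q' * (P d).real A := by
    calc (P d).real A ≤ (P d).real (B ∪ ⋃ e ∈ tf D, (A ∩ {U : Cfg d | q < U e ∧ U e ≤ q'})) :=
          measureReal_mono hcov
      _ ≤ (P d).real B + (P d).real (⋃ e ∈ tf D, (A ∩ {U : Cfg d | q < U e ∧ U e ≤ q'})) :=
          measureReal_union_le _ _
      _ ≤ (P d).real B + ∑ e ∈ tf D, (P d).real (A ∩ {U : Cfg d | q < U e ∧ U e ≤ q'}) := by
          gcongr
          exact measureReal_biUnion_finset_le _ _
      _ ≤ _ := by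
          gcongr with e _
          exact hone e
  rw [Finset.sum_const, nsmul_eq_mul] at hA2
  have hcard : ((tf D).card : ℝ) ≤ 2 * d * D.card := by exact_mod_cast tf_card D
  have hA0 : 0 ≤ (P d).real A := measureReal_nonneg
  have hhalf : ((tf D).card : ℝ) * ((q' - q) / q' * (P d).real A) ≤ (P d).real A / 2 := by
    have h3 : ((tf D).card : ℝ) * (q' - q) ≤ q' / 2 := by
      have : ((tf D).card : ℝ) * (q' - q) ≤ (2 * d * D.card) * (q' - q) :=
        mul_le_mul_of_nonneg_right hcard (by linarith)
      nlinarith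
    calc ((tf D).card : ℝ) * ((q' - q) / q' * (P d).real A)
        = (((tf D).card : ℝ) * (q' - q)) / q' * (P d).real A := by ring
      _ ≤ (q' / 2) / q' * (P d).real A := by gcongr
      _ = (P d).real A / 2 := by field_simp
  linarith

end Pool.Agent.helper55.FP
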