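import Pool.Agent.helper55.FP.NDefs
import Pool.Agent.helper55.FP.Conn
import Pool.Agent.helper55.FP.Meas
import Pool.Agent.helper55.FP.Indep
import Pool.Agent.helper55.FP.Symm
import Pool.Agent.helper55.FP.Pairs
import Pool.Agent.helper55.FP.Split
import Pool.Agent.helper55.FP.ExitLim

/-! Module Strong (helper36): large sets have many exits with high probability (Chebyshev). -/

set_option autoImplicit false

open MeasureTheory Set Filter Topology
open scoped ENNReal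

namespace Pool.Agent.helper55.FP

variable {d : ℕ}

namespace Strong_aux

/-- the sup norm as a natural number -/
def nn (v : V d) : ℕ := Finset.univ.sup fun i => (v i).natAbs

theorem natAbs_le_nn (v : V d) (i : Fin d) : (v i).natAbs ≤ nn v :=
  Finset.le_sup (f := fun i => (v i).natAbs) (Finset.mem_univ i)

theorem norm_eq (v : V d) : ‖v‖ = (nn v : ℝ) := by
  have hi : ∀ i, ‖v i‖ = ((v i).natAbs : ℝ) := by
    intro i
    rw [Int.norm_eq_abs, Nat.cast_natAbs]
    push_cast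
    rfl
  apply le_antisymm
  · rw [pi_norm_le_iff_of_nonneg (Nat.cast_nonneg _)]
    intro i
    rw [hi]
    exact_mod_cast natAbs_le_nn v i
  · have h : nn v ≤ ⌊‖v‖⌋₊ := by
      apply Finset.sup_le
      intro i _
      apply Nat.le_floor
      rw [← hi]
      exact norm_le_pi_norm v i
    exact (Nat.cast_le.2 h).trans (Nat.floor_le (norm_nonneg _))

theorem nn_adj {a b : V d} (h : Adj a b) : nn b ≤ nn a + 1 := by
  have h1 := Adj.norm h
  have h2 : ‖b‖ ≤ ‖a‖ + ‖b - a‖ := by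
    have := norm_add_le a (b - a)
    simpa using this
  rw [norm_eq, norm_eq] at h2
  have h3 : (nn b : ℝ) ≤ nn a + 1 := by linarith
  exact_mod_cast h3

theorem nn_step {O : Set (E d)} {W : Set (V d)} {a b : V d} (h : Step O W a b) :
    nn b ≤ nn a + 1 := by
  obtain ⟨-, -, e, -, he⟩ := h
  exact nn_adj ⟨e, he⟩

/-- a connection to a far vertex reaches the sphere inside the box -/
theorem cross {O : Set (E d)} {w z : V d} {N : ℕ} (h : Conn O univ w z) (hw : nn w ≤ N)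
    (hz : N ≤ nn z) : ∃ g, nn g = N ∧ Conn O {v | nn v ≤ N} w g := by
  obtain ⟨-, h⟩ := h
  have key : (∃ g, nn g = N ∧ Conn O {v : V d | nn v ≤ N} w g) ∨
      (Conn O {v : V d | nn v ≤ N} w z ∧ nn z ≤ N) := by
    clear hz
    induction h with
    | refl => exact Or.inr ⟨Conn.refl hw, hw⟩
    | @tail b c _ hs ih =>
      rcases ih with ih | ⟨ih1, ih2⟩
      · exact Or.inl ih
      · rcases Nat.lt_or_ge (nn b) N with hlt | hge
        · have hc : nn c ≤ N := (nn_step hs).trans (by omega)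
          obtain ⟨-, -, e, he1, he2⟩ := hs
          exact Or.inr ⟨ih1.snoc ⟨ih2, hc, e, he1, he2⟩, hc⟩
        · exact Or.inl ⟨b, le_antisymm ih2 hge, ih1⟩
  rcases key with h1 | ⟨h1, h2⟩
  · exact h1
  · exact ⟨z, le_antisymm h2 hz, h1⟩

theorem reach {O : Set (E d)} {W : Set (V d)} {w g : V d} (h : Conn O W w g) :
    ∀ k, nn w ≤ k → k ≤ nn g → ∃ z ∈ Cl O W w, nn z = k := by
  obtain ⟨hw, h⟩ := h
  induction h with
  | refl => exact fun k h1 h2 => ⟨w, Conn.refl hw, le_antisymm h1 h2⟩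
  | @tail b c hb hs ih =>
    intro k h1 h2
    rcases Nat.lt_or_ge (nn b) k with hlt | hge
    · have h3 := nn_step hs
      exact ⟨c, Conn.snoc ⟨hw, hb⟩ hs, by omega⟩
    · exact ih k h1 hge

theorem card_reach {O : Set (E d)} {W : Set (V d)} {w g : V d} (h : Conn O W w g) {n : ℕ}
    (hn : nn w + n ≤ nn g) : (n : ℕ∞) ≤ (Cl O W w).encard := by
  have h1 : (Finset.Ico (nn w) (nn w + n) : Set ℕ) ⊆ nn '' (Cl O W w) := by
    intro k hk
    rw [Finset.coe_Ico, Set.mem_Ico] at hk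
    obtain ⟨z, hz, hzk⟩ := reach h k hk.1 (by omega)
    exact ⟨z, hz, hzk⟩
  have h2 := (encard_le_encard h1).trans (encard_image_le _ _)
  rw [encard_coe_eq_coe_finsetCard, Nat.card_Ico] at h2
  simpa using h2

/-- Chebyshev around `t`, for a sum of indicators -/
theorem cheb {ι : Type} (S : Finset ι) (A : ι → Set (Cfg d)) (hA : ∀ i, MeasurableSet (A i))
    {t M : ℝ} (ht : 0 < t) (h1 : t ≤ ∑ i ∈ S, (P d).real (A i))
    (h2 : ∑ i ∈ S, ∑ j ∈ S, (P d).real (A i ∩ A j) ≤ (1 + M) * t ^ 2) :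
    (P d).real {U | ∑ i ∈ S, (A i).indicator (fun _ => (1 : ℝ)) U ≤ t / 2} ≤ 4 * M := by
  set X : Cfg d → ℝ := fun U => ∑ i ∈ S, (A i).indicator (fun _ => (1 : ℝ)) U with hX
  have hm : ∀ i, Measurable ((A i).indicator (fun _ : Cfg d => (1 : ℝ))) := fun i =>
    measurable_const.indicator (hA i)
  have hXm : Measurable X := Finset.measurable_fun_sum S fun i _ => hm i
  have hint1 : ∀ i, Integrable ((A i).indicator (fun _ : Cfg d => (1 : ℝ))) (P d) := fun i =>
    (integrable_const 1).indicator (hA i)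
  have hI1 : ∫ U, X U ∂(P d) = ∑ i ∈ S, (P d).real (A i) := by
    rw [hX, integral_finsetSum _ fun i _ => hint1 i]
    refine Finset.sum_congr rfl fun i _ => ?_
    rw [integral_indicator (hA i)]
    simp
  have hXX : ∀ U, X U ^ 2 = ∑ i ∈ S, ∑ j ∈ S, (A i ∩ A j).indicator (fun _ => (1 : ℝ)) U := by
    intro U
    rw [hX, sq, Finset.sum_mul_sum]
    refine Finset.sum_congr rfl fun i _ => Finset.sum_congr rfl fun j _ => ?_
    by_cases hi : U ∈ A i <;> by_cases hj : U ∈ A j <;> simp [hi, hj]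
  have hint2 : ∀ i j, Integrable ((A i ∩ A j).indicator (fun _ : Cfg d => (1 : ℝ))) (P d) :=
    fun i j => (integrable_const 1).indicator ((hA i).inter (hA j))
  have hI2 : ∫ U, X U ^ 2 ∂(P d) = ∑ i ∈ S, ∑ j ∈ S, (P d).real (A i ∩ A j) := by
    simp only [hXX]
    rw [integral_finsetSum _ fun i _ => integrable_finsetSum _ fun j _ => hint2 i j]
    refine Finset.sum_congr rfl fun i _ => ?_
    rw [integral_finsetSum _ fun j _ => hint2 i j]
    refine Finset.sum_congr rfl fun j _ => ?_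
    rw [integral_indicator ((hA i).inter (hA j))]
    simp
  have hXi : Integrable X (P d) := integrable_finsetSum _ fun i _ => hint1 i
  have hX2i : Integrable (fun U => X U ^ 2) (P d) := by
    simp only [hXX]
    exact integrable_finsetSum _ fun i _ => integrable_finsetSum _ fun j _ => hint2 i j
  have hI3 : ∫ U, (X U - t) ^ 2 ∂(P d) = ∫ U, X U ^ 2 ∂(P d) - 2 * t * ∫ U, X U ∂(P d) + t ^ 2 := by
    have e : ∀ U, (X U - t) ^ 2 = X U ^ 2 - 2 * t * X U + t ^ 2 := fun U => by ring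
    simp only [e]
    have hi1 : Integrable (fun U => X U ^ 2 - 2 * t * X U) (P d) := hX2i.sub (hXi.const_mul _)
    rw [integral_add hi1 (integrable_const _),
      integral_sub hX2i (hXi.const_mul _), integral_const_mul]
    simp
  have hI4 : Integrable (fun U => (X U - t) ^ 2) (P d) := by
    have e : ∀ U, (X U - t) ^ 2 = X U ^ 2 - 2 * t * X U + t ^ 2 := fun U => by ring
    simp only [e]
    exact (hX2i.sub (hXi.const_mul _)).add (integrable_const _)
  have hI5 : ∫ U, (X U - t) ^ 2 ∂(P d) ≤ M * t ^ 2 := by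
    rw [hI3, hI1, hI2]
    nlinarith
  have hmark : (t / 2) ^ 2 * (P d).real {U | X U ≤ t / 2} ≤ ∫ U, (X U - t) ^ 2 ∂(P d) := by
    have hms : MeasurableSet {U | X U ≤ t / 2} := measurableSet_le hXm measurable_const
    have e : (t / 2) ^ 2 * (P d).real {U | X U ≤ t / 2} =
        ∫ U, ({U | X U ≤ t / 2}).indicator (fun _ => (t / 2) ^ 2) U ∂(P d) := by
      rw [integral_indicator hms]
      simp [mul_comm]
    rw [e]
    apply integral_mono ((integrable_const _).indicator hms) hI4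
    intro U
    by_cases hU : U ∈ {U | X U ≤ t / 2}
    · rw [indicator_of_mem hU]
      have hU' : X U ≤ t / 2 := hU
      show (t / 2) ^ 2 ≤ (X U - t) ^ 2
      nlinarith
    · rw [indicator_of_notMem hU]
      positivity
  have h3 : (t / 2) ^ 2 * (P d).real {U | X U ≤ t / 2} ≤ M * t ^ 2 := hmark.trans hI5
  have h4 : 0 < t ^ 2 := by positivity
  have h5 : (P d).real {U | X U ≤ t / 2} * t ^ 2 ≤ 4 * M * t ^ 2 := by nlinarith
  exact le_of_mul_le_mul_right h5 h4

end Strong_aux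

open Strong_aux

/-! ## FILE Strong (N5) -/

theorem strong_exits {a : ℕ} {pc : ℝ} (h : HD d a pc) : ∃ C > 0, ∃ δ₀ > 0,
    ∀ δ, 0 < δ → δ ≤ δ₀ → ∀ n₁ : ℕ, 1 ≤ n₁ → (n₁ : ℝ) ≤ 1 / δ ^ 14 →
      tail d (pc + δ) n₁ - theta d (pc + δ) ≤ δ ^ 2 →
      ∀ D : Finset (V d), 1 / δ ^ 40 ≤ (D.card : ℝ) →
      (P d).real {U : Cfg d | ((Exits (op (pc + δ) U) univ (↑D)).ncard : ℝ) ≤ 1 / Real.sqrt δ} ≤
        C * Real.sqrt δ := by
  obtain ⟨c, hc, hlb⟩ := h.theta_lb
  obtain ⟨Ct, hCt, hub⟩ := h.tail_ub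
  have hlt := h.lt_one
  set K : ℝ := (3 + 2 * (2 * d + 1) ^ 2) / c with hK
  have hKpos : 0 < K := by positivity
  refine ⟨4 * K + (Ct + 1) + 2 / c, by positivity, min (min 1 c) (1 - pc), by
    refine lt_min (lt_min one_pos hc) (by linarith), ?_⟩
  intro δ hδ hδ₀ n₁ hn₁ hn₁' htail D hD
  have hδ1 : δ ≤ 1 := hδ₀.trans ((min_le_left _ _).trans (min_le_left _ _))
  have hδc : δ ≤ c := hδ₀.trans ((min_le_left _ _).trans (min_le_right _ _))
  have hδp : pc + δ ≤ 1 := by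
    have := hδ₀.trans (min_le_right _ _)
    linarith
  set q : ℝ := pc + δ with hq
  set θ : ℝ := theta d q with hθ
  set π : ℝ := tail d q n₁ with hπ
  have hθ1 : c * δ ≤ θ := hlb δ hδ hδp
  have hθpos : 0 < θ := lt_of_lt_of_le (by positivity) hθ1
  have hθπ : θ ≤ π := theta_le_tail q n₁
  have hθ2 : θ ≤ Ct * δ := by
    have hlim : Tendsto (fun n : ℕ => Ct * (δ + 1 / Real.sqrt n)) atTop (𝓝 (Ct * (δ + 0))) := by
      refine Tendsto.const_mul _ (Tendsto.const_add _ ?_)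
      simp only [one_div]
      exact tendsto_inv_atTop_zero.comp (Real.tendsto_sqrt_atTop.comp tendsto_natCast_atTop_atTop)
    rw [add_zero] at hlim
    refine ge_of_tendsto hlim ?_
    filter_upwards [eventually_ge_atTop 1] with n hn
    exact (theta_le_tail q n).trans (hub δ hδ.le hδp n hn)
  have hDpos : (0 : ℝ) < D.card := lt_of_lt_of_le (by positivity) hD
  set t : ℝ := D.card * θ with ht
  have htpos : 0 < t := by positivity
  have hn1r : (1 : ℝ) ≤ n₁ := by exact_mod_cast hn₁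
  have hδpow : 0 < δ ^ 14 := by positivity
  have hn₁b : (n₁ : ℝ) * δ ^ 14 ≤ 1 := by
    rw [le_div_iff₀ hδpow] at hn₁'
    exact hn₁'
  have hDb : 1 ≤ D.card * δ ^ 40 := by
    rw [div_le_iff₀ (by positivity)] at hD
    exact hD
  -- `n₁ ≤ δ t / c`
  have htb : c ≤ t * δ ^ 39 := by
    have h1 : c * δ ≤ t * δ ^ 39 * δ := by
      calc c * δ ≤ θ := hθ1
        _ = θ * 1 := (mul_one _).symm
        _ ≤ θ * (D.card * δ ^ 40) := by gcongr
        _ = t * δ ^ 39 * δ := by rw [ht]; ring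
    exact le_of_mul_le_mul_right h1 hδ
  have hn2t : c * (n₁ : ℝ) ^ 2 ≤ δ * t := by
    have h1 : ((n₁ : ℝ) * δ ^ 14) ^ 2 ≤ 1 := by
      have : 0 ≤ (n₁ : ℝ) * δ ^ 14 := by positivity
      nlinarith
    have h2 : c * (n₁ : ℝ) ^ 2 ≤ t * δ ^ 39 * (n₁ : ℝ) ^ 2 := by gcongr
    have h3 : t * δ ^ 39 * (n₁ : ℝ) ^ 2 = t * δ ^ 11 * ((n₁ : ℝ) * δ ^ 14) ^ 2 := by ring
    have h4 : t * δ ^ 11 * ((n₁ : ℝ) * δ ^ 14) ^ 2 ≤ t * δ ^ 11 * 1 := by gcongr
    have h5 : δ ^ 11 ≤ δ := by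
      calc δ ^ 11 ≤ δ ^ 1 := pow_le_pow_of_le_one hδ.le hδ1 (by norm_num)
        _ = δ := pow_one δ
    have h6 : t * δ ^ 11 ≤ t * δ := by gcongr
    linarith
  have hn1t : c * (n₁ : ℝ) ≤ δ * t := by
    have : (n₁ : ℝ) ≤ (n₁ : ℝ) ^ 2 := by nlinarith
    nlinarith
  -- ecap
  have hecap : ecap d q n₁ ≤ n₁ := by
    unfold ecap
    calc ∑ j ∈ Finset.Icc 1 n₁, tail d q j ≤ ∑ j ∈ Finset.Icc 1 n₁, (1 : ℝ) :=
          Finset.sum_le_sum fun j _ => measureReal_le_one
      _ = n₁ := by simp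
  have hecap0 : 0 ≤ ecap d q n₁ := Finset.sum_nonneg fun j _ => measureReal_nonneg
  have hπ0 : 0 ≤ π := measureReal_nonneg
  have hπ1 : π ≤ θ + δ ^ 2 := by linarith
  have hπ2 : π ≤ θ * (1 + δ / c) := by
    have : δ ^ 2 ≤ θ * (δ / c) := by
      rw [mul_div_assoc', le_div_iff₀ hc]
      nlinarith
    linarith
  have hπt : D.card * π ≤ t * (1 + δ / c) := by
    calc D.card * π ≤ D.card * (θ * (1 + δ / c)) := by gcongr
      _ = t * (1 + δ / c) := by rw [ht]; ring
  have hδc1 : δ / c ≤ 1 := (div_le_one hc).2 hδc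
  have hδc0 : 0 ≤ δ / c := by positivity
  have hsec : D.card * π * (D.card * π + (2 * d + 1) * n₁ * (1 + 2 * d * ecap d q n₁)) ≤
      (1 + K * δ) * t ^ 2 := by
    have hd0 : (0 : ℝ) ≤ d := Nat.cast_nonneg d
    have h1 : (2 * d + 1) * n₁ * (1 + 2 * d * ecap d q n₁) ≤ (2 * d + 1) ^ 2 * (n₁ : ℝ) ^ 2 := by
      calc (2 * (d : ℝ) + 1) * n₁ * (1 + 2 * d * ecap d q n₁)
          ≤ (2 * d + 1) * n₁ * (n₁ + 2 * d * n₁) := by gcongr
        _ = (2 * d + 1) ^ 2 * (n₁ : ℝ) ^ 2 := by ring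
    have h2 : (n₁ : ℝ) ^ 2 ≤ δ / c * t := by
      rw [div_mul_eq_mul_div, le_div_iff₀ hc]
      linarith
    have h3 : D.card * π ≤ 2 * t := by nlinarith
    have h4 : 0 ≤ D.card * π := by positivity
    calc D.card * π * (D.card * π + (2 * d + 1) * n₁ * (1 + 2 * d * ecap d q n₁))
        = D.card * π * (D.card * π) +
          D.card * π * ((2 * d + 1) * n₁ * (1 + 2 * d * ecap d q n₁)) := by ring
      _ ≤ (t * (1 + δ / c)) * (t * (1 + δ / c)) +
          2 * t * ((2 * d + 1) ^ 2 * (δ / c * t)) := by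
          apply add_le_add
          · exact mul_le_mul hπt hπt h4 (by positivity)
          · exact mul_le_mul h3 (h1.trans (by gcongr)) (by positivity) (by positivity)
      _ = t ^ 2 * ((1 + δ / c) ^ 2 + 2 * (2 * d + 1) ^ 2 * (δ / c)) := by ring
      _ ≤ t ^ 2 * (1 + 3 * (δ / c) + 2 * (2 * d + 1) ^ 2 * (δ / c)) := by
          gcongr
          nlinarith
      _ = (1 + K * δ) * t ^ 2 := by rw [hK]; ring
  -- square roots
  set ρ : ℝ := Real.sqrt δ with hρ
  have hρpos : 0 < ρ := Real.sqrt_pos.2 hδ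
  have hρ2 : ρ * ρ = δ := Real.mul_self_sqrt hδ.le
  have hρ1 : ρ ≤ 1 := by
    rw [hρ, Real.sqrt_le_one]; exact hδ1
  have hδρ : δ ≤ ρ := by nlinarith
  set J : ℕ := ⌊1 / ρ⌋₊ with hJ
  have hJle : (J : ℝ) ≤ 1 / ρ := Nat.floor_le (by positivity)
  have hJlt : 1 / ρ < J + 1 := Nat.lt_floor_add_one _
  -- finite volume
  have hfinvol : ∃ N₀ : ℕ, ∀ N ≥ N₀, ∀ Λ Γ : Finset (V d),
      (∀ v, v ∈ Λ ↔ v ∉ (∅ : Finset (V d)) ∧ ‖v‖ ≤ N) →
      (∀ v, v ∈ Γ ↔ v ∉ (∅ : Finset (V d)) ∧ ‖v‖ = N) →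
      1 - (4 * K + (Ct + 1) + 2 / c) * ρ ≤
        (P d).real {U : Cfg d | ((J + 1 : ℕ) : ℕ∞) ≤
          (ExitsTo (op q U) (↑Λ) (↑D) (↑Γ)).encard} := by
    refine ⟨D.sup nn + n₁, ?_⟩
    intro N hN Λ Γ hΛ hΓ
    have hΛ' : ∀ v, v ∈ Λ ↔ nn v ≤ N := by
      intro v
      rw [hΛ v, norm_eq]
      simp
    have hΓ' : ∀ v, v ∈ Γ ↔ nn v = N := by
      intro v
      rw [hΓ v, norm_eq]
      simp
    have hΛs : (↑Λ : Set (V d)) = {v | nn v ≤ N} := by
      ext v; exact hΛ' v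
    have hDn : ∀ v ∈ D, nn v + n₁ ≤ N := by
      intro v hv
      have := Finset.le_sup (f := nn) hv
      omega
    have hDΛ : D ⊆ Λ := fun v hv => (hΛ' v).2 (by have := hDn v hv; omega)
    have hΓΛ : Γ ⊆ Λ := fun v hv => (hΛ' v).2 ((hΓ' v).1 hv).le
    have hDΓ : Disjoint D Γ := by
      rw [Finset.disjoint_left]
      intro v hv hv'
      have h1 := hDn v hv
      have h2 := (hΓ' v).1 hv'
      omega
    set A : V d → Set (Cfg d) := fun w => {U | ∃ g ∈ Γ, Conn (op q U) (↑Λ) w g} with hAdef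
    have hA : ∀ w, MeasurableSet (A w) := by
      intro w
      have : A w = ⋃ g ∈ Γ, {U : Cfg d | Conn (op q U) (↑Λ) w g} := by
        ext U; simp [hAdef]
      rw [this]
      exact Finset.measurableSet_biUnion _ fun g _ => measurableSet_conn q _ _ _
    have hA1 : ∀ w ∈ D, θ ≤ (P d).real (A w) := by
      intro w hw
      rw [hθ, ← thetaW_univ q w]
      apply measureReal_mono _ (measure_ne_top _ _)
      intro U hU
      have hU' : (Cl (op q U) univ w).Infinite := hU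
      have hex : ∃ z ∈ Cl (op q U) univ w, z ∉ Λ := by
        by_contra hcon
        push Not at hcon
        exact hU' (Λ.finite_toSet.subset hcon)
      obtain ⟨z, hz, hzΛ⟩ := hex
      rw [hΛ'] at hzΛ
      obtain ⟨g, hg, hgc⟩ := cross (N := N) hz (by have := hDn w hw; omega) (by omega)
      refine ⟨g, (hΓ' g).2 hg, ?_⟩
      rw [hΛs]
      exact hgc
    have hA2 : ∀ w ∈ D, ∀ U ∈ A w, (n₁ : ℕ∞) ≤ (Cl (op q U) univ w).encard := by
      rintro w hw U ⟨g, hg, hgc⟩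
      have hgc' : Conn (op q U) univ w g := hgc.mono subset_rfl (subset_univ _)
      apply card_reach hgc'
      rw [(hΓ' g).1 hg]
      exact hDn w hw
    have hX1 : t ≤ ∑ w ∈ D, (P d).real (A w) := by
      calc t = ∑ w ∈ D, θ := by rw [Finset.sum_const, nsmul_eq_mul]
        _ ≤ _ := Finset.sum_le_sum hA1
    have hX2 : ∑ w ∈ D, ∑ w' ∈ D, (P d).real (A w ∩ A w') ≤ (1 + K * δ) * t ^ 2 := by
      refine le_trans ?_ ((pair_bound q univ D n₁ hn₁).trans hsec)
      refine Finset.sum_le_sum fun w hw => Finset.sum_le_sum fun w' hw' => ?_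
      apply measureReal_mono _ (measure_ne_top _ _)
      rintro U ⟨h1, h2⟩
      exact ⟨hA2 w hw U h1, hA2 w' hw' U h2⟩
    have hcheb := cheb D A hA htpos hX1 hX2
    obtain ⟨Xs, B, hXsm, hBm, hXs0, hXsi, hXsB, hXsI, hPB⟩ :=
      exits_split q Λ D Γ hDΛ hΓΛ hDΓ n₁ J
    -- Markov for `Xs`
    have hmark : (P d).real {U | t / 2 ≤ Xs U} ≤ J * ecap d q n₁ / (t / 2) := by
      have h1 := mul_meas_ge_le_integral_of_nonneg (μ := P d) (f := Xs)
        (Filter.Eventually.of_forall hXs0) hXsi (t / 2)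
      rw [le_div_iff₀ (by positivity)]
      have h2 : t / 2 * (P d).real {U | t / 2 ≤ Xs U} ≤ J * ecap d q n₁ := h1.trans hXsI
      linarith
    have hcover : {U : Cfg d | ((J + 1 : ℕ) : ℕ∞) ≤
        (ExitsTo (op q U) (↑Λ) (↑D) (↑Γ)).encard}ᶜ ⊆
        B ∪ ({U | ∑ w ∈ D, (A w).indicator (fun _ => (1 : ℝ)) U ≤ t / 2} ∪
          {U | t / 2 ≤ Xs U}) := by
      intro U hU
      by_cases hUB : U ∈ B
      · exact Or.inl hUB
      right
      have hU' : (ExitsTo (op q U) (↑Λ) (↑D) (↑Γ)).encard ≤ J := by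
        have h1 : ¬ ((J + 1 : ℕ) : ℕ∞) ≤ (ExitsTo (op q U) (↑Λ) (↑D) (↑Γ)).encard := hU
        rw [not_le] at h1
        push_cast at h1
        exact (ENat.lt_add_one_iff (ENat.natCast_ne_top J)).1 h1
      have h2 := hXsB U hUB hU'
      have h3 : ({w : V d | w ∈ D ∧ ∃ g ∈ Γ, Conn (op q U) (↑Λ) w g}.ncard : ℝ) =
          ∑ w ∈ D, (A w).indicator (fun _ => (1 : ℝ)) U := by
        classical
        have e1 : {w : V d | w ∈ D ∧ ∃ g ∈ Γ, Conn (op q U) (↑Λ) w g} =
            ↑(D.filter fun w => U ∈ A w) := by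
          ext w; simp [hAdef]
        rw [e1, Set.ncard_coe_finset, Finset.card_filter]
        push_cast
        refine Finset.sum_congr rfl fun w _ => ?_
        simp [Set.indicator_apply]
      rw [h3] at h2
      by_cases h4 : ∑ w ∈ D, (A w).indicator (fun _ => (1 : ℝ)) U ≤ t / 2
      · exact Or.inl h4
      · right
        push Not at h4
        exact (h4.le.trans h2)
    have hcompl : (P d).real {U : Cfg d | ((J + 1 : ℕ) : ℕ∞) ≤
        (ExitsTo (op q U) (↑Λ) (↑D) (↑Γ)).encard}ᶜ ≤ (4 * K + (Ct + 1) + 2 / c) * ρ := by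
      have h1 := (measureReal_mono hcover (measure_ne_top (P d) _)).trans
        ((measureReal_union_le _ _).trans (add_le_add le_rfl (measureReal_union_le _ _)))
      have h2 : (J : ℝ) * π ≤ (Ct + 1) * ρ := by
        have h3 : π ≤ (Ct + 1) * δ := by nlinarith
        calc (J : ℝ) * π ≤ 1 / ρ * ((Ct + 1) * δ) := by gcongr
          _ = (Ct + 1) * ρ := by rw [← hρ2]; field_simp
      have h4 : (J : ℝ) * ecap d q n₁ / (t / 2) ≤ 2 / c * ρ := by
        rw [div_le_iff₀ (by positivity)]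
        calc (J : ℝ) * ecap d q n₁ ≤ 1 / ρ * n₁ := by gcongr
          _ ≤ 1 / ρ * (δ * t / c) := by
              gcongr
              rw [le_div_iff₀ hc]; linarith
          _ = 2 / c * ρ * (t / 2) := by rw [← hρ2]; field_simp
      have h5 : 4 * (K * δ) ≤ 4 * K * ρ := by nlinarith
      have h6 := hPB
      have h7 := hcheb
      have h8 := hmark
      linarith
    rw [probReal_compl_eq_one_sub (measurableSet_exitsTo q _ _ _ _)] at hcompl
    linarith
  have hlim := exits_limit q ∅ D (Finset.disjoint_empty_left _) (J + 1) _ hfinvol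
  have hempty : (↑(∅ : Finset (V d)) : Set (V d))ᶜ = univ := by simp
  rw [hempty] at hlim
  have hsub : {U : Cfg d | ((Exits (op q U) univ (↑D)).ncard : ℝ) ≤ 1 / ρ} ⊆
      {U : Cfg d | ((J + 1 : ℕ) : ℕ∞) ≤ (Exits (op q U) univ (↑D)).encard}ᶜ := by
    intro U hU hU'
    have hfin := exits_finite (op q U) univ D
    have h1 : ((J + 1 : ℕ) : ℕ∞) ≤ (Exits (op q U) univ (↑D)).encard := hU'
    rw [hfin.encard_eq_coe_toFinset_card, ← Set.ncard_eq_toFinset_card _ hfin] at h1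
    have h2 : J + 1 ≤ (Exits (op q U) univ (↑D)).ncard := by exact_mod_cast h1
    have h3 : ((J + 1 : ℕ) : ℝ) ≤ (Exits (op q U) univ (↑D)).ncard := by exact_mod_cast h2
    have h4 : ((Exits (op q U) univ (↑D)).ncard : ℝ) ≤ 1 / ρ := hU
    push_cast at h3
    linarith
  have h1 := measureReal_mono hsub (measure_ne_top (P d) _)
  rw [probReal_compl_eq_one_sub (measurableSet_exits q _ _ _)] at h1
  linarith

end Pool.Agent.helper55.FP
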